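import Mathlib

/-! A pointwise Laplacian defined by four-point differences, and the maximum principle. -/

namespace Pool.Agent.Lib.MP_879098_ag.Ahl

open Filter Topology Complex

/-- One quarter of the Laplacian of `Ψ` at `z` is `c`, in the sense of four-point differences. -/
def Lap (Ψ : ℂ → ℝ) (z : ℂ) (c : ℝ) : Prop :=
  Tendsto (fun τ : ℝ => (Ψ (z + τ * 1) + Ψ (z + τ * (-1)) + Ψ (z + τ * I) + Ψ (z + τ * (-I)) -
    4 * Ψ z) / τ ^ 2) (𝓝[≠] 0) (𝓝 (4 * c))

variable {Ψ Φ : ℂ → ℝ} {z : ℂ} {c d : ℝ}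

theorem tend0 (u : ℂ) : Tendsto (fun τ : ℝ => (τ : ℂ) * u) (𝓝[≠] 0) (𝓝 0) := by
  have : Continuous fun τ : ℝ => (τ : ℂ) * u := by fun_prop
  simpa using (this.tendsto 0).mono_left nhdsWithin_le_nhds

theorem tend (z u : ℂ) : Tendsto (fun τ : ℝ => z + (τ : ℂ) * u) (𝓝[≠] 0) (𝓝 z) := by
  simpa using (tend0 u).const_add z

theorem Lap.add (h : Lap Ψ z c) (h' : Lap Φ z d) : Lap (fun w => Ψ w + Φ w) z (c + d) := by
  have := Tendsto.add h h'
  rw [← mul_add] at this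
  exact this.congr fun τ => by ring

theorem Lap.const_mul (a : ℝ) (h : Lap Ψ z c) : Lap (fun w => a * Ψ w) z (a * c) := by
  have := Tendsto.const_mul a h
  rw [mul_left_comm] at this
  exact this.congr fun τ => by ring

theorem Lap.congr (h : Lap Ψ z c) (e : ∀ᶠ w in 𝓝 z, Ψ w = Φ w) : Lap Φ z c := by
  refine Tendsto.congr' ?_ h
  filter_upwards [(tend z 1).eventually e, (tend z (-1)).eventually e, (tend z I).eventually e,
    (tend z (-I)).eventually e] with τ h1 h2 h3 h4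
  rw [h1, h2, h3, h4, e.self_of_nhds]

theorem Lap.nonpos (h : Lap Ψ z c) (hm : IsLocalMax Ψ z) : c ≤ 0 := by
  have : 4 * c ≤ 0 := by
    refine le_of_tendsto h ?_
    filter_upwards [(tend z 1).eventually hm, (tend z (-1)).eventually hm,
      (tend z I).eventually hm, (tend z (-I)).eventually hm] with τ h1 h2 h3 h4
    exact div_nonpos_of_nonpos_of_nonneg (by linarith) (sq_nonneg _)
  linarith

theorem lap_const (a : ℝ) (z : ℂ) : Lap (fun _ => a) z 0 := by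
  unfold Lap
  rw [mul_zero]
  exact tendsto_const_nhds.congr fun τ => by ring

theorem lap_quad (h0 : Ψ z = 0) (h : Tendsto (fun w => Ψ (z + w) / ‖w‖ ^ 2) (𝓝[≠] 0) (𝓝 c)) :
    Lap Ψ z c := by
  have h1 : ∀ u : ℂ, ‖u‖ = 1 →
      Tendsto (fun τ : ℝ => Ψ (z + τ * u) / τ ^ 2) (𝓝[≠] 0) (𝓝 c) := by
    intro u hu
    have h2 : Tendsto (fun τ : ℝ => (τ : ℂ) * u) (𝓝[≠] 0) (𝓝[≠] 0) := by
      refine tendsto_nhdsWithin_iff.2 ⟨tend0 u, ?_⟩
      filter_upwards [self_mem_nhdsWithin] with τ hτ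
      exact mul_ne_zero (ofReal_ne_zero.2 hτ) (norm_pos_iff.1 (by rw [hu]; exact one_pos))
    refine (h.comp h2).congr fun τ => ?_
    simp [hu]
  have := (((h1 1 (by simp)).add (h1 (-1) (by simp))).add (h1 I (by simp))).add (h1 (-I) (by simp))
  unfold Lap
  rw [show 4 * c = c + c + c + c by ring]
  exact this.congr fun τ => by rw [h0]; ring

theorem lap_re {h : ℂ → ℂ} (hh : AnalyticAt ℂ h z) : Lap (fun w => (h w).re) z 0 := by
  have h1 : AnalyticAt ℂ (fun w => h (z + w)) 0 :=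
    AnalyticAt.comp (f := fun w => z + w) (by simpa using hh) (by fun_prop)
  obtain ⟨k, hk, h2⟩ := h1.exists_eq_sum_add_pow_mul 3
  obtain ⟨a, b, h3⟩ : ∃ a b : ℂ, ∀ w, h (z + w) = h z + a * w + b * w ^ 2 + w ^ 3 * k w := by
    refine ⟨iteratedDeriv 1 (fun w => h (z + w)) 0, iteratedDeriv 2 (fun w => h (z + w)) 0 / 2,
      fun w => ?_⟩
    rw [h2 w]
    simp [Finset.sum_range_succ]
    ring
  have h4 : ∀ u : ℂ, Tendsto (fun τ : ℝ => k (τ * u)) (𝓝[≠] 0) (𝓝 (k 0)) := fun u =>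
    hk.continuousAt.tendsto.comp (tend0 u)
  have h5 := (continuous_re.tendsto _).comp ((tend0 1).mul
    ((((h4 1).sub (h4 (-1))).sub ((h4 I).const_mul I)).add ((h4 (-I)).const_mul I)))
  unfold Lap
  simp only [zero_mul, zero_re, mul_zero] at h5 ⊢
  refine h5.congr' ?_
  filter_upwards [self_mem_nhdsWithin] with τ hτ
  have hτ' : τ ≠ 0 := hτ
  have h6 : h (z + τ * 1) + h (z + τ * (-1)) + h (z + τ * I) + h (z + τ * (-I)) - (4 : ℝ) * h z =
      (τ ^ 2 : ℝ) * (τ * 1 * (k (τ * 1) - k (τ * (-1)) - I * k (τ * I) + I * k (τ * (-I)))) := by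
    simp only [h3]
    push_cast
    linear_combination (2 * b * τ ^ 2 + τ ^ 3 * I * k (τ * I) - τ ^ 3 * I * k (τ * (-I))) * I_sq
  have h7 := congrArg re h6
  rw [re_ofReal_mul, sub_re, add_re, add_re, add_re, re_ofReal_mul] at h7
  rw [h7]
  simp only [Function.comp]
  field_simp

theorem analyticAt_log_div {H : ℂ → ℂ} (hH : AnalyticAt ℂ H z) (h0 : H z ≠ 0) :
    AnalyticAt ℂ (fun w => log (H w / H z)) z :=
  (hH.div_const (c := H z)).clog (by rw [div_self h0]; exact one_mem_slitPlane)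

theorem lap_log {H : ℂ → ℂ} (hH : AnalyticAt ℂ H z) (h0 : H z ≠ 0) :
    Lap (fun w => Real.log ‖H w‖) z 0 := by
  have := (lap_re (analyticAt_log_div hH h0)).add (lap_const (Real.log ‖H z‖) z)
  rw [add_zero] at this
  refine this.congr ?_
  filter_upwards [hH.continuousAt.eventually_ne h0] with w hw
  rw [log_re, norm_div, Real.log_div (norm_ne_zero_iff.2 hw) (norm_ne_zero_iff.2 h0)]
  ring

theorem lap_small {K : ℂ → ℂ} {K' : ℂ} (hK : HasDerivAt K K' z) (h0 : K z = 0) (ε : ℝ) :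
    Lap (fun w => Real.log (1 + ε * ‖K w‖ ^ 2)) z (ε * ‖K'‖ ^ 2) := by
  refine lap_quad (by simp [h0]) ?_
  have h1 : Tendsto (fun w => ε * ‖w⁻¹ • (K (z + w) - K z)‖ ^ 2) (𝓝[≠] 0) (𝓝 (ε * ‖K'‖ ^ 2)) :=
    ((hasDerivAt_iff_tendsto_slope_zero.1 hK).norm.pow 2).const_mul ε
  have h2 : HasDerivAt (fun x : ℝ => Real.log (1 + x)) 1 0 := by
    simpa using ((hasDerivAt_id (0 : ℝ)).const_add 1).log (by simp)
  have h3 : ContinuousAt (dslope (fun x : ℝ => Real.log (1 + x)) 0) 0 :=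
    continuousAt_dslope_same.2 h2.differentiableAt
  have h4 : Tendsto (fun w => ε * ‖K (z + w)‖ ^ 2) (𝓝[≠] 0) (𝓝 0) := by
    have h5 : Tendsto (fun w => z + w) (𝓝[≠] 0) (𝓝 z) := by
      simpa using (tendsto_id.const_add z).mono_left (nhdsWithin_le_nhds (a := (0 : ℂ)))
    simpa [h0] using (((hK.continuousAt.tendsto.comp h5).norm.pow 2).const_mul ε)
  have h5 := (h3.tendsto.comp h4).mul h1
  rw [dslope_same, h2.deriv, one_mul] at h5
  refine h5.congr fun w => ?_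
  have h6 := sub_smul_dslope (fun x : ℝ => Real.log (1 + x)) 0 (ε * ‖K (z + w)‖ ^ 2)
  simp only [sub_zero, add_zero, Real.log_one, smul_eq_mul] at h6
  simp only [Function.comp, h0, sub_zero, norm_smul, norm_inv]
  rw [← h6]
  ring

theorem lap_one_add {P : ℂ → ℂ} (hP : AnalyticAt ℂ P z) (ε : ℝ) (h0 : 0 < 1 + ε * ‖P z‖ ^ 2) :
    Lap (fun w => Real.log (1 + ε * ‖P w‖ ^ 2)) z
      (ε * ‖deriv P z‖ ^ 2 / (1 + ε * ‖P z‖ ^ 2) ^ 2) := by
  let Q : ℂ → ℂ := fun w => 1 + ε * (starRingEnd ℂ) (P z) * P w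
  have hQ : AnalyticAt ℂ Q z := analyticAt_const.add (analyticAt_const.mul hP)
  have hQ0 : Q z = ((1 + ε * ‖P z‖ ^ 2 : ℝ) : ℂ) := by
    simp only [Q, mul_assoc, conj_mul']
    push_cast
    rfl
  have hQ1 : Q z ≠ 0 := by
    rw [hQ0]
    exact ofReal_ne_zero.2 h0.ne'
  have hK : HasDerivAt (fun w => (P w - P z) / Q w) (deriv P z / Q z) z := by
    refine ((hP.differentiableAt.hasDerivAt.sub_const (P z)).div
      hQ.differentiableAt.hasDerivAt hQ1).congr_deriv ?_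
    field_simp
    ring
  have h1 := ((lap_small hK (by simp) ε).add ((lap_log hQ hQ1).const_mul 2)).add
    (lap_const (-Real.log (1 + ε * ‖P z‖ ^ 2)) z)
  rw [norm_div, hQ0, norm_real, Real.norm_of_nonneg h0.le, div_pow, mul_zero, add_zero, add_zero,
    ← mul_div_assoc] at h1
  refine h1.congr ?_
  have h2 : ContinuousAt (fun w => 1 + ε * ‖P w‖ ^ 2) z :=
    continuousAt_const.add (continuousAt_const.mul (hP.continuousAt.norm.pow 2))
  filter_upwards [hQ.continuousAt.eventually_ne hQ1, h2.eventually (lt_mem_nhds h0)] with w h3 h4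
  have h5 : (1 + ε * ‖P w‖ ^ 2) * (1 + ε * ‖P z‖ ^ 2) = ‖Q w‖ ^ 2 + ε * ‖P w - P z‖ ^ 2 := by
    simp only [Q, Complex.sq_norm, normSq_apply, add_re, add_im, mul_re, mul_im, one_re, one_im,
      ofReal_re, ofReal_im, conj_re, conj_im, sub_re, sub_im]
    ring
  have h6 : 0 < ‖Q w‖ := norm_pos_iff.2 h3
  have h7 : 1 + ε * ‖(P w - P z) / Q w‖ ^ 2 =
      (1 + ε * ‖P w‖ ^ 2) * (1 + ε * ‖P z‖ ^ 2) / ‖Q w‖ ^ 2 := by
    rw [h5, norm_div]
    field_simp
  rw [h7, Real.log_div (by positivity) (by positivity), Real.log_mul h4.ne' h0.ne', Real.log_pow]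
  push_cast
  ring

/-- `|x| ^ (2 / 5)` -/
noncomputable def A (x : ℂ) : ℝ := ‖x‖ ^ (2 / 5 : ℝ)

theorem lap_A {H : ℂ → ℂ} (hH : AnalyticAt ℂ H z) (h0 : H z ≠ 0) :
    Lap (fun w => Real.log (1 + A (H w))) z
      (‖deriv H z / H z‖ ^ 2 / 25 * (A (H z) / (1 + A (H z)) ^ 2)) := by
  have hL := analyticAt_log_div hH h0
  have hn : 0 < ‖H z‖ := norm_pos_iff.2 h0
  let P : ℂ → ℂ := fun w => (‖H z‖ ^ (1 / 5 : ℝ) : ℝ) * exp ((1 / 5 : ℝ) * log (H w / H z))
  have hP : AnalyticAt ℂ P z := analyticAt_const.mul (analyticAt_const.mul hL).cexp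
  have h1 : ∀ w, H w ≠ 0 → ‖P w‖ ^ 2 = A (H w) := by
    intro w hw
    have hw' : 0 < ‖H w‖ := norm_pos_iff.2 hw
    simp only [P, A, norm_mul, norm_exp, re_ofReal_mul, log_re, norm_real, norm_div]
    rw [Real.norm_of_nonneg (by positivity), mul_comm (1 / 5 : ℝ),
      ← Real.rpow_def_of_pos (by positivity), ← Real.mul_rpow hn.le (by positivity),
      mul_div_cancel₀ _ hn.ne', ← Real.rpow_natCast, ← Real.rpow_mul hw'.le]
    norm_num
  have h2 : HasDerivAt P (P z * ((1 / 5 : ℝ) * (deriv H z / H z))) z := by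
    have h3 : HasDerivAt (fun w => log (H w / H z)) (deriv H z / H z) z := by
      convert (hH.differentiableAt.hasDerivAt.div_const (H z)).clog
        (by rw [div_self h0]; exact one_mem_slitPlane) using 1
      rw [div_self h0, div_one]
    refine (((h3.const_mul ((1 / 5 : ℝ) : ℂ)).cexp).const_mul
      ((‖H z‖ ^ (1 / 5 : ℝ) : ℝ) : ℂ)).congr_deriv ?_
    simp only [P]
    ring
  have h3 := lap_one_add hP 1 (by positivity)
  rw [h2.deriv, norm_mul, mul_pow, h1 z h0, norm_mul, norm_real] at h3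
  convert h3.congr (Φ := fun w => Real.log (1 + A (H w))) ?_ using 1
  · rw [Real.norm_of_nonneg (by norm_num)]
    ring
  · filter_upwards [hH.continuousAt.eventually_ne h0] with w hw
    rw [h1 w hw, one_mul]

end Pool.Agent.Lib.MP_879098_ag.Ahl
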