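import Pool.Agent.Lib.MP_879098_ag.Base
import Pool.Agent.Lib.MP_879098_ag.AhlA

/-! The pinched cone metric on the sphere with `m + 2` marked points. -/

namespace Pool.Agent.Lib.MP_879098_ag.Ahl

open Filter Topology Metric

theorem A_nonneg (x : ℂ) : 0 ≤ A x := Real.rpow_nonneg (norm_nonneg _) _

theorem A_pos {x : ℂ} (h : x ≠ 0) : 0 < A x := Real.rpow_pos_of_pos (norm_pos_iff.2 h) _

theorem A_zero : A 0 = 0 := by simp [A]

theorem A_one : A 1 = 1 := by simp [A]

theorem A_neg (x : ℂ) : A (-x) = A x := by simp [A]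

theorem A_mul (x y : ℂ) : A (x * y) = A x * A y := by
  rw [A, norm_mul, Real.mul_rpow (norm_nonneg _) (norm_nonneg _)]
  rfl

theorem A_inv (x : ℂ) : A x⁻¹ = (A x)⁻¹ := by
  rw [A, norm_inv, Real.inv_rpow (norm_nonneg _)]
  rfl

theorem A_pow (x : ℂ) : A x ^ 5 = ‖x‖ ^ 2 := by
  rw [A, ← Real.rpow_natCast, ← Real.rpow_mul (norm_nonneg _), ← Real.rpow_natCast]
  norm_num

theorem A_add (x y : ℂ) : A (x + y) ≤ A x + A y :=
  (Real.rpow_le_rpow (norm_nonneg _) (norm_add_le x y) (by norm_num)).trans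
    (Real.rpow_add_le_add_rpow (norm_nonneg _) (norm_nonneg _) (by norm_num) (by norm_num))

theorem one_le_A {x : ℂ} (h : 1 ≤ ‖x‖) : 1 ≤ A x := Real.one_le_rpow h (by norm_num)

theorem continuous_A : Continuous A := continuous_norm.rpow_const fun _ => Or.inr (by norm_num)

theorem log_A {x : ℂ} (h : x ≠ 0) : Real.log (A x) = 2 / 5 * Real.log ‖x‖ :=
  Real.log_rpow (norm_pos_iff.2 h) _

theorem p_le (u : ℂ) : A u ≤ 1 + A (u - 1) := by
  simpa [A_one] using A_add 1 (u - 1)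

theorem q_le (u : ℂ) : A (u - 1) ≤ 1 + A u := by
  have := A_add (-1) u
  rwa [A_neg, A_one, neg_add_eq_sub] at this

theorem one_le_add (u : ℂ) : 1 ≤ A u + A (u - 1) := by
  have := A_add u (-(u - 1))
  rwa [A_neg, show u + -(u - 1) = 1 by ring, A_one] at this

theorem br_upper {p q : ℝ} (hp : 0 ≤ p) (hq : 0 ≤ q) (h : q ≤ 1 + p) :
    q ^ 5 * (p / (1 + p) ^ 2) ≤ p * q * ((1 + p) * (1 + q)) := by
  rw [← mul_div_assoc, div_le_iff₀ (by positivity)]
  calc q ^ 5 * p = p * q * (q ^ 3 * q) := by ring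
    _ ≤ p * q * ((1 + p) ^ 3 * (1 + q)) := by gcongr; linarith
    _ = _ := by ring

theorem br_lower {p q : ℝ} (hp : 0 ≤ p) (h : p ≤ q) (h1 : 1 ≤ p + q) :
    p * q * ((1 + p) * (1 + q)) / 81 ≤ q ^ 5 * (p / (1 + p) ^ 2) := by
  have hq : 0 ≤ q := hp.trans h
  rw [← mul_div_assoc, div_le_div_iff₀ (by positivity) (by positivity)]
  calc p * q * ((1 + p) * (1 + q)) * (1 + p) ^ 2 = p * q * ((1 + p) ^ 3 * (1 + q)) := by ring
    _ ≤ p * q * ((3 * q) ^ 3 * (3 * q)) := by gcongr <;> linarith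
    _ = _ := by ring

variable (m : ℕ)

/-- the weight -/
noncomputable def En (s : ℂ) : ℝ := (1 + A (s ^ m)) * (1 + A (s ^ m - 1))

/-- a small power of the weight -/
noncomputable def ee (s : ℂ) : ℝ := En m s ^ (5 / (2 * m) : ℝ)

/-- the cone metric -/
noncomputable def sig (s s' : ℂ) : ℝ :=
  ‖s' / ff m s‖ ^ 2 * (A (s ^ m) * A (s ^ m - 1) * En m s)

theorem one_le_En (s : ℂ) : 1 ≤ En m s :=
  one_le_mul_of_one_le_of_one_le (le_add_of_nonneg_right (A_nonneg _))
    (le_add_of_nonneg_right (A_nonneg _))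

theorem En_pos (s : ℂ) : 0 < En m s := one_pos.trans_le (one_le_En m s)

theorem continuous_En : Continuous (En m) :=
  (continuous_const.add (continuous_A.comp (continuous_pow m))).mul
    (continuous_const.add (continuous_A.comp ((continuous_pow m).sub continuous_const)))

theorem one_le_ee (s : ℂ) : 1 ≤ ee m s := Real.one_le_rpow (one_le_En m s) (by positivity)

theorem ee_pos (s : ℂ) : 0 < ee m s := one_pos.trans_le (one_le_ee m s)

theorem continuous_ee : Continuous (ee m) :=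
  (continuous_En m).rpow_const fun s => Or.inl (En_pos m s).ne'

theorem continuous_ff : Continuous (ff m) := by
  unfold ff
  fun_prop

theorem sig_nonneg (s s' : ℂ) : 0 ≤ sig m s s' :=
  mul_nonneg (sq_nonneg _) (mul_nonneg (mul_nonneg (A_nonneg _) (A_nonneg _)) (En_pos m s).le)

variable {m}

theorem le_ee_pow (hm : 0 < m) {s x : ℂ} (h : A x ^ 2 ≤ En m s) : ‖x‖ ^ 2 ≤ ee m s ^ m := by
  have hm' : (m : ℝ) ≠ 0 := by exact_mod_cast hm.ne'
  have h1 : (ee m s ^ m) ^ 2 = En m s ^ 5 := by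
    rw [← pow_mul, ee, ← Real.rpow_natCast, ← Real.rpow_mul (En_pos m s).le, ← Real.rpow_natCast]
    congr 1
    push_cast
    field_simp
  refine le_of_sq_le_sq ?_ (pow_nonneg (ee_pos m s).le m)
  rw [h1, ← A_pow, ← pow_mul, show 5 * 2 = 2 * 5 from rfl, pow_mul]
  exact pow_le_pow_left₀ (sq_nonneg _) h 5

theorem sq_le_ee (hm : 0 < m) (s : ℂ) : ‖s‖ ^ 2 ≤ ee m s := by
  have h : A (s ^ m) ^ 2 ≤ En m s := by
    rw [sq]
    exact mul_le_mul (le_add_of_nonneg_left zero_le_one) (p_le _) (A_nonneg _)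
      (add_nonneg zero_le_one (A_nonneg _))
  have h1 := le_ee_pow hm h
  rw [norm_pow, ← pow_mul, mul_comm, pow_mul] at h1
  exact (pow_le_pow_iff_left₀ (sq_nonneg _) (ee_pos m s).le hm.ne').1 h1

theorem ff_le_ee (hm : 0 < m) (s : ℂ) : ‖ff m s‖ ^ 2 ≤ ee m s ^ (m + 2) := by
  have h : A (s ^ m - 1) ^ 2 ≤ En m s := by
    rw [sq]
    exact mul_le_mul (q_le _) (le_add_of_nonneg_left zero_le_one) (A_nonneg _)
      (add_nonneg zero_le_one (A_nonneg _))
  have h0 := ee_pos m s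
  rw [ff, norm_mul, mul_pow]
  calc _ ≤ ee m s * ee m s ^ m :=
        mul_le_mul (sq_le_ee hm s) (le_ee_pow hm h) (sq_nonneg _) h0.le
    _ = ee m s ^ (m + 1) := by ring
    _ ≤ _ := pow_le_pow_right₀ (one_le_ee m s) (by omega)

theorem Z_le_one (hm : 0 < m) {s t y : ℂ} (h : y ^ (m + 2) = ff m s * ff m t) :
    ‖y‖ ^ 2 / (ee m s * ee m t) ≤ 1 := by
  have h1 := ee_pos m s
  have h2 := ee_pos m t
  rw [div_le_one (by positivity)]
  refine (pow_le_pow_iff_left₀ (sq_nonneg _) (by positivity) (Nat.succ_ne_zero (m + 1))).1 ?_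
  change (‖y‖ ^ 2) ^ (m + 2) ≤ (ee m s * ee m t) ^ (m + 2)
  rw [← pow_mul, mul_comm 2, pow_mul, ← norm_pow, h, norm_mul, mul_pow, mul_pow]
  exact mul_le_mul (ff_le_ee hm s) (ff_le_ee hm t) (sq_nonneg _) (by positivity)

theorem sig_inv {g : ℂ} (g' : ℂ) (h0 : g ≠ 0) (h1 : g ^ m - 1 ≠ 0) :
    sig m g⁻¹ (-g' / g ^ 2) = ‖g' / ff m g‖ ^ 2 * (A (g ^ m) * A (g ^ m - 1) *
      ((1 + A (g ^ m)) * (A (g ^ m) + A (g ^ m - 1)))) := by
  have hu : g ^ m ≠ 0 := pow_ne_zero _ h0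
  have h2 : g⁻¹ ^ m - 1 = -((g ^ m - 1) * (g ^ m)⁻¹) := by
    rw [inv_pow]
    field_simp
    ring
  have h3 : -g' / g ^ 2 / ff m g⁻¹ = g' / ff m g * g ^ m := by
    rw [ff, ff, h2]
    field_simp
  have h4 := A_pos hu
  rw [sig, En, h3, h2, A_neg, A_mul, inv_pow, A_inv, norm_mul, mul_pow, ← A_pow (g ^ m)]
  field_simp
  ring

theorem lap_En {S : ℂ → ℂ} {z : ℂ} (hS : AnalyticAt ℂ S z) (h0 : ff m (S z) ≠ 0) :
    ∃ M, Lap (fun w => Real.log (En m (S w))) z M ∧
      (m : ℝ) ^ 2 / 25 * (sig m (S z) (deriv S z) / 81) ≤ M ∧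
      M ≤ (m : ℝ) ^ 2 / 25 * (2 * sig m (S z) (deriv S z)) := by
  have h1 : S z ≠ 0 := left_ne_zero_of_mul h0
  have h2 : S z ^ m - 1 ≠ 0 := right_ne_zero_of_mul h0
  have h3 : S z ^ m ≠ 0 := pow_ne_zero _ h1
  have hd : HasDerivAt (fun w => S w ^ m) (m * S z ^ m * (deriv S z / S z)) z := by
    refine (hS.differentiableAt.hasDerivAt.fun_pow m).congr_deriv ?_
    cases m with
    | zero => simp
    | succ k =>
      rw [Nat.add_sub_cancel]
      field_simp
      ring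
  have h4 := lap_A (H := fun w => S w ^ m) (hS.pow m) h3
  have h5 := lap_A (H := fun w => S w ^ m - 1) ((hS.pow m).sub analyticAt_const) h2
  have e1 : m * S z ^ m * (deriv S z / S z) / S z ^ m =
      m * (deriv S z / ff m (S z)) * (S z ^ m - 1) := by
    rw [ff]
    field_simp
  have e2 : m * S z ^ m * (deriv S z / S z) / (S z ^ m - 1) =
      m * (deriv S z / ff m (S z)) * S z ^ m := by
    rw [ff]
    field_simp
  rw [hd.deriv, e1, norm_mul, norm_mul, mul_pow, mul_pow, ← A_pow (S z ^ m - 1),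
    Complex.norm_natCast] at h4
  rw [(hd.sub_const 1).deriv, e2, norm_mul, norm_mul, mul_pow, mul_pow, ← A_pow (S z ^ m),
    Complex.norm_natCast] at h5
  have hp := A_nonneg (S z ^ m)
  have hq := A_nonneg (S z ^ m - 1)
  have u1 := br_upper hp hq (q_le _)
  have u2 := br_upper hq hp (p_le _)
  have l1 : A (S z ^ m) * A (S z ^ m - 1) * ((1 + A (S z ^ m)) * (1 + A (S z ^ m - 1))) / 81 ≤
      A (S z ^ m - 1) ^ 5 * (A (S z ^ m) / (1 + A (S z ^ m)) ^ 2) +
        A (S z ^ m) ^ 5 * (A (S z ^ m - 1) / (1 + A (S z ^ m - 1)) ^ 2) := by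
    have h6 := one_le_add (S z ^ m)
    rcases le_total (A (S z ^ m)) (A (S z ^ m - 1)) with h7 | h7
    · exact (br_lower hp h7 h6).trans (le_add_of_nonneg_right (by positivity))
    · refine le_trans (le_of_eq ?_) ((br_lower hq h7 (by linarith)).trans
        (le_add_of_nonneg_left (by positivity)))
      ring
  have hc : 0 ≤ (m : ℝ) ^ 2 / 25 * ‖deriv S z / ff m (S z)‖ ^ 2 := by positivity
  refine ⟨_, (h4.add h5).congr (Eventually.of_forall fun w => ?_), ?_, ?_⟩
  · rw [En, Real.log_mul (add_pos_of_pos_of_nonneg one_pos (A_nonneg _)).ne'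
      (add_pos_of_pos_of_nonneg one_pos (A_nonneg _)).ne']
  · have := mul_le_mul_of_nonneg_left l1 hc
    rw [sig, En]
    linarith
  · have := mul_le_mul_of_nonneg_left (add_le_add u1 u2) hc
    rw [sig, En]
    linarith

theorem bdd_logDeriv {g y : ℂ → ℂ} {z : ℂ} (hg : AnalyticAt ℂ g z) (hy : AnalyticAt ℂ y z)
    (h0 : y z = 0) : ∃ C, ∀ᶠ w in 𝓝 z, ‖y w * (deriv g w / g w)‖ ≤ C := by
  by_cases h : ∀ᶠ w in 𝓝 z, g w = 0
  · exact ⟨0, h.mono fun w hw => by simp [hw]⟩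
  obtain ⟨n, k, hk, hk0, hgk⟩ := hg.exists_eventuallyEq_pow_smul_nonzero_iff.2 h
  have h1 : ContinuousAt (fun w => ‖dslope y z w * (n + (w - z) * (deriv k w / k w))‖) z :=
    ((continuousAt_dslope_same.2 hy.differentiableAt).mul (continuousAt_const.add
      ((continuousAt_id.sub continuousAt_const).mul
        (hk.deriv.continuousAt.div hk.continuousAt hk0)))).norm
  refine ⟨‖dslope y z z * (n + (z - z) * (deriv k z / k z))‖ + 1, ?_⟩
  filter_upwards [h1.eventually (gt_mem_nhds (lt_add_one _)), hgk, EventuallyEq.deriv hgk,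
    hk.eventually_analyticAt, hk.continuousAt.eventually_ne hk0] with w h2 h3 h4 h5 h6
  by_cases hw : w = z
  · rw [hw, h0, zero_mul, norm_zero]
    positivity
  refine le_trans (le_of_eq ?_) h2.le
  have h7 : w - z ≠ 0 := sub_ne_zero.2 hw
  have h8 : HasDerivAt (fun w => (w - z) ^ n • k w)
      ((w - z) ^ n * (n / (w - z) * k w + deriv k w)) w := by
    refine ((((hasDerivAt_id w).sub_const z).fun_pow n).mul
      h5.differentiableAt.hasDerivAt).congr_deriv ?_
    cases n with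
    | zero => simp
    | succ j =>
      rw [Nat.add_sub_cancel]
      simp only [id]
      field_simp
      ring
  have h9 := sub_smul_dslope y z w
  rw [h0, sub_zero, smul_eq_mul] at h9
  rw [h4, h8.deriv, h3, ← h9, smul_eq_mul]
  congr 1
  field_simp

theorem tendsto_bd (hm : 0 < m) {G y : ℂ → ℂ} {z : ℂ} (hG : AnalyticAt ℂ G z)
    (hy : AnalyticAt ℂ y z) (h0 : y z = 0) :
    Tendsto (fun w => ‖y w * (deriv G w / ff m (G w))‖ ^ 2 * (A (G w ^ m) * A (G w ^ m - 1)))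
      (𝓝 z) (𝓝 0) := by
  have h1 : ContinuousAt (fun w => A (G w ^ m) * A (G w ^ m - 1)) z :=
    (continuous_A.continuousAt.comp (hG.continuousAt.pow m)).mul
      (continuous_A.continuousAt.comp ((hG.continuousAt.pow m).sub continuousAt_const))
  by_cases h : ff m (G z) = 0
  swap
  · have h2 : ContinuousAt (fun w => ‖y w * (deriv G w / ff m (G w))‖ ^ 2) z :=
      (hy.continuousAt.mul (hG.deriv.continuousAt.div
        ((continuous_ff m).continuousAt.comp hG.continuousAt) h)).norm.pow 2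
    have h3 := h2.tendsto.mul h1.tendsto
    rwa [h0, zero_mul, norm_zero, zero_pow two_ne_zero, zero_mul] at h3
  have h2 : A (G z ^ m) * A (G z ^ m - 1) = 0 := by
    rcases mul_eq_zero.1 h with h3 | h3
    · rw [h3, zero_pow hm.ne', A_zero, zero_mul]
    · rw [h3, A_zero, mul_zero]
  obtain ⟨C, hC⟩ := bdd_logDeriv hG hy h0
  obtain ⟨C', hC'⟩ := bdd_logDeriv (g := fun w => G w ^ m - 1)
    ((hG.pow m).sub analyticAt_const) hy h0
  have h3 := h1.tendsto.const_mul ((C + C') ^ 2)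
  rw [h2, mul_zero] at h3
  refine squeeze_zero' (Eventually.of_forall fun w =>
    mul_nonneg (sq_nonneg _) (mul_nonneg (A_nonneg _) (A_nonneg _))) ?_ h3
  filter_upwards [hC, hC', hG.eventually_analyticAt] with w h4 h5 h6
  refine mul_le_mul_of_nonneg_right (pow_le_pow_left₀ (norm_nonneg _) ?_ 2)
    (mul_nonneg (A_nonneg _) (A_nonneg _))
  by_cases h7 : ff m (G w) = 0
  · rw [h7, div_zero, mul_zero, norm_zero]
    exact add_nonneg ((norm_nonneg _).trans h4) ((norm_nonneg _).trans h5)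
  have h8 : G w ≠ 0 := left_ne_zero_of_mul h7
  have h9 : G w ^ m - 1 ≠ 0 := right_ne_zero_of_mul h7
  have hm' : (m : ℂ) ≠ 0 := by exact_mod_cast hm.ne'
  rw [((h6.differentiableAt.hasDerivAt.fun_pow m).sub_const 1).deriv] at h5
  have h10 : y w * (deriv G w / ff m (G w)) =
      (m : ℂ)⁻¹ * (y w * (m * G w ^ (m - 1) * deriv G w / (G w ^ m - 1))) -
        y w * (deriv G w / G w) := by
    obtain ⟨k, rfl⟩ : ∃ k, m = k + 1 := Nat.exists_eq_succ_of_ne_zero hm.ne'
    rw [ff, Nat.add_sub_cancel]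
    field_simp
    ring
  rw [h10]
  refine (norm_sub_le _ _).trans ?_
  rw [norm_mul, norm_inv, Complex.norm_natCast]
  have h11 : (m : ℝ)⁻¹ ≤ 1 := inv_le_one_of_one_le₀ (by exact_mod_cast hm)
  have := mul_le_of_le_one_left (norm_nonneg
    (y w * (m * G w ^ (m - 1) * deriv G w / (G w ^ m - 1)))) h11
  linarith

end Pool.Agent.Lib.MP_879098_ag.Ahl
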