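import Pool.Agent.Lib.MP_879098_ag.AhlB

/-! The Ahlfors-Schwarz lemma for discs in the surface. -/

namespace Pool.Agent.Lib.MP_879098_ag

open Filter Topology Metric

namespace Ahl

/-- the affine coordinate in terms of the coordinate of a chart -/
noncomputable def cv (b : Bool) (g : ℂ) : ℂ := cond b g g⁻¹

/-- the scaling factor of a chart -/
def cw (b : Bool) (s : ℂ) : ℂ := cond b 1 s

/-- the affine coordinates of a disc -/
structure Data (m : ℕ) (S T Y : ℂ → ℂ) : Prop where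
  an : ∀ z ∈ ball (0 : ℂ) 1, Y z ≠ 0 → AnalyticAt ℂ S z ∧ AnalyticAt ℂ T z ∧ AnalyticAt ℂ Y z ∧
    Y z ^ (m + 2) = ff m (S z) * ff m (T z)
  bd : ∀ z ∈ ball (0 : ℂ) 1, Y z = 0 → ∃ (G H y : ℂ → ℂ) (i j : Bool), AnalyticAt ℂ G z ∧
    AnalyticAt ℂ H z ∧ AnalyticAt ℂ y z ∧ y z = 0 ∧ ∀ᶠ w in 𝓝 z, Y w ≠ 0 →
      S w = cv i (G w) ∧ T w = cv j (H w) ∧ Y w = y w * (cw i (S w) * cw j (T w))

variable {m : ℕ} {S T Y : ℂ → ℂ}

theorem Data.symm (h : Data m S T Y) : Data m T S Y :=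
  ⟨fun z hz h0 => ⟨(h.an z hz h0).2.1, (h.an z hz h0).1, (h.an z hz h0).2.2.1,
      (h.an z hz h0).2.2.2.trans (mul_comm _ _)⟩,
    fun z hz h0 => by
      obtain ⟨G, H, y, i, j, h1, h2, h3, h4, h5⟩ := h.bd z hz h0
      exact ⟨H, G, y, j, i, h2, h1, h3, h4, h5.mono fun w hw h6 =>
        ⟨(hw h6).2.1, (hw h6).1, by rw [mul_comm (cw j (T w))]; exact (hw h6).2.2⟩⟩⟩

theorem Data.ff_ne (h : Data m S T Y) {z : ℂ} (hz : z ∈ ball (0 : ℂ) 1) (h0 : Y z ≠ 0) :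
    ff m (S z) ≠ 0 :=
  left_ne_zero_of_mul ((h.an z hz h0).2.2.2 ▸ pow_ne_zero _ h0)

/-- the pulled back pseudometric -/
noncomputable def ll (m : ℕ) (S T Y : ℂ → ℂ) (z : ℂ) : ℝ :=
  sig m (S z) (deriv S z) * (‖Y z‖ ^ 2 / (ee m (S z) * ee m (T z)))

theorem ll_nonneg (z : ℂ) : 0 ≤ ll m S T Y z :=
  mul_nonneg (sig_nonneg _ _ _) (div_nonneg (sq_nonneg _) (mul_pos (ee_pos _ _) (ee_pos _ _)).le)

theorem ll_zero {z : ℂ} (h : Y z = 0) : ll m S T Y z = 0 := by simp [ll, h]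

theorem cw_le (hm : 0 < m) (b : Bool) (s : ℂ) : ‖cw b s‖ ^ 2 ≤ ee m s := by
  cases b
  · exact sq_le_ee hm s
  · simpa [cw] using one_le_ee m s

theorem sig_cv {G : ℂ → ℂ} {w : ℂ} {b : Bool} (hG : AnalyticAt ℂ G w)
    (he : ∀ᶠ v in 𝓝 w, S v = cv b (G v)) (h0 : ff m (S w) ≠ 0) :
    sig m (S w) (deriv S w) ≤ ‖deriv G w / ff m (G w)‖ ^ 2 * (A (G w ^ m) * A (G w ^ m - 1) *
      ((1 + A (G w ^ m)) * (1 + A (G w ^ m) + A (G w ^ m - 1)))) := by
  have hp := A_nonneg (G w ^ m)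
  have hq := A_nonneg (G w ^ m - 1)
  rw [EventuallyEq.deriv_eq he, he.self_of_nhds] at *
  cases b
  · change ff m (G w)⁻¹ ≠ 0 at h0
    have h1 : G w ≠ 0 := fun h => left_ne_zero_of_mul h0 (by rw [h, inv_zero])
    have h2 : G w ^ m - 1 ≠ 0 := fun h => right_ne_zero_of_mul h0 (by
      rw [inv_pow, sub_eq_zero.1 h, inv_one, sub_self])
    change sig m (G w)⁻¹ (deriv (fun v => (G v)⁻¹) w) ≤ _
    rw [(hG.differentiableAt.hasDerivAt.fun_inv h1).deriv, sig_inv _ h1 h2]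
    gcongr
    linarith
  · change sig m (G w) (deriv G w) ≤ _
    rw [sig, En]
    gcongr
    linarith

theorem Data.cont (hm : 0 < m) (h : Data m S T Y) {z : ℂ} (hz : z ∈ ball (0 : ℂ) 1) :
    ContinuousAt (ll m S T Y) z := by
  by_cases h0 : Y z = 0
  swap
  · obtain ⟨h1, h2, h3, -⟩ := h.an z hz h0
    have h4 := h1.continuousAt
    refine ContinuousAt.mul (ContinuousAt.mul ((h1.deriv.continuousAt.div
      ((continuous_ff m).continuousAt.comp h4) (h.ff_ne hz h0)).norm.pow 2)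
      (((continuous_A.continuousAt.comp (h4.pow m)).mul
        (continuous_A.continuousAt.comp ((h4.pow m).sub continuousAt_const))).mul
        ((continuous_En m).continuousAt.comp h4))) ?_
    exact (h3.continuousAt.norm.pow 2).div (((continuous_ee m).continuousAt.comp h4).mul
      ((continuous_ee m).continuousAt.comp h2.continuousAt))
      (mul_pos (ee_pos _ _) (ee_pos _ _)).ne'
  obtain ⟨G, H, y, i, j, h1, -, h3, h4, h5⟩ := h.bd z hz h0
  have h6 : ContinuousAt (fun w => (1 + A (G w ^ m)) * (1 + A (G w ^ m) + A (G w ^ m - 1))) z := by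
    have h7 := continuous_A.continuousAt.comp (h1.continuousAt.pow m)
    exact (continuousAt_const.add h7).mul ((continuousAt_const.add h7).add
      (continuous_A.continuousAt.comp ((h1.continuousAt.pow m).sub continuousAt_const)))
  have h7 := (tendsto_bd hm h1 h3 h4).mul h6.tendsto
  rw [zero_mul] at h7
  rw [ContinuousAt, ll_zero h0]
  refine squeeze_zero' (Eventually.of_forall ll_nonneg) ?_ h7
  filter_upwards [h5.eventually_nhds, h1.eventually_analyticAt, isOpen_ball.mem_nhds hz]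
    with w k1 k2 k3
  have hp := A_nonneg (G w ^ m)
  have hq := A_nonneg (G w ^ m - 1)
  by_cases k4 : Y w = 0
  · rw [ll_zero k4]
    positivity
  have k5 : ∀ᶠ v in 𝓝 w, S v = cv i (G v) := by
    filter_upwards [k1, (h.an w k3 k4).2.2.1.continuousAt.eventually_ne k4] with v k6 k7
    exact (k6 k7).1
  have k6 : ‖Y w‖ ^ 2 / (ee m (S w) * ee m (T w)) ≤ ‖y w‖ ^ 2 := by
    rw [div_le_iff₀ (mul_pos (ee_pos _ _) (ee_pos _ _)), (k1.self_of_nhds k4).2.2, norm_mul,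
      norm_mul, mul_pow, mul_pow]
    exact mul_le_mul_of_nonneg_left (mul_le_mul (cw_le hm _ _) (cw_le hm _ _) (sq_nonneg _)
      (ee_pos _ _).le) (sq_nonneg _)
  refine (mul_le_mul (sig_cv k2 k5 (h.ff_ne k3 k4)) k6
    (div_nonneg (sq_nonneg _) (mul_pos (ee_pos _ _) (ee_pos _ _)).le) (by positivity)).trans
    (le_of_eq ?_)
  rw [norm_mul]
  ring

theorem Data.atMax (hm : 410 ≤ m) (h : Data m S T Y) {z : ℂ} (hz : z ∈ ball (0 : ℂ) 1) {ε : ℝ}
    (hε : ε ≤ 0) (hρ : 0 < 1 + ε * ‖z‖ ^ 2)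
    (hmax : IsLocalMax (fun w => (1 + ε * ‖w‖ ^ 2) ^ 2 * ll m S T Y w) z)
    (hle : ll m T S Y z ≤ ll m S T Y z) : (1 + ε * ‖z‖ ^ 2) ^ 2 * ll m S T Y z ≤ -4 * ε := by
  have hm0 : 0 < m := by omega
  have hm' : (410 : ℝ) ≤ m := by exact_mod_cast hm
  by_cases h0 : Y z = 0
  · rw [ll_zero h0]
    linarith
  by_cases h1 : deriv S z = 0
  · have : ll m S T Y z = 0 := by simp [ll, sig, h1]
    rw [this]
    linarith
  obtain ⟨hS, hT, hY, heq⟩ := h.an z hz h0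
  have hfS := h.ff_ne hz h0
  have hfT := h.symm.ff_ne hz h0
  have hfa : AnalyticAt ℂ (fun w => ff m (S w)) z :=
    hS.mul ((hS.pow m).sub analyticAt_const)
  have h2 : S z ^ m ≠ 0 := pow_ne_zero _ (left_ne_zero_of_mul hfS)
  have h3 : S z ^ m - 1 ≠ 0 := right_ne_zero_of_mul hfS
  have h4 : deriv S z / ff m (S z) ≠ 0 := div_ne_zero h1 hfS
  have a1 : AnalyticAt ℂ (fun w => deriv S w / ff m (S w)) z := hS.deriv.div hfa hfS
  have a2 : AnalyticAt ℂ (fun w => S w ^ m) z := hS.pow m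
  have a3 : AnalyticAt ℂ (fun w => S w ^ m - 1) z := a2.sub analyticAt_const
  obtain ⟨M, l1, m1, -⟩ := lap_En hS hfS
  obtain ⟨M', l2, -, m2⟩ := lap_En hT hfT
  have l3 := lap_one_add (P := fun w => w) (z := z) analyticAt_id ε hρ
  have l4 := ((((((l3.const_mul 2).add ((lap_log a1 h4).const_mul 2)).add
    ((lap_log a2 h2).const_mul (2 / 5))).add ((lap_log a3 h3).const_mul (2 / 5))).add
    ((lap_log hY h0).const_mul 2)).add (l1.const_mul (1 - 5 / (2 * m)))).add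
    (l2.const_mul (-(5 / (2 * m))))
  have c1 : ContinuousAt (fun w : ℂ => 1 + ε * ‖w‖ ^ 2) z := by fun_prop
  have ev : ∀ᶠ w in 𝓝 z, 0 < 1 + ε * ‖w‖ ^ 2 ∧ deriv S w / ff m (S w) ≠ 0 ∧ S w ^ m ≠ 0 ∧
      S w ^ m - 1 ≠ 0 ∧ Y w ≠ 0 :=
    (c1.eventually (lt_mem_nhds hρ)).and ((a1.continuousAt.eventually_ne h4).and
      ((a2.continuousAt.eventually_ne h2).and ((a3.continuousAt.eventually_ne h3).and
        (hY.continuousAt.eventually_ne h0))))
  have l5 := (l4.congr (Φ := fun w => Real.log ((1 + ε * ‖w‖ ^ 2) ^ 2 * ll m S T Y w)) (by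
    filter_upwards [ev] with w ⟨k1, k2, k3, k4, k5⟩
    have k6 := norm_pos_iff.2 k2
    have k7 := A_pos k3
    have k8 := A_pos k4
    have k9 := norm_pos_iff.2 k5
    have k10 := En_pos m (S w)
    have k11 := ee_pos m (S w)
    have k12 := ee_pos m (T w)
    rw [ll, sig, Real.log_mul (by positivity) (by positivity),
      Real.log_mul (by positivity) (by positivity), Real.log_mul (by positivity) (by positivity),
      Real.log_mul (by positivity) (by positivity), Real.log_mul (by positivity) (by positivity),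
      Real.log_div (by positivity) (by positivity), Real.log_mul (by positivity) (by positivity),
      Real.log_pow, Real.log_pow, Real.log_pow, log_A k3, log_A k4, ee, ee, Real.log_rpow k10,
      Real.log_rpow (En_pos m (T w))]
    push_cast
    ring)).nonpos (by
    filter_upwards [ev, hmax] with w ⟨k1, k2, k3, k4, k5⟩ k0
    have k6 := norm_pos_iff.2 k2
    have k7 := A_pos k3
    have k8 := A_pos k4
    have k9 := norm_pos_iff.2 k5
    have k10 := En_pos m (S w)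
    have k11 := ee_pos m (S w)
    have k12 := ee_pos m (T w)
    refine Real.log_le_log ?_ k0
    rw [ll, sig]
    positivity)
  have hZ : 0 < ‖Y z‖ ^ 2 / (ee m (S z) * ee m (T z)) :=
    div_pos (pow_pos (norm_pos_iff.2 h0) 2) (mul_pos (ee_pos _ _) (ee_pos _ _))
  rw [ll, ll, mul_comm (ee m (T z))] at hle
  have h5 := le_of_mul_le_mul_right hle hZ
  have h6 := sig_nonneg m (S z) (deriv S z)
  have hθ0 : (0 : ℝ) ≤ 5 / (2 * m) := by positivity
  have hθ1 : (5 : ℝ) / (2 * m) ≤ 1 / 164 := by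
    rw [div_le_div_iff₀ (by positivity) (by positivity)]
    linarith
  have hμ : (6724 : ℝ) ≤ (m : ℝ) ^ 2 / 25 := by nlinarith
  rw [deriv_id'', norm_one, one_pow, mul_one] at l5
  rw [ll]
  generalize (5 : ℝ) / (2 * m) = θ at *
  generalize (m : ℝ) ^ 2 / 25 = μ at *
  generalize sig m (S z) (deriv S z) = σ at *
  generalize sig m (T z) (deriv T z) = σ' at *
  have h7 : μ * σ' ≤ μ * σ := mul_le_mul_of_nonneg_left h5 (by linarith)
  have h8 : 6724 * σ ≤ μ * σ := mul_le_mul_of_nonneg_right hμ h6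
  have h9 : (1 - θ) * (μ * σ / 81) ≤ (1 - θ) * M :=
    mul_le_mul_of_nonneg_left (by linarith) (by linarith)
  have h10 : θ * M' ≤ θ * (2 * (μ * σ)) := mul_le_mul_of_nonneg_left (by linarith) hθ0
  have h11 : θ * (μ * σ) ≤ 1 / 164 * (μ * σ) := mul_le_mul_of_nonneg_right hθ1 (by linarith)
  have h12 : σ ≤ -4 * ε / (1 + ε * ‖z‖ ^ 2) ^ 2 := by
    rw [mul_div_assoc]
    linarith
  rw [le_div_iff₀ (by positivity)] at h12
  have h13 := mul_le_of_le_one_right h6 (Z_le_one hm0 heq)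
  nlinarith [mul_le_mul_of_nonneg_left h13 (sq_nonneg (1 + ε * ‖z‖ ^ 2))]

theorem Data.bound (hm : 410 ≤ m) (h : Data m S T Y) {z : ℂ} (hz : z ∈ ball (0 : ℂ) 1) :
    (1 - ‖z‖ ^ 2) ^ 2 * ll m S T Y z ≤ 24 := by
  have hm0 : 0 < m := by omega
  have hz1 : ‖z‖ ^ 2 < 1 := pow_lt_one₀ (norm_nonneg _) (mem_ball_zero_iff.1 hz) two_ne_zero
  have hz0 := sq_nonneg ‖z‖
  obtain ⟨ε, hε⟩ : ∃ ε : ℝ, ε = -(1 + (1 - ‖z‖ ^ 2) / 2) := ⟨_, rfl⟩
  have hε1 : ε < -1 := by linarith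
  have hε2 : -(3 / 2) ≤ ε := by linarith
  have hρ : (1 - ‖z‖ ^ 2) / 2 ≤ 1 + ε * ‖z‖ ^ 2 := by
    rw [hε]
    nlinarith
  have c1 : Continuous fun w : ℂ => 1 + ε * ‖w‖ ^ 2 := by fun_prop
  have hsub : {w : ℂ | 0 ≤ 1 + ε * ‖w‖ ^ 2} ⊆ ball 0 1 := fun w hw => by
    rw [mem_ball_zero_iff]
    by_contra hc
    have h1 : 1 ≤ ‖w‖ ^ 2 := one_le_pow₀ (not_lt.1 hc)
    have h2 : 0 ≤ 1 + ε * ‖w‖ ^ 2 := hw
    nlinarith
  have hK : IsCompact {w : ℂ | 0 ≤ 1 + ε * ‖w‖ ^ 2} :=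
    (isCompact_closedBall 0 1).of_isClosed_subset (isClosed_le continuous_const c1)
      (hsub.trans ball_subset_closedBall)
  have hzK : z ∈ {w : ℂ | 0 ≤ 1 + ε * ‖w‖ ^ 2} := le_trans (by linarith) hρ
  obtain ⟨z₀, h1, h2⟩ := hK.exists_isMaxOn ⟨z, hzK⟩
    (f := fun w => (1 + ε * ‖w‖ ^ 2) ^ 2 * max (ll m S T Y w) (ll m T S Y w))
    fun w hw => ((c1.continuousAt.pow 2).mul
      ((h.cont hm0 (hsub hw)).max (h.symm.cont hm0 (hsub hw)))).continuousWithinAt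
  have h3 : (1 + ε * ‖z₀‖ ^ 2) ^ 2 * max (ll m S T Y z₀) (ll m T S Y z₀) ≤ -4 * ε := by
    rcases eq_or_lt_of_le (show 0 ≤ 1 + ε * ‖z₀‖ ^ 2 from h1) with h4 | h4
    · rw [← h4]
      linarith
    have h5 := h2.isLocalMax (mem_of_superset (c1.continuousAt.eventually (lt_mem_nhds h4))
      fun w hw => show 0 ≤ 1 + ε * ‖w‖ ^ 2 from le_of_lt hw)
    rcases le_total (ll m T S Y z₀) (ll m S T Y z₀) with h6 | h6
    · rw [max_eq_left h6]
      refine h.atMax hm (hsub h1) (by linarith) h4 (h5.mono fun w hw => ?_) h6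
      simp only [max_eq_left h6] at hw
      exact (mul_le_mul_of_nonneg_left (le_max_left _ _) (sq_nonneg _)).trans hw
    · rw [max_eq_right h6]
      refine h.symm.atMax hm (hsub h1) (by linarith) h4 (h5.mono fun w hw => ?_) h6
      simp only [max_eq_right h6] at hw
      exact (mul_le_mul_of_nonneg_left (le_max_right _ _) (sq_nonneg _)).trans hw
  have h4 := (mul_le_mul_of_nonneg_left (le_max_left _ _) (sq_nonneg _)).trans ((h2 hzK).trans h3)
  have h5 := mul_le_mul_of_nonneg_right (pow_le_pow_left₀ (by linarith) hρ 2)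
    (ll_nonneg (m := m) (S := S) (T := T) (Y := Y) z)
  nlinarith

theorem one_le_pow_near (hm : 0 < m) {s : ℂ} (hs : ‖s - 3‖ ≤ 1) :
    1 ≤ ‖s ^ m‖ ∧ 1 ≤ ‖s ^ m - 1‖ ∧ 1 ≤ ‖ff m s‖ := by
  have h1 : 2 ≤ ‖s‖ := by
    have := norm_sub_norm_le (3 : ℂ) s
    rw [norm_sub_rev, Complex.norm_ofNat] at this
    linarith
  have h2 : 2 ≤ ‖s ^ m‖ := by
    rw [norm_pow]
    exact h1.trans (le_self_pow₀ (by linarith) hm.ne')
  have h3 : 1 ≤ ‖s ^ m - 1‖ := by
    have := norm_sub_norm_le (s ^ m) 1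
    rw [norm_one] at this
    linarith
  refine ⟨by linarith, h3, ?_⟩
  rw [ff, norm_mul]
  exact one_le_mul_of_one_le_of_one_le (by linarith) h3

theorem exists_const (hm : 410 ≤ m) : ∃ C : ℝ, ∀ S T Y : ℂ → ℂ, Data m S T Y →
    ∀ z ∈ ball (0 : ℂ) 1, ‖S z - 3‖ ≤ 1 → ‖T z - 3‖ ≤ 1 → Y z ≠ 0 →
      ‖deriv S z‖ ≤ C / (1 - ‖z‖ ^ 2) := by
  have hm0 : 0 < m := by omega
  obtain ⟨B, hB⟩ := (isCompact_closedBall (3 : ℂ) 1).exists_bound_of_continuousOn
    (continuous_ff m).continuousOn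
  obtain ⟨E, hE⟩ := (isCompact_closedBall (3 : ℂ) 1).exists_bound_of_continuousOn
    (continuous_ee m).continuousOn
  refine ⟨1 + 24 * (B ^ 2 * (E * E)), fun S T Y h z hz hS hT h0 => ?_⟩
  have hz1 : ‖z‖ ^ 2 < 1 := pow_lt_one₀ (norm_nonneg _) (mem_ball_zero_iff.1 hz) two_ne_zero
  obtain ⟨h1, h2, h3⟩ := one_le_pow_near hm0 hS
  have h4 := (one_le_pow_near hm0 hT).2.2
  have h5 : 1 ≤ ‖Y z‖ := by
    refine (one_le_pow_iff_of_nonneg (norm_nonneg _) (Nat.succ_ne_zero (m + 1))).1 ?_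
    change 1 ≤ ‖Y z‖ ^ (m + 2)
    rw [← norm_pow, (h.an z hz h0).2.2.2, norm_mul]
    exact one_le_mul_of_one_le_of_one_le h3 h4
  have h6 := hB _ (mem_closedBall_iff_norm.2 hS)
  have h7 := (le_abs_self _).trans (hE _ (mem_closedBall_iff_norm.2 hS))
  have h8 := (le_abs_self _).trans (hE _ (mem_closedBall_iff_norm.2 hT))
  have e1 := ee_pos m (S z)
  have e2 := ee_pos m (T z)
  have hB0 : 0 < B := by linarith
  have hE0 : 0 < E := by linarith
  have h9 : ‖deriv S z‖ ^ 2 / (B ^ 2 * (E * E)) ≤ ll m S T Y z := by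
    rw [ll, sig, norm_div, div_pow]
    calc _ = ‖deriv S z‖ ^ 2 / B ^ 2 * (1 * 1 * 1) * (1 ^ 2 / (E * E)) := by field_simp
      _ ≤ _ := by
        have := A_nonneg (S z ^ m)
        have := A_nonneg (S z ^ m - 1)
        have := En_pos m (S z)
        gcongr
        exacts [one_le_A h1, one_le_A h2, one_le_En m _]
  have h10 := (mul_le_mul_of_nonneg_left h9 (sq_nonneg _)).trans (h.bound hm hz)
  rw [← mul_div_assoc, div_le_iff₀ (by positivity), ← mul_pow] at h10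
  rw [le_div_iff₀ (by linarith), mul_comm]
  nlinarith [sq_nonneg ((1 - ‖z‖ ^ 2) * ‖deriv S z‖ - 1)]

/-- the third affine coordinate -/
noncomputable def yC (x : PP 4) : ℂ := x.rep 4 / x.rep 0

theorem yC_eq {v : VV 4} {x : PP 4} (h : Rep v x) : yC x = v 4 / v 0 := by
  obtain ⟨s, hs, e⟩ := h.exists_smul (rep_rep x)
  rw [yC, e, Pi.smul_apply, Pi.smul_apply, smul_eq_mul, smul_eq_mul, mul_div_mul_left _ _ hs]

theorem eq_aff {x : PP 4} (hx : x ∈ surface m) (h0 : x.rep 0 ≠ 0) :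
    yC x ^ (m + 2) = ff m (sC x) * ff m (tC x) := by
  obtain ⟨h1, h2⟩ := hx _ (rep_rep x)
  have h3 : x.rep 3 = x.rep 1 * x.rep 2 / x.rep 0 := by
    rw [← h1]
    field_simp
  rw [yC, sC, tC, ff, ff, div_pow, h2, h3]
  simp only [div_pow, mul_pow]
  field_simp
  ring

theorem data_of_disc {f : ℂ → PP 4} (hf : IsDisc (surface m) f) :
    Data m (fun w => sC (f w)) (fun w => tC (f w)) fun w => yC (f w) := by
  constructor
  · intro z hz h0
    obtain ⟨h1, F, hF, he⟩ := hf z hz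
    have h2 : ∀ i, AnalyticAt ℂ (fun w => F w i) z := analyticAt_pi_iff.1 hF
    have h3 : F z 0 ≠ 0 := fun h => h0 (by rw [yC_eq he.self_of_nhds, h, div_zero])
    exact ⟨((h2 2).div (h2 0) h3).congr (he.mono fun w hw => (sC_eq hw).symm),
      ((h2 1).div (h2 0) h3).congr (he.mono fun w hw => (tC_eq hw).symm),
      ((h2 4).div (h2 0) h3).congr (he.mono fun w hw => (yC_eq hw).symm),
      eq_aff h1 fun h => h0 (by rw [yC, h, div_zero])⟩
  · intro z hz h0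
    obtain ⟨h1, F, hF, he⟩ := hf z hz
    have h2 : ∀ i, AnalyticAt ℂ (fun w => F w i) z := analyticAt_pi_iff.1 hF
    have h3 : F z 4 = 0 := by
      rw [yC_eq he.self_of_nhds] at h0
      rcases div_eq_zero_iff.1 h0 with h | h
      · exact h
      · have := (h1 _ he.self_of_nhds).2
        rw [h, zero_mul, zero_mul] at this
        exact pow_eq_zero_iff (Nat.succ_ne_zero _) |>.1 this
    have key : ∀ (k a b : Fin 5) (i j : Bool), F z k ≠ 0 →
        (∀ v : VV 4, v 0 ≠ 0 → v 1 ≠ 0 → v 2 ≠ 0 → v 3 = v 1 * v 2 / v 0 →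
          v 2 / v 0 = cv i (v a / v k) ∧ v 1 / v 0 = cv j (v b / v k) ∧
            v 4 / v 0 = v 4 / v k * (cw i (v 2 / v 0) * cw j (v 1 / v 0))) →
        ∃ (G H y : ℂ → ℂ) (i j : Bool), AnalyticAt ℂ G z ∧ AnalyticAt ℂ H z ∧ AnalyticAt ℂ y z ∧
          y z = 0 ∧ ∀ᶠ w in 𝓝 z, yC (f w) ≠ 0 → sC (f w) = cv i (G w) ∧ tC (f w) = cv j (H w) ∧
            yC (f w) = y w * (cw i (sC (f w)) * cw j (tC (f w))) := by
      intro k a b i j hk hv
      refine ⟨fun w => F w a / F w k, fun w => F w b / F w k, fun w => F w 4 / F w k, i, j,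
        (h2 a).div (h2 k) hk, (h2 b).div (h2 k) hk, (h2 4).div (h2 k) hk,
        div_eq_zero_iff.2 (Or.inl h3), ?_⟩
      filter_upwards [he, isOpen_ball.mem_nhds hz] with w hw hw' h4
      obtain ⟨h5, h6⟩ := (hf w hw').1 _ hw
      rw [yC_eq hw] at h4
      rw [sC_eq hw, tC_eq hw, yC_eq hw]
      have h7 : F w 0 * F w 3 ≠ 0 :=
        left_ne_zero_of_mul (h6 ▸ pow_ne_zero _ (div_ne_zero_iff.1 h4).1)
      have h8 : F w 0 ≠ 0 := left_ne_zero_of_mul h7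
      rw [h5] at h7
      refine hv (F w) h8 (left_ne_zero_of_mul h7) (right_ne_zero_of_mul h7) ?_
      rw [← h5]
      field_simp
    obtain ⟨k, hk⟩ := Function.ne_iff.1 he.self_of_nhds.ne
    fin_cases k
    · refine key 0 2 1 true true hk fun v k0 k1 k2 k3 => ⟨rfl, rfl, ?_⟩
      simp only [cw, cond, mul_one]
    · refine key 1 3 0 true false hk fun v k0 k1 k2 k3 => ?_
      simp only [cv, cw, cond, k3]
      refine ⟨?_, ?_, ?_⟩ <;> field_simp
    · refine key 2 0 3 false true hk fun v k0 k1 k2 k3 => ?_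
      simp only [cv, cw, cond, k3]
      refine ⟨?_, ?_, ?_⟩ <;> field_simp
    · refine key 3 1 2 false false hk fun v k0 k1 k2 k3 => ?_
      simp only [cv, cw, cond, k3]
      refine ⟨?_, ?_, ?_⟩ <;> field_simp
    · exact absurd h3 hk

end Ahl

theorem ahlfors (m : ℕ) (hm : 410 ≤ m) : ∃ C : ℝ, ∀ f : ℂ → PP 4, IsDisc (surface m) f →
    ∀ z ∈ ball (0 : ℂ) 1, ‖sC (f z) - 3‖ ≤ 1 → ‖tC (f z) - 3‖ ≤ 1 →
      ‖deriv (fun w => sC (f w)) z‖ ≤ C / (1 - ‖z‖ ^ 2) ∧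
      ‖deriv (fun w => tC (f w)) z‖ ≤ C / (1 - ‖z‖ ^ 2) := by
  obtain ⟨C, hC⟩ := Ahl.exists_const hm
  refine ⟨C, fun f hf z hz hS hT => ?_⟩
  have hm0 : 0 < m := by omega
  have h1 := (Ahl.one_le_pow_near hm0 hS).2.2
  have h2 := (Ahl.one_le_pow_near hm0 hT).2.2
  have h3 : (f z).rep 0 ≠ 0 := fun h => by
    rw [sC, h, div_zero, zero_sub, norm_neg, Complex.norm_ofNat] at hS
    norm_num at hS
  have h4 : Ahl.yC (f z) ≠ 0 := fun h => by
    have h5 := Ahl.eq_aff (hf z hz).1 h3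
    rw [h, zero_pow (Nat.succ_ne_zero _)] at h5
    exact mul_ne_zero (norm_pos_iff.1 (one_pos.trans_le h1))
      (norm_pos_iff.1 (one_pos.trans_le h2)) h5.symm
  exact ⟨hC _ _ _ (Ahl.data_of_disc hf) z hz hS hT h4,
    hC _ _ _ (Ahl.data_of_disc hf).symm z hz hT hS h4⟩

end Pool.Agent.Lib.MP_879098_ag
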