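import Pool.Agent.Lib.MP_879098_ag.Defs

/-! Auxiliary definitions (they do not occur in the final statement). -/

namespace Pool.Agent.Lib.MP_879098_ag

open Polynomial

/-- coordinate vectors -/
abbrev VV (n : ℕ) : Type := Fin (n + 1) → ℂ

open Classical in
/-- the point with given homogeneous coordinates -/
noncomputable def toP {n : ℕ} (v : VV n) : PP n :=
  if h : v ≠ 0 then Projectivization.mk ℂ v h else Projectivization.mk ℂ 1 one_ne_zero

/-- `v` is relatively `δ`-close to a nonzero multiple of `u` -/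
def Near {n : ℕ} (δ : ℝ) (u v : VV n) : Prop := ∃ κ : ℂ, κ ≠ 0 ∧ ‖v - κ • u‖ < δ * ‖κ • u‖

/-- the value of a tuple of polynomials -/
noncomputable def pev {n : ℕ} (P : Fin (n + 1) → ℂ[X]) (w : ℂ) : VV n := fun i => (P i).eval w

/-- the coefficients of degree `d` of a tuple of polynomials -/
def ptop {n : ℕ} (P : Fin (n + 1) → ℂ[X]) (d : ℕ) : VV n := fun i => (P i).coeff d

/-- an open set of pairs of nonzero vectors that is stable under scaling of each vector -/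
structure IsCone {a b : ℕ} (Ω : Set (VV a × VV b)) : Prop where
  isOpen : IsOpen Ω
  ne : ∀ u v, (u, v) ∈ Ω → u ≠ 0 ∧ v ≠ 0
  smul : ∀ u v (s t : ℂ), s ≠ 0 → t ≠ 0 → (u, v) ∈ Ω → (s • u, t • v) ∈ Ω

/-- a parametrised rational curve in the cone `Ω`, the point at infinity included -/
structure IsRat {a b : ℕ} (Ω : Set (VV a × VV b)) (P : Fin (a + 1) → ℂ[X]) (d : ℕ)
    (Q : Fin (b + 1) → ℂ[X]) (e : ℕ) : Prop where
  degP : ∀ i, (P i).natDegree ≤ d
  degQ : ∀ i, (Q i).natDegree ≤ e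
  mem : ∀ w, (pev P w, pev Q w) ∈ Ω
  top : (ptop P d, ptop Q e) ∈ Ω

/-- Zariski closed subsets -/
def IsZClosed {n : ℕ} (X : Set (PP n)) : Prop :=
  ∃ S : Set (MvPolynomial (Fin (n + 1)) ℂ), (∀ F ∈ S, ∃ d, F.IsHomogeneous d) ∧ X = zeroSet S

/-- the polynomial `s (s^m - 1)` -/
def ff (m : ℕ) (s : ℂ) : ℂ := s * (s ^ m - 1)

/-- the affine points of the surface -/
def aff (s t y : ℂ) : VV 4 := ![1, t, s, s * t, y]

/-- the first affine coordinate -/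
noncomputable def sC (x : PP 4) : ℂ := x.rep 2 / x.rep 0

/-- the second affine coordinate -/
noncomputable def tC (x : PP 4) : ℂ := x.rep 1 / x.rep 0

section Basic

variable {n : ℕ}

theorem Rep.ne {v : VV n} {x : PP n} (h : Rep v x) : v ≠ 0 := h.1

theorem rep_rep (x : PP n) : Rep x.rep x := ⟨x.rep_nonzero, x.mk_rep⟩

theorem rep_toP {v : VV n} (h : v ≠ 0) : Rep v (toP v) := ⟨h, by simp [toP, h]⟩

theorem Rep.eq {v : VV n} {x y : PP n} (h : Rep v x) (h' : Rep v y) : x = y := h.2.symm.trans h'.2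

theorem Rep.toP_eq {v : VV n} {x : PP n} (h : Rep v x) : toP v = x := (rep_toP h.ne).eq h

theorem Rep.smul {v : VV n} {x : PP n} (h : Rep v x) {s : ℂ} (hs : s ≠ 0) : Rep (s • v) x :=
  ⟨smul_ne_zero hs h.ne, ((Projectivization.mk_eq_mk_iff' ℂ _ _ _ h.ne).2 ⟨s, rfl⟩).trans h.2⟩

theorem Rep.exists_smul {u v : VV n} {x : PP n} (h : Rep u x) (h' : Rep v x) :
    ∃ s : ℂ, s ≠ 0 ∧ v = s • u := by
  obtain ⟨s, e⟩ := (Projectivization.mk_eq_mk_iff' ℂ _ _ h'.ne h.ne).1 (h'.2.trans h.2.symm)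
  exact ⟨s, fun c => h'.ne (by rw [← e, c, zero_smul]), e.symm⟩

theorem Near.ne {δ : ℝ} {u v : VV n} (h : Near δ u v) : u ≠ 0 := by
  obtain ⟨κ, -, h⟩ := h
  rintro rfl
  simp only [smul_zero, norm_zero, mul_zero] at h
  exact absurd h (norm_nonneg _).not_gt

theorem Near.pos {δ : ℝ} {u v : VV n} (h : Near δ u v) : 0 < δ := by
  obtain ⟨κ, -, h⟩ := h
  by_contra c
  nlinarith [norm_nonneg (v - κ • u), norm_nonneg (κ • u), not_lt.1 c]

theorem Near.ne' {δ : ℝ} {u v : VV n} (h : Near δ u v) (hδ : δ ≤ 1) : v ≠ 0 := by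
  obtain ⟨κ, -, h⟩ := h
  rintro rfl
  rw [zero_sub, norm_neg] at h
  nlinarith [norm_nonneg (κ • u)]

theorem near_of_norm {δ : ℝ} {u v : VV n} (h : ‖v - u‖ < δ * ‖u‖) : Near δ u v :=
  ⟨1, one_ne_zero, by simpa using h⟩

theorem near_refl {δ : ℝ} (hδ : 0 < δ) {u : VV n} (h : u ≠ 0) : Near δ u u :=
  near_of_norm (by simpa using mul_pos hδ (norm_pos_iff.2 h))

theorem Near.mono {δ δ' : ℝ} {u v : VV n} (h : Near δ u v) (hδ : δ ≤ δ') : Near δ' u v := by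
  obtain ⟨κ, h1, h⟩ := h
  exact ⟨κ, h1, h.trans_le (mul_le_mul_of_nonneg_right hδ (norm_nonneg _))⟩

theorem Near.smul_left {δ : ℝ} {u v : VV n} (h : Near δ u v) {s : ℂ} (hs : s ≠ 0) :
    Near δ (s • u) v := by
  obtain ⟨κ, h1, h⟩ := h
  exact ⟨κ / s, div_ne_zero h1 hs, by rwa [smul_smul, div_mul_cancel₀ _ hs]⟩

theorem Near.smul_right {δ : ℝ} {u v : VV n} (h : Near δ u v) {s : ℂ} (hs : s ≠ 0) :
    Near δ u (s • v) := by
  obtain ⟨κ, h1, h⟩ := h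
  refine ⟨s * κ, mul_ne_zero hs h1, ?_⟩
  rw [mul_smul, ← smul_sub, norm_smul s, norm_smul s, mul_left_comm]
  exact mul_lt_mul_of_pos_left h (norm_pos_iff.2 hs)

theorem Near.trans {δ ε : ℝ} {u v w : VV n} (h : Near δ u v) (h' : Near ε v w) :
    Near (δ + ε + δ * ε) u w := by
  have hε := h'.pos
  obtain ⟨κ, h1, h'⟩ := h'
  obtain ⟨μ, h2, h⟩ := h.smul_right h1
  refine ⟨μ, h2, ?_⟩
  have a1 := norm_sub_le_norm_sub_add_norm_sub w (κ • v) (μ • u)
  have a2 : ‖κ • v‖ ≤ ‖κ • v - μ • u‖ + ‖μ • u‖ := norm_le_norm_sub_add _ _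
  nlinarith

theorem Near.symm {δ : ℝ} {u v : VV n} (h : Near δ u v) (hδ : δ ≤ 1 / 2) : Near (2 * δ) v u := by
  have h0 := h.pos
  obtain ⟨κ, h1, h⟩ := h
  have a2 : ‖κ • u‖ ≤ ‖v - κ • u‖ + ‖v‖ := by
    rw [norm_sub_rev]; exact norm_le_norm_sub_add _ _
  have : Near (2 * δ) v (κ • u) := near_of_norm (by
    rw [norm_sub_rev]
    nlinarith [mul_le_mul_of_nonneg_left a2 h0.le,
      mul_nonneg (norm_nonneg (v - κ • u)) (sub_nonneg.2 hδ)])
  simpa [h1] using this.smul_right (inv_ne_zero h1)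

theorem isOpen_near (δ : ℝ) (u : VV n) : IsOpen {v | Near δ u v} := by
  have : {v | Near δ u v} = ⋃ κ : ℂ, ⋃ _ : κ ≠ 0, Metric.ball (κ • u) (δ * ‖κ • u‖) := by
    ext v
    simp [Near, dist_eq_norm]
  rw [this]
  exact isOpen_iUnion fun _ => isOpen_iUnion fun _ => Metric.isOpen_ball

theorem isCone_hat {a b : ℕ} {U : Set (PP a × PP b)} (h : IsOpen (hat U)) : IsCone (hat U) :=
  ⟨h, fun _ _ ⟨_, _, h1, h2⟩ => ⟨h1.ne, h2.ne⟩,
    fun _ _ _ _ hs ht ⟨x, hx, h1, h2⟩ => ⟨x, hx, h1.smul hs, h2.smul ht⟩⟩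

theorem mem_surface {m : ℕ} {v : VV 4} {x : PP 4} (h : Rep v x) : x ∈ surface m ↔
    v 0 * v 3 = v 1 * v 2 ∧
      v 4 ^ (m + 2) = v 0 * v 3 * (v 0 ^ m + v 3 ^ m - v 1 ^ m - v 2 ^ m) := by
  refine ⟨fun g => g v h, fun g w hw => ?_⟩
  obtain ⟨s, -, rfl⟩ := h.exists_smul hw
  simp only [Pi.smul_apply, smul_eq_mul, mul_pow]
  exact ⟨by linear_combination s ^ 2 * g.1, by rw [g.2]; ring⟩

theorem aff_ne (s t y : ℂ) : aff s t y ≠ 0 := fun h => by simpa [aff] using congrFun h 0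

theorem aff_mem {m : ℕ} {s t y : ℂ} : toP (aff s t y) ∈ surface m ↔
    y ^ (m + 2) = ff m s * ff m t := by
  rw [mem_surface (rep_toP (aff_ne s t y))]
  simp only [aff, ff, Matrix.cons_val]
  constructor
  · rintro ⟨-, h⟩
    rw [h]; ring
  · intro h
    exact ⟨by ring, by rw [h]; ring⟩

theorem sC_eq {v : VV 4} {x : PP 4} (h : Rep v x) : sC x = v 2 / v 0 := by
  obtain ⟨s, hs, e⟩ := h.exists_smul (rep_rep x)
  rw [sC, e, Pi.smul_apply, Pi.smul_apply, smul_eq_mul, smul_eq_mul, mul_div_mul_left _ _ hs]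

theorem tC_eq {v : VV 4} {x : PP 4} (h : Rep v x) : tC x = v 1 / v 0 := by
  obtain ⟨s, hs, e⟩ := h.exists_smul (rep_rep x)
  rw [tC, e, Pi.smul_apply, Pi.smul_apply, smul_eq_mul, smul_eq_mul, mul_div_mul_left _ _ hs]

theorem isZClosed_surface (m : ℕ) : IsZClosed (surface m) := by
  open MvPolynomial in
  refine ⟨{X 0 * X 3 - X 1 * X 2,
    X 4 ^ (m + 2) - X 0 * X 3 * (X 0 ^ m + X 3 ^ m - X 1 ^ m - X 2 ^ m)}, ?_, ?_⟩
  · rintro F (rfl | rfl)
    · exact ⟨2, ((isHomogeneous_X ℂ 0).mul (isHomogeneous_X ℂ 3)).sub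
        ((isHomogeneous_X ℂ 1).mul (isHomogeneous_X ℂ 2))⟩
    · refine ⟨m + 2, (isHomogeneous_X_pow 4 _).sub ?_⟩
      rw [add_comm m]
      exact ((isHomogeneous_X ℂ 0).mul (isHomogeneous_X ℂ 3)).mul
        ((((isHomogeneous_X_pow 0 m).add (isHomogeneous_X_pow 3 m)).sub
          (isHomogeneous_X_pow 1 m)).sub (isHomogeneous_X_pow 2 m))
  · ext x
    simp [surface, zeroSet, sub_eq_zero]

/-- a polynomial map into a product is a pair of tuples of polynomials -/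
theorem exists_tuple {a b : ℕ} (N : ℕ) (c : ℕ → VV a × VV b) :
    ∃ (P : Fin (a + 1) → ℂ[X]) (Q : Fin (b + 1) → ℂ[X]),
      ∀ z, (pev P z, pev Q z) = ∑ k ∈ Finset.range N, z ^ k • c k := by
  refine ⟨fun i => ∑ k ∈ Finset.range N, monomial k ((c k).1 i),
    fun i => ∑ k ∈ Finset.range N, monomial k ((c k).2 i), fun z => Prod.ext ?_ ?_⟩
  · ext i
    simp [pev, eval_finsetSum, Prod.fst_sum, mul_comm]
  · ext i
    simp [pev, eval_finsetSum, Prod.snd_sum, mul_comm]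

end Basic

end Pool.Agent.Lib.MP_879098_ag
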