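import Pool.Agent.Lib.MP_879098_ag.Tools

/-! Closing a polynomial disc to a rational curve. -/

namespace Pool.Agent.Lib.MP_879098_ag

open Filter Topology Polynomial Metric

namespace CloseB

/-- approximate factorisation on the unit circle -/
def Fac (κ : ℂ[X]) : Prop :=
  ∀ η : ℝ, 0 < η → ∃ (A b : ℂ[X]) (c : ℝ), 0 < c ∧ (∀ z : ℂ, 1 ≤ ‖z‖ → c ≤ ‖A.eval z‖) ∧
    (∀ z : ℂ, ‖z‖ ≤ 1 → b.eval z ≠ 0) ∧
    ∀ z : ℂ, ‖z‖ = 1 → ‖b.eval z * κ.eval z / A.eval z - 1‖ < η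

theorem fac_C (a : ℂ) (ha : a ≠ 0) : Fac (C a) := fun η hη =>
  ⟨C a, 1, ‖a‖, norm_pos_iff.2 ha, by simp, by simp, by simp [ha, hη]⟩

theorem fac_lin (a : ℂ) (ha : ‖a‖ ≠ 1) : Fac (X + C a) := by
  intro η hη
  rcases lt_or_gt_of_ne ha with h | h
  · have k : ∀ z : ℂ, 1 ≤ ‖z‖ → 1 - ‖a‖ ≤ ‖z + a‖ := fun z hz => by
      have := norm_sub_le (z + a) a
      rw [add_sub_cancel_right] at this
      linarith
    refine ⟨X + C a, 1, 1 - ‖a‖, by linarith, by simpa using k, by simp, fun z hz => ?_⟩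
    have : z + a ≠ 0 := norm_pos_iff.1 (lt_of_lt_of_le (by linarith) (k z hz.ge))
    simp [this, hη]
  · have a0 : a ≠ 0 := norm_pos_iff.1 (by linarith)
    have h1 : ‖a‖⁻¹ < 1 := inv_lt_one_of_one_lt₀ h
    obtain ⟨K, hK⟩ := exists_pow_lt_of_lt_one (lt_min hη one_pos) h1
    have e : ∀ z : ℂ, (C a⁻¹ * ∑ k ∈ Finset.range K, (C (-a⁻¹) * X) ^ k).eval z * (z + a) - 1 =
        -(-a⁻¹ * z) ^ K := fun z => by
      have := geom_sum_mul (-a⁻¹ * z) K
      simp only [eval_mul, eval_C, eval_finsetSum, eval_pow, eval_X]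
      have h2 : a⁻¹ * (z + a) = -(-a⁻¹ * z - 1) := by field_simp; ring
      linear_combination (∑ k ∈ Finset.range K, (-a⁻¹ * z) ^ k) * h2 - this
    have e2 : ∀ z : ℂ, ‖z‖ ≤ 1 → ‖-(-a⁻¹ * z) ^ K‖ < min η 1 := fun z hz => by
      rw [norm_neg, norm_pow, norm_mul, norm_neg, norm_inv]
      refine lt_of_le_of_lt (pow_le_pow_left₀ (by positivity) ?_ _) hK
      exact mul_le_of_le_one_right (by positivity) hz
    refine ⟨1, C a⁻¹ * ∑ k ∈ Finset.range K, (C (-a⁻¹) * X) ^ k, 1, one_pos, by simp,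
      fun z hz c => ?_, fun z hz => ?_⟩
    · have := e2 z hz
      rw [← e, c] at this
      simp at this
    · rw [eval_one, div_one, eval_add, eval_X, eval_C, e]
      exact (e2 z hz.le).trans_le (min_le_left _ _)

theorem Fac.mul {p q : ℂ[X]} (hp : Fac p) (hq : Fac q) : Fac (p * q) := by
  intro η hη
  have h0 : 0 < min (η / 3) 1 := lt_min (by positivity) one_pos
  obtain ⟨A, b, c, c0, h1, h2, h3⟩ := hp _ h0
  obtain ⟨A', b', c', c0', h1', h2', h3'⟩ := hq _ h0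
  refine ⟨A * A', b * b', c * c', by positivity, fun z hz => ?_, fun z hz => ?_, fun z hz => ?_⟩
  · rw [eval_mul, norm_mul]
    exact mul_le_mul (h1 z hz) (h1' z hz) c0'.le (norm_nonneg _)
  · rw [eval_mul]
    exact mul_ne_zero (h2 z hz) (h2' z hz)
  · have a1 := h3 z hz
    have a2 := h3' z hz
    have e : (b * b').eval z * (p * q).eval z / (A * A').eval z =
        b.eval z * p.eval z / A.eval z * (b'.eval z * q.eval z / A'.eval z) := by
      simp only [eval_mul]; ring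
    rw [e]
    generalize b.eval z * p.eval z / A.eval z = s at a1
    generalize b'.eval z * q.eval z / A'.eval z = t at a2
    have e2 : s * t - 1 = (s - 1) * (t - 1) + (s - 1) + (t - 1) := by ring
    have a3 := norm_add₃_le (a := (s - 1) * (t - 1)) (b := s - 1) (c := t - 1)
    rw [norm_mul] at a3
    rw [e2]
    have m1 := min_le_left (η / 3) 1
    have m2 := min_le_right (η / 3) 1
    nlinarith [norm_nonneg (s - 1), norm_nonneg (t - 1)]

theorem fac (κ : ℂ[X]) : (∀ z : ℂ, ‖z‖ = 1 → κ.eval z ≠ 0) → Fac κ := by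
  have h := IsAlgClosed.splits κ
  induction h using Submonoid.closure_induction with
  | mem x hx =>
    rcases hx with ⟨a, rfl⟩ | ⟨a, rfl⟩
    · exact fun h => fac_C a (by simpa using h 1 norm_one)
    · exact fun h => fac_lin a fun c => h (-a) (by rwa [norm_neg]) (by simp)
  | one => exact fun _ => by simpa using fac_C 1 one_ne_zero
  | mul x y _ _ hx hy =>
    exact fun h => (hx fun z hz c => h z hz (by simp [c])).mul (hy fun z hz c => h z hz (by simp [c]))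

theorem step1 {n : ℕ} (u : VV n) (ε : ℝ) (hε : 0 < ε) : ∃ δ : ℝ, 0 < δ ∧
    ∀ F : Fin (n + 1) → ℂ[X], (∀ z : ℂ, ‖z‖ = 1 → Near δ u (pev F z)) →
      ∃ (A b : ℂ[X]) (c : ℝ), 0 < c ∧ (∀ z : ℂ, 1 ≤ ‖z‖ → c ≤ ‖A.eval z‖) ∧
        (∀ z : ℂ, ‖z‖ ≤ 1 → b.eval z ≠ 0) ∧
        ∀ z : ℂ, ‖z‖ = 1 → ‖b.eval z • pev F z - A.eval z • u‖ < ε * ‖A.eval z‖ := by
  set δ := min (1 / 2) (ε / (10 * (‖u‖ + 1))) with hδ
  have d0 : 0 < δ := lt_min (by norm_num) (by positivity)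
  have d1 : δ ≤ 1 / 2 := min_le_left _ _
  have d2 : δ * (10 * (‖u‖ + 1)) ≤ ε := (le_div_iff₀ (by positivity)).1 (min_le_right _ _)
  refine ⟨δ, d0, fun F hF => ?_⟩
  have u0 : 0 < ‖u‖ := norm_pos_iff.2 (hF 1 norm_one).ne
  obtain ⟨i, hi⟩ : ∃ i, ‖u‖ ≤ ‖u i‖ := by
    by_contra c
    simp only [not_exists, not_le] at c
    exact lt_irrefl _ ((pi_norm_lt_iff u0).2 c)
  have ui : u i ≠ 0 := norm_pos_iff.1 (u0.trans_le hi)
  have key : ∀ z : ℂ, ‖z‖ = 1 → (F i * C (u i)⁻¹).eval z ≠ 0 ∧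
      ‖pev F z - (F i * C (u i)⁻¹).eval z • u‖ ≤ 4 * δ * ‖(F i * C (u i)⁻¹).eval z‖ * ‖u‖ := by
    intro z hz
    obtain ⟨μ, m0, hm⟩ := hF z hz
    have m1 : 0 < ‖μ‖ := norm_pos_iff.2 m0
    have e : ((F i * C (u i)⁻¹).eval z - μ) * u i = (pev F z - μ • u) i := by
      simp only [eval_mul, eval_C, Pi.sub_apply, Pi.smul_apply, pev, smul_eq_mul]
      field_simp
    generalize (F i * C (u i)⁻¹).eval z = k at e
    have a1 := norm_le_pi_norm (pev F z - μ • u) i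
    rw [← e, norm_mul] at a1
    rw [norm_smul] at hm
    have a2 : ‖k - μ‖ * ‖u‖ < δ * (‖μ‖ * ‖u‖) :=
      ((mul_le_mul_of_nonneg_left hi (norm_nonneg _)).trans a1).trans_lt hm
    have a3 : ‖k - μ‖ < δ * ‖μ‖ := lt_of_mul_lt_mul_right (by linarith) u0.le
    have a4 : ‖μ‖ ≤ ‖k - μ‖ + ‖k‖ := by
      rw [norm_sub_rev]; exact norm_le_norm_sub_add _ _
    have a5 : ‖μ‖ < 2 * ‖k‖ := by nlinarith
    refine ⟨norm_pos_iff.1 (by linarith), ?_⟩
    have a6 := norm_sub_le_norm_sub_add_norm_sub (pev F z) (μ • u) (k • u)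
    rw [← sub_smul, norm_smul, norm_sub_rev μ] at a6
    nlinarith [mul_pos d0 u0]
  obtain ⟨A, b, c, c0, h1, h2, h3⟩ := fac _ (fun z hz => (key z hz).1) δ d0
  refine ⟨A, b, c, c0, h1, h2, fun z hz => ?_⟩
  have a1 := (key z hz).2
  have a2 := h3 z hz
  have a0 : 0 < ‖A.eval z‖ := c0.trans_le (h1 z hz.ge)
  generalize (F i * C (u i)⁻¹).eval z = k at a1 a2
  have A0 : A.eval z ≠ 0 := norm_pos_iff.1 a0
  generalize A.eval z = α at a0 a2 A0
  generalize b.eval z = β at a2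
  have e : β • pev F z - α • u = β • (pev F z - k • u) + α • (β * k / α - 1) • u := by
    rw [smul_smul, smul_sub, smul_smul, mul_sub, mul_div_cancel₀ _ A0, sub_smul, mul_one]
    abel
  have a3 : ‖β * k / α‖ ≤ ‖β * k / α - 1‖ + ‖(1 : ℂ)‖ := norm_le_norm_sub_add _ _
  rw [norm_div, norm_mul, norm_one, div_le_iff₀ a0] at a3
  have a4 := norm_add_le (β • (pev F z - k • u)) (α • (β * k / α - 1) • u)
  rw [norm_smul, norm_smul, norm_smul] at a4
  rw [e]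
  have a5 : ‖β‖ * ‖pev F z - k • u‖ ≤ 4 * δ * ‖u‖ * (‖β‖ * ‖k‖) := by
    nlinarith [norm_nonneg β]
  have a6 : ‖β‖ * ‖k‖ ≤ 2 * ‖α‖ := by nlinarith
  have a7 : 4 * δ * ‖u‖ * (‖β‖ * ‖k‖) ≤ 4 * δ * ‖u‖ * (2 * ‖α‖) :=
    mul_le_mul_of_nonneg_left a6 (by positivity)
  have a8 : ‖α‖ * (‖β * k / α - 1‖ * ‖u‖) ≤ ‖α‖ * (δ * ‖u‖) :=
    mul_le_mul_of_nonneg_left (mul_le_mul_of_nonneg_right a2.le u0.le) a0.le
  nlinarith [mul_pos d0 a0, mul_pos (mul_pos d0 a0) u0]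

theorem pev_upper {n : ℕ} (G : Fin (n + 1) → ℂ[X]) :
    ∃ (B : ℝ) (N : ℕ), ∀ z : ℂ, 1 ≤ ‖z‖ → ‖pev G z‖ ≤ B * ‖z‖ ^ N := by
  obtain ⟨N, hN⟩ : ∃ N, ∀ i, (G i).natDegree ≤ N :=
    ⟨Finset.univ.sup fun i => (G i).natDegree, fun i =>
      Finset.le_sup (f := fun i => (G i).natDegree) (Finset.mem_univ i)⟩
  obtain ⟨B, hB⟩ := (isCompact_closedBall (0 : ℂ) 1).exists_bound_of_continuousOn
    (continuous_pev fun i => reflect N (G i)).continuousOn
  refine ⟨B, N, fun z hz => ?_⟩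
  have z0 : z ≠ 0 := norm_pos_iff.1 (by linarith)
  rw [pev_reflect G N hN z0, norm_smul, norm_pow, mul_comm]
  refine mul_le_mul_of_nonneg_right (hB _ ?_) (by positivity)
  rw [mem_closedBall_zero_iff, norm_inv]
  exact inv_le_one_of_one_le₀ hz

/-- the closed up tuple -/
noncomputable def HH {n : ℕ} (P F : Fin (n + 1) → ℂ[X]) (A b : ℂ[X]) (M : ℕ) :
    Fin (n + 1) → ℂ[X] := fun i => b * F i + A * ((P i).comp (X ^ M) - C ((P i).eval 0))

theorem pev_HH {n : ℕ} (P F : Fin (n + 1) → ℂ[X]) (A b : ℂ[X]) (M : ℕ) (z : ℂ) :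
    pev (HH P F A b M) z = b.eval z • pev F z + A.eval z • (pev P (z ^ M) - pev P 0) := by
  ext i
  simp [pev, HH, eval_comp]

theorem outer {n : ℕ} (P F : Fin (n + 1) → ℂ[X]) (A b : ℂ[X]) {d : ℕ} (hd : 1 ≤ d) {c c' δ : ℝ}
    (c0 : 0 < c) (c0' : 0 < c') (d0 : 0 < δ) (h1 : ∀ w, c * (1 + ‖w‖) ^ d ≤ ‖pev P w‖)
    (h2 : ∀ z : ℂ, 1 ≤ ‖z‖ → c' ≤ ‖A.eval z‖)
    (h3 : ∀ z : ℂ, ‖z‖ = 1 → ‖b.eval z • pev F z - A.eval z • pev P 0‖ < δ * c * ‖A.eval z‖) :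
    ∃ r : ℝ, r < 1 ∧ ∀ᶠ M : ℕ in atTop, ∀ z : ℂ, r < ‖z‖ →
      Near δ (pev P (z ^ M)) (pev (HH P F A b M) z) := by
  have near : ∀ (M : ℕ) (z : ℂ) (t : ℝ), 0 < t → t ≤ ‖pev P (z ^ M)‖ →
      ‖b.eval z • pev F z - A.eval z • pev P 0‖ < δ * t * ‖A.eval z‖ →
      Near δ (pev P (z ^ M)) (pev (HH P F A b M) z) := by
    intro M z t t0 ht h
    have a0 : A.eval z ≠ 0 := fun c => by
      rw [c, norm_zero, mul_zero] at h
      exact absurd h (norm_nonneg _).not_gt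
    refine ⟨A.eval z, a0, ?_⟩
    have e : pev (HH P F A b M) z - A.eval z • pev P (z ^ M) =
        b.eval z • pev F z - A.eval z • pev P 0 := by
      rw [pev_HH, smul_sub]; abel
    rw [e, norm_smul]
    refine h.trans_le ?_
    rw [mul_assoc, mul_comm t]
    gcongr
  have lc : ∀ w : ℂ, c ≤ ‖pev P w‖ := fun w =>
    (le_mul_of_one_le_right c0.le (one_le_pow₀ (by linarith [norm_nonneg w]))).trans (h1 w)
  have lw : ∀ w : ℂ, c * ‖w‖ ≤ ‖pev P w‖ := fun w => by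
    refine le_trans (mul_le_mul_of_nonneg_left ?_ c0.le) (h1 w)
    exact le_trans (by linarith) (le_self_pow₀ (by linarith [norm_nonneg w]) (by omega))
  have hU : IsOpen {z : ℂ | ‖b.eval z • pev F z - A.eval z • pev P 0‖ < δ * c * ‖A.eval z‖} :=
    isOpen_lt ((b.continuous.smul (continuous_pev F)).sub
      (A.continuous.smul continuous_const)).norm (continuous_const.mul A.continuous.norm)
  obtain ⟨ρ, r0, hρ⟩ := ((isCompact_closedBall (0 : ℂ) 2).diff hU).exists_forall_le'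
    (f := fun z => |‖z‖ - 1|) (by fun_prop) (a := 0) fun z hz =>
      abs_pos.2 fun c => hz.2 (h3 z (by linarith))
  set s := 1 + min ρ 1 with hs
  have s1 : 1 < s := by have := lt_min r0 one_pos; linarith
  obtain ⟨B, N, hB⟩ := pev_upper fun i => b * F i - A * C ((P i).eval 0)
  have ev : ∀ᶠ M : ℕ in atTop, B < δ * c * c' * s ^ (M - N) :=
    (((tendsto_pow_atTop_atTop_of_one_lt s1).comp (tendsto_sub_atTop_nat N)).const_mul_atTop
      (by positivity)).eventually_gt_atTop B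
  refine ⟨1 - ρ, by linarith, ?_⟩
  filter_upwards [ev, eventually_ge_atTop N] with M hM hN z hz
  rcases lt_or_ge ‖z‖ s with h | h
  · refine near M z c c0 (lc _) ?_
    by_contra g
    have m1 := min_le_left ρ 1
    have m2 := min_le_right ρ 1
    have := hρ z ⟨mem_closedBall_zero_iff.2 (by linarith), g⟩
    exact absurd this (not_le.2 (abs_lt.2 ⟨by linarith, by linarith⟩))
  · have z1 : 1 ≤ ‖z‖ := by linarith
    have z0 : 0 < ‖z‖ := by linarith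
    refine near M z (c * ‖z ^ M‖) (by rw [norm_pow]; positivity) (lw _) ?_
    have e : pev (fun i => b * F i - A * C ((P i).eval 0)) z =
        b.eval z • pev F z - A.eval z • pev P 0 := by
      ext i; simp [pev]
    rw [← e]
    refine (hB z z1).trans_lt ((mul_lt_mul_of_pos_right hM (by positivity)).trans_le ?_)
    have e2 : ‖z ^ M‖ = ‖z‖ ^ (M - N) * ‖z‖ ^ N := by
      rw [norm_pow, ← pow_add, Nat.sub_add_cancel hN]
    rw [e2]
    have a1 : s ^ (M - N) ≤ ‖z‖ ^ (M - N) := pow_le_pow_left₀ (by linarith) h _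
    have a2 := h2 z z1
    calc δ * c * c' * s ^ (M - N) * ‖z‖ ^ N ≤ δ * c * ‖A.eval z‖ * ‖z‖ ^ (M - N) * ‖z‖ ^ N := by
          gcongr
      _ = _ := by ring

theorem inner {n : ℕ} (P F : Fin (n + 1) → ℂ[X]) (A b : ℂ[X]) {r η : ℝ} (hr : r < 1)
    (hη : 0 < η) : ∀ᶠ M : ℕ in atTop, ∀ z : ℂ, ‖z‖ ≤ r →
      dist (pev (HH P F A b M) z) (b.eval z • pev F z) < η := by
  obtain ⟨B, hB⟩ := (isCompact_closedBall (0 : ℂ) 1).exists_bound_of_continuousOn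
    A.continuous.continuousOn
  have B0 : 0 ≤ B := (norm_nonneg _).trans (hB 0 (mem_closedBall_self zero_le_one))
  obtain ⟨ρ, r0, hρ⟩ := Metric.continuousAt_iff.1 ((continuous_pev P).continuousAt (x := 0))
    (η / (B + 1)) (by positivity)
  have ev : ∀ᶠ M : ℕ in atTop, max r 0 ^ M < ρ :=
    (tendsto_pow_atTop_nhds_zero_of_lt_one (le_max_right _ _)
      (max_lt hr one_pos)).eventually_lt_const r0
  filter_upwards [ev] with M hM z hz
  have a1 : dist (z ^ M) 0 < ρ := by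
    rw [dist_zero_right, norm_pow]
    exact (pow_le_pow_left₀ (norm_nonneg _) (hz.trans (le_max_left _ _)) _).trans_lt hM
  have a2 := hρ a1
  rw [lt_div_iff₀ (by positivity), dist_eq_norm] at a2
  have a3 := hB z (mem_closedBall_zero_iff.2 (by linarith))
  rw [pev_HH, dist_eq_norm, add_sub_cancel_left, norm_smul]
  nlinarith [norm_nonneg (pev P (z ^ M) - pev P 0)]

theorem top {n : ℕ} (P F : Fin (n + 1) → ℂ[X]) (A b : ℂ[X]) {d : ℕ} (hd : 1 ≤ d)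
    (hP : ∀ i, (P i).natDegree ≤ d) : ∀ᶠ M : ℕ in atTop,
      (∀ i, (HH P F A b M i).natDegree ≤ A.natDegree + d * M) ∧
        ptop (HH P F A b M) (A.natDegree + d * M) = A.leadingCoeff • ptop P d := by
  have ev : ∀ᶠ M : ℕ in atTop, ∀ i, (b * F i).natDegree < M :=
    eventually_all.2 fun i => eventually_gt_atTop _
  filter_upwards [ev, eventually_ge_atTop 1] with M hM M1
  have dM : M ≤ d * M := Nat.le_mul_of_pos_left M hd
  have k : ∀ i, ((P i).comp (X ^ M) - C ((P i).eval 0)).natDegree ≤ d * M := fun i => by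
    rw [natDegree_sub_C, natDegree_comp, natDegree_X_pow]
    exact Nat.mul_le_mul_right M (hP i)
  refine ⟨fun i => (natDegree_add_le _ _).trans (max_le (by have := hM i; omega)
    (natDegree_mul_le.trans (Nat.add_le_add_left (k i) _))), ?_⟩
  ext i
  simp only [ptop, HH, coeff_add, Pi.smul_apply, smul_eq_mul]
  rw [coeff_eq_zero_of_natDegree_lt (by have := hM i; omega), zero_add,
    coeff_mul_add_eq_of_natDegree_le le_rfl (k i), coeff_sub, coeff_C, if_neg (by omega), sub_zero,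
    ← expand_eq_comp_X_pow, coeff_expand_mul (by omega)]
  rfl

end CloseB

open CloseB in
theorem close_two {a b : ℕ} {Ω : Set (VV a × VV b)} (hΩ : IsCone Ω) {P : Fin (a + 1) → ℂ[X]}
    {d : ℕ} {Q : Fin (b + 1) → ℂ[X]} {e : ℕ} (h : IsRat Ω P d Q e) (hd : 1 ≤ d) (he : 1 ≤ e) :
    ∃ δ : ℝ, 0 < δ ∧ ∀ (F : Fin (a + 1) → ℂ[X]) (G : Fin (b + 1) → ℂ[X]),
      (∀ z ∈ closedBall (0 : ℂ) 1, (pev F z, pev G z) ∈ Ω) →
      (∀ ζ ∈ sphere (0 : ℂ) 1, Near δ (pev P 0) (pev F ζ) ∧ Near δ (pev Q 0) (pev G ζ)) →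
      ∃ (F' : Fin (a + 1) → ℂ[X]) (d' : ℕ) (G' : Fin (b + 1) → ℂ[X]) (e' : ℕ),
        IsRat Ω F' d' G' e' ∧ 1 ≤ d' ∧ 1 ≤ e' ∧
        toP (pev F' 0) = toP (pev F 0) ∧ toP (pev G' 0) = toP (pev G 0) ∧
        toP (ptop F' d') = toP (ptop P d) ∧ toP (ptop G' e') = toP (ptop Q e) := by
  obtain ⟨dm, m0, hm, -⟩ := h.margin hΩ
  have tP := (hΩ.ne _ _ h.top).1
  have tQ := (hΩ.ne _ _ h.top).2
  obtain ⟨c₁, c1, l1⟩ := pev_lower P d h.degP (fun w => (hΩ.ne _ _ (h.mem w)).1) tP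
  obtain ⟨c₂, c2, l2⟩ := pev_lower Q e h.degQ (fun w => (hΩ.ne _ _ (h.mem w)).2) tQ
  obtain ⟨δ₁, d1, s1⟩ := step1 (pev P 0) (dm * c₁) (by positivity)
  obtain ⟨δ₂, d2, s2⟩ := step1 (pev Q 0) (dm * c₂) (by positivity)
  refine ⟨min δ₁ δ₂, lt_min d1 d2, fun F G hD hS => ?_⟩
  obtain ⟨A₁, b₁, k₁, k1, p1, p2, p3⟩ := s1 F fun z hz =>
    (hS z (mem_sphere_zero_iff_norm.2 hz)).1.mono (min_le_left _ _)
  obtain ⟨A₂, b₂, k₂, k2, q1, q2, q3⟩ := s2 G fun z hz =>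
    (hS z (mem_sphere_zero_iff_norm.2 hz)).2.mono (min_le_right _ _)
  have A1 : A₁.leadingCoeff ≠ 0 := leadingCoeff_ne_zero.2 fun c => by
    have := p1 1 norm_one.ge
    rw [c, eval_zero, norm_zero] at this
    linarith
  have A2 : A₂.leadingCoeff ≠ 0 := leadingCoeff_ne_zero.2 fun c => by
    have := q1 1 norm_one.ge
    rw [c, eval_zero, norm_zero] at this
    linarith
  obtain ⟨r₁, r1, o1⟩ := outer P F A₁ b₁ hd c1 k1 m0 l1 p1 p3
  obtain ⟨r₂, r2, o2⟩ := outer Q G A₂ b₂ he c2 k2 m0 l2 q1 q3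
  obtain ⟨ρ, r0, hρ⟩ := ((isCompact_closedBall (0 : ℂ) 1).image
    ((b₁.continuous.smul (continuous_pev F)).prodMk
      (b₂.continuous.smul (continuous_pev G)))).exists_thickening_subset_open hΩ.isOpen (by
        rintro _ ⟨z, hz, rfl⟩
        exact hΩ.smul _ _ _ _ (p2 z (mem_closedBall_zero_iff.1 hz))
          (q2 z (mem_closedBall_zero_iff.1 hz)) (hD z hz))
  have hr := max_lt r1 r2
  obtain ⟨M, ⟨⟨⟨⟨⟨⟨a1, a2⟩, a3⟩, a4⟩, a5, a6⟩, a7, a8⟩, M1⟩⟩ :=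
    ((((((o1.and o2).and (inner P F A₁ b₁ hr r0)).and (inner Q G A₂ b₂ hr r0)).and
      (top P F A₁ b₁ hd h.degP)).and (top Q G A₂ b₂ he h.degQ)).and
      (eventually_ge_atTop 1)).exists
  have h0 := hΩ.ne _ _ (hD 0 (mem_closedBall_self zero_le_one))
  have M0 : M ≠ 0 := by omega
  refine ⟨HH P F A₁ b₁ M, _, HH Q G A₂ b₂ M, _, ⟨a5, a7, fun z => ?_, ?_⟩, ?_, ?_, ?_, ?_, ?_, ?_⟩
  · rcases le_or_gt ‖z‖ (max r₁ r₂) with g | g
    · refine hρ (mem_thickening_iff.2 ⟨_, ⟨z, mem_closedBall_zero_iff.2 (by linarith), rfl⟩, ?_⟩)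
      rw [Prod.dist_eq]
      exact max_lt (a3 z g) (a4 z g)
    · exact hm _ _ _ (a1 z ((le_max_left _ _).trans_lt g)) (a2 z ((le_max_right _ _).trans_lt g))
  · rw [a6, a8]
    exact hΩ.smul _ _ _ _ A1 A2 h.top
  · nlinarith
  · nlinarith
  · rw [pev_HH, zero_pow M0, sub_self, smul_zero, add_zero]
    exact ((rep_toP h0.1).smul (p2 0 (by simp))).toP_eq
  · rw [pev_HH, zero_pow M0, sub_self, smul_zero, add_zero]
    exact ((rep_toP h0.2).smul (q2 0 (by simp))).toP_eq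
  · rw [a6]
    exact ((rep_toP tP).smul A1).toP_eq
  · rw [a8]
    exact ((rep_toP tQ).smul A2).toP_eq

end Pool.Agent.Lib.MP_879098_ag
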