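import Pool.Agent.Lib.MP_879098_ag.Base

/-! Laurent approximation on the unit circle and an approximate Riemann-Hilbert lemma. -/

namespace Pool.Agent.Lib.MP_879098_ag

open Filter Topology Polynomial Metric

namespace RH

lemma ne_zero_of_mem {ζ : ℂ} (h : ζ ∈ sphere (0 : ℂ) 1) : ζ ≠ 0 := by
  rintro rfl
  simp at h

lemma norm_of_mem {ζ : ℂ} (h : ζ ∈ sphere (0 : ℂ) 1) : ‖ζ‖ = 1 := by simpa using h

lemma conj_mul_self {ζ : ℂ} (h : ζ ∈ sphere (0 : ℂ) 1) : ζ * (starRingEnd ℂ) ζ = 1 := by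
  rw [Complex.mul_conj, Complex.normSq_eq_norm_sq, norm_of_mem h]; simp

lemma laurent (a : ℂ → ℂ) (ha : ContinuousOn a (sphere 0 1)) (η : ℝ) (hη : 0 < η) :
    ∃ (N : ℕ) (q : ℂ[X]), ∀ ζ ∈ sphere (0 : ℂ) 1, ‖q.eval ζ - ζ ^ N * a ζ‖ < η := by
  set L : Set C(sphere (0 : ℂ) 1, ℂ) :=
    {h | ∃ (N : ℕ) (q : ℂ[X]), ∀ ζ : sphere (0 : ℂ) 1, q.eval ζ.1 = ζ.1 ^ N * h ζ} with hL
  have key : ∀ h : C(sphere (0 : ℂ) 1, ℂ), h ∈ closure L := by
    intro h
    induction h using ContinuousMap.induction_on_of_compact with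
    | const r => exact subset_closure ⟨0, C r, fun ζ => by simp⟩
    | id => exact subset_closure ⟨0, X, fun ζ => by simp⟩
    | star_id =>
      refine subset_closure ⟨1, 1, fun ζ => ?_⟩
      simpa using (conj_mul_self ζ.2).symm
    | add f g hf hg =>
      refine map_mem_closure₂ continuous_add hf hg ?_
      rintro f ⟨N, q, hq⟩ g ⟨M, r, hr⟩
      refine ⟨N + M, X ^ M * q + X ^ N * r, fun ζ => ?_⟩
      simp only [eval_add, eval_mul, eval_pow, eval_X, hq, hr, ContinuousMap.add_apply]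
      ring
    | mul f g hf hg =>
      refine map_mem_closure₂ continuous_mul hf hg ?_
      rintro f ⟨N, q, hq⟩ g ⟨M, r, hr⟩
      refine ⟨N + M, q * r, fun ζ => ?_⟩
      simp only [eval_mul, hq, hr, ContinuousMap.mul_apply]
      ring
    | frequently f hf =>
      have : f ∈ closure (closure L) := mem_closure_iff_frequently.2 hf
      rwa [closure_closure] at this
  obtain ⟨h, ⟨N, q, hq⟩, hd⟩ := Metric.mem_closure_iff.1
    (key ⟨(sphere (0 : ℂ) 1).domRestrict a, ha.domRestrict⟩) η hη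
  refine ⟨N, q, fun ζ hζ => ?_⟩
  have h1 := (ContinuousMap.dist_apply_le_dist ⟨ζ, hζ⟩).trans_lt hd
  rw [hq ⟨ζ, hζ⟩, ← mul_sub, norm_mul, norm_pow, norm_of_mem hζ, one_pow, one_mul, ← dist_eq_norm,
    dist_comm]
  exact h1

lemma re_div (N : ℕ) (q : ℂ[X]) :
    ∃ p : ℂ[X], ∀ ζ ∈ sphere (0 : ℂ) 1, (p.eval ζ).re = (q.eval ζ / ζ ^ N).re := by
  induction q using Polynomial.induction_on' with
  | add p q hp hq =>
    obtain ⟨p', hp⟩ := hp
    obtain ⟨q', hq⟩ := hq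
    exact ⟨p' + q', fun ζ hζ => by
      rw [eval_add, eval_add, add_div, Complex.add_re, Complex.add_re, hp ζ hζ, hq ζ hζ]⟩
  | monomial k c =>
    rcases le_total N k with h | h
    · obtain ⟨j, rfl⟩ := Nat.exists_eq_add_of_le h
      refine ⟨monomial j c, fun ζ hζ => ?_⟩
      have := ne_zero_of_mem hζ
      congr 1
      simp only [eval_monomial]
      field_simp
      ring
    · obtain ⟨j, rfl⟩ := Nat.exists_eq_add_of_le h
      refine ⟨monomial j ((starRingEnd ℂ) c), fun ζ hζ => ?_⟩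
      have h0 := ne_zero_of_mem hζ
      rw [← Complex.conj_re]
      congr 1
      have e : (starRingEnd ℂ) ζ = ζ⁻¹ := (eq_inv_of_mul_eq_one_right (conj_mul_self hζ))
      simp only [eval_monomial, map_mul, map_pow, Complex.conj_conj, e, inv_pow]
      field_simp
      ring

variable {E : Type} [NormedAddCommGroup E] [NormedSpace ℂ E]

/-- polynomial maps -/
inductive IsPM : (ℂ → E) → Prop
  | mono (k : ℕ) (e : E) : IsPM fun z => z ^ k • e
  | add {F G : ℂ → E} : IsPM F → IsPM G → IsPM fun z => F z + G z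

lemma IsPM.congr {F G : ℂ → E} (h : IsPM F) (e : ∀ z, F z = G z) : IsPM G := by
  rwa [show G = F from funext fun z => (e z).symm]

lemma IsPM.sum {ι : Type} (s : Finset ι) (F : ι → ℂ → E) (h : ∀ i ∈ s, IsPM (F i)) :
    IsPM fun z => ∑ i ∈ s, F i z := by
  classical
  induction s using Finset.induction_on with
  | empty => exact (IsPM.mono 0 (0 : E)).congr fun z => by simp
  | insert a s ha ih =>
    exact ((h a (Finset.mem_insert_self _ _)).add
      (ih fun i hi => h i (Finset.mem_insert_of_mem hi))).congr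
      fun z => by rw [Finset.sum_insert ha]

lemma IsPM.pow_smul {F : ℂ → E} (h : IsPM F) (j : ℕ) : IsPM fun z => z ^ j • F z := by
  induction h with
  | mono k e => exact (IsPM.mono (j + k) e).congr fun z => by rw [pow_add, mul_smul]
  | add _ _ h1 h2 => exact (h1.add h2).congr fun z => by rw [smul_add]

lemma IsPM.poly (q : ℂ[X]) (e : E) : IsPM fun z => q.eval z • e := by
  induction q using Polynomial.induction_on' with
  | add p q hp hq => exact (hp.add hq).congr fun z => by rw [eval_add, add_smul]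
  | monomial k c =>
    exact (IsPM.mono k (c • e)).congr fun z => by rw [eval_monomial, mul_comm, mul_smul]

lemma IsPM.continuous {F : ℂ → E} (h : IsPM F) : Continuous F := by
  induction h with
  | mono k e => fun_prop
  | add _ _ h1 h2 => exact h1.add h2

lemma IsPM.normal {F : ℂ → E} (h : IsPM F) :
    ∃ c : ℕ → E, ∀ᶠ N in atTop, ∀ z, F z = ∑ k ∈ Finset.range N, z ^ k • c k := by
  induction h with
  | mono k e =>
    refine ⟨Pi.single k e, (eventually_gt_atTop k).mono fun N hN z => ?_⟩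
    rw [Finset.sum_eq_single k]
    · simp
    · intro b _ hb; simp [hb]
    · intro h; exact absurd (Finset.mem_range.2 hN) h
  | add _ _ h1 h2 =>
    obtain ⟨c, hc⟩ := h1
    obtain ⟨c', hc'⟩ := h2
    refine ⟨c + c', (hc.and hc').mono fun N hN z => ?_⟩
    simp only [hN.1 z, hN.2 z, Pi.add_apply, smul_add, Finset.sum_add_distrib]

lemma laurent_vec [FiniteDimensional ℂ E] (a : ℂ → E) (ha : ContinuousOn a (sphere 0 1))
    (η : ℝ) (hη : 0 < η) : ∀ᶠ N : ℕ in atTop, ∃ Q : ℂ → E, IsPM Q ∧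
      ∀ ζ ∈ sphere (0 : ℂ) 1, ‖Q ζ - ζ ^ N • a ζ‖ < η := by
  set b := Module.finBasis ℂ E with hb
  set B := ∑ i, ‖b i‖ + 1 with hB
  have hB0 : 0 < B := by positivity
  have h1 : ∀ i, ∀ᶠ N : ℕ in atTop, ∃ q : ℂ[X], ∀ ζ ∈ sphere (0 : ℂ) 1,
      ‖q.eval ζ - ζ ^ N * b.coord i (a ζ)‖ < η / B := fun i => by
    obtain ⟨N, q, hq⟩ := laurent (fun ζ => b.coord i (a ζ))
      ((b.coord i).continuous_of_finiteDimensional.comp_continuousOn ha) (η / B) (by positivity)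
    refine (eventually_ge_atTop N).mono fun M hM => ?_
    obtain ⟨j, rfl⟩ := Nat.exists_eq_add_of_le hM
    refine ⟨X ^ j * q, fun ζ hζ => ?_⟩
    have : eval ζ (X ^ j * q) - ζ ^ (N + j) * b.coord i (a ζ) =
        ζ ^ j * (q.eval ζ - ζ ^ N * b.coord i (a ζ)) := by
      simp only [eval_mul, eval_pow, eval_X]; ring
    rw [this, norm_mul, norm_pow, norm_of_mem hζ, one_pow, one_mul]
    exact hq ζ hζ
  refine (eventually_all.2 h1).mono fun N hN => ?_
  choose q hq using hN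
  refine ⟨fun z => ∑ i, (q i).eval z • b i, IsPM.sum _ _ fun i _ => IsPM.poly _ _, fun ζ hζ => ?_⟩
  have e : ∑ i, (q i).eval ζ • b i - ζ ^ N • a ζ =
      ∑ i, ((q i).eval ζ - ζ ^ N * b.coord i (a ζ)) • b i := by
    conv_lhs => rw [← b.sum_repr (a ζ)]
    rw [Finset.smul_sum, ← Finset.sum_sub_distrib]
    refine Finset.sum_congr rfl fun i _ => ?_
    rw [sub_smul, mul_smul]
    rfl
  rw [e]
  calc _ ≤ ∑ i, η / B * ‖b i‖ := norm_sum_le_of_le _ fun i _ => by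
        rw [norm_smul]; exact mul_le_mul_of_nonneg_right (hq i ζ hζ).le (norm_nonneg _)
    _ < η := by
        rw [← Finset.mul_sum, div_mul_eq_mul_div, div_lt_iff₀ hB0]
        exact mul_lt_mul_of_pos_left (by linarith) hη

lemma taylor [CompleteSpace E] (h : ℂ → E) (R : NNReal) (hR : 1 < R)
    (hd : DifferentiableOn ℂ h (closedBall 0 R)) (C : ℝ)
    (hC : ∀ z ∈ sphere (0 : ℂ) R, ‖h z‖ ≤ C) :
    (cauchyPowerSeries h 0 R).coeff 0 = h 0 ∧ ∀ w ∈ closedBall (0 : ℂ) 1, ∀ n : ℕ,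
      ‖∑ k ∈ Finset.range n, w ^ k • (cauchyPowerSeries h 0 R).coeff k - h w‖ ≤
        C * (R : ℝ)⁻¹ ^ n / (1 - (R : ℝ)⁻¹) := by
  have hR' : (1 : ℝ) < R := hR
  have hp := hd.hasFPowerSeriesOnBall (lt_trans one_pos hR)
  refine ⟨hp.coeff_zero _, fun w hw n => ?_⟩
  have hw1 : ‖w‖ ≤ 1 := by simpa using hw
  have hs := hp.hasSum (y := w) (by
    rw [Metric.eball_coe, mem_ball_zero_iff]; exact hw1.trans_lt hR')
  simp only [FormalMultilinearSeries.apply_eq_pow_smul_coeff, zero_add] at hs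
  refine norm_sub_le_of_geometric_bound_of_hasSum (inv_lt_one_of_one_lt₀ hR') (fun k => ?_) hs n
  rw [norm_smul, norm_pow, ← FormalMultilinearSeries.norm_apply_eq_norm_coef]
  have h1 := norm_cauchyPowerSeries_le h 0 R k
  have h2 : ∫ θ : ℝ in (0)..2 * Real.pi, ‖h (circleMap 0 R θ)‖ ≤ 2 * Real.pi * C := by
    have := intervalIntegral.norm_integral_le_of_norm_le_const (a := 0) (b := 2 * Real.pi)
      (C := C) (f := fun θ => ‖h (circleMap 0 R θ)‖) fun θ _ => by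
        rw [norm_norm]; exact hC _ (circleMap_mem_sphere 0 R.2 θ)
    rw [sub_zero, abs_of_pos Real.two_pi_pos, mul_comm C] at this
    exact (le_abs_self _).trans this
  have h3 : (2 * Real.pi)⁻¹ * ∫ θ : ℝ in (0)..2 * Real.pi, ‖h (circleMap 0 R θ)‖ ≤ C := by
    rw [inv_mul_le_iff₀ Real.two_pi_pos]; exact h2
  rw [abs_of_pos (by linarith : (0 : ℝ) < R)] at h1
  calc _ ≤ 1 * ‖cauchyPowerSeries h 0 R k‖ :=
        mul_le_mul_of_nonneg_right (pow_le_one₀ (norm_nonneg _) hw1) (norm_nonneg _)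
    _ ≤ _ := by
        rw [one_mul]
        exact h1.trans (mul_le_mul_of_nonneg_right h3 (by positivity))

lemma exists_small (C r ε : ℝ) (hr0 : 0 ≤ r) (hr : r < 1) (hε : 0 < ε) :
    ∃ n : ℕ, C * r ^ (n + 1) < ε := by
  have : Tendsto (fun n : ℕ => C * r ^ (n + 1)) atTop (𝓝 (C * 0)) :=
    ((tendsto_pow_atTop_nhds_zero_of_lt_one hr0 hr).comp (tendsto_add_atTop_nat 1)).const_mul C
  rw [mul_zero] at this
  exact (this.eventually (gt_mem_nhds hε)).exists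

lemma approx_f [CompleteSpace E] (f : ℂ → E) (hf : AnalyticOnNhd ℂ f (closedBall 0 1)) (ε : ℝ)
    (hε : 0 < ε) : ∃ p : ℂ → E, IsPM p ∧ p 0 = f 0 ∧
      ∀ z ∈ closedBall (0 : ℂ) 1, ‖p z - f z‖ < ε := by
  obtain ⟨δ, hδ, hsub⟩ := (isCompact_closedBall (0 : ℂ) 1).exists_cthickening_subset_open
    (isOpen_analyticAt ℂ f) hf
  rw [cthickening_closedBall hδ.le zero_le_one] at hsub
  set R : NNReal := ⟨δ + 1, by positivity⟩ with hRd
  have hR : 1 < R := by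
    change (1 : ℝ) < δ + 1
    linarith
  have hd : DifferentiableOn ℂ f (closedBall 0 R) := fun z hz =>
    (show AnalyticAt ℂ f z from hsub hz).differentiableAt.differentiableWithinAt
  obtain ⟨C, hC⟩ := (isCompact_sphere (0 : ℂ) R).exists_bound_of_continuousOn
    (hd.continuousOn.mono sphere_subset_closedBall)
  obtain ⟨h0, ht⟩ := taylor f R hR hd C hC
  have hR' : (1 : ℝ) < R := hR
  obtain ⟨n, hn⟩ := exists_small (C / (1 - (R : ℝ)⁻¹)) (R : ℝ)⁻¹ ε (by positivity)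
    (inv_lt_one_of_one_lt₀ hR') hε
  refine ⟨fun z => ∑ k ∈ Finset.range (n + 1), z ^ k • (cauchyPowerSeries f 0 R).coeff k,
    IsPM.sum _ _ fun k _ => IsPM.mono _ _, ?_, fun z hz => (ht z hz _).trans_lt ?_⟩
  · simp [Finset.sum_range_succ', h0]
  · rwa [div_mul_eq_mul_div] at hn

lemma approx_g [CompleteSpace E] (g : ℂ → ℂ → E)
    (hg : ContinuousOn (fun z : ℂ × ℂ => g z.1 z.2) (sphere 0 1 ×ˢ Set.univ))
    (hd : ∀ ζ ∈ sphere (0 : ℂ) 1, Differentiable ℂ (g ζ)) (ε : ℝ) (hε : 0 < ε) :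
    ∃ (d : ℕ) (a : ℕ → ℂ → E), (∀ k, ContinuousOn (a k) (sphere 0 1)) ∧
      ∀ ζ ∈ sphere (0 : ℂ) 1, ∀ w ∈ closedBall (0 : ℂ) 1,
        ‖g ζ 0 + ∑ k ∈ Finset.range d, w ^ (k + 1) • a k ζ - g ζ w‖ < ε := by
  obtain ⟨C, hC⟩ := ((isCompact_sphere (0 : ℂ) 1).prod
    (isCompact_sphere (0 : ℂ) 2)).exists_bound_of_continuousOn
    (hg.mono (Set.prod_mono le_rfl (Set.subset_univ _)))
  obtain ⟨n, hn⟩ := exists_small (C / (1 - (2 : ℝ)⁻¹)) (2 : ℝ)⁻¹ ε (by positivity) (by norm_num) hε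
  refine ⟨n, fun k ζ => (cauchyPowerSeries (g ζ) 0 2).coeff (k + 1), fun k => ?_,
    fun ζ hζ w hw => ?_⟩
  · rw [continuousOn_iff_continuous_domRestrict]
    have hc : Continuous fun x : sphere (0 : ℂ) 1 × ℝ => g x.1.1 (circleMap 0 2 x.2) :=
      hg.comp_continuous (f := fun x : sphere (0 : ℂ) 1 × ℝ => (x.1.1, circleMap 0 2 x.2))
        (by fun_prop) fun x => ⟨x.1.2, trivial⟩
    have e : (sphere (0 : ℂ) 1).domRestrict (fun ζ => (cauchyPowerSeries (g ζ) 0 2).coeff (k + 1)) =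
        fun ζ : sphere (0 : ℂ) 1 => (2 * Real.pi * Complex.I : ℂ)⁻¹ •
          ∫ θ : ℝ in (0)..2 * Real.pi, (circleMap 0 2 θ * Complex.I) •
            ((1 / circleMap 0 2 θ) ^ (k + 1) • (circleMap 0 2 θ)⁻¹ • g ζ.1 (circleMap 0 2 θ)) := by
      funext ζ
      have := cauchyPowerSeries_apply (g ζ.1) 0 2 (k + 1) 1
      simp only [circleIntegral, deriv_circleMap, sub_zero] at this
      exact this
    beta_reduce
    rw [e]
    refine Continuous.const_smul (intervalIntegral.continuous_parametric_intervalIntegral_of_continuous'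
      ?_ _ _) _
    have h0 : ∀ θ : ℝ, circleMap 0 2 θ ≠ 0 := fun θ => circleMap_ne_center (by norm_num)
    have c1 : Continuous fun x : sphere (0 : ℂ) 1 × ℝ => circleMap 0 2 x.2 := by fun_prop
    exact (c1.mul continuous_const).smul (((continuous_const.div c1 fun x => h0 _).pow _).smul
      ((c1.inv₀ fun x => h0 _).smul hc))
  · obtain ⟨h0, ht⟩ := taylor (g ζ) 2 (by norm_num) (hd ζ hζ).differentiableOn C
      fun z hz => hC (ζ, z) ⟨hζ, hz⟩
    have := ht w hw (n + 1)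
    rw [Finset.sum_range_succ', h0, pow_zero, one_smul, add_comm] at this
    rw [div_mul_eq_mul_div] at hn
    exact this.trans_lt hn

end RH

theorem exists_re_approx (v : ℂ → ℝ) (hv : ContinuousOn v (sphere 0 1)) (η : ℝ) (hη : 0 < η) :
    ∃ p : ℂ[X], ∀ ζ ∈ sphere (0 : ℂ) 1, |(p.eval ζ).re - v ζ| < η := by
  obtain ⟨N, q, hq⟩ := RH.laurent (fun ζ => (v ζ : ℂ))
    (Complex.continuous_ofReal.comp_continuousOn hv) η hη
  obtain ⟨p, hp⟩ := RH.re_div N q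
  refine ⟨p, fun ζ hζ => ?_⟩
  have h0 := RH.ne_zero_of_mem hζ
  have e : q.eval ζ - ζ ^ N * v ζ = ζ ^ N * (q.eval ζ / ζ ^ N - v ζ) := by field_simp
  have h1 := hq ζ hζ
  rw [e, norm_mul, norm_pow, RH.norm_of_mem hζ, one_pow, one_mul] at h1
  rw [hp ζ hζ]
  simpa using (Complex.abs_re_le_norm _).trans_lt h1

theorem rh {E : Type} [NormedAddCommGroup E] [NormedSpace ℂ E] [FiniteDimensional ℂ E]
    (f : ℂ → E) (hf : AnalyticOnNhd ℂ f (closedBall 0 1)) (g : ℂ → ℂ → E)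
    (hg : ContinuousOn (fun z : ℂ × ℂ => g z.1 z.2) (sphere 0 1 ×ˢ Set.univ))
    (hd : ∀ ζ ∈ sphere (0 : ℂ) 1, Differentiable ℂ (g ζ))
    (h0 : ∀ ζ ∈ sphere (0 : ℂ) 1, g ζ 0 = f ζ)
    (Ω : Set E) (hΩ : IsOpen Ω) (hfΩ : ∀ z ∈ closedBall (0 : ℂ) 1, f z ∈ Ω)
    (hgΩ : ∀ ζ ∈ sphere (0 : ℂ) 1, ∀ w ∈ closedBall (0 : ℂ) 1, g ζ w ∈ Ω) (η : ℝ) (hη : 0 < η) :
    ∃ (N : ℕ) (c : ℕ → E), c 0 = f 0 ∧ 0 < N ∧
      (∀ z ∈ closedBall (0 : ℂ) 1, ∑ k ∈ Finset.range N, z ^ k • c k ∈ Ω) ∧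
      ∀ ζ ∈ sphere (0 : ℂ) 1, ∃ w ∈ sphere (0 : ℂ) 1,
        ‖∑ k ∈ Finset.range N, ζ ^ k • c k - g ζ w‖ < η := by
  have : CompleteSpace E := FiniteDimensional.complete ℂ E
  have K1 : IsCompact (f '' closedBall 0 1) :=
    (isCompact_closedBall _ _).image_of_continuousOn hf.continuousOn
  have K2 : IsCompact ((fun z : ℂ × ℂ => g z.1 z.2) '' (sphere 0 1 ×ˢ closedBall 0 1)) :=
    ((isCompact_sphere _ _).prod (isCompact_closedBall _ _)).image_of_continuousOn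
      (hg.mono (Set.prod_mono le_rfl (Set.subset_univ _)))
  obtain ⟨δ, hδ, hsub⟩ := (K1.union K2).exists_thickening_subset_open hΩ (by
    rintro _ (⟨z, hz, rfl⟩ | ⟨z, hz, rfl⟩)
    exacts [hfΩ z hz, hgΩ _ hz.1 _ hz.2])
  set ε := min η δ / 4 with hεd
  have hε : 0 < ε := by positivity
  have hε1 : 4 * ε ≤ η := by have := min_le_left η δ; linarith
  have hε2 : 4 * ε ≤ δ := by have := min_le_right η δ; linarith
  obtain ⟨p, hp, hp0, hpf⟩ := RH.approx_f f hf ε hε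
  obtain ⟨d, a, ha, hag⟩ := RH.approx_g g hg hd ε hε
  obtain ⟨N, hN⟩ := ((Finset.range d).eventually_all.2 fun k _ =>
    RH.laurent_vec (a k) (ha k) (ε / (d + 1)) (by positivity)).exists
  choose! Q hQ hQa using hN
  set Φ : ℂ × ℂ → E := fun x =>
    f x.1 + ∑ k ∈ Finset.range d, x.2 ^ (k + 1) • (x.1 ^ N)⁻¹ • Q k x.1 with hΦ
  set A : Set ℂ := closedBall 0 1 \ ball 0 (1 / 2) with hA
  have hAc : IsCompact (A ×ˢ closedBall (0 : ℂ) 1) :=
    ((isCompact_closedBall _ _).diff isOpen_ball).prod (isCompact_closedBall _ _)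
  have hA0 : ∀ z ∈ A, z ≠ 0 := by
    rintro z hz rfl
    exact hz.2 (mem_ball_self (by norm_num))
  have hΦc : ContinuousOn Φ (A ×ˢ closedBall (0 : ℂ) 1) := by
    refine ContinuousOn.add (hf.continuousOn.comp continuousOn_fst fun x hx => hx.1.1)
      (continuousOn_finsetSum _ fun k hk => ?_)
    refine ContinuousOn.smul (by fun_prop) (ContinuousOn.smul
      (ContinuousOn.inv₀ (by fun_prop) fun x hx => pow_ne_zero _ (hA0 _ hx.1)) ?_)
    exact ((hQ k hk).continuous.comp continuous_fst).continuousOn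
  obtain ⟨δ1, hδ1, huc⟩ := Metric.uniformContinuousOn_iff.1
    (hAc.uniformContinuousOn_of_continuous hΦc) ε hε
  have hΦg : ∀ ζ ∈ sphere (0 : ℂ) 1, ∀ w ∈ closedBall (0 : ℂ) 1,
      ‖Φ (ζ, w) - g ζ w‖ < 2 * ε := fun ζ hζ w hw => by
    have hw1 : ‖w‖ ≤ 1 := by simpa using hw
    have hz := RH.ne_zero_of_mem hζ
    have e : Φ (ζ, w) - g ζ w = (g ζ 0 + ∑ k ∈ Finset.range d, w ^ (k + 1) • a k ζ - g ζ w) +
        ∑ k ∈ Finset.range d, w ^ (k + 1) • (ζ ^ N)⁻¹ • (Q k ζ - ζ ^ N • a k ζ) := by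
      simp only [hΦ, h0 ζ hζ, smul_sub, inv_smul_smul₀ (pow_ne_zero N hz), Finset.sum_sub_distrib]
      abel
    have b : ‖∑ k ∈ Finset.range d, w ^ (k + 1) • (ζ ^ N)⁻¹ • (Q k ζ - ζ ^ N • a k ζ)‖ ≤ ε := by
      calc _ ≤ ∑ _k ∈ Finset.range d, ε / (d + 1) := norm_sum_le_of_le _ fun k hk => by
            rw [norm_smul, norm_smul, norm_inv, norm_pow, norm_pow, RH.norm_of_mem hζ, one_pow,
              inv_one, one_mul]
            exact (mul_le_of_le_one_left (norm_nonneg _)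
              (pow_le_one₀ (norm_nonneg _) hw1)).trans (hQa k hk ζ hζ).le
        _ ≤ ε := by
            rw [Finset.sum_const, Finset.card_range, nsmul_eq_mul, mul_div_assoc',
              div_le_iff₀ (by positivity)]
            nlinarith
    rw [e]
    linarith [norm_add_le (g ζ 0 + ∑ k ∈ Finset.range d, w ^ (k + 1) • a k ζ - g ζ w)
      (∑ k ∈ Finset.range d, w ^ (k + 1) • (ζ ^ N)⁻¹ • (Q k ζ - ζ ^ N • a k ζ)), hag ζ hζ w hw]
  set r := max (1 / 2) (1 - δ1 / 2) with hr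
  have hr1 : r < 1 := max_lt (by norm_num) (by linarith)
  have hr0 : 0 ≤ r := le_trans (by norm_num) (le_max_left _ _)
  obtain ⟨B, hB⟩ := (isCompact_closedBall (0 : ℂ) 1).exists_bound_of_continuousOn
    (f := fun z => ∑ k ∈ Finset.range d, ‖Q k z‖)
    (continuousOn_finsetSum _ fun k hk => (hQ k hk).continuous.norm.continuousOn)
  obtain ⟨j, hj⟩ := RH.exists_small B r ε hr0 hr1 hε
  set M := N + (j + 1) with hM
  set F : ℂ → E := fun z => p z + ∑ k ∈ Finset.range d, z ^ (k * M + (j + 1)) • Q k z with hF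
  have hFp : RH.IsPM F := hp.add (RH.IsPM.sum _ _ fun k hk => (hQ k hk).pow_smul _)
  have hFΦ : ∀ z ∈ closedBall (0 : ℂ) 1, z ≠ 0 → ‖F z - Φ (z, z ^ M)‖ < ε := fun z hz hz0 => by
    have e : F z - Φ (z, z ^ M) = p z - f z := by
      have : ∀ k, (z ^ M) ^ (k + 1) • (z ^ N)⁻¹ • Q k z = z ^ (k * M + (j + 1)) • Q k z :=
        fun k => by
          rw [smul_smul]
          congr 1
          rw [hM]
          field_simp
          ring
      simp only [hF, hΦ, this]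
      abel
    rw [e]
    exact hpf z hz
  have hpow : ∀ z ∈ closedBall (0 : ℂ) 1, z ^ M ∈ closedBall (0 : ℂ) 1 := fun z hz => by
    simp only [mem_closedBall, dist_zero_right, norm_pow] at hz ⊢
    exact pow_le_one₀ (norm_nonneg _) hz
  obtain ⟨c, hc⟩ := hFp.normal
  obtain ⟨N', hN', hc⟩ := ((eventually_gt_atTop 0).and hc).exists
  refine ⟨N', c, ?_, hN', fun z hz => ?_, fun ζ hζ => ⟨ζ ^ M, ?_, ?_⟩⟩
  · obtain ⟨n, rfl⟩ := Nat.exists_eq_add_of_lt hN'
    have := hc 0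
    simp [hF, Finset.sum_range_succ', hp0] at this
    exact this.symm
  · rw [← hc z]
    have hz1 : ‖z‖ ≤ 1 := by simpa using hz
    refine hsub (mem_thickening_iff.2 ?_)
    rcases le_total ‖z‖ r with hzr | hzr
    · refine ⟨f z, Or.inl ⟨z, hz, rfl⟩, ?_⟩
      have b : ‖∑ k ∈ Finset.range d, z ^ (k * M + (j + 1)) • Q k z‖ ≤ B * r ^ (j + 1) := by
        calc _ ≤ ∑ k ∈ Finset.range d, ‖Q k z‖ * r ^ (j + 1) := norm_sum_le_of_le _ fun k _ => by
              rw [norm_smul, norm_pow, mul_comm, pow_add]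
              refine mul_le_mul_of_nonneg_left ?_ (norm_nonneg _)
              exact (mul_le_of_le_one_left (by positivity)
                (pow_le_one₀ (norm_nonneg _) hz1)).trans (pow_le_pow_left₀ (norm_nonneg _) hzr _)
          _ ≤ _ := by
              rw [← Finset.sum_mul]
              exact mul_le_mul_of_nonneg_right ((le_abs_self _).trans (hB z hz)) (by positivity)
      have e : F z - f z = (p z - f z) + ∑ k ∈ Finset.range d, z ^ (k * M + (j + 1)) • Q k z := by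
        simp only [hF]; abel
      rw [dist_eq_norm, e]
      linarith [norm_add_le (p z - f z) (∑ k ∈ Finset.range d, z ^ (k * M + (j + 1)) • Q k z),
        hpf z hz]
    · have h12 : 1 / 2 ≤ ‖z‖ := (le_max_left _ _).trans hzr
      have h13 : 1 - δ1 / 2 ≤ ‖z‖ := (le_max_right _ _).trans hzr
      have hzn : 0 < ‖z‖ := by linarith
      have hz0 : z ≠ 0 := norm_pos_iff.1 hzn
      set ζ : ℂ := (‖z‖ : ℂ)⁻¹ * z with hζd
      have hζn : ‖ζ‖ = 1 := by
        rw [hζd, norm_mul, norm_inv, Complex.norm_real, norm_norm, inv_mul_cancel₀ hzn.ne']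
      have hζ : ζ ∈ sphere (0 : ℂ) 1 := by simpa using hζn
      have hdist : dist z ζ < δ1 := by
        have e : z - ζ = ((‖z‖ - 1 : ℝ) : ℂ) * ζ := by
          have : (‖z‖ : ℂ) ≠ 0 := by exact_mod_cast hzn.ne'
          rw [hζd]; push_cast; field_simp
        rw [dist_eq_norm, e, norm_mul, hζn, mul_one, Complex.norm_real, Real.norm_eq_abs,
          abs_of_nonpos (by linarith)]
        linarith
      have h3 := huc (z, z ^ M) ⟨⟨hz, by simpa using h12⟩, hpow z hz⟩ (ζ, z ^ M)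
        ⟨⟨sphere_subset_closedBall hζ, by simp [hζn]; norm_num⟩, hpow z hz⟩
        (by simpa [Prod.dist_eq, hδ1] using hdist)
      refine ⟨g ζ (z ^ M), Or.inr ⟨(ζ, z ^ M), ⟨hζ, hpow z hz⟩, rfl⟩, ?_⟩
      have h4 := hFΦ z hz hz0
      have h5 := hΦg ζ hζ _ (hpow z hz)
      rw [← dist_eq_norm] at h4 h5
      linarith [dist_triangle4 (F z) (Φ (z, z ^ M)) (Φ (ζ, z ^ M)) (g ζ (z ^ M))]
  · simp [RH.norm_of_mem hζ]
  · rw [← hc ζ]
    have h4 := hFΦ ζ (sphere_subset_closedBall hζ) (RH.ne_zero_of_mem hζ)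
    have h5 := hΦg ζ hζ _ (hpow ζ (sphere_subset_closedBall hζ))
    rw [← dist_eq_norm] at h4 h5 ⊢
    linarith [dist_triangle (F ζ) (Φ (ζ, ζ ^ M)) (g ζ (ζ ^ M))]

theorem rh' {E : Type} [NormedAddCommGroup E] [NormedSpace ℂ E] [FiniteDimensional ℂ E]
    (f : ℂ → E) (hf : AnalyticOnNhd ℂ f (closedBall 0 1)) (g : ℂ → ℂ → E)
    (hg : ContinuousOn (fun z : ℂ × ℂ => g z.1 z.2) (sphere 0 1 ×ˢ Set.univ))
    (hd : ∀ ζ ∈ sphere (0 : ℂ) 1, Differentiable ℂ (g ζ))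
    (h0 : ∀ ζ ∈ sphere (0 : ℂ) 1, g ζ 0 = f ζ)
    (Ω Ω' : Set E) (hΩ : IsOpen Ω) (hΩ' : IsOpen Ω') (hfΩ : ∀ z ∈ closedBall (0 : ℂ) 1, f z ∈ Ω)
    (hgΩ : ∀ ζ ∈ sphere (0 : ℂ) 1, ∀ w ∈ closedBall (0 : ℂ) 1, g ζ w ∈ Ω)
    (hgΩ' : ∀ ζ ∈ sphere (0 : ℂ) 1, ∀ w ∈ sphere (0 : ℂ) 1, g ζ w ∈ Ω') :
    ∃ (N : ℕ) (c : ℕ → E), c 0 = f 0 ∧ 0 < N ∧
      (∀ z ∈ closedBall (0 : ℂ) 1, ∑ k ∈ Finset.range N, z ^ k • c k ∈ Ω) ∧
      ∀ ζ ∈ sphere (0 : ℂ) 1, ∑ k ∈ Finset.range N, ζ ^ k • c k ∈ Ω' := by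
  have K2 : IsCompact ((fun z : ℂ × ℂ => g z.1 z.2) '' (sphere 0 1 ×ˢ sphere 0 1)) :=
    ((isCompact_sphere _ _).prod (isCompact_sphere _ _)).image_of_continuousOn
      (hg.mono (Set.prod_mono le_rfl (Set.subset_univ _)))
  obtain ⟨δ, hδ, hsub⟩ := K2.exists_thickening_subset_open hΩ' (by
    rintro _ ⟨z, hz, rfl⟩
    exact hgΩ' _ hz.1 _ hz.2)
  obtain ⟨N, c, h1, h2, h3, h4⟩ := rh f hf g hg hd h0 Ω hΩ hfΩ hgΩ δ hδ
  refine ⟨N, c, h1, h2, h3, fun ζ hζ => ?_⟩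
  obtain ⟨w, hw, h5⟩ := h4 ζ hζ
  exact hsub (mem_thickening_iff.2 ⟨g ζ w, ⟨(ζ, w), ⟨hζ, hw⟩, rfl⟩, by rwa [dist_eq_norm]⟩)

end Pool.Agent.Lib.MP_879098_ag
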