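import Pool.Agent.Lib.MP_879098_ag.CloseA
import Pool.Agent.Lib.MP_879098_ag.RH
import Pool.Agent.Lib.MP_879098_ag.CloseB

/-! Closing a holomorphic disc to a rational curve along two given rational curves. -/

namespace Pool.Agent.Lib.MP_879098_ag

open Filter Topology Polynomial Metric Clo

namespace Clo

theorem smo_margin {a b : ℕ} {Ω : Set (VV a × VV b)} (hΩ : IsCone Ω)
    {P P' : Fin (a + 1) → ℂ[X]} {d d' : ℕ} {Q Q' : Fin (b + 1) → ℂ[X]} {e e' : ℕ}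
    (h : IsRat Ω P d Q e) (h' : IsRat Ω P' d' Q' e') (hP : pev P 0 = pev P' 0)
    (hQ : pev Q 0 = pev Q' 0) :
    ∃ δ₁ : ℝ, 0 < δ₁ ∧ ∀ (δ ρ : ℝ) (ε : ℂ) (W : Fin (a + 1) → ℂ[X]) (V : Fin (b + 1) → ℂ[X]),
      δ ≤ δ₁ → 0 < ρ → ε ≠ 0 → ‖ε‖ ≤ ρ ^ 2 → Sml δ ρ P P' → Sml δ ρ Q Q' → Smo P P' d d' ε W →
      Smo Q Q' e e' ε V → IsRat Ω W (d + d') V (e + e') ∧
        ∀ w u v, Near δ₁ (pev W w) u → Near δ₁ (pev V w) v → (u, v) ∈ Ω := by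
  obtain ⟨δ₂, p₂, m₂, -⟩ := h.margin hΩ
  obtain ⟨δ₃, p₃, m₃, t₃⟩ := h'.margin hΩ
  set δ₁ := min (min δ₂ δ₃) 1 / 3 with hδ₁
  have p₁ : 0 < δ₁ := by positivity
  have l₁ : 3 * δ₁ ≤ 1 := by linarith [min_le_right (min δ₂ δ₃) 1]
  have l₂ : 3 * δ₁ ≤ δ₂ := by linarith [min_le_left (min δ₂ δ₃) 1, min_le_left δ₂ δ₃]
  have l₃ : 3 * δ₁ ≤ δ₃ := by linarith [min_le_left (min δ₂ δ₃) 1, min_le_right δ₂ δ₃]
  refine ⟨δ₁, p₁, fun δ ρ ε W V hδ hρ h0 hε sP sQ hW hV => ?_⟩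
  have key : ∀ w, pev W w ≠ 0 ∧ pev V w ≠ 0 ∧
      ∀ u v, Near δ₁ (pev W w) u → Near δ₁ (pev V w) v → (u, v) ∈ Ω := by
    intro w
    by_cases hw : w = 0
    · rw [hw, hW.zero, hV.zero]
      have h1 := hΩ.ne _ _ h'.top
      refine ⟨smul_ne_zero (pow_ne_zero _ h0) h1.1, smul_ne_zero (pow_ne_zero _ h0) h1.2,
        fun u v hu hv => t₃ u v ?_ ?_⟩
      · simpa [smul_smul, h0] using
          (hu.smul_left (inv_ne_zero (pow_ne_zero d' h0))).mono (by linarith)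
      · simpa [smul_smul, h0] using
          (hv.smul_left (inv_ne_zero (pow_ne_zero e' h0))).mono (by linarith)
    by_cases h1 : ‖w‖ ≤ ρ
    · have h2 := hW.nearB sP hP hw h1
      have h3 := hV.nearB sQ hQ hw h1
      exact ⟨h2.ne' (by linarith), h3.ne' (by linarith), fun u v hu hv => m₃ _ u v
        ((trans' h2 hu (by linarith)).mono (by linarith))
        ((trans' h3 hv (by linarith)).mono (by linarith))⟩
    · have h4 : ‖ε / w‖ ≤ ρ := by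
        rw [norm_div, div_le_iff₀ (norm_pos_iff.2 hw)]
        nlinarith [not_le.1 h1]
      have h2 := hW.nearA sP hw h4
      have h3 := hV.nearA sQ hw h4
      exact ⟨h2.ne' (by linarith), h3.ne' (by linarith), fun u v hu hv => m₂ _ u v
        ((trans' h2 hu (by linarith)).mono (by linarith))
        ((trans' h3 hv (by linarith)).mono (by linarith))⟩
  refine ⟨⟨hW.deg, hV.deg, fun w => (key w).2.2 _ _ (near_refl p₁ (key w).1)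
    (near_refl p₁ (key w).2.1), ?_⟩, fun w => (key w).2.2⟩
  rw [hW.top, hV.top]
  exact h.top

theorem num {δ η : ℝ} {n N : ℕ} (hn : n ≤ N) (h0 : 0 < η) (h1 : η ≤ 1)
    (h : δ = η / (20 * ((N + 1) * (N + 2)))) :
    δ ≤ 1 / 8 ∧ δ ≤ η ∧ 2 * ((n + 1) * (10 * δ)) ≤ 1 ∧ 2 * ((n + 1) * (n + 2)) * (10 * δ) ≤ η := by
  have h2 : (n : ℝ) ≤ N := by exact_mod_cast hn
  have h3 : (0 : ℝ) ≤ n := n.cast_nonneg
  have h4 : 20 * (((N : ℝ) + 1) * (N + 2)) * δ = η := by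
    rw [h]
    field_simp
  have h5 : 0 < δ := by
    rw [h]
    positivity
  have h6 : ((n : ℝ) + 1) * (n + 2) * δ ≤ (N + 1) * (N + 2) * δ := by gcongr
  have h7 : 0 ≤ n * δ := by positivity
  have h8 : 0 ≤ n * n * δ := by positivity
  refine ⟨?_, ?_, ?_, ?_⟩ <;> nlinarith

end Clo

theorem close {a b : ℕ} {Ω : Set (VV a × VV b)} (hΩ : IsCone Ω)
    {P P' : Fin (a + 1) → ℂ[X]} {d d' : ℕ} {Q Q' : Fin (b + 1) → ℂ[X]} {e e' : ℕ}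
    (h : IsRat Ω P d Q e) (h' : IsRat Ω P' d' Q' e') (hP : pev P 0 = pev P' 0)
    (hQ : pev Q 0 = pev Q' 0) (hd : 1 ≤ d + d') (he : 1 ≤ e + e') :
    ∃ δ : ℝ, 0 < δ ∧ ∃ R₀ : ℝ, ∀ R : ℝ, R₀ ≤ R → ∀ (f : ℂ → VV a) (g : ℂ → VV b) (α β : ℂ → ℂ),
      AnalyticOnNhd ℂ f (closedBall 0 1) → AnalyticOnNhd ℂ g (closedBall 0 1) →
      ContinuousOn α (sphere 0 1) → ContinuousOn β (sphere 0 1) →
      (∀ z ∈ closedBall (0 : ℂ) 1, (f z, g z) ∈ Ω) →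
      (∀ ζ ∈ sphere (0 : ℂ) 1, (2 * R < ‖Complex.exp (α ζ)‖ ∨ 2 * R < ‖Complex.exp (β ζ)‖) ∧
        (R < ‖Complex.exp (α ζ)‖ → Near δ (pev P (Complex.exp (-β ζ))) (f ζ) ∧
          Near δ (pev Q (Complex.exp (-β ζ))) (g ζ)) ∧
        (R < ‖Complex.exp (β ζ)‖ → Near δ (pev P' (Complex.exp (-α ζ))) (f ζ) ∧
          Near δ (pev Q' (Complex.exp (-α ζ))) (g ζ))) →
      ∃ (F : Fin (a + 1) → ℂ[X]) (D : ℕ) (G : Fin (b + 1) → ℂ[X]) (E : ℕ),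
        IsRat Ω F D G E ∧ 1 ≤ D ∧ 1 ≤ E ∧ toP (pev F 0) = toP (f 0) ∧ toP (pev G 0) = toP (g 0) ∧
        toP (ptop F D) = toP (ptop P' d') ∧ toP (ptop G E) = toP (ptop Q' e') := by
  have sml : ∀ δ : ℝ, 0 < δ → ∃ ρ : ℝ, 0 < ρ ∧ Sml δ ρ P P' ∧ Sml δ ρ Q Q' := fun δ hδ => by
    obtain ⟨r, hr, s⟩ := exists_sml h.degP h'.degP (fun w => (hΩ.ne _ _ (h.mem w)).1)
      (fun w => (hΩ.ne _ _ (h'.mem w)).1) (hΩ.ne _ _ h.top).1 (hΩ.ne _ _ h'.top).1 hδ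
    obtain ⟨r', hr', s'⟩ := exists_sml h.degQ h'.degQ (fun w => (hΩ.ne _ _ (h.mem w)).2)
      (fun w => (hΩ.ne _ _ (h'.mem w)).2) (hΩ.ne _ _ h.top).2 (hΩ.ne _ _ h'.top).2 hδ
    exact ⟨min r r', lt_min hr hr', s.mono (min_le_left _ _), s'.mono (min_le_right _ _)⟩
  obtain ⟨δ₀, p₀, m₀⟩ := smo_margin hΩ h' h hP.symm hQ.symm
  obtain ⟨ρ₀, r₀, sP₀, sQ₀⟩ := sml δ₀ p₀
  have e₀ : ((ρ₀ ^ 2 : ℝ) : ℂ) ≠ 0 := Complex.ofReal_ne_zero.2 (pow_pos r₀ 2).ne'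
  obtain ⟨W₀, hW₀⟩ := exists_smo h'.degP h.degP hP.symm (ρ₀ ^ 2 : ℝ)
  obtain ⟨V₀, hV₀⟩ := exists_smo h'.degQ h.degQ hQ.symm (ρ₀ ^ 2 : ℝ)
  obtain ⟨rat₀, -⟩ := m₀ δ₀ ρ₀ _ W₀ V₀ le_rfl r₀ e₀
    (by rw [Complex.norm_real, Real.norm_of_nonneg (sq_nonneg _)]) sP₀.swap sQ₀.swap hW₀ hV₀
  obtain ⟨δ₂, p₂, cl⟩ := close_two hΩ rat₀ (by omega) (by omega)
  obtain ⟨δ₁, p₁, m₁⟩ := smo_margin hΩ h h' hP hQ
  set η := min (min δ₁ (δ₂ / 3)) 1 with hη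
  have pη : 0 < η := by positivity
  have l₁ : η ≤ δ₁ := (min_le_left _ _).trans (min_le_left _ _)
  have l₂ : η ≤ δ₂ / 3 := (min_le_left _ _).trans (min_le_right _ _)
  have l₃ : η ≤ 1 := min_le_right _ _
  set δ := η / (20 * ((((a + b : ℕ) : ℝ) + 1) * ((a + b : ℕ) + 2))) with hδ
  have pδ : 0 < δ := by positivity
  obtain ⟨n₁, n₂, a₃, a₄⟩ := num (Nat.le_add_right a b) pη l₃ hδ
  obtain ⟨-, -, b₃, b₄⟩ := num (Nat.le_add_left b a) pη l₃ hδ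
  obtain ⟨ρ, r, sP, sQ⟩ := sml δ pδ
  refine ⟨δ, pδ, ρ⁻¹, fun R hR f g α β hf hg hα hβ hm H => ?_⟩
  obtain ⟨A, hA⟩ := (isCompact_sphere (0 : ℂ) 1).exists_bound_of_continuousOn hα.cexp
  obtain ⟨B, hB⟩ := (isCompact_sphere (0 : ℂ) 1).exists_bound_of_continuousOn hβ.cexp
  set ε := min (ρ ^ 2) (ρ / (|A| + |B| + 1)) with hε
  have pε : 0 < ε := by positivity
  have e₁ : ε * (|A| + |B| + 1) ≤ ρ := (le_div_iff₀ (by positivity)).1 (min_le_right _ _)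
  obtain ⟨c, hc, Hc⟩ := exists_c hα hβ r hR pε (fun ζ hζ =>
    ⟨le_trans (mul_le_mul_of_nonneg_left (by linarith [hA ζ hζ, le_abs_self A, abs_nonneg B])
      pε.le) e₁,
    le_trans (mul_le_mul_of_nonneg_left (by linarith [hB ζ hζ, le_abs_self B, abs_nonneg A])
      pε.le) e₁⟩) fun ζ hζ => (H ζ hζ).1
  obtain ⟨W, hW⟩ := exists_smo h.degP h'.degP hP ε
  obtain ⟨V, hV⟩ := exists_smo h.degQ h'.degQ hQ ε
  obtain ⟨rat, mar⟩ := m₁ δ ρ ε W V (n₂.trans l₁) r (Complex.ofReal_ne_zero.2 pε.ne')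
    (by rw [Complex.norm_real, Real.norm_of_nonneg pε.le]; exact min_le_left _ _) sP sQ hW hV
  have nW : ∀ w, pev W w ≠ 0 := fun w => (hΩ.ne _ _ (rat.mem w)).1
  have nV : ∀ w, pev V w ≠ 0 := fun w => (hΩ.ne _ _ (rat.mem w)).2
  have tW : ∀ ζ ∈ sphere (0 : ℂ) 1, ∀ w, Near η (pev W w) (tw (pev W (c ζ)) (f ζ) (pev W w)) :=
    fun ζ hζ w => (near_tw (hW.near_c sP hP n₁ (Hc ζ hζ).1 (Hc ζ hζ).2
      (fun h => ((H ζ hζ).2.1 h).1) fun h => ((H ζ hζ).2.2 h).1) a₃ (nW w)).mono a₄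
  have tV : ∀ ζ ∈ sphere (0 : ℂ) 1, ∀ w, Near η (pev V w) (tw (pev V (c ζ)) (g ζ) (pev V w)) :=
    fun ζ hζ w => (near_tw (hV.near_c sQ hQ n₁ (Hc ζ hζ).1 (Hc ζ hζ).2
      (fun h => ((H ζ hζ).2.1 h).2) fun h => ((H ζ hζ).2.2 h).2) b₃ (nV w)).mono b₄
  obtain ⟨R₁, hR₁⟩ := pev_near_top W _ rat.degP (hΩ.ne _ _ rat.top).1 η pη
  obtain ⟨R₂, hR₂⟩ := pev_near_top V _ rat.degQ (hΩ.ne _ _ rat.top).2 η pη
  obtain ⟨K, hK⟩ := (isCompact_sphere (0 : ℂ) 1).exists_bound_of_continuousOn hc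
  set ρ₁ : ℝ := |R₁| + |R₂| + |K| with hρ₁
  have big : ∀ ζ ∈ sphere (0 : ℂ) 1, ∀ w ∈ sphere (0 : ℂ) 1, |R₁| + |R₂| ≤ ‖c ζ + ρ₁ * w‖ := by
    intro ζ hζ w hw
    have h1 := norm_le_norm_sub_add (ρ₁ * w) (-c ζ)
    rw [norm_mul, mem_sphere_zero_iff_norm.1 hw, mul_one, Complex.norm_real,
      Real.norm_of_nonneg (by positivity), norm_neg, sub_neg_eq_add, add_comm _ (c ζ)] at h1
    linarith [hK ζ hζ, le_abs_self K]
  have c₁ : ContinuousOn (fun z : ℂ × ℂ => c z.1) (sphere 0 1 ×ˢ Set.univ) :=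
    hc.comp continuousOn_fst fun z hz => hz.1
  have c₂ : ContinuousOn (fun z : ℂ × ℂ => c z.1 + ρ₁ * z.2) (sphere 0 1 ×ˢ Set.univ) :=
    c₁.add (continuousOn_const.mul continuousOn_snd)
  have d₁ : ∀ ζ, Differentiable ℂ fun w : ℂ => c ζ + ρ₁ * w := fun ζ => by fun_prop
  obtain ⟨N, cc, h1, h2, h3, h4⟩ := rh' (fun z => (f z, g z)) (hf.prod hg)
    (fun ζ w => (tw (pev W (c ζ)) (f ζ) (pev W (c ζ + ρ₁ * w)),
      tw (pev V (c ζ)) (g ζ) (pev V (c ζ + ρ₁ * w))))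
    ((continuousOn_tw ((continuous_pev W).comp_continuousOn c₁)
      (hf.continuousOn.comp continuousOn_fst fun z hz => sphere_subset_closedBall hz.1)
      ((continuous_pev W).comp_continuousOn c₂) fun _ _ => nW _).prodMk
      (continuousOn_tw ((continuous_pev V).comp_continuousOn c₁)
      (hg.continuousOn.comp continuousOn_fst fun z hz => sphere_subset_closedBall hz.1)
      ((continuous_pev V).comp_continuousOn c₂) fun _ _ => nV _))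
    (fun ζ _ => (differentiable_tw _ _ ((differentiable_pev W).comp (d₁ ζ))).prodMk
      (differentiable_tw _ _ ((differentiable_pev V).comp (d₁ ζ))))
    (fun ζ _ => by rw [mul_zero, add_zero, tw_self (nW _), tw_self (nV _)])
    Ω ({u | Near δ₂ (pev W₀ 0) u} ×ˢ {v | Near δ₂ (pev V₀ 0) v}) hΩ.isOpen
    ((isOpen_near _ _).prod (isOpen_near _ _)) hm
    (fun ζ hζ w _ => mar _ _ _ ((tW ζ hζ _).mono l₁) ((tV ζ hζ _).mono l₁))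
    (fun ζ hζ w hw => by
      have h5 := big ζ hζ w hw
      have h6 := trans' (hR₁ _ (by linarith [le_abs_self R₁, abs_nonneg R₂])) (tW ζ hζ (c ζ + ρ₁ * w)) l₃
      have h7 := trans' (hR₂ _ (by linarith [le_abs_self R₂, abs_nonneg R₁])) (tV ζ hζ (c ζ + ρ₁ * w)) l₃
      rw [hW.top] at h6
      rw [hV.top] at h7
      rw [hW₀.zero, hV₀.zero]
      exact ⟨(h6.mono (by linarith)).smul_left (pow_ne_zero _ e₀),
        (h7.mono (by linarith)).smul_left (pow_ne_zero _ e₀)⟩)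
  obtain ⟨F₀, G₀, h5⟩ := exists_tuple N cc
  obtain ⟨F, D, G, E, k1, k2, k3, k4, k5, k6, k7⟩ := cl F₀ G₀
    (fun z hz => (h5 z).symm ▸ h3 z hz) fun ζ hζ => by
      have := h4 ζ hζ
      rw [← h5] at this
      exact this
  have h6 := h5 0
  rw [Finset.sum_eq_single_of_mem 0 (Finset.mem_range.2 h2) fun k _ hk => by simp [hk], pow_zero,
    one_smul, h1, Prod.mk.injEq] at h6
  exact ⟨F, D, G, E, k1, k2, k3, h6.1 ▸ k4, h6.2 ▸ k5, hW₀.top ▸ k6, hV₀.top ▸ k7⟩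

end Pool.Agent.Lib.MP_879098_ag
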