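import Pool.Agent.Lib.MP_879098_ag.Tools

/-! Smoothing of two rational curves through a common point, and a linear correction. -/

namespace Pool.Agent.Lib.MP_879098_ag.Clo

open Filter Topology Polynomial Metric

variable {n : ℕ}

theorem trans' {δ ε : ℝ} {u v w : VV n} (h : Near δ u v) (h' : Near ε v w) (hδ : δ ≤ 1) :
    Near (δ + 2 * ε) u w :=
  (h.trans h').mono (by nlinarith [h'.pos])

/-- `W` is the smoothing with parameter `ε` of the curves `P` and `P'`. -/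
structure Smo (P P' : Fin (n + 1) → ℂ[X]) (d d' : ℕ) (ε : ℂ) (W : Fin (n + 1) → ℂ[X]) : Prop where
  deg : ∀ i, (W i).natDegree ≤ d + d'
  val : ∀ w, w ≠ 0 → pev W w = w ^ d' • (pev P w + (pev P' (ε / w) - pev P' 0))
  zero : pev W 0 = ε ^ d' • ptop P' d'
  top : ptop W (d + d') = ptop P d

theorem exists_smo {P P' : Fin (n + 1) → ℂ[X]} {d d' : ℕ} (hP : ∀ i, (P i).natDegree ≤ d)
    (hP' : ∀ i, (P' i).natDegree ≤ d') (h0 : pev P 0 = pev P' 0) (ε : ℂ) :
    ∃ W, Smo P P' d d' ε W := by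
  have h1 : ∀ i, (∑ k ∈ Finset.range d',
      C ((P' i).coeff (k + 1) * ε ^ (k + 1)) * X ^ (d' - (k + 1))).degree < (d' : WithBot ℕ) :=
      fun i => by
    refine (degree_sum_le _ _).trans_lt ((Finset.sup_lt_iff (WithBot.bot_lt_coe _)).2 fun k hk => ?_)
    refine (degree_C_mul_X_pow_le _ _).trans_lt ?_
    have := Finset.mem_range.1 hk
    exact_mod_cast (by omega : d' - (k + 1) < d')
  refine ⟨fun i => P i * X ^ d' + ∑ k ∈ Finset.range d',
    C ((P' i).coeff (k + 1) * ε ^ (k + 1)) * X ^ (d' - (k + 1)), fun i => ?_, fun w hw => ?_, ?_, ?_⟩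
  · refine natDegree_add_le_of_degree_le (natDegree_mul_le.trans ?_)
      (natDegree_le_iff_degree_le.2 ((h1 i).le.trans ?_))
    · rw [natDegree_X_pow]
      exact Nat.add_le_add_right (hP i) _
    · exact_mod_cast Nat.le_add_left _ _
  · ext i
    simp only [pev, Pi.smul_apply, Pi.add_apply, Pi.sub_apply, smul_eq_mul, eval_add, eval_mul,
      eval_pow, eval_X, eval_finsetSum, eval_C]
    rw [eval_eq_sum_range' (Nat.lt_succ_of_le (hP' i)) (ε / w), Finset.sum_range_succ',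
      ← coeff_zero_eq_eval_zero, pow_zero, mul_one, add_sub_cancel_right, mul_add, Finset.mul_sum,
      mul_comm]
    congr 1
    refine Finset.sum_congr rfl fun k hk => ?_
    have h2 : w ^ d' = w ^ (d' - (k + 1)) * w ^ (k + 1) := by
      rw [← pow_add, Nat.sub_add_cancel (Finset.mem_range.1 hk)]
    rw [h2, div_pow]
    field_simp
  · ext i
    simp only [pev, ptop, Pi.smul_apply, smul_eq_mul, eval_add, eval_mul, eval_pow, eval_X,
      eval_finsetSum, eval_C]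
    rcases d' with _ | d'
    · have := congrFun h0 i
      simp only [pev] at this
      simp [this, coeff_zero_eq_eval_zero]
    · rw [Finset.sum_range_succ, Finset.sum_eq_zero fun k hk => ?_]
      · simp [mul_comm]
      · have := Finset.mem_range.1 hk
        rw [zero_pow (by omega), mul_zero]
  · ext i
    simp only [ptop, coeff_add, coeff_mul_X_pow]
    rw [coeff_eq_zero_of_degree_lt ((h1 i).trans_le (by exact_mod_cast Nat.le_add_left _ _)),
      add_zero]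

theorem differentiable_pev (P : Fin (n + 1) → ℂ[X]) : Differentiable ℂ (pev P) :=
  differentiable_pi.2 fun i => (P i).differentiable

/-- Both curves vary little on the disc of radius `ρ`. -/
def Sml (δ ρ : ℝ) (P P' : Fin (n + 1) → ℂ[X]) : Prop :=
  ∀ v : ℂ, ‖v‖ ≤ ρ → ∀ w, ‖pev P v - pev P 0‖ < δ * ‖pev P w‖ ∧ ‖pev P v - pev P 0‖ < δ * ‖pev P' w‖ ∧
    ‖pev P' v - pev P' 0‖ < δ * ‖pev P w‖ ∧ ‖pev P' v - pev P' 0‖ < δ * ‖pev P' w‖

theorem Sml.mono {δ ρ ρ' : ℝ} {P P' : Fin (n + 1) → ℂ[X]} (h : Sml δ ρ P P') (h' : ρ' ≤ ρ) :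
    Sml δ ρ' P P' := fun v hv => h v (hv.trans h')

theorem Sml.swap {δ ρ : ℝ} {P P' : Fin (n + 1) → ℂ[X]} (h : Sml δ ρ P P') : Sml δ ρ P' P :=
  fun v hv w => ⟨(h v hv w).2.2.2, (h v hv w).2.2.1, (h v hv w).2.1, (h v hv w).1⟩

theorem exists_sml {P P' : Fin (n + 1) → ℂ[X]} {d d' : ℕ} (hP : ∀ i, (P i).natDegree ≤ d)
    (hP' : ∀ i, (P' i).natDegree ≤ d') (h : ∀ w, pev P w ≠ 0) (h' : ∀ w, pev P' w ≠ 0)
    (ht : ptop P d ≠ 0) (ht' : ptop P' d' ≠ 0) {δ : ℝ} (hδ : 0 < δ) :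
    ∃ ρ : ℝ, 0 < ρ ∧ Sml δ ρ P P' := by
  obtain ⟨c, hc, H⟩ := pev_lower P d hP h ht
  obtain ⟨c', hc', H'⟩ := pev_lower P' d' hP' h' ht'
  have h1 : ∀ w, δ * min c c' ≤ δ * ‖pev P w‖ := fun w => mul_le_mul_of_nonneg_left
    ((min_le_left _ _).trans ((le_mul_of_one_le_right hc.le
      (one_le_pow₀ (le_add_of_nonneg_right (norm_nonneg w)))).trans (H w))) hδ.le
  have h2 : ∀ w, δ * min c c' ≤ δ * ‖pev P' w‖ := fun w => mul_le_mul_of_nonneg_left
    ((min_le_right _ _).trans ((le_mul_of_one_le_right hc'.le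
      (one_le_pow₀ (le_add_of_nonneg_right (norm_nonneg w)))).trans (H' w))) hδ.le
  have h3 : 0 < δ * min c c' := mul_pos hδ (lt_min hc hc')
  obtain ⟨r, hr, K⟩ := Metric.continuous_iff.1 (continuous_pev P) 0 _ h3
  obtain ⟨r', hr', K'⟩ := Metric.continuous_iff.1 (continuous_pev P') 0 _ h3
  refine ⟨min r r' / 2, half_pos (lt_min hr hr'), fun v hv w => ?_⟩
  have h4 := hv.trans_lt (half_lt_self (lt_min hr hr'))
  have h5 := K v (by rw [dist_zero_right]; exact h4.trans_le (min_le_left _ _))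
  have h6 := K' v (by rw [dist_zero_right]; exact h4.trans_le (min_le_right _ _))
  rw [dist_eq_norm] at h5 h6
  exact ⟨h5.trans_le (h1 w), h5.trans_le (h2 w), h6.trans_le (h1 w), h6.trans_le (h2 w)⟩

section

variable {P P' W : Fin (n + 1) → ℂ[X]} {d d' : ℕ} {ε w : ℂ} {δ ρ : ℝ}

theorem Smo.nearA (h : Smo P P' d d' ε W) (s : Sml δ ρ P P') (hw : w ≠ 0) (h1 : ‖ε / w‖ ≤ ρ) :
    Near δ (pev P w) (pev W w) := by
  rw [h.val w hw]
  refine (near_of_norm ?_).smul_right (pow_ne_zero _ hw)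
  rw [add_sub_cancel_left]
  exact (s _ h1 w).2.2.1

theorem Smo.nearB (h : Smo P P' d d' ε W) (s : Sml δ ρ P P') (h0 : pev P 0 = pev P' 0)
    (hw : w ≠ 0) (h1 : ‖w‖ ≤ ρ) : Near δ (pev P' (ε / w)) (pev W w) := by
  rw [h.val w hw]
  refine (near_of_norm ?_).smul_right (pow_ne_zero _ hw)
  rw [← h0, show pev P w + (pev P' (ε / w) - pev P 0) - pev P' (ε / w) = pev P w - pev P 0 by abel]
  exact (s _ h1 _).2.1

theorem Smo.near_c (h : Smo P P' d d' ε W) (s : Sml δ ρ P P') (h0 : pev P 0 = pev P' 0)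
    (hδ : δ ≤ 1 / 8) {c x y : ℂ} {v : VV n} {A B : Prop} (hc : c ≠ 0)
    (H : (c = x ∧ ‖ε / c‖ ≤ ρ ∧ A) ∨ (ε / c = y ∧ ‖c‖ ≤ ρ ∧ B) ∨
      (‖c‖ ≤ ρ ∧ ‖ε / c‖ ≤ ρ ∧ ‖x‖ ≤ ρ ∧ A))
    (hA : A → Near δ (pev P x) v) (hB : B → Near δ (pev P' y) v) :
    Near (10 * δ) (pev W c) v := by
  rcases H with ⟨rfl, h1, h2⟩ | ⟨rfl, h1, h2⟩ | ⟨h1, h2, h3, h4⟩
  · have h5 := (hA h2).pos
    exact (trans' ((h.nearA s hc h1).symm (by linarith)) (hA h2) (by linarith)).mono (by linarith)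
  · have h5 := (hB h2).pos
    exact (trans' ((h.nearB s h0 hc h1).symm (by linarith)) (hB h2) (by linarith)).mono
      (by linarith)
  · have h5 := (h.nearA s hc h2).symm (by linarith)
    have h6 := (near_of_norm (s c h1 0).1).symm (by linarith)
    have h7 := near_of_norm (s x h3 0).1
    exact (trans' (trans' (trans' h5 h6 (by linarith)) h7 (by linarith)) (hA h4)
      (by linarith)).mono (by linarith)

end

/-- A linear form with value one at `u`. -/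
noncomputable def ell (u y : VV n) : ℂ :=
  (∑ i, (starRingEnd ℂ) (u i) * y i) / ((∑ i, ‖u i‖ ^ 2 : ℝ) : ℂ)

theorem sq_le_sum (u : VV n) : ‖u‖ ^ 2 ≤ ∑ i, ‖u i‖ ^ 2 := by
  have h := Real.sqrt_nonneg (∑ i, ‖u i‖ ^ 2)
  rw [← Real.le_sqrt (norm_nonneg _) (by positivity), pi_norm_le_iff_of_nonneg h]
  intro i
  exact Real.le_sqrt_of_sq_le
    (Finset.single_le_sum (f := fun i => ‖u i‖ ^ 2) (fun _ _ => by positivity) (Finset.mem_univ i))

theorem sum_pos {u : VV n} (hu : u ≠ 0) : 0 < ∑ i, ‖u i‖ ^ 2 :=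
  (pow_pos (norm_pos_iff.2 hu) 2).trans_le (sq_le_sum u)

theorem ell_self {u : VV n} (hu : u ≠ 0) : ell u u = 1 := by
  rw [ell, div_eq_one_iff_eq (Complex.ofReal_ne_zero.2 (sum_pos hu).ne')]
  push_cast
  exact Finset.sum_congr rfl fun i _ => Complex.conj_mul' _

theorem ell_sub (u y : VV n) (μ : ℂ) (hu : u ≠ 0) : ell u (y - μ • u) = ell u y - μ := by
  conv_rhs => rw [← mul_one μ, ← ell_self hu]
  simp only [ell, Pi.sub_apply, Pi.smul_apply, smul_eq_mul, mul_sub, Finset.sum_sub_distrib,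
    sub_div, ← mul_div_assoc, Finset.mul_sum, mul_left_comm]

theorem norm_ell {u : VV n} (hu : u ≠ 0) (y : VV n) : ‖ell u y‖ * ‖u‖ ≤ (n + 1) * ‖y‖ := by
  have h1 : ‖∑ i, (starRingEnd ℂ) (u i) * y i‖ ≤ (n + 1) * (‖u‖ * ‖y‖) := by
    refine (norm_sum_le _ _).trans ((Finset.sum_le_card_nsmul _ _ (‖u‖ * ‖y‖) fun i _ => ?_).trans ?_)
    · rw [norm_mul, Complex.norm_conj]
      exact mul_le_mul (norm_le_pi_norm u i) (norm_le_pi_norm y i) (norm_nonneg _) (norm_nonneg _)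
    · simp
  rw [ell, norm_div, Complex.norm_real, Real.norm_of_nonneg (sum_pos hu).le, div_mul_eq_mul_div,
    div_le_iff₀ (sum_pos hu)]
  calc _ ≤ (n + 1) * (‖u‖ * ‖y‖) * ‖u‖ := by gcongr
    _ = (n + 1) * ‖y‖ * ‖u‖ ^ 2 := by ring
    _ ≤ _ := by
      gcongr
      exact sq_le_sum u

/-- A linear map that sends `u` to `v` and is close to a scalar. -/
noncomputable def tw (u v y : VV n) : VV n := ell u v • y + ell u y • (v - ell u v • u)

theorem tw_self {u : VV n} (hu : u ≠ 0) (v : VV n) : tw u v u = v := by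
  rw [tw, ell_self hu, one_smul, add_sub_cancel]

theorem near_tw {δ : ℝ} {u v y : VV n} (h : Near δ u v) (hδ : 2 * ((n + 1) * δ) ≤ 1) (hy : y ≠ 0) :
    Near (2 * ((n + 1) * (n + 2)) * δ) y (tw u v y) := by
  have hu := h.ne
  have h0 := h.pos
  obtain ⟨μ, hμ, h⟩ := h
  rw [norm_smul] at h
  have hu' := norm_pos_iff.2 hu
  have hμ' := norm_pos_iff.2 hμ
  have hy' := norm_pos_iff.2 hy
  have h1 : ‖ell u v - μ‖ ≤ (n + 1) * δ * ‖μ‖ := by
    refine le_of_mul_le_mul_right ?_ hu'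
    rw [← ell_sub u v μ hu]
    refine (norm_ell hu _).trans ?_
    calc _ ≤ (n + 1) * (δ * (‖μ‖ * ‖u‖)) := by gcongr
      _ = _ := by ring
  have h2 : ‖μ‖ ≤ 2 * ‖ell u v‖ := by
    have := norm_le_norm_sub_add μ (ell u v)
    rw [norm_sub_rev] at this
    nlinarith
  have h3 : ‖v - ell u v • u‖ < (n + 2) * δ * ‖μ‖ * ‖u‖ := by
    rw [show v - ell u v • u = (v - μ • u) - (ell u v - μ) • u by rw [sub_smul]; abel]
    refine (norm_sub_le _ _).trans_lt ?_
    rw [norm_smul]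
    nlinarith [mul_le_mul_of_nonneg_right h1 hu'.le]
  refine ⟨ell u v, norm_pos_iff.1 (by linarith), ?_⟩
  rw [tw, add_sub_cancel_left, norm_smul, norm_smul]
  refine lt_of_mul_lt_mul_right ?_ hu'.le
  calc ‖ell u y‖ * ‖v - ell u v • u‖ * ‖u‖ = ‖ell u y‖ * ‖u‖ * ‖v - ell u v • u‖ := by ring
    _ ≤ (n + 1) * ‖y‖ * ‖v - ell u v • u‖ :=
        mul_le_mul_of_nonneg_right (norm_ell hu y) (norm_nonneg _)
    _ < (n + 1) * ‖y‖ * ((n + 2) * δ * ‖μ‖ * ‖u‖) := by gcongr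
    _ ≤ (n + 1) * ‖y‖ * ((n + 2) * δ * (2 * ‖ell u v‖) * ‖u‖) := by gcongr
    _ = _ := by ring

theorem continuousOn_ell {α : Type} [TopologicalSpace α] {s : Set α} {u y : α → VV n}
    (hu : ContinuousOn u s) (hy : ContinuousOn y s) (h0 : ∀ z ∈ s, u z ≠ 0) :
    ContinuousOn (fun z => ell (u z) (y z)) s := by
  have h1 := continuousOn_pi.1 hu
  have h2 := continuousOn_pi.1 hy
  refine ContinuousOn.div (continuousOn_finsetSum _ fun i _ =>
    (Complex.continuous_conj.comp_continuousOn (h1 i)).mul (h2 i))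
    (Complex.continuous_ofReal.comp_continuousOn (continuousOn_finsetSum _ fun i _ =>
      (h1 i).norm.pow 2)) fun z hz => Complex.ofReal_ne_zero.2 (sum_pos (h0 z hz)).ne'

theorem continuousOn_tw {α : Type} [TopologicalSpace α] {s : Set α} {u v y : α → VV n}
    (hu : ContinuousOn u s) (hv : ContinuousOn v s) (hy : ContinuousOn y s)
    (h0 : ∀ z ∈ s, u z ≠ 0) : ContinuousOn (fun z => tw (u z) (v z) (y z)) s :=
  ((continuousOn_ell hu hv h0).smul hy).add ((continuousOn_ell hu hy h0).smul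
    (hv.sub ((continuousOn_ell hu hv h0).smul hu)))

theorem differentiable_tw (u v : VV n) {y : ℂ → VV n} (hy : Differentiable ℂ y) :
    Differentiable ℂ fun w => tw u v (y w) := by
  have h1 := differentiable_pi.1 hy
  have h2 : Differentiable ℂ fun w => ell u (y w) :=
    (Differentiable.fun_sum fun i _ => (h1 i).const_mul _).div_const _
  exact (hy.const_smul (ell u v)).add (h2.smul_const _)

/-- The choice of the centre of the attached discs. -/
theorem exists_c {α β : ℂ → ℂ} {s : Set ℂ} (hα : ContinuousOn α s) (hβ : ContinuousOn β s)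
    {R ρ ε : ℝ} (hρ : 0 < ρ) (hR : ρ⁻¹ ≤ R) (hε : 0 < ε)
    (h1 : ∀ ζ ∈ s, ε * ‖Complex.exp (α ζ)‖ ≤ ρ ∧ ε * ‖Complex.exp (β ζ)‖ ≤ ρ)
    (h2 : ∀ ζ ∈ s, 2 * R < ‖Complex.exp (α ζ)‖ ∨ 2 * R < ‖Complex.exp (β ζ)‖) :
    ∃ c : ℂ → ℂ, ContinuousOn c s ∧ ∀ ζ ∈ s, c ζ ≠ 0 ∧
      ((c ζ = Complex.exp (-β ζ) ∧ ‖ε / c ζ‖ ≤ ρ ∧ R < ‖Complex.exp (α ζ)‖) ∨
        (ε / c ζ = Complex.exp (-α ζ) ∧ ‖c ζ‖ ≤ ρ ∧ R < ‖Complex.exp (β ζ)‖) ∨
        (‖c ζ‖ ≤ ρ ∧ ‖ε / c ζ‖ ≤ ρ ∧ ‖Complex.exp (-β ζ)‖ ≤ ρ ∧ R < ‖Complex.exp (α ζ)‖)) := by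
  have hR0 : 0 < R := (inv_pos.2 hρ).trans_le hR
  set χ : ℂ → ℝ := fun ζ => min 1 (max 0 (2 - ‖Complex.exp (α ζ)‖ / R)) with hχ
  have hχc : ContinuousOn χ s := continuousOn_const.inf (continuousOn_const.sup
    (continuousOn_const.sub (hα.cexp.norm.div_const R)))
  have hχc' : ContinuousOn (fun ζ => (χ ζ : ℂ)) s := Complex.continuous_ofReal.comp_continuousOn hχc
  have he : (ε : ℂ) = Complex.exp (Real.log ε : ℝ) := by
    rw [← Complex.ofReal_exp, Real.exp_log hε]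
  refine ⟨fun ζ => Complex.exp ((1 - χ ζ) * -β ζ + χ ζ * ((Real.log ε : ℝ) + α ζ)),
    (((continuousOn_const.sub hχc').mul hβ.neg).add (hχc'.mul (continuousOn_const.add hα))).cexp,
    fun ζ hζ => ⟨Complex.exp_ne_zero _, ?_⟩⟩
  beta_reduce
  obtain ⟨h3, h4⟩ := h1 ζ hζ
  have h5 := h2 ζ hζ
  have inv : ∀ z : ℂ, R < ‖Complex.exp z‖ → ‖Complex.exp (-z)‖ ≤ ρ := fun z hz => by
    rw [Complex.exp_neg, norm_inv]
    exact (inv_le_comm₀ (hR0.trans hz) hρ).2 (hR.trans hz.le)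
  by_cases c1 : 2 * R ≤ ‖Complex.exp (α ζ)‖
  · have h6 : χ ζ = 0 := by
      have : 2 - ‖Complex.exp (α ζ)‖ / R ≤ 0 := by rwa [sub_nonpos, le_div_iff₀ hR0]
      simp [hχ, this]
    refine Or.inl ⟨by simp [h6], ?_, by linarith⟩
    simpa [h6, Complex.exp_neg, abs_of_pos hε] using h4
  have h6 : 2 * R < ‖Complex.exp (β ζ)‖ := h5.resolve_left fun h => c1 h.le
  by_cases c2 : ‖Complex.exp (α ζ)‖ ≤ R
  · have h7 : χ ζ = 1 := by
      have : 1 ≤ 2 - ‖Complex.exp (α ζ)‖ / R := by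
        have := (div_le_one hR0).2 c2
        linarith
      simp [hχ, this]
    refine Or.inr (Or.inl ⟨?_, ?_, by linarith⟩)
    · rw [he, ← Complex.exp_sub, h7]
      congr 1
      push_cast
      ring
    · rw [h7, Complex.ofReal_one, sub_self, zero_mul, zero_add, one_mul, Complex.exp_add, ← he,
        norm_mul, Complex.norm_real, Real.norm_of_nonneg hε.le]
      exact h3
  · have h7 := inv _ (not_le.1 c2)
    have h8 := inv (β ζ) (by linarith)
    have h9 : 0 ≤ χ ζ := le_min zero_le_one (le_max_left _ _)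
    have h10 : χ ζ ≤ 1 := min_le_left _ _
    refine Or.inr (Or.inr ⟨?_, ?_, h8, not_le.1 c2⟩)
    all_goals
      rw [Complex.norm_exp, ← Real.le_log_iff_exp_le hρ] at h7 h8
      rw [Complex.norm_exp, ← Real.exp_log hε, ← Real.exp_add, ← Real.le_log_iff_exp_le hρ] at h3 h4
      rw [Complex.neg_re] at h7 h8
    · rw [Complex.norm_exp, ← Real.le_log_iff_exp_le hρ]
      simp only [Complex.add_re, Complex.mul_re, Complex.sub_re, Complex.one_re, Complex.ofReal_re,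
        Complex.neg_re, Complex.sub_im, Complex.one_im, Complex.ofReal_im]
      nlinarith
    · rw [he, ← Complex.exp_sub, Complex.norm_exp, ← Real.le_log_iff_exp_le hρ]
      simp only [Complex.add_re, Complex.mul_re, Complex.sub_re, Complex.one_re, Complex.ofReal_re,
        Complex.neg_re, Complex.sub_im, Complex.one_im, Complex.ofReal_im]
      nlinarith

end Pool.Agent.Lib.MP_879098_ag.Clo
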