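import Mathlib

/-! Projective varieties, chains of elliptic curves in neighbourhoods, and the Kobayashi
pseudodistance. -/

namespace Pool.Agent.Lib.MP_879098_ag

open Filter Topology

/-- Complex projective space of dimension `n`. -/
abbrev PP (n : ℕ) : Type := Projectivization ℂ (Fin (n + 1) → ℂ)

/-- `v` is a vector of homogeneous coordinates of the point `x`. -/
def Rep {n : ℕ} (v : Fin (n + 1) → ℂ) (x : PP n) : Prop :=
  ∃ h : v ≠ 0, Projectivization.mk ℂ v h = x

/-- The common zero set in projective space of a set of polynomials. -/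
def zeroSet {n : ℕ} (S : Set (MvPolynomial (Fin (n + 1)) ℂ)) : Set (PP n) :=
  {x | ∀ v, Rep v x → ∀ F ∈ S, MvPolynomial.eval v F = 0}

/-- A projective variety: a nonempty, irreducible, Zariski closed subset of projective space. -/
def IsProjVariety {n : ℕ} (X : Set (PP n)) : Prop :=
  (∃ S : Set (MvPolynomial (Fin (n + 1)) ℂ), (∀ F ∈ S, ∃ d, F.IsHomogeneous d) ∧ X = zeroSet S) ∧
    X.Nonempty ∧
    ∀ (F G : MvPolynomial (Fin (n + 1)) ℂ) (d e : ℕ), F.IsHomogeneous d → G.IsHomogeneous e →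
      X ⊆ zeroSet {F * G} → X ⊆ zeroSet {F} ∨ X ⊆ zeroSet {G}

/-- `j` restricts to a morphism from `X` to projective space: on a Zariski open neighbourhood
`H ≠ 0` of each point of `X` it is given by homogeneous polynomials of one degree without common
zero. -/
def IsMorphism {n a : ℕ} (X : Set (PP n)) (j : PP n → PP a) : Prop :=
  ∀ x ∈ X, ∃ (d e : ℕ) (p : Fin (a + 1) → MvPolynomial (Fin (n + 1)) ℂ)
    (H : MvPolynomial (Fin (n + 1)) ℂ), (∀ i, (p i).IsHomogeneous d) ∧ H.IsHomogeneous e ∧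
      x ∉ zeroSet {H} ∧ ∀ y ∈ X, ∀ v, Rep v y → MvPolynomial.eval v H ≠ 0 →
        Rep (fun i => MvPolynomial.eval v (p i)) (j y)

/-- The pairs of vectors of homogeneous coordinates of the points of `U`. -/
def hat {a b : ℕ} (U : Set (PP a × PP b)) : Set ((Fin (a + 1) → ℂ) × (Fin (b + 1) → ℂ)) :=
  {v | ∃ x ∈ U, Rep v.1 x.1 ∧ Rep v.2 x.2}

/-- The plane cubic `y^2 z = x^3 + A x z^2 + B z^3`. -/
def cubic (A B : ℂ) : Set (PP 2) :=
  {x | ∀ v, Rep v x → v 1 ^ 2 * v 2 = v 0 ^ 3 + A * v 0 * v 2 ^ 2 + B * v 2 ^ 3}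

/-- An algebraic curve of geometric genus one in a product of two projective spaces: the image of
a smooth Weierstrass cubic under a morphism that is injective outside a finite set. -/
def IsElliptic {a b : ℕ} (C : Set (PP a × PP b)) : Prop :=
  ∃ (A B : ℂ) (μ : PP 2 → PP a) (ν : PP 2 → PP b), 4 * A ^ 3 + 27 * B ^ 2 ≠ 0 ∧
    IsMorphism (cubic A B) μ ∧ IsMorphism (cubic A B) ν ∧
    (∃ T : Set (PP 2), T.Finite ∧ Set.InjOn (fun x => (μ x, ν x)) (cubic A B \ T)) ∧
    C = (fun x => (μ x, ν x)) '' cubic A B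

/-- In every Euclidean open neighbourhood `U` of `Y`, any two points of `Y` are joined by a chain
of elliptic curves contained in `U`. -/
def NaivelyConnected {a b : ℕ} (Y : Set (PP a × PP b)) : Prop :=
  ∀ U : Set (PP a × PP b), IsOpen (hat U) → Y ⊆ U → ∀ x ∈ Y, ∀ y ∈ Y,
    Relation.TransGen (fun p q => ∃ C, IsElliptic C ∧ C ⊆ U ∧ p ∈ C ∧ q ∈ C) x y

/-- The image of `X` under every injective morphism to a product of two projective spaces (in
particular under every embedding) is naively approximately elliptically connected. -/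
def StronglyConnected {n : ℕ} (X : Set (PP n)) : Prop :=
  ∀ (a b : ℕ) (j : PP n → PP a) (k : PP n → PP b), IsMorphism X j → IsMorphism X k →
    Set.InjOn (fun x => (j x, k x)) X → NaivelyConnected ((fun x => (j x, k x)) '' X)

/-- A holomorphic map from the open unit disc to `X`. -/
def IsDisc {n : ℕ} (X : Set (PP n)) (f : ℂ → PP n) : Prop :=
  ∀ z ∈ Metric.ball (0 : ℂ) 1, f z ∈ X ∧
    ∃ F : ℂ → Fin (n + 1) → ℂ, AnalyticAt ℂ F z ∧ ∀ᶠ w in 𝓝 z, Rep (F w) (f w)

/-- The Poincare distance of two points of the unit disc. -/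
noncomputable def poincare (a b : ℂ) : ℝ := Real.artanh ‖(a - b) / (1 - (starRingEnd ℂ) b * a)‖

/-- Chains of holomorphic discs in `X` from one point to another, with their lengths. -/
inductive DiscChain {n : ℕ} (X : Set (PP n)) : PP n → PP n → ℝ → Prop
  | refl (x : PP n) : DiscChain X x x 0
  | step (f : ℂ → PP n) (a b : ℂ) (y : PP n) (r : ℝ) : IsDisc X f → a ∈ Metric.ball (0 : ℂ) 1 →
      b ∈ Metric.ball (0 : ℂ) 1 → DiscChain X (f b) y r → DiscChain X (f a) y (poincare a b + r)

/-- The Kobayashi pseudodistance: the infimum of the lengths of the chains of discs. -/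
noncomputable def kobayashi {n : ℕ} (X : Set (PP n)) (x y : PP n) : ℝ :=
  sInf {r | DiscChain X x y r}

/-- The surface `z0 z3 = z1 z2`, `z4^(m+2) = z0 z3 (z0^m + z3^m - z1^m - z2^m)` in `P^4`. -/
def surface (m : ℕ) : Set (PP 4) :=
  {x | ∀ v, Rep v x → v 0 * v 3 = v 1 * v 2 ∧
    v 4 ^ (m + 2) = v 0 * v 3 * (v 0 ^ m + v 3 ^ m - v 1 ^ m - v 2 ^ m)}

end Pool.Agent.Lib.MP_879098_ag
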