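import Pool.Agent.Lib.MP_879098_ag.Tools
import Pool.Agent.Lib.MP_879098_ag.RH

/-! Discs in the affine part of the surface whose boundary lies near the two lines at infinity. -/

namespace Pool.Agent.Lib.MP_879098_ag

open Filter Topology Polynomial Metric

namespace Disc

theorem ci {f : ℂ → ℝ} (hf : ContinuousOn f (sphere 0 1)) : CircleIntegrable f 0 1 :=
  hf.circleIntegrable zero_le_one

theorem avg_mono {f g : ℂ → ℝ} (hf : ContinuousOn f (sphere 0 1))
    (hg : ContinuousOn g (sphere 0 1)) (h : ∀ x ∈ sphere (0 : ℂ) 1, f x ≤ g x) :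
    Real.circleAverage f 0 1 ≤ Real.circleAverage g 0 1 :=
  Real.circleAverage_mono (ci hf) (ci hg) (by simpa using h)

theorem avg_add {f g : ℂ → ℝ} (hf : ContinuousOn f (sphere 0 1))
    (hg : ContinuousOn g (sphere 0 1)) :
    Real.circleAverage (fun z => f z + g z) 0 1 =
      Real.circleAverage f 0 1 + Real.circleAverage g 0 1 :=
  Real.circleAverage_fun_add (ci hf) (ci hg)

theorem avg_mul (a : ℝ) (f : ℂ → ℝ) :
    Real.circleAverage (fun z => a * f z) 0 1 = a * Real.circleAverage f 0 1 :=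
  Real.circleAverage_fun_smul (a := a) (f := f)

theorem cmul (a : ℝ) {f : ℂ → ℝ} (hf : ContinuousOn f (sphere 0 1)) :
    ContinuousOn (fun z => a * f z) (sphere 0 1) := continuousOn_const.mul hf

theorem cadd {f g : ℂ → ℝ} (hf : ContinuousOn f (sphere 0 1)) (hg : ContinuousOn g (sphere 0 1)) :
    ContinuousOn (fun z => f z + g z) (sphere 0 1) := hf.add hg

theorem sq_lower {a b η : ℝ} (ha : 0 ≤ a) (hη : 0 ≤ η) (h : a - η ≤ b) :
    a ^ 2 - 2 * a * η ≤ b ^ 2 := by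
  rcases le_total η a with g | g
  · nlinarith [mul_self_le_mul_self (sub_nonneg.2 g) h, mul_nonneg hη hη]
  · nlinarith [mul_nonneg ha hη, mul_self_nonneg b, mul_nonneg ha (sub_nonneg.2 g)]

theorem improve (G : Set ℂ) (hG : IsOpen G) (r : ℂ → ℝ) (hr : Continuous r)
    (hr0 : ∀ u, 0 ≤ r u) (hrG : ∀ u ∈ G, closedBall u (r u) ⊆ G) (M : ℝ)
    (hM : ∀ u ∈ G, ‖u‖ ≤ M) (α : ℂ[X]) (hα : ∀ z ∈ closedBall (0 : ℂ) 1, α.eval z ∈ G)
    (η : ℝ) (hη : 0 < η) :
    ∃ β : ℂ[X], β.eval 0 = α.eval 0 ∧ (∀ z ∈ closedBall (0 : ℂ) 1, β.eval z ∈ G) ∧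
      Real.circleAverage (fun z => ‖α.eval z‖ ^ 2) 0 1 +
        Real.circleAverage (fun z => r (α.eval z) ^ 2) 0 1 - η ≤
        Real.circleAverage (fun z => ‖β.eval z‖ ^ 2) 0 1 := by
  have hM0 : 0 ≤ M := (norm_nonneg _).trans (hM _ (hα 0 (by simp)))
  have hrM : ∀ u ∈ G, r u ≤ 2 * M := by
    intro u hu
    have h1 : u + (r u : ℂ) ∈ G := hrG u hu (by simp [dist_eq_norm, abs_of_nonneg (hr0 u)])
    have h2 : ‖(r u : ℂ)‖ ≤ ‖u + (r u : ℂ)‖ + ‖u‖ := by
      simpa using norm_sub_le (u + (r u : ℂ)) u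
    rw [Complex.norm_real, Real.norm_of_nonneg (hr0 u)] at h2
    linarith [hM _ h1, hM _ hu]
  have hc : Continuous fun z : ℂ => α.eval z := α.continuous
  set η' : ℝ := η / (6 * M + 1) with hη'
  have hη'0 : 0 < η' := by positivity
  have hη'1 : 6 * M * η' ≤ η := by
    rw [hη', ← mul_div_assoc, div_le_iff₀ (by positivity)]; nlinarith
  have key : ∀ u ∈ G, ∀ w : ℂ, ‖w‖ ≤ 1 → u + w * (r u : ℂ) ∈ G := by
    intro u hu w hw
    refine hrG u hu ?_
    rw [mem_closedBall, dist_eq_norm, add_sub_cancel_left, norm_mul, Complex.norm_real,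
      Real.norm_of_nonneg (hr0 u)]
    exact mul_le_of_le_one_left (hr0 u) hw
  obtain ⟨N, c, hc0, hN, hD, hS⟩ := rh (E := ℂ × ℂ) (fun z => (α.eval z, 0))
    (fun z _ => ((α.differentiable.analyticAt z).prod analyticAt_const))
    (fun ζ w => (α.eval ζ, w * (r (α.eval ζ) : ℂ)))
    (by
      refine Continuous.continuousOn ?_
      exact (hc.comp continuous_fst).prodMk (continuous_snd.mul
        (Complex.continuous_ofReal.comp (hr.comp (hc.comp continuous_fst)))))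
    (fun ζ _ => (differentiable_const _).prodMk (differentiable_id.mul_const _))
    (fun ζ _ => by simp)
    {x : ℂ × ℂ | x.1 + x.2 ∈ G ∧ x.1 - x.2 ∈ G}
    ((hG.preimage (continuous_fst.add continuous_snd)).inter
      (hG.preimage (continuous_fst.sub continuous_snd)))
    (fun z hz => by simpa using hα z hz)
    (fun ζ hζ w hw => by
      have h1 := hα ζ (sphere_subset_closedBall hζ)
      have h2 : ‖w‖ ≤ 1 := by simpa using hw
      refine ⟨key _ h1 w h2, ?_⟩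
      have := key _ h1 (-w) (by simpa using h2)
      simpa [sub_eq_add_neg] using this) η' hη'0
  set F₁ : ℂ[X] := ∑ k ∈ Finset.range N, C (c k).1 * X ^ k with hF₁
  set F₂ : ℂ[X] := ∑ k ∈ Finset.range N, C (c k).2 * X ^ k with hF₂
  have hF : ∀ z : ℂ, ∑ k ∈ Finset.range N, z ^ k • c k = (F₁.eval z, F₂.eval z) := by
    intro z
    refine Prod.ext ?_ ?_
    · show _ = F₁.eval z
      rw [hF₁, Prod.fst_sum, eval_finsetSum]
      refine Finset.sum_congr rfl fun k _ => ?_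
      rw [eval_mul, eval_C, eval_pow, eval_X, Prod.smul_fst, smul_eq_mul, mul_comm]
    · show _ = F₂.eval z
      rw [hF₂, Prod.snd_sum, eval_finsetSum]
      refine Finset.sum_congr rfl fun k _ => ?_
      rw [eval_mul, eval_C, eval_pow, eval_X, Prod.smul_snd, smul_eq_mul, mul_comm]
  have hz : (F₁.eval 0, F₂.eval 0) = (α.eval 0, (0 : ℂ)) := by
    rw [← hF, ← hc0, Finset.sum_eq_single 0]
    · simp
    · intro k _ hk; simp [hk]
    · intro h; exact absurd (Finset.mem_range.2 hN) h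
  have hz1 : F₁.eval 0 = α.eval 0 := congrArg Prod.fst hz
  have hz2 : F₂.eval 0 = 0 := congrArg Prod.snd hz
  simp only [hF] at hD hS
  have c1 : ∀ p : ℂ[X], ContinuousOn (fun z : ℂ => ‖p.eval z‖ ^ 2) (sphere 0 1) :=
    fun p => (p.continuous.norm.pow 2).continuousOn
  have c2 : ContinuousOn (fun z : ℂ => r (α.eval z) ^ 2) (sphere 0 1) :=
    ((hr.comp hc).pow 2).continuousOn
  have main : Real.circleAverage
      (fun z => 2 * (‖α.eval z‖ ^ 2 + r (α.eval z) ^ 2) + (-2 * η)) 0 1 ≤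
      Real.circleAverage (fun z => ‖(F₁ + F₂).eval z‖ ^ 2 + ‖(F₁ - F₂).eval z‖ ^ 2) 0 1 := by
    refine avg_mono ((continuousOn_const.mul ((c1 α).add c2)).add continuousOn_const)
      ((c1 _).add (c1 _)) fun ζ hζ => ?_
    obtain ⟨w, hw, h⟩ := hS ζ hζ
    have hw1 : ‖w‖ = 1 := by simpa using hw
    have h1 := hα ζ (sphere_subset_closedBall hζ)
    have e1 : ‖F₁.eval ζ - α.eval ζ‖ < η' := (norm_fst_le _).trans_lt h
    have e2 : ‖F₂.eval ζ - w * (r (α.eval ζ) : ℂ)‖ < η' := (norm_snd_le _).trans_lt h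
    have e3 : ‖α.eval ζ‖ - η' ≤ ‖F₁.eval ζ‖ := by
      have := norm_sub_norm_le (α.eval ζ) (F₁.eval ζ)
      rw [norm_sub_rev] at this; linarith
    have e4 : r (α.eval ζ) - η' ≤ ‖F₂.eval ζ‖ := by
      have := norm_sub_norm_le (w * (r (α.eval ζ) : ℂ)) (F₂.eval ζ)
      rw [norm_sub_rev, norm_mul, hw1, one_mul, Complex.norm_real,
        Real.norm_of_nonneg (hr0 _)] at this
      linarith
    have e5 := sq_lower (norm_nonneg _) hη'0.le e3
    have e6 := sq_lower (hr0 _) hη'0.le e4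
    have e7 := parallelogram_law_with_norm ℂ (F₁.eval ζ) (F₂.eval ζ)
    have e8 := mul_le_mul_of_nonneg_right (hM _ h1) hη'0.le
    have e9 := mul_le_mul_of_nonneg_right (hrM _ h1) hη'0.le
    rw [eval_add, eval_sub]
    nlinarith
  rw [avg_add (cmul 2 (cadd (c1 α) c2)) continuousOn_const, avg_mul,
    avg_add (c1 α) c2, avg_add (c1 _) (c1 _), Real.circleAverage_const] at main
  rcases le_total (Real.circleAverage (fun z => ‖(F₁ + F₂).eval z‖ ^ 2) 0 1)
    (Real.circleAverage (fun z => ‖(F₁ - F₂).eval z‖ ^ 2) 0 1) with g | g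
  · exact ⟨F₁ - F₂, by simp [hz1, hz2], fun z hz => by simpa using (hD z hz).2, by linarith⟩
  · exact ⟨F₁ + F₂, by simp [hz1, hz2], fun z hz => by simpa using (hD z hz).1, by linarith⟩

theorem near_sup (G : Set ℂ) (hG : IsOpen G) (r : ℂ → ℝ) (hr : Continuous r)
    (hr0 : ∀ u, 0 ≤ r u) (hrG : ∀ u ∈ G, closedBall u (r u) ⊆ G) (M : ℝ)
    (hM : ∀ u ∈ G, ‖u‖ ≤ M) (s : ℂ) (hs : s ∈ G) (e : ℝ) (he : 0 < e) :
    ∃ α : ℂ[X], α.eval 0 = s ∧ (∀ z ∈ closedBall (0 : ℂ) 1, α.eval z ∈ G) ∧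
      Real.circleAverage (fun z => r (α.eval z) ^ 2) 0 1 ≤ e := by
  by_contra hcon
  push Not at hcon
  have h : ∀ n : ℕ, ∃ α : ℂ[X], α.eval 0 = s ∧ (∀ z ∈ closedBall (0 : ℂ) 1, α.eval z ∈ G) ∧
      n * (e / 2) ≤ Real.circleAverage (fun z => ‖α.eval z‖ ^ 2) 0 1 := by
    intro n
    induction n with
    | zero =>
      refine ⟨C s, by simp, fun z _ => by simpa using hs, ?_⟩
      simpa using Real.circleAverage_nonneg_of_nonneg fun x _ => by positivity
    | succ n ih =>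
      obtain ⟨α, h0, h1, h2⟩ := ih
      obtain ⟨β, g0, g1, g2⟩ := improve G hG r hr hr0 hrG M hM α h1 (e / 2) (by positivity)
      refine ⟨β, g0.trans h0, g1, ?_⟩
      have := hcon α h0 h1
      push_cast
      linarith
  obtain ⟨n, hn⟩ := exists_nat_gt (M ^ 2 / (e / 2))
  obtain ⟨α, -, h1, h2⟩ := h n
  have h3 : Real.circleAverage (fun z => ‖α.eval z‖ ^ 2) 0 1 ≤ M ^ 2 := by
    refine Real.circleAverage_mono_on_of_le_circle
      (ci (α.continuous.norm.pow 2).continuousOn) fun x hx => ?_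
    rw [abs_one] at hx
    exact pow_le_pow_left₀ (norm_nonneg _) (hM _ (h1 x (sphere_subset_closedBall hx))) 2
  rw [div_lt_iff₀ (by positivity)] at hn
  linarith

theorem alpha (φ : ℂ[X]) (s : ℂ) (hs : φ.eval s ≠ 0) (R ε : ℝ)
    (hε : 0 < ε) : ∃ (α : ℂ[X]) (v : ℂ → ℝ), α.eval 0 = s ∧
      (∀ z ∈ closedBall (0 : ℂ) 1, φ.eval (α.eval z) ≠ 0) ∧ ContinuousOn v (sphere 0 1) ∧
      (∀ ζ ∈ sphere (0 : ℂ) 1, 0 ≤ v ζ ∧ (‖α.eval ζ‖ ≤ R → 1 ≤ v ζ)) ∧
      Real.circleAverage v 0 1 < ε := by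
  set M : ℝ := |R| + ‖s‖ + 1 with hMdef
  have hRM : R < M := by linarith [le_abs_self R, norm_nonneg s]
  have hsM : ‖s‖ < M := by linarith [abs_nonneg R]
  set G : Set ℂ := {u | φ.eval u ≠ 0 ∧ ‖u‖ < M} with hGdef
  have hG : IsOpen G :=
    (isOpen_ne_fun φ.continuous continuous_const).inter (isOpen_lt continuous_norm continuous_const)
  have hGc : Gᶜ.Nonempty := by
    refine ⟨(M : ℂ), fun h => ?_⟩
    have := h.2
    rw [Complex.norm_real] at this
    exact absurd this (not_lt.2 (le_abs_self M))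
  set r : ℂ → ℝ := fun u => infDist u Gᶜ / 2 with hrdef
  have hr : Continuous r := (continuous_infDist_pt _).div_const 2
  have hr0 : ∀ u, 0 ≤ r u := fun u => div_nonneg infDist_nonneg zero_le_two
  have hrp : ∀ u ∈ G, 0 < r u := fun u hu =>
    half_pos ((hG.isClosed_compl.notMem_iff_infDist_pos hGc).1 fun h => h hu)
  have hrG : ∀ u ∈ G, closedBall u (r u) ⊆ G := by
    intro u hu
    have h1 : closedBall u (r u) ⊆ ball u (infDist u Gᶜ) :=
      closedBall_subset_ball (by have := hrp u hu; simp only [hrdef] at this ⊢; linarith)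
    simpa using h1.trans ball_infDist_subset_compl
  obtain ⟨B, hB⟩ := (isCompact_closedBall (0 : ℂ) M).exists_bound_of_continuousOn
    φ.continuous.continuousOn
  have hB' : ∀ u ∈ G, ‖φ.eval u‖ ≤ B := fun u hu => hB u (by simpa using hu.2.le)
  have hsG : s ∈ G := ⟨hs, hsM⟩
  have hL : ∀ u ∈ G, 0 ≤ Real.log B - Real.log ‖φ.eval u‖ := fun u hu =>
    sub_nonneg.2 (Real.log_le_log (norm_pos_iff.2 hu.1) (hB' u hu))
  set L : ℝ := Real.log B - Real.log ‖φ.eval s‖ with hLdef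
  have hL0 : 0 ≤ L := hL s hsG
  set K : ℝ := 2 * (L + 1) / ε with hK
  have hK0 : 0 < K := by positivity
  have hKL : K⁻¹ * L < ε / 2 := by
    rw [inv_mul_lt_iff₀ hK0, hK]; field_simp; linarith
  have hcomp : IsCompact (closedBall (0 : ℂ) R ∩
      {u | Real.exp (Real.log B - K) ≤ ‖φ.eval u‖}) :=
    (isCompact_closedBall _ _).inter_right (isClosed_le continuous_const φ.continuous.norm)
  obtain ⟨τ, hτ, hτ'⟩ := hcomp.exists_forall_le' hr.continuousOn (a := 0) fun u hu =>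
    hrp u ⟨norm_pos_iff.1 ((Real.exp_pos _).trans_le hu.2),
      lt_of_le_of_lt (by simpa using hu.1) hRM⟩
  obtain ⟨α, h0, h1, h2⟩ := near_sup G hG r hr hr0 hrG M (fun u hu => hu.2.le) s hsG
    (τ ^ 2 * (ε / 2)) (by positivity)
  have c2 : ContinuousOn (fun z : ℂ => r (α.eval z) ^ 2) (sphere 0 1) :=
    ((hr.comp α.continuous).pow 2).continuousOn
  have c3 : ContinuousOn (fun z : ℂ => Real.log ‖φ.eval (α.eval z)‖) (sphere 0 1) :=
    (φ.continuous.comp α.continuous).norm.continuousOn.log fun z hz =>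
      norm_ne_zero_iff.2 (h1 z (sphere_subset_closedBall hz)).1
  have c4 : ContinuousOn (fun z : ℂ => Real.log B + (-1) * Real.log ‖φ.eval (α.eval z)‖)
      (sphere 0 1) := continuousOn_const.add (continuousOn_const.mul c3)
  refine ⟨α, fun z => (τ ^ 2)⁻¹ * r (α.eval z) ^ 2 +
    K⁻¹ * (Real.log B + (-1) * Real.log ‖φ.eval (α.eval z)‖), h0, fun z hz => (h1 z hz).1,
    (continuousOn_const.mul c2).add (continuousOn_const.mul c4), fun ζ hζ => ?_, ?_⟩
  · have g1 := h1 ζ (sphere_subset_closedBall hζ)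
    have g2 : 0 ≤ (τ ^ 2)⁻¹ * r (α.eval ζ) ^ 2 := by positivity
    have g3 : 0 ≤ K⁻¹ * (Real.log B + (-1) * Real.log ‖φ.eval (α.eval ζ)‖) :=
      mul_nonneg (inv_nonneg.2 hK0.le) (by linarith [hL _ g1])
    refine ⟨add_nonneg g2 g3, fun hR => ?_⟩
    rcases le_total (Real.exp (Real.log B - K)) ‖φ.eval (α.eval ζ)‖ with g | g
    · have g4 := hτ' (α.eval ζ) ⟨by simpa using hR, g⟩
      have g5 : 1 ≤ (τ ^ 2)⁻¹ * r (α.eval ζ) ^ 2 := by
        rw [le_inv_mul_iff₀ (by positivity), mul_one]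
        exact pow_le_pow_left₀ hτ.le g4 2
      linarith
    · have g4 := (Real.log_le_iff_le_exp (norm_pos_iff.2 g1.1)).2 g
      have g5 : 1 ≤ K⁻¹ * (Real.log B + (-1) * Real.log ‖φ.eval (α.eval ζ)‖) := by
        rw [le_inv_mul_iff₀ hK0]; linarith
      linarith
  · have g1 : Real.circleAverage (fun z : ℂ => Real.log ‖φ.eval (α.eval z)‖) 0 1 =
        Real.log ‖φ.eval s‖ := by
      rw [← h0]
      refine AnalyticOnNhd.circleAverage_log_norm_of_ne_zero
        (g := fun z => φ.eval (α.eval z)) (fun z _ => ?_) fun z hz => ?_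
      · exact (φ.differentiable.comp α.differentiable).analyticAt z
      · rw [abs_one] at hz; exact (h1 z hz).1
    rw [avg_add (cmul _ c2) (cmul _ c4), avg_mul, avg_mul,
      avg_add continuousOn_const (cmul _ c3), avg_mul, Real.circleAverage_const, g1]
    have g2 : (τ ^ 2)⁻¹ * Real.circleAverage (fun z : ℂ => r (α.eval z) ^ 2) 0 1 ≤ ε / 2 := by
      rw [inv_mul_le_iff₀ (by positivity)]; exact h2
    have g3 : Real.log B + (-1) * Real.log ‖φ.eval s‖ = L := by rw [hLdef]; ring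
    rw [g3]
    linarith

/-- A polynomial with positive real part on the disc, value one at the centre and large real
part where `v` is at least one. -/
theorem exists_tau (v : ℂ → ℝ) (hv : ContinuousOn v (sphere 0 1))
    (h0 : ∀ ζ ∈ sphere (0 : ℂ) 1, 0 ≤ v ζ) (Λ : ℝ) (hΛ : 0 < Λ)
    (h : Real.circleAverage v 0 1 < (4 * Λ)⁻¹) :
    ∃ τ : ℂ[X], τ.eval 0 = 1 ∧ (∀ z ∈ closedBall (0 : ℂ) 1, 0 < (τ.eval z).re) ∧
      ∀ ζ ∈ sphere (0 : ℂ) 1, 1 ≤ v ζ → Λ < (τ.eval ζ).re := by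
  set η : ℝ := (4 * Λ)⁻¹ with hη
  have hη0 : 0 < η := by positivity
  obtain ⟨p, hp⟩ := exists_re_approx v hv η hη0
  have h1 : ∀ z ∈ closedBall (0 : ℂ) 1, -η ≤ (p.eval z).re := by
    intro z hz
    have h2 : ‖Complex.exp (-p.eval z)‖ ≤ Real.exp η := by
      refine Complex.norm_le_of_forall_mem_frontier_norm_le (U := ball (0 : ℂ) 1)
        (f := fun z => Complex.exp (-p.eval z)) isBounded_ball
        p.differentiable.neg.cexp.diffContOnCl (fun w hw => ?_)
        (by rwa [closure_ball _ one_ne_zero])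
      rw [frontier_ball _ one_ne_zero] at hw
      rw [Complex.norm_exp, Real.exp_le_exp, Complex.neg_re]
      linarith [(abs_lt.1 (hp w hw)).1, h0 w hw]
    rw [Complex.norm_exp, Real.exp_le_exp, Complex.neg_re] at h2
    linarith
  have h2 : (p.eval 0).re < 2 * η := by
    have e1 : Real.circleAverage (fun z : ℂ => p.eval z) 0 1 = p.eval 0 :=
      p.differentiable.diffContOnCl.circleAverage
    have e2 := Complex.reCLM.circleAverage_comp_comm (f := fun z : ℂ => p.eval z) (c := 0) (R := 1)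
      (p.continuous.continuousOn.circleIntegrable zero_le_one)
    rw [e1] at e2
    have e3 : Real.circleAverage (Complex.reCLM ∘ fun z : ℂ => p.eval z) 0 1 ≤
        Real.circleAverage (fun z => v z + η) 0 1 :=
      avg_mono (Complex.reCLM.continuous.comp p.continuous).continuousOn
        (hv.add continuousOn_const) fun x hx => by
          have := (abs_lt.1 (hp x hx)).2
          simp only [Function.comp, Complex.reCLM_apply]
          linarith
    rw [avg_add hv continuousOn_const, Real.circleAverage_const, e2, Complex.reCLM_apply] at e3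
    linarith
  set a : ℝ := (p.eval 0).re + 2 * η with ha
  have ha0 : 0 < a := by linarith [h1 0 (by simp)]
  have ha1 : Λ * a < 1 := by
    have : Λ * (4 * η) = 1 := by rw [hη]; field_simp
    nlinarith
  have hre : ∀ z : ℂ, ((C ((a⁻¹ : ℝ) : ℂ) * (p + C ((a : ℂ) - p.eval 0))).eval z).re =
      a⁻¹ * ((p.eval z).re + 2 * η) := by
    intro z
    rw [eval_mul, eval_C, Complex.re_ofReal_mul, eval_add, eval_C, Complex.add_re, Complex.sub_re,
      Complex.ofReal_re, ha]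
    ring
  refine ⟨C ((a⁻¹ : ℝ) : ℂ) * (p + C ((a : ℂ) - p.eval 0)), ?_, fun z hz => ?_, fun ζ hζ hv1 => ?_⟩
  · have : (a : ℂ) ≠ 0 := Complex.ofReal_ne_zero.2 ha0.ne'
    simp [this]
  · rw [hre]
    exact mul_pos (inv_pos.2 ha0) (by linarith [h1 z hz])
  · rw [hre, lt_inv_mul_iff₀ ha0]
    linarith [(abs_lt.1 (hp ζ hζ)).1]

end Disc

theorem exists_alpha (φ : ℂ[X]) (hφ : 0 < φ.natDegree) (s : ℂ) (hs : φ.eval s ≠ 0) (R ε : ℝ)
    (hε : 0 < ε) : ∃ (α : ℂ[X]) (v : ℂ → ℝ), α.eval 0 = s ∧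
      (∀ z ∈ closedBall (0 : ℂ) 1, φ.eval (α.eval z) ≠ 0) ∧ ContinuousOn v (sphere 0 1) ∧
      (∀ ζ ∈ sphere (0 : ℂ) 1, 0 ≤ v ζ ∧ (‖α.eval ζ‖ ≤ R → 1 ≤ v ζ)) ∧
      Real.circleAverage v 0 1 < ε := by
  have _ := hφ
  exact Disc.alpha φ s hs R ε hε

theorem exists_disc (m : ℕ) (hm : 0 < m) (s t y : ℂ) (hy : y ≠ 0)
    (h : y ^ (m + 2) = ff m s * ff m t) (R : ℝ) :
    ∃ a b Y : ℂ → ℂ, AnalyticOnNhd ℂ a (closedBall 0 1) ∧ AnalyticOnNhd ℂ b (closedBall 0 1) ∧
      AnalyticOnNhd ℂ Y (closedBall 0 1) ∧ Complex.exp (a 0) = s ∧ Complex.exp (b 0) = t ∧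
      Y 0 = y ∧
      (∀ z ∈ closedBall (0 : ℂ) 1,
        Y z ^ (m + 2) = ff m (Complex.exp (a z)) * ff m (Complex.exp (b z))) ∧
      ∀ ζ ∈ sphere (0 : ℂ) 1, R < ‖Complex.exp (a ζ)‖ ∨ R < ‖Complex.exp (b ζ)‖ := by
  have hst : ff m s * ff m t ≠ 0 := h ▸ pow_ne_zero _ hy
  have hφ : ∀ u : ℂ, (X * (X ^ m - 1) : ℂ[X]).eval u = ff m u := fun u => by simp [ff]
  have hff : Differentiable ℂ (ff m) := by
    have : ff m = fun u => (X * (X ^ m - 1) : ℂ[X]).eval u := funext fun u => (hφ u).symm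
    rw [this]; exact Polynomial.differentiable _
  have hne : ∀ u : ℂ, ff m u ≠ 0 → u ≠ 0 := fun u hu g => hu (by simp [ff, g])
  obtain ⟨e, he, hstrip⟩ := exists_strip _ (finite_ff m hm) t (right_ne_zero_of_mul hst)
  have he0 : 0 < ‖e‖ := norm_pos_iff.2 he
  set Λ : ℝ := Real.exp ((|R| + ‖t‖) / ‖e‖) with hΛ
  have hΛ0 : 0 < Λ := Real.exp_pos _
  obtain ⟨α, v, h0, h1, h2, h3, h4⟩ := Disc.alpha (X * (X ^ m - 1)) s
    (by rw [hφ]; exact left_ne_zero_of_mul hst) R (4 * Λ)⁻¹ (by positivity)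
  obtain ⟨τ, g0, g1, g2⟩ := Disc.exists_tau v h2 (fun ζ hζ => (h3 ζ hζ).1) Λ hΛ0 h4
  have hU : IsOpen {z : ℂ | 0 < (τ.eval z).re ∧ ff m (α.eval z) ≠ 0} :=
    (isOpen_lt continuous_const (Complex.continuous_re.comp τ.continuous)).inter
      (isOpen_ne_fun (hff.continuous.comp α.continuous) continuous_const)
  obtain ⟨δ, hδ, hδU⟩ := (isCompact_closedBall (0 : ℂ) 1).exists_thickening_subset_open hU
    fun z hz => ⟨g1 z hz, by rw [← hφ]; exact h1 z hz⟩
  rw [thickening_closedBall hδ zero_le_one] at hδU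
  have hsub : closedBall (0 : ℂ) 1 ⊆ ball 0 (δ + 1) := closedBall_subset_ball (by linarith)
  set β : ℂ → ℂ := fun z => t + e * Complex.log (τ.eval z) with hβ
  have hβd : DifferentiableOn ℂ β (ball 0 (δ + 1)) := fun z hz =>
    (((τ.differentiable z).clog (Or.inl (hδU hz).1)).const_mul e).const_add t
      |>.differentiableWithinAt
  have hβ0 : ∀ z ∈ ball (0 : ℂ) (δ + 1), ff m (β z) ≠ 0 := by
    intro z hz
    refine hstrip _ ?_
    rw [Complex.log_im]
    linarith [Complex.abs_arg_le_pi_div_two_iff.2 (hδU hz).1.le, Real.pi_le_four]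
  have hαd : DifferentiableOn ℂ (fun z => α.eval z) (ball (0 : ℂ) (δ + 1)) :=
    α.differentiable.differentiableOn
  have hβz : β 0 = t := by simp [hβ, g0]
  obtain ⟨a, ha, ha'⟩ := exists_log isOpen_ball (convex_ball _ _) hαd
    fun z hz => hne _ (hδU hz).2
  obtain ⟨b, hb, hb'⟩ := exists_log isOpen_ball (convex_ball _ _) hβd
    fun z hz => hne _ (hβ0 z hz)
  have hz0 : (0 : ℂ) ∈ ball (0 : ℂ) (δ + 1) := hsub (by simp)
  obtain ⟨Y, hY, hY0, hY'⟩ := exists_root (f := fun z => ff m (α.eval z) * ff m (β z))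
    isOpen_ball (convex_ball _ _)
    ((hff.comp_differentiableOn hαd).mul (hff.comp_differentiableOn hβd))
    (fun z hz => mul_ne_zero (hδU hz).2 (hβ0 z hz)) (m + 2) (by omega) (y₀ := y) hz0
    (by rw [h, h0, hβz])
  refine ⟨a, b, Y, (ha.analyticOnNhd isOpen_ball).mono hsub,
    (hb.analyticOnNhd isOpen_ball).mono hsub, (hY.analyticOnNhd isOpen_ball).mono hsub,
    (ha' 0 hz0).trans h0, (hb' 0 hz0).trans hβz, hY0, fun z hz => ?_, fun ζ hζ => ?_⟩
  · rw [ha' z (hsub hz), hb' z (hsub hz), hY' z (hsub hz)]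
  · have hz := hsub (sphere_subset_closedBall hζ)
    rw [ha' ζ hz, hb' ζ hz]
    refine (lt_or_ge R ‖α.eval ζ‖).imp id fun g => ?_
    have e1 : Λ < ‖τ.eval ζ‖ := (g2 ζ hζ ((h3 ζ hζ).2 g)).trans_le (Complex.re_le_norm _)
    have e2 : (|R| + ‖t‖) / ‖e‖ < ‖Complex.log (τ.eval ζ)‖ := by
      refine lt_of_lt_of_le ?_ (Complex.re_le_norm _)
      rw [Complex.log_re]
      exact (Real.lt_log_iff_exp_lt (hΛ0.trans e1)).2 e1
    rw [div_lt_iff₀ he0] at e2
    have e3 : ‖e * Complex.log (τ.eval ζ)‖ ≤ ‖β ζ‖ + ‖t‖ := by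
      simpa [hβ] using norm_sub_le (β ζ) t
    rw [norm_mul] at e3
    linarith [le_abs_self R]

end Pool.Agent.Lib.MP_879098_ag
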