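import Pool.Agent.Lib.MP_879098_ag.EllB

/-! Elliptic curves close to a triple cover of a rational curve. -/

namespace Pool.Agent.Lib.MP_879098_ag

open Filter Topology Polynomial Metric

namespace Ell

theorem norm_theta {s w v : ℂ} (hs : ‖s‖ ≤ 1) (h : v ^ 2 = w ^ 3 - w) :
    ‖s * w + s ^ 2 * w ^ 2 + s ^ 3 * v‖ ≤ ‖s‖ * (3 * (1 + ‖w‖) ^ 3) := by
  have a0 := norm_nonneg w
  have a1 : ‖v‖ ≤ (1 + ‖w‖) ^ 3 := by
    refine le_of_pow_le_pow_left₀ two_ne_zero (by positivity) ?_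
    rw [← norm_pow, h]
    refine (norm_sub_le _ _).trans ?_
    rw [norm_pow]
    nlinarith [pow_nonneg a0 2, pow_nonneg a0 3, pow_nonneg a0 4, pow_nonneg a0 5, pow_nonneg a0 6]
  have a2 : ‖w + s * w ^ 2 + s ^ 2 * v‖ ≤ ‖w‖ + ‖w‖ ^ 2 + ‖v‖ := by
    refine norm_add₃_le.trans ?_
    rw [norm_mul, norm_mul, norm_pow, norm_pow]
    gcongr
    · exact mul_le_of_le_one_left (by positivity) hs
    · exact mul_le_of_le_one_left (by positivity) (pow_le_one₀ (norm_nonneg _) hs)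
  rw [show s * w + s ^ 2 * w ^ 2 + s ^ 3 * v = s * (w + s * w ^ 2 + s ^ 2 * v) by ring, norm_mul]
  refine mul_le_mul_of_nonneg_left (a2.trans ?_) (norm_nonneg _)
  nlinarith [pow_nonneg a0 2, pow_nonneg a0 3]

theorem small {n : ℕ} {P : Fin (n + 1) → ℂ[X]} {D : ℕ} {t : VV n} (hd : ∀ i, (P i).natDegree ≤ D)
    (h : ∀ w, pev P w ≠ 0) (htop : ptop P D ≠ 0) (ht : t = 0 ∨ 3 ≤ D) {δ : ℝ} (hδ : 0 < δ) :
    ∀ᶠ s in 𝓝 (0 : ℂ), ∀ w v, v ^ 2 = w ^ 3 - w →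
      Near δ (pev P w) (pev P w + (s * w + s ^ 2 * w ^ 2 + s ^ 3 * v) • t) := by
  rcases ht with rfl | ht
  · exact .of_forall fun s w v _ => by simpa using near_refl hδ (h w)
  obtain ⟨c, c0, hc⟩ := pev_lower P D hd h htop
  have h1 : ∀ᶠ s in 𝓝 (0 : ℂ), ‖s‖ * (3 * ‖t‖) < δ * c :=
    (continuous_norm.mul continuous_const).continuousAt.eventually_lt continuousAt_const
      (by simpa using mul_pos hδ c0)
  filter_upwards [h1, closedBall_mem_nhds 0 one_pos] with s h2 h3 w v e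
  refine near_of_norm ?_
  have a1 : (1 + ‖w‖) ^ 3 ≤ (1 + ‖w‖) ^ D := pow_le_pow_right₀ (by simp) ht
  have a2 : 0 < (1 + ‖w‖) ^ D := by positivity
  rw [add_sub_cancel_left, norm_smul]
  calc _ ≤ ‖s‖ * (3 * (1 + ‖w‖) ^ D) * ‖t‖ := by
        gcongr
        exact (norm_theta (mem_closedBall_zero_iff.1 h3) e).trans (by gcongr)
    _ = ‖s‖ * (3 * ‖t‖) * (1 + ‖w‖) ^ D := by ring
    _ < δ * c * (1 + ‖w‖) ^ D := by gcongr
    _ ≤ _ := by rw [mul_assoc]; gcongr; exact hc w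

/-- The polynomial part of the perturbation. -/
noncomputable def pert {n : ℕ} (P : Fin (n + 1) → ℂ[X]) (t : VV n) (s : ℂ) : Fin (n + 1) → ℂ[X] :=
  fun i => P i + C (t i) * (monomial 1 s + monomial 2 (s ^ 2))

section

variable {n : ℕ} {P : Fin (n + 1) → ℂ[X]} {D : ℕ} {t : VV n} {s : ℂ}

theorem pev_pert (w v : ℂ) : pev (pert P t s) w + v • s ^ 3 • t =
    pev P w + (s * w + s ^ 2 * w ^ 2 + s ^ 3 * v) • t := by
  ext i
  simp [pev, pert]
  ring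

theorem ptop_pert (ht : t = 0 ∨ 3 ≤ D) : ptop (pert P t s) D = ptop P D := by
  ext i
  rcases ht with rfl | ht
  · simp [ptop, pert]
  · simp [ptop, pert, coeff_monomial, show 1 ≠ D by omega, show 2 ≠ D by omega]

theorem deg_pert (hd : ∀ i, (P i).natDegree ≤ D) (ht : t = 0 ∨ 3 ≤ D) (i : Fin (n + 1)) :
    (pert P t s i).natDegree ≤ D := by
  rcases ht with rfl | ht
  · simpa [pert] using hd i
  · exact natDegree_add_le_of_degree_le (hd i) ((natDegree_C_mul_le _ _).trans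
      (natDegree_add_le_of_degree_le ((natDegree_monomial_le _).trans (by omega))
        ((natDegree_monomial_le _).trans (by omega))))

theorem exists_idx (h : ∀ w, pev P w ≠ 0) (htop : ptop P D ≠ 0) (hD : 3 ≤ D) :
    ∃ k i w, P k ≠ 0 ∧ (P k).eval w = 0 ∧ (P i).eval w ≠ 0 := by
  obtain ⟨k, hk⟩ := Function.ne_iff.1 htop
  obtain ⟨w, hw⟩ := IsAlgClosed.exists_root (P k) (natDegree_pos_iff_degree_pos.1
    (lt_of_lt_of_le (by omega) (le_natDegree_of_ne_zero hk))).ne'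
  obtain ⟨i, hi⟩ := Function.ne_iff.1 (h w)
  exact ⟨k, i, w, fun e => hk (by simp [ptop, e]), hw, hi⟩

end

variable {a b : ℕ} {U : Set (PP a × PP b)} {P : Fin (a + 1) → ℂ[X]} {d : ℕ}
  {Q : Fin (b + 1) → ℂ[X]} {e : ℕ}

theorem mem_of_hat {u : VV a} {v : VV b} (h : (u, v) ∈ hat U) : (toP u, toP v) ∈ U := by
  obtain ⟨x, hx, h1, h2⟩ := h
  rwa [h1.toP_eq, h2.toP_eq]

theorem core (hU : IsOpen (hat U)) (h : IsRat (hat U) P d Q e) {t₁ : VV a} {t₂ : VV b}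
    (h1 : t₁ = 0 ∨ 3 ≤ d) (h2 : t₂ = 0 ∨ 3 ≤ e) {n0 n1 m0 m1 : ℂ[X]} {w0 : ℂ} (a0 : n0 ≠ 0)
    (a1 : n0.eval w0 = 0) (a2 : n1.eval w0 ≠ 0) (hm : m0 ≠ 0)
    (H : ∀ w w' θ θ' κ κ' : ℂ, pev P w' + θ' • t₁ = κ • (pev P w + θ • t₁) →
      pev Q w' + θ' • t₂ = κ' • (pev Q w + θ • t₂) →
      n1.eval w * n0.eval w' = n1.eval w' * n0.eval w ∧
        (m1.eval w + θ) * m0.eval w' = (m1.eval w' + θ') * m0.eval w) :
    ∃ C, IsElliptic C ∧ C ⊆ U ∧ (toP (pev P 0), toP (pev Q 0)) ∈ C ∧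
      (toP (ptop P d), toP (ptop Q e)) ∈ C := by
  have hc := isCone_hat hU
  obtain ⟨δ, d0, g, -⟩ := h.margin hc
  have t0 := hc.ne _ _ h.top
  obtain ⟨s, ⟨s1, s2⟩, s3⟩ := (infinite_of_mem_nhds _
    ((small h.degP (fun w => (hc.ne _ _ (h.mem w)).1) t0.1 h1 d0).and
      (small h.degQ (fun w => (hc.ne _ _ (h.mem w)).2) t0.2 h2 d0))).exists_notMem_finite
    (finite_bad (m1 := m1) a0 a1 a2 hm)
  have g1 : ∀ w v, v ^ 2 = w ^ 3 - w → (pev (pert P t₁ s) w + v • s ^ 3 • t₁,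
      pev (pert Q t₂ s) w + v • s ^ 3 • t₂) ∈ hat U := fun w v e => by
    rw [pev_pert, pev_pert]
    exact g w _ _ (s1 w v e) (s2 w v e)
  refine ⟨_, ⟨-1, 0, mu (pert P t₁ s) d (s ^ 3 • t₁), mu (pert Q t₂ s) e (s ^ 3 • t₂), by norm_num,
    isMorphism_mu (deg_pert h.degP h1) (h1.imp_left fun e => by simp [e])
      (fun w v e => (hc.ne _ _ (g1 w v e)).1) (by rw [ptop_pert h1]; exact t0.1),
    isMorphism_mu (deg_pert h.degQ h2) (h2.imp_left fun e => by simp [e])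
      (fun w v e => (hc.ne _ _ (g1 w v e)).2) (by rw [ptop_pert h2]; exact t0.2),
    ⟨_, (((Set.not_infinite.1 s3).union (finite_fib m0 hm)).image
      fun z => toP ![z.1, z.2, 1]).insert (toP ![0, 1, 0]), ?_⟩, rfl⟩, ?_,
    ⟨toP ![0, 0, 1], (mem_cubic (rep_toP (ne_aff _ _))).2 (by simp), ?_⟩,
    toP ![0, 1, 0], (mem_cubic (rep_toP ne_inf)).2 (by simp), ?_⟩
  · rintro x ⟨x1, x2⟩ y ⟨y1, y2⟩ E
    obtain rfl | ⟨w, v, e, rfl⟩ := cubic_cases x1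
    · exact absurd (Set.mem_insert _ _) x2
    obtain rfl | ⟨w', v', e', rfl⟩ := cubic_cases y1
    · exact absurd (Set.mem_insert _ _) y2
    simp only [mu_toP, Prod.mk.injEq] at E
    obtain ⟨κ, -, E1⟩ := (rep_toP (hc.ne _ _ (g1 w v e)).1).exists_smul
      (E.1 ▸ rep_toP (hc.ne _ _ (g1 w' v' e')).1)
    obtain ⟨κ', -, E2⟩ := (rep_toP (hc.ne _ _ (g1 w v e)).2).exists_smul
      (E.2 ▸ rep_toP (hc.ne _ _ (g1 w' v' e')).2)
    rw [pev_pert, pev_pert] at E1 E2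
    by_contra c
    exact x2 (.inr ⟨(w, v), .inl ⟨w', v', e, e', fun ⟨c1, c2⟩ => c (by rw [c1, c2]),
      fun c => y2 (.inr ⟨(w', v'), .inr ⟨e', c⟩, rfl⟩), H _ _ _ _ _ _ E1 E2⟩, rfl⟩)
  · rintro _ ⟨x, hx, rfl⟩
    obtain rfl | ⟨w, v, e, rfl⟩ := cubic_cases hx
    · simpa only [mu_top, ptop_pert h1, ptop_pert h2] using mem_of_hat h.top
    · simpa only [mu_toP] using mem_of_hat (g1 w v e)
  · simp only [mu_toP, pev_pert]
    simp
  · simp only [mu_top, ptop_pert h1, ptop_pert h2]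

theorem main (hU : IsOpen (hat U)) (h : IsRat (hat U) P d Q e) (hd : 3 ≤ d) (he : 3 ≤ e ∨ 2 ≤ a) :
    ∃ C, IsElliptic C ∧ C ⊆ U ∧ (toP (pev P 0), toP (pev Q 0)) ∈ C ∧
      (toP (ptop P d), toP (ptop Q e)) ∈ C := by
  have hc := isCone_hat hU
  obtain ⟨k, i, w0, a0, a1, a2⟩ :=
    exists_idx (fun w => (hc.ne _ _ (h.mem w)).1) (hc.ne _ _ h.top).1 hd
  rcases he with he | he
  · obtain ⟨k', l, w1, b0, b1, b2⟩ :=
      exists_idx (fun w => (hc.ne _ _ (h.mem w)).2) (hc.ne _ _ h.top).2 he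
    have hl : k' ≠ l := fun c => b2 (c ▸ b1)
    refine core hU h (t₂ := Pi.single l 1) (.inl rfl) (.inr he) a0 a1 a2 b0 (m1 := Q l)
      fun w w' θ θ' κ κ' E1 E2 => ?_
    have e1 := congrFun E1 k
    have e2 := congrFun E1 i
    have e3 := congrFun E2 k'
    have e4 := congrFun E2 l
    simp only [pev, Pi.add_apply, Pi.smul_apply, smul_eq_mul, Pi.zero_apply, mul_zero, add_zero,
      Pi.single_eq_same, Pi.single_eq_of_ne hl, mul_one] at e1 e2 e3 e4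
    exact ⟨by rw [e1, e2]; ring, by rw [e3, e4]; ring⟩
  · obtain ⟨l, hl⟩ : ∃ l, l ∉ ({k, i} : Finset (Fin (a + 1))) :=
      Finset.exists_mem_notMem_of_card_lt_card (t := Finset.univ)
        (Finset.card_le_two.trans_lt (by simpa using by omega)) |>.imp fun _ h => h.2
    simp only [Finset.mem_insert, Finset.mem_singleton, not_or] at hl
    refine core hU h (t₁ := Pi.single l 1) (.inr hd) (.inl rfl) a0 a1 a2 a0 (m1 := P l)
      fun w w' θ θ' κ κ' E1 _ => ?_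
    have e1 := congrFun E1 k
    have e2 := congrFun E1 i
    have e4 := congrFun E1 l
    simp only [pev, Pi.add_apply, Pi.smul_apply, smul_eq_mul, mul_zero, add_zero,
      Pi.single_eq_same, Pi.single_eq_of_ne' hl.1, Pi.single_eq_of_ne' hl.2, mul_one] at e1 e2 e4
    exact ⟨by rw [e1, e2]; ring, by rw [e1, e4]; ring⟩

theorem pev_expand {n : ℕ} (P : Fin (n + 1) → ℂ[X]) (w : ℂ) :
    pev (fun i => expand ℂ 3 (P i)) w = pev P (w ^ 3) := funext fun _ => expand_eval _ _ _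

theorem ptop_expand {n : ℕ} (P : Fin (n + 1) → ℂ[X]) (d : ℕ) :
    ptop (fun i => expand ℂ 3 (P i)) (d * 3) = ptop P d :=
  funext fun _ => coeff_expand_mul three_pos _ _

end Ell

theorem exists_elliptic {a b : ℕ} {U : Set (PP a × PP b)} (hU : IsOpen (hat U))
    {P : Fin (a + 1) → ℂ[X]} {d : ℕ} {Q : Fin (b + 1) → ℂ[X]} {e : ℕ}
    (h : IsRat (hat U) P d Q e) (hd : 1 ≤ d) (he : 1 ≤ e ∨ 2 ≤ a) :
    ∃ C, IsElliptic C ∧ C ⊆ U ∧ (toP (pev P 0), toP (pev Q 0)) ∈ C ∧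
      (toP (ptop P d), toP (ptop Q e)) ∈ C := by
  simpa [Ell.pev_expand, Ell.ptop_expand] using Ell.main hU (P := fun i => expand ℂ 3 (P i))
    (Q := fun i => expand ℂ 3 (Q i)) (d := d * 3) (e := e * 3)
    ⟨fun i => natDegree_expand 3 (P i) ▸ Nat.mul_le_mul_right 3 (h.degP i),
      fun i => natDegree_expand 3 (Q i) ▸ Nat.mul_le_mul_right 3 (h.degQ i),
      fun w => by simpa only [Ell.pev_expand] using h.mem _,
      by simpa only [Ell.ptop_expand] using h.top⟩ (by omega) (by omega)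

end Pool.Agent.Lib.MP_879098_ag
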