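import Pool.Agent.Lib.MP_879098_ag.Tools

/-! Generic injectivity of a perturbed pair of functions on the cubic `v^2 = w^3 - w`. -/

namespace Pool.Agent.Lib.MP_879098_ag.Ell

open Filter Topology Polynomial Metric

variable (n0 n1 m0 m1 : ℂ[X])

/-- Two different points of the cubic on which the two functions agree. -/
def Sol (s : ℂ) {K : Type} [CommRing K] [Algebra ℂ K] (w v w' v' : K) : Prop :=
  v ^ 2 = w ^ 3 - w ∧ v' ^ 2 = w' ^ 3 - w' ∧ ¬ (w' = w ∧ v' = v) ∧ aeval w' m0 ≠ 0 ∧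
    aeval w n1 * aeval w' n0 = aeval w' n1 * aeval w n0 ∧
    (aeval w m1 + (s • w + s ^ 2 • w ^ 2 + s ^ 3 • v)) * aeval w' m0 =
      (aeval w' m1 + (s • w' + s ^ 2 • w' ^ 2 + s ^ 3 • v')) * aeval w m0

/-- The equation of the fibre of the first function. -/
noncomputable def GG : ℂ[X][X] := C n1 * n0.map C - n1.map C * C n0

variable {n0 n1 m0 m1}

theorem sol_map {s : ℂ} {K L : Type} [CommRing K] [Algebra ℂ K] [CommRing L] [Algebra ℂ L]
    (g : K →ₐ[ℂ] L) (hg : Function.Injective g) {w v w' v' : K} :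
    Sol n0 n1 m0 m1 s (g w) (g v) (g w') (g v') ↔ Sol n0 n1 m0 m1 s w v w' v' := by
  simp only [Sol, aeval_algHom_apply, ← map_pow, ← map_sub, ← map_mul, ← map_smul, ← map_add,
    hg.eq_iff, ne_eq, map_eq_zero_iff g hg]

theorem finite_sq {K : Type} [CommRing K] [IsDomain K] (c : K) : {v | v ^ 2 = c}.Finite :=
  (finite_setOfPred_isRoot (X_pow_sub_C_ne_zero two_pos c)).subset fun v hv => by
    simpa [sub_eq_zero] using hv

theorem GG_ne {w0 : ℂ} (h0 : n0 ≠ 0) (h1 : n0.eval w0 = 0) (h2 : n1.eval w0 ≠ 0) :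
    GG n0 n1 ≠ 0 := fun h => by
  have := congrArg (eval (C w0)) h
  simp [GG, eval_map, eval₂_at_apply, h0, h1, h2] at this

instance : FaithfulSMul ℂ[X] (AlgebraicClosure (RatFunc ℂ)) := .trans _ (RatFunc ℂ) _

section

variable {L : Type} [Field L] [Algebra ℂ[X] L] [Algebra ℂ L] [IsScalarTower ℂ ℂ[X] L]

theorem aeval_x (p : ℂ[X]) : aeval (algebraMap ℂ[X] L X) p = algebraMap ℂ[X] L p := by
  rw [aeval_algebraMap_apply, aeval_X_left_apply]

theorem Sol.root {s : ℂ} {v w' v' : L} (h : Sol n0 n1 m0 m1 s (algebraMap ℂ[X] L X) v w' v') :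
    aeval w' (GG n0 n1) = 0 := by
  have := h.2.2.2.2.1
  rw [aeval_x, aeval_x] at this
  rw [GG, ← algebraMap_eq (R := ℂ), map_sub, map_mul, map_mul, aeval_map_algebraMap,
    aeval_map_algebraMap, aeval_C, aeval_C, this, sub_self]

theorem finite_gen [FaithfulSMul ℂ[X] L] (hG : GG n0 n1 ≠ 0) (hm : m0 ≠ 0) :
    {s | ∃ v w' v', Sol n0 n1 m0 m1 s (algebraMap ℂ[X] L X) v w' v'}.Finite := by
  have inj := FaithfulSMul.algebraMap_injective ℂ[X] L
  set x := algebraMap ℂ[X] L X with hx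
  have x0 : x ≠ 0 := (map_ne_zero_iff _ inj).2 X_ne_zero
  have hm' : aeval x m0 ≠ 0 := by rw [aeval_x]; exact (map_ne_zero_iff _ inj).2 hm
  have key : ∀ v w' v', {s | Sol n0 n1 m0 m1 s x v w' v'}.Finite := fun v w' v' => by
    rcases Set.eq_empty_or_nonempty {s | Sol n0 n1 m0 m1 s x v w' v'} with e | ⟨_, -, -, a1, a2, -⟩
    · rw [e]; exact Set.finite_empty
    set a := aeval x m0
    set b := aeval w' m0
    have hp : (C (aeval x m1 * b - aeval w' m1 * a) + monomial 1 (x * b - w' * a) +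
        monomial 2 (x ^ 2 * b - w' ^ 2 * a) + monomial 3 (v * b - v' * a) : L[X]) ≠ 0 := fun e => by
      have e1 := congrArg (coeff · 1) e
      have e2 := congrArg (coeff · 2) e
      have e3 := congrArg (coeff · 3) e
      simp [coeff_monomial, - map_sub, - map_mul] at e1 e2 e3
      have e4 : a = b := by
        refine mul_right_cancel₀ (mul_ne_zero a2 (pow_ne_zero 2 x0)) ?_
        linear_combination a * e2 - (x * b + w' * a) * e1
      exact a1 ⟨mul_right_cancel₀ hm' (by linear_combination -e1 - x * e4),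
        mul_right_cancel₀ hm' (by linear_combination -e3 - v * e4)⟩
    refine ((finite_setOfPred_isRoot hp).preimage (algebraMap ℂ L).injective.injOn).subset
      fun s hs => ?_
    have := hs.2.2.2.2.2
    simp only [Algebra.smul_def, map_pow] at this
    simp only [Set.mem_preimage, Set.mem_ofPred_eq, IsRoot, eval_add, eval_C, eval_monomial]
    linear_combination this
  refine ((finite_sq (x ^ 3 - x)).biUnion fun v _ => (rootSet_finite (GG n0 n1) L).biUnion
    fun w' _ => (finite_sq (w' ^ 3 - w')).biUnion fun v' _ => key v w' v').subset ?_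
  rintro s ⟨v, w', v', h⟩
  simp only [Set.mem_iUnion]
  exact ⟨v, h.1, w', mem_rootSet.2 ⟨hG, h.root⟩, v', h.2.1, h⟩

/-- Transfer to the algebraic closure of the field of rational functions. -/
theorem sol_lift [FaithfulSMul ℂ[X] L] (hG : GG n0 n1 ≠ 0) {s : ℂ} {v w' v' : L}
    (h : Sol n0 n1 m0 m1 s (algebraMap ℂ[X] L X) v w' v') :
    ∃ v w' v', Sol n0 n1 m0 m1 s (algebraMap ℂ[X] (AlgebraicClosure (RatFunc ℂ)) X) v w' v' := by
  let S := Subalgebra.algebraicClosure ℂ[X] L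
  have k : ∀ {x y : L}, x ∈ S → y ^ 2 = x ^ 3 - x → y ∈ S := fun hx e =>
    IsAlgebraic.of_pow two_pos (e ▸ S.sub_mem (S.pow_mem hx 3) hx)
  have h1 : w' ∈ S := ⟨_, hG, h.root⟩
  have h2 : Sol n0 n1 m0 m1 s (algebraMap ℂ[X] S X) ⟨v, k (S.algebraMap_mem X) h.1⟩ ⟨w', h1⟩
      ⟨v', k h1 h.2.1⟩ := (sol_map (S.val.restrictScalars ℂ) Subtype.val_injective).1 h
  let g : S →ₐ[ℂ[X]] AlgebraicClosure (RatFunc ℂ) := IsAlgClosed.lift
  have hg : Function.Injective g := (injective_iff_map_eq_zero g).2 fun x hx => by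
    by_contra c
    obtain ⟨r, r0, e⟩ := (Algebra.IsAlgebraic.isAlgebraic (R := ℂ[X]) x).exists_nonzero_dvd
      (mem_nonZeroDivisors_of_ne_zero c)
    have := map_dvd g e
    rw [hx, zero_dvd_iff, g.commutes, FaithfulSMul.algebraMap_eq_zero_iff] at this
    exact r0 this
  have h3 := (sol_map (g.restrictScalars ℂ) hg).2 h2
  rw [AlgHom.restrictScalars_apply, AlgHom.commutes] at h3
  exact ⟨_, _, _, h3⟩

end

theorem finite_fib (p : ℂ[X]) (hp : p ≠ 0) :
    {z : ℂ × ℂ | z.2 ^ 2 = z.1 ^ 3 - z.1 ∧ p.eval z.1 = 0}.Finite :=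
  ((finite_setOfPred_isRoot hp).biUnion fun w _ =>
    (finite_sq (w ^ 3 - w)).image fun v => (w, v)).subset fun z hz => by
      simp only [Set.mem_iUnion]
      exact ⟨z.1, hz.2, z.2, hz.1, rfl⟩

theorem sol_gen (hG : GG n0 n1 ≠ 0) {s : ℂ}
    (h : {z : ℂ × ℂ | ∃ w' v', Sol n0 n1 m0 m1 s z.1 z.2 w' v'}.Infinite) :
    ∃ v w' v', Sol n0 n1 m0 m1 s (algebraMap ℂ[X] (AlgebraicClosure (RatFunc ℂ)) X) v w' v' := by
  let z := h.natEmbedding
  choose w' v' hz using fun n => (z n).2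
  let K := Germ (hyperfilter ℕ : Filter ℕ) ℂ
  let ρ : (ℕ → ℂ) →+* K := Germ.coeRingHom _
  let _ : Algebra ℂ K := (ρ.comp (algebraMap ℂ _)).toAlgebra
  let π : (ℕ → ℂ) →ₐ[ℂ] K := ⟨ρ, fun _ => rfl⟩
  have hπ : ∀ a b, π a = π b ↔ ∀ᶠ n in hyperfilter ℕ, a n = b n := fun _ _ => Germ.coe_eq
  let w : ℕ → ℂ := fun n => (z n).1.1
  let v : ℕ → ℂ := fun n => (z n).1.2
  let _ : Algebra ℂ[X] K := (aeval (π w)).toRingHom.toAlgebra
  have : IsScalarTower ℂ ℂ[X] K := .of_algebraMap_eq fun c => ((aeval (π w)).commutes c).symm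
  have : FaithfulSMul ℂ[X] K := by
    rw [faithfulSMul_iff_algebraMap_injective, injective_iff_map_eq_zero]
    intro p hp
    by_contra c
    have h1 : aeval (π w) p = π 0 := hp.trans (map_zero π).symm
    rw [aeval_algHom_apply, hπ] at h1
    refine ((finite_fib p c).preimage
      (Subtype.val_injective.comp z.injective).injOn).notMem_hyperfilter (h1.mono fun n hn => ?_)
    exact ⟨(hz n).1, by simpa [aeval_fn_apply] using hn⟩
  refine sol_lift (L := K) hG (v := π v) (w' := π w') (v' := π v') ?_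
  rw [show algebraMap ℂ[X] K X = π w from aeval_X _]
  simp only [Sol, aeval_algHom_apply, ← map_pow, ← map_sub, ← map_mul, ← map_smul, ← map_add, hπ]
  refine ⟨.of_forall fun n => (hz n).1, .of_forall fun n => (hz n).2.1, fun ⟨a, b⟩ => ?_,
    fun a => ?_, .of_forall fun n => ?_, .of_forall fun n => ?_⟩
  · obtain ⟨n, hn⟩ := (a.and b).exists
    exact (hz n).2.2.1 hn
  · obtain ⟨n, hn⟩ := ((hπ _ 0).1 (a.trans (map_zero π).symm)).exists
    exact (hz n).2.2.2.1 (by simpa [aeval_fn_apply] using hn)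
  · simpa [aeval_fn_apply] using (hz n).2.2.2.2.1
  · simpa [aeval_fn_apply] using (hz n).2.2.2.2.2

/-- For all but finitely many parameters there are only finitely many bad points. -/
theorem finite_bad {w0 : ℂ} (h0 : n0 ≠ 0) (h1 : n0.eval w0 = 0) (h2 : n1.eval w0 ≠ 0)
    (hm : m0 ≠ 0) :
    {s | {z : ℂ × ℂ | ∃ w' v', Sol n0 n1 m0 m1 s z.1 z.2 w' v'}.Infinite}.Finite :=
  (finite_gen (GG_ne h0 h1 h2) hm).subset fun _ hs => sol_gen (GG_ne h0 h1 h2) hs

end Pool.Agent.Lib.MP_879098_ag.Ell
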