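import Pool.Agent.Lib.MP_879098_ag.EllA

/-! Morphisms from the cubic `y^2 z = x^3 - x z^2` to projective space. -/

namespace Pool.Agent.Lib.MP_879098_ag.Ell

open Polynomial hiding C X eval_X eval_C

variable {n : ℕ} {P : Fin (n + 1) → ℂ[X]} {D : ℕ} {t : VV n} {u : VV 2} {x : PP 2}

open Classical in
/-- The map of the cubic with affine coordinates `P(w) + v t`. -/
noncomputable def mu (P : Fin (n + 1) → ℂ[X]) (D : ℕ) (t : VV n) (x : PP 2) : PP n :=
  if x.rep 2 = 0 then toP (ptop P D)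
  else toP (pev P (x.rep 0 / x.rep 2) + (x.rep 1 / x.rep 2) • t)

theorem mu_aff (h : Rep u x) (h2 : u 2 ≠ 0) :
    mu P D t x = toP (pev P (u 0 / u 2) + (u 1 / u 2) • t) := by
  obtain ⟨s, hs, e⟩ := h.exists_smul (rep_rep x)
  simp [mu, e, hs, h2, mul_div_mul_left _ _ hs]

theorem mu_inf (h : Rep u x) (h2 : u 2 = 0) : mu P D t x = toP (ptop P D) := by
  obtain ⟨s, hs, e⟩ := h.exists_smul (rep_rep x)
  simp [mu, e, h2]

theorem mem_cubic (h : Rep u x) :
    x ∈ cubic (-1) 0 ↔ u 1 ^ 2 * u 2 = u 0 ^ 3 - u 0 * u 2 ^ 2 := by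
  refine ⟨fun g => by linear_combination g u h, fun g w hw => ?_⟩
  obtain ⟨s, -, rfl⟩ := h.exists_smul hw
  simp only [Pi.smul_apply, smul_eq_mul]
  linear_combination s ^ 3 * g

theorem cubic_aff (h : u 1 ^ 2 * u 2 = u 0 ^ 3 - u 0 * u 2 ^ 2) (h2 : u 2 ≠ 0) :
    (u 1 / u 2) ^ 2 = (u 0 / u 2) ^ 3 - u 0 / u 2 := by
  field_simp
  linear_combination h

theorem cubic_inf (h : u 1 ^ 2 * u 2 = u 0 ^ 3 - u 0 * u 2 ^ 2) (h2 : u 2 = 0) : u 0 = 0 := by
  simpa [h2] using h.symm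

/-- A polynomial made homogeneous and evaluated at two forms. -/
noncomputable def hom (p : ℂ[X]) (D : ℕ) (A B : MvPolynomial (Fin 3) ℂ) : MvPolynomial (Fin 3) ℂ :=
  ∑ j ∈ Finset.range (D + 1), MvPolynomial.C (p.coeff j) * A ^ j * B ^ (D - j)

variable {A B : MvPolynomial (Fin 3) ℂ} {p : ℂ[X]}

theorem hom_isHomogeneous {k : ℕ} (hA : A.IsHomogeneous k) (hB : B.IsHomogeneous k) :
    (hom p D A B).IsHomogeneous (k * D) := .sum _ _ _ fun j hj => by
  convert ((MvPolynomial.isHomogeneous_C _ _).mul (hA.pow j)).mul (hB.pow (D - j)) using 1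
  rw [zero_add, ← mul_add, Nat.add_sub_cancel' (Finset.mem_range_succ_iff.1 hj)]

theorem eval_hom (hp : p.natDegree ≤ D) {w : ℂ}
    (h : MvPolynomial.eval u A = MvPolynomial.eval u B * w) :
    MvPolynomial.eval u (hom p D A B) = MvPolynomial.eval u B ^ D * p.eval w := by
  rw [hom, map_sum, eval_eq_sum_range' (Nat.lt_succ_of_le hp), Finset.mul_sum]
  refine Finset.sum_congr rfl fun j hj => ?_
  obtain ⟨k, rfl⟩ := Nat.exists_eq_add_of_le (Finset.mem_range_succ_iff.1 hj)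
  simp only [map_mul, map_pow, MvPolynomial.eval_C, h, Nat.add_sub_cancel_left]
  ring

theorem eval_hom_zero (h : MvPolynomial.eval u B = 0) :
    MvPolynomial.eval u (hom p D A B) = MvPolynomial.eval u A ^ D * p.coeff D := by
  rw [hom, map_sum, Finset.sum_range_succ, Finset.sum_eq_zero fun j hj => ?_]
  · simp [mul_comm]
  · simp [h, Nat.sub_ne_zero_of_lt (Finset.mem_range.1 hj)]

open MvPolynomial in
theorem isMorphism_mu (hd : ∀ i, (P i).natDegree ≤ D) (ht : t = 0 ∨ 3 ≤ D)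
    (h : ∀ w v, v ^ 2 = w ^ 3 - w → pev P w + v • t ≠ 0) (htop : ptop P D ≠ 0) :
    IsMorphism (cubic (-1) 0) (mu P D t) := by
  intro x hx
  have hX : ∀ i : Fin 3, (X i : MvPolynomial (Fin 3) ℂ).IsHomogeneous 1 := isHomogeneous_X ℂ
  have hom' : ∀ (i k : ℕ) (j : Fin (n + 1)) (F : MvPolynomial (Fin 3) ℂ), F.IsHomogeneous i →
      (3 ≤ D → i = k) → (C (t j) * F).IsHomogeneous k := fun i k j F h1 h2 => by
    rcases ht with rfl | ht
    · simpa using isHomogeneous_zero _ _ k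
    · exact h2 ht ▸ h1.C_mul _
  have aff : ∀ {y u}, y ∈ cubic (-1) 0 → Rep u y → u 2 ≠ 0 → ∀ c : ℂ, c ≠ 0 →
      Rep (c • (pev P (u 0 / u 2) + (u 1 / u 2) • t)) (mu P D t y) := fun h1 h2 h3 c hc => by
    rw [mu_aff h2 h3]
    exact (rep_toP (h _ _ (cubic_aff ((mem_cubic h2).1 h1) h3))).smul hc
  by_cases h2 : x.rep 2 = 0
  · have hA : (X 1 ^ 2 + X 0 * X 2 : MvPolynomial (Fin 3) ℂ).IsHomogeneous 2 :=
      ((hX 1).pow 2).add ((hX 0).mul (hX 2))
    refine ⟨2 * D, 1, fun i => hom (P i) D (X 1 ^ 2 + X 0 * X 2) (X 0 ^ 2) +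
      C (t i) * ((X 1 ^ 2 + X 0 * X 2) * X 0 ^ (2 * D - 3) * X 1), X 1,
      fun i => (hom_isHomogeneous hA ((hX 0).pow 2)).add (hom' _ _ _ _
        ((hA.mul ((hX 0).pow _)).mul (hX 1)) (by omega)), hX 1, fun c => x.rep_nonzero ?_,
      fun y hy u hu h1 => ?_⟩
    · have h1 : x.rep 1 = 0 := by simpa using c _ (rep_rep x) _ rfl
      ext k
      fin_cases k
      exacts [cubic_inf ((mem_cubic (rep_rep x)).1 hx) h2, h1, h2]
    rw [eval_X] at h1
    have hc := (mem_cubic hu).1 hy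
    by_cases h3 : u 2 = 0
    · have h0 := cubic_inf hc h3
      rw [mu_inf hu h3]
      convert (rep_toP htop).smul (pow_ne_zero D (pow_ne_zero 2 h1)) using 2 with i
      rw [map_add, eval_hom_zero (by simp [h0])]
      rcases ht with rfl | ht
      · simp [h0, ptop]
      · simp [h0, ptop, show 2 * D - 3 ≠ 0 by omega]
    · have h0 : u 0 ≠ 0 := fun e => by simp [e, h1, h3] at hc
      have e : u 1 ^ 2 + u 0 * u 2 = u 0 ^ 2 * (u 0 / u 2) := by
        field_simp
        linear_combination hc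
      convert aff hy hu h3 _ (pow_ne_zero D (pow_ne_zero 2 h0)) using 2 with i
      rw [map_add, eval_hom (hd i) (w := u 0 / u 2) (by simpa using e)]
      rcases ht with rfl | ht
      · simp [pev]
      · obtain ⟨k, hk⟩ : ∃ k, 2 * D = k + 3 := ⟨2 * D - 3, by omega⟩
        simp only [map_mul, map_pow, map_add, eval_X, eval_C, e, ← pow_mul, hk, pev,
          Nat.add_sub_cancel, Pi.smul_apply, Pi.add_apply, smul_eq_mul]
        ring
  · refine ⟨1 * D, 1, fun i => hom (P i) D (X 0) (X 2) + C (t i) * (X 1 * X 2 ^ (D - 1)), X 2,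
      fun i => (hom_isHomogeneous (hX 0) (hX 2)).add (hom' _ _ _ _
        ((hX 1).mul ((hX 2).pow _)) (by omega)), hX 2,
      fun c => h2 (by simpa using c _ (rep_rep x) _ rfl), fun y hy u hu h3 => ?_⟩
    rw [eval_X] at h3
    convert aff hy hu h3 _ (pow_ne_zero D h3) using 2 with i
    rw [map_add, eval_hom (hd i) (w := u 0 / u 2) (by simp [mul_div_cancel₀ _ h3])]
    rcases ht with rfl | ht
    · simp [pev]
    · obtain ⟨k, rfl⟩ : ∃ k, D = k + 1 := ⟨D - 1, by omega⟩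
      simp only [map_mul, map_pow, eval_X, eval_C, pev, Nat.add_sub_cancel, Pi.smul_apply,
        Pi.add_apply, smul_eq_mul]
      field_simp
      ring

theorem ne_aff (w v : ℂ) : (![w, v, 1] : VV 2) ≠ 0 := fun h => by simpa using congrFun h 2

theorem ne_inf : (![0, 1, 0] : VV 2) ≠ 0 := fun h => by simpa using congrFun h 1

theorem mu_toP (w v : ℂ) : mu P D t (toP ![w, v, 1]) = toP (pev P w + v • t) := by
  simp [mu_aff (rep_toP (ne_aff w v))]

theorem mu_top : mu P D t (toP ![0, 1, 0]) = toP (ptop P D) := mu_inf (rep_toP ne_inf) rfl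

theorem cubic_cases (hx : x ∈ cubic (-1) 0) :
    x = toP ![0, 1, 0] ∨ ∃ w v, v ^ 2 = w ^ 3 - w ∧ x = toP ![w, v, 1] := by
  have hc := (mem_cubic (rep_rep x)).1 hx
  by_cases h2 : x.rep 2 = 0
  · have h0 := cubic_inf hc h2
    have e : x.rep = x.rep 1 • ![0, 1, 0] := by
      ext k
      fin_cases k <;> simp [h0, h2]
    exact .inl ((rep_rep x).eq (e ▸ (rep_toP ne_inf).smul fun c =>
      x.rep_nonzero (by rw [e, c, zero_smul])))
  · refine .inr ⟨_, _, cubic_aff hc h2, (rep_rep x).eq ?_⟩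
    convert (rep_toP (ne_aff _ _)).smul h2 using 1
    ext k
    fin_cases k <;> simp [mul_div_cancel₀ _ h2]

end Pool.Agent.Lib.MP_879098_ag.Ell
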