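import Pool.Agent.Lib.MP_879098_ag.SDefs

/-! Smooth elliptic curves in a product of two projective spaces. -/

namespace Pool.Agent.Lib.MP_879098_ag

open Filter Topology

/-- The map `(μ, ν)` is an immersion of `X`: if the image of a holomorphic arc in `X` has velocity
zero in both factors, then the arc has velocity zero. Arcs are written with analytic vectors of
homogeneous coordinates `F`, `G`, `H`; velocity zero means that the derivative is a multiple of
the value. -/
def IsImmersion {n a b : ℕ} (X : Set (PP n)) (μ : PP n → PP a) (ν : PP n → PP b) : Prop :=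
  ∀ (f : ℂ → PP n) (F : ℂ → Fin (n + 1) → ℂ) (G : ℂ → Fin (a + 1) → ℂ) (H : ℂ → Fin (b + 1) → ℂ),
    AnalyticAt ℂ F 0 → AnalyticAt ℂ G 0 → AnalyticAt ℂ H 0 →
    (∀ᶠ w in 𝓝 0, f w ∈ X ∧ Rep (F w) (f w) ∧ Rep (G w) (μ (f w)) ∧ Rep (H w) (ν (f w))) →
    (∃ s : ℂ, deriv G 0 = s • G 0) → (∃ t : ℂ, deriv H 0 = t • H 0) → ∃ r : ℂ, deriv F 0 = r • F 0

/-- A smooth elliptic curve in a product of two projective spaces: the image of a smooth
Weierstrass cubic under an embedding, that is, an injective morphism which is an immersion. -/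
def IsSmoothElliptic {a b : ℕ} (C : Set (PP a × PP b)) : Prop :=
  ∃ (A B : ℂ) (μ : PP 2 → PP a) (ν : PP 2 → PP b), 4 * A ^ 3 + 27 * B ^ 2 ≠ 0 ∧
    IsMorphism (cubic A B) μ ∧ IsMorphism (cubic A B) ν ∧
    Set.InjOn (fun x => (μ x, ν x)) (cubic A B) ∧ IsImmersion (cubic A B) μ ν ∧
    C = (fun x => (μ x, ν x)) '' cubic A B

/-- In every Euclidean open neighbourhood `U` of `Y`, any two points of `Y` are joined by a chain
of smooth elliptic curves contained in `U`. -/
def NaiveConn {a b : ℕ} (Y : Set (PP a × PP b)) : Prop :=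
  ∀ U : Set (PP a × PP b), IsOpen (hat U) → Y ⊆ U → ∀ x ∈ Y, ∀ y ∈ Y,
    Relation.TransGen (fun p q => ∃ C, IsSmoothElliptic C ∧ C ⊆ U ∧ p ∈ C ∧ q ∈ C) x y

/-- The image of `X` under every injective morphism to a product of two projective spaces (in
particular under every embedding) is naively approximately elliptically connected. -/
def StrongConn {n : ℕ} (X : Set (PP n)) : Prop :=
  ∀ (a b : ℕ) (j : PP n → PP a) (k : PP n → PP b), IsMorphism X j → IsMorphism X k →
    Set.InjOn (fun x => (j x, k x)) X → NaiveConn ((fun x => (j x, k x)) '' X)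

end Pool.Agent.Lib.MP_879098_ag
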