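import Pool.Agent.Lib.MP_879098_ag.Tools

/-! Rational curves in the plane and in the product of two lines meet. -/

namespace Pool.Agent.Lib.MP_879098_ag.H66

open Polynomial

theorem res_ne {f g : ℂ[X]} {m n : ℕ} (hf : f.natDegree ≤ m) (hg : g.natDegree ≤ n)
    (h : ∀ w, ¬ (f.eval w = 0 ∧ g.eval w = 0)) (ht : ¬ (f.coeff m = 0 ∧ g.coeff n = 0)) :
    resultant f g m n ≠ 0 := by
  have c := resultant_ne_zero f g ((isCoprime_iff_aeval_ne_zero_of_isAlgClosed ℂ ℂ f g).2 fun w => by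
    simpa only [coe_aeval_eq_eval, not_and_or] using h w)
  replace ht := not_and_or.1 ht
  rcases ht with ht | ht
  · obtain rfl := le_antisymm hf (le_natDegree_of_ne_zero ht)
    obtain ⟨k, rfl⟩ := Nat.exists_eq_add_of_le hg
    rw [resultant_add_right_deg _ _ _ _ _ le_rfl]
    exact mul_ne_zero (pow_ne_zero _ ht) c
  · obtain rfl := le_antisymm hg (le_natDegree_of_ne_zero ht)
    obtain ⟨k, rfl⟩ := Nat.exists_eq_add_of_le hf
    rw [resultant_add_left_deg _ _ _ _ _ le_rfl]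
    exact mul_ne_zero (mul_ne_zero (pow_ne_zero _ (by norm_num)) (pow_ne_zero _ ht)) c

theorem deg0 {F G H : ℂ[X]} {N : ℕ} (hF : ∀ z, F.eval z ≠ 0)
    (h : ∀ u : ℂ, u ≠ 0 → G.eval u = u ^ N * H.eval u * F.eval u⁻¹) (h0 : G.eval 0 ≠ 0) :
    N = 0 := by
  have : F.degree = 0 := by
    by_contra c
    obtain ⟨z, hz⟩ := IsAlgClosed.exists_root _ c
    exact hF z hz
  rw [eq_C_of_degree_eq_zero this] at h
  have e : G = X ^ N * H * C (F.coeff 0) := eq_of_infinite_eval_eq _ _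
    ((Set.finite_singleton (0 : ℂ)).infinite_compl.mono fun u hu => by simpa using h u hu)
  by_contra c
  exact h0 (by simp [e, c])

section

variable {A B : Type} [CommRing A] [CommRing B] {n : ℕ}

/-- a minor -/
noncomputable def ln (P : Fin (n + 1) → A[X]) (y : Fin (n + 1) → A) (i j : Fin (n + 1)) : A[X] :=
  C (y i) * P j - C (y j) * P i

theorem ln_map (φ : A →+* B) (P : Fin (n + 1) → A[X]) (y : Fin (n + 1) → A) (i j : Fin (n + 1)) :
    (ln P y i j).map φ = ln (fun i => (P i).map φ) (fun i => φ (y i)) i j := by simp [ln]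

theorem ln_smul (P : Fin (n + 1) → A[X]) (y : Fin (n + 1) → A) (s : A) (i j : Fin (n + 1)) :
    ln P (s • y) i j = C s * ln P y i j := by
  simp only [ln, Pi.smul_apply, smul_eq_mul, map_mul]
  ring

theorem ln_deg {P : Fin (n + 1) → A[X]} {d : ℕ} (h : ∀ i, (P i).natDegree ≤ d)
    (y : Fin (n + 1) → A) (i j : Fin (n + 1)) : (ln P y i j).natDegree ≤ d :=
  (natDegree_sub_le _ _).trans
    (max_le ((natDegree_C_mul_le _ _).trans (h _)) ((natDegree_C_mul_le _ _).trans (h _)))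

theorem eval_res {m : ℕ} (P Y : Fin (n + 1) → ℂ[X]) (Q Z : Fin (m + 1) → ℂ[X]) (i j : Fin (n + 1))
    (k l : Fin (m + 1)) (d e : ℕ) (z : ℂ) :
    (resultant (ln (fun i => (P i).map C) Y i j) (ln (fun i => (Q i).map C) Z k l) d e).eval z =
      resultant (ln P (pev Y z) i j) (ln Q (pev Z z) k l) d e := by
  have k : ∀ p : ℂ[X], (p.map (C : ℂ →+* ℂ[X])).map (evalRingHom z) = p := fun p => by
    rw [Polynomial.map_map, show (evalRingHom z).comp C = RingHom.id ℂ from
      RingHom.ext fun a => by simp, Polynomial.map_id]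
  refine (resultant_map_map _ _ _ _ (evalRingHom z)).symm.trans ?_
  rw [ln_map, ln_map, funext fun i => k (P i), funext fun i => k (Q i)]
  rfl

theorem res_one {P : Fin (n + 1) → A[X]} {d : ℕ} (h : ∀ i, (P i).natDegree ≤ d)
    (y : Fin (n + 1) → A) (i j k : Fin (n + 1)) :
    y j ^ d * resultant (ln P y i j) (ln P y i k) d d =
      y i ^ d * ((-1) ^ d * resultant (ln P y j i) (ln P y j k) d d) := by
  rw [← resultant_C_mul_right, ← resultant_C_mul_left, ← resultant_C_mul_right,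
    show C (-1) * ln P y j i = ln P y i j by simp [ln],
    show C (y j) * ln P y i k = C (y i) * ln P y j k + ln P y i j * C (y k) by
      simp only [ln]; ring,
    resultant_add_mul_right _ _ _ _ _ (by simp) (ln_deg h _ _ _)]

end

theorem reflect_pev {n : ℕ} {Y : Fin (n + 1) → ℂ[X]} {e : ℕ} (h : ∀ i, (Y i).natDegree ≤ e)
    {u : ℂ} (hu : u ≠ 0) : pev (fun i => reflect e (Y i)) u = u ^ e • pev Y u⁻¹ := by
  rw [pev_reflect Y e h (inv_ne_zero hu), inv_inv, smul_smul, ← mul_pow, mul_inv_cancel₀ hu,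
    one_pow, one_smul]

/-- two curves in the product of two lines -/
theorem meet_one {P P' Q Q' : Fin (1 + 1) → ℂ[X]} {d d' e e' : ℕ} (hP : ∀ i, (P i).natDegree ≤ d)
    (hQ : ∀ i, (Q i).natDegree ≤ e) (hP' : ∀ i, (P' i).natDegree ≤ d')
    (hQ' : ∀ i, (Q' i).natDegree ≤ e')
    (h : ∀ u v u' v' : VV 1, ((∃ w, u = pev P w ∧ v = pev Q w) ∨ (u = ptop P d ∧ v = ptop Q e)) →
      ((∃ w, u' = pev P' w ∧ v' = pev Q' w) ∨ (u' = ptop P' d' ∧ v' = ptop Q' e')) →
      ¬ (u' 0 * u 1 = u' 1 * u 0 ∧ v' 0 * v 1 = v' 1 * v 0)) : d' * e + e' * d = 0 := by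
  have k : ∀ u' v' : VV 1,
      ((∃ w, u' = pev P' w ∧ v' = pev Q' w) ∨ (u' = ptop P' d' ∧ v' = ptop Q' e')) →
      resultant (ln P u' 0 1) (ln Q v' 0 1) d e ≠ 0 := fun u' v' g =>
    res_ne (ln_deg hP _ _ _) (ln_deg hQ _ _ _)
      (fun w => by simpa [ln, sub_eq_zero, pev] using h _ _ _ _ (.inl ⟨w, rfl, rfl⟩) g)
      (by simpa [ln, sub_eq_zero, ptop] using h _ _ _ _ (.inr ⟨rfl, rfl⟩) g)
  refine deg0 (H := 1)
    (F := resultant (ln (fun i => (P i).map C) P' 0 1) (ln (fun i => (Q i).map C) Q' 0 1) d e)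
    (G := resultant (ln (fun i => (P i).map C) (fun i => reflect d' (P' i)) 0 1)
      (ln (fun i => (Q i).map C) (fun i => reflect e' (Q' i)) 0 1) d e)
    (fun z => ?_) (fun u hu => ?_) ?_
  · rw [eval_res]
    exact k _ _ (.inl ⟨z, rfl, rfl⟩)
  · rw [eval_res, eval_res, reflect_pev hP' hu, reflect_pev hQ' hu, ln_smul, ln_smul,
      resultant_C_mul_left, resultant_C_mul_right, eval_one]
    ring
  · rw [eval_res, pev_reflect_zero, pev_reflect_zero]
    exact k _ _ (.inr ⟨rfl, rfl⟩)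

/-- two curves in the plane -/
theorem meet_two {P Y : Fin (2 + 1) → ℂ[X]} {d e : ℕ} (hP : ∀ i, (P i).natDegree ≤ d)
    (hY : ∀ i, (Y i).natDegree ≤ e) (h0 : ∀ z, pev Y z ≠ 0) (h1 : ptop Y e ≠ 0)
    (h : ∀ u y : VV 2, ((∃ w, u = pev P w) ∨ u = ptop P d) → ((∃ w, y = pev Y w) ∨ y = ptop Y e) →
      ¬ ∀ i j, y i * u j = y j * u i) : e * d = 0 := by
  classical
  have k : ∀ (y : VV 2) (i j k : Fin (2 + 1)), (∀ l, l = i ∨ l = j ∨ l = k) →
      ((∃ w, y = pev Y w) ∨ y = ptop Y e) → y i ≠ 0 →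
      resultant (ln P y i j) (ln P y i k) d d ≠ 0 := fun y i j k c g hi => by
    have m : ∀ u : VV 2, y i * u j = y j * u i → y i * u k = y k * u i →
        ∀ a b, y a * u b = y b * u a := fun u a1 a2 a b => by
      have a3 : ∀ l, y i * u l = y l * u i := fun l => by
        rcases c l with rfl | rfl | rfl
        exacts [rfl, a1, a2]
      exact mul_left_cancel₀ hi (by linear_combination y a * a3 b - y b * a3 a)
    exact res_ne (ln_deg hP _ _ _) (ln_deg hP _ _ _)
      (fun w ⟨a1, a2⟩ => h _ _ (.inl ⟨w, rfl⟩) g (m _ (by simpa [ln, sub_eq_zero, pev] using a1)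
        (by simpa [ln, sub_eq_zero, pev] using a2)))
      (fun ⟨a1, a2⟩ => h _ _ (.inr rfl) g (m _ (by simpa [ln, sub_eq_zero, ptop] using a1)
        (by simpa [ln, sub_eq_zero, ptop] using a2)))
  obtain ⟨i, hi⟩ := Function.ne_iff.1 h1
  obtain ⟨j, l, c⟩ : ∃ j l : Fin (2 + 1), ∀ x, x = i ∨ x = j ∨ x = l :=
    (by decide : ∀ i : Fin (2 + 1), ∃ j l : Fin (2 + 1), ∀ x, x = i ∨ x = j ∨ x = l) i
  have hi0 : Y i ≠ 0 := fun g => hi (by simp [ptop, g])
  set P' : Fin (2 + 1) → ℂ[X][X] := fun i => (P i).map C with hP'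
  have dP : ∀ i, (P' i).natDegree ≤ d := fun i => natDegree_map_le.trans (hP i)
  have r1 := res_one dP Y i j l
  have r2 := res_one dP Y i l j
  rw [resultant_comm (ln P' Y i l)] at r2
  set R := resultant (ln P' Y i j) (ln P' Y i l) d d with hR
  have cop : IsCoprime (Y i ^ d) (EuclideanDomain.gcd (Y j ^ d) (Y l ^ d)) := by
    refine (isCoprime_iff_aeval_ne_zero_of_isAlgClosed ℂ ℂ _ _).2 fun z => ?_
    by_contra! g
    simp only [coe_aeval_eq_eval, eval_pow] at g
    have g1 := eval_eq_zero_of_dvd_of_eval_eq_zero (EuclideanDomain.gcd_dvd_left _ _) g.2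
    have g2 := eval_eq_zero_of_dvd_of_eval_eq_zero (EuclideanDomain.gcd_dvd_right _ _) g.2
    rw [eval_pow] at g1 g2
    refine h0 z (funext fun x => ?_)
    rcases c x with rfl | rfl | rfl
    exacts [eq_zero_of_pow_eq_zero g.1, eq_zero_of_pow_eq_zero g1, eq_zero_of_pow_eq_zero g2]
  have sq : ((-1 : ℂ[X]) ^ (d * d)) * (-1) ^ (d * d) = 1 := by rw [← mul_pow]; simp
  obtain ⟨F, hF⟩ : Y i ^ d ∣ R := by
    refine cop.dvd_of_dvd_mul_left ?_
    rw [EuclideanDomain.gcd_eq_gcd_ab, add_mul, mul_right_comm, mul_right_comm (Y l ^ d), r1]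
    refine dvd_add ((dvd_mul_right _ _).mul_right _) (Dvd.dvd.mul_right ?_ _)
    rw [show Y l ^ d * R = (-1) ^ (d * d) * (Y l ^ d * ((-1) ^ (d * d) * R)) by
      linear_combination (-Y l ^ d * R) * sq, r2]
    exact (dvd_mul_right _ _).mul_left _
  refine deg0 (F := F) (H := reflect e (Y i) ^ d)
    (G := resultant (ln P' (fun i => reflect e (Y i)) i j) (ln P' (fun i => reflect e (Y i)) i l)
      d d) (fun z g => ?_) (fun u hu => ?_) ?_
  · obtain ⟨x, hx⟩ := Function.ne_iff.1 (h0 z)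
    rcases c x with rfl | rfl | rfl
    · refine k _ x j l c (.inl ⟨z, rfl⟩) hx ?_
      rw [← eval_res, ← hR, hF, eval_mul, g, mul_zero]
    · rw [hF, mul_left_comm] at r1
      have := congrArg (eval z) (mul_left_cancel₀ (pow_ne_zero d hi0) r1)
      rw [eval_mul, g, mul_zero, eval_mul, eval_res] at this
      exact mul_ne_zero (by simp) (k _ x i l (fun y => by have := c y; tauto) (.inl ⟨z, rfl⟩) hx)
        this.symm
    · rw [hF, mul_left_comm _ (Y i ^ d), mul_left_comm] at r2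
      have := congrArg (eval z) (mul_left_cancel₀ (pow_ne_zero d hi0) r2)
      rw [eval_mul, eval_mul, g, mul_zero, mul_zero, eval_mul, eval_res] at this
      exact mul_ne_zero (by simp) (k _ x i j (fun y => by have := c y; tauto) (.inl ⟨z, rfl⟩) hx)
        this.symm
  · have e1 := congrFun (reflect_pev hY hu) i
    have e2 := congrArg (eval u⁻¹) hF
    simp only [pev, Pi.smul_apply, smul_eq_mul] at e1
    rw [hR, eval_res, eval_mul, eval_pow] at e2
    rw [eval_res, reflect_pev hY hu, ln_smul, ln_smul, resultant_C_mul_left, resultant_C_mul_right,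
      e2, eval_pow, e1]
    ring
  · rw [eval_res, pev_reflect_zero]
    exact k _ i j l c (.inr rfl) hi

end Pool.Agent.Lib.MP_879098_ag.H66
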