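import Mathlib

/-! A transversality lemma by counting dimensions. -/

namespace Pool.Agent.Lib.MP_879098_ag.H66

open Filter Topology Module Set

section

variable {V : Type} [NormedAddCommGroup V] [NormedSpace ℂ V]

/-- the value of a perturbed map -/
def ev (t : Fin 3 → V) (X : V × (Fin 3 → ℂ)) : V := X.1 + ∑ i, X.2 i • t i

theorem ev_sub_smul (t : Fin 3 → V) (X Y : V × (Fin 3 → ℂ)) (κ : ℂ) :
    ev t (X - κ • Y) = ev t X - κ • ev t Y := by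
  simp only [ev, Prod.fst_sub, Prod.smul_fst, Prod.snd_sub, Prod.smul_snd, Pi.sub_apply,
    Pi.smul_apply, smul_eq_mul, sub_smul, Finset.sum_sub_distrib, smul_add, Finset.smul_sum,
    mul_smul]
  abel

/-- the solution of `ev t X = 0` with two prescribed entries -/
noncomputable def sol (i : Fin 3) (X : V × (Fin 3 → ℂ)) (t : Fin 2 → V) : Fin 3 → V :=
  i.insertNth (-((X.2 i)⁻¹ • (X.1 + ∑ j, X.2 (i.succAbove j) • t j))) t

theorem sol_eq {i : Fin 3} {X : V × (Fin 3 → ℂ)} {t : Fin 3 → V} (h : X.2 i ≠ 0)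
    (e : ev t X = 0) : sol i X (fun j => t (i.succAbove j)) = t := by
  rw [sol, Fin.insertNth_eq_iff]
  refine ⟨?_, rfl⟩
  rw [ev, Fin.sum_univ_succAbove _ i] at e
  have : X.1 + ∑ j, X.2 (i.succAbove j) • t (i.succAbove j) = -(X.2 i • t i) := by
    rw [← sub_eq_zero, ← e]; abel
  rw [this, smul_neg, neg_neg, smul_smul, inv_mul_cancel₀ h, one_smul]

theorem contDiffAt_sol {Y : Type} [NormedAddCommGroup Y] [NormedSpace ℂ Y] {i : Fin 3}
    {X : Y → V × (Fin 3 → ℂ)} {t : Y → Fin 2 → V} {y : Y} (hX : ContDiffAt ℂ 1 X y)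
    (ht : ContDiffAt ℂ 1 t y) (h : (X y).2 i ≠ 0) :
    ContDiffAt ℂ 1 (fun y => sol i (X y) (t y)) y := by
  have h2 : ∀ k, ContDiffAt ℂ 1 (fun y => (X y).2 k) y := contDiffAt_pi.1 hX.snd
  have h3 : ∀ k, ContDiffAt ℂ 1 (fun y => t y k) y := contDiffAt_pi.1 ht
  refine contDiffAt_pi.2 fun k => ?_
  rcases Fin.eq_self_or_eq_succAbove i k with rfl | ⟨j, rfl⟩
  · simp only [sol, Fin.insertNth_apply_same]
    exact (((h2 k).inv h).smul (hX.fst.add (ContDiffAt.sum fun j _ => (h2 _).smul (h3 j)))).neg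
  · simp only [sol, Fin.insertNth_apply_succAbove]
    exact h3 j

end

theorem dense_compl {Y T : Type} [NormedAddCommGroup Y] [NormedSpace ℂ Y] [FiniteDimensional ℂ Y]
    [NormedAddCommGroup T] [NormedSpace ℂ T] [FiniteDimensional ℂ T] {ι : Type} [Countable ι]
    (f : ι → Y → T) (S : ι → Set Y) (hf : ∀ i, ∀ y ∈ S i, ContDiffAt ℂ 1 (f i) y)
    (h : finrank ℂ Y < finrank ℂ T) : Dense (⋃ i, f i '' S i)ᶜ := by
  have : SecondCountableTopology Y := by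
    have : FiniteDimensional ℝ Y := FiniteDimensional.complexToReal Y
    infer_instance
  refine dense_compl_of_dimH_lt_finrank ?_
  rw [dimH_iUnion]
  refine lt_of_le_of_lt (b := (finrank ℝ Y : ENNReal)) (iSup_le fun i => ?_) ?_
  · refine (dimH_image_le_of_locally_lipschitzOn fun y hy => ?_).trans
      ((dimH_mono (subset_univ _)).trans_eq (Real.dimH_univ_eq_finrank Y))
    obtain ⟨K, t, h1, h2⟩ := (hf i y hy).exists_lipschitzOnWith
    exact ⟨K, t, mem_nhdsWithin_of_mem_nhds h1, h2⟩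
  · rw [finrank_real_of_complex, finrank_real_of_complex]
    exact_mod_cast (by omega)

theorem gen {V W : Type} [NormedAddCommGroup V] [NormedSpace ℂ V] [FiniteDimensional ℂ V]
    [NormedAddCommGroup W] [NormedSpace ℂ W] [FiniteDimensional ℂ W] {ι : Type} [Countable ι]
    (A B : ι → ℂ × ℂ → V × (Fin 3 → ℂ)) (A' B' : ι → ℂ × ℂ → W × (Fin 3 → ℂ))
    (S : ι → Set (ℂ × ℂ))
    (hf : ∀ i, ∀ y ∈ S i, ContDiffAt ℂ 1 (A i) y ∧ ContDiffAt ℂ 1 (B i) y ∧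
      ContDiffAt ℂ 1 (A' i) y ∧ ContDiffAt ℂ 1 (B' i) y)
    (h : 4 < finrank ℂ V + finrank ℂ W) :
    Dense {p : (Fin 3 → V) × (Fin 3 → W) | ∀ i, ∀ y ∈ S i, ∀ κ κ' : ℂ,
      (A i y).2 ≠ κ • (B i y).2 → (A' i y).2 ≠ κ' • (B' i y).2 →
      ev p.1 (A i y) = κ • ev p.1 (B i y) → ev p.2 (A' i y) ≠ κ' • ev p.2 (B' i y)} := by
  let Y := ((ℂ × ℂ) × ℂ × ℂ) × (Fin 2 → V) × (Fin 2 → W)
  refine (dense_compl (Y := Y) (T := (Fin 3 → V) × (Fin 3 → W)) (ι := ι × Fin 3 × Fin 3)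
    (fun i y => (sol i.2.1 (A i.1 y.1.1 - y.1.2.1 • B i.1 y.1.1) y.2.1,
      sol i.2.2 (A' i.1 y.1.1 - y.1.2.2 • B' i.1 y.1.1) y.2.2))
    (fun i => {y | y.1.1 ∈ S i.1 ∧ (A i.1 y.1.1 - y.1.2.1 • B i.1 y.1.1).2 i.2.1 ≠ 0 ∧
      (A' i.1 y.1.1 - y.1.2.2 • B' i.1 y.1.1).2 i.2.2 ≠ 0}) ?_ ?_).mono ?_
  · rintro ⟨i, j, k⟩ y ⟨h1, h2, h3⟩
    obtain ⟨a1, a2, a3, a4⟩ := hf i _ h1
    have c : ContDiffAt ℂ 1 (fun y : Y => y.1.1) y := contDiffAt_fst.fst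
    exact (contDiffAt_sol ((a1.comp y c).sub (contDiffAt_fst.snd.fst.smul (a2.comp y c)))
      contDiffAt_snd.fst h2).prodMk (contDiffAt_sol ((a3.comp y c).sub
        (contDiffAt_fst.snd.snd.smul (a4.comp y c))) contDiffAt_snd.snd h3)
  · simp only [Y, finrank_prod, finrank_self, finrank_pi_fintype, Finset.sum_const,
      Finset.card_univ, Fintype.card_fin, smul_eq_mul]
    omega
  · rintro ⟨t, u⟩ hp i y hy κ κ' h1 h2 e1 e2
    obtain ⟨j, hj⟩ := Function.ne_iff.1 (sub_ne_zero.2 h1)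
    obtain ⟨k, hk⟩ := Function.ne_iff.1 (sub_ne_zero.2 h2)
    refine hp (mem_iUnion.2 ⟨(i, j, k), ((y, κ, κ'), fun l => t (j.succAbove l),
      fun l => u (k.succAbove l)), ⟨hy, hj, hk⟩, Prod.ext (sol_eq hj ?_) (sol_eq hk ?_)⟩)
    · rw [ev_sub_smul, sub_eq_zero]; exact e1
    · rw [ev_sub_smul, sub_eq_zero]; exact e2

end Pool.Agent.Lib.MP_879098_ag.H66
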