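import Pool.Agent.Lib.MP_879098_ag.H66Mu
import Pool.Agent.Lib.MP_879098_ag.H66Gen

/-! Embedded elliptic curves close to a double cover of a rational curve. -/

namespace Pool.Agent.Lib.MP_879098_ag.H66

open Polynomial Ell Filter Topology Complex

/-- five constants -/
def cc : Fin 5 → ℂ := ![0, 1, -1, I, -I]

/-- branches of the square root of `w^3 - w` -/
noncomputable def sg (c : Fin 5) (w : ℂ) : ℂ := cc c * ((w ^ 3 - w) / cc c ^ 2) ^ (2⁻¹ : ℂ)

/-- their domains -/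
def dm (c : Fin 5) : Set ℂ := {w | cc c = 0 ∨ (w ^ 3 - w) / cc c ^ 2 ∈ slitPlane}

theorem contDiffAt_sg {c : Fin 5} {w : ℂ} (h : w ∈ dm c) : ContDiffAt ℂ 1 (sg c) w := by
  rcases h with h | h
  · rw [show sg c = fun _ => 0 from funext fun w => by simp [sg, h]]
    exact contDiffAt_const
  · refine AnalyticAt.contDiffAt (analyticAt_const.mul (AnalyticAt.cpow ?_ analyticAt_const h))
    fun_prop

theorem exists_sg {w v : ℂ} (h : v ^ 2 = w ^ 3 - w) : ∃ c, w ∈ dm c ∧ sg c w = v := by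
  have k : ∀ c, cc c ≠ 0 → 0 < (v / cc c).re → w ∈ dm c ∧ sg c w = v := fun c h0 h1 => by
    refine ⟨Or.inr ?_, ?_⟩
    · rw [← h, ← div_pow, mem_slitPlane_iff]
      by_cases g : (v / cc c).im = 0
      · left
        rw [sq, mul_re, g]
        nlinarith
      · right
        rw [sq, mul_im]
        intro e
        exact g (by nlinarith)
    · rw [sg, ← h, ← div_pow, sq_cpow_two_inv h1, mul_div_cancel₀ _ h0]
  rcases lt_trichotomy v.re 0 with g | g | g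
  · exact ⟨2, k 2 (by simp [cc]) (by simpa [cc, div_neg] using g)⟩
  · rcases lt_trichotomy v.im 0 with g' | g' | g'
    · exact ⟨4, k 4 (by simp [cc]) (by simpa [cc, div_neg] using g')⟩
    · exact ⟨0, Or.inl rfl, by simp [sg, cc, Complex.ext_iff, g, g']⟩
    · exact ⟨3, k 3 (by simp [cc]) (by simpa [cc] using g')⟩
  · exact ⟨1, k 1 (by simp [cc]) (by simpa [cc] using g)⟩

/-- the perturbing functions -/
def th (w v : ℂ) : Fin 3 → ℂ := ![w, v, w ^ 2]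

/-- their derivatives along the curve -/
def dth (w v : ℂ) : Fin 3 → ℂ := ![2 * v, 3 * w ^ 2 - 1, 2 * w * (2 * v)]

theorem th_ne {w v w' v' κ : ℂ} (h : v ^ 2 = w ^ 3 - w) (hκ : κ ≠ 0) (e : th w' v' = κ • th w v) :
    w' = w ∧ v' = v := by
  have e0 : w' = κ * w := congrFun e 0
  have e1 : v' = κ * v := congrFun e 1
  have e2 : w' ^ 2 = κ * w ^ 2 := congrFun e 2
  by_cases g : w = 0
  · have : v = 0 := by simpa [g] using h
    simp [e0, e1, g, this]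
  · have : κ = 1 := mul_left_cancel₀ (mul_ne_zero hκ (pow_ne_zero 2 g))
      (by rw [e0] at e2; linear_combination e2)
    simp [e0, e1, this]

theorem dth_ne {w v : ℂ} (h : v ^ 2 = w ^ 3 - w) (κ : ℂ) : dth w v ≠ κ • th w v := fun e => by
  have e0 : 2 * v = κ * w := congrFun e 0
  have e1 : 3 * w ^ 2 - 1 = κ * v := congrFun e 1
  have e2 : 2 * w * (2 * v) = κ * w ^ 2 := congrFun e 2
  have e4 : w * v = 0 := by linear_combination (1 / 2) * e2 - (w / 2) * e0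
  have e5 : v = 0 := by
    rcases mul_eq_zero.1 e4 with g | g
    · simpa [g] using e0
    · exact g
  rw [e5] at h e1
  have : (2 : ℂ) = 0 := by linear_combination (9 * w) * h + (3 * w ^ 2 - 2) * e1
  norm_num at this

variable {n : ℕ} {P R : Fin (n + 1) → ℂ[X]} {D : ℕ} {t : Fin 3 → VV n}

/-- indices of the families of jets -/
abbrev Ix : Type := Option (Bool × Fin 5)

/-- domains of the families of jets -/
def dom : Ix → Set ℂ
  | none => Set.univ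
  | some c => dm c.2

/-- families of jets -/
noncomputable def jet (P R : Fin (n + 1) → ℂ[X]) (D : ℕ) : Ix → ℂ → VV n × (Fin 3 → ℂ)
  | none, _ => (ptop P D, 0)
  | some (false, c), w => (val P R w (sg c w), th w (sg c w))
  | some (true, c), w =>
    (dval P R w (sg c w) (2 * sg c w) (3 * w ^ 2 - 1), dth w (sg c w))

theorem contDiff_pev (P : Fin (n + 1) → ℂ[X]) : ContDiff ℂ 1 (pev P) :=
  contDiff_pi.2 fun i => by simpa [pev] using (P i).contDiff_aeval (𝕜 := ℂ) 1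

theorem contDiffAt_jet (P R : Fin (n + 1) → ℂ[X]) (D : ℕ) {i : Ix} {w : ℂ} (h : w ∈ dom i) :
    ContDiffAt ℂ 1 (jet P R D i) w := by
  have k : ∀ P : Fin (n + 1) → ℂ[X], ContDiffAt ℂ 1 (pev P) w := fun P => (contDiff_pev P).contDiffAt
  rcases i with _ | ⟨_ | _, c⟩
  · exact contDiffAt_const
  · have s := contDiffAt_sg (c := c) h
    refine ((k P).add (s.smul (k R))).prodMk (contDiffAt_pi.2 fun j => ?_)
    fin_cases j
    · exact contDiffAt_id
    · exact s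
    · exact contDiffAt_id.pow 2
  · have s := contDiffAt_sg (c := c) h
    have s1 : ContDiffAt ℂ 1 (fun w => 2 * sg c w) w := contDiffAt_const.mul s
    have s2 : ContDiffAt ℂ 1 (fun w : ℂ => 3 * w ^ 2 - 1) w := by fun_prop
    refine (((s1.smul (k _)).add (s2.smul (k R))).add ((s.mul s1).smul (k _))).prodMk
      (contDiffAt_pi.2 fun j => ?_)
    fin_cases j
    · exact s1
    · exact s2
    · exact (contDiffAt_const.mul contDiffAt_id).mul s1

/-- the perturbed even part -/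
noncomputable def pP (P : Fin (n + 1) → ℂ[X]) (t : Fin 3 → VV n) : Fin (n + 1) → ℂ[X] :=
  fun i => P i + monomial 1 (t 0 i) + monomial 2 (t 2 i)

/-- the perturbed odd part -/
noncomputable def pR (R : Fin (n + 1) → ℂ[X]) (t : Fin 3 → VV n) : Fin (n + 1) → ℂ[X] :=
  fun i => R i + C (t 1 i)

theorem val_p (w v : ℂ) : val (pP P t) (pR R t) w v = ev t (val P R w v, th w v) := by
  ext i
  simp [val, pP, pR, ev, th, pev, Fin.sum_univ_three]
  ring

theorem dval_p (w v : ℂ) : dval (pP P t) (pR R t) w v (2 * v) (3 * w ^ 2 - 1) =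
    ev t (dval P R w v (2 * v) (3 * w ^ 2 - 1), dth w v) := by
  ext i
  simp [dval, pP, pR, ev, dth, pev, Fin.sum_univ_three]
  ring

theorem ptop_pP (ht : t = 0 ∨ 3 ≤ D) : ptop (pP P t) D = ptop P D := by
  ext i
  rcases ht with rfl | ht
  · simp [ptop, pP]
  · simp [ptop, pP, coeff_monomial, show 1 ≠ D by omega, show 2 ≠ D by omega]

theorem deg_pP (hd : ∀ i, (P i).natDegree ≤ D) (ht : t = 0 ∨ 3 ≤ D) (i : Fin (n + 1)) :
    (pP P t i).natDegree ≤ D := by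
  rcases ht with rfl | ht
  · simpa [pP] using hd i
  · exact natDegree_add_le_of_degree_le (natDegree_add_le_of_degree_le (hd i)
      ((natDegree_monomial_le _).trans (by omega))) ((natDegree_monomial_le _).trans (by omega))

/-- the odd part of top degree -/
noncomputable def oR (η : VV n) (D : ℕ) : Fin (n + 1) → ℂ[X] := fun i => monomial (D - 2) (η i)

theorem deg_pR {η : VV n} (ht : (η = 0 ∧ t = 0) ∨ 3 ≤ D) :
    pR (oR η D) t = 0 ∨ ∃ k, D = k + 2 ∧ ∀ i, (pR (oR η D) t i).natDegree ≤ k := by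
  rcases ht with ⟨rfl, rfl⟩ | ht
  · left
    ext i
    simp [pR, oR]
  · exact .inr ⟨D - 2, by omega, fun i => natDegree_add_le_of_degree_le (natDegree_monomial_le _)
      (by simp)⟩

theorem ptop_pR {η : VV n} (ht : 3 ≤ D) : ptop (pR (oR η D) t) (D - 2) = η := by
  ext i
  simp [ptop, pR, oR, coeff_C, show D - 2 ≠ 0 by omega]

theorem small2 (hd : ∀ i, (P i).natDegree ≤ D) (h : ∀ w, pev P w ≠ 0) (htop : ptop P D ≠ 0)
    {δ : ℝ} (hδ : 0 < δ) : ∃ r : ℝ, 0 < r ∧ ∀ (η : VV n) (t : Fin 3 → VV n),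
      (η = 0 ∧ t = 0) ∨ 3 ≤ D → ‖η‖ < r → ‖t‖ < r → ∀ w v, v ^ 2 = w ^ 3 - w →
        Near δ (pev P w) (val (pP P t) (pR (oR η D) t) w v) := by
  obtain ⟨c, c0, hc⟩ := pev_lower P D hd h htop
  refine ⟨δ * c / 4, by positivity, fun η t ht h1 h2 w v e => ?_⟩
  have e1 : val (pP P t) (pR (oR η D) t) w v =
      pev P w + ((v * w ^ (D - 2)) • η + w • t 0 + v • t 1 + w ^ 2 • t 2) := by
    ext i
    simp [val, pP, pR, oR, pev]
    ring
  rw [e1]
  rcases ht with ⟨rfl, rfl⟩ | ht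
  · simpa using near_refl hδ (h w)
  refine near_of_norm ?_
  obtain ⟨k, rfl⟩ : ∃ k, D = k + 2 := ⟨D - 2, by omega⟩
  have a0 := norm_nonneg w
  have a1 : ‖v‖ ≤ (1 + ‖w‖) ^ 2 := by
    refine le_of_pow_le_pow_left₀ two_ne_zero (by positivity) ?_
    rw [← norm_pow, e]
    refine (norm_sub_le _ _).trans ?_
    rw [norm_pow]
    nlinarith [pow_nonneg a0 2, pow_nonneg a0 3, pow_nonneg a0 4]
  have a2 : (1 + ‖w‖) ^ 2 ≤ (1 + ‖w‖) ^ (k + 2) := pow_le_pow_right₀ (by simp) (by omega)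
  have a3 : ‖v * w ^ k‖ ≤ (1 + ‖w‖) ^ (k + 2) := by
    rw [norm_mul, norm_pow, pow_add, mul_comm]
    gcongr
    linarith
  have a4 : ‖w‖ ≤ (1 + ‖w‖) ^ (k + 2) := le_trans (by nlinarith) a2
  have a5 : ‖w ^ 2‖ ≤ (1 + ‖w‖) ^ (k + 2) := le_trans (by rw [norm_pow]; nlinarith) a2
  have a6 := a1.trans a2
  have a7 := hc w
  have a8 : 0 < (1 + ‖w‖) ^ (k + 2) := by positivity
  generalize (1 + ‖w‖) ^ (k + 2) = B at *
  have b : ∀ (s : ℂ) (y : VV n), ‖s‖ ≤ B → ‖y‖ < δ * c / 4 → ‖s • y‖ < B * (δ * c / 4) :=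
    fun s y g1 g2 => by
      rw [norm_smul]
      exact (mul_le_mul_of_nonneg_right g1 (norm_nonneg _)).trans_lt
        (mul_lt_mul_of_pos_left g2 a8)
  rw [add_sub_cancel_left, Nat.add_sub_cancel]
  have b1 := b _ _ a3 h1
  have b2 := b _ _ a4 ((norm_le_pi_norm t 0).trans_lt h2)
  have b3 := b _ _ a6 ((norm_le_pi_norm t 1).trans_lt h2)
  have b4 := b _ _ a5 ((norm_le_pi_norm t 2).trans_lt h2)
  have b5 := norm_add₄_le (a := (v * w ^ k) • η) (b := w • t 0) (c := v • t 1) (d := w ^ 2 • t 2)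
  nlinarith [mul_le_mul_of_nonneg_left a7 hδ.le]

variable {a b : ℕ} {U : Set (PP a × PP b)} {P : Fin (a + 1) → ℂ[X]} {d : ℕ}
  {Q : Fin (b + 1) → ℂ[X]} {e : ℕ}

/-- general position of the perturbation -/
def Sep (P R : Fin (a + 1) → ℂ[X]) (d : ℕ) (Q S : Fin (b + 1) → ℂ[X]) (e : ℕ) (t : Fin 3 → VV a)
    (u : Fin 3 → VV b) : Prop :=
  ∀ (i j : Ix) (w w' κ κ' : ℂ), w ∈ dom i → w' ∈ dom j →
    (jet P R d i w).2 ≠ κ • (jet P R d j w').2 → (jet Q S e i w).2 ≠ κ' • (jet Q S e j w').2 →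
    ev t (jet P R d i w) = κ • ev t (jet P R d j w') →
    ev u (jet Q S e i w) ≠ κ' • ev u (jet Q S e j w')

theorem exists_sep (P R : Fin (a + 1) → ℂ[X]) (d : ℕ) (Q S : Fin (b + 1) → ℂ[X]) (e : ℕ)
    (he : (3 ≤ e ∧ 3 ≤ a + b) ∨ 3 ≤ a) {r : ℝ} (hr : 0 < r) :
    ∃ t u, ‖t‖ < r ∧ ‖u‖ < r ∧ (u = 0 ∨ 3 ≤ e) ∧ Sep P R d Q S e t u := by
  have c1 : ∀ {n : ℕ} (P R : Fin (n + 1) → ℂ[X]) (d : ℕ) (i : Ix) (y : ℂ × ℂ), y.1 ∈ dom i →
      ContDiffAt ℂ 1 (fun y : ℂ × ℂ => jet P R d i y.1) y := fun P R d i y h =>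
    (contDiffAt_jet P R d h).comp y contDiffAt_fst
  have c2 : ∀ {n : ℕ} (P R : Fin (n + 1) → ℂ[X]) (d : ℕ) (i : Ix) (y : ℂ × ℂ), y.2 ∈ dom i →
      ContDiffAt ℂ 1 (fun y : ℂ × ℂ => jet P R d i y.2) y := fun P R d i y h =>
    (contDiffAt_jet P R d h).comp y contDiffAt_snd
  rcases he with ⟨he, hab⟩ | ha
  · obtain ⟨p, h1, h2⟩ := (gen (ι := Ix × Ix) (fun i y => jet P R d i.1 y.1)
      (fun i y => jet P R d i.2 y.2) (fun i y => jet Q S e i.1 y.1) (fun i y => jet Q S e i.2 y.2)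
      (fun i => dom i.1 ×ˢ dom i.2)
      (fun i y h => ⟨c1 _ _ _ _ _ h.1, c2 _ _ _ _ _ h.2, c1 _ _ _ _ _ h.1, c2 _ _ _ _ _ h.2⟩)
      (by simp; omega)).exists_mem_open Metric.isOpen_ball (Metric.nonempty_ball (x := 0).2 hr)
    rw [mem_ball_zero_iff] at h2
    exact ⟨p.1, p.2, (norm_fst_le p).trans_lt h2, (norm_snd_le p).trans_lt h2, .inr he,
      fun i j w w' κ κ' g1 g2 => h1 (i, j) (w, w') ⟨g1, g2⟩ κ κ'⟩
  · obtain ⟨p, h1, h2⟩ := (gen (W := ℂ) (ι := Ix × Ix) (fun i y => jet P R d i.1 y.1)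
      (fun i y => jet P R d i.2 y.2) (fun _ _ => (0, 1)) (fun _ _ => (1, 0))
      (fun i => dom i.1 ×ˢ dom i.2)
      (fun i y h => ⟨c1 _ _ _ _ _ h.1, c2 _ _ _ _ _ h.2, contDiffAt_const, contDiffAt_const⟩)
      (by simp; omega)).exists_mem_open Metric.isOpen_ball (Metric.nonempty_ball (x := 0).2 hr)
    rw [mem_ball_zero_iff] at h2
    exact ⟨p.1, 0, (norm_fst_le p).trans_lt h2, by simpa using hr, .inl rfl,
      fun i j w w' κ κ' g1 g2 g3 _ g5 _ => h1 (i, j) (w, w') ⟨g1, g2⟩ κ (ev p.2 (0, 1)) g3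
        (by simp) g5 (by simp [ev])⟩

theorem exists_not_par (ha : 1 ≤ a) (y : VV a) {r : ℝ} (hr : 0 < r) :
    ∃ η : VV a, ‖η‖ < r ∧ ∀ κ : ℂ, η ≠ κ • y := by
  have : (ℂ ∙ y : Submodule ℂ (VV a)) ≠ ⊤ := fun c => by
    have := finrank_span_le_card (R := ℂ) ({y} : Set (VV a))
    rw [c] at this
    simp at this
    omega
  by_contra! c
  refine this (Submodule.eq_top_of_nonempty_interior' _ ⟨0, mem_interior_iff_mem_nhds.2 ?_⟩)
  filter_upwards [Metric.ball_mem_nhds 0 hr] with η hη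
  obtain ⟨κ, hκ⟩ := c η (mem_ball_zero_iff.1 hη)
  exact Submodule.mem_span_singleton.2 ⟨κ, hκ.symm⟩

theorem core (hU : IsOpen (hat U)) (h : IsRat (hat U) P d Q e) (hd : 3 ≤ d) (ha : 1 ≤ a)
    (he : (3 ≤ e ∧ 3 ≤ a + b) ∨ 3 ≤ a)
    (hne : (toP (pev P 0), toP (pev Q 0)) ≠ (toP (ptop P d), toP (ptop Q e))) :
    ∃ C, IsSmoothElliptic C ∧ C ⊆ U ∧ (toP (pev P 0), toP (pev Q 0)) ∈ C ∧
      (toP (ptop P d), toP (ptop Q e)) ∈ C := by
  have hc := isCone_hat hU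
  obtain ⟨δ, d0, g, -⟩ := h.margin hc
  have t0 := hc.ne _ _ h.top
  obtain ⟨r, r0, s1⟩ := small2 h.degP (fun w => (hc.ne _ _ (h.mem w)).1) t0.1 d0
  obtain ⟨r', r1, s2⟩ := small2 h.degQ (fun w => (hc.ne _ _ (h.mem w)).2) t0.2 d0
  obtain ⟨η, n1, n2⟩ := exists_not_par ha (ptop P d) r0
  obtain ⟨t, u, t1, u1, u2, hs⟩ := exists_sep P (oR η d) d Q (oR 0 e) e he (lt_min r0 r1)
  have u3 : ((0 : VV b) = 0 ∧ u = 0) ∨ 3 ≤ e := u2.imp_left fun c => ⟨rfl, c⟩
  have g1 : ∀ w v, v ^ 2 = w ^ 3 - w → (val (pP P t) (pR (oR η d) t) w v,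
      val (pP Q u) (pR (oR 0 e) u) w v) ∈ hat U := fun w v e =>
    g w _ _ (s1 η t (.inr hd) n1 (t1.trans_le (min_le_left _ _)) w v e)
      (s2 0 u u3 (by simpa using r1) (u1.trans_le (min_le_right _ _)) w v e)
  have p1 : ptop (pP P t) d = ptop P d := ptop_pP (.inr hd)
  have p2 : ptop (pP Q u) e = ptop Q e := ptop_pP u2
  have D1 : Dat (pP P t) (pR (oR η d) t) d := ⟨deg_pP h.degP (.inr hd), deg_pR (.inr hd),
    fun w v e => (hc.ne _ _ (g1 w v e)).1, p1 ▸ t0.1⟩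
  have D2 : Dat (pP Q u) (pR (oR 0 e) u) e := ⟨deg_pP h.degQ u2, deg_pR u3,
    fun w v e => (hc.ne _ _ (g1 w v e)).2, p2 ▸ t0.2⟩
  have v1 : val (pP P t) (pR (oR η d) t) 0 0 = pev P 0 := by
    rw [val_p]; simp [ev, val, th, Fin.sum_univ_three]
  have v2 : val (pP Q u) (pR (oR 0 e) u) 0 0 = pev Q 0 := by
    rw [val_p]; simp [ev, val, th, Fin.sum_univ_three]
  have inf : ∀ w v, v ^ 2 = w ^ 3 - w → (toP (val (pP P t) (pR (oR η d) t) w v),
      toP (val (pP Q u) (pR (oR 0 e) u) w v)) ≠ (toP (ptop P d), toP (ptop Q e)) := by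
    intro w v e E
    by_cases w0 : w = 0
    · obtain rfl : v = 0 := by simpa [w0] using e
      rw [w0, v1, v2] at E
      exact hne E
    rw [Prod.mk.injEq] at E
    obtain ⟨κ, -, E1⟩ := (rep_toP t0.1).exists_smul (E.1 ▸ rep_toP (D1.ne w v e))
    obtain ⟨κ', -, E2⟩ := (rep_toP t0.2).exists_smul (E.2 ▸ rep_toP (D2.ne w v e))
    obtain ⟨c, c1, rfl⟩ := exists_sg e
    rw [val_p] at E1 E2
    exact hs (some (false, c)) none w 0 κ κ' c1 trivial
      (fun x => w0 (by simpa [jet, th] using congrFun x 0))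
      (fun x => w0 (by simpa [jet, th] using congrFun x 0))
      (E1.trans (by simp [jet, ev])) (E2.trans (by simp [jet, ev]))
  refine ⟨_, ⟨-1, 0, mu2 (pP P t) (pR (oR η d) t) d, mu2 (pP Q u) (pR (oR 0 e) u) e, by norm_num,
    D1.isMorphism, D2.isMorphism, ?_, isImmersion D1 D2 ?_ ?_, rfl⟩, ?_,
    ⟨toP ![0, 0, 1], (mem_cubic (rep_toP (ne_aff _ _))).2 (by simp), ?_⟩,
    toP ![0, 1, 0], (mem_cubic (rep_toP ne_inf)).2 (by simp), ?_⟩
  · rintro x x1 y y1 E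
    obtain rfl | ⟨w, v, e, rfl⟩ := cubic_cases x1 <;>
      obtain rfl | ⟨w', v', e', rfl⟩ := cubic_cases y1
    · rfl
    · simp only [mu2_toP, mu2_top, p1, p2] at E
      exact absurd E.symm (inf _ _ e')
    · simp only [mu2_toP, mu2_top, p1, p2] at E
      exact absurd E (inf _ _ e)
    simp only [mu2_toP, Prod.mk.injEq] at E
    obtain ⟨κ, k1, E1⟩ := (rep_toP (D1.ne w v e)).exists_smul (E.1 ▸ rep_toP (D1.ne w' v' e'))
    obtain ⟨κ', k2, E2⟩ := (rep_toP (D2.ne w v e)).exists_smul (E.2 ▸ rep_toP (D2.ne w' v' e'))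
    by_contra c
    have c' : ¬ (w' = w ∧ v' = v) := fun ⟨c1, c2⟩ => c (by rw [c1, c2])
    obtain ⟨i, i1, rfl⟩ := exists_sg e
    obtain ⟨j, j1, rfl⟩ := exists_sg e'
    rw [val_p, val_p] at E1 E2
    exact hs (some (false, j)) (some (false, i)) w' w κ κ' j1 i1 (fun x => c' (th_ne e k1 x))
      (fun x => c' (th_ne e k2 x)) E1 E2
  · intro w v κ κ' e E1 E2
    obtain ⟨i, i1, rfl⟩ := exists_sg e
    rw [val_p, dval_p] at E1 E2
    exact hs (some (true, i)) (some (false, i)) w w κ κ' i1 i1 (dth_ne e κ) (dth_ne e κ') E1 E2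
  · rw [ptop_pR hd, p1]
    exact n2
  · rintro _ ⟨x, hx, rfl⟩
    obtain rfl | ⟨w, v, e, rfl⟩ := cubic_cases hx
    · simpa only [mu2_top, p1, p2] using mem_of_hat h.top
    · simpa only [mu2_toP] using mem_of_hat (g1 w v e)
  · simp only [mu2_toP, v1, v2]
  · simp only [mu2_top, p1, p2]

theorem exists_smooth (hU : IsOpen (hat U)) (h : IsRat (hat U) P d Q e) (hd : 1 ≤ d) (ha : 1 ≤ a)
    (he : (1 ≤ e ∧ 3 ≤ a + b) ∨ 3 ≤ a)
    (hne : (toP (pev P 0), toP (pev Q 0)) ≠ (toP (ptop P d), toP (ptop Q e))) :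
    ∃ C, IsSmoothElliptic C ∧ C ⊆ U ∧ (toP (pev P 0), toP (pev Q 0)) ∈ C ∧
      (toP (ptop P d), toP (ptop Q e)) ∈ C := by
  simpa [Ell.pev_expand, Ell.ptop_expand] using core hU (P := fun i => expand ℂ 3 (P i))
    (Q := fun i => expand ℂ 3 (Q i)) (d := d * 3) (e := e * 3)
    ⟨fun i => natDegree_expand 3 (P i) ▸ Nat.mul_le_mul_right 3 (h.degP i),
      fun i => natDegree_expand 3 (Q i) ▸ Nat.mul_le_mul_right 3 (h.degQ i),
      fun w => by simpa only [Ell.pev_expand] using h.mem _,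
      by simpa only [Ell.ptop_expand] using h.top⟩ (by omega) ha (by omega)
    (by simpa [Ell.pev_expand, Ell.ptop_expand] using hne)

end Pool.Agent.Lib.MP_879098_ag.H66
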