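import Pool.Agent.Lib.MP_879098_ag.SMain
import Pool.Agent.Lib.MP_879098_ag.H66Pert
import Pool.Agent.Lib.MP_879098_ag.H66Dim

/-! The smooth surface is approximately connected by chains of smooth elliptic curves. -/

namespace Pool.Agent.Lib.MP_879098_ag.H66

open Filter Topology Polynomial Metric Sm

/-- a rational curve that does not meet the central curve -/
noncomputable def far (w : ℂ) : VV 63 :=
  seg ![![1, w], ![1, -w], ![1, -w ^ 2], ![0, 1], ![0, 1], ![0, 1]]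

/-- the same near infinity -/
noncomputable def farI (u : ℂ) : VV 63 :=
  seg ![![u, 1], ![u, -1], ![u ^ 2, -1], ![0, 1], ![0, 1], ![0, 1]]

theorem far_mem {k : ℕ} (hk : 0 < k) (w : ℂ) : far w ≠ 0 ∧ toP (far w) ∈ YY k := by
  refine Sol.mem ⟨fun i h => ?_, ?_, ?_⟩
  · have h0 := congrFun h 0
    have h1 := congrFun h 1
    fin_cases i <;> simp at h0 h1
  all_goals simp [Zr, hk.ne', sq]

theorem farI_mem {k : ℕ} (_hk : 0 < k) : farI 0 ≠ 0 ∧ toP (farI 0) ∈ YY k := by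
  refine Sol.mem ⟨fun i h => ?_, ?_, ?_⟩
  · have h0 := congrFun h 0
    have h1 := congrFun h 1
    fin_cases i <;> simp at h0 h1
  all_goals simp [Zr]

theorem rep_farI {u : ℂ} (hu : u ≠ 0) : Rep (farI u) (toP (far u⁻¹)) := by
  have := (rep_toP (far_mem one_pos u⁻¹).1).smul (s := ∏ i, ![u, u, u ^ 2, 1, 1, 1] i)
    (by simp [Fin.prod_univ_six, hu])
  rw [far, ← seg_smul] at this
  rw [far]
  convert this using 1
  refine congrArg seg ?_
  ext i a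
  fin_cases i <;> fin_cases a <;> simp [hu]

theorem exists_far {k a : ℕ} (hk : 0 < k) {j : PP 63 → PP a} (hj : IsMorphism (YY k) j) :
    ∃ P d, Curve j far (farI 0) P d := by
  refine lift_poly hj ?_ (far_mem hk) (continuous_seg.comp (by fun_prop)).continuousAt
    (farI_mem hk) fun u hu => rep_farI hu
  obtain ⟨Φ, h⟩ := exists_segP ![![1, X], ![1, -X], ![1, -X ^ 2], ![0, 1], ![0, 1], ![0, 1]]
  refine ⟨Φ, fun w => (h w).trans (congrArg seg ?_)⟩
  ext i a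
  fin_cases i <;> fin_cases a <;> simp

/-- points of the surface with a given last coordinate -/
def Lv (k : ℕ) (s : Fin 2 → ℂ) (x : PP 63) : Prop := x ∈ YY k ∧ ∃ u, Rep (seg u) x ∧ u 5 = s

theorem Lv.ne {k : ℕ} {x y : PP 63} (h : Lv k ![1, 0] x) (h' : Lv k ![0, 1] y) : x ≠ y := by
  rintro rfl
  obtain ⟨-, u, h1, h2⟩ := h
  obtain ⟨-, v, h3, h4⟩ := h'
  simpa [h2, h4] using seg_par h1 h3 5

theorem one_mem_ZZ {k : ℕ} (hk : 0 < k) : (1 : ℂ) ∈ ZZ k := (mem_ZZ hk).2 (.inr (one_pow _))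

theorem al_one (k : ℕ) : al k 1 = 1 := if_neg (by norm_num)

theorem be_one (k : ℕ) : be k 1 = 0 := if_pos (one_pow _)

section

variable {k : ℕ} (hk : 0 < k)
include hk

theorem lv_cen (w : ℂ) : Lv k ![1, 0] (toP (cen w)) :=
  ⟨(cen_mem hk w).2, _, rep_toP (cen_mem hk w).1, rfl⟩

omit hk in
theorem lv_cenI : Lv k ![1, 0] (toP (cenI 0)) := ⟨(cenI_mem k).2, _, rep_toP (cenI_mem k).1, rfl⟩

theorem lv_leaf (w : ℂ) : Lv k ![1, 0] (toP (leaf k 1 w)) :=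
  ⟨(leaf_mem hk (one_mem_ZZ hk) w).2, _, rep_toP (leaf_mem hk (one_mem_ZZ hk) w).1, by
    simp [pt, be_one]⟩

theorem lv_leafI : Lv k ![1, 0] (toP (leafI k 1 0)) :=
  ⟨(leafI_mem hk (one_mem_ZZ hk)).2, _, rep_toP (leafI_mem hk (one_mem_ZZ hk)).1, by
    simp [be_one]⟩

theorem lv_far (w : ℂ) : Lv k ![0, 1] (toP (far w)) :=
  ⟨(far_mem hk w).2, _, rep_toP (far_mem hk w).1, rfl⟩

theorem lv_farI : Lv k ![0, 1] (toP (farI 0)) := ⟨(farI_mem hk).2, _, rep_toP (farI_mem hk).1, rfl⟩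

theorem far_ne : toP (far 0) ≠ toP (farI 0) := fun e => by
  have := seg_par (rep_toP (far_mem hk 0).1) (e ▸ rep_toP (farI_mem hk).1) 0
  simp at this

theorem cen_ne : toP (cen 0) ≠ toP (cenI 0) := fun e => by
  have := seg_par (rep_toP (cen_mem hk 0).1) (e ▸ rep_toP (cenI_mem k).1) 0
  simp [pt] at this

end

theorem cst {n a : ℕ} {j : PP n → PP a} {γ : ℂ → VV n} {p : VV n} {P : Fin (a + 1) → ℂ[X]}
    (L : Curve j γ p P 0) (w : ℂ) : j (toP (γ w)) = j (toP p) :=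
  (pev_of_zero L.deg w ▸ L.rep w).eq L.top

theorem three_le {m a : ℕ} (hm : 0 < m) {j : PP 63 → PP a} (hj : IsMorphism (YY m) j)
    (hi : Set.InjOn j (YY m)) : 3 ≤ a := by
  have := Sm.two_le_of_inj hm hj hi
  by_contra c
  obtain rfl : a = 2 := by omega
  obtain ⟨P, d, L⟩ := exists_cen hm hj
  obtain ⟨Y, e, M⟩ := exists_far hm hj
  have := meet_two L.deg M.deg (fun z => (M.rep z).ne) M.top.ne fun u y hu hy g => by
    obtain ⟨x, x1, x2⟩ : ∃ x, Lv m ![1, 0] x ∧ Rep u (j x) := by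
      rcases hu with ⟨w, rfl⟩ | rfl
      exacts [⟨_, lv_cen hm w, L.rep w⟩, ⟨_, lv_cenI, L.top⟩]
    obtain ⟨z, z1, z2⟩ : ∃ x, Lv m ![0, 1] x ∧ Rep y (j x) := by
      rcases hy with ⟨w, rfl⟩ | rfl
      exacts [⟨_, lv_far hm w, M.rep w⟩, ⟨_, lv_farI hm, M.top⟩]
    exact x1.ne z1 (hi x1.1 z1.1 ((Morph.of_minors x2 z2.ne g).eq z2))
  rcases mul_eq_zero.1 this with rfl | rfl
  · exact far_ne hm (hi (far_mem hm 0).2 (farI_mem hm).2 (cst M 0))
  · exact cen_ne hm (hi (cen_mem hm 0).2 (cenI_mem m).2 (cst L 0))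

theorem two (u v : VV 1) (h : u 0 * v 1 = u 1 * v 0) (i k : Fin (1 + 1)) :
    u i * v k = u k * v i := by
  fin_cases i <;> fin_cases k
  exacts [rfl, h, h.symm, rfl]

theorem no_line {m b : ℕ} (hm : 0 < m) {j : PP 63 → PP 1} {k : PP 63 → PP b}
    (hi : Set.InjOn (fun x => (j x, k x)) (YY m)) {P : Fin (1 + 1) → ℂ[X]} {d : ℕ}
    {Q Q' : Fin (b + 1) → ℂ[X]} (L : Curve j cen (cenI 0) P d) (M : Curve k cen (cenI 0) Q 0)
    (M' : Curve k (leaf m 1) (leafI m 1 0) Q' 0) : False := by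
  have hy := leaf_mem hm (one_mem_ZZ hm) 1
  have e1 : k (toP (leaf m 1 1)) = k (toP (cenI 0)) := by
    rw [cst M', ← cst M' 0, leaf_zero, cst M]
  set y := (j (toP (leaf m 1 1))).rep
  have d0 : d ≠ 0 := by
    rintro rfl
    exact cen_ne hm (hi (cen_mem hm 0).2 (cenI_mem m).2 (Prod.ext (cst L 0) (cst M 0)))
  by_cases g : (P 0 * C (y 1) - P 1 * C (y 0)).degree = 0
  · have := coeff_eq_zero_of_degree_lt (n := d)
      (g.trans_lt (by exact_mod_cast Nat.pos_of_ne_zero d0))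
    have e := hi hy.2 (cenI_mem m).2 (Prod.ext ((Morph.of_minors (rep_rep _) L.top.ne
      (two _ _ (by simpa [ptop, sub_eq_zero] using this))).eq L.top) e1)
    have := seg_par (rep_toP hy.1) (e ▸ rep_toP (cenI_mem m).1) 0
    simp [pt] at this
  · obtain ⟨w, hw⟩ := IsAlgClosed.exists_root _ g
    have e := hi hy.2 (cen_mem hm w).2 (Prod.ext ((Morph.of_minors (rep_rep _) (L.rep w).ne
      (two _ _ (by simpa [pev, sub_eq_zero] using hw))).eq (L.rep w)) (e1.trans (cst M w).symm))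
    have := seg_par (rep_toP hy.1) (e ▸ rep_toP (cen_mem hm w).1) 3
    simp [pt, al_one] at this

theorem no_quadric {m : ℕ} (hm : 0 < m) {j k : PP 63 → PP 1} (hj : IsMorphism (YY m) j)
    (hk : IsMorphism (YY m) k) (hi : Set.InjOn (fun x => (j x, k x)) (YY m)) : False := by
  obtain ⟨P, d, L⟩ := exists_cen hm hj
  obtain ⟨Q, e, M⟩ := exists_cen hm hk
  obtain ⟨P', d', L'⟩ := exists_leaf hm hj (one_mem_ZZ hm)
  obtain ⟨Q', e', M'⟩ := exists_leaf hm hk (one_mem_ZZ hm)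
  obtain ⟨P'', d'', L''⟩ := exists_far hm hj
  obtain ⟨Q'', e'', M''⟩ := exists_far hm hk
  have key : ∀ {γ : ℂ → VV 63} {p : VV 63} {P Q : Fin (1 + 1) → ℂ[X]} {d e : ℕ},
      Curve j γ p P d → Curve k γ p Q e → (∀ w, Lv m ![1, 0] (toP (γ w))) →
      Lv m ![1, 0] (toP p) → d'' * e + e'' * d = 0 := fun L M h1 h2 =>
    meet_one L.deg M.deg L''.deg M''.deg fun u v u' v' hu hv g => by
      obtain ⟨x, x1, x2, x3⟩ : ∃ x, Lv m ![1, 0] x ∧ Rep u (j x) ∧ Rep v (k x) := by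
        rcases hu with ⟨w, rfl, rfl⟩ | ⟨rfl, rfl⟩
        exacts [⟨_, h1 w, L.rep w, M.rep w⟩, ⟨_, h2, L.top, M.top⟩]
      obtain ⟨z, z1, z2, z3⟩ : ∃ x, Lv m ![0, 1] x ∧ Rep u' (j x) ∧ Rep v' (k x) := by
        rcases hv with ⟨w, rfl, rfl⟩ | ⟨rfl, rfl⟩
        exacts [⟨_, lv_far hm w, L''.rep w, M''.rep w⟩, ⟨_, lv_farI hm, L''.top, M''.top⟩]
      exact x1.ne z1 (hi x1.1 z1.1 (Prod.ext ((Morph.of_minors x2 z2.ne (two _ _ g.1)).eq z2)
        ((Morph.of_minors x3 z3.ne (two _ _ g.2)).eq z3)))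
  have k1 := key L M (lv_cen hm) lv_cenI
  have k2 := key L' M' (lv_leaf hm) (lv_leafI hm)
  by_cases c : d'' = 0
  · by_cases c' : e'' = 0
    · subst c c'
      exact far_ne hm (hi (far_mem hm 0).2 (farI_mem hm).2 (Prod.ext (cst L'' 0) (cst M'' 0)))
    · obtain rfl : d = 0 := by simpa [c, c'] using k1
      obtain rfl : d' = 0 := by simpa [c, c'] using k2
      exact no_line hm (fun x hx y hy e => hi hx hy (congrArg Prod.swap e)) M L L'
  · obtain rfl : e = 0 := (mul_eq_zero.1 (Nat.eq_zero_of_add_eq_zero_right k1)).resolve_left c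
    obtain rfl : e' = 0 := (mul_eq_zero.1 (Nat.eq_zero_of_add_eq_zero_right k2)).resolve_left c
    exact no_line hm hi L M M'

theorem one_le {a : ℕ} {X : Set (PP 63)} {j : PP 63 → PP a} (h : ¬ ∃ c, ∀ x ∈ X, j x = c) :
    1 ≤ a := by
  by_contra c
  obtain rfl : a = 0 := by omega
  exact h ⟨toP 1, fun x _ => (rep_rep _).eq (Morph.of_minors (rep_toP one_ne_zero)
    (j x).rep_nonzero fun i k => by rw [Subsingleton.elim (α := Fin 1) i k])⟩

theorem smooth_swap {a b : ℕ} {C : Set (PP a × PP b)} (h : IsSmoothElliptic C) :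
    IsSmoothElliptic (Prod.swap '' C) := by
  obtain ⟨A, B, μ, ν, h1, h2, h3, h4, h5, rfl⟩ := h
  exact ⟨A, B, ν, μ, h1, h3, h2, fun x hx y hy e => h4 hx hy (congrArg Prod.swap e),
    fun f F G H a1 a2 a3 a4 a5 a6 => h5 f F H G a1 a3 a2
      (a4.mono fun w g => ⟨g.1, g.2.1, g.2.2.2, g.2.2.1⟩) a6 a5, by rw [Set.image_image]; rfl⟩

theorem through {m a b : ℕ} (hm : 0 < m) {j : PP 63 → PP a} {k : PP 63 → PP b}
    (hj : IsMorphism (YY m) j) (hk : IsMorphism (YY m) k)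
    (hi : Set.InjOn (fun x => (j x, k x)) (YY m)) (hj' : ¬ ∃ c, ∀ x ∈ YY m, j x = c)
    {U : Set (PP a × PP b)} (hU : IsOpen (hat U)) (h : ∀ x ∈ YY m, (j x, k x) ∈ U) :
    ∃ p, ∀ x ∈ YY m, (j x, k x) ≠ p →
      ∃ C, IsSmoothElliptic C ∧ C ⊆ U ∧ (j x, k x) ∈ C ∧ p ∈ C := by
  by_cases hk' : ∃ c, ∀ x ∈ YY m, k x = c
  · obtain ⟨c, hc⟩ := hk'
    have hΩ : IsCone {p : VV a × VV a | (p.1, c.rep) ∈ hat U ∧ p.2 ≠ 0} :=
      ⟨(hU.preimage (by fun_prop)).inter (isOpen_ne.preimage continuous_snd),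
        fun u v g => ⟨((isCone_hat hU).ne _ _ g.1).1, g.2⟩, fun u v s t hs ht g =>
          ⟨by simpa using (isCone_hat hU).smul _ _ s 1 hs one_ne_zero g.1, smul_ne_zero ht g.2⟩⟩
    obtain ⟨p₀, q₀, H⟩ := Sm.connect hm hj hj hΩ
      (fun x hx u v hu hv => ⟨⟨_, h x hx, hu, hc x hx ▸ rep_rep c⟩, hv.ne⟩) hj' hj'
    refine ⟨(p₀, c), fun x hx hne => ?_⟩
    obtain ⟨F, D, G, E, r1, r2, -, r4, -, r6, -⟩ := H x hx
    have e1 : ∀ w, pev (fun i => C (c.rep i)) w = c.rep := fun w => by ext i; simp [pev]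
    have e2 : ptop (fun i => C (c.rep i)) 0 = c.rep := by ext i; simp [ptop]
    have e3 : (j x, c) = (j x, k x) := Prod.ext rfl (hc x hx).symm
    have := exists_smooth hU (Q := fun i => C (c.rep i)) (e := 0)
      ⟨r1.degP, fun i => by simp, fun w => by rw [e1]; exact (r1.mem w).1,
        by rw [e2]; exact r1.top.1⟩ r2 (one_le hj') (Or.inr (three_le hm hj fun x hx y hy e =>
          hi hx hy (Prod.ext e ((hc x hx).trans (hc y hy).symm))))
      (by rwa [e1, e2, r4, r6, (rep_rep c).toP_eq, e3])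
    rwa [e1, e2, r4, r6, (rep_rep c).toP_eq, e3] at this
  · obtain ⟨p₀, q₀, H⟩ := Sm.connect hm hj hk (isCone_hat hU)
      (fun x hx u v hu hv => ⟨_, h x hx, hu, hv⟩) hj' hk'
    refine ⟨(p₀, q₀), fun x hx hne => ?_⟩
    obtain ⟨F, D, G, E, r1, r2, r3, r4, r5, r6, r7⟩ := H x hx
    have a1 := one_le hj'
    have a2 := one_le hk'
    have := exists_smooth hU r1 r2 a1 (Or.inl ⟨r3, by
      by_contra c
      obtain rfl : a = 1 := by omega
      obtain rfl : b = 1 := by omega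
      exact no_quadric hm hj hk hi⟩) (by rwa [r4, r5, r6, r7])
    rwa [r4, r5, r6, r7] at this

theorem strongConn_YY (m : ℕ) (hm : 0 < m) : StrongConn (YY m) := by
  intro a b j k hj hk hi U hU hY
  have h : ∀ x ∈ YY m, (j x, k x) ∈ U := fun x hx => hY ⟨x, hx, rfl⟩
  have a1 := (cen_mem hm 0).2
  have a2 := (cenI_mem m).2
  obtain ⟨p, key⟩ : ∃ p, ∀ x ∈ YY m, (j x, k x) ≠ p →
      ∃ C, IsSmoothElliptic C ∧ C ⊆ U ∧ (j x, k x) ∈ C ∧ p ∈ C := by
    by_cases hj' : ∃ c, ∀ x ∈ YY m, j x = c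
    swap
    · exact through hm hj hk hi hj' hU h
    obtain ⟨c, hc⟩ := hj'
    obtain ⟨p, H⟩ := through hm hk hj
      (fun x hx y hy e => hi hx hy (congrArg Prod.swap e)) (by
        rintro ⟨c', hc'⟩
        exact cen_ne hm (hi a1 a2 (Prod.ext ((hc _ a1).trans (hc _ a2).symm)
          ((hc' _ a1).trans (hc' _ a2).symm)))) (isOpen_hat_swap hU) h
    refine ⟨p.swap, fun x hx hne => ?_⟩
    obtain ⟨C, h1, h2, h3, h4⟩ := H x hx fun e => hne (congrArg Prod.swap e)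
    exact ⟨_, smooth_swap h1, by rintro _ ⟨p, hp, rfl⟩; exact h2 hp, ⟨_, h3, rfl⟩, ⟨_, h4, rfl⟩⟩
  have key' : ∀ x ∈ YY m, ∃ C, IsSmoothElliptic C ∧ C ⊆ U ∧ (j x, k x) ∈ C ∧ p ∈ C := by
    intro x hx
    by_cases c : (j x, k x) = p
    swap
    · exact key x hx c
    obtain ⟨z, hz, z1⟩ : ∃ z ∈ YY m, (j z, k z) ≠ p := by
      by_contra! g
      exact cen_ne hm (hi a1 a2 ((g _ a1).trans (g _ a2).symm))
    obtain ⟨C, h1, h2, -, h4⟩ := key z hz z1
    exact ⟨C, h1, h2, c ▸ h4, h4⟩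
  rintro _ ⟨x, hx, rfl⟩ _ ⟨y, hy, rfl⟩
  obtain ⟨C, h1, h2, h3, h4⟩ := key' y hy
  exact Relation.TransGen.tail (Relation.TransGen.single (key' x hx)) ⟨C, h1, h2, h4, h3⟩

theorem main : ∃ (n : ℕ) (X : Set (PP n)), IsProjVariety X ∧ IsSmooth X ∧ StrongConn X ∧
    ∃ x ∈ X, ∃ y ∈ X, 0 < kobayashi X x y := by
  obtain ⟨C, h⟩ := ahlfors2 (2 * 2000) le_rfl
  exact ⟨63, YY 2000, isProjVariety_YY _ (by norm_num), isSmooth_YY _ (by norm_num),
    strongConn_YY _ (by norm_num), kob2 2000 (by norm_num) C h⟩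

end Pool.Agent.Lib.MP_879098_ag.H66
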