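import Pool.Agent.Lib.MP_879098_ag.Ell
import Pool.Agent.Lib.MP_879098_ag.H66Defs

/-! Maps `P(w) + v R(w)` from the cubic `v^2 = w^3 - w` to projective space. -/

namespace Pool.Agent.Lib.MP_879098_ag.H66

open Polynomial hiding C X eval_X eval_C
open Ell Filter Topology

variable {n : ℕ} {P R : Fin (n + 1) → ℂ[X]} {D : ℕ} {u : VV 2} {x : PP 2}

/-- the value of the map at an affine point -/
noncomputable def val (P R : Fin (n + 1) → ℂ[X]) (w v : ℂ) : VV n := pev P w + v • pev R w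

/-- the derivative of the map in the direction `(a, b)` -/
noncomputable def dval (P R : Fin (n + 1) → ℂ[X]) (w v a b : ℂ) : VV n :=
  a • pev (fun i => derivative (P i)) w + b • pev R w +
    (v * a) • pev (fun i => derivative (R i)) w

open Classical in
/-- The map of the cubic with affine coordinates `P(w) + v R(w)`. -/
noncomputable def mu2 (P R : Fin (n + 1) → ℂ[X]) (D : ℕ) (x : PP 2) : PP n :=
  if x.rep 2 = 0 then toP (ptop P D) else toP (val P R (x.rep 0 / x.rep 2) (x.rep 1 / x.rep 2))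

/-- the data of a morphism -/
structure Dat (P R : Fin (n + 1) → ℂ[X]) (D : ℕ) : Prop where
  degP : ∀ i, (P i).natDegree ≤ D
  degR : R = 0 ∨ ∃ k, D = k + 2 ∧ ∀ i, (R i).natDegree ≤ k
  ne : ∀ w v, v ^ 2 = w ^ 3 - w → val P R w v ≠ 0
  top : ptop P D ≠ 0

theorem mu2_aff (h : Rep u x) (h2 : u 2 ≠ 0) :
    mu2 P R D x = toP (val P R (u 0 / u 2) (u 1 / u 2)) := by
  obtain ⟨s, hs, e⟩ := h.exists_smul (rep_rep x)
  simp [mu2, e, hs, h2, mul_div_mul_left _ _ hs]

theorem mu2_inf (h : Rep u x) (h2 : u 2 = 0) : mu2 P R D x = toP (ptop P D) := by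
  obtain ⟨s, hs, e⟩ := h.exists_smul (rep_rep x)
  simp [mu2, e, h2]

theorem mu2_toP (w v : ℂ) : mu2 P R D (toP ![w, v, 1]) = toP (val P R w v) := by
  simp [mu2_aff (rep_toP (ne_aff w v))]

theorem mu2_top : mu2 P R D (toP ![0, 1, 0]) = toP (ptop P D) := mu2_inf (rep_toP ne_inf) rfl

theorem Dat.rep_aff (H : Dat P R D) (hx : x ∈ cubic (-1) 0) (h : Rep u x) (h2 : u 2 ≠ 0) :
    Rep (val P R (u 0 / u 2) (u 1 / u 2)) (mu2 P R D x) := by
  rw [mu2_aff h h2]
  exact rep_toP (H.ne _ _ (cubic_aff ((mem_cubic h).1 hx) h2))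

theorem hom_zero (k : ℕ) (A B : MvPolynomial (Fin 3) ℂ) : hom 0 k A B = 0 := by simp [hom]

open MvPolynomial in
theorem Dat.isMorphism (H : Dat P R D) : IsMorphism (cubic (-1) 0) (mu2 P R D) := by
  intro x hx
  have hd := H.degP
  have hX : ∀ i : Fin 3, (X i : MvPolynomial (Fin 3) ℂ).IsHomogeneous 1 := isHomogeneous_X ℂ
  have hom' : ∀ (k : ℕ) (j : Fin (n + 1)) (A B F : MvPolynomial (Fin 3) ℂ), A.IsHomogeneous k →
      B.IsHomogeneous k → F.IsHomogeneous (k * 2) →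
      (hom (R j) (D - 2) A B * F).IsHomogeneous (k * D) := fun k j A B F h1 h2 h3 => by
    rcases H.degR with rfl | ⟨l, rfl, -⟩
    · simpa [hom_zero] using isHomogeneous_zero _ _ _
    · rw [mul_add]
      exact (hom_isHomogeneous h1 h2).mul h3
  by_cases h2 : x.rep 2 = 0
  · have hA : (X 1 ^ 2 + X 0 * X 2 : MvPolynomial (Fin 3) ℂ).IsHomogeneous 2 :=
      ((hX 1).pow 2).add ((hX 0).mul (hX 2))
    refine ⟨2 * D, 1, fun i => hom (P i) D (X 1 ^ 2 + X 0 * X 2) (X 0 ^ 2) +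
      hom (R i) (D - 2) (X 1 ^ 2 + X 0 * X 2) (X 0 ^ 2) * ((X 1 ^ 2 + X 0 * X 2) * X 0 * X 1), X 1,
      fun i => (hom_isHomogeneous hA ((hX 0).pow 2)).add (hom' _ _ _ _ _ hA ((hX 0).pow 2)
        ((hA.mul (hX 0)).mul (hX 1))), hX 1, fun c => x.rep_nonzero ?_,
      fun y hy u hu h1 => ?_⟩
    · have h1 : x.rep 1 = 0 := by simpa using c _ (rep_rep x) _ rfl
      ext k
      fin_cases k
      exacts [cubic_inf ((mem_cubic (rep_rep x)).1 hx) h2, h1, h2]
    rw [eval_X] at h1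
    have hc := (mem_cubic hu).1 hy
    by_cases h3 : u 2 = 0
    · have h0 := cubic_inf hc h3
      rw [mu2_inf hu h3]
      convert (rep_toP H.top).smul (pow_ne_zero D (pow_ne_zero 2 h1)) using 2 with i
      rw [map_add, eval_hom_zero (by simp [h0])]
      simp [h0, ptop]
    · have h0 : u 0 ≠ 0 := fun e => by simp [e, h1, h3] at hc
      have e : u 1 ^ 2 + u 0 * u 2 = u 0 ^ 2 * (u 0 / u 2) := by
        field_simp
        linear_combination hc
      convert (H.rep_aff hy hu h3).smul (pow_ne_zero D (pow_ne_zero 2 h0)) using 2 with i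
      rw [map_add, eval_hom (hd i) (w := u 0 / u 2) (by simpa using e)]
      rcases H.degR with rfl | ⟨k, rfl, hk⟩
      · simp [pev, val, hom_zero]
      · rw [map_mul, Nat.add_sub_cancel, eval_hom (hk i) (w := u 0 / u 2) (by simpa using e)]
        simp only [map_mul, map_pow, map_add, eval_X, e, pev, val, Pi.smul_apply, Pi.add_apply,
          smul_eq_mul]
        ring
  · refine ⟨1 * D, 1, fun i => hom (P i) D (X 0) (X 2) + hom (R i) (D - 2) (X 0) (X 2) * (X 1 * X 2),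
      X 2, fun i => (hom_isHomogeneous (hX 0) (hX 2)).add (hom' _ _ _ _ _ (hX 0) (hX 2)
        ((hX 1).mul (hX 2))),
      hX 2, fun c => h2 (by simpa using c _ (rep_rep x) _ rfl), fun y hy u hu h3 => ?_⟩
    rw [eval_X] at h3
    convert (H.rep_aff hy hu h3).smul (pow_ne_zero D h3) using 2 with i
    rw [map_add, eval_hom (hd i) (w := u 0 / u 2) (by simp [mul_div_cancel₀ _ h3])]
    rcases H.degR with rfl | ⟨k, rfl, hk⟩
    · simp [pev, val, hom_zero]
    · rw [map_mul, Nat.add_sub_cancel,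
        eval_hom (hk i) (w := u 0 / u 2) (by simp [mul_div_cancel₀ _ h3])]
      simp only [map_mul, eval_X, pev, val, Pi.smul_apply, Pi.add_apply, smul_eq_mul]
      field_simp
      ring

/-- the map near the point at infinity -/
theorem Dat.rep_inf (H : Dat P R D) (hx : x ∈ cubic (-1) 0) (h : Rep u x) (h1 : u 1 ≠ 0)
    (_h4 : u 1 ^ 2 + u 0 * u 2 ≠ 0) :
    Rep (val (fun i => reflect D (P i)) (fun i => reflect (D - 2) (R i))
      (u 0 ^ 2 / (u 1 ^ 2 + u 0 * u 2)) (u 0 * u 1 / (u 1 ^ 2 + u 0 * u 2))) (mu2 P R D x) := by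
  have hc := (mem_cubic h).1 hx
  by_cases h3 : u 2 = 0
  · rw [mu2_inf h h3, cubic_inf hc h3]
    simpa [val, pev_reflect_zero] using rep_toP H.top
  have h0 : u 0 ≠ 0 := fun e => by simp [e, h1, h3] at hc
  have e : u 1 ^ 2 + u 0 * u 2 = u 0 ^ 2 * (u 0 / u 2) := by
    field_simp
    linear_combination hc
  have w0 : u 0 / u 2 ≠ 0 := div_ne_zero h0 h3
  have e1 : u 0 ^ 2 / (u 1 ^ 2 + u 0 * u 2) = (u 0 / u 2)⁻¹ := by
    rw [e]; field_simp
  convert (H.rep_aff hx h h3).smul (inv_ne_zero (pow_ne_zero D w0)) using 1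
  rw [e1, val, val, pev_reflect P D H.degP w0, smul_add, smul_smul,
    inv_mul_cancel₀ (pow_ne_zero D w0), one_smul]
  congr 1
  rcases H.degR with rfl | ⟨k, rfl, hk⟩
  · ext i
    simp [pev]
  · rw [pev_reflect R k hk w0, Nat.add_sub_cancel, smul_smul, smul_smul, e]
    congr 1
    rw [pow_add]
    have := pow_ne_zero k w0
    generalize (u 0 / u 2) ^ k = y at this
    field_simp

theorem hasDerivAt_pev (P : Fin (n + 1) → ℂ[X]) {a : ℂ → ℂ} {a' z : ℂ} (ha : HasDerivAt a a' z) :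
    HasDerivAt (fun τ => pev P (a τ)) (a' • pev (fun i => derivative (P i)) (a z)) z :=
  hasDerivAt_pi.2 fun i => by
    have := ((P i).hasDerivAt (a z)).comp z ha
    rw [mul_comm] at this
    exact this

theorem hasDerivAt_val (P R : Fin (n + 1) → ℂ[X]) {a b : ℂ → ℂ} {a' b' z : ℂ}
    (ha : HasDerivAt a a' z) (hb : HasDerivAt b b' z) :
    HasDerivAt (fun τ => val P R (a τ) (b τ)) (dval P R (a z) (b z) a' b') z := by
  refine ((hasDerivAt_pev P ha).add (hb.smul (hasDerivAt_pev R ha))).congr_deriv ?_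
  rw [dval, mul_smul]
  abel

/-- velocity zero does not depend on the lift -/
theorem par {G M : ℂ → VV n} {M' : VV n} {y : ℂ → PP n} (hG : AnalyticAt ℂ G 0)
    (hM : HasDerivAt M M' 0) (h : ∀ᶠ τ in 𝓝 0, Rep (G τ) (y τ) ∧ Rep (M τ) (y τ))
    (hs : ∃ s : ℂ, deriv G 0 = s • G 0) : ∃ κ : ℂ, M' = κ • M 0 := by
  obtain ⟨s, hs⟩ := hs
  have h0 := h.self_of_nhds
  obtain ⟨c, -, hc⟩ := h0.2.exists_smul h0.1
  obtain ⟨i, hi⟩ := Function.ne_iff.1 h0.1.ne
  have hi' : G 0 i ≠ 0 := hi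
  have d1 := hasDerivAt_pi.1 hG.differentiableAt.hasDerivAt
  have d2 := hasDerivAt_pi.1 hM
  refine ⟨c * M' i / G 0 i, funext fun k => ?_⟩
  have e : (fun τ => G τ i * M τ k) =ᶠ[𝓝 0] fun τ => G τ k * M τ i := h.mono fun τ hτ => by
    obtain ⟨r, -, hr⟩ := hτ.2.exists_smul hτ.1
    simp only [hr, Pi.smul_apply, smul_eq_mul]
    ring
  have := (((d1 i).mul (d2 k)).congr_of_eventuallyEq e.symm).unique ((d1 k).mul (d2 i))
  have e0 := e.self_of_nhds
  have e1 := congrFun hc k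
  simp only [hs, Pi.smul_apply, smul_eq_mul] at this e0 e1 ⊢
  field_simp
  linear_combination this - s * e0 + M' i * e1

theorem isImmersion {m : ℕ} {Q S : Fin (m + 1) → ℂ[X]} {E : ℕ} (H : Dat P R D) (H' : Dat Q S E)
    (h3 : ∀ w v κ κ' : ℂ, v ^ 2 = w ^ 3 - w → dval P R w v (2 * v) (3 * w ^ 2 - 1) = κ • val P R w v →
      dval Q S w v (2 * v) (3 * w ^ 2 - 1) ≠ κ' • val Q S w v)
    (h4 : ∀ κ : ℂ, ptop R (D - 2) ≠ κ • ptop P D) :
    IsImmersion (cubic (-1) 0) (mu2 P R D) (mu2 Q S E) := by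
  intro f F G K hF hG hK h s1 s2
  have d := hasDerivAt_pi.1 hF.differentiableAt.hasDerivAt
  have h0 := h.self_of_nhds
  have hc : (fun τ => F τ 1 ^ 2 * F τ 2) =ᶠ[𝓝 0] fun τ => F τ 0 ^ 3 - F τ 0 * F τ 2 ^ 2 :=
    h.mono fun τ hτ => (mem_cubic hτ.2.1).1 hτ.1
  have dc := ((((d 1).pow 2).mul (d 2)).congr_of_eventuallyEq hc.symm).unique
    (((d 0).pow 3).sub ((d 0).mul ((d 2).pow 2)))
  have c0 := hc.self_of_nhds
  simp only [Pi.pow_apply, Nat.cast_ofNat, Nat.add_one_sub_one, pow_one] at dc c0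
  by_cases h2 : F 0 2 = 0
  · have g0 := cubic_inf c0 h2
    have g1 : F 0 1 ≠ 0 := fun e => h0.2.1.ne (by ext k; fin_cases k; exacts [g0, e, h2])
    have dA := ((d 1).pow 2).add ((d 0).mul (d 2))
    have g2 : F 0 1 ^ 2 + F 0 0 * F 0 2 ≠ 0 := by simpa [g0] using g1
    obtain ⟨κ, hκ⟩ := par hG (hasDerivAt_val (fun i => reflect D (P i))
      (fun i => reflect (D - 2) (R i)) (((d 0).pow 2).div dA g2) (((d 0).mul (d 1)).div dA g2))
      (y := fun τ => mu2 P R D (f τ)) (by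
        filter_upwards [h, (d 1).continuousAt.eventually_ne g1, dA.continuousAt.eventually_ne g2]
          with τ a1 a2 a3
        exact ⟨a1.2.2.1, H.rep_inf a1.1 a1.2.1 a2 a3⟩) s1
    simp [dval, val, g0, h2, pev_reflect_zero] at hκ
    have g3 : deriv F 0 0 = 0 := by
      by_contra c
      have c1 : deriv F 0 0 * F 0 1 * F 0 1 ^ 2 / (F 0 1 ^ 2) ^ 2 ≠ 0 := by positivity
      exact h4 _ (by rw [mul_smul, ← hκ, smul_smul, inv_mul_cancel₀ c1, one_smul])
    have g4 : deriv F 0 2 = 0 := by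
      rw [g0, h2] at dc
      simpa [g1] using dc
    refine ⟨deriv F 0 1 / F 0 1, funext fun k => ?_⟩
    fin_cases k <;> simp [g0, h2, g1, g3, g4]
  · have da := (d 0).div (d 2) h2
    have db := (d 1).div (d 2) h2
    have ev := (d 2).continuousAt.eventually_ne h2
    obtain ⟨κ, hκ⟩ := par hG (hasDerivAt_val P R da db) (y := fun τ => mu2 P R D (f τ)) (by
        filter_upwards [h, ev] with τ a1 a2
        exact ⟨a1.2.2.1, H.rep_aff a1.1 a1.2.1 a2⟩) s1
    obtain ⟨κ', hκ'⟩ := par hK (hasDerivAt_val Q S da db) (y := fun τ => mu2 Q S E (f τ)) (by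
        filter_upwards [h, ev] with τ a1 a2
        exact ⟨a1.2.2.2, H'.rep_aff a1.1 a1.2.1 a2⟩) s2
    simp only [Pi.div_apply] at hκ hκ'
    have e := cubic_aff c0 h2
    set w := F 0 0 / F 0 2 with hw
    set v := F 0 1 / F 0 2 with hv
    set a := (deriv F 0 0 * F 0 2 - F 0 0 * deriv F 0 2) / F 0 2 ^ 2 with ha
    set b := (deriv F 0 1 * F 0 2 - F 0 1 * deriv F 0 2) / F 0 2 ^ 2 with hb
    have e1 : 2 * v * b = (3 * w ^ 2 - 1) * a := by
      rw [hw, hv, ha, hb]
      field_simp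
      linear_combination F 0 2 * dc - 3 * deriv F 0 2 * c0
    obtain ⟨l, l1, l2⟩ : ∃ l : ℂ, a = l * (2 * v) ∧ b = l * (3 * w ^ 2 - 1) := by
      by_cases c : v = 0
      · have c1 : 3 * w ^ 2 - 1 ≠ 0 := fun c1 => by
          rw [c] at e
          have : (2 : ℂ) = 0 := by linear_combination (9 * w) * e + (3 * w ^ 2 - 2) * c1
          norm_num at this
        refine ⟨b / (3 * w ^ 2 - 1), ?_, by field_simp⟩
        rw [c] at e1 ⊢
        simpa [c1] using e1
      · exact ⟨a / (2 * v), by field_simp, by field_simp; linear_combination e1⟩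
    have l0 : l = 0 := by
      by_contra c
      have k : ∀ {n : ℕ} (P R : Fin (n + 1) → ℂ[X]) (κ : ℂ), dval P R w v a b = κ • val P R w v →
          dval P R w v (2 * v) (3 * w ^ 2 - 1) = (l⁻¹ * κ) • val P R w v := fun P R κ g => by
        rw [mul_smul, ← g, l1, l2, eq_inv_smul_iff₀ c]
        simp only [dval, smul_add, smul_smul]
        ring_nf
      exact h3 _ _ _ _ e (k _ _ _ hκ) (k _ _ _ hκ')
    rw [l0, zero_mul, ha, div_eq_zero_iff] at l1
    rw [l0, zero_mul, hb, div_eq_zero_iff] at l2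
    refine ⟨deriv F 0 2 / F 0 2, funext fun k => ?_⟩
    have l3 := l1.resolve_right (pow_ne_zero 2 h2)
    have l4 := l2.resolve_right (pow_ne_zero 2 h2)
    fin_cases k <;> simp <;> field_simp
    · linear_combination l3
    · linear_combination l4

end Pool.Agent.Lib.MP_879098_ag.H66
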