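import Pool.Agent.Lib.MP_879098_ag.SDefs
import Pool.Agent.Lib.MP_879098_ag.Base

/-! Chains of discs: symmetry, concatenation, and existence near a smooth point. -/

namespace Pool.Agent.Lib.MP_879098_ag.Hy

open Filter Topology Metric

variable {n : ℕ} {X : Set (PP n)}

theorem poincare_comm (a b : ℂ) : poincare a b = poincare b a := by
  rw [poincare, poincare, norm_div, norm_div, norm_sub_rev a b,
    ← Complex.norm_conj (1 - (starRingEnd ℂ) b * a)]
  simp [mul_comm]

theorem chain_trans {x y z : PP n} {r s : ℝ} (h : DiscChain X x y r) (h' : DiscChain X y z s) :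
    DiscChain X x z (r + s) := by
  induction h with
  | refl x => rwa [zero_add]
  | step f a b y r hf ha hb _ ih => rw [add_assoc]; exact DiscChain.step f a b z _ hf ha hb (ih h')

theorem chain_symm {x y : PP n} {r : ℝ} (h : DiscChain X x y r) : DiscChain X y x r := by
  induction h with
  | refl x => exact DiscChain.refl x
  | step f a b y r hf ha hb _ ih =>
    have := chain_trans ih (DiscChain.step f b a _ _ hf hb ha (DiscChain.refl _))
    rwa [add_zero, add_comm, poincare_comm] at this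

/-- two points are joined by a chain of discs -/
def Jn (X : Set (PP n)) (x y : PP n) : Prop := ∃ r, DiscChain X x y r

theorem Jn.symm {x y : PP n} (h : Jn X x y) : Jn X y x := h.imp fun _ => chain_symm

theorem Jn.trans {x y z : PP n} (h : Jn X x y) (h' : Jn X y z) : Jn X x z :=
  h.elim fun _ a => h'.elim fun _ b => ⟨_, chain_trans a b⟩

theorem jn_near (hX : IsSmooth X) {x : PP n} (hx : x ∈ X) {v : VV n} (hv : Rep v x) :
    ∀ᶠ w in 𝓝 v, ∀ y ∈ X, Rep w y → Jn X x y := by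
  obtain ⟨c, F, hF, hs, he⟩ := hX x hx v hv
  obtain ⟨R₀, hR₀⟩ := (fderiv ℂ F v).toLinearMap.exists_rightInverse_of_surjective
    (LinearMap.range_eq_top.2 hs)
  set L := fderiv ℂ F v with hL
  let R : (Fin c → ℂ) →L[ℂ] VV n := LinearMap.toContinuousLinearMap R₀
  have hR : ∀ y, L (R y) = y := fun y => LinearMap.congr_fun hR₀ y
  let Φ : VV n → VV n := fun w => w + R (F w - L (w - v))
  have F0 : F v = 0 := he.self_of_nhds.2 ⟨x, hx, hv⟩
  have Φ0 : Φ v = v := by simp [Φ, F0]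
  have ΦL : ∀ w, L (Φ w) = F w + L v := fun w => by
    simp only [Φ, map_add, hR, map_sub]
    ring
  have a1 : AnalyticAt ℂ Φ v := analyticAt_id.add ((R.analyticAt _).comp (hF.sub
    ((L.analyticAt _).comp (analyticAt_id.sub analyticAt_const))))
  have a2 : HasFDerivAt Φ ((ContinuousLinearEquiv.refl ℂ (VV n) : VV n ≃L[ℂ] VV n) :
      VV n →L[ℂ] VV n) v := by
    have := (hasFDerivAt_id v).add (R.hasFDerivAt.comp v (hF.differentiableAt.hasFDerivAt.sub
      (L.hasFDerivAt.comp v ((hasFDerivAt_id v).sub_const v))))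
    refine this.congr_fderiv ?_
    ext1 y
    simp [hL]
  have a3 : ContDiffAt ℂ ⊤ Φ v := a1.contDiffAt
  have a4 := a3.hasStrictFDerivAt' a2 (by simp)
  let Ψ := a4.localInverse _ _ _
  have b1 : AnalyticAt ℂ Ψ v := by
    have := a3.to_localInverse a2 (by simp)
    rw [Φ0] at this
    exact this.analyticAt
  have b2 : Ψ v = v := by
    have := a4.localInverse_apply_image
    rwa [Φ0] at this
  have b3 : ∀ᶠ u in 𝓝 v, Φ (Ψ u) = u := by
    have := a4.eventually_right_inverse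
    rwa [Φ0] at this
  have b4 : ∀ᶠ u in 𝓝 v, (F (Ψ u) = 0 ↔ ∃ y ∈ X, Rep (Ψ u) y) :=
    b1.continuousAt.eventually (p := fun w => F w = 0 ↔ ∃ y ∈ X, Rep w y) (by rw [b2]; exact he)
  obtain ⟨ε, hε, b5⟩ := Metric.eventually_nhds_iff_ball.1
    (b1.eventually_analyticAt.and (b3.and b4))
  have b6 : ∀ᶠ w in 𝓝 v, Φ w ∈ ball v (ε / 2) :=
    a1.continuousAt.eventually (by rw [Φ0]; exact ball_mem_nhds _ (by positivity))
  filter_upwards [he, b6, a4.eventually_left_inverse] with w h1 h2 h3 y hy hw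
  have c1 : L (Φ w) = L v := by rw [ΦL, h1.2 ⟨y, hy, hw⟩, zero_add]
  let g : ℂ → VV n := fun ζ => v + (2 * ζ) • (Φ w - v)
  have c2 : ∀ ζ ∈ ball (0 : ℂ) 1, g ζ ∈ ball v ε := fun ζ hζ => by
    rw [mem_ball_zero_iff] at hζ
    rw [mem_ball_iff_norm] at h2 ⊢
    simp only [g, add_sub_cancel_left, norm_smul, norm_mul, Complex.norm_ofNat]
    nlinarith [norm_nonneg (Φ w - v), norm_nonneg ζ]
  have c3 : ∀ ζ ∈ ball (0 : ℂ) 1, ∃ y ∈ X, Rep (Ψ (g ζ)) y := fun ζ hζ => by
    obtain ⟨-, d1, d2⟩ := b5 _ (c2 ζ hζ)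
    refine d2.1 ?_
    have := ΦL (Ψ (g ζ))
    rw [d1] at this
    simp only [g, map_add, map_smul, map_sub, c1, sub_self, smul_zero, add_zero] at this
    exact (right_eq_add.1 this)
  have c4 : IsDisc X fun ζ => toP (Ψ (g ζ)) := fun ζ hζ => by
    refine ⟨?_, fun ζ => Ψ (g ζ), (b5 _ (c2 ζ hζ)).1.comp (by fun_prop), ?_⟩
    · obtain ⟨y, h, h'⟩ := c3 ζ hζ
      simp only [h'.toP_eq, h]
    · filter_upwards [isOpen_ball.mem_nhds hζ] with ξ hξ
      obtain ⟨y, -, h'⟩ := c3 ξ hξ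
      exact rep_toP h'.ne
  have := DiscChain.step _ 0 (1 / 2) _ _ c4 (mem_ball_self one_pos)
    (by rw [mem_ball_zero_iff]; norm_num) (DiscChain.refl _)
  have e1 : toP (Ψ (g 0)) = x := by simp only [g, mul_zero, zero_smul, add_zero, b2, hv.toP_eq]
  have e2 : toP (Ψ (g (1 / 2))) = y := by
    rw [show g (1 / 2) = Φ w by simp [g], show Ψ (Φ w) = w from h3, hw.toP_eq]
  exact ⟨_, by simpa only [e1, e2] using this⟩

end Pool.Agent.Lib.MP_879098_ag.Hy
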