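import Pool.Agent.Lib.MP_879098_ag.SClosed

/-! The surface is smooth. -/

namespace Pool.Agent.Lib.MP_879098_ag.Sm

open Filter Topology Polynomial Metric

namespace H76

theorem c1_zero {l0 l1 m0 m1 s0 s1 a b c1 c2 : ℂ} (hl : l0 = 0 → l1 ≠ 0) (hm : m0 = 0 → m1 ≠ 0)
    (hs : s0 = 0 → s1 ≠ 0) (E : l1 * m1 * s0 = l0 * m0 * s1)
    (dl0 : c1 * m0 * s1 + c2 * m1 * b = 0) (dl1 : c1 * m1 * s0 + c2 * m0 * a = 0)
    (dm0 : c1 * l0 * s1 - c2 * l1 * a = 0) (dm1 : c1 * l1 * s0 - c2 * l0 * b = 0)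
    (ds0 : s0 = 0 → c1 * (l1 * m1) = 0) (ds1 : s1 = 0 → c1 * (l0 * m0) = 0) : c1 = 0 := by
  by_contra hc
  have e1 : c1 * (l1 * m1 * s0) = 0 := by
    linear_combination (1 / 2) * l0 * dl0 + (1 / 2) * m1 * dm1 + (1 / 2) * c1 * E
  have e1' : l1 * m1 * s0 = 0 := (mul_eq_zero.1 e1).resolve_left hc
  have e2' : l0 * m0 * s1 = 0 := E ▸ e1'
  have f1 : l1 * m1 = 0 := by
    by_cases h : s0 = 0
    · exact (mul_eq_zero.1 (ds0 h)).resolve_left hc
    · exact (mul_eq_zero.1 e1').resolve_right h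
  have f2 : l0 * m0 = 0 := by
    by_cases h : s1 = 0
    · exact (mul_eq_zero.1 (ds1 h)).resolve_left hc
    · exact (mul_eq_zero.1 e2').resolve_right h
  rcases mul_eq_zero.1 f1 with h | h
  · have l0n : l0 ≠ 0 := fun c => hl c h
    have m0z : m0 = 0 := (mul_eq_zero.1 f2).resolve_left l0n
    have m1n := hm m0z
    rw [m0z] at dl1
    rw [h] at dm0
    have a1 : s0 = 0 := by simpa [hc, m1n] using dl1
    have a2 : s1 = 0 := by simpa [hc, l0n] using dm0
    exact hs a1 a2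
  · have m0n : m0 ≠ 0 := fun c => hm c h
    have l0z : l0 = 0 := (mul_eq_zero.1 f2).resolve_right m0n
    have l1n := hl l0z
    rw [h] at dl0
    rw [l0z] at dm1
    have a1 : s0 = 0 := by simpa [hc, l1n] using dm1
    have a2 : s1 = 0 := by simpa [hc, m0n] using dl0
    exact hs a1 a2

theorem c2_zero {k : ℕ} (hk : 0 < k) {l0 l1 m0 m1 t0 t1 c2 : ℂ} (hl : l0 = 0 → l1 ≠ 0)
    (hm : m0 = 0 → m1 ≠ 0) (ht : t0 = 0 → t1 ≠ 0)
    (dl0 : c2 * m1 * (t0 ^ k + t1 ^ k) = 0) (dl1 : c2 * m0 * (t0 ^ k - t1 ^ k) = 0)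
    (dm0 : c2 * l1 * (t0 ^ k - t1 ^ k) = 0) (dm1 : c2 * l0 * (t0 ^ k + t1 ^ k) = 0)
    (dt0 : c2 * (k * t0 ^ (k - 1)) * (l1 * m0 - l0 * m1) = 0) : c2 = 0 := by
  by_contra hc
  have hk' : (k : ℂ) ≠ 0 := Nat.cast_ne_zero.2 hk.ne'
  by_cases ha : t0 ^ k - t1 ^ k = 0
  · have t0n : t0 ≠ 0 := fun c => by
      rw [c, zero_pow hk.ne', zero_sub, neg_eq_zero] at ha
      exact ht c (pow_eq_zero_iff hk.ne' |>.1 ha)
    have hb : t0 ^ k + t1 ^ k ≠ 0 := fun c => pow_ne_zero k t0n (by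
      linear_combination (1 / 2) * ha + (1 / 2) * c)
    have a1 : m1 = 0 := by simpa [hc, hb] using dl0
    have a2 : l0 = 0 := by simpa [hc, hb] using dm1
    have a3 : m0 ≠ 0 := fun c => hm c a1
    rw [a1] at dt0
    simp [hc, hk', t0n, a3, hl a2] at dt0
  · have a1 : m0 = 0 := by simpa [hc, ha] using dl1
    have a2 : l1 = 0 := by simpa [hc, ha] using dm0
    have a3 : l0 ≠ 0 := fun c => hl c a2
    have hb : t0 ^ k + t1 ^ k = 0 := by simpa [hc, a3] using dm1
    have t0n : t0 ≠ 0 := fun c => ha (by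
      rw [c, zero_pow hk.ne'] at hb ⊢
      linear_combination -hb)
    rw [a1] at dt0
    simp [hc, hk', t0n, a3, hm a1] at dt0

/-- the derivative of the equations in the direction `g` -/
def DE (k : ℕ) (u g : W6) : Fin 4 → ℂ :=
  ![(g 0 1 * u 1 1 + u 0 1 * g 1 1) * u 2 0 + u 0 1 * u 1 1 * g 2 0 -
      ((g 0 0 * u 1 0 + u 0 0 * g 1 0) * u 2 1 + u 0 0 * u 1 0 * g 2 1),
    (g 0 1 * u 1 0 + u 0 1 * g 1 0) * (u 5 0 ^ k - u 5 1 ^ k) +
      u 0 1 * u 1 0 * (k * u 5 0 ^ (k - 1) * g 5 0 - k * u 5 1 ^ (k - 1) * g 5 1) -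
      ((g 0 0 * u 1 1 + u 0 0 * g 1 1) * (u 5 0 ^ k + u 5 1 ^ k) +
      u 0 0 * u 1 1 * (k * u 5 0 ^ (k - 1) * g 5 0 + k * u 5 1 ^ (k - 1) * g 5 1)),
    (g 3 1 * u 4 1 + u 3 1 * g 4 1) * u 5 0 + u 3 1 * u 4 1 * g 5 0 -
      ((g 3 0 * u 4 0 + u 3 0 * g 4 0) * u 5 1 + u 3 0 * u 4 0 * g 5 1),
    (g 3 1 * u 4 0 + u 3 1 * g 4 0) * (u 2 0 ^ k - u 2 1 ^ k) +
      u 3 1 * u 4 0 * (k * u 2 0 ^ (k - 1) * g 2 0 - k * u 2 1 ^ (k - 1) * g 2 1) -
      ((g 3 0 * u 4 1 + u 3 0 * g 4 1) * (u 2 0 ^ k + u 2 1 ^ k) +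
      u 3 0 * u 4 1 * (k * u 2 0 ^ (k - 1) * g 2 0 + k * u 2 1 ^ (k - 1) * g 2 1))]

theorem hasDerivAt_EE (k : ℕ) (u g : W6) :
    HasDerivAt (fun t : ℂ => EE k (u + t • g)) (DE k u g) 0 := by
  have h : ∀ i a, HasDerivAt (fun t : ℂ => u i a + t * g i a) (g i a) 0 := fun i a => by
    simpa using ((hasDerivAt_id (0 : ℂ)).mul_const (g i a)).const_add (u i a)
  refine hasDerivAt_pi.2 fun a => ?_
  fin_cases a
  · convert (((h 0 1).fun_mul (h 1 1)).fun_mul (h 2 0)).fun_sub
      (((h 0 0).fun_mul (h 1 0)).fun_mul (h 2 1)) using 1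
    · rfl
    · simp [DE]
  · convert (((h 0 1).fun_mul (h 1 0)).fun_mul (((h 5 0).fun_pow k).fun_sub
      ((h 5 1).fun_pow k))).fun_sub (((h 0 0).fun_mul (h 1 1)).fun_mul
        (((h 5 0).fun_pow k).fun_add ((h 5 1).fun_pow k))) using 1
    · rfl
    · simp [DE]
  · convert (((h 3 1).fun_mul (h 4 1)).fun_mul (h 5 0)).fun_sub
      (((h 3 0).fun_mul (h 4 0)).fun_mul (h 5 1)) using 1
    · rfl
    · simp [DE]
  · convert (((h 3 1).fun_mul (h 4 0)).fun_mul (((h 2 0).fun_pow k).fun_sub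
      ((h 2 1).fun_pow k))).fun_sub (((h 3 0).fun_mul (h 4 1)).fun_mul
        (((h 2 0).fun_pow k).fun_add ((h 2 1).fun_pow k))) using 1
    · rfl
    · simp [DE]

theorem pair_ne {y : Fin 2 → ℂ} (h : y ≠ 0) (h0 : y 0 = 0) : y 1 ≠ 0 := fun h1 =>
  h (funext fun a => by fin_cases a <;> assumption)

/-- the differentials of the four equations are independent on the surface -/
theorem indep {k : ℕ} (hk : 2 ≤ k) {u : W6} (hu : Sol k u) (c : Fin 4 → ℂ)
    (hc : ∀ g, ∑ a, DE k u g a * c a = 0) : c = 0 := by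
  have d := fun i a => hc (Pi.single i (Pi.single a 1))
  have d00 := d 0 0
  have d01 := d 0 1
  have d10 := d 1 0
  have d11 := d 1 1
  have d20 := d 2 0
  have d21 := d 2 1
  have d30 := d 3 0
  have d31 := d 3 1
  have d40 := d 4 0
  have d41 := d 4 1
  have d50 := d 5 0
  have d51 := d 5 1
  simp [DE, Fin.sum_univ_four, -mul_eq_zero] at d00 d01 d10 d11 d20 d21 d30 d31 d40 d41 d50 d51
  have n := fun i => pair_ne (hu.1 i)
  have z : (0 : ℂ) ^ (k - 1) = 0 := zero_pow (by omega)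
  have c0 : c 0 = 0 := c1_zero (c2 := c 1) (a := u 5 0 ^ k - u 5 1 ^ k) (b := u 5 0 ^ k + u 5 1 ^ k)
    (n 0) (n 1) (n 2) hu.2.1.1 (by linear_combination -d00)
    (by linear_combination d01) (by linear_combination -d10) (by linear_combination d11)
    (fun h => by rw [h, z] at d20; linear_combination d20)
    (fun h => by rw [h, z] at d21; linear_combination -d21)
  have c2 : c 2 = 0 := c1_zero (c2 := c 3) (a := u 2 0 ^ k - u 2 1 ^ k) (b := u 2 0 ^ k + u 2 1 ^ k)
    (n 3) (n 4) (n 5) hu.2.2.1 (by linear_combination -d30)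
    (by linear_combination d31) (by linear_combination -d40) (by linear_combination d41)
    (fun h => by rw [h, z] at d50; linear_combination d50)
    (fun h => by rw [h, z] at d51; linear_combination -d51)
  rw [c0] at d00 d01 d10 d11 d20
  rw [c2] at d30 d31 d40 d41 d50
  have c1 : c 1 = 0 := c2_zero (k := k) (by omega) (n 0) (n 1) (n 5) (by linear_combination -d00)
    (by linear_combination d01) (by linear_combination d10) (by linear_combination -d11)
    (by linear_combination d50)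
  have c3 : c 3 = 0 := c2_zero (k := k) (by omega) (n 3) (n 4) (n 2) (by linear_combination -d30)
    (by linear_combination d31) (by linear_combination d40) (by linear_combination -d41)
    (by linear_combination d20)
  ext a
  fin_cases a <;> assumption

theorem to_fin {E G : Type} [NormedAddCommGroup E] [NormedSpace ℂ E] [NormedAddCommGroup G]
    [NormedSpace ℂ G] [FiniteDimensional ℂ G] {F : E → G} {v : E} (h : AnalyticAt ℂ F v)
    (hs : Function.Surjective (fderiv ℂ F v)) : ∃ (c : ℕ) (F' : E → Fin c → ℂ),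
      AnalyticAt ℂ F' v ∧ Function.Surjective (fderiv ℂ F' v) ∧ ∀ w, F' w = 0 ↔ F w = 0 := by
  let L : G ≃L[ℂ] (Fin (Module.finrank ℂ G) → ℂ) := ContinuousLinearEquiv.ofFinrankEq (by simp)
  refine ⟨_, L ∘ F, (L.analyticAt _).comp h, ?_, fun w => by simp⟩
  rw [L.comp_fderiv]
  exact L.surjective.comp hs

theorem hasDerivAt_dir {E G : Type} [NormedAddCommGroup E] [NormedSpace ℂ E] [NormedAddCommGroup G]
    [NormedSpace ℂ G] {F : E → G} {v : E} (h : DifferentiableAt ℂ F v) (y : E) :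
    HasDerivAt (fun t : ℂ => F (v + t • y)) (fderiv ℂ F v y) 0 := by
  have h1 : HasDerivAt (fun t : ℂ => v + t • y) y 0 := by
    simpa using ((hasDerivAt_id (0 : ℂ)).smul_const y).const_add v
  exact HasFDerivAt.comp_hasDerivAt_of_eq (0 : ℂ) h.hasFDerivAt h1 (by simp)

/-- the indices that differ from `e` in at least two places -/
abbrev JJ (e : Fin 6 → Fin 2) : Type := {j : Fin (63 + 1) // ∀ i a, idx j ≠ Function.update e i a}

/-- local equations of the cone -/
noncomputable def FF (k : ℕ) (e : Fin 6 → Fin 2) (w : VV 63) : (JJ e → ℂ) × (Fin 4 → ℂ) :=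
  (fun j => seg (prj e w) j - w (idx.symm e) ^ 5 * w j, EE k (prj e w))

theorem seg_prj_near (e : Fin 6 → Fin 2) (w : VV 63) (i : Fin 6) (a : Fin 2) :
    seg (prj e w) (idx.symm (Function.update e i a)) =
      w (idx.symm e) ^ 5 * w (idx.symm (Function.update e i a)) := by
  rw [seg_idx, ← Finset.prod_erase_mul _ _ (Finset.mem_univ i), Function.update_self]
  congr 1
  rw [Finset.prod_congr rfl (g := fun _ => w (idx.symm e)) fun l hl => by
    rw [Function.update_of_ne (Finset.ne_of_mem_erase hl), prj_self]]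
  simp

theorem analyticAt_FF (k : ℕ) (e : Fin 6 → Fin 2) (v : VV 63) : AnalyticAt ℂ (FF k e) v := by
  have h : ∀ j, AnalyticAt ℂ (fun w : VV 63 => w j) v := fun j =>
    (ContinuousLinearMap.proj (R := ℂ) (φ := fun _ => ℂ) j).analyticAt v
  have h' : ∀ i a, AnalyticAt ℂ (fun w : VV 63 => prj e w i a) v := fun i a => h _
  refine AnalyticAt.prod (analyticAt_pi_iff.2 fun j => ?_) (analyticAt_pi_iff.2 fun a => ?_)
  · exact (analyticAt_pi_iff.1 (analyticAt_seg h') j).fun_sub (((h _).fun_pow 5).fun_mul (h j))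
  · fin_cases a
    · exact (((h' 0 1).fun_mul (h' 1 1)).fun_mul (h' 2 0)).fun_sub
        (((h' 0 0).fun_mul (h' 1 0)).fun_mul (h' 2 1))
    · exact (((h' 0 1).fun_mul (h' 1 0)).fun_mul (((h' 5 0).fun_pow k).fun_sub
        ((h' 5 1).fun_pow k))).fun_sub (((h' 0 0).fun_mul (h' 1 1)).fun_mul
          (((h' 5 0).fun_pow k).fun_add ((h' 5 1).fun_pow k)))
    · exact (((h' 3 1).fun_mul (h' 4 1)).fun_mul (h' 5 0)).fun_sub
        (((h' 3 0).fun_mul (h' 4 0)).fun_mul (h' 5 1))
    · exact (((h' 3 1).fun_mul (h' 4 0)).fun_mul (((h' 2 0).fun_pow k).fun_sub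
        ((h' 2 1).fun_pow k))).fun_sub (((h' 3 0).fun_mul (h' 4 1)).fun_mul
          (((h' 2 0).fun_pow k).fun_add ((h' 2 1).fun_pow k)))

theorem FF_eq_zero {k : ℕ} {e : Fin 6 → Fin 2} {w : VV 63} (he : w (idx.symm e) ≠ 0) :
    FF k e w = 0 ↔ ∃ y ∈ YY k, Rep w y := by
  constructor
  · intro h
    refine rep_of_eqs he (funext fun j => ?_) (congrArg Prod.snd h)
    by_cases c : ∀ i a, idx j ≠ Function.update e i a
    · exact sub_eq_zero.1 (congrFun (congrArg Prod.fst h) ⟨j, c⟩)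
    · push Not at c
      obtain ⟨i, a, c⟩ := c
      rw [← idx.symm_apply_apply j, c]
      exact seg_prj_near e w i a
  · rintro ⟨y, hy, h⟩
    obtain ⟨h1, h2⟩ := rep_prj hy h he
    exact Prod.ext (funext fun j => sub_eq_zero.2 (congrFun h2 j)) (sol_iff.1 h1).2

theorem exists_prj (e : Fin 6 → Fin 2) (g : W6) (hg : ∀ i, g i (e i) = 0) :
    ∃ h : VV 63, prj e h = g := by
  classical
  refine ⟨fun j => ∑ i, ∑ a, if idx j = Function.update e i a then g i a else 0, ?_⟩
  ext i a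
  simp only [prj, Equiv.apply_symm_apply]
  have key : ∀ l b, Function.update e i a = Function.update e l b → l ≠ i → g l b = 0 :=
    fun l b h hl => by
      have := congrFun h l
      rw [Function.update_of_ne hl, Function.update_self] at this
      rw [← this, hg]
  rw [Finset.sum_eq_single i (fun l _ hl => Finset.sum_eq_zero fun b _ => by
    split_ifs with c
    exacts [key l b c hl, rfl]) (by simp), Finset.sum_eq_single a (fun b _ hb => if_neg fun c => by
      have := congrFun c i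
      rw [Function.update_self, Function.update_self] at this
      exact hb this.symm) (by simp), if_pos rfl]

theorem prj_add_smul (e : Fin 6 → Fin 2) (v h : VV 63) (t : ℂ) :
    prj e (v + t • h) = prj e v + t • prj e h := rfl

theorem surj_FF {k : ℕ} (hk : 2 ≤ k) {e : Fin 6 → Fin 2} {v : VV 63} (he : v (idx.symm e) ≠ 0)
    (hu : Sol k (prj e v)) : Function.Surjective (fderiv ℂ (FF k e) v) := by
  classical
  have hd := hasDerivAt_dir (analyticAt_FF k e v).differentiableAt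
  set D := fderiv ℂ (FF k e) v
  -- the first block
  have A : ∀ y : JJ e → ℂ, ∃ h, D h = (y, 0) := fun y => by
    let h : VV 63 := fun j => if c : ∀ i a, idx j ≠ Function.update e i a then
      -(v (idx.symm e) ^ 5)⁻¹ * y ⟨j, c⟩ else 0
    have h0 : ∀ i a, h (idx.symm (Function.update e i a)) = 0 := fun i a =>
      dif_neg fun c => c i a (idx.apply_symm_apply _)
    have h1 : prj e h = 0 := funext fun i => funext fun a => h0 i a
    have h2 : h (idx.symm e) = 0 := by simpa using h0 0 (e 0)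
    refine ⟨h, (hd h).unique ?_⟩
    have : (fun t : ℂ => FF k e (v + t • h)) = fun t => FF k e v + t • (y, 0) := by
      funext t
      refine Prod.ext (funext fun j => ?_) ?_
      · have h3 : h j = -(v (idx.symm e) ^ 5)⁻¹ * y j := dif_pos j.2
        simp only [FF, prj_add_smul, h1, smul_zero, add_zero, Pi.add_apply, Pi.smul_apply, h2,
          smul_eq_mul, mul_zero, Prod.fst_add, Prod.smul_fst, h3]
        field_simp
        ring
      · simp [FF, prj_add_smul, h1]
    rw [this]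
    simpa using ((hasDerivAt_id (0 : ℂ)).smul_const (y, (0 : Fin 4 → ℂ))).const_add (FF k e v)
  -- the second block
  have B : ∀ h, (D h).2 = DE k (prj e v) (prj e h) := fun h =>
    ((ContinuousLinearMap.snd ℂ (JJ e → ℂ) (Fin 4 → ℂ)).hasFDerivAt.comp_hasDerivAt (0 : ℂ)
      (hd h)).unique (hasDerivAt_EE k (prj e v) (prj e h))
  have C : ∀ g : W6, ∃ h, (D h).2 = DE k (prj e v) g := fun g => by
    let c : Fin 6 → ℂ := fun i => -g i (e i) / v (idx.symm e)
    obtain ⟨h, hh⟩ := exists_prj e (g + fun i => c i • prj e v i) fun i => by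
      simp only [Pi.add_apply, Pi.smul_apply, prj_self, smul_eq_mul, c]
      field_simp
      ring
    refine ⟨h, ?_⟩
    have z : DE k (prj e v) (fun i => c i • prj e v i) = 0 := by
      refine (hasDerivAt_EE k _ _).unique ?_
      have : (fun t : ℂ => EE k (prj e v + t • fun i => c i • prj e v i)) = fun _ => 0 := by
        funext t
        rw [← EE_smul (sol_iff.1 hu).2 fun i => 1 + t * c i]
        congr 1
        funext i
        simp [add_smul, mul_smul]
      rw [this]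
      exact hasDerivAt_const _ _
    have add : ∀ g g' : W6, DE k (prj e v) (g + g') = DE k (prj e v) g + DE k (prj e v) g' :=
      fun g g' => by
        ext a
        fin_cases a <;> simp [DE] <;> ring
    rw [B, hh, add, z, add_zero]
  have S : ∀ z : Fin 4 → ℂ, ∃ h, (D h).2 = z := by
    let L : VV 63 →ₗ[ℂ] (Fin 4 → ℂ) := (LinearMap.snd ℂ (JJ e → ℂ) _).comp D.toLinearMap
    by_contra hn
    have hl : LinearMap.range L < ⊤ := lt_top_iff_ne_top.2 fun c =>
      hn (LinearMap.range_eq_top.1 c)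
    obtain ⟨φ, h0, hφ⟩ := Submodule.exists_le_ker_of_lt_top _ hl
    have := indep hk hu (fun a => φ (Pi.single a 1)) fun g => by
      obtain ⟨h, hh⟩ := C g
      have h1 : φ (D h).2 = 0 := hφ ⟨h, rfl⟩
      rw [hh, LinearMap.pi_apply_eq_sum_univ] at h1
      rw [← h1]
      refine Finset.sum_congr rfl fun a _ => ?_
      rw [smul_eq_mul]
      congr 2
      funext b
      simp [Pi.single_apply, eq_comm]
    refine h0 (LinearMap.pi_ext fun a x => ?_)
    have h2 : (Pi.single a x : Fin 4 → ℂ) = x • (Pi.single a 1 : Fin 4 → ℂ) := by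
      rw [← Pi.single_smul', smul_eq_mul, mul_one]
    rw [h2, map_smul, show φ (Pi.single a 1) = 0 from congrFun this a]
    simp
  rintro ⟨y, z⟩
  obtain ⟨h, hh⟩ := S z
  obtain ⟨h', hh'⟩ := A (y - (D h).1)
  refine ⟨h + h', ?_⟩
  rw [map_add, hh']
  exact Prod.ext (by simp) (by simp [hh])

end H76

open H76 in
theorem isSmooth_YY (k : ℕ) (hk : 2 ≤ k) : IsSmooth (YY k) := by
  intro x hx v hv
  obtain ⟨j, hj⟩ := Function.ne_iff.1 hv.ne
  obtain ⟨e, rfl⟩ := idx.symm.surjective j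
  obtain ⟨c, F, h1, h2, h3⟩ := to_fin (analyticAt_FF k e v) (surj_FF hk hj (rep_prj hx hv hj).1)
  refine ⟨c, F, h1, h2, ?_⟩
  filter_upwards [(continuous_apply (idx.symm e)).continuousAt.eventually_ne hj] with w hw
  rw [h3, FF_eq_zero hw]

end Pool.Agent.Lib.MP_879098_ag.Sm
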