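import Pool.Agent.Lib.MP_879098_ag.SIrred
import Pool.Agent.Lib.MP_879098_ag.SSmooth
import Pool.Agent.Lib.MP_879098_ag.HyLoc

/-! Any two points of the smooth surface are joined by a chain of discs. -/

namespace Pool.Agent.Lib.MP_879098_ag.Hy

open Filter Topology Metric Set Sm Sm.Ir

theorem branch {φ : ℂ → ℂ} (hφ : Continuous φ) {x : ℂ} (h0 : φ x ≠ 0) (hx : x ≠ 0) :
    ∃ ε > 0, ∃ σ : ℂ → ℂ, ContinuousOn σ (ball x ε) ∧
      ∀ y ∈ ball x ε, σ y ^ 2 = φ y ∧ y ≠ 0 ∧ σ y ≠ 0 := by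
  obtain ⟨v, hv⟩ := IsAlgClosed.exists_pow_nat_eq (φ x) two_pos
  have h1 : ∀ᶠ y in 𝓝 x, φ y / φ x ∈ Complex.slitPlane :=
    (hφ.div_const _).continuousAt.eventually (Complex.isOpen_slitPlane.mem_nhds (by
      simp [div_self h0]))
  obtain ⟨ε, hε, h2⟩ := Metric.eventually_nhds_iff_ball.1
    (h1.and ((hφ.continuousAt.eventually_ne h0).and (continuousAt_id.eventually_ne hx)))
  have h3 : ∀ y, (v * (φ y / φ x) ^ (((2 : ℕ) : ℂ)⁻¹)) ^ 2 = φ y := fun y => by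
    rw [mul_pow, Complex.cpow_nat_inv_pow _ two_ne_zero, hv, mul_div_cancel₀ _ h0]
  refine ⟨ε, hε, fun y => v * (φ y / φ x) ^ (((2 : ℕ) : ℂ)⁻¹), continuousOn_const.mul
    ((hφ.div_const _).continuousOn.cpow_const fun y hy => (h2 y hy).1),
    fun y hy => ⟨h3 y, (h2 y hy).2.2, fun e => (h2 y hy).2.1 ?_⟩⟩
  exact (h3 y).symm.trans ((congrArg (· ^ 2) e).trans (zero_pow two_ne_zero))

theorem isPreconnected_C0 {n : ℕ} (hn : 0 < n) : IsPreconnected (C0 n) := by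
  have hr : 1 < Module.rank ℝ ℂ := by rw [Complex.rank_real_complex]; norm_num
  let ψ : ℂ → ℂ × ℂ := fun v => ((1 - v ^ 2) ^ ((n : ℂ)⁻¹), v)
  have s1 : ∀ v : ℂ, ‖v‖ = 1 / 2 → 1 - v ^ 2 ∈ Complex.slitPlane := fun v hv => by
    rw [sub_eq_add_neg]
    exact Complex.mem_slitPlane_of_norm_lt_one (by rw [norm_neg, norm_pow, hv]; norm_num)
  have s2 : IsPreconnected (ψ '' sphere 0 (1 / 2)) :=
    (isPreconnected_sphere hr 0 _).image _ ((ContinuousOn.cpow_const (by fun_prop)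
      fun v hv => s1 v (mem_sphere_zero_iff_norm.1 hv)).prodMk continuousOn_id)
  have s3 : ψ '' sphere 0 (1 / 2) ⊆ C0 n := by
    rintro _ ⟨v, hv, rfl⟩
    rw [mem_sphere_zero_iff_norm] at hv
    refine ⟨?_, fun e => Complex.slitPlane_ne_zero (s1 v hv) ?_, fun e => ?_⟩
    · simp only [ψ, Complex.cpow_nat_inv_pow _ hn.ne']
      ring
    · exact ((Complex.cpow_eq_zero_iff _ _).1 e).1
    · simp only [ψ] at e
      rw [e] at hv
      norm_num at hv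
  have m1 : (1 / 2 : ℂ) ∈ sphere (0 : ℂ) (1 / 2) := by simp
  have m2 : (-(1 / 2) : ℂ) ∈ sphere (0 : ℂ) (1 / 2) := by simp
  let K := connectedComponentIn (C0 n) (ψ (1 / 2))
  have s4 : ψ '' sphere 0 (1 / 2) ⊆ K := s2.subset_connectedComponentIn ⟨_, m1, rfl⟩ s3
  have ext : ∀ T : Set (ℂ × ℂ), IsPreconnected T → T ⊆ C0 n → ∀ p ∈ T, p ∈ K → T ⊆ K :=
    fun T h1 h2 p h3 h4 => by
      have := h1.subset_connectedComponentIn h3 h2
      rwa [← connectedComponentIn_eq h4] at this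
  let P : ℂ → Prop := fun x => ∀ v, v ^ 2 = 1 - x ^ n → (x, v) ∈ K
  let B : Set ℂ := {x | x = 0 ∨ x ^ n = 1}
  have hB : B.Finite := (finite_singleton 0).union (by
    refine (Polynomial.nthRootsFinset n (1 : ℂ)).finite_toSet.subset fun x hx => ?_
    exact (Polynomial.mem_nthRootsFinset hn _).2 hx)
  have hc : IsPreconnected Bᶜ :=
    (hB.countable.isPathConnected_compl_of_one_lt_rank hr).isConnected.isPreconnected
  have mB : ∀ p ∈ C0 n, p.1 ∈ Bᶜ := fun p hp => by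
    rintro (h | h)
    · exact hp.2.1 h
    · exact hp.2.2 (by simpa [h] using hp.1)
  have key : ∀ x ∈ Bᶜ, ∀ᶠ y in 𝓝[Bᶜ] x, (P x → P y) ∧ (P y → P x) := fun x hx => by
    obtain ⟨ε, hε, σ, h1, h2⟩ := branch (φ := fun x => 1 - x ^ n) (by fun_prop) (x := x)
      (fun e => hx (Or.inr (sub_eq_zero.1 e).symm)) fun e => hx (Or.inl e)
    have h3 : ∀ y ∈ ball x ε, ∀ z ∈ ball x ε, P y → P z := fun y hy z hz h v hv => by
      rcases sq_eq_sq_iff_eq_or_eq_neg.1 (hv.trans (h2 z hz).1.symm) with e | e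
      · exact ext _ ((convex_ball x ε).isPreconnected.image (fun y => (y, σ y))
          (continuousOn_id.prodMk h1)) (by rintro _ ⟨w, hw, rfl⟩; exact h2 w hw) _ ⟨y, hy, rfl⟩
          (h _ (h2 y hy).1) ⟨z, hz, by rw [e]⟩
      · exact ext _ ((convex_ball x ε).isPreconnected.image (fun y => (y, -σ y))
          (continuousOn_id.prodMk h1.neg)) (by
            rintro _ ⟨w, hw, rfl⟩
            exact ⟨(neg_sq _).trans (h2 w hw).1, (h2 w hw).2.1, neg_ne_zero.2 (h2 w hw).2.2⟩)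
          _ ⟨y, hy, rfl⟩ (h _ ((neg_sq _).trans (h2 y hy).1)) ⟨z, hz, by rw [e]⟩
    filter_upwards [mem_nhdsWithin_of_mem_nhds (ball_mem_nhds x hε)] with y hy
    exact ⟨h3 x (mem_ball_self hε) y hy, h3 y hy x (mem_ball_self hε)⟩
  have p0 : P (ψ (1 / 2)).1 := fun v hv => by
    rcases sq_eq_sq_iff_eq_or_eq_neg.1 (hv.trans (s3 ⟨_, m1, rfl⟩).1.symm) with e | e
    · exact s4 ⟨_, m1, by rw [e]⟩
    · exact s4 ⟨_, m2, by rw [e]; simp only [ψ, neg_sq]⟩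
  have all : C0 n ⊆ K := fun p hp =>
    hc.induction₂' (fun x y => P x → P y) key (fun _ _ _ _ _ _ a b c => b (a c))
      (mB _ (s3 ⟨_, m1, rfl⟩)) (mB p hp) p0 p.2 hp.1
  rw [all.antisymm (connectedComponentIn_subset _ _)]
  exact isPreconnected_connectedComponentIn

theorem jn_YY {k : ℕ} (hk : 2 ≤ k) {x y : PP 63} (hx : x ∈ YY k) (hy : y ∈ YY k) :
    Jn (YY k) x y := by
  have hs := isSmooth_YY k hk
  let Θ : (ℂ × ℂ) × ℂ × ℂ → VV 63 := fun a => seg (UU k a.1 a.2)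
  have hΘ : Continuous Θ := continuous_seg.comp (continuous_pi fun i => continuous_pi fun a => by
    fin_cases i <;> fin_cases a <;> simp only [UU] <;> simp <;> fun_prop)
  have hc := (isPreconnected_C0 (n := 4 * k) (by omega)).prod
    (isPreconnected_C0 (n := 4 * k) (by omega))
  have h1 : ∀ a ∈ C0 (4 * k) ×ˢ C0 (4 * k), ∀ b ∈ C0 (4 * k) ×ˢ C0 (4 * k),
      Jn (YY k) (toP (Θ a)) (toP (Θ b)) := fun a ha b hb => by
    refine hc.induction₂' (fun a b => Jn (YY k) (toP (Θ a)) (toP (Θ b))) (fun a ha => ?_)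
      (fun _ _ _ _ _ _ => Jn.trans) ha hb
    obtain ⟨a1, a2⟩ := (sol_UU ha.1 ha.2).mem
    filter_upwards [mem_nhdsWithin_of_mem_nhds
      (hΘ.continuousAt.eventually (jn_near hs a2 (rep_toP a1))), self_mem_nhdsWithin] with b h hb
    obtain ⟨b1, b2⟩ := (sol_UU hb.1 hb.2).mem
    exact ⟨h _ b2 (rep_toP b1), (h _ b2 (rep_toP b1)).symm⟩
  have h2 : ∀ x ∈ YY k, ∃ a ∈ C0 (4 * k) ×ˢ C0 (4 * k), Jn (YY k) x (toP (Θ a)) := fun x hx => by
    obtain ⟨ε, hε, h⟩ := Metric.eventually_nhds_iff_ball.1 (jn_near hs hx (rep_rep x))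
    have v0 := norm_pos_iff.2 (rep_rep x).ne
    obtain ⟨l, m, l', m', g, κ, k0, hn⟩ := gen_dense k (by omega) x hx (ε / ‖x.rep‖) (by positivity)
    obtain ⟨p, hp, q, hq, c, c0, e⟩ := exists_param g
    obtain ⟨b1, b2⟩ := (sol_UU hp hq).mem
    refine ⟨(p, q), ⟨hp, hq⟩, h (κ⁻¹ • gpt l m l' m') ?_ _ b2 ?_⟩
    · have k1 := norm_pos_iff.2 k0
      rw [norm_smul, mul_comm ‖κ‖, ← mul_assoc, div_mul_cancel₀ _ v0.ne'] at hn
      rw [mem_ball_iff_norm, show κ⁻¹ • gpt l m l' m' - x.rep = κ⁻¹ • (gpt l m l' m' - κ • x.rep) by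
        rw [smul_sub, smul_smul, inv_mul_cancel₀ k0, one_smul], norm_smul, norm_inv,
        inv_mul_lt_iff₀ k1, mul_comm]
      exact hn
    · have := (rep_toP b1).smul (mul_ne_zero (inv_ne_zero k0) (inv_ne_zero c0))
      rwa [e, smul_smul, inv_mul_cancel_right₀ c0, ← e] at this
  obtain ⟨a, ha, h3⟩ := h2 x hx
  obtain ⟨b, hb, h4⟩ := h2 y hy
  exact (h3.trans (h1 a ha b hb)).trans h4.symm

end Pool.Agent.Lib.MP_879098_ag.Hy
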