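import Pool.Agent.Lib.MP_879098_ag.SBase

/-! Generic points are dense in the smooth surface. -/

namespace Pool.Agent.Lib.MP_879098_ag.Sm

open Filter Topology Polynomial Metric

namespace Dn

/-- the equations of one triple in scalar form -/
def Zs (l0 l1 m0 m1 s0 s1 r0 r1 : ℂ) : Prop :=
  l1 * m1 * s0 = l0 * m0 * s1 ∧ l1 * m0 * r0 = l0 * m1 * r1

/-- the punctured neighbourhoods of the origin -/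
noncomputable abbrev FF : Filter ℂ := 𝓝[≠] 0

/-- convergence along `FF` -/
abbrev Td (f : ℂ → ℂ) (a : ℂ) : Prop := Tendsto f FF (𝓝 a)

theorem td_of_cont {f : ℂ → ℂ} (h : Continuous f) {a : ℂ} (e : f 0 = a) : Td f a :=
  e ▸ (h.tendsto 0).mono_left nhdsWithin_le_nhds

theorem exists_sel {n : ℕ} (hn : 0 < n) (a : ℂ) :
    ∃ σ : ℂ → ℂ, Tendsto σ (𝓝 (a ^ n)) (𝓝 a) ∧ ∀ w, σ w ^ n = w := by
  have hre : 0 < ((n : ℂ)⁻¹).re := by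
    rw [← Complex.ofReal_natCast, ← Complex.ofReal_inv, Complex.ofReal_re]
    positivity
  by_cases ha : a = 0
  · refine ⟨fun w => w ^ ((n : ℂ)⁻¹), ?_, fun w => Complex.cpow_nat_inv_pow w hn.ne'⟩
    have := (Complex.continuousAt_cpow_const_of_re_pos (z := 0) (Or.inl le_rfl) hre).tendsto
    rw [Complex.zero_cpow (inv_ne_zero (Nat.cast_ne_zero.2 hn.ne'))] at this
    rwa [ha, zero_pow hn.ne']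
  · have hp : a ^ n ≠ 0 := pow_ne_zero _ ha
    refine ⟨fun w => a * (w / a ^ n) ^ ((n : ℂ)⁻¹), ?_, fun w => ?_⟩
    · have h1 := (Complex.continuousAt_cpow_const_of_re_pos (z := 1) (Or.inl (by simp)) hre).tendsto
      have h2 : Tendsto (fun w : ℂ => w / a ^ n) (𝓝 (a ^ n)) (𝓝 1) := by
        have := (tendsto_id (x := 𝓝 (a ^ n))).div_const (a ^ n)
        rwa [div_self hp] at this
      simpa using (h1.comp h2).const_mul a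
    · rw [mul_pow, Complex.cpow_nat_inv_pow _ hn.ne', mul_div_cancel₀ _ hp]

theorem exists_lift {n : ℕ} (hn : 0 < n) {a : ℂ} {f : ℂ → ℂ} (h : Td f (a ^ n)) :
    ∃ g : ℂ → ℂ, Td g a ∧ ∀ τ, g τ ^ n = f τ := by
  obtain ⟨σ, h1, h2⟩ := exists_sel hn a
  exact ⟨fun τ => σ (f τ), h1.comp h, fun τ => h2 _⟩

theorem ev_poly {p : ℂ[X]} (hp : p ≠ 0) : ∀ᶠ τ in FF, p.eval τ ≠ 0 :=
  Filter.Eventually.filter_mono (nhdsNE_le_cofinite 0)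
    (Filter.eventually_cofinite.2 (by simpa using finite_setOfPred_isRoot hp))

theorem ev_add (c : ℂ) : ∀ᶠ τ in FF, c + τ ≠ 0 := by
  simpa [add_comm] using ev_poly (X_add_C_ne_zero c)

theorem par_of {l0 l1 p0 p1 : ℂ} (hl : l0 ≠ 0 ∨ l1 ≠ 0) (hp : p0 ≠ 0 ∨ p1 ≠ 0)
    (h : l1 * p0 - l0 * p1 = 0) : ∃ c : ℂ, c ≠ 0 ∧ l0 = c * p0 ∧ l1 = c * p1 := by
  have key : ∃ c : ℂ, l0 = c * p0 ∧ l1 = c * p1 := by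
    rcases hp with hp | hp
    · refine ⟨l0 / p0, by field_simp, ?_⟩
      field_simp
      linear_combination h
    · refine ⟨l1 / p1, ?_, by field_simp⟩
      field_simp
      linear_combination -h
  obtain ⟨c, h0, h1⟩ := key
  refine ⟨c, fun e => ?_, h0, h1⟩
  rw [e, zero_mul] at h0 h1
  tauto

theorem exists_roots {l0 l1 m0 m1 s0 s1 r0 r1 : ℂ} (hl : l0 ≠ 0 ∨ l1 ≠ 0) (hm : m0 ≠ 0 ∨ m1 ≠ 0)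
    (h : Zs l0 l1 m0 m1 s0 s1 r0 r1) : ∃ a0 a1 b0 b1 : ℂ, s0 = a0 ^ 2 ∧ s1 = a1 ^ 2 ∧
      r0 = b0 ^ 2 ∧ r1 = b1 ^ 2 ∧ l1 * (a0 * b0) - l0 * (a1 * b1) = 0 ∧
        m1 * (a0 * b1) - m0 * (a1 * b0) = 0 := by
  obtain ⟨a0, rfl⟩ := IsAlgClosed.exists_pow_nat_eq s0 two_pos
  obtain ⟨a1, rfl⟩ := IsAlgClosed.exists_pow_nat_eq s1 two_pos
  obtain ⟨b0, rfl⟩ := IsAlgClosed.exists_pow_nat_eq r0 two_pos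
  obtain ⟨b1, rfl⟩ := IsAlgClosed.exists_pow_nat_eq r1 two_pos
  obtain ⟨e1, e2⟩ := h
  have h1 : (l1 * (a0 * b0) - l0 * (a1 * b1)) * (m1 * (a0 * b1) - m0 * (-a1 * b0)) = 0 := by
    linear_combination b0 * b1 * e1 + a0 * a1 * e2
  have h2 : (l1 * (a0 * b0) - l0 * (-a1 * b1)) * (m1 * (a0 * b1) - m0 * (a1 * b0)) = 0 := by
    linear_combination b0 * b1 * e1 - a0 * a1 * e2
  have h3 : (l1 * (a0 * b0) - l0 * (a1 * b1)) * (l1 * (a0 * b0) - l0 * (-a1 * b1)) = 0 := by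
    rcases hm with hm | hm
    · refine mul_left_cancel₀ (pow_ne_zero 2 hm) ?_
      linear_combination (m0 * l0 * b1 ^ 2) * e1 + (m0 * l1 * a0 ^ 2) * e2
    · refine mul_left_cancel₀ (pow_ne_zero 2 hm) ?_
      linear_combination (m1 * l1 * b0 ^ 2) * e1 + (m1 * l0 * a1 ^ 2) * e2
  have h4 : (m1 * (a0 * b1) - m0 * (a1 * b0)) * (m1 * (a0 * b1) - m0 * (-a1 * b0)) = 0 := by
    rcases hl with hl | hl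
    · refine mul_left_cancel₀ (pow_ne_zero 2 hl) ?_
      linear_combination (l0 * m0 * b0 ^ 2) * e1 - (l0 * m1 * a0 ^ 2) * e2
    · refine mul_left_cancel₀ (pow_ne_zero 2 hl) ?_
      linear_combination (l1 * m1 * b1 ^ 2) * e1 - (l1 * m0 * a1 ^ 2) * e2
  by_cases hx : l1 * (a0 * b0) - l0 * (a1 * b1) = 0
  · by_cases hy : m1 * (a0 * b1) - m0 * (a1 * b0) = 0
    · exact ⟨a0, a1, b0, b1, rfl, rfl, rfl, rfl, hx, hy⟩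
    · exact ⟨a0, -a1, b0, b1, rfl, by ring, rfl, rfl, (mul_eq_zero.1 h2).resolve_right hy,
        (mul_eq_zero.1 h4).resolve_left hy⟩
  · exact ⟨a0, -a1, b0, b1, rfl, by ring, rfl, rfl, (mul_eq_zero.1 h3).resolve_left hx,
      (mul_eq_zero.1 h1).resolve_left hx⟩

/-- away from the nodes the projection to `(s, r)` is open -/
theorem opn {l0 l1 m0 m1 s0 s1 r0 r1 : ℂ} (hl : l0 ≠ 0 ∨ l1 ≠ 0) (hm : m0 ≠ 0 ∨ m1 ≠ 0)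
    (hs : s0 ≠ 0 ∨ s1 ≠ 0) (hr : r0 ≠ 0 ∨ r1 ≠ 0) (h : Zs l0 l1 m0 m1 s0 s1 r0 r1)
    (hn : ¬ (s0 * s1 = 0 ∧ r0 * r1 = 0)) {S0 S1 R0 R1 : ℂ → ℂ} (h0 : Td S0 s0) (h1 : Td S1 s1)
    (h2 : Td R0 r0) (h3 : Td R1 r1) :
    ∃ L0 L1 M0 M1 : ℂ → ℂ, Td L0 l0 ∧ Td L1 l1 ∧ Td M0 m0 ∧ Td M1 m1 ∧
      ∀ τ, Zs (L0 τ) (L1 τ) (M0 τ) (M1 τ) (S0 τ) (S1 τ) (R0 τ) (R1 τ) ∧
        (S0 τ ≠ 0 → S1 τ ≠ 0 → R0 τ ≠ 0 → R1 τ ≠ 0 →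
          L0 τ ≠ 0 ∧ L1 τ ≠ 0 ∧ M0 τ ≠ 0 ∧ M1 τ ≠ 0) := by
  obtain ⟨a0, a1, b0, b1, rfl, rfl, rfl, rfl, hx, hy⟩ := exists_roots hl hm h
  simp only [ne_eq, mul_eq_zero, pow_eq_zero_iff two_ne_zero] at hs hr hn
  obtain ⟨c, hc, rfl, rfl⟩ := par_of hl (by simp only [ne_eq, mul_eq_zero]; tauto) hx
  obtain ⟨d, hd, rfl, rfl⟩ := par_of hm (by simp only [ne_eq, mul_eq_zero]; tauto) hy
  obtain ⟨A0, g0, e0⟩ := exists_lift two_pos h0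
  obtain ⟨A1, g1, e1⟩ := exists_lift two_pos h1
  obtain ⟨B0, g2, e2⟩ := exists_lift two_pos h2
  obtain ⟨B1, g3, e3⟩ := exists_lift two_pos h3
  refine ⟨fun τ => c * (A0 τ * B0 τ), fun τ => c * (A1 τ * B1 τ), fun τ => d * (A0 τ * B1 τ),
    fun τ => d * (A1 τ * B0 τ), (g0.mul g2).const_mul c, (g1.mul g3).const_mul c,
    (g0.mul g3).const_mul d, (g1.mul g2).const_mul d, fun τ => ?_⟩
  rw [← e0, ← e1, ← e2, ← e3]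
  refine ⟨⟨by ring, by ring⟩, ?_⟩
  simp only [ne_eq, mul_eq_zero, pow_eq_zero_iff two_ne_zero]
  tauto

/-- a point of one triple is a limit of points with nonzero coordinates -/
def App (l0 l1 m0 m1 s0 s1 r0 r1 : ℂ) : Prop :=
  ∃ L0 L1 M0 M1 S0 S1 R0 R1 : ℂ → ℂ, (Td L0 l0 ∧ Td L1 l1) ∧ (Td M0 m0 ∧ Td M1 m1) ∧
    (Td S0 s0 ∧ Td S1 s1) ∧ (Td R0 r0 ∧ Td R1 r1) ∧
    ∀ᶠ τ in FF, Zs (L0 τ) (L1 τ) (M0 τ) (M1 τ) (S0 τ) (S1 τ) (R0 τ) (R1 τ) ∧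
      (L0 τ ≠ 0 ∧ L1 τ ≠ 0) ∧ (M0 τ ≠ 0 ∧ M1 τ ≠ 0) ∧ S0 τ ≠ 0 ∧ S1 τ ≠ 0

theorem Zs.swap {l0 l1 m0 m1 s0 s1 r0 r1 : ℂ} (h : Zs l0 l1 m0 m1 s0 s1 r0 r1) :
    Zs l1 l0 m1 m0 s1 s0 r1 r0 := ⟨h.1.symm, h.2.symm⟩

theorem Zs.exch {l0 l1 m0 m1 s0 s1 r0 r1 : ℂ} (h : Zs l0 l1 m0 m1 s0 s1 r0 r1) :
    Zs m0 m1 l0 l1 s0 s1 r1 r0 := ⟨by linear_combination h.1, by linear_combination -h.2⟩

theorem App.swap {l0 l1 m0 m1 s0 s1 r0 r1 : ℂ} (h : App l0 l1 m0 m1 s0 s1 r0 r1) :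
    App l1 l0 m1 m0 s1 s0 r1 r0 := by
  obtain ⟨L0, L1, M0, M1, S0, S1, R0, R1, h1, h2, h3, h4, h5⟩ := h
  exact ⟨L1, L0, M1, M0, S1, S0, R1, R0, h1.symm, h2.symm, h3.symm, h4.symm,
    h5.mono fun τ h => ⟨h.1.swap, h.2.1.symm, h.2.2.1.symm, h.2.2.2.symm⟩⟩

theorem App.exch {l0 l1 m0 m1 s0 s1 r0 r1 : ℂ} (h : App l0 l1 m0 m1 s0 s1 r0 r1) :
    App m0 m1 l0 l1 s0 s1 r1 r0 := by
  obtain ⟨L0, L1, M0, M1, S0, S1, R0, R1, h1, h2, h3, h4, h5⟩ := h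
  exact ⟨M0, M1, L0, L1, S0, S1, R1, R0, h2, h1, h3, h4.symm,
    h5.mono fun τ h => ⟨h.1.exch, h.2.2.1, h.2.1, h.2.2.2⟩⟩

theorem node0 {l0 l1 m0 m1 s0 r0 : ℂ} (hl : l0 ≠ 0 ∨ l1 ≠ 0) (hm : m0 ≠ 0 ∨ m1 ≠ 0)
    (hs : s0 ≠ 0) (hr : r0 ≠ 0) (h : Zs l0 l1 m0 m1 s0 0 r0 0) : App l0 l1 m0 m1 s0 0 r0 0 := by
  have h1 : l1 = 0 := by
    obtain ⟨e1, e2⟩ := h
    simp only [mul_zero, mul_eq_zero] at e1 e2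
    tauto
  have h0 : l0 ≠ 0 := by tauto
  subst h1
  refine ⟨fun _ => l0, fun τ => l0 * τ ^ 2 * (m0 + τ) * (m1 + τ), fun τ => m0 + τ, fun τ => m1 + τ,
    fun _ => s0, fun τ => s0 * τ ^ 2 * (m1 + τ) ^ 2, fun _ => r0,
    fun τ => r0 * τ ^ 2 * (m0 + τ) ^ 2, ⟨tendsto_const_nhds, td_of_cont (by fun_prop) (by simp)⟩,
    ⟨td_of_cont (by fun_prop) (by simp), td_of_cont (by fun_prop) (by simp)⟩,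
    ⟨tendsto_const_nhds, td_of_cont (by fun_prop) (by simp)⟩,
    ⟨tendsto_const_nhds, td_of_cont (by fun_prop) (by simp)⟩, ?_⟩
  filter_upwards [ev_add m0, ev_add m1, self_mem_nhdsWithin] with τ g0 g1 g2
  have g3 : τ ≠ 0 := g2
  exact ⟨⟨by ring, by ring⟩, ⟨h0, by positivity⟩, ⟨g0, g1⟩, hs, by positivity⟩

theorem node {l0 l1 m0 m1 s0 s1 r0 r1 : ℂ} (hl : l0 ≠ 0 ∨ l1 ≠ 0) (hm : m0 ≠ 0 ∨ m1 ≠ 0)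
    (hs : s0 ≠ 0 ∨ s1 ≠ 0) (hr : r0 ≠ 0 ∨ r1 ≠ 0) (h : Zs l0 l1 m0 m1 s0 s1 r0 r1)
    (h1 : s0 * s1 = 0) (h2 : r0 * r1 = 0) : App l0 l1 m0 m1 s0 s1 r0 r1 := by
  rcases mul_eq_zero.1 h1 with rfl | rfl <;> rcases mul_eq_zero.1 h2 with rfl | rfl
  · exact (node0 hl.symm hm.symm (by tauto) (by tauto) h.swap).swap
  · exact (node0 hm.symm hl.symm (by tauto) (by tauto) h.swap.exch).exch.swap
  · exact (node0 hm hl (by tauto) (by tauto) h.exch).exch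
  · exact node0 hl hm (by tauto) (by tauto) h

theorem pert {k : ℕ} (hk : 0 < k) (s0 s1 : ℂ) : ∃ S0 S1 : ℂ → ℂ, Td S0 s0 ∧ Td S1 s1 ∧
    ∀ᶠ τ in FF, S0 τ ≠ 0 ∧ S1 τ ≠ 0 ∧ S0 τ ^ k - S1 τ ^ k ≠ 0 ∧ S0 τ ^ k + S1 τ ^ k ≠ 0 := by
  have hp : ((C s0 + X * C (2 - s0)) * (C s1 + X * C (1 - s1)) *
      ((C s0 + X * C (2 - s0)) ^ k - (C s1 + X * C (1 - s1)) ^ k) *
      ((C s0 + X * C (2 - s0)) ^ k + (C s1 + X * C (1 - s1)) ^ k) : ℂ[X]) ≠ 0 := by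
    intro h
    have h1 := congrArg (eval 1) h
    simp only [eval_mul, eval_add, eval_sub, eval_pow, eval_C, eval_X, eval_zero, one_mul,
      add_sub_cancel, one_pow, mul_one] at h1
    have h2 : (1 : ℝ) < 2 ^ k := one_lt_pow₀ one_lt_two hk.ne'
    have h3 : (2 : ℝ) * (2 ^ k - 1) * (2 ^ k + 1) = 0 := by exact_mod_cast h1
    have h4 : (0 : ℝ) < 2 * (2 ^ k - 1) * (2 ^ k + 1) :=
      mul_pos (mul_pos two_pos (by linarith)) (by linarith)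
    linarith
  refine ⟨fun τ => s0 + τ * (2 - s0), fun τ => s1 + τ * (1 - s1),
    td_of_cont (by fun_prop) (by simp), td_of_cont (by fun_prop) (by simp), ?_⟩
  filter_upwards [ev_poly hp] with τ h
  simp only [eval_mul, eval_add, eval_sub, eval_pow, eval_C, eval_X, ne_eq, mul_eq_zero,
    not_or] at h
  tauto

theorem rr_ne {k : ℕ} {t0 t1 : ℂ} (h : t0 ≠ 0 ∨ t1 ≠ 0) :
    t0 ^ k - t1 ^ k ≠ 0 ∨ t0 ^ k + t1 ^ k ≠ 0 := by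
  by_contra c
  rw [not_or, not_not, not_not] at c
  rcases h with h | h
  · exact pow_ne_zero k h (by linear_combination (c.1 + c.2) / 2)
  · exact pow_ne_zero k h (by linear_combination (c.2 - c.1) / 2)

theorem both_ne {k : ℕ} (hk : 0 < k) {t0 t1 : ℂ} (h : t0 ≠ 0 ∨ t1 ≠ 0)
    (e : (t0 ^ k - t1 ^ k) * (t0 ^ k + t1 ^ k) = 0) : t0 ≠ 0 ∧ t1 ≠ 0 := by
  constructor
  · rintro rfl
    have h1 := pow_ne_zero k (h.resolve_left (by simp))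
    rw [zero_pow hk.ne'] at e
    exact mul_ne_zero h1 h1 (by linear_combination -e)
  · rintro rfl
    have h1 := pow_ne_zero k (h.resolve_right (by simp))
    rw [zero_pow hk.ne'] at e
    exact mul_ne_zero h1 h1 (by linear_combination e)

/-- a point of the surface is a limit of points with nonzero coordinates -/
def App2 (k : ℕ) (l0 l1 m0 m1 s0 s1 p0 p1 q0 q1 t0 t1 : ℂ) : Prop :=
  ∃ L0 L1 M0 M1 S0 S1 P0 P1 Q0 Q1 T0 T1 : ℂ → ℂ,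
    ((Td L0 l0 ∧ Td L1 l1) ∧ (Td M0 m0 ∧ Td M1 m1) ∧ Td S0 s0 ∧ Td S1 s1) ∧
    ((Td P0 p0 ∧ Td P1 p1) ∧ (Td Q0 q0 ∧ Td Q1 q1) ∧ Td T0 t0 ∧ Td T1 t1) ∧
    ∀ᶠ τ in FF,
      (Zs (L0 τ) (L1 τ) (M0 τ) (M1 τ) (S0 τ) (S1 τ) (T0 τ ^ k - T1 τ ^ k) (T0 τ ^ k + T1 τ ^ k) ∧
        (L0 τ ≠ 0 ∧ L1 τ ≠ 0) ∧ (M0 τ ≠ 0 ∧ M1 τ ≠ 0) ∧ S0 τ ≠ 0 ∧ S1 τ ≠ 0) ∧
      (Zs (P0 τ) (P1 τ) (Q0 τ) (Q1 τ) (T0 τ) (T1 τ) (S0 τ ^ k - S1 τ ^ k) (S0 τ ^ k + S1 τ ^ k) ∧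
        (P0 τ ≠ 0 ∧ P1 τ ≠ 0) ∧ (Q0 τ ≠ 0 ∧ Q1 τ ≠ 0) ∧ T0 τ ≠ 0 ∧ T1 τ ≠ 0)

theorem App2.symm {k : ℕ} {l0 l1 m0 m1 s0 s1 p0 p1 q0 q1 t0 t1 : ℂ}
    (h : App2 k l0 l1 m0 m1 s0 s1 p0 p1 q0 q1 t0 t1) :
    App2 k p0 p1 q0 q1 t0 t1 l0 l1 m0 m1 s0 s1 := by
  obtain ⟨L0, L1, M0, M1, S0, S1, P0, P1, Q0, Q1, T0, T1, h1, h2, h3⟩ := h
  exact ⟨P0, P1, Q0, Q1, T0, T1, L0, L1, M0, M1, S0, S1, h2, h1, h3.mono fun τ h => h.symm⟩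

theorem approx1 {k : ℕ} (hk : 0 < k) {l0 l1 m0 m1 s0 s1 p0 p1 q0 q1 t0 t1 : ℂ}
    (hl : l0 ≠ 0 ∨ l1 ≠ 0) (hm : m0 ≠ 0 ∨ m1 ≠ 0) (hs : s0 ≠ 0 ∨ s1 ≠ 0) (hp : p0 ≠ 0 ∨ p1 ≠ 0)
    (hq : q0 ≠ 0 ∨ q1 ≠ 0) (ht : t0 ≠ 0 ∨ t1 ≠ 0)
    (e1 : Zs l0 l1 m0 m1 s0 s1 (t0 ^ k - t1 ^ k) (t0 ^ k + t1 ^ k))
    (e2 : Zs p0 p1 q0 q1 t0 t1 (s0 ^ k - s1 ^ k) (s0 ^ k + s1 ^ k))
    (hn : ¬ (t0 * t1 = 0 ∧ (s0 ^ k - s1 ^ k) * (s0 ^ k + s1 ^ k) = 0)) :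
    App2 k l0 l1 m0 m1 s0 s1 p0 p1 q0 q1 t0 t1 := by
  have step : ∃ L0 L1 M0 M1 S0 S1 T0 T1 : ℂ → ℂ,
      ((Td L0 l0 ∧ Td L1 l1) ∧ (Td M0 m0 ∧ Td M1 m1) ∧ Td S0 s0 ∧ Td S1 s1) ∧
      (Td T0 t0 ∧ Td T1 t1) ∧ ∀ᶠ τ in FF,
      (Zs (L0 τ) (L1 τ) (M0 τ) (M1 τ) (S0 τ) (S1 τ) (T0 τ ^ k - T1 τ ^ k) (T0 τ ^ k + T1 τ ^ k) ∧
        (L0 τ ≠ 0 ∧ L1 τ ≠ 0) ∧ (M0 τ ≠ 0 ∧ M1 τ ≠ 0) ∧ S0 τ ≠ 0 ∧ S1 τ ≠ 0) ∧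
        T0 τ ≠ 0 ∧ T1 τ ≠ 0 ∧ S0 τ ^ k - S1 τ ^ k ≠ 0 ∧ S0 τ ^ k + S1 τ ^ k ≠ 0 := by
    by_cases c : s0 * s1 = 0 ∧ (t0 ^ k - t1 ^ k) * (t0 ^ k + t1 ^ k) = 0
    · obtain ⟨L0, L1, M0, M1, S0, S1, R0, R1, h1, h2, h3, h4, h5⟩ :=
        node hl hm hs (rr_ne ht) e1 c.1 c.2
      obtain ⟨T0, g0, f0⟩ := exists_lift hk (a := t0) (f := fun τ => (R0 τ + R1 τ) / 2) (by
        convert (h4.1.add h4.2).div_const 2 using 2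
        ring)
      obtain ⟨T1, g1, f1⟩ := exists_lift hk (a := t1) (f := fun τ => (R1 τ - R0 τ) / 2) (by
        convert (h4.2.sub h4.1).div_const 2 using 2
        ring)
      obtain ⟨n0, n1⟩ := both_ne hk ht c.2
      have n2 : (s0 ^ k - s1 ^ k) * (s0 ^ k + s1 ^ k) ≠ 0 := fun e =>
        mul_ne_zero (both_ne hk hs e).1 (both_ne hk hs e).2 c.1
      refine ⟨L0, L1, M0, M1, S0, S1, T0, T1, ⟨h1, h2, h3⟩, ⟨g0, g1⟩, ?_⟩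
      filter_upwards [h5, g0.eventually_ne n0, g1.eventually_ne n1,
        ((h3.1.pow k).sub (h3.2.pow k)).eventually_ne (left_ne_zero_of_mul n2),
        ((h3.1.pow k).add (h3.2.pow k)).eventually_ne (right_ne_zero_of_mul n2)] with τ a b c d e
      refine ⟨⟨?_, a.2⟩, b, c, d, e⟩
      rw [f0, f1]
      convert a.1 using 1 <;> ring
    · obtain ⟨S0, S1, h0, h1, h2⟩ := pert hk s0 s1
      obtain ⟨T0, T1, g0, g1, g2⟩ := pert hk t0 t1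
      obtain ⟨L0, L1, M0, M1, a0, a1, a2, a3, a4⟩ := opn hl hm hs (rr_ne ht) e1 c h0 h1
        ((g0.pow k).sub (g1.pow k)) ((g0.pow k).add (g1.pow k))
      refine ⟨L0, L1, M0, M1, S0, S1, T0, T1, ⟨⟨a0, a1⟩, ⟨a2, a3⟩, h0, h1⟩, ⟨g0, g1⟩, ?_⟩
      filter_upwards [h2, g2] with τ b c
      obtain ⟨d0, d1, d2, d3⟩ := (a4 τ).2 b.1 b.2.1 c.2.2.1 c.2.2.2
      exact ⟨⟨(a4 τ).1, ⟨d0, d1⟩, ⟨d2, d3⟩, b.1, b.2.1⟩, c.1, c.2.1, b.2.2⟩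
  obtain ⟨L0, L1, M0, M1, S0, S1, T0, T1, h1, h2, h3⟩ := step
  obtain ⟨P0, P1, Q0, Q1, a0, a1, a2, a3, a4⟩ := opn hp hq ht (rr_ne hs) e2 hn h2.1 h2.2
    ((h1.2.2.1.pow k).sub (h1.2.2.2.pow k)) ((h1.2.2.1.pow k).add (h1.2.2.2.pow k))
  refine ⟨L0, L1, M0, M1, S0, S1, P0, P1, Q0, Q1, T0, T1, h1, ⟨⟨a0, a1⟩, ⟨a2, a3⟩, h2⟩, ?_⟩
  filter_upwards [h3] with τ b
  obtain ⟨d0, d1, d2, d3⟩ := (a4 τ).2 b.2.1 b.2.2.1 b.2.2.2.1 b.2.2.2.2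
  exact ⟨b.1, (a4 τ).1, ⟨d0, d1⟩, ⟨d2, d3⟩, b.2.1, b.2.2.1⟩

theorem ne_or {v : Fin 2 → ℂ} (h : v ≠ 0) : v 0 ≠ 0 ∨ v 1 ≠ 0 := by
  by_contra c
  rw [not_or, not_not, not_not] at c
  exact h (funext fun a => by fin_cases a <;> simp [c.1, c.2])

theorem approx {k : ℕ} (hk : 0 < k) {u : W6} (h : Sol k u) :
    App2 k (u 0 0) (u 0 1) (u 1 0) (u 1 1) (u 2 0) (u 2 1) (u 3 0) (u 3 1) (u 4 0) (u 4 1)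
      (u 5 0) (u 5 1) := by
  have n := fun i => ne_or (h.1 i)
  by_cases c : u 5 0 * u 5 1 = 0 ∧ (u 2 0 ^ k - u 2 1 ^ k) * (u 2 0 ^ k + u 2 1 ^ k) = 0
  · refine (approx1 hk (n 3) (n 4) (n 5) (n 0) (n 1) (n 2) h.2.2 h.2.1 fun d => ?_).symm
    exact mul_ne_zero (both_ne hk (n 2) c.2).1 (both_ne hk (n 2) c.2).2 d.1
  · exact approx1 hk (n 0) (n 1) (n 2) (n 3) (n 4) (n 5) h.2.1 h.2.2 c

theorem gen_of {k : ℕ} {l0 l1 m0 m1 s0 s1 p0 p1 q0 q1 t0 t1 : ℂ}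
    (h : Zs l0 l1 m0 m1 s0 s1 (t0 ^ k - t1 ^ k) (t0 ^ k + t1 ^ k) ∧
      (l0 ≠ 0 ∧ l1 ≠ 0) ∧ (m0 ≠ 0 ∧ m1 ≠ 0) ∧ s0 ≠ 0 ∧ s1 ≠ 0)
    (g : Zs p0 p1 q0 q1 t0 t1 (s0 ^ k - s1 ^ k) (s0 ^ k + s1 ^ k) ∧
      (p0 ≠ 0 ∧ p1 ≠ 0) ∧ (q0 ≠ 0 ∧ q1 ≠ 0) ∧ t0 ≠ 0 ∧ t1 ≠ 0) :
    l1 / l0 * (m1 / m0) = s1 / s0 ∧
      l1 / l0 * (1 - (t1 / t0) ^ k) = m1 / m0 * (1 + (t1 / t0) ^ k) := by
  obtain ⟨⟨e1, e2⟩, ⟨a0, -⟩, ⟨a1, -⟩, a2, -⟩ := h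
  have a3 := pow_ne_zero k g.2.2.2.1
  constructor
  · field_simp
    linear_combination e1
  · rw [div_pow]
    field_simp
    linear_combination e2

end Dn

open Dn in
theorem gen_dense (k : ℕ) (hk : 0 < k) (x : PP 63) (hx : x ∈ YY k) (η : ℝ) (hη : 0 < η) :
    ∃ l m l' m' : ℂ, Gen k l m l' m' ∧ Near η x.rep (gpt l m l' m') := by
  obtain ⟨u, hu, hr⟩ := hx
  obtain ⟨L0, L1, M0, M1, S0, S1, P0, P1, Q0, Q1, T0, T1, h1, h2, h3⟩ := approx hk hu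
  have ht : Tendsto (fun τ => (![![L0 τ, L1 τ], ![M0 τ, M1 τ], ![S0 τ, S1 τ], ![P0 τ, P1 τ],
      ![Q0 τ, Q1 τ], ![T0 τ, T1 τ]] : W6)) FF (𝓝 u) := by
    refine tendsto_pi_nhds.2 fun i => tendsto_pi_nhds.2 fun a => ?_
    fin_cases i <;> fin_cases a
    exacts [h1.1.1, h1.1.2, h1.2.1.1, h1.2.1.2, h1.2.2.1, h1.2.2.2, h2.1.1, h2.1.2, h2.2.1.1,
      h2.2.1.2, h2.2.2.1, h2.2.2.2]
  have hn := ((continuous_seg.tendsto u).comp ht).eventually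
    ((isOpen_near η (seg u)).mem_nhds (near_refl hη hr.ne))
  obtain ⟨τ, ⟨a, b⟩, c⟩ := (h3.and hn).exists
  obtain ⟨e1, e2⟩ := gen_of a b
  obtain ⟨e3, e4⟩ := gen_of b a
  obtain ⟨-, ⟨a0, a1⟩, ⟨a2, a3⟩, a4, a5⟩ := a
  obtain ⟨-, ⟨b0, b1⟩, ⟨b2, b3⟩, b4, b5⟩ := b
  refine ⟨L1 τ / L0 τ, M1 τ / M0 τ, P1 τ / P0 τ, Q1 τ / Q0 τ,
    ⟨div_ne_zero a1 a0, div_ne_zero a3 a2, div_ne_zero b1 b0, div_ne_zero b3 b2,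
      by rw [e3]; exact e2, by rw [e1]; exact e4⟩, ?_⟩
  obtain ⟨s, hs, e⟩ := hr.exists_smul (rep_rep x)
  have := (c.smul_left hs).smul_right (s := ∏ i, ![(L0 τ)⁻¹, (M0 τ)⁻¹, (S0 τ)⁻¹, (P0 τ)⁻¹,
    (Q0 τ)⁻¹, (T0 τ)⁻¹] i) (by simp [Fin.prod_univ_six, a0, a2, a4, b0, b2, b4])
  rw [Function.comp, ← seg_smul, ← e] at this
  rw [gpt, e1, e3]
  convert this using 2
  ext i a
  fin_cases i <;> fin_cases a <;> simp [pt, a0, a2, a4, b0, b2, b4, div_eq_inv_mul]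

end Pool.Agent.Lib.MP_879098_ag.Sm
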