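import Pool.Agent.Lib.MP_879098_ag.Tools

/-! From a bound on derivatives of discs to a positive Kobayashi pseudodistance. -/

namespace Pool.Agent.Lib.MP_879098_ag

open Filter Topology Metric

namespace Kob

/-- the affine coordinates centred at `(3, 3)` -/
noncomputable def vv (x : PP 4) : ℂ × ℂ := (sC x - 3, tC x - 3)

/-- truncated distance from the centre -/
noncomputable def rho (x : PP 4) : ℝ := min 1 ‖vv x‖

theorem loc {m : ℕ} {f : ℂ → PP 4} (hf : IsDisc (surface m) f) {z : ℂ} (hz : z ∈ ball (0 : ℂ) 1) :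
    (AnalyticAt ℂ (fun w => sC (f w)) z ∧ AnalyticAt ℂ (fun w => tC (f w)) z) ∨
      ∀ᶠ w in 𝓝 z, rho (f w) = 1 := by
  obtain ⟨h1, F, hF, h2⟩ := hf z hz
  have hc : ∀ i, AnalyticAt ℂ (fun w => F w i) z := fun i => analyticAt_pi_iff.1 hF i
  by_cases h0 : F z 0 = 0
  · right
    by_contra hn
    have h3 : ∃ᶠ w in 𝓝 z, ‖F w 1‖ ≤ 4 * ‖F w 0‖ ∧ ‖F w 2‖ ≤ 4 * ‖F w 0‖ ∧
        ‖F w 3‖ ≤ 16 * ‖F w 0‖ := by
      refine ((not_eventually.1 hn).and_eventually (h2.and (isOpen_ball.mem_nhds hz))).mono ?_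
      rintro w ⟨a1, a2, a3⟩
      have a4 : ‖vv (f w)‖ < 1 := by
        by_contra c
        exact a1 (min_eq_left (not_lt.1 c))
      have a5 : ‖F w 2 / F w 0 - 3‖ < 1 := by
        rw [← sC_eq a2]; exact (norm_fst_le (vv (f w))).trans_lt a4
      have a6 : ‖F w 1 / F w 0 - 3‖ < 1 := by
        rw [← tC_eq a2]; exact (norm_snd_le (vv (f w))).trans_lt a4
      have a7 : F w 0 ≠ 0 := fun e => by
        rw [e, div_zero] at a5
        norm_num at a5
      have a8 : 0 < ‖F w 0‖ := norm_pos_iff.2 a7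
      have k : ∀ u : ℂ, ‖u / F w 0 - 3‖ < 1 → ‖u‖ ≤ 4 * ‖F w 0‖ := fun u hu => by
        have := norm_le_norm_sub_add (u / F w 0) 3
        rw [norm_div, div_le_iff₀ a8, Complex.norm_ofNat] at this
        nlinarith
      have a9 := congrArg norm ((mem_surface a2).1 (hf w a3).1).1
      rw [norm_mul, norm_mul] at a9
      refine ⟨k _ a6, k _ a5, le_of_mul_le_mul_left ?_ a8⟩
      rw [a9]
      nlinarith [mul_le_mul (k _ a6) (k _ a5) (norm_nonneg _) (by positivity)]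
    have k : ∀ (i : Fin 5) (c : ℝ), (∃ᶠ w in 𝓝 z, ‖F w i‖ ≤ c * ‖F w 0‖) → F z i = 0 := by
      intro i c h
      have := le_of_tendsto_of_tendsto_of_frequently (hc i).continuousAt.norm.tendsto
        ((hc 0).continuousAt.norm.tendsto.const_mul c) h
      simpa [h0] using this
    have b1 := k 1 4 (h3.mono fun _ h => h.1)
    have b2 := k 2 4 (h3.mono fun _ h => h.2.1)
    have b3 := k 3 16 (h3.mono fun _ h => h.2.2)
    have b4 := ((mem_surface h2.self_of_nhds).1 h1).2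
    rw [h0, zero_mul, zero_mul, pow_eq_zero_iff (by omega)] at b4
    refine h2.self_of_nhds.ne (funext fun i => ?_)
    fin_cases i
    exacts [h0, b1, b2, b3, b4]
  · left
    exact ⟨((hc 2).div (hc 0) h0).congr (h2.mono fun w h => (sC_eq h).symm),
      ((hc 1).div (hc 0) h0).congr (h2.mono fun w h => (tC_eq h).symm)⟩

theorem cont {m : ℕ} {f : ℂ → PP 4} (hf : IsDisc (surface m) f) {z : ℂ}
    (hz : z ∈ ball (0 : ℂ) 1) : ContinuousAt (fun w => rho (f w)) z := by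
  rcases loc hf hz with ⟨h1, h2⟩ | h
  · exact continuousAt_const.min ((h1.continuousAt.sub continuousAt_const).prodMk
      (h2.continuousAt.sub continuousAt_const)).norm
  · exact (continuousAt_const (y := (1 : ℝ))).congr (h.mono fun _ e => e.symm)

theorem hasDerivAt_artanh {x : ℝ} (h0 : -1 < x) (h1 : x < 1) :
    HasDerivAt Real.artanh (1 / (1 - x ^ 2)) x := by
  have a0 : 1 + x ≠ 0 := by linarith
  have a1 : 1 - x ≠ 0 := by linarith
  have h := ((((hasDerivAt_id x).const_add 1).div ((hasDerivAt_id x).const_sub 1) a1).log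
    (div_ne_zero a0 a1)).const_mul (1 / 2)
  refine (h.congr_of_eventuallyEq ?_).congr_deriv ?_
  · filter_upwards [Ioo_mem_nhds h0 h1] with y hy
    exact Real.artanh_eq_half_log (Set.Ioo_subset_Icc_self hy)
  · have : 1 - x ^ 2 = (1 + x) * (1 - x) := by ring
    rw [this]
    simp only [Pi.div_apply, id]
    field_simp
    ring

section

variable {m : ℕ} {K : ℝ} (h : ∀ f : ℂ → PP 4, IsDisc (surface m) f →
    ∀ z ∈ ball (0 : ℂ) 1, ‖sC (f z) - 3‖ ≤ 1 → ‖tC (f z) - 3‖ ≤ 1 →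
      ‖deriv (fun w => sC (f w)) z‖ ≤ K / (1 - ‖z‖ ^ 2) ∧
      ‖deriv (fun w => tC (f w)) z‖ ≤ K / (1 - ‖z‖ ^ 2)) (hK : 0 < K)

include h hK

theorem ray {f : ℂ → PP 4} (hf : IsDisc (surface m) f) {a : ℂ} (ha : a ∈ ball (0 : ℂ) 1) :
    rho (f a) ≤ rho (f 0) + K * Real.artanh ‖a‖ := by
  have a1 : ‖a‖ < 1 := mem_ball_zero_iff.1 ha
  have a0 := norm_nonneg a
  have hn : ∀ τ : ℝ, 0 ≤ τ → ‖(τ : ℂ) * a‖ = τ * ‖a‖ := fun τ h => by
    rw [norm_mul, Complex.norm_real, Real.norm_of_nonneg h]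
  have hm : ∀ τ ∈ Set.Icc (0 : ℝ) 1, τ * ‖a‖ < 1 := fun τ h => by nlinarith [h.1, h.2]
  have hb : ∀ τ ∈ Set.Icc (0 : ℝ) 1, (τ : ℂ) * a ∈ ball (0 : ℂ) 1 := fun τ h => by
    rw [mem_ball_zero_iff, hn τ h.1]; exact hm τ h
  have hl : ∀ τ : ℝ, HasDerivAt (fun τ : ℝ => (τ : ℂ) * a) a τ := fun τ => by
    simpa using (hasDerivAt_id τ).ofReal_comp.mul_const a
  have hB : ∀ τ ∈ Set.Icc (0 : ℝ) 1, HasDerivAt (fun τ : ℝ => rho (f 0) + K * Real.artanh (τ * ‖a‖))
      (K * (1 / (1 - (τ * ‖a‖) ^ 2) * ‖a‖)) τ := fun τ h => by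
    have := (hasDerivAt_artanh (by nlinarith [mul_nonneg h.1 a0]) (hm τ h)).comp τ
      ((hasDerivAt_id τ).mul_const ‖a‖)
    rw [one_mul] at this
    exact (this.const_mul K).const_add _
  have key := image_le_of_liminf_slope_right_le_deriv_boundary
    (f := fun τ : ℝ => rho (f (τ * a))) (a := 0) (b := 1)
    (fun τ h => ((cont hf (hb τ h)).comp (f := fun τ : ℝ => (τ : ℂ) * a)
      (hl τ).continuousAt).continuousWithinAt)
    (by simp) (fun τ h => (hB τ h).continuousAt.continuousWithinAt)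
    (fun τ h => (hB τ (Set.Ico_subset_Icc_self h)).hasDerivWithinAt) ?_
    (Set.right_mem_Icc.2 zero_le_one)
  · simpa using key
  intro τ hτ r hr
  have hτ' := Set.Ico_subset_Icc_self hτ
  have p0 : 0 < 1 - (τ * ‖a‖) ^ 2 := by nlinarith [mul_nonneg hτ.1 a0, hm τ hτ']
  by_cases c : ‖vv (f (τ * a))‖ < 1
  · have e : rho (f (τ * a)) = ‖vv (f (τ * a))‖ := min_eq_right c.le
    obtain ⟨h1, h2⟩ := (loc hf (hb τ hτ')).resolve_right fun g => by
      have := g.self_of_nhds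
      rw [e] at this
      exact c.ne this
    obtain ⟨d1, d2⟩ := h f hf _ (hb τ hτ') ((norm_fst_le (vv (f (τ * a)))).trans c.le)
      ((norm_snd_le (vv (f (τ * a)))).trans c.le)
    rw [hn τ hτ.1] at d1 d2
    have g := ((h1.differentiableAt.hasDerivAt.comp τ (hl τ)).sub_const 3).prodMk
      ((h2.differentiableAt.hasDerivAt.comp τ (hl τ)).sub_const 3)
    have k : ∀ u : ℂ, ‖u‖ ≤ K / (1 - (τ * ‖a‖) ^ 2) → ‖u * a‖ < r := fun u hu => by
      rw [norm_mul]
      refine (mul_le_mul_of_nonneg_right hu a0).trans_lt (lt_of_eq_of_lt ?_ hr)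
      ring
    refine ((g.hasDerivWithinAt.liminf_right_slope_norm_le (r := r)
      (max_lt (k _ d1) (k _ d2))).and_eventually self_mem_nhdsWithin).mono ?_
    rintro σ ⟨b1, b2⟩
    refine lt_of_le_of_lt ?_ b1
    rw [slope_def_field, e, div_eq_inv_mul]
    exact mul_le_mul_of_nonneg_left (sub_le_sub_right (min_le_right _ _) _)
      (inv_nonneg.2 (sub_nonneg.2 (le_of_lt b2)))
  · have e : rho (f (τ * a)) = 1 := min_eq_left (not_lt.1 c)
    refine Eventually.frequently ?_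
    filter_upwards [self_mem_nhdsWithin] with σ hσ
    have : slope (fun τ : ℝ => rho (f (τ * a))) τ σ ≤ 0 := by
      rw [slope_def_field, e]
      exact div_nonpos_of_nonpos_of_nonneg (sub_nonpos.2 (min_le_left _ _))
        (sub_nonneg.2 (le_of_lt hσ))
    exact this.trans_lt (lt_of_le_of_lt (by positivity) hr)

omit h hK in
theorem moeb {a b : ℂ} (ha : a ∈ ball (0 : ℂ) 1) (hb : b ∈ ball (0 : ℂ) 1) :
    1 + (starRingEnd ℂ) b * a ≠ 0 ∧ (a + b) / (1 + (starRingEnd ℂ) b * a) ∈ ball (0 : ℂ) 1 := by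
  rw [mem_ball_zero_iff] at *
  have e : ‖1 + (starRingEnd ℂ) b * a‖ ^ 2 = ‖a + b‖ ^ 2 + (1 - ‖a‖ ^ 2) * (1 - ‖b‖ ^ 2) := by
    simp only [Complex.sq_norm, Complex.normSq_apply, Complex.add_re, Complex.add_im,
      Complex.mul_re, Complex.mul_im, Complex.conj_re, Complex.conj_im, Complex.one_re,
      Complex.one_im]
    ring
  have p : 0 < (1 - ‖a‖ ^ 2) * (1 - ‖b‖ ^ 2) :=
    mul_pos (by nlinarith [norm_nonneg a]) (by nlinarith [norm_nonneg b])
  have l : ‖a + b‖ < ‖1 + (starRingEnd ℂ) b * a‖ :=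
    lt_of_pow_lt_pow_left₀ 2 (norm_nonneg _) (by linarith)
  have q := (norm_nonneg _).trans_lt l
  exact ⟨norm_pos_iff.1 q, by rwa [norm_div, div_lt_one q]⟩

theorem step {f : ℂ → PP 4} (hf : IsDisc (surface m) f) {a b : ℂ} (ha : a ∈ ball (0 : ℂ) 1)
    (hb : b ∈ ball (0 : ℂ) 1) : rho (f a) ≤ rho (f b) + K * poincare a b := by
  have hg : IsDisc (surface m) fun w => f ((w + b) / (1 + (starRingEnd ℂ) b * w)) := by
    intro z hz
    obtain ⟨n0, n1⟩ := moeb hz hb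
    obtain ⟨h1, F, hF, h2⟩ := hf _ n1
    have an : AnalyticAt ℂ (fun w => (w + b) / (1 + (starRingEnd ℂ) b * w)) z :=
      (analyticAt_id.add analyticAt_const).div
        (analyticAt_const.add (analyticAt_const.mul analyticAt_id)) n0
    exact ⟨h1, fun w => F ((w + b) / (1 + (starRingEnd ℂ) b * w)),
      hF.comp (f := fun w => (w + b) / (1 + (starRingEnd ℂ) b * w)) an,
      an.continuousAt.tendsto.eventually h2⟩
  obtain ⟨n0, n1⟩ := moeb ha (b := -b) (by simpa using hb)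
  rw [map_neg, neg_mul, ← sub_eq_add_neg] at n0
  rw [map_neg, neg_mul, ← sub_eq_add_neg, ← sub_eq_add_neg] at n1
  have n2 := (moeb n1 hb).1
  have e : ((a - b) / (1 - (starRingEnd ℂ) b * a) + b) /
      (1 + (starRingEnd ℂ) b * ((a - b) / (1 - (starRingEnd ℂ) b * a))) = a := by
    rw [div_eq_iff n2]
    linear_combination div_mul_cancel₀ (a - b) n0
  have := ray h hK hg n1
  simp only [e, zero_add, mul_zero, add_zero, div_one] at this
  exact this

theorem chain {x y : PP 4} {r : ℝ} (hc : DiscChain (surface m) x y r) :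
    rho x ≤ rho y + K * r := by
  induction hc with
  | refl x => simp
  | step f a b y r hf ha hb _ ih => linarith [step h hK hf ha hb]

end

end Kob

open Kob in
theorem kob_pos (m : ℕ) (C : ℝ) (h : ∀ f : ℂ → PP 4, IsDisc (surface m) f →
    ∀ z ∈ ball (0 : ℂ) 1, ‖sC (f z) - 3‖ ≤ 1 → ‖tC (f z) - 3‖ ≤ 1 →
      ‖deriv (fun w => sC (f w)) z‖ ≤ C / (1 - ‖z‖ ^ 2) ∧
      ‖deriv (fun w => tC (f w)) z‖ ≤ C / (1 - ‖z‖ ^ 2)) (hm : 0 < m) :
    ∃ x ∈ surface m, ∃ y ∈ surface m, 0 < kobayashi (surface m) x y := by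
  have hK : 0 < |C| + 1 := by positivity
  have h' : ∀ f : ℂ → PP 4, IsDisc (surface m) f →
      ∀ z ∈ ball (0 : ℂ) 1, ‖sC (f z) - 3‖ ≤ 1 → ‖tC (f z) - 3‖ ≤ 1 →
        ‖deriv (fun w => sC (f w)) z‖ ≤ (|C| + 1) / (1 - ‖z‖ ^ 2) ∧
        ‖deriv (fun w => tC (f w)) z‖ ≤ (|C| + 1) / (1 - ‖z‖ ^ 2) := by
    intro f hf z hz h1 h2
    have l : C / (1 - ‖z‖ ^ 2) ≤ (|C| + 1) / (1 - ‖z‖ ^ 2) :=
      div_le_div_of_nonneg_right (by linarith [le_abs_self C])
        (by nlinarith [norm_nonneg z, mem_ball_zero_iff.1 hz])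
    exact (h f hf z hz h1 h2).imp (·.trans l) (·.trans l)
  have n0 : ∀ w ∈ ball (0 : ℂ) 1, ff m (3 + w) ≠ 0 := by
    intro w hw
    have h1 : 1 < ‖3 + w‖ := by
      have := norm_sub_le (3 + w) w
      rw [add_sub_cancel_right, Complex.norm_ofNat] at this
      linarith [mem_ball_zero_iff.1 hw]
    refine mul_ne_zero (norm_pos_iff.1 (by linarith)) (sub_ne_zero.2 fun e => ?_)
    have := one_lt_pow₀ h1 hm.ne'
    rw [← norm_pow, e, norm_one] at this
    exact this.false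
  obtain ⟨y₀, hy⟩ := IsAlgClosed.exists_pow_nat_eq (ff m (3 + 0) * ff m 3) (n := m + 2) (by omega)
  obtain ⟨Y, y1, -, y2⟩ := exists_root (D := ball 0 1) isOpen_ball (convex_ball 0 1)
    (f := fun w => ff m (3 + w) * ff m 3) (by unfold ff; fun_prop)
    (fun w hw => mul_ne_zero (n0 w hw) (by simpa using n0 0 (mem_ball_self one_pos))) (m + 2)
    (by omega) (mem_ball_self one_pos) hy
  have hf : IsDisc (surface m) fun w => toP (aff (3 + w) 3 (Y w)) := by
    intro z hz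
    refine ⟨aff_mem.2 (y2 z hz), fun w => aff (3 + w) 3 (Y w), analyticAt_pi_iff.2 fun i => ?_,
      Eventually.of_forall fun w => rep_toP (aff_ne _ _ _)⟩
    have := y1.analyticAt (isOpen_ball.mem_nhds hz)
    fin_cases i <;> simp [aff] <;> fun_prop
  have ha : (1 / 2 : ℂ) ∈ ball (0 : ℂ) 1 := by
    rw [mem_ball_zero_iff]; norm_num
  have hb : (0 : ℂ) ∈ ball (0 : ℂ) 1 := mem_ball_self one_pos
  have hr : ∀ w : ℂ, rho (toP (aff (3 + w) 3 (Y w))) = min 1 ‖w‖ := fun w => by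
    rw [rho, vv, sC_eq (rep_toP (aff_ne _ _ _)), tC_eq (rep_toP (aff_ne _ _ _))]
    simp [aff]
  refine ⟨_, (hf _ ha).1, _, (hf _ hb).1, lt_of_lt_of_le (b := 1 / 2 / (|C| + 1)) (by positivity)
    (le_csInf ⟨_, DiscChain.step _ _ _ _ _ hf ha hb (DiscChain.refl _)⟩ fun r hr' => ?_)⟩
  have := chain h' hK hr'
  rw [hr, hr] at this
  rw [div_le_iff₀ hK]
  norm_num at this
  linarith

end Pool.Agent.Lib.MP_879098_ag
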