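import Pool.Agent.Lib.MP_879098_ag.SBase
import Pool.Agent.Lib.MP_879098_ag.Kob

/-! From a bound on derivatives of ramified pairs of maps to a positive Kobayashi
pseudodistance on the smooth surface. -/

namespace Pool.Agent.Lib.MP_879098_ag.Sm

open Filter Topology Polynomial Metric

namespace Kob2

/-- the affine coordinates centred at `(3, 3)` -/
noncomputable def vv (x : PP 63) : ℂ × ℂ := (crd 2 x - 3, crd 5 x - 3)

/-- truncated distance from the centre -/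
noncomputable def rho (x : PP 63) : ℝ := min 1 ‖vv x‖

theorem lift {k : ℕ} {f : ℂ → PP 63} (hf : IsDisc (YY k) f) {z : ℂ} (hz : z ∈ ball (0 : ℂ) 1) :
    ∃ U : ℂ → W6, (∀ i a, AnalyticAt ℂ (fun w => U w i a) z) ∧
      ∀ᶠ w in 𝓝 z, Sol k (U w) ∧ ∀ i, crd i (f w) = U w i 1 / U w i 0 := by
  obtain ⟨-, F, hF, h2⟩ := hf z hz
  have hc : ∀ j, AnalyticAt ℂ (fun w => F w j) z := fun j => analyticAt_pi_iff.1 hF j
  obtain ⟨j, hj⟩ := Function.ne_iff.1 h2.self_of_nhds.ne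
  obtain ⟨e, rfl⟩ := idx.symm.surjective j
  refine ⟨fun w => prj e (F w), fun i a => hc _, ?_⟩
  filter_upwards [h2, isOpen_ball.mem_nhds hz, (hc _).continuousAt.eventually_ne hj] with w a1 a2 a3
  obtain ⟨b1, b2⟩ := rep_prj (hf w a2).1 a1 a3
  exact ⟨b1, fun i => crd_eq (b2 ▸ a1.smul (pow_ne_zero 5 a3)) i⟩

theorem p1 {S a b : ℂ → ℂ} {z : ℂ} (ha : AnalyticAt ℂ a z) (hb : AnalyticAt ℂ b z)
    (h0 : a z = 0 → b z ≠ 0) (h : ∀ᶠ w in 𝓝 z, S w = b w / a w) : P1At S z := by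
  by_cases c : a z = 0
  · exact Or.inr ⟨fun w => a w / b w, ha.div hb (h0 c), by simp [c],
      h.mono fun w e => by rw [e, inv_div]⟩
  · exact Or.inl ((hb.div ha c).congr (h.mono fun w e => e.symm))

theorem pair {u : Fin 2 → ℂ} (h : u ≠ 0) : (u 0 = 0 → u 1 ≠ 0) ∧ (u 1 = 0 → u 0 ≠ 0) := by
  have : ¬(u 0 = 0 ∧ u 1 = 0) := fun c => h (funext fun i => by
    fin_cases i
    exacts [c.1, c.2])
  tauto

theorem dz {p q r s S G : ℂ → ℂ} {z c : ℂ} {k : ℕ} (hk : 0 < k) (hp : AnalyticAt ℂ p z)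
    (hq : AnalyticAt ℂ q z) (hr : AnalyticAt ℂ r z) (hs : AnalyticAt ℂ s z)
    (hS : AnalyticAt ℂ S z) (hG : AnalyticAt ℂ G z)
    (h : ∀ᶠ w in 𝓝 z, p w * q w * (c - S w ^ k) = r w * s w * G w) (r0 : r z = 0) (s0 : s z = 0)
    (p0 : p z ≠ 0) (q0 : q z ≠ 0) (S0 : S z ≠ 0) (e : S z ^ k = c) : deriv S z = 0 := by
  have d1 := (hp.differentiableAt.hasDerivAt.fun_mul hq.differentiableAt.hasDerivAt).fun_mul
    ((hS.differentiableAt.hasDerivAt.fun_pow k).const_sub c)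
  have d2 := (hr.differentiableAt.hasDerivAt.fun_mul hs.differentiableAt.hasDerivAt).fun_mul
    hG.differentiableAt.hasDerivAt
  have := d1.unique (d2.congr_of_eventuallyEq h)
  rw [r0, s0, e] at this
  have k0 : (k : ℂ) ≠ 0 := by exact_mod_cast hk.ne'
  simpa [p0, q0, S0, k0] using this

theorem ram {l m t a : ℂ → Fin 2 → ℂ} {S : ℂ → ℂ} {z : ℂ} {k : ℕ} (hk : 0 < k)
    (hl : ∀ i, AnalyticAt ℂ (fun w => l w i) z) (hm : ∀ i, AnalyticAt ℂ (fun w => m w i) z)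
    (ha : ∀ i, AnalyticAt ℂ (fun w => a w i) z) (l0 : l z ≠ 0) (m0 : m z ≠ 0)
    (h : ∀ᶠ w in 𝓝 z, Zr (l w) (m w) (t w) (a w 0 ^ k - a w 1 ^ k) (a w 0 ^ k + a w 1 ^ k))
    (hS : ∀ᶠ w in 𝓝 z, S w = a w 1 / a w 0) (h1 : S z ^ (2 * k) = 1) (h2 : t z 1 / t z 0 ≠ 0) :
    deriv S z = 0 := by
  have S0 : S z ≠ 0 := fun c => by
    rw [c, zero_pow (by omega)] at h1
    exact zero_ne_one h1
  have a0 : a z 0 ≠ 0 := fun c => S0 (by rw [hS.self_of_nhds, c, div_zero])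
  have An : AnalyticAt ℂ S z := ((ha 1).div (ha 0) a0).congr (hS.mono fun w e => e.symm)
  obtain ⟨t1, t0⟩ := div_ne_zero_iff.1 h2
  have key : ∀ᶠ w in 𝓝 z, l w 1 * m w 0 * (1 - S w ^ k) = l w 0 * m w 1 * (1 + S w ^ k) := by
    filter_upwards [h, hS, (ha 0).continuousAt.eventually_ne a0] with w b1 b2 b3
    have b4 : a w 1 = a w 0 * S w := by rw [b2, mul_div_cancel₀ _ b3]
    have b5 := b1.2
    rw [b4, mul_pow] at b5
    refine mul_left_cancel₀ (pow_ne_zero k b3) ?_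
    linear_combination b5
  have e1 := h.self_of_nhds.1
  have e2 := key.self_of_nhds
  rw [mul_comm 2, pow_mul, sq_eq_one_iff] at h1
  rcases h1 with h1 | h1
  · have e3 : l z 0 * m z 1 = 0 := by
      rw [h1] at e2
      linear_combination (-1 / 2) * e2
    have e4 : l z 0 = 0 ∧ m z 1 = 0 := by
      rcases mul_eq_zero.1 e3 with c | c
      · rw [c] at e1
        exact ⟨c, by simpa [t0, (pair l0).1 c] using e1⟩
      · rw [c] at e1
        exact ⟨by simpa [t1, (pair m0).2 c] using e1, c⟩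
    exact dz hk (hl 1) (hm 0) (hl 0) (hm 1) An (analyticAt_const.add (An.pow k)) key e4.1 e4.2
      ((pair l0).1 e4.1) ((pair m0).2 e4.2) S0 h1
  · have e3 : l z 1 * m z 0 = 0 := by
      rw [h1] at e2
      linear_combination (1 / 2) * e2
    have e4 : l z 1 = 0 ∧ m z 0 = 0 := by
      rcases mul_eq_zero.1 e3 with c | c
      · rw [c] at e1
        exact ⟨c, by simpa [t1, (pair l0).2 c] using e1⟩
      · rw [c] at e1
        exact ⟨by simpa [t0, (pair m0).1 c] using e1, c⟩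
    refine dz hk (hl 0) (hm 1) (hl 1) (hm 0) An (G := fun w => S w ^ k - 1)
      ((An.pow k).sub analyticAt_const) (key.mono fun w e => ?_) e4.1 e4.2
      ((pair l0).2 e4.1) ((pair m0).1 e4.2) S0 h1
    linear_combination e

theorem good {k : ℕ} (hk : 0 < k) {f : ℂ → PP 63} (hf : IsDisc (YY k) f) :
    Good (2 * k) (fun w => crd 2 (f w)) fun w => crd 5 (f w) := by
  intro z hz
  obtain ⟨U, h1, h2⟩ := lift hf hz
  have h3 := h2.self_of_nhds
  refine ⟨p1 (h1 2 0) (h1 2 1) (pair (h3.1.1 2)).1 (h2.mono fun _ e => e.2 2),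
    p1 (h1 5 0) (h1 5 1) (pair (h3.1.1 5)).1 (h2.mono fun _ e => e.2 5), fun a b => ?_,
    fun a b => ?_⟩
  · exact ram hk (h1 3) (h1 4) (h1 2) (h3.1.1 3) (h3.1.1 4) (h2.mono fun _ e => e.1.2.2)
      (h2.mono fun _ e => e.2 2) a (h3.2 5 ▸ b)
  · exact ram hk (h1 0) (h1 1) (h1 5) (h3.1.1 0) (h3.1.1 1) (h2.mono fun _ e => e.1.2.1)
      (h2.mono fun _ e => e.2 5) a (h3.2 2 ▸ b)

theorem symm {m : ℕ} {S T : ℂ → ℂ} (h : Good m S T) : Good m T S := fun z hz =>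
  ⟨(h z hz).2.1, (h z hz).1, (h z hz).2.2.2, (h z hz).2.2.1⟩

theorem far {S : ℂ → ℂ} {z : ℂ} (h : P1At S z) :
    AnalyticAt ℂ S z ∨ ∀ᶠ w in 𝓝 z, 1 ≤ ‖S w - 3‖ := by
  refine h.imp_right fun ⟨g, h1, h2, h3⟩ => ?_
  have h4 : ∀ᶠ w in 𝓝 z, ‖g w‖ < 1 / 4 :=
    h1.continuousAt.norm.eventually_lt continuousAt_const (by rw [h2]; norm_num)
  filter_upwards [h3, h4] with w a1 a2
  rw [a1]
  by_cases c : g w = 0
  · rw [c]; norm_num
  · have a3 := norm_le_norm_sub_add (g w)⁻¹ 3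
    rw [norm_inv, Complex.norm_ofNat] at a3
    have a4 : 4 ≤ ‖g w‖⁻¹ := by
      rw [le_inv_comm₀ (by norm_num) (norm_pos_iff.2 c)]
      linarith
    linarith

theorem loc {k : ℕ} (hk : 0 < k) {f : ℂ → PP 63} (hf : IsDisc (YY k) f) {z : ℂ}
    (hz : z ∈ ball (0 : ℂ) 1) :
    (AnalyticAt ℂ (fun w => crd 2 (f w)) z ∧ AnalyticAt ℂ (fun w => crd 5 (f w)) z) ∨
      ∀ᶠ w in 𝓝 z, rho (f w) = 1 := by
  obtain ⟨h1, h2, -⟩ := good hk hf z hz
  rcases far h1 with a | a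
  · rcases far h2 with b | b
    · exact Or.inl ⟨a, b⟩
    · exact Or.inr (b.mono fun w e => min_eq_left (e.trans (norm_snd_le (vv (f w)))))
  · exact Or.inr (a.mono fun w e => min_eq_left (e.trans (norm_fst_le (vv (f w)))))

theorem cont {k : ℕ} (hk : 0 < k) {f : ℂ → PP 63} (hf : IsDisc (YY k) f) {z : ℂ}
    (hz : z ∈ ball (0 : ℂ) 1) : ContinuousAt (fun w => rho (f w)) z := by
  rcases loc hk hf hz with ⟨h1, h2⟩ | h
  · exact continuousAt_const.min ((h1.continuousAt.sub continuousAt_const).prodMk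
      (h2.continuousAt.sub continuousAt_const)).norm
  · exact (continuousAt_const (y := (1 : ℝ))).congr (h.mono fun _ e => e.symm)

section

variable {k : ℕ} (hk : 0 < k) {K : ℝ} (h : ∀ S T : ℂ → ℂ, Good (2 * k) S T →
    ∀ z ∈ ball (0 : ℂ) 1, ‖S z - 3‖ ≤ 1 → ‖T z - 3‖ ≤ 1 → ‖deriv S z‖ ≤ K / (1 - ‖z‖ ^ 2))
    (hK : 0 < K)

include hk h hK

theorem ray {f : ℂ → PP 63} (hf : IsDisc (YY k) f) {a : ℂ} (ha : a ∈ ball (0 : ℂ) 1) :
    rho (f a) ≤ rho (f 0) + K * Real.artanh ‖a‖ := by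
  have a1 : ‖a‖ < 1 := mem_ball_zero_iff.1 ha
  have a0 := norm_nonneg a
  have hn : ∀ τ : ℝ, 0 ≤ τ → ‖(τ : ℂ) * a‖ = τ * ‖a‖ := fun τ h => by
    rw [norm_mul, Complex.norm_real, Real.norm_of_nonneg h]
  have hm : ∀ τ ∈ Set.Icc (0 : ℝ) 1, τ * ‖a‖ < 1 := fun τ h => by nlinarith [h.1, h.2]
  have hb : ∀ τ ∈ Set.Icc (0 : ℝ) 1, (τ : ℂ) * a ∈ ball (0 : ℂ) 1 := fun τ h => by
    rw [mem_ball_zero_iff, hn τ h.1]; exact hm τ h
  have hl : ∀ τ : ℝ, HasDerivAt (fun τ : ℝ => (τ : ℂ) * a) a τ := fun τ => by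
    simpa using (hasDerivAt_id τ).ofReal_comp.mul_const a
  have hB : ∀ τ ∈ Set.Icc (0 : ℝ) 1, HasDerivAt (fun τ : ℝ => rho (f 0) + K * Real.artanh (τ * ‖a‖))
      (K * (1 / (1 - (τ * ‖a‖) ^ 2) * ‖a‖)) τ := fun τ h => by
    have := (Kob.hasDerivAt_artanh (by nlinarith [mul_nonneg h.1 a0]) (hm τ h)).comp τ
      ((hasDerivAt_id τ).mul_const ‖a‖)
    rw [one_mul] at this
    exact (this.const_mul K).const_add _
  have key := image_le_of_liminf_slope_right_le_deriv_boundary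
    (f := fun τ : ℝ => rho (f (τ * a))) (a := 0) (b := 1)
    (fun τ h => ((cont hk hf (hb τ h)).comp (f := fun τ : ℝ => (τ : ℂ) * a)
      (hl τ).continuousAt).continuousWithinAt)
    (by simp) (fun τ h => (hB τ h).continuousAt.continuousWithinAt)
    (fun τ h => (hB τ (Set.Ico_subset_Icc_self h)).hasDerivWithinAt) ?_
    (Set.right_mem_Icc.2 zero_le_one)
  · simpa using key
  intro τ hτ r hr
  have hτ' := Set.Ico_subset_Icc_self hτ
  have p0 : 0 < 1 - (τ * ‖a‖) ^ 2 := by nlinarith [mul_nonneg hτ.1 a0, hm τ hτ']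
  by_cases c : ‖vv (f (τ * a))‖ < 1
  · have e : rho (f (τ * a)) = ‖vv (f (τ * a))‖ := min_eq_right c.le
    obtain ⟨h1, h2⟩ := (loc hk hf (hb τ hτ')).resolve_right fun g => by
      have := g.self_of_nhds
      rw [e] at this
      exact c.ne this
    have c1 := (norm_fst_le (vv (f (τ * a)))).trans c.le
    have c2 := (norm_snd_le (vv (f (τ * a)))).trans c.le
    have d1 := h _ _ (good hk hf) _ (hb τ hτ') c1 c2
    have d2 := h _ _ (symm (good hk hf)) _ (hb τ hτ') c2 c1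
    rw [hn τ hτ.1] at d1 d2
    have g := ((h1.differentiableAt.hasDerivAt.comp τ (hl τ)).sub_const 3).prodMk
      ((h2.differentiableAt.hasDerivAt.comp τ (hl τ)).sub_const 3)
    have k : ∀ u : ℂ, ‖u‖ ≤ K / (1 - (τ * ‖a‖) ^ 2) → ‖u * a‖ < r := fun u hu => by
      rw [norm_mul]
      refine (mul_le_mul_of_nonneg_right hu a0).trans_lt (lt_of_eq_of_lt ?_ hr)
      ring
    refine ((g.hasDerivWithinAt.liminf_right_slope_norm_le (r := r)
      (max_lt (k _ d1) (k _ d2))).and_eventually self_mem_nhdsWithin).mono ?_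
    rintro σ ⟨b1, b2⟩
    refine lt_of_le_of_lt ?_ b1
    rw [slope_def_field, e, div_eq_inv_mul]
    exact mul_le_mul_of_nonneg_left (sub_le_sub_right (min_le_right _ _) _)
      (inv_nonneg.2 (sub_nonneg.2 (le_of_lt b2)))
  · have e : rho (f (τ * a)) = 1 := min_eq_left (not_lt.1 c)
    refine Eventually.frequently ?_
    filter_upwards [self_mem_nhdsWithin] with σ hσ
    have : slope (fun τ : ℝ => rho (f (τ * a))) τ σ ≤ 0 := by
      rw [slope_def_field, e]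
      exact div_nonpos_of_nonpos_of_nonneg (sub_nonpos.2 (min_le_left _ _))
        (sub_nonneg.2 (le_of_lt hσ))
    exact this.trans_lt (lt_of_le_of_lt (by positivity) hr)

theorem step {f : ℂ → PP 63} (hf : IsDisc (YY k) f) {a b : ℂ} (ha : a ∈ ball (0 : ℂ) 1)
    (hb : b ∈ ball (0 : ℂ) 1) : rho (f a) ≤ rho (f b) + K * poincare a b := by
  have hg : IsDisc (YY k) fun w => f ((w + b) / (1 + (starRingEnd ℂ) b * w)) := by
    intro z hz
    obtain ⟨n0, n1⟩ := Kob.moeb hz hb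
    obtain ⟨h1, F, hF, h2⟩ := hf _ n1
    have an : AnalyticAt ℂ (fun w => (w + b) / (1 + (starRingEnd ℂ) b * w)) z :=
      (analyticAt_id.add analyticAt_const).div
        (analyticAt_const.add (analyticAt_const.mul analyticAt_id)) n0
    exact ⟨h1, fun w => F ((w + b) / (1 + (starRingEnd ℂ) b * w)),
      hF.comp (f := fun w => (w + b) / (1 + (starRingEnd ℂ) b * w)) an,
      an.continuousAt.tendsto.eventually h2⟩
  obtain ⟨n0, n1⟩ := Kob.moeb ha (b := -b) (by simpa using hb)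
  rw [map_neg, neg_mul, ← sub_eq_add_neg] at n0
  rw [map_neg, neg_mul, ← sub_eq_add_neg, ← sub_eq_add_neg] at n1
  have n2 := (Kob.moeb n1 hb).1
  have e : ((a - b) / (1 - (starRingEnd ℂ) b * a) + b) /
      (1 + (starRingEnd ℂ) b * ((a - b) / (1 - (starRingEnd ℂ) b * a))) = a := by
    rw [div_eq_iff n2]
    linear_combination div_mul_cancel₀ (a - b) n0
  have := ray hk h hK hg n1
  simp only [e, zero_add, mul_zero, add_zero, div_one] at this
  exact this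

theorem chain {x y : PP 63} {r : ℝ} (hc : DiscChain (YY k) x y r) :
    rho x ≤ rho y + K * r := by
  induction hc with
  | refl x => simp
  | step f a b y r hf ha hb _ ih => linarith [step hk h hK hf ha hb]

end

theorem big {k : ℕ} (hk : 0 < k) {w : ℂ} (hw : w ∈ ball (0 : ℂ) 1) :
    3 + w ≠ 0 ∧ 1 - (3 + w) ^ k ≠ 0 ∧ 1 + (3 + w) ^ k ≠ 0 := by
  have h1 : 1 < ‖3 + w‖ := by
    have := norm_sub_le (3 + w) w
    rw [add_sub_cancel_right, Complex.norm_ofNat] at this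
    linarith [mem_ball_zero_iff.1 hw]
  have h2 := one_lt_pow₀ h1 hk.ne'
  rw [← norm_pow] at h2
  refine ⟨norm_pos_iff.1 (by linarith), fun e => ?_, fun e => ?_⟩
  · rw [← sub_eq_zero.1 e, norm_one] at h2
    exact h2.false
  · rw [eq_neg_of_add_eq_zero_right e, norm_neg, norm_one] at h2
    exact h2.false

theorem root {g : ℂ → ℂ} (hg : DifferentiableOn ℂ g (ball 0 1))
    (h0 : ∀ w ∈ ball (0 : ℂ) 1, g w ≠ 0) : ∃ l : ℂ → ℂ, ∀ w ∈ ball (0 : ℂ) 1,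
      AnalyticAt ℂ l w ∧ l w ≠ 0 ∧ l w ^ 2 = g w := by
  obtain ⟨y₀, hy⟩ := IsAlgClosed.exists_pow_nat_eq (g 0) (n := 2) two_pos
  obtain ⟨l, y1, -, y2⟩ := exists_root isOpen_ball (convex_ball 0 1) hg h0 2 two_pos
    (mem_ball_self one_pos) hy
  refine ⟨l, fun w hw => ⟨y1.analyticAt (isOpen_ball.mem_nhds hw), fun c => h0 w hw ?_, y2 w hw⟩⟩
  rw [← y2 w hw, c, zero_pow two_ne_zero]

theorem disc {k : ℕ} (hk : 0 < k) : ∃ f : ℂ → PP 63, IsDisc (YY k) f ∧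
    ∀ w ∈ ball (0 : ℂ) 1, rho (f w) = min 1 ‖w‖ := by
  obtain ⟨-, c1, c2⟩ := big hk (mem_ball_self one_pos)
  rw [add_zero] at c1 c2
  obtain ⟨l, hl⟩ := root (g := fun w => (3 + w) * (1 + 3 ^ k) / (1 - 3 ^ k)) (by fun_prop)
    fun w hw => div_ne_zero (mul_ne_zero (big hk hw).1 c2) c1
  obtain ⟨l', hl'⟩ := root (g := fun w => 3 * (1 + (3 + w) ^ k) / (1 - (3 + w) ^ k))
    (DifferentiableOn.div (by fun_prop) (by fun_prop) fun w hw => (big hk hw).2.1)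
    fun w hw => div_ne_zero (mul_ne_zero three_ne_zero (big hk hw).2.2) (big hk hw).2.1
  have e1 : ∀ w ∈ ball (0 : ℂ) 1, l w * ((3 + w) / l w) = 3 + w := fun w hw =>
    mul_div_cancel₀ _ (hl w hw).2.1
  have e2 : ∀ w ∈ ball (0 : ℂ) 1, l' w * (3 / l' w) = 3 := fun w hw =>
    mul_div_cancel₀ _ (hl' w hw).2.1
  have hG : ∀ w ∈ ball (0 : ℂ) 1, Gen k (l w) ((3 + w) / l w) (l' w) (3 / l' w) := by
    intro w hw
    obtain ⟨-, a1, a2⟩ := hl w hw
    obtain ⟨-, b1, b2⟩ := hl' w hw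
    obtain ⟨d1, d2, -⟩ := big hk hw
    refine ⟨a1, div_ne_zero d1 a1, b1, div_ne_zero three_ne_zero b1, ?_, ?_⟩
    · rw [e2 w hw, div_mul_eq_mul_div, eq_div_iff a1]
      linear_combination (eq_div_iff c1).1 a2
    · rw [e1 w hw, div_mul_eq_mul_div, eq_div_iff b1]
      linear_combination (eq_div_iff d2).1 b2
  refine ⟨fun w => toP (gpt (l w) ((3 + w) / l w) (l' w) (3 / l' w)), fun z hz =>
    ⟨(hG z hz).mem.2, fun w => gpt (l w) ((3 + w) / l w) (l' w) (3 / l' w),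
      analyticAt_gpt (hl z hz).1
      ((analyticAt_const.add analyticAt_id).div (hl z hz).1 (hl z hz).2.1) (hl' z hz).1
      (analyticAt_const.div (hl' z hz).1 (hl' z hz).2.1), ?_⟩, fun w hw => ?_⟩
  · filter_upwards [isOpen_ball.mem_nhds hz] with w hw
    exact rep_toP (hG w hw).mem.1
  · have r := rep_toP (hG w hw).mem.1
    rw [rho, vv, crd_eq r, crd_eq r]
    simp only [pt, Matrix.cons_val, e1 w hw, e2 w hw]
    simp

end Kob2

open Kob2 in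
theorem kob2 (k : ℕ) (hk : 0 < k) (C : ℝ) (h : ∀ S T : ℂ → ℂ, Good (2 * k) S T →
    ∀ z ∈ ball (0 : ℂ) 1, ‖S z - 3‖ ≤ 1 → ‖T z - 3‖ ≤ 1 → ‖deriv S z‖ ≤ C / (1 - ‖z‖ ^ 2)) :
    ∃ x ∈ YY k, ∃ y ∈ YY k, 0 < kobayashi (YY k) x y := by
  have hK : 0 < |C| + 1 := by positivity
  have h' : ∀ S T : ℂ → ℂ, Good (2 * k) S T → ∀ z ∈ ball (0 : ℂ) 1, ‖S z - 3‖ ≤ 1 →
      ‖T z - 3‖ ≤ 1 → ‖deriv S z‖ ≤ (|C| + 1) / (1 - ‖z‖ ^ 2) := fun S T g z hz h1 h2 =>
    (h S T g z hz h1 h2).trans (div_le_div_of_nonneg_right (by linarith [le_abs_self C])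
      (by nlinarith [norm_nonneg z, mem_ball_zero_iff.1 hz]))
  obtain ⟨f, hf, hr⟩ := disc hk
  have ha : (1 / 2 : ℂ) ∈ ball (0 : ℂ) 1 := by
    rw [mem_ball_zero_iff]; norm_num
  have hb : (0 : ℂ) ∈ ball (0 : ℂ) 1 := mem_ball_self one_pos
  refine ⟨_, (hf _ ha).1, _, (hf _ hb).1, lt_of_lt_of_le (b := 1 / 2 / (|C| + 1)) (by positivity)
    (le_csInf ⟨_, DiscChain.step _ _ _ _ _ hf ha hb (DiscChain.refl _)⟩ fun r hr' => ?_)⟩
  have := chain hk h' hK hr'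
  rw [hr _ ha, hr _ hb] at this
  rw [div_le_iff₀ hK]
  norm_num at this
  linarith

end Pool.Agent.Lib.MP_879098_ag.Sm
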