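import Pool.Agent.Lib.MP_879098_ag.SAhl
import Pool.Agent.Lib.MP_879098_ag.SKob
import Pool.Agent.Lib.MP_879098_ag.SDense
import Pool.Agent.Lib.MP_879098_ag.HyLoc

/-! A generic point of the smooth surface is at positive distance from every other point. -/

namespace Pool.Agent.Lib.MP_879098_ag.Hy

open Filter Topology Metric Set Sm

/-- a truncated function that discs cannot stretch -/
structure Tr {n : ℕ} (X : Set (PP n)) (ρ : PP n → ℝ) (δ K : ℝ) : Prop where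
  pos : 0 < K
  le : ∀ x, ρ x ≤ δ
  cont : ∀ f, IsDisc X f → ∀ z ∈ ball (0 : ℂ) 1, ContinuousAt (fun w => ρ (f w)) z
  der : ∀ f, IsDisc X f → ∀ z ∈ ball (0 : ℂ) 1, ρ (f z) < δ → ∃ (g : ℂ → ℂ × ℂ) (g' : ℂ × ℂ),
    HasDerivAt g g' z ∧ ‖g'‖ ≤ K / (1 - ‖z‖ ^ 2) ∧ ∀ᶠ w in 𝓝 z, ρ (f w) = ‖g w‖

section

variable {n : ℕ} {X : Set (PP n)} {ρ : PP n → ℝ} {δ K : ℝ} (h : Tr X ρ δ K)

include h

theorem Tr.ray {f : ℂ → PP n} (hf : IsDisc X f) {a : ℂ} (ha : a ∈ ball (0 : ℂ) 1) :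
    ρ (f a) ≤ ρ (f 0) + K * Real.artanh ‖a‖ := by
  have hK := h.pos
  have a1 : ‖a‖ < 1 := mem_ball_zero_iff.1 ha
  have a0 := norm_nonneg a
  have hn : ∀ τ : ℝ, 0 ≤ τ → ‖(τ : ℂ) * a‖ = τ * ‖a‖ := fun τ h => by
    rw [norm_mul, Complex.norm_real, Real.norm_of_nonneg h]
  have hm : ∀ τ ∈ Set.Icc (0 : ℝ) 1, τ * ‖a‖ < 1 := fun τ h => by nlinarith [h.1, h.2]
  have hb : ∀ τ ∈ Set.Icc (0 : ℝ) 1, (τ : ℂ) * a ∈ ball (0 : ℂ) 1 := fun τ h => by
    rw [mem_ball_zero_iff, hn τ h.1]; exact hm τ h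
  have hl : ∀ τ : ℝ, HasDerivAt (fun τ : ℝ => (τ : ℂ) * a) a τ := fun τ => by
    simpa using (hasDerivAt_id τ).ofReal_comp.mul_const a
  have hB : ∀ τ ∈ Set.Icc (0 : ℝ) 1, HasDerivAt (fun τ : ℝ => ρ (f 0) + K * Real.artanh (τ * ‖a‖))
      (K * (1 / (1 - (τ * ‖a‖) ^ 2) * ‖a‖)) τ := fun τ h => by
    have := (Kob.hasDerivAt_artanh (by nlinarith [mul_nonneg h.1 a0]) (hm τ h)).comp τ
      ((hasDerivAt_id τ).mul_const ‖a‖)
    rw [one_mul] at this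
    exact (this.const_mul K).const_add _
  have key := image_le_of_liminf_slope_right_le_deriv_boundary
    (f := fun τ : ℝ => ρ (f (τ * a))) (a := 0) (b := 1)
    (fun τ hτ => ((h.cont f hf _ (hb τ hτ)).comp (f := fun τ : ℝ => (τ : ℂ) * a)
      (hl τ).continuousAt).continuousWithinAt)
    (by simp) (fun τ h => (hB τ h).continuousAt.continuousWithinAt)
    (fun τ h => (hB τ (Set.Ico_subset_Icc_self h)).hasDerivWithinAt) ?_
    (Set.right_mem_Icc.2 zero_le_one)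
  · simpa using key
  intro τ hτ r hr
  have hτ' := Set.Ico_subset_Icc_self hτ
  have p0 : 0 < 1 - (τ * ‖a‖) ^ 2 := by nlinarith [mul_nonneg hτ.1 a0, hm τ hτ']
  by_cases c : ρ (f (τ * a)) < δ
  · obtain ⟨g, g', d1, d2, d3⟩ := h.der f hf _ (hb τ hτ') c
    rw [hn τ hτ.1] at d2
    have g1 := d1.scomp τ (hl τ)
    have g2 : ‖a • g'‖ < r := by
      rw [norm_smul]
      refine (mul_le_mul_of_nonneg_left d2 a0).trans_lt (lt_of_eq_of_lt ?_ hr)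
      ring
    have g3 : ∀ᶠ σ : ℝ in 𝓝[>] τ, ρ (f (σ * a)) = ‖g (σ * a)‖ :=
      mem_nhdsWithin_of_mem_nhds ((hl τ).continuousAt.eventually d3)
    refine ((g1.hasDerivWithinAt.liminf_right_slope_norm_le (r := r) g2).and_eventually g3).mono ?_
    rintro σ ⟨b1, b2⟩
    refine lt_of_eq_of_lt ?_ b1
    rw [slope_def_field, b2, d3.self_of_nhds, div_eq_inv_mul]
    rfl
  · have e : ρ (f (τ * a)) = δ := (h.le _).antisymm (not_lt.1 c)
    refine Eventually.frequently ?_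
    filter_upwards [self_mem_nhdsWithin] with σ hσ
    have : slope (fun τ : ℝ => ρ (f (τ * a))) τ σ ≤ 0 := by
      rw [slope_def_field, e]
      exact div_nonpos_of_nonpos_of_nonneg (sub_nonpos.2 (h.le _)) (sub_nonneg.2 (le_of_lt hσ))
    exact this.trans_lt (lt_of_le_of_lt (by positivity) hr)

theorem Tr.step {f : ℂ → PP n} (hf : IsDisc X f) {a b : ℂ} (ha : a ∈ ball (0 : ℂ) 1)
    (hb : b ∈ ball (0 : ℂ) 1) : ρ (f a) ≤ ρ (f b) + K * poincare a b := by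
  have hg : IsDisc X fun w => f ((w + b) / (1 + (starRingEnd ℂ) b * w)) := by
    intro z hz
    obtain ⟨n0, n1⟩ := Kob.moeb hz hb
    obtain ⟨h1, F, hF, h2⟩ := hf _ n1
    have an : AnalyticAt ℂ (fun w => (w + b) / (1 + (starRingEnd ℂ) b * w)) z :=
      (analyticAt_id.add analyticAt_const).div
        (analyticAt_const.add (analyticAt_const.mul analyticAt_id)) n0
    exact ⟨h1, fun w => F ((w + b) / (1 + (starRingEnd ℂ) b * w)),
      hF.comp (f := fun w => (w + b) / (1 + (starRingEnd ℂ) b * w)) an,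
      an.continuousAt.tendsto.eventually h2⟩
  obtain ⟨n0, n1⟩ := Kob.moeb ha (b := -b) (by simpa using hb)
  rw [map_neg, neg_mul, ← sub_eq_add_neg] at n0
  rw [map_neg, neg_mul, ← sub_eq_add_neg, ← sub_eq_add_neg] at n1
  have n2 := (Kob.moeb n1 hb).1
  have e : ((a - b) / (1 - (starRingEnd ℂ) b * a) + b) /
      (1 + (starRingEnd ℂ) b * ((a - b) / (1 - (starRingEnd ℂ) b * a))) = a := by
    rw [div_eq_iff n2]
    linear_combination div_mul_cancel₀ (a - b) n0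
  have := h.ray hg n1
  simp only [e, zero_add, mul_zero, add_zero, div_one] at this
  exact this

theorem Tr.chain {x y : PP n} {r : ℝ} (hc : DiscChain X x y r) : ρ x ≤ ρ y + K * r := by
  induction hc with
  | refl x => simp
  | step f a b y r hf ha hb _ ih => linarith [h.step hf ha hb]

end

open Ah2 in
theorem ahl3 {m : ℕ} (hm : 4000 ≤ m) {D : Set ℂ} (hD : IsCompact D)
    (hD' : ∀ s ∈ D, s ≠ 0 ∧ s ^ m - 1 ≠ 0) : ∃ C : ℝ, 0 < C ∧ ∀ S T : ℂ → ℂ, Good m S T →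
    ∀ z ∈ ball (0 : ℂ) 1, S z ∈ D → T z ∈ D → ‖deriv S z‖ ≤ C / (1 - ‖z‖ ^ 2) := by
  obtain ⟨B, hB0, hB⟩ := hD.exists_forall_le' (f := W m) (a := 0)
    (fun s hs => (continuousAt_W m (hD' s hs).2).continuousWithinAt)
    fun s hs => W_pos m (hD' s hs).1 (hD' s hs).2
  obtain ⟨E, hE0, hE⟩ := hD.exists_forall_le' (f := Zf m) (a := 0)
    (continuous_Zf m).continuousOn fun s hs => Zf_pos m (hD' s hs).1
  refine ⟨1 + 24 / (B * (E * E)), by positivity, fun S T h z hz hS hT => ?_⟩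
  have hz1 : ‖z‖ ^ 2 < 1 := pow_lt_one₀ (norm_nonneg _) (mem_ball_zero_iff.1 hz) two_ne_zero
  have h6 := hB _ hS
  have h7 := hE _ hS
  have h8 := hE _ hT
  have h9 : ‖deriv S z‖ ^ 2 * (B * (E * E)) ≤ ll m S T z := by
    rw [ll, ← mul_assoc]
    have := W_nonneg m (S z)
    have := Zf_nonneg m (S z)
    gcongr
  have h10 := (mul_le_mul_of_nonneg_left h9 (sq_nonneg _)).trans (bound hm h hz)
  rw [← mul_assoc, ← le_div_iff₀ (by positivity), ← mul_pow] at h10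
  rw [le_div_iff₀ (by linarith), mul_comm]
  nlinarith [sq_nonneg ((1 - ‖z‖ ^ 2) * ‖deriv S z‖ - 1)]

theorem nz1 {l m s t : Fin 2 → ℂ} {k : ℕ} (hl : l ≠ 0) (hm : m ≠ 0)
    (h : Zr l m s (t 0 ^ k - t 1 ^ k) (t 0 ^ k + t 1 ^ k)) (hs : s 1 / s 0 ≠ 0)
    (ht : t 1 / t 0 ≠ 0) (ht' : (t 1 / t 0) ^ (2 * k) - 1 ≠ 0) :
    (l 0 ≠ 0 ∧ l 1 ≠ 0) ∧ (m 0 ≠ 0 ∧ m 1 ≠ 0) ∧ s 0 ≠ 0 ∧ s 1 ≠ 0 := by
  obtain ⟨s1, s0⟩ := div_ne_zero_iff.1 hs
  obtain ⟨-, t0⟩ := div_ne_zero_iff.1 ht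
  have e : (t 0 ^ k - t 1 ^ k) * (t 0 ^ k + t 1 ^ k) ≠ 0 := fun c => ht' (by
    rw [div_pow, sub_eq_zero, div_eq_one_iff_eq (pow_ne_zero _ t0), mul_comm 2, pow_mul, pow_mul]
    linear_combination -c)
  obtain ⟨r0, r1⟩ := mul_ne_zero_iff.1 e
  obtain ⟨e1, e2⟩ := h
  obtain ⟨l0, l1⟩ := Kob2.pair hl
  obtain ⟨m0, m1⟩ := Kob2.pair hm
  refine ⟨⟨fun c => ?_, fun c => ?_⟩, ⟨fun c => ?_, fun c => ?_⟩, s0, s1⟩ <;> simp_all

theorem gen_of_ne {k : ℕ} {u : W6} {x : PP 63} (hu : Sol k u) (hx : Rep (seg u) x)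
    (h : ∀ i a, u i a ≠ 0) : Gen k (crd 0 x) (crd 1 x) (crd 3 x) (crd 4 x) ∧
      crd 0 x * crd 1 x = crd 2 x ∧ crd 3 x * crd 4 x = crd 5 x ∧
      x = toP (gpt (crd 0 x) (crd 1 x) (crd 3 x) (crd 4 x)) := by
  obtain ⟨e1, e2⟩ := Dn.gen_of (k := k) ⟨hu.2.1, ⟨h 0 0, h 0 1⟩, ⟨h 1 0, h 1 1⟩, h 2 0, h 2 1⟩
    ⟨hu.2.2, ⟨h 3 0, h 3 1⟩, ⟨h 4 0, h 4 1⟩, h 5 0, h 5 1⟩
  obtain ⟨e3, e4⟩ := Dn.gen_of (k := k) ⟨hu.2.2, ⟨h 3 0, h 3 1⟩, ⟨h 4 0, h 4 1⟩, h 5 0, h 5 1⟩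
    ⟨hu.2.1, ⟨h 0 0, h 0 1⟩, ⟨h 1 0, h 1 1⟩, h 2 0, h 2 1⟩
  simp only [crd_eq hx]
  refine ⟨⟨div_ne_zero (h _ _) (h _ _), div_ne_zero (h _ _) (h _ _), div_ne_zero (h _ _) (h _ _),
    div_ne_zero (h _ _) (h _ _), by rw [e3]; exact e2, by rw [e1]; exact e4⟩, e1, e3, ?_⟩
  have := hx.smul (s := ∏ i, (u i 0)⁻¹) (Finset.prod_ne_zero_iff.2 fun i _ => inv_ne_zero (h i 0))
  rw [← seg_smul] at this
  rw [← this.toP_eq, gpt, e1, e3]
  congr 2
  ext i a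
  fin_cases i <;> fin_cases a <;> simp [pt, h, div_eq_inv_mul]

theorem nz {k : ℕ} {u : W6} (hu : Sol k u) (h2 : u 2 1 / u 2 0 ≠ 0) (h5 : u 5 1 / u 5 0 ≠ 0)
    (h2' : (u 2 1 / u 2 0) ^ (2 * k) - 1 ≠ 0) (h5' : (u 5 1 / u 5 0) ^ (2 * k) - 1 ≠ 0)
    (i : Fin 6) (a : Fin 2) : u i a ≠ 0 := by
  obtain ⟨⟨a1, a2⟩, ⟨a3, a4⟩, a5, a6⟩ := nz1 (hu.1 0) (hu.1 1) hu.2.1 h2 h5 h5'
  obtain ⟨⟨b1, b2⟩, ⟨b3, b4⟩, b5, b6⟩ := nz1 (hu.1 3) (hu.1 4) hu.2.2 h5 h2 h2'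
  fin_cases i <;> fin_cases a
  exacts [a1, a2, a3, a4, a5, a6, b1, b2, b3, b4, b5, b6]

theorem far' {S : ℂ → ℂ} {z c : ℂ} {δ : ℝ} (hδ : 0 < δ) (hc : δ ≤ ‖c‖) (h : P1At S z) :
    AnalyticAt ℂ S z ∨ ∀ᶠ w in 𝓝 z, δ ≤ ‖S w - c‖ := by
  refine h.imp_right fun ⟨g, h1, h2, h3⟩ => ?_
  have h4 : ∀ᶠ w in 𝓝 z, ‖g w‖ < (‖c‖ + δ)⁻¹ :=
    h1.continuousAt.norm.eventually_lt continuousAt_const (by rw [h2, norm_zero]; positivity)
  filter_upwards [h3, h4] with w a1 a2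
  rw [a1]
  by_cases c' : g w = 0
  · rw [c', inv_zero, zero_sub, norm_neg]; exact hc
  · have a3 := norm_le_norm_sub_add (g w)⁻¹ c
    rw [norm_inv] at a3
    have a4 : ‖c‖ + δ ≤ ‖g w‖⁻¹ := by
      rw [le_inv_comm₀ (by positivity) (norm_pos_iff.2 c')]
      exact a2.le
    linarith

theorem sq_eq {k : ℕ} {l m l' m' : ℂ} (h : Gen k l m l' m') :
    l ^ 2 = l * m * (1 + (l' * m') ^ k) / (1 - (l' * m') ^ k) := by
  rw [eq_div_iff h.symm.ne.1]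
  linear_combination l * h.eq

theorem re_ne {l l₀ : ℂ} (h0 : l₀ ≠ 0) (h : ‖l ^ 2 - l₀ ^ 2‖ < ‖l₀‖ ^ 2) : (l / l₀).re ≠ 0 := by
  intro c
  have h1 : ‖(l / l₀) ^ 2 - 1‖ < 1 := by
    rw [show (l / l₀) ^ 2 - 1 = (l ^ 2 - l₀ ^ 2) / l₀ ^ 2 by field_simp, norm_div, norm_pow,
      div_lt_one (by positivity)]
    exact h
  have h2 := (Complex.abs_re_le_norm _).trans_lt h1
  rw [Complex.sub_re, sq, Complex.mul_re, c, Complex.one_re, abs_lt] at h2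
  nlinarith [mul_self_nonneg (l / l₀).im]

theorem eq_of_re {l l₀ : ℂ} (h0 : l₀ ≠ 0) (h : l ^ 2 = l₀ ^ 2) (hr : 0 < (l / l₀).re) : l = l₀ :=
  (sq_eq_sq_iff_eq_or_eq_neg.1 h).resolve_right fun e => by
    rw [e, neg_div, div_self h0] at hr
    norm_num at hr

theorem exists_rad {k : ℕ} {l m l' m' : ℂ} (h : Gen k l m l' m') : ∃ δ > 0,
    ∀ s t : ℂ, ‖s - l * m‖ ≤ δ → ‖t - l' * m'‖ ≤ δ → (s ≠ 0 ∧ s ^ (2 * k) - 1 ≠ 0) ∧
      ‖s * (1 + t ^ k) / (1 - t ^ k) - l ^ 2‖ < ‖l‖ ^ 2 := by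
  have a1 : ∀ᶠ p : ℂ × ℂ in 𝓝 (l * m, l' * m'), p.1 ≠ 0 :=
    continuous_fst.continuousAt.eventually_ne (mul_ne_zero h.l0 h.m0)
  have a2 : ∀ᶠ p : ℂ × ℂ in 𝓝 (l * m, l' * m'), p.1 ^ (2 * k) - 1 ≠ 0 :=
    (by fun_prop : Continuous fun p : ℂ × ℂ => p.1 ^ (2 * k) - 1).continuousAt.eventually_ne
      fun c => mul_ne_zero h.ne.1 h.ne.2 (by
        simp only [mul_comm 2, pow_mul] at c
        linear_combination -c)
  have a3 : ∀ᶠ p : ℂ × ℂ in 𝓝 (l * m, l' * m'),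
      ‖p.1 * (1 + p.2 ^ k) / (1 - p.2 ^ k) - l ^ 2‖ < ‖l‖ ^ 2 := by
    refine ContinuousAt.eventually_lt (ContinuousAt.norm (ContinuousAt.sub (ContinuousAt.div
      (by fun_prop) (by fun_prop) h.symm.ne.1) continuousAt_const)) continuousAt_const ?_
    simp only [← sq_eq h, sub_self, norm_zero]
    have := h.l0
    positivity
  obtain ⟨δ, hδ, H⟩ := Metric.nhds_basis_closedBall.eventually_iff.1 ((a1.and a2).and a3)
  exact ⟨δ, hδ, fun s t hs ht => H (x := (s, t)) (by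
    rw [mem_closedBall_iff_norm]; exact max_le hs ht)⟩

open Classical in
theorem sep {k : ℕ} (hk : 2000 ≤ k) {l m l' m' : ℂ} (h : Gen k l m l' m') {y : PP 63}
    (hy : y ∈ YY k) (hne : toP (gpt l m l' m') ≠ y) :
    ∃ c > 0, ∀ r, DiscChain (YY k) (toP (gpt l m l' m')) y r → c ≤ r := by
  have hk0 : 0 < k := by omega
  obtain ⟨δ₁, d1, H1⟩ := exists_rad h
  obtain ⟨δ₂, d2, H2⟩ := exists_rad h.symm
  obtain ⟨δ, hδ, e1, e2⟩ : ∃ δ > 0, δ ≤ δ₁ ∧ δ ≤ δ₂ :=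
    ⟨_, lt_min d1 d2, min_le_left _ _, min_le_right _ _⟩
  have hD : ∀ s ∈ closedBall (l * m) δ ∪ closedBall (l' * m') δ, s ≠ 0 ∧ s ^ (2 * k) - 1 ≠ 0 := by
    rintro s (hs | hs)
    · exact (H1 s (l' * m') ((mem_closedBall_iff_norm.1 hs).trans e1) (by simpa using d1.le)).1
    · exact (H2 s (l * m) ((mem_closedBall_iff_norm.1 hs).trans e2) (by simpa using d2.le)).1
  have c1 : δ ≤ ‖l * m‖ := not_lt.1 fun c => (hD 0 (Or.inl (by simpa using c.le))).1 rfl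
  have c2 : δ ≤ ‖l' * m'‖ := not_lt.1 fun c => (hD 0 (Or.inr (by simpa using c.le))).1 rfl
  obtain ⟨K, hK, hA⟩ := ahl3 (m := 2 * k) (by omega)
    ((isCompact_closedBall _ _).union (isCompact_closedBall _ _)) hD
  let vv : PP 63 → ℂ × ℂ := fun x => (crd 2 x - l * m, crd 5 x - l' * m')
  let sh : PP 63 → Prop := fun x => 0 < (crd 0 x / l).re ∧ 0 < (crd 3 x / l').re
  let ρ : PP 63 → ℝ := fun x => if sh x then min δ ‖vv x‖ else δ
  have mD : ∀ x, ‖vv x‖ ≤ δ → crd 2 x ∈ closedBall (l * m) δ ∪ closedBall (l' * m') δ ∧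
      crd 5 x ∈ closedBall (l * m) δ ∪ closedBall (l' * m') δ := fun x hx =>
    ⟨Or.inl (mem_closedBall_iff_norm.2 ((norm_fst_le (vv x)).trans hx)),
      Or.inr (mem_closedBall_iff_norm.2 ((norm_snd_le (vv x)).trans hx))⟩
  have gn : ∀ x ∈ YY k, ‖vv x‖ ≤ δ → Gen k (crd 0 x) (crd 1 x) (crd 3 x) (crd 4 x) ∧
      crd 0 x * crd 1 x = crd 2 x ∧ crd 3 x * crd 4 x = crd 5 x ∧
      x = toP (gpt (crd 0 x) (crd 1 x) (crd 3 x) (crd 4 x)) := fun x hx hv => by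
    obtain ⟨u, hu, hr⟩ := hx
    obtain ⟨a1, a2⟩ := hD _ (mD x hv).1
    obtain ⟨a3, a4⟩ := hD _ (mD x hv).2
    rw [crd_eq hr] at a1 a2 a3 a4
    exact gen_of_ne hu hr (nz hu a1 a3 a2 a4)
  have loc : ∀ f, IsDisc (YY k) f → ∀ z ∈ ball (0 : ℂ) 1,
      (AnalyticAt ℂ (fun w => crd 2 (f w)) z ∧ AnalyticAt ℂ (fun w => crd 5 (f w)) z) ∨
        ∀ᶠ w in 𝓝 z, min δ ‖vv (f w)‖ = δ := fun f hf z hz => by
    obtain ⟨h1, h2, -⟩ := Kob2.good hk0 hf z hz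
    rcases far' hδ c1 h1 with a | a
    · rcases far' hδ c2 h2 with b | b
      · exact Or.inl ⟨a, b⟩
      · exact Or.inr (b.mono fun w e => min_eq_left (e.trans (norm_snd_le (vv (f w)))))
    · exact Or.inr (a.mono fun w e => min_eq_left (e.trans (norm_fst_le (vv (f w)))))
  have ct : ∀ f, IsDisc (YY k) f → ∀ z ∈ ball (0 : ℂ) 1,
      ContinuousAt (fun w => min δ ‖vv (f w)‖) z := fun f hf z hz => by
    rcases loc f hf z hz with ⟨h1, h2⟩ | h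
    · exact continuousAt_const.min ((h1.continuousAt.sub continuousAt_const).prodMk
        (h2.continuousAt.sub continuousAt_const)).norm
    · exact (continuousAt_const (y := δ)).congr (h.mono fun _ e => e.symm)
  have sg : ∀ {a : ℂ → ℝ} {z : ℂ}, ContinuousAt a z → a z ≠ 0 →
      ∀ᶠ w in 𝓝 z, (0 < a w ↔ 0 < a z) := fun {a z} ha h0 => by
    rcases h0.lt_or_gt with c | c
    · filter_upwards [ha.eventually_lt continuousAt_const c] with w hw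
      exact iff_of_false hw.not_gt c.not_gt
    · filter_upwards [continuousAt_const.eventually_lt ha c] with w hw
      exact iff_of_true hw c
  have lc : ∀ f, IsDisc (YY k) f → ∀ z ∈ ball (0 : ℂ) 1, ‖vv (f z)‖ ≤ δ →
      ∀ᶠ w in 𝓝 z, (sh (f w) ↔ sh (f z)) := fun f hf z hz hv => by
    obtain ⟨U, h1, h2⟩ := Kob2.lift hf hz
    obtain ⟨h3, h4⟩ := h2.self_of_nhds
    obtain ⟨a1, a2⟩ := hD _ (mD _ hv).1
    obtain ⟨a3, a4⟩ := hD _ (mD _ hv).2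
    rw [h4] at a1 a2 a3 a4
    have h5 : ∀ i, ContinuousAt (fun w => crd i (f w)) z := fun i =>
      ((h1 i 1).continuousAt.div (h1 i 0).continuousAt (nz h3 a1 a3 a2 a4 i 0)).congr
        (h2.mono fun w e => (e.2 i).symm)
    obtain ⟨g, g1, g2, -⟩ := gn _ (hf z hz).1 hv
    have b1 := (H1 _ _ ((norm_fst_le (vv (f z))).trans (hv.trans e1))
      ((norm_snd_le (vv (f z))).trans (hv.trans e1))).2
    have b2 := (H2 _ _ ((norm_snd_le (vv (f z))).trans (hv.trans e2))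
      ((norm_fst_le (vv (f z))).trans (hv.trans e2))).2
    rw [← g1, ← g2, ← sq_eq g] at b1
    rw [← g1, ← g2, ← sq_eq g.symm] at b2
    filter_upwards [sg (Complex.continuous_re.continuousAt.comp ((h5 0).div_const l))
      (re_ne h.l0 b1), sg (Complex.continuous_re.continuousAt.comp ((h5 3).div_const l'))
      (re_ne h.l0' b2)] with w w1 w2
    exact and_congr w1 w2
  have le : ∀ x, ρ x ≤ δ := fun x => by
    simp only [ρ]
    split_ifs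
    exacts [min_le_left _ _, le_rfl]
  have ge : ∀ x, min δ ‖vv x‖ ≤ ρ x := fun x => by
    simp only [ρ]
    split_ifs
    exacts [le_rfl, min_le_left _ _]
  have T : Tr (YY k) ρ δ K := by
    refine ⟨hK, le, fun f hf z hz => ?_, fun f hf z hz c => ?_⟩
    · rcases le_total ‖vv (f z)‖ δ with c | c
      · by_cases c' : sh (f z)
        · exact (ct f hf z hz).congr ((lc f hf z hz c).mono fun w e => (if_pos (e.2 c')).symm)
        · exact (continuousAt_const (y := δ)).congr ((lc f hf z hz c).mono fun w e =>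
            (if_neg fun d => c' (e.1 d)).symm)
      · have e : min δ ‖vv (f z)‖ = δ := min_eq_left c
        have e' : ρ (f z) = δ := (le _).antisymm (e ▸ ge _)
        have t := (ct f hf z hz).tendsto
        rw [e] at t
        rw [ContinuousAt, e']
        exact tendsto_of_tendsto_of_tendsto_of_le_of_le t tendsto_const_nhds (fun w => ge _)
          fun w => le _
    · have c1 : min δ ‖vv (f z)‖ < δ := (ge _).trans_lt c
      have c2 : ‖vv (f z)‖ ≤ δ := ((min_lt_iff.1 c1).resolve_left (lt_irrefl _)).le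
      have c3 : sh (f z) := by_contra fun d => c.ne (if_neg d)
      obtain ⟨h1, h2⟩ := (loc f hf z hz).resolve_right fun g => c1.ne g.self_of_nhds
      refine ⟨fun w => vv (f w), _, (h1.differentiableAt.hasDerivAt.sub_const _).prodMk
        (h2.differentiableAt.hasDerivAt.sub_const _),
        max_le (hA _ _ (Kob2.good hk0 hf) z hz (mD _ c2).1 (mD _ c2).2)
          (hA _ _ (Kob2.symm (Kob2.good hk0 hf)) z hz (mD _ c2).2 (mD _ c2).1), ?_⟩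
      filter_upwards [lc f hf z hz c2, (ct f hf z hz).eventually_lt continuousAt_const c1]
        with w w1 w2
      exact (if_pos (w1.2 c3)).trans
        (min_eq_right ((min_lt_iff.1 w2).resolve_left (lt_irrefl _)).le)
  have r0 := rep_toP h.mem.1
  have z0 : ρ (toP (gpt l m l' m')) = 0 := by
    have : sh (toP (gpt l m l' m')) := by
      simp only [sh, crd_eq r0]
      simp [pt, h.l0, h.l0']
    simp only [ρ, if_pos this, vv, crd_eq r0]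
    simp [pt, hδ.le]
  have z1 : 0 < ρ y := by
    simp only [ρ]
    split_ifs with c
    · refine lt_min hδ (norm_pos_iff.2 fun e => hne ?_)
      obtain ⟨g, g1, g2, g3⟩ := gn y hy (by rw [e, norm_zero]; exact hδ.le)
      have f1 : crd 2 y = l * m := sub_eq_zero.1 (congrArg Prod.fst e)
      have f2 : crd 5 y = l' * m' := sub_eq_zero.1 (congrArg Prod.snd e)
      have f3 : crd 0 y = l := eq_of_re h.l0 (by rw [sq_eq g, sq_eq h, g1, g2, f1, f2]) c.1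
      have f4 : crd 3 y = l' :=
        eq_of_re h.l0' (by rw [sq_eq g.symm, sq_eq h.symm, g1, g2, f1, f2]) c.2
      rw [f3, f1] at g1
      rw [f4, f2] at g2
      rw [g3, f3, f4, mul_left_cancel₀ h.l0 g1, mul_left_cancel₀ h.l0' g2]
    · exact hδ
  refine ⟨ρ y / K, by positivity, fun r hr => ?_⟩
  have := T.chain (chain_symm hr)
  rw [div_le_iff₀ hK]
  linarith

end Pool.Agent.Lib.MP_879098_ag.Hy
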