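import Pool.Agent.Lib.MP_879098_ag.HyConn
import Pool.Agent.Lib.MP_879098_ag.HySep

/-! The smooth surface is Kobayashi hyperbolic modulo a quadric section. -/

namespace Pool.Agent.Lib.MP_879098_ag.Hy

open Filter Topology Metric Set Sm

theorem hyp_mod {k : ℕ} (hk : 2000 ≤ k) : (YY k).Nontrivial ∧
    ∃ (F : MvPolynomial (Fin (63 + 1)) ℂ) (d : ℕ), F.IsHomogeneous d ∧ ¬ YY k ⊆ zeroSet {F} ∧
      ∀ x ∈ YY k \ zeroSet {F}, ∀ y ∈ YY k, x ≠ y → 0 < kobayashi (YY k) x y := by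
  have hk0 : 0 < k := by omega
  refine ⟨⟨_, (cen_mem hk0 0).2, _, (cenI_mem k).2, fun e => ?_⟩,
    MvPolynomial.X (idx.symm fun _ => 0) * MvPolynomial.X (idx.symm fun _ => 1), 1 + 1,
    (MvPolynomial.isHomogeneous_X _ _).mul (MvPolynomial.isHomogeneous_X _ _), fun h => ?_, ?_⟩
  · have := seg_par (rep_toP (cen_mem hk0 0).1) (e ▸ rep_toP (cenI_mem k).1) 0
    simp [pt] at this
  · obtain ⟨l, m, l', m', g, -⟩ := gen_dense k hk0 _ (cen_mem hk0 0).2 1 one_pos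
    have := h g.mem.2 _ (rep_toP g.mem.1) _ rfl
    simp only [map_mul, MvPolynomial.eval_X, gpt, seg_idx, Fin.prod_univ_six] at this
    simp [pt, g.l0, g.m0, g.l0', g.m0'] at this
  · rintro x ⟨⟨u, hu, hr⟩, hx⟩ y hy hne
    have h : ∀ i a, u i a ≠ 0 := fun i a c => hx fun v hv F hF => by
      obtain ⟨s, -, rfl⟩ := hr.exists_smul hv
      rw [mem_singleton_iff.1 hF]
      simp only [map_mul, MvPolynomial.eval_X, Pi.smul_apply, seg_idx, smul_eq_mul]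
      fin_cases a
      · rw [Finset.prod_eq_zero (Finset.mem_univ i) c, mul_zero, zero_mul]
      · rw [Finset.prod_eq_zero (f := fun i => u i 1) (Finset.mem_univ i) c, mul_zero, mul_zero]
    obtain ⟨g, -, -, e⟩ := gen_of_ne hu hr h
    obtain ⟨c, c0, hc⟩ := sep hk g hy (e ▸ hne)
    rw [← e] at hc
    exact c0.trans_le (le_csInf (jn_YY (by omega) ⟨u, hu, hr⟩ hy) hc)

theorem hyp_mod' {k : ℕ} (hk : 2000 ≤ k) : (∃ x ∈ YY k, ∃ y ∈ YY k, 0 < kobayashi (YY k) x y) ∧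
    ∃ (F : MvPolynomial (Fin (63 + 1)) ℂ) (d : ℕ), F.IsHomogeneous d ∧ ¬ YY k ⊆ zeroSet {F} ∧
      ∀ x ∈ YY k \ zeroSet {F}, ∀ y ∈ YY k, x ≠ y → 0 < kobayashi (YY k) x y := by
  obtain ⟨h, F, d, h1, h2, h3⟩ := hyp_mod hk
  obtain ⟨x, hx, hx'⟩ := not_subset.1 h2
  obtain ⟨y, hy, hne⟩ := h.exists_ne x
  exact ⟨⟨x, hx, y, hy, h3 x ⟨hx, hx'⟩ y hy hne.symm⟩, F, d, h1, h2, h3⟩

end Pool.Agent.Lib.MP_879098_ag.Hy
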