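import Pool.Agent.Lib.MP_879098_ag.Tools

/-! The surface is a projective variety (irreducibility by the Eisenstein criterion). -/

namespace Pool.Agent.Lib.MP_879098_ag

open Filter Topology Polynomial Metric

namespace Irred

/-- coefficient ring: variables `s`, `t` and a scaling factor -/
abbrev RR : Type := MvPolynomial (Fin 3) ℂ

/-- the cofactor of `s` in `ff s * ff t` -/
noncomputable def bb (m : ℕ) : RR :=
  (MvPolynomial.X 0 ^ m - 1) * (MvPolynomial.X 1 * (MvPolynomial.X 1 ^ m - 1))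

/-- the equation of the affine part -/
noncomputable def pp (m : ℕ) : RR[X] := X ^ (m + 2) - C (MvPolynomial.X 0 * bb m)

theorem eval_a (m : ℕ) (u : Fin 3 → ℂ) :
    MvPolynomial.eval u (MvPolynomial.X 0 * bb m) = ff m (u 0) * ff m (u 1) := by
  simp only [bb, ff, map_mul, map_sub, map_pow, map_one, MvPolynomial.eval_X]
  ring

theorem monic_pp (m : ℕ) : (pp m).Monic := monic_X_pow_sub_C _ (by omega)

theorem two_pow_ne (m : ℕ) (hm : 0 < m) : (2 : ℂ) ^ m - 1 ≠ 0 := by
  intro h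
  have h1 : ((2 ^ m : ℕ) : ℂ) = (1 : ℕ) := by push_cast; linear_combination h
  have h2 : 2 ^ m = 1 := Nat.cast_injective h1
  have := Nat.one_lt_two_pow hm.ne'
  omega

theorem bb_ne (m : ℕ) (hm : 0 < m) : MvPolynomial.eval ![0, 2, 1] (bb m) ≠ 0 := by
  have := two_pow_ne m hm
  simp [bb, hm.ne', this]

theorem prime_pp (m : ℕ) (hm : 0 < m) : Prime (pp m) := by
  have hX : Prime (MvPolynomial.X 0 : RR) := MvPolynomial.X_prime
  refine Irreducible.prime (irreducible_of_eisenstein_criterion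
    (P := Ideal.span {MvPolynomial.X 0}) ((Ideal.span_singleton_prime hX.ne_zero).2 hX) ?_ ?_ ?_ ?_
    (monic_pp m).isPrimitive)
  · rw [(monic_pp m).leadingCoeff, Ideal.mem_span_singleton]
    exact hX.not_dvd_one
  · intro k hk
    rw [pp, degree_X_pow_sub_C (by omega)] at hk
    have hk' : k ≠ m + 2 := (Nat.cast_lt.1 hk).ne
    rw [Ideal.mem_span_singleton, pp, coeff_sub, coeff_X_pow, if_neg hk', zero_sub, dvd_neg,
      coeff_C]
    split_ifs
    · exact dvd_mul_right _ _
    · exact dvd_zero _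
  · rw [pp, degree_X_pow_sub_C (by omega)]
    exact Nat.cast_pos.2 (by omega)
  · rw [Ideal.span_singleton_pow, Ideal.mem_span_singleton, pp, coeff_sub, coeff_X_pow,
      if_neg (by omega), zero_sub, dvd_neg, coeff_C_zero, pow_two,
      mul_dvd_mul_iff_left hX.ne_zero]
    rintro ⟨c, hc⟩
    exact bb_ne m hm (by rw [hc]; simp)

theorem dvd_of_vanish (m : ℕ) (hm : 0 < m) (r : RR[X])
    (h : ∀ (u : Fin 3 → ℂ) (y : ℂ), u 2 ≠ 0 → y ^ (m + 2) = ff m (u 0) * ff m (u 1) →
      r.eval₂ (MvPolynomial.eval u) y = 0) : pp m ∣ r := by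
  classical
  rw [← modByMonic_eq_zero_iff_dvd (monic_pp m)]
  have hd : (r %ₘ pp m).degree < (m + 2 : ℕ) := by
    have := degree_modByMonic_lt r (monic_pp m)
    rwa [pp, degree_X_pow_sub_C (by omega)] at this
  have key : ∀ u : Fin 3 → ℂ, u 2 ≠ 0 → ff m (u 0) * ff m (u 1) ≠ 0 →
      (r %ₘ pp m).map (MvPolynomial.eval u) = 0 := by
    intro u h2 ha
    have hsep : (X ^ (m + 2) - C (ff m (u 0) * ff m (u 1)) : ℂ[X]).Separable :=
      separable_X_pow_sub_C _ (by exact_mod_cast (by omega : m + 2 ≠ 0)) ha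
    have hcard : (X ^ (m + 2) - C (ff m (u 0) * ff m (u 1)) : ℂ[X]).roots.toFinset.card
        = m + 2 := by
      rw [Multiset.toFinset_card_of_nodup (nodup_roots hsep), IsAlgClosed.card_roots_eq_natDegree,
        natDegree_X_pow_sub_C]
    refine eq_zero_of_degree_lt_of_eval_finset_eq_zero
      (X ^ (m + 2) - C (ff m (u 0) * ff m (u 1)) : ℂ[X]).roots.toFinset ?_ fun y hy => ?_
    · rw [hcard]
      exact (degree_map_le).trans_lt hd
    · have hy' : y ^ (m + 2) = ff m (u 0) * ff m (u 1) := by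
        have := (mem_roots'.1 (Multiset.mem_toFinset.1 hy)).2
        simpa [sub_eq_zero] using this
      have e := congrArg (eval₂ (MvPolynomial.eval u) y) (modByMonic_add_div r (pp m))
      rw [h u y h2 hy', eval₂_add, eval₂_mul, pp, eval₂_sub, eval₂_pow, eval₂_X, eval₂_C, eval_a,
        hy', sub_self, zero_mul, add_zero] at e
      rw [eval_map]
      exact e
  ext1 k
  have hne : (MvPolynomial.X 2 * (MvPolynomial.X 0 * bb m) : RR) ≠ 0 :=
    mul_ne_zero (MvPolynomial.X_ne_zero _) (mul_ne_zero (MvPolynomial.X_ne_zero _) fun c =>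
      bb_ne m hm (by rw [c, map_zero]))
  refine (mul_eq_zero.1 (MvPolynomial.funext (q := 0) fun u => ?_)).resolve_left hne
  rw [map_mul, map_mul, eval_a, MvPolynomial.eval_X, map_zero]
  by_cases h2 : u 2 = 0
  · simp [h2]
  by_cases ha : ff m (u 0) * ff m (u 1) = 0
  · simp [ha]
  have := congrArg (fun q => coeff q k) (key u h2 ha)
  simp only [coeff_map, coeff_zero] at this
  rw [this, mul_zero]

/-- substitution of the parametrisation -/
noncomputable def sb : MvPolynomial (Fin 5) ℂ →+* RR[X] :=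
  MvPolynomial.eval₂Hom (C.comp MvPolynomial.C)
    ![C (MvPolynomial.X 2), C (MvPolynomial.X 2 * MvPolynomial.X 1),
      C (MvPolynomial.X 2 * MvPolynomial.X 0),
      C (MvPolynomial.X 2 * (MvPolynomial.X 0 * MvPolynomial.X 1)), C (MvPolynomial.X 2) * X]

theorem eval_sb (u : Fin 3 → ℂ) (y : ℂ) (F : MvPolynomial (Fin 5) ℂ) :
    (sb F).eval₂ (MvPolynomial.eval u) y = MvPolynomial.eval (u 2 • aff (u 0) (u 1) y) F := by
  have : (eval₂RingHom (MvPolynomial.eval u) y).comp sb
      = MvPolynomial.eval (u 2 • aff (u 0) (u 1) y) := by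
    refine MvPolynomial.ringHom_ext (fun c => by simp [sb]) fun i => ?_
    fin_cases i <;> simp [sb, aff]
  exact DFunLike.congr_fun this F

theorem subset_of_dvd (m : ℕ) (hm : 0 < m) (F : MvPolynomial (Fin 5) ℂ) (h : pp m ∣ sb F) :
    surface m ⊆ zeroSet {F} := by
  intro x hx v hv G hG
  rw [Set.mem_singleton_iff.1 hG]
  have h1 : ∀ κ s t y : ℂ, y ^ (m + 2) = ff m s * ff m t →
      MvPolynomial.eval (κ • aff s t y) F = 0 := by
    intro κ s t y e
    obtain ⟨c, hc⟩ := h
    have := eval_sb ![s, t, κ] y F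
    rw [hc, eval₂_mul, pp, eval₂_sub, eval₂_pow, eval₂_X, eval₂_C, eval_a] at this
    simpa [e] using this.symm
  obtain ⟨σ, σ0, rfl⟩ := (rep_rep x).exists_smul hv
  have hc : IsClosed {w : VV 4 | MvPolynomial.eval w F = 0} :=
    isClosed_eq (MvPolynomial.continuous_eval F) continuous_const
  refine hc.closure_subset (Metric.mem_closure_iff.2 fun ε ε0 => ?_)
  have n0 : 0 < ‖σ • x.rep‖ := norm_pos_iff.2 hv.ne
  obtain ⟨s, t, y, -, e, hn⟩ := aff_dense m hm x hx (ε / ‖σ • x.rep‖) (by positivity)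
  obtain ⟨κ, κ0, hκ⟩ := hn.smul_left σ0
  refine ⟨κ⁻¹ • aff s t y, h1 _ _ _ _ e, ?_⟩
  have e1 : κ⁻¹ • aff s t y - σ • x.rep = κ⁻¹ • (aff s t y - κ • σ • x.rep) := by
    rw [smul_sub, inv_smul_smul₀ κ0]
  rw [dist_comm, dist_eq_norm, e1, norm_smul, norm_inv, inv_mul_lt_iff₀ (norm_pos_iff.2 κ0)]
  refine hκ.trans_eq ?_
  rw [norm_smul κ]
  field_simp

end Irred

open Irred in
theorem isProjVariety_surface (m : ℕ) (hm : 0 < m) : IsProjVariety (surface m) := by
  refine ⟨isZClosed_surface m, ⟨toP (aff 0 0 0), aff_mem.2 (by simp [ff])⟩,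
    fun F G _ _ _ _ h => ?_⟩
  have h1 : pp m ∣ sb F * sb G := by
    rw [← map_mul]
    refine dvd_of_vanish m hm _ fun u y h2 e => ?_
    rw [eval_sb]
    exact h (aff_mem.2 e) _ ((rep_toP (aff_ne _ _ _)).smul h2) _ rfl
  exact ((prime_pp m hm).dvd_or_dvd h1).imp (subset_of_dvd m hm F) (subset_of_dvd m hm G)

end Pool.Agent.Lib.MP_879098_ag
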