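import Pool.Agent.Lib.MP_879098_ag.Base

/-! Morphisms to projective space: local form, uniform continuity, identity theorem and lifting
of discs and lines. -/

namespace Pool.Agent.Lib.MP_879098_ag

open Filter Topology Polynomial Metric

namespace Morph

theorem eval_smul {n d : ℕ} {F : MvPolynomial (Fin (n + 1)) ℂ} (hF : F.IsHomogeneous d) (s : ℂ)
    (v : VV n) : MvPolynomial.eval (s • v) F = s ^ d * MvPolynomial.eval v F := by
  rw [MvPolynomial.eval_eq', MvPolynomial.eval_eq', Finset.mul_sum]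
  refine Finset.sum_congr rfl fun m hm => ?_
  have h1 : ∑ i, m i = d := by
    have := hF (MvPolynomial.mem_support_iff.1 hm)
    rw [← this, Finsupp.weight_apply, Finsupp.sum_fintype] <;> simp
  simp only [Pi.smul_apply, smul_eq_mul, mul_pow, Finset.prod_mul_distrib,
    Finset.prod_pow_eq_pow_sum, h1]
  ring

/-- the value of a tuple of polynomials in several variables -/
noncomputable def mev {n a : ℕ} (p : Fin (a + 1) → MvPolynomial (Fin (n + 1)) ℂ) (v : VV n) :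
    VV a := fun i => MvPolynomial.eval v (p i)

theorem continuous_mev {n a : ℕ} (p : Fin (a + 1) → MvPolynomial (Fin (n + 1)) ℂ) :
    Continuous (mev p) := continuous_pi fun i => MvPolynomial.continuous_eval (p i)

theorem analyticAt_mev {n a : ℕ} (p : Fin (a + 1) → MvPolynomial (Fin (n + 1)) ℂ) (v : VV n) :
    AnalyticAt ℂ (mev p) v :=
  AnalyticAt.pi fun i => AnalyticOnNhd.eval_mvPolynomial (p i) v (Set.mem_univ _)

theorem minors {a : ℕ} {u w : VV a} {x : PP a} (hu : Rep u x) (hw : Rep w x) (i k : Fin (a + 1)) :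
    w i * u k = w k * u i := by
  obtain ⟨s, -, rfl⟩ := hu.exists_smul hw
  simp only [Pi.smul_apply, smul_eq_mul]
  ring

theorem of_minors {a : ℕ} {u w : VV a} {x : PP a} (hu : Rep u x) (hw : w ≠ 0)
    (h : ∀ i k, w i * u k = w k * u i) : Rep w x := by
  obtain ⟨k, hk⟩ := Function.ne_iff.1 hu.ne
  have hk' : u k ≠ 0 := hk
  have e : w = (w k / u k) • u := by
    ext i
    simp only [Pi.smul_apply, smul_eq_mul]
    field_simp
    linear_combination h i k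
  have hs : w k / u k ≠ 0 := fun c => hw (by rw [e, c, zero_smul])
  rw [e]
  exact hu.smul hs

/-- the unit vectors over a Zariski closed set form a compact set -/
theorem exists_compact {n : ℕ} {X : Set (PP n)} (hX : IsZClosed X) :
    ∃ K : Set (VV n), IsCompact K ∧ (∀ v ∈ K, ∃ x ∈ X, Rep v x) ∧
      ∀ x ∈ X, ∀ v, Rep v x → ‖v‖ = 1 → v ∈ K := by
  obtain ⟨S, hS, rfl⟩ := hX
  refine ⟨sphere 0 1 ∩ ⋂ F ∈ S, {v | MvPolynomial.eval v F = 0}, ?_, ?_, ?_⟩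
  · exact (isCompact_sphere _ _).inter_right (isClosed_biInter fun F _ =>
      isClosed_eq (MvPolynomial.continuous_eval F) continuous_const)
  · rintro v ⟨h1, h2⟩
    have h0 : v ≠ 0 := by
      rintro rfl
      simp at h1
    refine ⟨toP v, fun w hw F hF => ?_, rep_toP h0⟩
    obtain ⟨s, -, rfl⟩ := (rep_toP h0).exists_smul hw
    obtain ⟨d, hd⟩ := hS F hF
    have : MvPolynomial.eval v F = 0 := Set.mem_iInter₂.1 h2 F hF
    rw [eval_smul hd, this, mul_zero]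
  · intro x hx v hv h1
    exact ⟨by simpa using h1, Set.mem_iInter₂.2 fun F hF => hx v hv F hF⟩

theorem exists_unit {n : ℕ} {v : VV n} (h : v ≠ 0) :
    ∃ c : ℂ, c ≠ 0 ∧ ‖c‖ = ‖v‖⁻¹ ∧ ‖c • v‖ = 1 := by
  have h1 : ‖v‖ ≠ 0 := norm_ne_zero_iff.2 h
  refine ⟨((‖v‖⁻¹ : ℝ) : ℂ), by exact_mod_cast inv_ne_zero h1, by simp, ?_⟩
  rw [norm_smul]
  simp [h1]

theorem near_close {a : ℕ} {δ r : ℝ} {q q₀ u' : VV a} (h : Near δ q u')
    (hr : ‖q - q₀‖ + δ * ‖q‖ < r) : ∃ s : ℂ, s ≠ 0 ∧ ‖s • u' - q₀‖ < r := by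
  obtain ⟨κ, hκ, h⟩ := h
  refine ⟨κ⁻¹, inv_ne_zero hκ, ?_⟩
  have h1 : ‖κ⁻¹ • u' - q‖ < δ * ‖q‖ := by
    have e : u' - κ • q = κ • (κ⁻¹ • u' - q) := by
      rw [smul_sub, smul_smul, mul_inv_cancel₀ hκ, one_smul]
    rw [e, norm_smul, norm_smul, mul_left_comm] at h
    exact lt_of_mul_lt_mul_left h (norm_nonneg _)
  have := norm_sub_le_norm_sub_add_norm_sub (κ⁻¹ • u') q q₀
  linarith

end Morph

open Morph

theorem IsMorphism.local {n a : ℕ} {X : Set (PP n)} {j : PP n → PP a} (hj : IsMorphism X j)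
    {v₀ : VV n} {x₀ : PP n} (hx : x₀ ∈ X) (hv : Rep v₀ x₀) :
    ∃ p : Fin (a + 1) → MvPolynomial (Fin (n + 1)) ℂ, ∀ᶠ v in 𝓝 v₀, ∀ x ∈ X, Rep v x →
      Rep (fun i => MvPolynomial.eval v (p i)) (j x) := by
  obtain ⟨d, e, p, H, -, hH, hx0, h⟩ := hj x₀ hx
  have h0 : MvPolynomial.eval v₀ H ≠ 0 := by
    intro c
    refine hx0 fun w hw F hF => ?_
    obtain ⟨s, -, rfl⟩ := hv.exists_smul hw
    rw [Set.mem_singleton_iff.1 hF, eval_smul hH, c, mul_zero]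
  refine ⟨p, ?_⟩
  filter_upwards [(MvPolynomial.continuous_eval H).continuousAt.eventually_ne h0] with v hv x hx hr
  exact h x hx v hr hv

theorem IsMorphism.unif {n a : ℕ} {X : Set (PP n)} (hX : IsZClosed X) {j : PP n → PP a}
    (hj : IsMorphism X j) (δ : ℝ) (hδ : 0 < δ) :
    ∃ η : ℝ, 0 < η ∧ ∀ x ∈ X, ∀ x' ∈ X, ∀ v v' u u', Rep v x → Rep v' x' → Near η v v' →
      Rep u (j x) → Rep u' (j x') → Near δ u u' := by
  obtain ⟨K, hK, hK1, hK2⟩ := exists_compact hX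
  have key : ∀ᶠ ε in 𝓝 (0 : VV n), ∀ v ∈ K, ∀ x ∈ X, ∀ x' ∈ X, ∀ u u', Rep v x →
      Rep (v + ε) x' → Rep u (j x) → Rep u' (j x') → Near δ u u' := by
    refine hK.eventually_forall_of_forall_eventually fun v₀ hv₀ => ?_
    obtain ⟨x₀, hx₀, hr⟩ := hK1 v₀ hv₀
    obtain ⟨p, hp⟩ := hj.local hx₀ hr
    have hp0 : mev p v₀ ≠ 0 := (hp.self_of_nhds x₀ hx₀ hr).ne
    have t1 : Tendsto (fun z : VV n × VV n => z.2) (𝓝 (0, v₀)) (𝓝 v₀) := continuous_snd.tendsto _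
    have t2 : Tendsto (fun z : VV n × VV n => z.2 + z.1) (𝓝 (0, v₀)) (𝓝 v₀) := by
      have : Continuous fun z : VV n × VV n => z.2 + z.1 := by fun_prop
      simpa using this.tendsto (0, v₀)
    have c := continuous_mev p
    have t3 : ∀ᶠ z : VV n × VV n in 𝓝 (0, v₀),
        ‖mev p (z.2 + z.1) - mev p z.2‖ < δ * ‖mev p z.2‖ := by
      refine ContinuousAt.eventually_lt (by fun_prop) (by fun_prop) ?_
      simpa using mul_pos hδ (norm_pos_iff.2 hp0)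
    filter_upwards [t1.eventually hp, t2.eventually hp, t3] with z h1 h2 h3 x hx x' hx' u u' r1 r2
      r3 r4
    obtain ⟨s, hs, rfl⟩ := (h1 x hx r1).exists_smul r3
    obtain ⟨t, ht, rfl⟩ := (h2 x' hx' r2).exists_smul r4
    exact ((near_of_norm h3).smul_left hs).smul_right ht
  obtain ⟨η, hη, h⟩ := Metric.eventually_nhds_iff.1 key
  refine ⟨η, hη, fun x hx x' hx' v v' u u' r1 r2 ⟨κ, hκ, hn⟩ r3 r4 => ?_⟩
  have r5 := r1.smul hκ
  obtain ⟨c, hc, hc1, hc2⟩ := exists_unit r5.ne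
  refine h (y := c • (v' - κ • v)) ?_ (c • κ • v) (hK2 x hx _ (r5.smul hc) hc2) x hx x' hx' u u'
    (r5.smul hc) ?_ r3 r4
  · rw [dist_zero_right, norm_smul, hc1, inv_mul_lt_iff₀ (norm_pos_iff.2 r5.ne), mul_comm]
    exact hn
  · rw [← smul_add, add_sub_cancel]
    exact r2.smul hc

theorem IsMorphism.margin {n a b : ℕ} {X : Set (PP n)} (hX : IsZClosed X) {j : PP n → PP a}
    {k : PP n → PP b} (hj : IsMorphism X j) (hk : IsMorphism X k) {Ω : Set (VV a × VV b)}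
    (hΩ : IsCone Ω) (h : ∀ x ∈ X, ∀ u v, Rep u (j x) → Rep v (k x) → (u, v) ∈ Ω) :
    ∃ δ : ℝ, 0 < δ ∧ ∀ x ∈ X, ∀ u v u' v', Rep u (j x) → Rep v (k x) → Near δ u u' →
      Near δ v v' → (u', v') ∈ Ω := by
  obtain ⟨K, hK, hK1, hK2⟩ := exists_compact hX
  have key : ∀ᶠ δ in 𝓝 (0 : ℝ), ∀ w ∈ K, ∀ x ∈ X, ∀ u v u' v', Rep w x → Rep u (j x) →
      Rep v (k x) → Near δ u u' → Near δ v v' → (u', v') ∈ Ω := by
    refine hK.eventually_forall_of_forall_eventually fun v₀ hv₀ => ?_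
    obtain ⟨x₀, hx₀, hr⟩ := hK1 v₀ hv₀
    obtain ⟨p, hp⟩ := hj.local hx₀ hr
    obtain ⟨q, hq⟩ := hk.local hx₀ hr
    obtain ⟨r, hr0, hb⟩ := Metric.isOpen_iff.1 hΩ.isOpen (mev p v₀, mev q v₀)
      (h x₀ hx₀ _ _ (hp.self_of_nhds x₀ hx₀ hr) (hq.self_of_nhds x₀ hx₀ hr))
    have t1 : Tendsto (fun z : ℝ × VV n => z.2) (𝓝 (0, v₀)) (𝓝 v₀) := continuous_snd.tendsto _
    have c := continuous_mev p
    have c' := continuous_mev q
    have t2 : ∀ᶠ z : ℝ × VV n in 𝓝 (0, v₀),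
        ‖mev p z.2 - mev p v₀‖ + z.1 * ‖mev p z.2‖ < r := by
      refine ContinuousAt.eventually_lt (by fun_prop) (by fun_prop) ?_
      simpa using hr0
    have t3 : ∀ᶠ z : ℝ × VV n in 𝓝 (0, v₀),
        ‖mev q z.2 - mev q v₀‖ + z.1 * ‖mev q z.2‖ < r := by
      refine ContinuousAt.eventually_lt (by fun_prop) (by fun_prop) ?_
      simpa using hr0
    filter_upwards [t1.eventually hp, t1.eventually hq, t2, t3] with z h1 h2 h3 h4 x hx u v u' v'
      r1 r2 r3 n1 n2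
    obtain ⟨s, hs, e1⟩ := r2.exists_smul (h1 x hx r1)
    obtain ⟨t, ht, e2⟩ := r3.exists_smul (h2 x hx r1)
    have n3 : Near z.1 (mev p z.2) u' := by
      rw [show mev p z.2 = s • u from e1]
      exact n1.smul_left hs
    have n4 : Near z.1 (mev q z.2) v' := by
      rw [show mev q z.2 = t • v from e2]
      exact n2.smul_left ht
    obtain ⟨σ, hσ, m1⟩ := near_close n3 h3
    obtain ⟨τ, hτ, m2⟩ := near_close n4 h4
    have : (σ • u', τ • v') ∈ Ω := hb (by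
      rw [mem_ball, Prod.dist_eq, max_lt_iff, dist_eq_norm, dist_eq_norm]
      exact ⟨m1, m2⟩)
    simpa [hσ, hτ] using hΩ.smul _ _ σ⁻¹ τ⁻¹ (inv_ne_zero hσ) (inv_ne_zero hτ) this
  obtain ⟨δ, hδ, h'⟩ := Metric.eventually_nhds_iff.1 key
  refine ⟨δ / 2, half_pos hδ, fun x hx u v u' v' r1 r2 n1 n2 => ?_⟩
  obtain ⟨c, hc, -, hc2⟩ := exists_unit (rep_rep x).ne
  refine h' (y := δ / 2) ?_ _ (hK2 x hx _ ((rep_rep x).smul hc) hc2) x hx u v u' v'
    ((rep_rep x).smul hc) r1 r2 n1 n2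
  rw [dist_zero_right, Real.norm_of_nonneg (half_pos hδ).le]
  exact half_lt_self hδ

/-- a lift of a morphism passes to limits -/
theorem IsMorphism.limit {n a : ℕ} {X : Set (PP n)} {j : PP n → PP a} (hj : IsMorphism X j)
    {Φ : ℂ → VV n} {h : ℂ → VV a} {z₁ : ℂ} (hΦ : ContinuousAt Φ z₁) (hh : ContinuousAt h z₁)
    (hX : Φ z₁ ≠ 0 ∧ toP (Φ z₁) ∈ X) (h0 : h z₁ ≠ 0)
    (he : ∃ᶠ z in 𝓝 z₁, (Φ z ≠ 0 ∧ toP (Φ z) ∈ X) ∧ Rep (h z) (j (toP (Φ z)))) :
    Rep (h z₁) (j (toP (Φ z₁))) := by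
  obtain ⟨p, hp⟩ := hj.local hX.2 (rep_toP hX.1)
  refine of_minors (hp.self_of_nhds _ hX.2 (rep_toP hX.1)) h0 fun i k => ?_
  have c : ContinuousAt (fun z => mev p (Φ z)) z₁ := (continuous_mev p).continuousAt.comp hΦ
  have c1 := fun i => continuousAt_pi.1 c i
  have c2 := fun i => continuousAt_pi.1 hh i
  refine tendsto_nhds_unique_of_frequently_eq ((c2 i).mul (c1 k)) ((c2 k).mul (c1 i)) ?_
  refine (he.and_eventually (hΦ.eventually hp)).mono fun z hz => ?_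
  exact minors (hz.2 _ hz.1.1.2 (rep_toP hz.1.1.1)) hz.1.2 i k

theorem IsMorphism.ident {n a : ℕ} {X : Set (PP n)} {j : PP n → PP a} (hj : IsMorphism X j)
    {D : Set ℂ} (hD : IsOpen D) (hc : IsPreconnected D) {Φ : ℂ → VV n} {h : ℂ → VV a}
    (hΦ : AnalyticOnNhd ℂ Φ D) (hh : AnalyticOnNhd ℂ h D)
    (hX : ∀ z ∈ D, Φ z ≠ 0 ∧ toP (Φ z) ∈ X) (h0 : ∀ z ∈ D, h z ≠ 0) {z₀ : ℂ} (hz : z₀ ∈ D)
    (he : ∃ᶠ z in 𝓝[≠] z₀, Rep (h z) (j (toP (Φ z)))) : ∀ z ∈ D, Rep (h z) (j (toP (Φ z))) := by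
  have key : ∀ z₁ ∈ D, (∃ᶠ z in 𝓝[≠] z₁, Rep (h z) (j (toP (Φ z)))) →
      ∀ᶠ z in 𝓝 z₁, Rep (h z) (j (toP (Φ z))) := by
    intro z₁ h1 hf
    obtain ⟨p, hp⟩ := hj.local (hX z₁ h1).2 (rep_toP (hX z₁ h1).1)
    have hp' : ∀ᶠ z in 𝓝 z₁, Rep (mev p (Φ z)) (j (toP (Φ z))) := by
      filter_upwards [(hΦ z₁ h1).continuousAt.eventually hp, hD.mem_nhds h1] with z e1 e2
      exact e1 _ (hX z e2).2 (rep_toP (hX z e2).1)
    have c : AnalyticAt ℂ (fun z => mev p (Φ z)) z₁ := (analyticAt_mev p _).comp (hΦ z₁ h1)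
    have c1 := fun i => analyticAt_pi_iff.1 c i
    have c2 := fun i => analyticAt_pi_iff.1 (hh z₁ h1) i
    have hm : ∀ᶠ z in 𝓝 z₁, ∀ i k, h z i * mev p (Φ z) k = h z k * mev p (Φ z) i := by
      refine eventually_all.2 fun i => eventually_all.2 fun k => ?_
      refine (AnalyticAt.frequently_eq_iff_eventually_eq ((c2 i).mul (c1 k))
        ((c2 k).mul (c1 i))).1 ?_
      refine (hf.and_eventually (hp'.filter_mono nhdsWithin_le_nhds)).mono fun z hz => ?_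
      exact minors hz.2 hz.1 i k
    filter_upwards [hp', hm, hD.mem_nhds h1] with z e1 e2 e3
    exact of_minors e1 (h0 z e3) e2
  have : D ⊆ {z | ∀ᶠ w in 𝓝 z, Rep (h w) (j (toP (Φ w)))} := by
    refine hc.subset_of_closure_inter_subset isOpen_setOfPred_eventually_nhds ⟨z₀, hz, key z₀ hz he⟩ ?_
    rintro z₁ ⟨h1, h2⟩
    by_contra hn
    refine hn (key z₁ h2 ?_)
    rw [frequently_nhdsWithin_iff]
    refine (mem_closure_iff_frequently.1 h1).mono fun z hz => ⟨hz.self_of_nhds, ?_⟩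
    rintro rfl
    exact hn hz
  exact fun z hz => (this hz).self_of_nhds

theorem IsMorphism.lift_disc {n a : ℕ} {X : Set (PP n)} {j : PP n → PP a} (hj : IsMorphism X j)
    {Φ : ℂ → VV n} (hΦ : AnalyticOnNhd ℂ Φ (closedBall 0 1))
    (hX : ∀ z ∈ closedBall (0 : ℂ) 1, Φ z ≠ 0 ∧ toP (Φ z) ∈ X) :
    ∃ h : ℂ → VV a, AnalyticOnNhd ℂ h (closedBall 0 1) ∧
      ∀ z ∈ closedBall (0 : ℂ) 1, Rep (h z) (j (toP (Φ z))) := by
  have z0 : (0 : ℂ) ∈ closedBall (0 : ℂ) 1 := mem_closedBall_self zero_le_one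
  have n0 : closedBall (0 : ℂ) 1 ∈ 𝓝 (0 : ℂ) := closedBall_mem_nhds _ one_pos
  obtain ⟨p, hp⟩ := hj.local (hX 0 z0).2 (rep_toP (hX 0 z0).1)
  have hp' : ∀ᶠ z in 𝓝 (0 : ℂ), Rep (mev p (Φ z)) (j (toP (Φ z))) := by
    filter_upwards [(hΦ 0 z0).continuousAt.eventually hp, n0] with z e1 e2
    exact e1 _ (hX z e2).2 (rep_toP (hX z e2).1)
  have hH : AnalyticOnNhd ℂ (fun z => mev p (Φ z)) (closedBall 0 1) := fun z hz =>
    (analyticAt_mev p _).comp (hΦ z hz)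
  have hM := hH.meromorphicOn
  have o0 : meromorphicOrderAt (fun z => mev p (Φ z)) 0 ≠ ⊤ := by
    rw [Ne, meromorphicOrderAt_eq_top_iff]
    intro c
    obtain ⟨z, e1, e2⟩ := (c.and (hp'.filter_mono nhdsWithin_le_nhds)).exists
    exact e2.ne e1
  obtain ⟨g, g1, g2, g3⟩ := hM.extract_zeros_poles (fun u =>
    hM.meromorphicOrderAt_ne_top_of_isPreconnected (convex_closedBall _ _).isPreconnected z0 u.2 o0)
    ((MeromorphicOn.divisor _ _).finiteSupport (isCompact_closedBall _ _))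
  have g4 := mem_codiscreteWithin_iff_forall_mem_nhdsNE.1 g3 0 z0
  have hb : ∀ z ∈ ball (0 : ℂ) 1, Rep (g z) (j (toP (Φ z))) := by
    refine hj.ident isOpen_ball (convex_ball _ _).isPreconnected (hΦ.mono ball_subset_closedBall)
      (g1.mono ball_subset_closedBall) (fun z hz => hX z (ball_subset_closedBall hz))
      (fun z hz => g2 ⟨z, ball_subset_closedBall hz⟩) (mem_ball_self one_pos)
      (Eventually.frequently ?_)
    filter_upwards [g4, hp'.filter_mono nhdsWithin_le_nhds, mem_nhdsWithin_of_mem_nhds n0] with z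
      e1 e2 e3
    obtain ⟨s, hs⟩ : ∃ s : ℂ, mev p (Φ z) = s • g z := ⟨_, e1.resolve_right fun c => c e3⟩
    have hs0 : s ≠ 0 := fun c => e2.ne (by rw [hs, c, zero_smul])
    have := e2.smul (inv_ne_zero hs0)
    rwa [hs, smul_smul, inv_mul_cancel₀ hs0, one_smul] at this
  refine ⟨g, g1, fun z hz => hj.limit (hΦ z hz).continuousAt (g1 z hz).continuousAt (hX z hz)
    (g2 ⟨z, hz⟩) ?_⟩
  rw [← closure_ball _ one_ne_zero] at hz
  exact (mem_closure_iff_frequently.1 hz).mono fun w hw =>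
    ⟨hX w (ball_subset_closedBall hw), hb w hw⟩

theorem IsMorphism.lift_line {n a : ℕ} {X : Set (PP n)} {j : PP n → PP a} (hj : IsMorphism X j)
    (v₀ v₁ : VV n) (h : ∀ w : ℂ, v₀ + w • v₁ ≠ 0 ∧ toP (v₀ + w • v₁) ∈ X)
    (h1 : v₁ ≠ 0 ∧ toP v₁ ∈ X) :
    ∃ (P : Fin (a + 1) → ℂ[X]) (d : ℕ), (∀ i, (P i).natDegree ≤ d) ∧
      (∀ w, Rep (pev P w) (j (toP (v₀ + w • v₁)))) ∧ Rep (ptop P d) (j (toP v₁)) := by
  classical
  have hΦ : ∀ w : ℂ, AnalyticAt ℂ (fun w : ℂ => v₀ + w • v₁) w := fun w => by fun_prop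
  obtain ⟨p, hp⟩ := hj.local (h 0).2 (rep_toP (h 0).1)
  have hp' : ∀ᶠ w in 𝓝 (0 : ℂ), Rep (mev p (v₀ + w • v₁)) (j (toP (v₀ + w • v₁))) := by
    filter_upwards [(hΦ 0).continuousAt.eventually hp] with w e1
    exact e1 _ (h w).2 (rep_toP (h w).1)
  obtain ⟨Q, hQ⟩ : ∃ Q : Fin (a + 1) → ℂ[X], ∀ w, pev Q w = mev p (v₀ + w • v₁) := by
    refine ⟨fun i => MvPolynomial.aeval (fun k => C (v₀ k) + C (v₁ k) * Polynomial.X) (p i),
      fun w => funext fun i => ?_⟩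
    simp only [pev, mev]
    rw [← coe_aeval_eq_eval, ← AlgHom.comp_apply, MvPolynomial.comp_aeval,
      MvPolynomial.aeval_eq_eval]
    have : (fun k => aeval w (C (v₀ k) + C (v₁ k) * Polynomial.X)) = v₀ + w • v₁ := by
      ext k
      rw [coe_aeval_eq_eval, eval_add, eval_mul, eval_C, eval_C, eval_X, mul_comm]
      rfl
    rw [this]
  obtain ⟨P, hP, hg⟩ := Finset.extract_gcd (s := Finset.univ) Q Finset.univ_nonempty
  have hP0 : ∀ w, pev P w ≠ 0 := by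
    intro w c
    have : Polynomial.X - C w ∣ Finset.univ.gcd P :=
      Finset.dvd_gcd fun i _ => dvd_iff_isRoot.2 (congrFun c i)
    rw [hg] at this
    exact not_isUnit_X_sub_C w (isUnit_of_dvd_one this)
  have hPa : ∀ (P : Fin (a + 1) → ℂ[X]) (w : ℂ), AnalyticAt ℂ (pev P) w := fun P w =>
    AnalyticAt.pi fun i => AnalyticOnNhd.eval_polynomial (P i) w (Set.mem_univ _)
  have hR : ∀ w, Rep (pev P w) (j (toP (v₀ + w • v₁))) := by
    refine fun w => hj.ident isOpen_univ isPreconnected_univ (fun w _ => hΦ w)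
      (fun w _ => hPa P w) (fun w _ => h w) (fun w _ => hP0 w) (Set.mem_univ 0)
      (Eventually.frequently ?_) w (Set.mem_univ _)
    filter_upwards [hp'.filter_mono nhdsWithin_le_nhds] with z e2
    have hs : mev p (v₀ + z • v₁) = (Finset.univ.gcd Q).eval z • pev P z := by
      rw [← hQ]
      ext i
      simp only [pev, Pi.smul_apply, smul_eq_mul]
      conv_lhs => rw [hP i (Finset.mem_univ _), eval_mul]
    have hs0 : (Finset.univ.gcd Q).eval z ≠ 0 := fun c => e2.ne (by rw [hs, c, zero_smul])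
    have := e2.smul (inv_ne_zero hs0)
    rwa [hs, smul_smul, inv_mul_cancel₀ hs0, one_smul] at this
  obtain ⟨i₀, hi⟩ := Finite.exists_max fun i => (P i).degree
  have hd : ∀ i, (P i).natDegree ≤ (P i₀).natDegree := fun i => natDegree_le_natDegree (hi i)
  have hi0 : P i₀ ≠ 0 := by
    intro c
    refine hP0 0 (funext fun i => ?_)
    have := hi i
    rw [c, degree_zero, le_bot_iff, degree_eq_bot] at this
    simp [pev, this]
  set d := (P i₀).natDegree with hdd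
  have ht : ptop P d ≠ 0 := fun c => leadingCoeff_ne_zero.2 hi0 (congrFun c i₀)
  refine ⟨P, d, hd, hR, ?_⟩
  have e0 : pev (fun i => reflect d (P i)) 0 = ptop P d := by
    ext i
    simp [pev, ptop, ← coeff_zero_eq_eval_zero]
  have := hj.limit (Φ := fun u : ℂ => u • v₀ + v₁) (h := pev fun i => reflect d (P i)) (z₁ := 0)
    (by fun_prop) (hPa _ 0).continuousAt (by simpa using h1) (by rwa [e0]) ?_
  · simpa [e0] using this
  refine Frequently.filter_mono (Eventually.frequently ?_) (nhdsWithin_le_nhds (s := {0}ᶜ))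
  filter_upwards [self_mem_nhdsWithin] with u hu
  have hu0 : u ≠ 0 := hu
  have e1 : u • v₀ + v₁ = u • (v₀ + u⁻¹ • v₁) := by
    rw [smul_add, smul_smul, mul_inv_cancel₀ hu0, one_smul]
  have r1 := (rep_toP (h u⁻¹).1).smul hu0
  have e2 : pev (fun i => reflect d (P i)) u = u ^ d • pev P u⁻¹ := by
    ext i
    let _ : Invertible u⁻¹ := invertibleOfNonzero (inv_ne_zero hu0)
    have := eval₂_reflect_mul_pow (RingHom.id ℂ) u⁻¹ d (P i) (hd i)
    simp only [invOf_eq_inv, inv_inv, eval₂_id] at this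
    simp only [pev, Pi.smul_apply, smul_eq_mul, ← this]
    rw [mul_left_comm, ← mul_pow, mul_inv_cancel₀ hu0, one_pow, mul_one]
  rw [e1, r1.toP_eq, e2]
  exact ⟨⟨r1.ne, (h u⁻¹).2⟩, (hR u⁻¹).smul (pow_ne_zero _ hu0)⟩

end Pool.Agent.Lib.MP_879098_ag
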