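import Pool.Agent.Lib.MP_879098_ag.Tools
import Pool.Agent.Lib.MP_879098_ag.Morph

/-! A morphism from the surface that is constant on the two lines is constant. -/

namespace Pool.Agent.Lib.MP_879098_ag

open Filter Topology Metric

namespace Rigid

variable {n a m : ℕ}

theorem ratio {c u : VV a} {i₀ : Fin (a + 1)} (h0 : ‖c i₀‖ = ‖c‖) {δ : ℝ} (h : Near δ c u)
    (hδ : δ ≤ 1 / 2) : u i₀ ≠ 0 ∧ ∀ i, ‖u i / u i₀ - c i / c i₀‖ ≤ 4 * δ := by
  have hc : 0 < ‖c‖ := norm_pos_iff.2 h.ne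
  have hδ0 := h.pos
  obtain ⟨κ, hκ, h⟩ := h
  have hκ' : 0 < ‖κ‖ := norm_pos_iff.2 hκ
  rw [norm_smul] at h
  have he : ∀ i, ‖u i - κ * c i‖ ≤ δ * (‖κ‖ * ‖c‖) := fun i =>
    (norm_le_pi_norm (u - κ • c) i).trans h.le
  have h1 : ‖κ‖ * ‖c‖ / 2 ≤ ‖u i₀‖ := by
    have := norm_sub_norm_le (κ * c i₀) (u i₀)
    rw [norm_mul, h0, norm_sub_rev] at this
    nlinarith [he i₀, mul_pos hκ' hc]
  have h2 : 0 < ‖u i₀‖ := lt_of_lt_of_le (by positivity) h1
  have h3 : c i₀ ≠ 0 := norm_pos_iff.1 (h0 ▸ hc)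
  refine ⟨norm_pos_iff.1 h2, fun i => ?_⟩
  have e : u i / u i₀ - c i / c i₀ =
      ((u i - κ * c i) * c i₀ - c i * (u i₀ - κ * c i₀)) / (u i₀ * c i₀) := by
    field_simp [norm_pos_iff.1 h2]; ring
  rw [e, norm_div, norm_mul, h0, div_le_iff₀ (mul_pos h2 hc)]
  have h4 := norm_sub_le ((u i - κ * c i) * c i₀) (c i * (u i₀ - κ * c i₀))
  rw [norm_mul, norm_mul, h0] at h4
  have h5 := mul_le_mul_of_nonneg_right (he i) hc.le
  have h6 := mul_le_mul (norm_le_pi_norm c i) (he i₀) (norm_nonneg _) hc.le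
  nlinarith [mul_le_mul_of_nonneg_left h1 (mul_pos hδ0 hc).le]

theorem eq_of_ratio {c x : PP a} {i₀ : Fin (a + 1)} (h0 : c.rep i₀ ≠ 0) (h1 : x.rep i₀ ≠ 0)
    (h : ∀ i, x.rep i / x.rep i₀ - c.rep i / c.rep i₀ = 0) : x = c := by
  refine (rep_rep x).eq ?_
  convert (rep_rep c).smul (div_ne_zero h1 h0) using 1
  ext i
  have := sub_eq_zero.1 (h i)
  rw [Pi.smul_apply, smul_eq_mul]
  field_simp at this ⊢
  exact this

/-- An affine coordinate of the image of a point. -/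
noncomputable def co (j : PP n → PP a) (i i₀ : Fin (a + 1)) (v : VV n) : ℂ :=
  (j (toP v)).rep i / (j (toP v)).rep i₀

theorem co_local {X : Set (PP n)} {j : PP n → PP a} (hj : IsMorphism X j) (i i₀ : Fin (a + 1))
    {v₀ : VV n} (h0 : v₀ ≠ 0) (hx : toP v₀ ∈ X) (h1 : (j (toP v₀)).rep i₀ ≠ 0) :
    ∃ g : VV n → ℂ, DifferentiableAt ℂ g v₀ ∧ ∀ᶠ v in 𝓝 v₀, toP v ∈ X → co j i i₀ v = g v := by
  obtain ⟨p, hp⟩ := hj.local hx (rep_toP h0)
  have hd : ∀ k, DifferentiableAt ℂ (fun v : VV n => MvPolynomial.eval v (p k)) v₀ := fun k =>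
    (AnalyticOnNhd.eval_mvPolynomial (p k) v₀ trivial).differentiableAt
  refine ⟨fun v => MvPolynomial.eval v (p i) * (MvPolynomial.eval v (p i₀))⁻¹,
    (hd i).mul ((hd i₀).inv ?_), ?_⟩
  · obtain ⟨s, -, e⟩ := (hp.self_of_nhds _ hx (rep_toP h0)).exists_smul (rep_rep _)
    intro h
    exact h1 (by rw [e, Pi.smul_apply, h, smul_zero])
  · filter_upwards [hp, isOpen_ne.mem_nhds h0] with v h2 h3 h4
    obtain ⟨s, hs, e⟩ := (h2 _ h4 (rep_toP h3)).exists_smul (rep_rep _)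
    rw [co, e, Pi.smul_apply, Pi.smul_apply, smul_eq_mul, smul_eq_mul, mul_div_mul_left _ _ hs,
      div_eq_mul_inv]

theorem diff_aff {E : Type} [NormedAddCommGroup E] [NormedSpace ℂ E] {S T Y : E → ℂ} {z : E}
    (hS : DifferentiableAt ℂ S z) (hT : DifferentiableAt ℂ T z) (hY : DifferentiableAt ℂ Y z) :
    DifferentiableAt ℂ (fun w => aff (S w) (T w) (Y w)) z := by
  refine differentiableAt_pi.2 fun i => ?_
  fin_cases i
  exacts [differentiableAt_const (1 : ℂ), hT, hS, hS.mul hT, hY]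

theorem diff_ff : Differentiable ℂ (ff m) := by
  unfold ff; fun_prop

theorem strip_convex : Convex ℝ {w : ℂ | |w.im| < 2} := by
  simp only [abs_lt]
  exact (convex_halfSpace_im_gt _).inter (convex_halfSpace_im_lt _)

theorem strip_open : IsOpen {w : ℂ | |w.im| < 2} :=
  isOpen_lt (by fun_prop) continuous_const

/-- A branch of the root along a strip. -/
theorem exists_branch (hm : 0 < m) {A t y : ℂ} (hy : y ≠ 0) (h : y ^ (m + 2) = A * ff m t) :
    ∃ (e : ℂ) (Y : ℂ → ℂ), e ≠ 0 ∧ DifferentiableOn ℂ Y {w : ℂ | |w.im| < 2} ∧ Y 0 = y ∧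
      ∀ w : ℂ, |w.im| < 2 → ff m (t + e * w) ≠ 0 ∧ Y w ^ (m + 2) = A * ff m (t + e * w) := by
  have h0 := mul_ne_zero_iff.1 (h ▸ pow_ne_zero _ hy)
  obtain ⟨e, he, h1⟩ := exists_strip _ (finite_ff m hm) t h0.2
  obtain ⟨Y, h2, h3, h4⟩ := exists_root strip_open strip_convex (f := fun w => A * ff m (t + e * w))
    (((diff_ff.comp (by fun_prop)).const_mul A).differentiableOn)
    (fun w hw => mul_ne_zero h0.1 (h1 w (le_of_lt hw))) (m + 2) (by omega) (z₀ := 0) (y₀ := y)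
    (by simp) (by simpa using h)
  exact ⟨e, Y, he, h2, h3, fun w hw => ⟨h1 w hw.le, h4 w hw⟩⟩

theorem exists_far (t : ℂ) {e : ℂ} (he : e ≠ 0) (R : ℝ) : ∃ r : ℝ, R < ‖t + e * r‖ := by
  refine ⟨(|R| + ‖t‖ + 1) / ‖e‖, ?_⟩
  have h1 := norm_pos_iff.2 he
  have h2 := norm_sub_norm_le (e * ((|R| + ‖t‖ + 1) / ‖e‖ : ℝ)) (-t)
  rw [norm_mul, Complex.norm_real, Real.norm_of_nonneg (by positivity), mul_div_cancel₀ _ h1.ne',
    norm_neg, sub_neg_eq_add, add_comm _ t] at h2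
  linarith [le_abs_self R]

/-- A local parameter at a branch point. -/
theorem exists_unif (hm : 0 < m) {A t : ℂ} (hA : A ≠ 0) (ht : ff m t = 0) :
    ∃ (r : ℝ) (Y : ℂ → ℂ), 0 < r ∧ DifferentiableOn ℂ Y (ball 0 r) ∧ Y 0 = 0 ∧
      ∀ w ∈ ball (0 : ℂ) r, Y w ^ (m + 2) = A * ff m (t + w ^ (m + 2)) ∧ (w ≠ 0 → Y w ≠ 0) := by
  have hk : Differentiable ℂ (dslope (ff m) t) := differentiableOn_univ.1
    ((Complex.differentiableOn_dslope univ_mem).2 diff_ff.differentiableOn)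
  have h0 : dslope (ff m) t t ≠ 0 := by
    have : HasDerivAt (ff m) (1 * (t ^ m - 1) + t * (m * t ^ (m - 1))) t :=
      (hasDerivAt_id t).mul ((hasDerivAt_pow m t).sub_const 1)
    rw [dslope_same, this.deriv]
    obtain ⟨k, rfl⟩ : ∃ k, m = k + 1 := ⟨m - 1, by omega⟩
    rcases mul_eq_zero.1 ht with rfl | h
    · simp
    · have e : t * (((k + 1 : ℕ) : ℂ) * t ^ (k + 1 - 1)) = ((k + 1 : ℕ) : ℂ) := by
        rw [Nat.add_sub_cancel, mul_left_comm, ← pow_succ', sub_eq_zero.1 h, mul_one]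
      rw [h, e, mul_zero, zero_add]
      exact Nat.cast_ne_zero.2 (by omega)
  have hf : Differentiable ℂ fun w : ℂ => A * dslope (ff m) t (t + w ^ (m + 2)) :=
    (hk.comp (by fun_prop)).const_mul A
  obtain ⟨r, hr, h1⟩ := Metric.eventually_nhds_iff_ball.1 (hf.continuous.continuousAt.eventually_ne
    (x := 0) (y := 0) (by
      rw [zero_pow (by omega), add_zero]; exact mul_ne_zero hA h0))
  obtain ⟨y, hy⟩ := IsAlgClosed.exists_pow_nat_eq (A * dslope (ff m) t (t + 0 ^ (m + 2)))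
    (n := m + 2) (by omega)
  obtain ⟨Z, h2, -, h3⟩ := exists_root isOpen_ball (convex_ball 0 r) hf.differentiableOn h1 (m + 2)
    (by omega) (mem_ball_self hr) hy
  refine ⟨r, fun w => w * Z w, hr, differentiableOn_id.mul h2, zero_mul _, fun w hw =>
    ⟨?_, fun h => mul_ne_zero h fun h' => h1 w hw ?_⟩⟩
  · have := sub_smul_dslope (ff m) t (t + w ^ (m + 2))
    rw [ht, sub_zero, add_sub_cancel_left, smul_eq_mul] at this
    rw [mul_pow, h3 w hw, ← this]; ring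
  · rw [← h3 w hw, h', zero_pow (by omega)]

/-- The maximum principle on a cyclic cover of the line. -/
theorem max_principle (hm : 0 < m) {A : ℂ} (hA : A ≠ 0) {h : ℂ × ℂ → ℂ}
    (hl : ∀ z : ℂ × ℂ, z.2 ^ (m + 2) = A * ff m z.1 → ∃ g : ℂ × ℂ → ℂ, DifferentiableAt ℂ g z ∧
      ∀ᶠ w in 𝓝 z, w.2 ^ (m + 2) = A * ff m w.1 → h w = g w)
    (hi : ∀ ε > 0, ∃ R, ∀ z : ℂ × ℂ, z.2 ^ (m + 2) = A * ff m z.1 → R ≤ ‖z.1‖ → ‖h z‖ < ε)
    (z : ℂ × ℂ) (hz : z.2 ^ (m + 2) = A * ff m z.1) : h z = 0 := by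
  by_contra hne
  obtain ⟨R, hR⟩ := hi _ (norm_pos_iff.2 hne)
  let F := {z : ℂ × ℂ | z.2 ^ (m + 2) = A * ff m z.1}
  have hF : IsClosed F := isClosed_eq (by fun_prop) ((diff_ff.continuous.comp continuous_fst).const_mul A)
  have hc : ContinuousOn h F := fun w hw => by
    obtain ⟨g, g1, g2⟩ := hl w hw
    exact g1.continuousAt.continuousWithinAt.congr_of_eventuallyEq
      (eventually_nhdsWithin_iff.2 g2) (g2.self_of_nhds hw)
  obtain ⟨B, hB⟩ := (isCompact_closedBall (0 : ℂ) (max R ‖z.1‖)).exists_bound_of_continuousOn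
    (f := fun t => A * ff m t) (diff_ff.continuous.const_mul A).continuousOn
  have hK : IsCompact (F ∩ closedBall 0 (max R ‖z.1‖) ×ˢ Set.univ) := by
    refine ((isCompact_closedBall (0 : ℂ) (max R ‖z.1‖)).prod
      (isCompact_closedBall (0 : ℂ) (max B 1))).of_isClosed_subset
      (hF.inter (isClosed_closedBall.prod isClosed_univ)) fun w hw => ⟨hw.2.1, ?_⟩
    rw [mem_closedBall_zero_iff]
    by_contra hc
    obtain ⟨c1, c2⟩ := max_lt_iff.1 (not_le.1 hc)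
    have := hB _ hw.2.1
    rw [← show w.2 ^ (m + 2) = _ from hw.1, norm_pow] at this
    exact absurd ((le_self_pow₀ c2.le (by omega)).trans this) c1.not_ge
  obtain ⟨z₀, ⟨h0, -⟩, hmax⟩ := hK.exists_isMaxOn ⟨z, hz, by simp, trivial⟩
    (hc.mono Set.inter_subset_left).norm
  have hz0 : ‖h z‖ ≤ ‖h z₀‖ := hmax ⟨hz, by simp, trivial⟩
  have hM : ∀ w ∈ F, ‖h w‖ ≤ ‖h z₀‖ := fun w hw => by
    rcases le_total R ‖w.1‖ with c | c
    · exact (hR w hw c).le.trans hz0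
    · exact hmax ⟨hw, by simp [c], trivial⟩
  have key : ∀ (D : Set ℂ) (T Y : ℂ → ℂ), IsOpen D → Convex ℝ D → 0 ∈ D → Differentiable ℂ T →
      DifferentiableOn ℂ Y D → (∀ w ∈ D, (T w, Y w) ∈ F) → ‖h (T 0, Y 0)‖ = ‖h z₀‖ →
      ∀ w ∈ D, ‖h (T w, Y w)‖ = ‖h z₀‖ := by
    intro D T Y d1 d2 d3 d4 d5 d6 d7 w hw
    rw [← d7]
    refine Complex.norm_eqOn_of_isPreconnected_of_isMaxOn (f := fun w => h (T w, Y w))
      d2.isPreconnected d1 (fun u hu => ?_) d3 (fun u hu => (hM _ (d6 u hu)).trans d7.ge) hw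
    obtain ⟨g, g1, g2⟩ := hl _ (d6 u hu)
    have d8 := (d4 u).prodMk (d5.differentiableAt (d1.mem_nhds hu))
    refine ((g1.comp u d8).congr_of_eventuallyEq ?_).differentiableWithinAt
    filter_upwards [d8.continuousAt.eventually g2, d1.mem_nhds hu] with v v1 v2
    exact v1 (d6 v v2)
  obtain ⟨t, y, y1, y2, y3⟩ : ∃ t y, y ≠ 0 ∧ (t, y) ∈ F ∧ ‖h (t, y)‖ = ‖h z₀‖ := by
    by_cases hy : z₀.2 = 0
    · have h1 : ff m z₀.1 = 0 := by
        have : z₀.2 ^ (m + 2) = _ := h0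
        rw [hy, zero_pow (by omega)] at this
        exact (mul_eq_zero.1 this.symm).resolve_left hA
      obtain ⟨r, Y, r1, r2, r3, r4⟩ := exists_unif hm hA h1
      have hw : ((r / 2 : ℝ) : ℂ) ∈ ball (0 : ℂ) r := by
        rw [mem_ball_zero_iff, Complex.norm_real, Real.norm_of_nonneg (by positivity)]; linarith
      refine ⟨_, _, (r4 _ hw).2 (Complex.ofReal_ne_zero.2 (by positivity)), (r4 _ hw).1,
        key _ (fun w => z₀.1 + w ^ (m + 2)) Y isOpen_ball (convex_ball 0 r) (mem_ball_self r1)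
          (by fun_prop) r2 (fun w hw => (r4 w hw).1) ?_ _ hw⟩
      simp only [r3, zero_pow (show m + 2 ≠ 0 by omega), add_zero]
      rw [← hy]
    · exact ⟨_, _, hy, h0, rfl⟩
  obtain ⟨e, Y, e1, e2, e3, e4⟩ := exists_branch hm y1 y2
  obtain ⟨r, hr⟩ := exists_far t e1 R
  have hw : |(r : ℂ).im| < 2 := by simp
  have := key _ (fun w => t + e * w) Y strip_open strip_convex (by simp) (by fun_prop) e2
    (fun w hw => (e4 w hw).2) (by simpa [e3] using y3) r hw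
  exact absurd (hR _ (e4 r hw).2 hr.le) (not_lt.2 (hz0.trans this.ge))

theorem line1 (t : ℂ) : (![0, 0, 1, t, 0] : VV 4) ≠ 0 ∧ toP ![0, 0, 1, t, 0] ∈ surface m :=
  have h : (![0, 0, 1, t, 0] : VV 4) ≠ 0 := fun h => by simpa using congrFun h 2
  ⟨h, (mem_surface (rep_toP h)).2 (by simp)⟩

theorem line2 (s : ℂ) : (![0, 1, 0, s, 0] : VV 4) ≠ 0 ∧ toP ![0, 1, 0, s, 0] ∈ surface m :=
  have h : (![0, 1, 0, s, 0] : VV 4) ≠ 0 := fun h => by simpa using congrFun h 1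
  ⟨h, (mem_surface (rep_toP h)).2 (by simp)⟩

end Rigid

open Rigid in
theorem rigid (m : ℕ) (hm : 0 < m) {a : ℕ} {j : PP 4 → PP a} (hj : IsMorphism (surface m) j)
    (c : PP a) (h1 : ∀ t : ℂ, j (toP ![0, 0, 1, t, 0]) = c)
    (h2 : ∀ s : ℂ, j (toP ![0, 1, 0, s, 0]) = c) : ∀ x ∈ surface m, j x = c := by
  obtain ⟨i₀, h0⟩ : ∃ i₀, ‖c.rep i₀‖ = ‖c.rep‖ := by
    obtain ⟨i, -, hi⟩ := Finset.exists_max_image Finset.univ (fun i => ‖c.rep i‖) Finset.univ_nonempty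
    exact ⟨i, le_antisymm (norm_le_pi_norm _ _)
      ((pi_norm_le_iff_of_nonneg (norm_nonneg _)).2 fun k => hi k (Finset.mem_univ _))⟩
  have hc : c.rep i₀ ≠ 0 := norm_pos_iff.1 (h0 ▸ norm_pos_iff.2 c.rep_nonzero)
  have far : ∀ δ > 0, ∃ R : ℝ, ∀ s t y : ℂ, y ^ (m + 2) = ff m s * ff m t →
      R ≤ ‖s‖ ∨ R ≤ ‖t‖ → Near δ c.rep (j (toP (aff s t y))).rep := by
    intro δ hδ
    obtain ⟨η, η1, η2⟩ := hj.unif (isZClosed_surface m) δ hδ
    obtain ⟨R, hR⟩ := near_line m η η1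
    refine ⟨R, fun s t y h H => H.elim (fun H => ?_) fun H => ?_⟩
    · exact η2 _ (line1 t).2 _ (aff_mem.2 h) _ _ _ _ (rep_toP (line1 (m := m) t).1)
        (rep_toP (aff_ne _ _ _)) ((hR s t y h).1 H) (h1 t ▸ rep_rep _) (rep_rep _)
    · exact η2 _ (line2 s).2 _ (aff_mem.2 h) _ _ _ _ (rep_toP (line2 (m := m) s).1)
        (rep_toP (aff_ne _ _ _)) ((hR s t y h).2 H) (h2 s ▸ rep_rep _) (rep_rep _)
  obtain ⟨R, hR⟩ := far (1 / 2) (by norm_num)
  have fib : ∀ s t y : ℂ, R ≤ ‖s‖ → ff m s ≠ 0 → y ^ (m + 2) = ff m s * ff m t →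
      j (toP (aff s t y)) = c := by
    intro s t y hs hs' h
    refine eq_of_ratio hc (ratio h0 (hR s t y h (.inl hs)) le_rfl).1 fun i => ?_
    refine max_principle hm hs' (h := fun z => co j i i₀ (aff s z.1 z.2) - c.rep i / c.rep i₀)
      (fun z hz => ?_) (fun ε hε => ?_) (t, y) h
    · obtain ⟨g, g1, g2⟩ := co_local hj i i₀ (aff_ne s z.1 z.2) (aff_mem.2 hz)
        (ratio h0 (hR s _ _ hz (.inl hs)) le_rfl).1
      have d := diff_aff (S := fun _ : ℂ × ℂ => s) (differentiableAt_const s)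
        (differentiableAt_fst (p := z)) differentiableAt_snd
      refine ⟨fun z => g (aff s z.1 z.2) - c.rep i / c.rep i₀, (g1.comp z d).sub_const _, ?_⟩
      filter_upwards [d.continuousAt.eventually g2] with w w1 w2
      rw [w1 (aff_mem.2 w2)]
    · obtain ⟨R', hR'⟩ := far (min (ε / 8) (1 / 2)) (by positivity)
      refine ⟨R', fun z hz h => ((ratio h0 (hR' s _ _ hz (.inr h)) (min_le_right _ _)).2 i).trans_lt ?_⟩
      linarith [min_le_left (ε / 8) (1 / 2)]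
  have gen : ∀ s t y : ℂ, y ≠ 0 → y ^ (m + 2) = ff m s * ff m t →
      Rep c.rep (j (toP (aff s t y))) := by
    intro s t y hy h
    obtain ⟨e, Y, e1, e2, e3, e4⟩ := exists_branch hm hy (h.trans (mul_comm _ _))
    obtain ⟨r, hr⟩ := exists_far s e1 R
    have hw : |(r : ℂ).im| < 2 := by simp
    have := hj.ident strip_open strip_convex.isPreconnected (Φ := fun w => aff (s + e * w) t (Y w))
      (h := fun _ => c.rep) (DifferentiableOn.analyticOnNhd (fun w hw => (diff_aff (by fun_prop)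
        (differentiableAt_const t) (e2.differentiableAt (strip_open.mem_nhds hw))).differentiableWithinAt)
        strip_open) analyticOnNhd_const
      (fun w hw => ⟨aff_ne _ _ _, aff_mem.2 ((e4 w hw).2.trans (mul_comm _ _))⟩)
      (fun _ _ => c.rep_nonzero) (z₀ := r) hw (Eventually.frequently (eventually_nhdsWithin_of_eventually_nhds (by
        filter_upwards [strip_open.mem_nhds hw, (isOpen_lt continuous_const
          (f := fun _ => R) (g := fun w : ℂ => ‖s + e * w‖) (by fun_prop)).mem_nhds hr] with w w1 w2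
        rw [fib _ _ _ (le_of_lt w2) (e4 w w1).1 ((e4 w w1).2.trans (mul_comm _ _))]
        exact rep_rep c))) 0 (by simp)
    simpa [e3] using this
  intro x hx
  have fin : ∀ δ > 0, Near δ c.rep (j x).rep := by
    intro δ hδ
    obtain ⟨η, η1, η2⟩ := hj.unif (isZClosed_surface m) δ hδ
    obtain ⟨s, t, y, y1, y2, y3⟩ := aff_dense m hm x hx (min (η / 2) (1 / 2)) (by positivity)
    exact η2 _ (aff_mem.2 y2) _ hx _ _ _ _ (rep_toP (aff_ne _ _ _)) (rep_rep x)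
      ((y3.symm (min_le_right _ _)).mono (by linarith [min_le_left (η / 2) (1 / 2)]))
      (gen s t y y1 y2) (rep_rep _)
  refine eq_of_ratio hc (ratio h0 (fin (1 / 2) (by norm_num)) le_rfl).1 fun i => ?_
  refine norm_le_zero_iff.1 (le_of_forall_pos_le_add fun ε hε => ?_)
  have := (ratio h0 (fin (min (ε / 4) (1 / 2)) (by positivity)) (min_le_right _ _)).2 i
  linarith [min_le_left (ε / 4) (1 / 2)]

end Pool.Agent.Lib.MP_879098_ag
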