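import Pool.Agent.Lib.MP_879098_ag.Disc
import Pool.Agent.Lib.MP_879098_ag.Morph
import Pool.Agent.Lib.MP_879098_ag.Rigid
import Pool.Agent.Lib.MP_879098_ag.Close
import Pool.Agent.Lib.MP_879098_ag.Ell
import Pool.Agent.Lib.MP_879098_ag.Ahlfors
import Pool.Agent.Lib.MP_879098_ag.Kob
import Pool.Agent.Lib.MP_879098_ag.Irred

/-! The surface is strongly approximately elliptically connected. -/

namespace Pool.Agent.Lib.MP_879098_ag

open Filter Topology Polynomial Metric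

theorem line_one (w : ℂ) : (![0, 0, 0, 1, 0] : VV 4) + w • ![0, 0, 1, 0, 0] = ![0, 0, w, 1, 0] := by
  ext k; fin_cases k <;> simp

theorem line_two (w : ℂ) : (![0, 0, 0, 1, 0] : VV 4) + w • ![0, 1, 0, 0, 0] = ![0, w, 0, 1, 0] := by
  ext k; fin_cases k <;> simp

theorem mem_one (m : ℕ) {s t : ℂ} (h : s ≠ 0 ∨ t ≠ 0) :
    (![0, 0, s, t, 0] : VV 4) ≠ 0 ∧ toP (![0, 0, s, t, 0] : VV 4) ∈ surface m := by
  have : (![0, 0, s, t, 0] : VV 4) ≠ 0 := fun e =>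
    h.elim (fun g => g (by simpa using congrFun e 2)) fun g => g (by simpa using congrFun e 3)
  exact ⟨this, (mem_surface (rep_toP this)).2 (by simp)⟩

theorem mem_two (m : ℕ) {s t : ℂ} (h : s ≠ 0 ∨ t ≠ 0) :
    (![0, s, 0, t, 0] : VV 4) ≠ 0 ∧ toP (![0, s, 0, t, 0] : VV 4) ∈ surface m := by
  have : (![0, s, 0, t, 0] : VV 4) ≠ 0 := fun e =>
    h.elim (fun g => g (by simpa using congrFun e 1)) fun g => g (by simpa using congrFun e 3)
  exact ⟨this, (mem_surface (rep_toP this)).2 (by simp)⟩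

theorem rep_one {t : ℂ} (ht : t ≠ 0) :
    Rep (![0, 0, 1, t, 0] : VV 4) (toP ![0, 0, t⁻¹, 1, 0]) := by
  convert (rep_toP (mem_one 0 (s := t⁻¹) (Or.inr one_ne_zero)).1).smul ht using 1
  ext k; fin_cases k <;> simp [ht]

theorem rep_two {t : ℂ} (ht : t ≠ 0) :
    Rep (![0, 1, 0, t, 0] : VV 4) (toP ![0, t⁻¹, 0, 1, 0]) := by
  convert (rep_toP (mem_two 0 (s := t⁻¹) (Or.inr one_ne_zero)).1).smul ht using 1
  ext k; fin_cases k <;> simp [ht]

theorem pev_of_zero {n : ℕ} {P : Fin (n + 1) → ℂ[X]} (h : ∀ i, (P i).natDegree ≤ 0) (w : ℂ) :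
    pev P w = ptop P 0 := by
  ext i
  show (P i).eval w = _
  rw [eq_C_of_natDegree_le_zero (h i), eval_C]
  rfl

/-- polynomial parametrisations of the images of the two lines -/
structure Lines {a : ℕ} (j : PP 4 → PP a) (P P' : Fin (a + 1) → ℂ[X]) (d d' : ℕ) : Prop where
  deg : ∀ i, (P i).natDegree ≤ d
  deg' : ∀ i, (P' i).natDegree ≤ d'
  rep : ∀ w, Rep (pev P w) (j (toP ![0, 0, w, 1, 0]))
  rep' : ∀ w, Rep (pev P' w) (j (toP ![0, w, 0, 1, 0]))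
  top : Rep (ptop P d) (j (toP ![0, 0, 1, 0, 0]))
  top' : Rep (ptop P' d') (j (toP ![0, 1, 0, 0, 0]))
  zero : pev P 0 = pev P' 0

theorem exists_lines {m a : ℕ} {j : PP 4 → PP a} (hj : IsMorphism (surface m) j) :
    ∃ P P' d d', Lines j P P' d d' := by
  obtain ⟨P, d, h1, h2, h3⟩ := hj.lift_line ![0, 0, 0, 1, 0] ![0, 0, 1, 0, 0]
    (fun w => by rw [line_one]; exact mem_one m (Or.inr one_ne_zero))
    (mem_one m (Or.inl one_ne_zero))
  obtain ⟨P', d', g1, g2, g3⟩ := hj.lift_line ![0, 0, 0, 1, 0] ![0, 1, 0, 0, 0]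
    (fun w => by rw [line_two]; exact mem_two m (Or.inr one_ne_zero))
    (mem_two m (Or.inl one_ne_zero))
  replace h2 : ∀ w, Rep (pev P w) (j (toP ![0, 0, w, 1, 0])) := fun w => line_one w ▸ h2 w
  replace g2 : ∀ w, Rep (pev P' w) (j (toP ![0, w, 0, 1, 0])) := fun w => line_two w ▸ g2 w
  obtain ⟨s, s0, e⟩ := (g2 0).exists_smul (h2 0)
  have e1 : ∀ w, pev (fun i => C s * P' i) w = s • pev P' w := fun w => by ext i; simp [pev]
  have e2 : ptop (fun i => C s * P' i) d' = s • ptop P' d' := by ext i; simp [ptop]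
  exact ⟨P, fun i => C s * P' i, d, d', h1, fun i => (natDegree_C_mul_le _ _).trans (g1 i), h2,
    fun w => e1 w ▸ (g2 w).smul s0, h3, e2 ▸ g3.smul s0, by rw [e1, e]⟩

theorem Lines.pos {m a : ℕ} (hm : 0 < m) {j : PP 4 → PP a} (hj : IsMorphism (surface m) j)
    {P P' : Fin (a + 1) → ℂ[X]} {d d' : ℕ} (L : Lines j P P' d d')
    (h : ¬ ∃ c, ∀ x ∈ surface m, j x = c) : 1 ≤ d + d' := by
  by_contra c
  obtain rfl : d = 0 := by omega
  obtain rfl : d' = 0 := by omega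
  refine h ⟨toP (pev P 0), rigid m hm hj _ (fun t => ?_) fun t => ?_⟩
  · rw [pev_of_zero L.deg]
    by_cases g : t = 0
    · rw [g, L.top.toP_eq]
    · rw [(rep_one g).toP_eq, ← (L.rep _).toP_eq, pev_of_zero L.deg]
  · rw [L.zero, pev_of_zero L.deg']
    by_cases g : t = 0
    · rw [g, L.top'.toP_eq]
    · rw [(rep_two g).toP_eq, ← (L.rep' _).toP_eq, pev_of_zero L.deg']

theorem exists_shift {n : ℕ} {δ : ℝ} (hδ : δ ≤ 1 / 2) {u : VV n} {h : ℂ → VV n}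
    (hh : AnalyticOnNhd ℂ h (closedBall 0 1)) (h0 : ∀ z ∈ closedBall (0 : ℂ) 1, h z ≠ 0)
    (hu : Near δ u (h 0)) : ∃ f : ℂ → VV n, AnalyticOnNhd ℂ f (closedBall 0 1) ∧
      toP (f 0) = toP u ∧ ∀ z ∈ closedBall (0 : ℂ) 1, Near (2 * δ) (h z) (f z) := by
  have u0 := hu.ne
  have d0 := hu.pos
  obtain ⟨κ, k0, hk⟩ := hu
  obtain ⟨i, -, hi⟩ := Finset.exists_max_image Finset.univ (fun i => ‖h 0 i‖) Finset.univ_nonempty
  have a1 : ‖h 0‖ ≤ ‖h 0 i‖ :=
    (pi_norm_le_iff_of_nonneg (norm_nonneg _)).2 fun k => hi k (Finset.mem_univ k)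
  have a2 : 0 < ‖h 0 i‖ := (norm_pos_iff.2 (h0 0 (by simp))).trans_le a1
  have a3 : ‖κ • u‖ ≤ ‖h 0 - κ • u‖ + ‖h 0‖ := by
    rw [norm_sub_rev]; exact norm_le_norm_sub_add _ _
  have a4 : ‖h 0 - κ • u‖ < 2 * δ * ‖h 0 i‖ := by
    nlinarith [mul_le_mul_of_nonneg_left a3 d0.le, mul_le_mul_of_nonneg_left a1 d0.le,
      mul_nonneg (norm_nonneg (h 0 - κ • u)) (sub_nonneg.2 hδ)]
  refine ⟨fun z => h z - (h z i / h 0 i) • (h 0 - κ • u), fun z hz => (hh z hz).sub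
    (((analyticAt_pi_iff.1 (hh z hz) i).div_const).smul analyticAt_const), ?_,
    fun z hz => near_of_norm ?_⟩
  · simp only [div_self (norm_pos_iff.1 a2), one_smul, sub_sub_cancel]
    exact ((rep_toP u0).smul k0).toP_eq
  · rw [sub_sub_cancel_left, norm_neg, norm_smul, norm_div, div_mul_eq_mul_div, div_lt_iff₀ a2]
    have := norm_pos_iff.2 (h0 z hz)
    nlinarith [mul_le_mul_of_nonneg_right (norm_le_pi_norm (h z) i) (norm_nonneg (h 0 - κ • u))]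

theorem connect {m a b : ℕ} (hm : 0 < m) {j : PP 4 → PP a} {k : PP 4 → PP b}
    (hj : IsMorphism (surface m) j) (hk : IsMorphism (surface m) k) {Ω : Set (VV a × VV b)}
    (hΩ : IsCone Ω) (h : ∀ x ∈ surface m, ∀ u v, Rep u (j x) → Rep v (k x) → (u, v) ∈ Ω)
    (hj' : ¬ ∃ c, ∀ x ∈ surface m, j x = c) (hk' : ¬ ∃ c, ∀ x ∈ surface m, k x = c)
    {x : PP 4} (hx : x ∈ surface m) :
    ∃ (F : Fin (a + 1) → ℂ[X]) (D : ℕ) (G : Fin (b + 1) → ℂ[X]) (E : ℕ),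
      IsRat Ω F D G E ∧ 1 ≤ D ∧ 1 ≤ E ∧ toP (pev F 0) = j x ∧ toP (pev G 0) = k x ∧
      toP (ptop F D) = j (toP ![0, 1, 0, 0, 0]) ∧ toP (ptop G E) = k (toP ![0, 1, 0, 0, 0]) := by
  obtain ⟨P, P', d, d', L⟩ := exists_lines hj
  obtain ⟨Q, Q', e, e', M⟩ := exists_lines hk
  obtain ⟨δ, d0, R₀, hc⟩ := close hΩ
    ⟨L.deg, M.deg, fun w => h _ (mem_one m (Or.inr one_ne_zero)).2 _ _ (L.rep w) (M.rep w),
      h _ (mem_one m (Or.inl one_ne_zero)).2 _ _ L.top M.top⟩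
    ⟨L.deg', M.deg', fun w => h _ (mem_two m (Or.inr one_ne_zero)).2 _ _ (L.rep' w) (M.rep' w),
      h _ (mem_two m (Or.inl one_ne_zero)).2 _ _ L.top' M.top'⟩ L.zero M.zero
    (L.pos hm hj hj') (M.pos hm hk hk')
  obtain ⟨μ, m0, hμ⟩ := hj.margin (isZClosed_surface m) hk hΩ h
  obtain ⟨ε, e0, e1, e2, e3⟩ : ∃ ε : ℝ, 0 < ε ∧ ε ≤ 1 / 2 ∧ 2 * ε ≤ μ ∧
      ε + 2 * ε + ε * (2 * ε) ≤ δ := by
    refine ⟨min (1 / 2) (min (μ / 2) (δ / 4)), by positivity, min_le_left _ _, ?_, ?_⟩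
    · linarith [(min_le_right (1 / 2) _).trans (min_le_left (μ / 2) (δ / 4))]
    · nlinarith [(min_le_right (1 / 2) _).trans (min_le_right (μ / 2) (δ / 4)),
        min_le_left (1 / 2 : ℝ) (min (μ / 2) (δ / 4)),
        show 0 < min (1 / 2) (min (μ / 2) (δ / 4)) by positivity]
  obtain ⟨η₁, n1, u1⟩ := hj.unif (isZClosed_surface m) ε e0
  obtain ⟨η₂, n2, u2⟩ := hk.unif (isZClosed_surface m) ε e0
  obtain ⟨R₁, hR⟩ := near_line m (min η₁ η₂) (lt_min n1 n2)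
  obtain ⟨s, t, y, y0, hy, hn⟩ := aff_dense m hm x hx _ (lt_min n1 n2)
  obtain ⟨α, β, Y, b1, b2, b3, b4, b5, b6, b7, b8⟩ := exists_disc m hm s t y y0 hy
    (2 * max R₀ R₁)
  have hΦ : AnalyticOnNhd ℂ (fun z => aff (Complex.exp (α z)) (Complex.exp (β z)) (Y z))
      (closedBall 0 1) := fun z hz => analyticAt_pi_iff.2 fun i => by
    have c1 := (b1 z hz).cexp'
    have c2 := (b2 z hz).cexp'
    fin_cases i
    exacts [analyticAt_const, c2, c1, c1.mul c2, b3 z hz]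
  have hX : ∀ z ∈ closedBall (0 : ℂ) 1, toP (aff (Complex.exp (α z)) (Complex.exp (β z)) (Y z)) ∈
      surface m := fun z hz => aff_mem.2 (b7 z hz)
  have key : ∀ {a : ℕ} {j : PP 4 → PP a} {P P' : Fin (a + 1) → ℂ[X]} {d d' : ℕ} {η : ℝ},
      IsMorphism (surface m) j → Lines j P P' d d' → min η₁ η₂ ≤ η →
      (∀ x ∈ surface m, ∀ x' ∈ surface m, ∀ v v' u u', Rep v x → Rep v' x' → Near η v v' →
        Rep u (j x) → Rep u' (j x') → Near ε u u') →
      ∃ h f : ℂ → VV a, AnalyticOnNhd ℂ f (closedBall 0 1) ∧ toP (f 0) = j x ∧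
        (∀ z ∈ closedBall (0 : ℂ) 1, Near μ (h z) (f z) ∧
          Rep (h z) (j (toP (aff (Complex.exp (α z)) (Complex.exp (β z)) (Y z))))) ∧
        ∀ ζ ∈ sphere (0 : ℂ) 1,
          (max R₀ R₁ < ‖Complex.exp (α ζ)‖ → Near δ (pev P (Complex.exp (-β ζ))) (f ζ)) ∧
          (max R₀ R₁ < ‖Complex.exp (β ζ)‖ → Near δ (pev P' (Complex.exp (-α ζ))) (f ζ)) := by
    intro a j P P' d d' η hj L hη u
    obtain ⟨h, c1, c2⟩ := hj.lift_disc hΦ fun z hz => ⟨aff_ne _ _ _, hX z hz⟩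
    obtain ⟨f, c3, c4, c5⟩ := exists_shift e1 c1 (fun z hz => (c2 z hz).ne)
      (u x hx _ (hX 0 (by simp)) _ _ _ _ (rep_rep x) (rep_toP (aff_ne _ _ _))
        (by rw [b4, b5, b6]; exact hn.mono hη) (rep_rep _) (c2 0 (by simp)))
    refine ⟨h, f, c3, c4.trans (rep_rep _).toP_eq, fun z hz => ⟨(c5 z hz).mono e2, c2 z hz⟩,
      fun ζ hζ => ?_⟩
    have hz := sphere_subset_closedBall hζ
    refine ⟨fun g => ?_, fun g => ?_⟩ <;> rw [Complex.exp_neg]
    · exact ((u _ (mem_one m (Or.inr one_ne_zero)).2 _ (hX ζ hz) _ _ _ _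
        (rep_one (Complex.exp_ne_zero _)) (rep_toP (aff_ne _ _ _))
        (((hR _ _ _ (b7 ζ hz)).1 ((le_max_right _ _).trans g.le)).mono hη) (L.rep _)
        (c2 ζ hz)).trans (c5 ζ hz)).mono e3
    · exact ((u _ (mem_two m (Or.inr one_ne_zero)).2 _ (hX ζ hz) _ _ _ _
        (rep_two (Complex.exp_ne_zero _)) (rep_toP (aff_ne _ _ _))
        (((hR _ _ _ (b7 ζ hz)).2 ((le_max_right _ _).trans g.le)).mono hη) (L.rep' _)
        (c2 ζ hz)).trans (c5 ζ hz)).mono e3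
  obtain ⟨h₁, f, c1, c2, c3, c4⟩ := key hj L (min_le_left _ _) u1
  obtain ⟨h₂, g, g1, g2, g3, g4⟩ := key hk M (min_le_right _ _) u2
  obtain ⟨F, D, G, E, r1, r2, r3, r4, r5, r6, r7⟩ := hc _ (le_max_left R₀ R₁) f g α β c1 g1
    (b1.continuousOn.mono sphere_subset_closedBall) (b2.continuousOn.mono sphere_subset_closedBall)
    (fun z hz => hμ _ (hX z hz) _ _ _ _ (c3 z hz).2 (g3 z hz).2 (c3 z hz).1 (g3 z hz).1)
    fun ζ hζ => ⟨b8 ζ hζ, fun w => ⟨(c4 ζ hζ).1 w, (g4 ζ hζ).1 w⟩,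
      fun w => ⟨(c4 ζ hζ).2 w, (g4 ζ hζ).2 w⟩⟩
  exact ⟨F, D, G, E, r1, r2, r3, r4.trans c2, r5.trans g2, r6.trans L.top'.toP_eq,
    r7.trans M.top'.toP_eq⟩

theorem two_le_of_inj {m a : ℕ} {j : PP 4 → PP a} (hj : IsMorphism (surface m) j)
    (hi : Set.InjOn j (surface m)) : 2 ≤ a := by
  obtain ⟨P, P', d, d', L⟩ := exists_lines hj
  have ne : ∀ s t : ℂ, s ≠ 0 ∨ t ≠ 0 → j (toP ![0, 0, s, t, 0]) ≠ j (toP ![0, 1, 0, 0, 0]) := by
    intro s t h e
    have e' := hi (mem_one m h).2 (mem_two m (Or.inl one_ne_zero)).2 e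
    obtain ⟨c, -, g⟩ := (rep_toP (mem_one m h).1).exists_smul
      (e' ▸ rep_toP (mem_two m (s := 1) (t := 0) (Or.inl one_ne_zero)).1)
    simpa using congrFun g 1
  have par : ∀ {u v : VV a} {x y : PP a}, Rep u x → Rep v y → (∀ i k, u i * v k = u k * v i) →
      x = y := by
    intro u v x y hu hv h
    obtain ⟨i, hi⟩ := Function.ne_iff.1 hu.ne
    obtain ⟨k, hk⟩ := Function.ne_iff.1 hv.ne
    have vi : v i ≠ 0 := fun c => mul_ne_zero hi hk (by rw [h, c, mul_zero])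
    refine (hu.smul (div_ne_zero vi hi)).eq ?_
    convert hv using 1
    ext l
    have : u i ≠ 0 := hi
    simp only [Pi.smul_apply, smul_eq_mul]
    field_simp
    linear_combination h l i
  by_contra c
  obtain rfl | rfl : a = 0 ∨ a = 1 := by omega
  · exact ne 1 0 (by simp) (par L.top L.top' fun i k => by rw [Subsingleton.elim (α := Fin 1) i k])
  have d0 : d ≠ 0 := by
    rintro rfl
    have e := hi (mem_one m (Or.inr one_ne_zero)).2 (mem_one m (Or.inl one_ne_zero)).2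
      ((pev_of_zero L.deg 0 ▸ L.rep 0).eq L.top)
    obtain ⟨c, -, g⟩ := (rep_toP (mem_one m (s := 0) (Or.inr one_ne_zero)).1).exists_smul
      (e ▸ rep_toP (mem_one m (s := 1) (t := 0) (Or.inl one_ne_zero)).1)
    simpa using congrFun g 2
  have two : ∀ u v : VV 1, u 0 * v 1 = u 1 * v 0 → ∀ i k, u i * v k = u k * v i := by
    intro u v h i k
    fin_cases i <;> fin_cases k
    exacts [rfl, h, h.symm, rfl]
  by_cases g : (P 0 * C (ptop P' d' 1) - P 1 * C (ptop P' d' 0)).degree = 0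
  · refine ne 1 0 (by simp) (par L.top L.top' (two _ _ ?_))
    have := coeff_eq_zero_of_degree_lt (n := d) (g.trans_lt (by exact_mod_cast Nat.pos_of_ne_zero d0))
    simpa [ptop, sub_eq_zero] using this
  · obtain ⟨w, hw⟩ := IsAlgClosed.exists_root _ g
    refine ne w 1 (by simp) (par (L.rep w) L.top' (two _ _ ?_))
    simpa [pev, sub_eq_zero] using hw

theorem isOpen_hat_swap {a b : ℕ} {U : Set (PP a × PP b)} (h : IsOpen (hat U)) :
    IsOpen (hat (Prod.swap ⁻¹' U)) := by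
  convert h.preimage continuous_swap using 1
  ext v
  exact ⟨fun ⟨x, h1, h2, h3⟩ => ⟨x.swap, h1, h3, h2⟩, fun ⟨x, h1, h2, h3⟩ => ⟨x.swap, h1, h3, h2⟩⟩

theorem IsElliptic.swap {a b : ℕ} {C : Set (PP a × PP b)} (h : IsElliptic C) :
    IsElliptic (Prod.swap '' C) := by
  obtain ⟨A, B, μ, ν, h1, h2, h3, ⟨T, h4, h5⟩, rfl⟩ := h
  exact ⟨A, B, ν, μ, h1, h3, h2, ⟨T, h4, fun x hx y hy e => h5 hx hy (congrArg Prod.swap e)⟩,
    by rw [Set.image_image]; rfl⟩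

theorem through_of_not_const {m a b : ℕ} (hm : 0 < m) {j : PP 4 → PP a} {k : PP 4 → PP b}
    (hj : IsMorphism (surface m) j) (hk : IsMorphism (surface m) k)
    (hi : Set.InjOn (fun x => (j x, k x)) (surface m)) (hj' : ¬ ∃ c, ∀ x ∈ surface m, j x = c)
    {U : Set (PP a × PP b)} (hU : IsOpen (hat U)) (h : ∀ x ∈ surface m, (j x, k x) ∈ U)
    {x : PP 4} (hx : x ∈ surface m) : ∃ C, IsElliptic C ∧ C ⊆ U ∧ (j x, k x) ∈ C ∧
      (j (toP ![0, 1, 0, 0, 0]), k (toP ![0, 1, 0, 0, 0])) ∈ C := by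
  by_cases hk' : ∃ c, ∀ x ∈ surface m, k x = c
  · obtain ⟨c, hc⟩ := hk'
    have hΩ : IsCone {p : VV a × VV a | (p.1, c.rep) ∈ hat U ∧ p.2 ≠ 0} :=
      ⟨(hU.preimage (by fun_prop)).inter (isOpen_ne.preimage continuous_snd),
        fun u v g => ⟨((isCone_hat hU).ne _ _ g.1).1, g.2⟩, fun u v s t hs ht g =>
          ⟨by simpa using (isCone_hat hU).smul _ _ s 1 hs one_ne_zero g.1, smul_ne_zero ht g.2⟩⟩
    obtain ⟨F, D, G, E, r1, r2, -, r4, -, r6, -⟩ := connect hm hj hj hΩ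
      (fun x hx u v hu hv => ⟨⟨_, h x hx, hu, hc x hx ▸ rep_rep c⟩, hv.ne⟩) hj' hj' hx
    have e1 : ∀ w, pev (fun i => C (c.rep i)) w = c.rep := fun w => by ext i; simp [pev]
    have e2 : ptop (fun i => C (c.rep i)) 0 = c.rep := by ext i; simp [ptop]
    have := exists_elliptic hU (Q := fun i => C (c.rep i)) (e := 0)
      ⟨r1.degP, fun i => by simp, fun w => by rw [e1]; exact (r1.mem w).1,
        by rw [e2]; exact r1.top.1⟩ r2 (Or.inr (two_le_of_inj hj fun x hx y hy e =>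
          hi hx hy (Prod.ext e ((hc x hx).trans (hc y hy).symm))))
    rwa [e1, e2, r4, r6, (rep_rep c).toP_eq, ← show k x = c from hc x hx,
      ← show k (toP ![0, 1, 0, 0, 0]) = k x from
        (hc _ (mem_two m (Or.inl one_ne_zero)).2).trans (hc x hx).symm,
      show (j x, k (toP ![0, 1, 0, 0, 0])) = (j x, k x) from Prod.ext rfl
        ((hc _ (mem_two m (Or.inl one_ne_zero)).2).trans (hc x hx).symm)] at this
  · obtain ⟨F, D, G, E, r1, r2, r3, r4, r5, r6, r7⟩ := connect hm hj hk (isCone_hat hU)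
      (fun x hx u v hu hv => ⟨_, h x hx, hu, hv⟩) hj' hk' hx
    have := exists_elliptic hU r1 r2 (Or.inl r3)
    rwa [r4, r5, r6, r7] at this

theorem stronglyConnected_surface (m : ℕ) (hm : 0 < m) : StronglyConnected (surface m) := by
  intro a b j k hj hk hi U hU hY
  have h : ∀ x ∈ surface m, (j x, k x) ∈ U := fun x hx => hY ⟨x, hx, rfl⟩
  have key : ∀ x ∈ surface m, ∃ C, IsElliptic C ∧ C ⊆ U ∧ (j x, k x) ∈ C ∧
      (j (toP ![0, 1, 0, 0, 0]), k (toP ![0, 1, 0, 0, 0])) ∈ C := by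
    intro x hx
    by_cases hj' : ∃ c, ∀ x ∈ surface m, j x = c
    swap
    · exact through_of_not_const hm hj hk hi hj' hU h hx
    obtain ⟨c, hc⟩ := hj'
    obtain ⟨C, h1, h2, h3, h4⟩ := through_of_not_const hm hk hj
      (fun x hx y hy e => hi hx hy (congrArg Prod.swap e)) (by
        rintro ⟨c', hc'⟩
        have e := hi (mem_one m (s := 1) (t := 0) (Or.inl one_ne_zero)).2
          (mem_two m (s := 1) (t := 0) (Or.inl one_ne_zero)).2 (Prod.ext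
            ((hc _ (mem_one m (Or.inl one_ne_zero)).2).trans
              (hc _ (mem_two m (Or.inl one_ne_zero)).2).symm)
            ((hc' _ (mem_one m (Or.inl one_ne_zero)).2).trans
              (hc' _ (mem_two m (Or.inl one_ne_zero)).2).symm))
        obtain ⟨c, -, g⟩ := (rep_toP (mem_one m (s := 1) (t := 0) (Or.inl one_ne_zero)).1).exists_smul
          (e ▸ rep_toP (mem_two m (s := 1) (t := 0) (Or.inl one_ne_zero)).1)
        simpa using congrFun g 1) (isOpen_hat_swap hU) h hx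
    exact ⟨_, h1.swap, by rintro _ ⟨p, hp, rfl⟩; exact h2 hp, ⟨_, h3, rfl⟩, ⟨_, h4, rfl⟩⟩
  rintro _ ⟨x, hx, rfl⟩ _ ⟨y, hy, rfl⟩
  obtain ⟨C, h1, h2, h3, h4⟩ := key y hy
  exact Relation.TransGen.tail (Relation.TransGen.single (key x hx)) ⟨C, h1, h2, h4, h3⟩

theorem main (m : ℕ) (hm : 410 ≤ m) : IsProjVariety (surface m) ∧ StronglyConnected (surface m) ∧
    ∃ x ∈ surface m, ∃ y ∈ surface m, 0 < kobayashi (surface m) x y := by
  obtain ⟨C, h⟩ := ahlfors m hm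
  exact ⟨isProjVariety_surface m (by omega), stronglyConnected_surface m (by omega),
    kob_pos m C h (by omega)⟩

end Pool.Agent.Lib.MP_879098_ag
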