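import Pool.Agent.Lib.MP_879098_ag.QTan

/-! Linear maps close to the identity that make a family of flags tangent to the variety. -/

namespace Pool.Agent.Lib.MP_879098_ag.Q2

open Polynomial Filter Topology Metric

namespace Al

open Clo

variable {n : ℕ} {u y p f q q' τ a b : VV n}

/-- the hermitian coefficient as a linear form -/
noncomputable def ellL (u : VV n) : VV n →L[ℂ] ℂ :=
  LinearMap.toContinuousLinearMap
    { toFun := ell u
      map_add' := fun y z => by simp only [ell, Pi.add_apply, mul_add, Finset.sum_add_distrib, add_div]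
      map_smul' := fun c y => by
        simp only [ell, Pi.smul_apply, smul_eq_mul, RingHom.id_apply, ← mul_div_assoc,
          Finset.mul_sum, mul_left_comm] }

theorem ell_add (u y z : VV n) : ell u (y + z) = ell u y + ell u z := (ellL u).map_add y z

theorem ell_sub' (u y z : VV n) : ell u (y - z) = ell u y - ell u z := (ellL u).map_sub y z

theorem ell_smul (u y : VV n) (c : ℂ) : ell u (c • y) = c * ell u y := (ellL u).map_smul c y

theorem ell_zero (u : VV n) : ell u 0 = 0 := (ellL u).map_zero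

theorem ell_symm (hu : u ≠ 0) (h : ell u y = 0) : ell y u = 0 := by
  rw [ell, div_eq_zero_iff] at h
  have h1 := congrArg (starRingEnd ℂ)
    (h.resolve_right (Complex.ofReal_ne_zero.2 (sum_pos hu).ne'))
  rw [map_sum, map_zero] at h1
  rw [ell, div_eq_zero_iff]
  refine Or.inl (Eq.trans (Finset.sum_congr rfl fun i _ => ?_) h1)
  rw [map_mul, Complex.conj_conj, mul_comm]

/-- the component orthogonal to `u` -/
noncomputable def perp (u y : VV n) : VV n := y - ell u y • u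

theorem ell_perp (hu : u ≠ 0) (y : VV n) : ell u (perp u y) = 0 := by
  rw [perp, ell_sub u y _ hu, sub_self]

theorem perp_add (u y z : VV n) : perp u (y + z) = perp u y + perp u z := by
  simp only [perp, ell_add, add_smul]; abel

theorem perp_smul (u y : VV n) (c : ℂ) : perp u (c • y) = c • perp u y := by
  simp only [perp, ell_smul, smul_sub, smul_smul]

theorem perp_self (hu : u ≠ 0) : perp u u = 0 := by rw [perp, ell_self hu, one_smul, sub_self]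

theorem perp_left (hu : u ≠ 0) {c : ℂ} (hc : c ≠ 0) (y : VV n) : perp (c • u) y = perp u y := by
  have h0 := smul_ne_zero hc hu
  have h1 : ell (c • u) (perp u y) = 0 := by
    by_cases h : perp u y = 0
    · rw [h, ell_zero]
    · exact ell_symm h (by rw [ell_smul, ell_symm hu (ell_perp hu y), mul_zero])
  have h2 : y = perp u y + (ell u y / c) • c • u := by
    rw [smul_smul, div_mul_cancel₀ _ hc, perp, sub_add_cancel]
  conv_lhs => rw [h2, perp_add, perp_smul, perp_self h0, smul_zero, add_zero, perp, h1, zero_smul,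
    sub_zero]

theorem perp_ne (h : I2 u y) : perp u y ≠ 0 := fun e => h.ne_smul _ (sub_eq_zero.1 e)

theorem norm_perp (hu : u ≠ 0) (y : VV n) : ‖perp u y‖ ≤ (n + 2) * ‖y‖ := by
  have h1 := norm_sub_le y (ell u y • u)
  have h2 := norm_ell hu y
  rw [norm_smul] at h1
  rw [perp]
  linarith

theorem cont_perp {α : Type} [TopologicalSpace α] {s : Set α} {u y : α → VV n}
    (hu : ContinuousOn u s) (hy : ContinuousOn y s) (h0 : ∀ z ∈ s, u z ≠ 0) :
    ContinuousOn (fun z => perp (u z) (y z)) s := hy.sub ((continuousOn_ell hu hy h0).smul hu)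

theorem ell_pp (hu : u ≠ 0) (hp : p ≠ 0) (h : ell u p = 0) (z : VV n) :
    ell (perp p (perp u z)) u = 0 ∧ ell (perp p (perp u z)) p = 0 :=
  ⟨ell_symm hu (by rw [perp, ell_sub', ell_smul, h, ell_perp hu, mul_zero, sub_zero]),
    ell_symm hp (ell_perp hp _)⟩

theorem pp_eq (u p z : VV n) :
    z = perp p (perp u z) + (ell u z • u + ell p (perp u z) • p) := by
  simp only [perp]; abel

theorem tan_perp {Y : Set (PP n)} (hs : IsSmooth Y) {x : VV n} (h : IsTangent Y x u)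
    (h' : IsTangent Y x y) : IsTangent Y x (perp u y) := by
  rw [perp, sub_eq_add_neg, ← neg_smul]
  exact tan_add hs h' (tan_smul h _)

/-- an operator of rank one -/
noncomputable def ro (a b : VV n) : VV n →L[ℂ] VV n := (ellL b).smulRight a

theorem ro_apply (a b y : VV n) : ro a b y = ell b y • a := rfl

theorem norm_ro (hb : b ≠ 0) {t : ℝ} (ht : 0 ≤ t) (h : ‖a‖ ≤ t * ‖b‖) :
    ‖ro a b‖ ≤ (n + 1) * t := by
  refine ContinuousLinearMap.opNorm_le_bound _ (by positivity) fun y => ?_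
  rw [ro_apply, norm_smul]
  calc _ ≤ ‖ell b y‖ * (t * ‖b‖) := by gcongr
    _ = t * (‖ell b y‖ * ‖b‖) := by ring
    _ ≤ t * ((n + 1) * ‖y‖) := mul_le_mul_of_nonneg_left (norm_ell hb y) ht
    _ = _ := by ring

theorem cont_ro {s : Set ℂ} {a b : ℂ → VV n} (ha : ContinuousOn a s) (hb : ContinuousOn b s)
    (h0 : ∀ z ∈ s, b z ≠ 0) : ContinuousOn (fun z => ro (a z) (b z)) s :=
  continuousOn_clm_apply.2 fun _ => (continuousOn_ell hb continuousOn_const h0).smul ha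

/-- the first correction -/
noncomputable def A1 (u p f τ : VV n) : VV n →L[ℂ] VV n := 1 + (ro (f - u) u + ro (τ - p) p)

/-- the linear map -/
noncomputable def AA (u p f τ q q' : VV n) : VV n →L[ℂ] VV n :=
  A1 u p f τ + ro (q' - A1 u p f τ q) (perp p (perp u q))

theorem AA_spec {c t η : ℝ} (hu : u ≠ 0) (hp : p ≠ 0) (hq : q ≠ 0) (h : ell u p = 0) (c0 : 0 < c)
    (t0 : 0 ≤ t) (h1 : ‖f - u‖ ≤ t * ‖u‖) (h2 : ‖τ - p‖ ≤ t * ‖p‖) (h3 : ‖q' - q‖ ≤ t * ‖q‖)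
    (h4 : ∀ α β : ℂ, c * ‖q‖ ≤ ‖q - (α • f + β • τ)‖) (t1 : 2 * ((n + 1) * t) ≤ 1)
    (t2 : 4 * ((n + 1) * t) ≤ c) (t3 : 2 * ((n + 1) * t) + (n + 1) * (16 * ((n + 1) * t) / c) ≤ η) :
    perp p (perp u q) ≠ 0 ∧ ‖AA u p f τ q q' - 1‖ ≤ η ∧ AA u p f τ q q' u = f ∧
      AA u p f τ q q' p = τ ∧ AA u p f τ q q' q = q' := by
  have e1 : A1 u p f τ u = f := by
    simp [A1, ro_apply, ell_self hu, ell_symm hu h]
  have e2 : A1 u p f τ p = τ := by
    simp [A1, ro_apply, ell_self hp, h]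
  have g1 : ‖A1 u p f τ - 1‖ ≤ 2 * ((n + 1) * t) := by
    rw [A1, add_sub_cancel_left]
    exact (norm_add_le _ _).trans (by linarith [norm_ro hu t0 h1, norm_ro hp t0 h2])
  have g2 : ∀ z, ‖A1 u p f τ z - z‖ ≤ 2 * ((n + 1) * t) * ‖z‖ := fun z =>
    (A1 u p f τ - 1).le_of_opNorm_le g1 z
  obtain ⟨z1, z2⟩ := ell_pp hu hp h q
  have e3 := pp_eq u p q
  set w := perp p (perp u q)
  have hq' := norm_pos_iff.2 hq
  have g3 : c * ‖q‖ ≤ 4 * ‖w‖ := by
    have e4 : q - (ell u q • f + ell p (perp u q) • τ) =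
        (A1 u p f τ w - w) + w - (A1 u p f τ q - q) := by
      conv_rhs => rw [e3]
      rw [map_add, map_add, map_smul, map_smul, e1, e2, ← e3]
      abel
    have g4 := h4 (ell u q) (ell p (perp u q))
    rw [e4] at g4
    have g5 := (norm_sub_le _ _).trans (add_le_add ((norm_add_le _ _).trans
      (add_le_add (g2 w) le_rfl)) (g2 q)) |>.trans' g4
    nlinarith [norm_nonneg w]
  have hw : w ≠ 0 := norm_pos_iff.1 (by nlinarith)
  have g4 : ‖q' - A1 u p f τ q‖ ≤ 16 * ((n + 1) * t) / c * ‖w‖ := by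
    have g5 : ‖q' - A1 u p f τ q‖ ≤ 4 * ((n + 1) * t) * ‖q‖ := by
      rw [show q' - A1 u p f τ q = (q' - q) - (A1 u p f τ q - q) by abel]
      refine (norm_sub_le _ _).trans ((add_le_add h3 (g2 q)).trans ?_)
      have : 0 ≤ n * t * ‖q‖ := by positivity
      have : 0 ≤ t * ‖q‖ := by positivity
      nlinarith
    rw [div_mul_eq_mul_div, le_div_iff₀ c0]
    calc _ ≤ 4 * ((n + 1) * t) * ‖q‖ * c := by gcongr
      _ = 4 * ((n + 1) * t) * (c * ‖q‖) := by ring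
      _ ≤ 4 * ((n + 1) * t) * (4 * ‖w‖) := by gcongr
      _ = _ := by ring
  have z3 : ell w q = 1 := by
    conv_lhs => rw [e3]
    rw [ell_add, ell_add, ell_smul, ell_smul, z1, z2, ell_self hw]
    ring
  refine ⟨hw, ?_, by simp [AA, ro_apply, e1, z1, w], by simp [AA, ro_apply, e2, z2, w],
    by simp [AA, ro_apply, z3, w]⟩
  rw [AA, add_sub_right_comm]
  exact (norm_add_le _ _).trans ((add_le_add g1 (norm_ro hw (by positivity) g4)).trans t3)

/-- approximation on the circle by functions without zeros -/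
theorem approx_one {g : ℂ → ℂ} (hg : ContinuousOn g S1) :
    ∃ h : ℂ → ℂ, ContinuousOn h S1 ∧ ∀ ζ ∈ S1, h ζ ≠ 0 ∧ ‖h ζ - g ζ‖ ≤ 1 := by
  obtain ⟨N, P, hP⟩ := RH.laurent g hg (1 / 2) one_half_pos
  have hd : Differentiable ℂ fun z : ℂ =>
      P.eval (Complex.exp (z * Complex.I)) / Complex.exp (z * Complex.I) ^ N :=
    (P.differentiable.comp (by fun_prop)).div (by fun_prop)
      fun z => pow_ne_zero _ (Complex.exp_ne_zero _)
  obtain ⟨μ, h1, h2⟩ := exists_small_ne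
    (((hd.contDiff (n := 1)).restrict_scalars ℝ).comp Complex.ofRealCLM.contDiff) one_half_pos
  have h0 : ∀ ζ ∈ S1, ζ ^ N ≠ 0 := fun ζ hζ => pow_ne_zero _ (ne_zero_of_mem_unit_sphere ⟨ζ, hζ⟩)
  refine ⟨fun ζ => P.eval ζ / ζ ^ N - μ,
    (P.continuous.continuousOn.div (by fun_prop) h0).sub continuousOn_const, fun ζ hζ => ⟨?_, ?_⟩⟩
  · obtain ⟨θ, rfl⟩ := (Complex.norm_eq_one_iff ζ).1 (mem_sphere_zero_iff_norm.1 hζ)
    exact sub_ne_zero.2 (h2 θ)
  · have h3 : ‖P.eval ζ / ζ ^ N - g ζ‖ < 1 / 2 := by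
      rw [div_sub' (h0 ζ hζ), norm_div, norm_pow, mem_sphere_zero_iff_norm.1 hζ, one_pow, div_one]
      exact hP ζ hζ
    rw [sub_right_comm]
    exact (norm_sub_le _ _).trans (by linarith)

theorem approx {g : ℂ → ℂ} {r : ℂ → ℝ} (hg : ContinuousOn g S1) (hr : ContinuousOn r S1)
    (h0 : ∀ ζ ∈ S1, 0 < r ζ) :
    ∃ h : ℂ → ℂ, ContinuousOn h S1 ∧ ∀ ζ ∈ S1, h ζ ≠ 0 ∧ ‖h ζ - g ζ‖ ≤ r ζ := by
  have hr' : ContinuousOn (fun ζ => (r ζ : ℂ)) S1 := Complex.continuous_ofReal.comp_continuousOn hr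
  have h0' : ∀ ζ ∈ S1, (r ζ : ℂ) ≠ 0 := fun ζ hζ => Complex.ofReal_ne_zero.2 (h0 ζ hζ).ne'
  obtain ⟨h, h1, h2⟩ := approx_one (hg.div hr' h0')
  refine ⟨fun ζ => r ζ * h ζ, hr'.mul h1, fun ζ hζ => ⟨mul_ne_zero (h0' ζ hζ) (h2 ζ hζ).1, ?_⟩⟩
  rw [← mul_div_cancel₀ (g ζ) (h0' ζ hζ), ← mul_sub, norm_mul, Complex.norm_real,
    Real.norm_of_nonneg (h0 ζ hζ).le]
  exact mul_le_of_le_one_right (h0 ζ hζ).le (h2 ζ hζ).2

/-- the unit vector in the direction of `u` -/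
noncomputable def nv (u : VV n) : VV n := ((‖u‖ : ℂ))⁻¹ • u

theorem nv_ne (hu : u ≠ 0) : ((‖u‖ : ℂ))⁻¹ ≠ 0 :=
  inv_ne_zero (Complex.ofReal_ne_zero.2 (norm_ne_zero_iff.2 hu))

theorem nv_mem {Y : Set (PP n)} (h : u ∈ cone Y) : nv u ∈ cone Y ∩ sphere 0 1 :=
  ⟨cone_smul h (nv_ne (cone_ne h)), by
    rw [mem_sphere_zero_iff_norm, nv, norm_smul, norm_inv, Complex.norm_real, norm_norm,
      inv_mul_cancel₀ (norm_ne_zero_iff.2 (cone_ne h))]⟩

theorem norm_sub_nv {x : VV n} (hx : ‖x‖ = 1) (hu : u ≠ 0) : ‖x - nv u‖ ≤ 2 * ‖x - u‖ := by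
  have h0 := norm_ne_zero_iff.2 hu
  have h1 : ‖u - nv u‖ = |‖u‖ - 1| := by
    have : u - nv u = (((‖u‖ - 1) / ‖u‖ : ℝ) : ℂ) • u := by
      rw [sub_div, div_self h0, one_div]
      push_cast
      rw [sub_smul, one_smul, nv]
    rw [this, norm_smul, Complex.norm_real, norm_div, norm_norm, div_mul_cancel₀ _ h0,
      Real.norm_eq_abs]
  have h2 := abs_norm_sub_norm_le u x
  have h3 := norm_sub_le_norm_sub_add_norm_sub x u (nv u)
  rw [hx, norm_sub_rev] at h2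
  linarith

/-- the flags that are almost tangent -/
def Om (K : Set (VV n)) (T : VV n → VV n →L[ℂ] VV n) (d ε : ℝ) : Set (VV n × VV n) :=
  {z | I2 z.1 z.2 ∧ ∀ x ∈ K, d < ‖perp z.1 x‖ ∨
    ‖T x (perp z.1 z.2) - perp z.1 z.2‖ < ε * ‖perp z.1 z.2‖}

theorem sat_Om {K : Set (VV n)} (hK : IsCompact K) {T : VV n → VV n →L[ℂ] VV n}
    (hT : ContinuousOn T K) (d ε : ℝ) : Sat (Om K T d ε) := by
  refine ⟨isOpen_iff_mem_nhds.2 fun z hz => ?_, fun _ _ m => m.1,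
    fun u v a b c ha hb m => ⟨m.1.sat c ha hb, fun x hx => ?_⟩⟩
  · have : CompactSpace K := isCompact_iff_compactSpace.1 hK
    have hT' : Continuous fun x : K => T x := hT.domRestrict
    have hO : IsOpen {w : (VV n × VV n) × K | w.1.1 ≠ 0} :=
      isOpen_ne.preimage (continuous_fst.comp continuous_fst)
    have c1 : ContinuousOn (fun w : (VV n × VV n) × K => perp w.1.1 w.2) {w | w.1.1 ≠ 0} :=
      cont_perp (by fun_prop) (by fun_prop) fun _ h => h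
    have c2 : ContinuousOn (fun w : (VV n × VV n) × K => perp w.1.1 w.1.2) {w | w.1.1 ≠ 0} :=
      cont_perp (by fun_prop) (by fun_prop) fun _ h => h
    have key := (isCompact_univ (X := K)).eventually_forall_of_forall_eventually (x₀ := z)
      (P := fun z x => d < ‖perp z.1 x‖ ∨
        ‖T x (perp z.1 z.2) - perp z.1 z.2‖ < ε * ‖perp z.1 z.2‖) fun x _ => by
      have d1 := c1.continuousAt (hO.mem_nhds (x := (z, x)) hz.1.ne)
      have d2 := c2.continuousAt (hO.mem_nhds (x := (z, x)) hz.1.ne)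
      rcases hz.2 x x.2 with h | h
      · exact (continuousAt_const.eventually_lt d1.norm h).mono fun _ => Or.inl
      · exact (((((hT'.comp continuous_snd).continuousAt.clm_apply d2).sub d2).norm).eventually_lt
          (continuousAt_const.mul d2.norm) h).mono fun _ => Or.inr
    filter_upwards [key, isOpen_i2.mem_nhds hz.1] with w h1 h2
    exact ⟨h2, fun x hx => h1 ⟨x, hx⟩ trivial⟩
  · have hu : u ≠ 0 := m.1.ne
    have e : perp (a • u) (b • v + c • u) = b • perp u v := by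
      rw [perp_left hu ha, perp_add, perp_smul, perp_smul, perp_self hu, smul_zero, add_zero]
    refine (m.2 x hx).imp (fun h => by rwa [perp_left hu ha]) fun h => ?_
    dsimp only at h ⊢
    rw [e, map_smul, ← smul_sub, norm_smul, norm_smul, mul_left_comm]
    exact mul_lt_mul_of_pos_left h (norm_pos_iff.2 hb)

theorem tf_Om {Y : Set (PP n)} (hs : IsSmooth Y) (hc : IsZClosed Y) {T : VV n → VV n →L[ℂ] VV n}
    (hT : ContinuousOn T (cone Y ∩ sphere 0 1))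
    (h : ∀ u ∈ cone Y ∩ sphere 0 1, ∀ v, IsTangent Y u v → T u v = v) {ε : ℝ} (hε : 0 < ε) :
    ∃ d, 0 < d ∧ TF Y ⊆ Om (cone Y ∩ sphere 0 1) T d ε := by
  obtain ⟨r, r0, hr⟩ := Metric.uniformContinuousOn_iff.1
    ((isCompact_cone hc).uniformContinuousOn_of_continuous hT) ε hε
  refine ⟨min (r / 4) (1 / 2), lt_min (by positivity) one_half_pos, fun z hz => ⟨hz.2, fun x hx => ?_⟩⟩
  refine or_iff_not_imp_left.2 fun h1 => ?_
  rw [not_lt, le_min_iff, perp] at h1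
  have hx1 := mem_sphere_zero_iff_norm.1 hx.2
  have h2 : ell z.1 x ≠ 0 := fun e => by
    rw [e, zero_smul, sub_zero, hx1] at h1
    linarith [h1.2]
  have h3 := cone_smul (tan_mem hz.1) h2
  have h4 := h _ (nv_mem h3) _ (tan_scale (tan_scale
    (tan_perp hs (tan_self (tan_mem hz.1)) hz.1) h2) (nv_ne (cone_ne h3)))
  have h5 := hr x hx _ (nv_mem h3) (by
    rw [dist_eq_norm]
    linarith [norm_sub_nv hx1 (cone_ne h3), h1.1])
  rw [dist_eq_norm] at h5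
  calc _ = ‖(T x - T (nv (ell z.1 x • z.1))) (perp z.1 z.2)‖ := by
        rw [sub_apply, h4]
    _ ≤ _ := ContinuousLinearMap.le_opNorm _ _
    _ < _ := mul_lt_mul_of_pos_right h5 (norm_pos_iff.2 (perp_ne hz.2))

theorem near_Om {K : Set (VV n)} {T : VV n → VV n →L[ℂ] VV n} {d ε δ : ℝ} (h : (u, y) ∈ Om K T d ε)
    (hf : nv f ∈ K) (h1 : ‖f - u‖ ≤ δ * ‖u‖) (d0 : 0 ≤ δ) (d1 : δ ≤ 1 / 2)
    (d2 : 2 * (n + 2) * δ ≤ d) : ‖T (nv f) (perp u y) - perp u y‖ < ε * ‖perp u y‖ := by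
  have hu : u ≠ 0 := h.1.ne
  have hu' := norm_pos_iff.2 hu
  refine (h.2 _ hf).resolve_left (not_lt.2 (le_trans ?_ d2))
  have h2 : ‖u‖ ≤ 2 * ‖f‖ := by
    have := norm_sub_norm_le u f
    rw [norm_sub_rev] at this
    nlinarith
  have h3 : perp u f = perp u (f - u) := by
    conv_lhs => rw [← sub_add_cancel f u, perp_add, perp_self hu, add_zero]
  dsimp only
  rw [nv, perp_smul, h3, norm_smul, norm_inv, Complex.norm_real, norm_norm,
    inv_mul_le_iff₀ (by linarith)]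
  calc _ ≤ (n + 2) * ‖f - u‖ := norm_perp hu _
    _ ≤ (n + 2) * (δ * (2 * ‖f‖)) := by
        gcongr
        exact h1.trans (mul_le_mul_of_nonneg_left h2 d0)
    _ = _ := by ring

theorem exists_t (n : ℕ) {η c : ℝ} (hη : 0 < η) (c0 : 0 < c) : ∃ t : ℝ, 0 < t ∧
    2 * ((n + 1) * t) ≤ 1 ∧ 4 * ((n + 1) * t) ≤ c ∧
      2 * ((n + 1) * t) + (n + 1) * (16 * ((n + 1) * t) / c) ≤ η := by
  have h : ∀ᶠ t : ℝ in 𝓝 0, 2 * ((n + 1) * t) < 1 ∧ 4 * ((n + 1) * t) < c ∧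
      2 * ((n + 1) * t) + (n + 1) * (16 * ((n + 1) * t) / c) < η :=
    (ContinuousAt.eventually_lt (by fun_prop) continuousAt_const (by simp)).and
      ((ContinuousAt.eventually_lt (by fun_prop) continuousAt_const (by simpa using c0)).and
        (ContinuousAt.eventually_lt (by fun_prop) continuousAt_const (by simpa using hη)))
  obtain ⟨t, h1, h2⟩ := ((h.filter_mono nhdsWithin_le_nhds).and
    (self_mem_nhdsWithin (s := Set.Ioi (0 : ℝ)))).exists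
  exact ⟨t, h2, h1.1.le, h1.2.1.le, h1.2.2.le⟩

end Al

open Al Clo in
theorem align {n : ℕ} {Y : Set (PP n)} (hs : IsSmooth Y) (hc : IsZClosed Y) {η c : ℝ} (hη : 0 < η)
    (c0 : 0 < c) : ∃ (Ω : Set (VV n × VV n)) (δ : ℝ), Sat Ω ∧ TF Y ⊆ Ω ∧ 0 < δ ∧
      ∀ (u y f f' m q' : ℂ → VV n) (q : VV n), q ≠ 0 → ContinuousOn u S1 → ContinuousOn y S1 →
        ContinuousOn f S1 → ContinuousOn f' S1 → ContinuousOn m S1 → ContinuousOn q' S1 →
        (∀ ζ ∈ S1, (u ζ, y ζ) ∈ Ω ∧ ‖f ζ - u ζ‖ ≤ δ * ‖u ζ‖ ∧ IsTangent Y (f ζ) (f' ζ) ∧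
          IsTangent Y (f ζ) (m ζ) ∧ I3 (f ζ) (f' ζ) (m ζ) ∧ ‖q' ζ - q‖ ≤ δ * ‖q‖ ∧
          ∀ v, IsTangent Y (f ζ) v → c * ‖q‖ ≤ ‖q - v‖) →
        ∃ A : ℂ → VV n →L[ℂ] VV n, ContinuousOn A S1 ∧ ∀ ζ ∈ S1, ‖A ζ - 1‖ ≤ η ∧
          A ζ (u ζ) = f ζ ∧ IsTangent Y (f ζ) (A ζ (y ζ)) ∧ I3 (f ζ) (f' ζ) (A ζ (y ζ)) ∧
          A ζ q = q' ζ := by
  obtain ⟨T, hT, hT'⟩ := exists_proj hs hc
  obtain ⟨t, t0, t1, t2, t3⟩ := exists_t n hη c0
  obtain ⟨d, d0, hd⟩ := tf_Om hs hc hT (fun u hu => (hT' u hu).2) (half_pos t0)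
  refine ⟨_, min (min t (1 / 2)) (d / (2 * (n + 2))), sat_Om (isCompact_cone hc) hT d (t / 2), hd,
    lt_min (lt_min t0 one_half_pos) (by positivity),
    fun u y f f' m q' q hq cu cy cf cf' cm cq H => ?_⟩
  set δ := min (min t (1 / 2)) (d / (2 * (n + 2))) with hδ
  have δ0 : 0 ≤ δ := (lt_min (lt_min t0 one_half_pos) (by positivity)).le
  have δ1 : δ ≤ t := (min_le_left _ _).trans (min_le_left _ _)
  have δ2 : δ ≤ 1 / 2 := (min_le_left _ _).trans (min_le_right _ _)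
  have δ3 : 2 * (n + 2) * δ ≤ d := (le_div_iff₀' (by positivity)).1 (min_le_right _ _)
  have hu : ∀ ζ ∈ S1, u ζ ≠ 0 := fun ζ hζ => (H ζ hζ).1.1.ne
  have hp : ∀ ζ ∈ S1, perp (u ζ) (y ζ) ≠ 0 := fun ζ hζ => perp_ne (H ζ hζ).1.1
  have hf : ∀ ζ ∈ S1, f ζ ∈ cone Y := fun ζ hζ => tan_mem (H ζ hζ).2.2.1
  have hf0 : ∀ ζ ∈ S1, f ζ ≠ 0 := fun ζ hζ => cone_ne (hf ζ hζ)
  have hg : ∀ ζ ∈ S1, perp (f ζ) (f' ζ) ≠ 0 := fun ζ hζ => perp_ne (H ζ hζ).2.2.2.2.1.left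
  set w : ℂ → VV n := fun ζ => perp (perp (f ζ) (f' ζ)) (perp (f ζ) (m ζ)) with hw
  set τ₀ : ℂ → VV n := fun ζ => T (nv (f ζ)) (perp (u ζ) (y ζ)) with hτ₀
  have hw0 : ∀ ζ ∈ S1, w ζ ≠ 0 := fun ζ hζ e => by
    have e1 := pp_eq (f ζ) (perp (f ζ) (f' ζ)) (m ζ)
    rw [show perp (perp (f ζ) (f' ζ)) (perp (f ζ) (m ζ)) = 0 from e, zero_add] at e1
    generalize ell (f ζ) (m ζ) = α at e1
    generalize ell (perp (f ζ) (f' ζ)) (perp (f ζ) (m ζ)) = β at e1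
    have := ((H ζ hζ).2.2.2.2.1 (α - β * ell (f ζ) (f' ζ)) β (-1) (by
      rw [e1, perp]; module)).2.2
    simp at this
  have cp := cont_perp cu cy hu
  have cw : ContinuousOn w S1 := cont_perp (cont_perp cf cf' hf0) (cont_perp cf cm hf0) hg
  have cτ₀ : ContinuousOn τ₀ S1 := by
    refine (hT.comp (f := fun ζ => nv (f ζ)) ?_ fun ζ hζ => nv_mem (hf ζ hζ)).clm_apply cp
    exact ((Complex.continuous_ofReal.comp_continuousOn cf.norm).inv₀
      fun ζ hζ => Complex.ofReal_ne_zero.2 (norm_ne_zero_iff.2 (hf0 ζ hζ))).smul cf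
  have cl := continuousOn_ell cw cτ₀ hw0
  obtain ⟨l, cl', hl⟩ := approx (r := fun ζ => t / 2 * ‖perp (u ζ) (y ζ)‖ / ‖w ζ‖) cl
    ((continuousOn_const.mul cp.norm).div cw.norm fun ζ hζ => norm_ne_zero_iff.2 (hw0 ζ hζ))
    fun ζ hζ => div_pos (mul_pos (half_pos t0) (norm_pos_iff.2 (hp ζ hζ)))
      (norm_pos_iff.2 (hw0 ζ hζ))
  set τ : ℂ → VV n := fun ζ => τ₀ ζ + (l ζ - ell (w ζ) (τ₀ ζ)) • w ζ with hτ
  have cτ : ContinuousOn τ S1 := cτ₀.add ((cl'.sub cl).smul cw)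
  have tτ : ∀ ζ ∈ S1, IsTangent Y (f ζ) (τ ζ) := fun ζ hζ => by
    have s0 := tan_self (hf ζ hζ)
    refine tan_add hs ?_ (tan_smul (tan_perp hs (tan_perp hs s0 (H ζ hζ).2.2.1)
      (tan_perp hs s0 (H ζ hζ).2.2.2.1)) _)
    have := tan_scale ((hT' _ (nv_mem (hf ζ hζ))).1 (perp (u ζ) (y ζ)))
      (inv_ne_zero (nv_ne (hf0 ζ hζ)))
    rwa [nv, inv_smul_smul₀ (nv_ne (hf0 ζ hζ))] at this
  have key : ∀ ζ ∈ S1, _ := fun ζ hζ => AA_spec (f := f ζ) (τ := τ ζ) (q' := q' ζ) (hu ζ hζ)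
    (hp ζ hζ) hq (ell_perp (hu ζ hζ) _) c0 t0.le
    ((H ζ hζ).2.1.trans (mul_le_mul_of_nonneg_right δ1 (norm_nonneg _))) (by
      have g1 := near_Om (H ζ hζ).1 (nv_mem (hf ζ hζ)) (H ζ hζ).2.1 δ0 δ2 δ3
      have g2 := (le_div_iff₀ (norm_pos_iff.2 (hw0 ζ hζ))).1 (hl ζ hζ).2
      rw [hτ]
      dsimp only
      rw [add_sub_right_comm]
      refine (norm_add_le _ _).trans ?_
      rw [norm_smul]
      linarith)
    ((H ζ hζ).2.2.2.2.2.1.trans (mul_le_mul_of_nonneg_right δ1 (norm_nonneg _)))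
    (fun α β => (H ζ hζ).2.2.2.2.2.2 _ (tan_add hs (tan_smul (tan_self (hf ζ hζ)) α)
      (tan_smul (tτ ζ hζ) β))) t1 t2 t3
  have c1 : ContinuousOn (fun ζ => A1 (u ζ) (perp (u ζ) (y ζ)) (f ζ) (τ ζ)) S1 :=
    continuousOn_const.add ((cont_ro (cf.sub cu) cu hu).add (cont_ro (cτ.sub cp) cp hp))
  refine ⟨fun ζ => AA (u ζ) (perp (u ζ) (y ζ)) (f ζ) (τ ζ) q (q' ζ),
    c1.add (cont_ro (cq.sub (c1.clm_apply continuousOn_const))
      (cont_perp cp (cont_perp cu continuousOn_const hu) hp) fun ζ hζ => (key ζ hζ).1),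
    fun ζ hζ => ?_⟩
  obtain ⟨-, k1, k2, k3, k4⟩ := key ζ hζ
  have e : AA (u ζ) (perp (u ζ) (y ζ)) (f ζ) (τ ζ) q (q' ζ) (y ζ) =
      τ ζ + ell (u ζ) (y ζ) • f ζ := by
    generalize AA (u ζ) (perp (u ζ) (y ζ)) (f ζ) (τ ζ) q (q' ζ) = B at k2 k3
    rw [← k3, ← k2, ← map_smul, ← map_add, perp, sub_add_cancel]
  obtain ⟨z1, z2⟩ := ell_pp (hf0 ζ hζ) (hg ζ hζ) (ell_perp (hf0 ζ hζ) _) (m ζ)
  have z3 : ell (w ζ) (f' ζ) = 0 := by
    have z2' : ell (w ζ) (f' ζ - ell (f ζ) (f' ζ) • f ζ) = 0 := z2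
    rwa [ell_sub', ell_smul, show ell (w ζ) (f ζ) = 0 from z1, mul_zero, sub_zero] at z2'
  have z4 : ell (w ζ) (τ ζ) = l ζ := by
    rw [hτ]
    dsimp only
    rw [ell_add, ell_smul, ell_self (hw0 ζ hζ)]
    ring
  refine ⟨k1, k2, ?_, fun α β γ h => ?_, k4⟩
  · rw [e]
    exact tan_add hs (tτ ζ hζ) (tan_smul (tan_self (hf ζ hζ)) _)
  · have h1 := congrArg (ell (w ζ)) h
    dsimp only at h1
    rw [e] at h1
    simp only [ell_add, ell_smul, ell_zero, z3, z4, show ell (w ζ) (f ζ) = 0 from z1, mul_zero,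
      zero_add, add_zero] at h1
    have h2 := (mul_eq_zero.1 h1).resolve_right (hl ζ hζ).1
    rw [h2, zero_smul, add_zero] at h
    exact ⟨((H ζ hζ).2.2.2.2.1.left α β h).1, ((H ζ hζ).2.2.2.2.1.left α β h).2, h2⟩

end Pool.Agent.Lib.MP_879098_ag.Q2
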