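import Pool.Agent.Lib.MP_879098_ag.QStarD

/-! Attaching one curve to another at a transversal node. -/

namespace Pool.Agent.Lib.MP_879098_ag.Q2

open Polynomial Filter Topology Metric

theorem Att.sat_ball {n : ℕ} {Ω : Set (VV n × VV n)} (hΩ : Sat Ω) (z : VV n) {r : ℝ} (hr : 0 ≤ r) :
    Sat {p : VV n × VV n | ∀ z' ∈ closedBall z r, GT Ω p.1 p.2 z'} := by
  refine ⟨isOpen_iff_mem_nhds.2 fun p hp => ?_,
    fun u v m => hΩ.ind u v (m z (mem_closedBall_self hr)).left,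
    fun u v a b c ha hb m z' hz' => (sat_gt hΩ z').sat u v a b c ha hb (m z' hz')⟩
  exact (isCompact_closedBall z r).eventually_forall_of_forall_eventually (x₀ := p)
    (P := fun p z' => GT Ω p.1 p.2 z') fun z' hz' =>
      (show ContinuousAt (fun t : (VV n × VV n) × VV n => (t.1.1, t.1.2, t.2)) (p, z') by
        fun_prop).eventually_mem ((isOpen_gt hΩ).mem_nhds (hp z' hz'))

theorem attach {n : ℕ} {Ω : Set (VV n × VV n)} (hΩ : Sat Ω) {N : Set (VV n)} (hN : OC N)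
    (hs : ∀ p ∈ Ω, p.1 ∈ N) {q y z : VV n} (hG : GT Ω q y z) {η : ℝ} (hη : 0 < η) :
    ∃ O, Sat O ∧ (q, y) ∈ O ∧ ∀ (P : Tup n) (d : ℕ) (Q : Tup n) (e : ℕ)
      (s : Set (Set (VV n × VV n))), s.Finite → Cur Ω P d → Meets O P → Cur (shr η Ω) Q e →
      pev Q 0 = q → (∃ ρ : ℂ, ρ ≠ 0 ∧ pev (der Q) 0 = ρ • z) →
      (∀ O' ∈ s, Sat O' ∧ (Meets O' P ∨ Meets (shr η O') Q)) →
      ∃ F, Cur Ω F (d + e) ∧ (∀ O' ∈ s, Meets O' F) ∧
        ∀ (K : ℕ) (π : VV n → VV K →L[ℂ] VV K), PF N π → ∀ k₁ k₂ : ℤ,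
          DgP π P d k₁ → DgP π Q e k₂ → DgP π F (d + e) (k₁ + k₂) := by
  have q0 : 0 < ‖q‖ := norm_pos_iff.2 (hΩ.ne hG.left)
  obtain ⟨r, r0, hr⟩ := nhds_basis_closedBall.eventually_iff.1
    ((show ContinuousAt (fun z' : VV n => (q, y, z')) z by fun_prop).eventually_mem
      ((isOpen_gt hΩ).mem_nhds hG))
  obtain ⟨ε, ε0, ε1, εη, εr⟩ : ∃ ε : ℝ, 0 < ε ∧ ε ≤ 1 ∧ ε ≤ η ∧ ε * ‖z‖ ≤ r := by
    refine ⟨min (min 1 η) (r / (‖z‖ + 1)), by positivity, (min_le_left _ _).trans (min_le_left _ _),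
      (min_le_left _ _).trans (min_le_right _ _), ?_⟩
    refine (mul_le_mul (min_le_right _ _) (le_add_of_nonneg_right zero_le_one) (norm_nonneg _)
      (by positivity)).trans (le_of_eq ?_)
    exact div_mul_cancel₀ _ (by positivity)
  refine ⟨_, (oc_near ε1 q).sat.inter (Att.sat_ball hΩ z r0.le),
    ⟨⟨⟨1, one_ne_zero, by simpa using mul_pos ε0 q0⟩, hΩ.ind _ _ hG.left⟩, fun z' hz' => hr hz'⟩, ?_⟩
  rintro P d Q e s hsf hP ⟨w, ⟨⟨κ, κ0, hκ⟩, -⟩, hw⟩ hQ hq ⟨ρ, ρ0, hρ⟩ hO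
  have κ1 := inv_ne_zero κ0
  obtain ⟨A, hA, hA1⟩ := exists_clm (norm_pos_iff.1 q0) (v := κ⁻¹ • pev P w)
  have hAε : ‖A - 1‖ ≤ ε := by
    refine hA1.trans ?_
    have k0 := norm_pos_iff.2 κ0
    rw [div_le_iff₀ q0, ← inv_smul_smul₀ κ0 q, ← smul_sub, norm_smul, norm_smul κ⁻¹, mul_left_comm]
    exact mul_le_mul_of_nonneg_left hκ.le (norm_nonneg _)
  have hP0 := hP.afc hΩ w one_ne_zero
  have hP1 := hP0.smul hΩ κ1
  have hQ1 := hQ.lin (hAε.trans εη)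
  have h0 : ∀ c ∈ ({0} : Finset ℂ), pev (lin (κ⁻¹ • 1) (afc w 1 P)) c = pev (lin A Q) 0 := by
    intro c hc
    rw [Finset.mem_singleton.1 hc, pev_lin, pev_lin, pev_afc, hq, hA]
    simp
  have hGT : ∀ c ∈ ({0} : Finset ℂ), GT Ω (pev (lin (κ⁻¹ • 1) (afc w 1 P)) c)
      (pev (der (lin (κ⁻¹ • 1) (afc w 1 P))) c) (pev (der (lin A Q)) 0) := by
    intro c hc
    have h1 : A z ∈ closedBall z r := by
      rw [mem_closedBall_iff_norm]
      exact ((A - 1).le_opNorm z).trans ((mul_le_mul_of_nonneg_right hAε (norm_nonneg _)).trans εr)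
    have h2 := GT.sat hΩ (hw _ h1) 0 0 κ1 κ1 ρ0
    rw [Finset.mem_singleton.1 hc, der_lin, der_lin, pev_lin, pev_lin, pev_lin, pev_afc,
      pev_der_afc, hρ]
    simpa [fl] using h2
  have e1 := star_cur (Z := {0}) (P' := fun _ => lin A Q) (d' := fun _ => e) hΩ hP1
    (fun _ _ => hQ1) h0 hGT
  have e2 : ∀ᶠ t in 𝓝[≠] (0 : ℂ), ∀ O' ∈ s,
      Meets O' (star {0} (lin (κ⁻¹ • 1) (afc w 1 P)) (fun _ => lin A Q) (fun _ => e) t) := by
    refine hsf.eventually_all.2 fun O' hO' => ?_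
    obtain ⟨h1, h2 | h2⟩ := hO O' hO'
    · exact star_meets h1 hP1.deg (fun _ _ => hQ1.deg) ((h2.afc h1 w one_ne_zero).smul h1 κ1)
    · exact star_meets' h1 hP1.deg (fun _ _ => hQ1.deg) h0 (Finset.mem_singleton_self 0)
        (h2.lin (hAε.trans εη))
  obtain ⟨t, t0, ht⟩ := nhds_basis_closedBall.eventually_iff.1
    (eventually_nhdsWithin_iff.1 (e1.and e2))
  have ht' := fun (u : ℝ) (u0 : 0 < u) (hu : u ≤ t) => ht (x := (u : ℂ))
    (by rwa [mem_closedBall_zero_iff, Complex.norm_real, Real.norm_of_nonneg u0.le])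
    (Complex.ofReal_ne_zero.2 u0.ne')
  refine ⟨_, by simpa using (ht' t t0 le_rfl).1, (ht' t t0 le_rfl).2,
    fun K π hπ k₁ k₂ h1 h2 => ?_⟩
  have := star_dg (Z := {0}) (P' := fun _ => lin A Q) (d' := fun _ => e) (k' := fun _ => k₂) hN hπ
    hP1.deg (fun _ _ => hQ1.deg) h0 (fun x hx => hP1.hom_mem hN hs hx)
    (fun _ _ x hx => hQ1.hom_mem hN hs hx) t0
    (fun u u0 hu x hx => (ht' u u0 hu).1.hom_mem hN hs hx)
    ((h1.afc hP.deg w one_ne_zero).smul hπ (fun x hx => hP0.hom_mem hN hs hx) κ1)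
    fun _ _ => h2.lin hπ fun B hB x hx => by
      rw [← hom_lin]
      exact (hQ.lin (hB.trans (hAε.trans εη))).hom_mem hN hs hx
  simpa using this

end Pool.Agent.Lib.MP_879098_ag.Q2
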