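import Pool.Agent.Lib.MP_879098_ag.SStarA

/-! Margins of the smoothing and the choice of the centres of the attached discs. -/

namespace Pool.Agent.Lib.MP_879098_ag.Sm.Sta

open Filter Topology Polynomial Metric Clo

theorem smo_margin {a b : ℕ} {Ω : Set (VV a × VV b)} (hΩ : IsCone Ω)
    {P : Fin (a + 1) → ℂ[X]} {d : ℕ} {Q : Fin (b + 1) → ℂ[X]} {e : ℕ} (h : IsRat Ω P d Q e)
    {Z : Finset ℂ} {P' : ℂ → Fin (a + 1) → ℂ[X]} {d' : ℂ → ℕ} {Q' : ℂ → Fin (b + 1) → ℂ[X]}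
    {e' : ℂ → ℕ} (h' : ∀ c ∈ Z, IsRat Ω (P' c) (d' c) (Q' c) (e' c))
    (hP : ∀ c ∈ Z, pev P c = pev (P' c) 0) (hQ : ∀ c ∈ Z, pev Q c = pev (Q' c) 0) :
    ∃ δ₁ : ℝ, 0 < δ₁ ∧ ∀ (δ ρ : ℝ) (ε : ℂ) (W : Fin (a + 1) → ℂ[X]) (V : Fin (b + 1) → ℂ[X]),
      δ ≤ δ₁ → 0 < ρ → ε ≠ 0 → ‖ε‖ ≤ ρ ^ 2 → Sml δ ρ Z P P' → Sml δ ρ Z Q Q' →
      Smo Z P P' d d' ε W → Smo Z Q Q' e e' ε V →
      IsRat Ω W (d + ∑ c ∈ Z, d' c) V (e + ∑ c ∈ Z, e' c) ∧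
        ∀ w u v, Near δ₁ (pev W w) u → Near δ₁ (pev V w) v → (u, v) ∈ Ω := by
  obtain ⟨δ₂, p₂, m₂, -⟩ := h.margin hΩ
  obtain ⟨δ₃, p₃, m₃⟩ := exists_pos_forall Z (fun c δ =>
      (∀ w u v, Near δ (pev (P' c) w) u → Near δ (pev (Q' c) w) v → (u, v) ∈ Ω) ∧
      ∀ u v, Near δ (ptop (P' c) (d' c)) u → Near δ (ptop (Q' c) (e' c)) v → (u, v) ∈ Ω)
    (fun _ _ _ _ h1 h2 => ⟨fun w u v hu hv => h2.1 w u v (hu.mono h1) (hv.mono h1),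
      fun u v hu hv => h2.2 u v (hu.mono h1) (hv.mono h1)⟩) fun c hc => (h' c hc).margin hΩ
  set δ₁ := min (min δ₂ δ₃) 1 / 3 with hδ₁
  have p₁ : 0 < δ₁ := by positivity
  have l₁ : 3 * δ₁ ≤ 1 := by linarith [min_le_right (min δ₂ δ₃) 1]
  have l₂ : 3 * δ₁ ≤ δ₂ := by linarith [min_le_left (min δ₂ δ₃) 1, min_le_left δ₂ δ₃]
  have l₃ : 3 * δ₁ ≤ δ₃ := by linarith [min_le_left (min δ₂ δ₃) 1, min_le_right δ₂ δ₃]
  refine ⟨δ₁, p₁, fun δ ρ ε W V hδ hρ h0 hε sP sQ hW hV => ?_⟩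
  have key : ∀ w, pev W w ≠ 0 ∧ pev V w ≠ 0 ∧
      ∀ u v, Near δ₁ (pev W w) u → Near δ₁ (pev V w) v → (u, v) ∈ Ω := by
    intro w
    by_cases hw : w ∈ Z
    · have h1 := hΩ.ne _ _ (h' w hw).top
      have h2 := hW.nearC sP hρ h0 hε hw h1.1
      have h3 := hV.nearC sQ hρ h0 hε hw h1.2
      exact ⟨h2.ne' (by linarith), h3.ne' (by linarith), fun u v hu hv => (m₃ w hw).2 u v
        ((trans' h2 hu (by linarith)).mono (by linarith))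
        ((trans' h3 hv (by linarith)).mono (by linarith))⟩
    by_cases h1 : ∃ c ∈ Z, ‖w - c‖ ≤ ρ
    · obtain ⟨c, hc, h1⟩ := h1
      have h4 : w ≠ c := fun e => hw (e ▸ hc)
      have h2 := hW.nearB sP hP hρ hε hc h4 h1
      have h3 := hV.nearB sQ hQ hρ hε hc h4 h1
      exact ⟨h2.ne' (by linarith), h3.ne' (by linarith), fun u v hu hv => (m₃ c hc).1 _ u v
        ((trans' h2 hu (by linarith)).mono (by linarith))
        ((trans' h3 hv (by linarith)).mono (by linarith))⟩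
    · have h4 : ∀ c ∈ Z, ‖ε / (w - c)‖ ≤ ρ := fun c hc =>
        norm_div_le hρ hε (not_le.1 fun g => h1 ⟨c, hc, g⟩).le
      have h2 := hW.nearA sP hw h4
      have h3 := hV.nearA sQ hw h4
      exact ⟨h2.ne' (by linarith), h3.ne' (by linarith), fun u v hu hv => m₂ _ u v
        ((trans' h2 hu (by linarith)).mono (by linarith))
        ((trans' h3 hv (by linarith)).mono (by linarith))⟩
  refine ⟨⟨hW.deg, hV.deg, fun w => (key w).2.2 _ _ (near_refl p₁ (key w).1)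
    (near_refl p₁ (key w).2.1), ?_⟩, fun w => (key w).2.2⟩
  rw [hW.top, hV.top]
  exact h.top

theorem isRat_reflect {a b : ℕ} {Ω : Set (VV a × VV b)} (hΩ : IsCone Ω)
    {P : Fin (a + 1) → ℂ[X]} {d : ℕ} {Q : Fin (b + 1) → ℂ[X]} {e : ℕ} (h : IsRat Ω P d Q e) :
    IsRat Ω (fun i => reflect d (P i)) d (fun i => reflect e (Q i)) e := by
  have k : ∀ (p : ℂ[X]) (N : ℕ), p.natDegree ≤ N → (reflect N p).natDegree ≤ N := fun p N hp =>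
    natDegree_le_iff_coeff_eq_zero.2 fun j hj => by
      rw [coeff_reflect, revAt_eq_self_of_lt hj]
      exact coeff_eq_zero_of_natDegree_lt (hp.trans_lt hj)
  have t : ∀ {n : ℕ} (R : Fin (n + 1) → ℂ[X]) (N : ℕ),
      ptop (fun i => reflect N (R i)) N = pev R 0 := fun R N => by
    ext i
    simp [pev, ptop, ← coeff_zero_eq_eval_zero, coeff_reflect]
  refine ⟨fun i => k _ _ (h.degP i), fun i => k _ _ (h.degQ i), fun w => ?_, ?_⟩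
  · by_cases g : w = 0
    · simpa only [g, pev_reflect_zero] using h.top
    · have := hΩ.smul _ _ (w ^ d) (w ^ e) (pow_ne_zero _ g) (pow_ne_zero _ g) (h.mem w⁻¹)
      rwa [pev_reflect P d h.degP (inv_ne_zero g), pev_reflect Q e h.degQ (inv_ne_zero g),
        inv_inv, smul_smul, smul_smul, ← mul_pow, ← mul_pow, mul_inv_cancel₀ g, one_pow, one_pow,
        one_smul, one_smul] at this
  · rw [t, t]
    exact h.mem 0

/-- a cut-off function -/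
noncomputable def cut (t : ℝ) : ℝ := min 1 (max 0 t)

theorem continuous_cut : Continuous cut := continuous_const.min (continuous_const.max continuous_id)

theorem cut_zero {t : ℝ} (h : t ≤ 0) : cut t = 0 := by simp [cut, h]

theorem cut_one {t : ℝ} (h : 1 ≤ t) : cut t = 1 := by simp [cut, h]

theorem cut_nonneg (t : ℝ) : 0 ≤ cut t := le_min zero_le_one (le_max_left _ _)

theorem cut_le (t : ℝ) : cut t ≤ 1 := min_le_left _ _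

theorem norm_exp_mix {x y : ℂ} {t ρ : ℝ} (hρ : 0 < ρ) (h0 : 0 ≤ t) (h1 : t ≤ 1)
    (hx : ‖Complex.exp x‖ ≤ ρ) (hy : ‖Complex.exp y‖ ≤ ρ) :
    ‖Complex.exp ((1 - t) * x + t * y)‖ ≤ ρ := by
  rw [Complex.norm_exp, ← Real.le_log_iff_exp_le hρ] at hx hy ⊢
  simp only [Complex.add_re, Complex.mul_re, Complex.sub_re, Complex.one_re, Complex.ofReal_re,
    Complex.sub_im, Complex.one_im, Complex.ofReal_im]
  nlinarith

/-- The choice of the centre of the attached discs. -/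
theorem exists_cc {Z : Finset ℂ} {w : ℂ → ℂ} {A B : ℂ → ℂ → ℂ} {s : Set ℂ} {ρ ε : ℝ}
    (hρ : 0 < ρ) (hε : 0 < ε) (g : ∀ c ∈ Z, ∀ x ∈ Z, c ≠ x → 2 * ρ < ‖c - x‖)
    (hw : ContinuousOn w s) (hA : ∀ c ∈ Z, ContinuousOn (A c) s ∧ ContinuousOn (B c) s ∧
      ∀ ζ ∈ s, Complex.exp (A c ζ) = w ζ - c)
    (h1 : 2 * ε ≤ ρ ^ 2) (h2 : ∀ c ∈ Z, ∀ ζ ∈ s, ε ≤ ρ * ‖Complex.exp (A c ζ)‖)
    (h3 : ∀ ζ ∈ s, ∀ c ∈ Z, ‖w ζ - c‖ ≤ ρ → ρ / 2 ≤ ‖Complex.exp (B c ζ)‖ → ‖w ζ - c‖ ≤ ρ / 2) :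
    ∃ cc : ℂ → ℂ, ContinuousOn cc s ∧ ∀ ζ ∈ s,
      (cc ζ = w ζ ∧ ∀ c ∈ Z, ‖w ζ - c‖ ≤ ρ → ‖Complex.exp (B c ζ)‖ ≤ ρ) ∨
      ∃ c ∈ Z, ‖w ζ - c‖ ≤ ρ ∧ ρ / 2 ≤ ‖Complex.exp (B c ζ)‖ ∧ cc ζ ≠ c ∧ ‖cc ζ - c‖ ≤ ρ ∧
        (ε / (cc ζ - c) = Complex.exp (B c ζ) ∨
          (‖Complex.exp (B c ζ)‖ ≤ ρ ∧ ‖ε / (cc ζ - c)‖ ≤ ρ)) := by
  set χ : ℂ → ℂ → ℝ := fun c ζ =>
    cut (2 * ‖Complex.exp (B c ζ)‖ / ρ - 1) * cut (2 - 2 * ‖w ζ - c‖ / ρ) with hχ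
  have hχc : ∀ c ∈ Z, ContinuousOn (fun ζ => (χ c ζ : ℂ)) s := fun c hc =>
    Complex.continuous_ofReal.comp_continuousOn ((continuous_cut.comp_continuousOn
      (((continuousOn_const.mul (hA c hc).2.1.cexp.norm).div_const ρ).sub continuousOn_const)).mul
      (continuous_cut.comp_continuousOn (continuousOn_const.sub
        ((continuousOn_const.mul (hw.sub continuousOn_const).norm).div_const ρ))))
  have he : (ε : ℂ) = Complex.exp (Real.log ε : ℝ) := by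
    rw [← Complex.ofReal_exp, Real.exp_log hε]
  have z1 : ∀ c ζ, ρ < ‖w ζ - c‖ → χ c ζ = 0 := fun c ζ h => by
    have : 2 - 2 * ‖w ζ - c‖ / ρ ≤ 0 := by
      rw [sub_nonpos, le_div_iff₀ hρ]
      linarith
    simp only [hχ, cut_zero this, mul_zero]
  have z2 : ∀ c ζ, ‖Complex.exp (B c ζ)‖ < ρ / 2 → χ c ζ = 0 := fun c ζ h => by
    have : 2 * ‖Complex.exp (B c ζ)‖ / ρ - 1 ≤ 0 := by
      rw [sub_nonpos, div_le_iff₀ hρ]
      linarith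
    simp only [hχ, cut_zero this, zero_mul]
  refine ⟨fun ζ => w ζ + ∑ c ∈ Z, (Complex.exp ((1 - χ c ζ) * A c ζ +
      χ c ζ * ((Real.log ε : ℝ) - B c ζ)) - Complex.exp (A c ζ)),
    hw.add (continuousOn_finsetSum _ fun c hc => ((((continuousOn_const.sub (hχc c hc)).mul
      (hA c hc).1).add ((hχc c hc).mul (continuousOn_const.sub (hA c hc).2.1))).cexp).sub
        (hA c hc).1.cexp), fun ζ hζ => ?_⟩
  beta_reduce
  by_cases k : ∃ c ∈ Z, ‖w ζ - c‖ ≤ ρ ∧ ρ / 2 ≤ ‖Complex.exp (B c ζ)‖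
  · obtain ⟨c, hc, k1, k2⟩ := k
    have k3 := h3 ζ hζ c hc k1 k2
    have k4 := (hA c hc).2.2 ζ hζ
    rw [← Finset.sum_erase_add _ _ hc, Finset.sum_eq_zero fun x hx => by
      rw [z1 x ζ (far g hc k1 hx)]; simp, zero_add]
    have k5 : χ c ζ = cut (2 * ‖Complex.exp (B c ζ)‖ / ρ - 1) := by
      have : 1 ≤ 2 - 2 * ‖w ζ - c‖ / ρ := by
        have : 2 * ‖w ζ - c‖ / ρ ≤ 1 := by
          rw [div_le_iff₀ hρ]
          linarith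
        linarith
      simp only [hχ, cut_one this, mul_one]
    have k6 : 0 ≤ χ c ζ := k5 ▸ cut_nonneg _
    have k7 : χ c ζ ≤ 1 := k5 ▸ cut_le _
    have k8 : ∀ y, w ζ + (y - Complex.exp (A c ζ)) - c = y := fun y => by rw [k4]; ring
    have k9 : ∀ y, ‖Complex.exp ((Real.log ε : ℝ) - y)‖ = ε / ‖Complex.exp y‖ := fun y => by
      rw [Complex.exp_sub, ← he, norm_div, Complex.norm_real, Real.norm_of_nonneg hε.le]
    have n0 : ∀ y, 0 < ‖Complex.exp y‖ := fun y => norm_pos_iff.2 (Complex.exp_ne_zero y)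
    refine Or.inr ⟨c, hc, k1, k2, sub_ne_zero.1 ?_, ?_, ?_⟩
    · rw [k8]
      exact Complex.exp_ne_zero _
    · rw [k8]
      refine norm_exp_mix hρ k6 k7 (k4 ▸ k1) ?_
      rw [k9, div_le_iff₀ (n0 _)]
      nlinarith
    · rw [k8]
      by_cases k10 : ‖Complex.exp (B c ζ)‖ ≤ ρ
      · refine Or.inr ⟨k10, ?_⟩
        rw [he, ← Complex.exp_sub, show ((Real.log ε : ℝ) : ℂ) - ((1 - χ c ζ) * A c ζ +
          χ c ζ * ((Real.log ε : ℝ) - B c ζ)) = (1 - χ c ζ) * ((Real.log ε : ℝ) - A c ζ) +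
            χ c ζ * B c ζ by ring]
        refine norm_exp_mix hρ k6 k7 ?_ k10
        rw [k9, div_le_iff₀ (n0 _)]
        exact h2 c hc ζ hζ
      · left
        have : 1 ≤ 2 * ‖Complex.exp (B c ζ)‖ / ρ - 1 := by
          rw [le_sub_iff_add_le, le_div_iff₀ hρ]
          linarith [not_le.1 k10]
        rw [k5, cut_one this, he, ← Complex.exp_sub]
        congr 1
        push_cast
        ring
  · have k1 : ∀ c ∈ Z, ‖w ζ - c‖ ≤ ρ → ‖Complex.exp (B c ζ)‖ < ρ / 2 := fun c hc g =>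
      not_le.1 fun g' => k ⟨c, hc, g, g'⟩
    refine Or.inl ⟨?_, fun c hc g => by linarith [k1 c hc g]⟩
    rw [Finset.sum_eq_zero fun c hc => ?_, add_zero]
    have : χ c ζ = 0 := (le_or_gt ‖w ζ - c‖ ρ).elim (fun g => z2 c ζ (k1 c hc g)) (z1 c ζ)
    rw [this]
    simp

theorem Smo.near_cc {n : ℕ} {Z : Finset ℂ} {P W : Fin (n + 1) → ℂ[X]}
    {P' : ℂ → Fin (n + 1) → ℂ[X]} {d : ℕ} {d' : ℂ → ℕ} {ε x w : ℂ} {δ ρ : ℝ} {y : ℂ → ℂ}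
    {v : VV n} (h : Smo Z P P' d d' ε W) (s : Sml δ ρ Z P P')
    (h0 : ∀ c ∈ Z, pev P c = pev (P' c) 0) (hδ : δ ≤ 1 / 8) (hρ : 0 < ρ) (hε : ‖ε‖ ≤ ρ ^ 2)
    (hw : ∀ c ∈ Z, w ≠ c ∧ ‖ε / (w - c)‖ ≤ ρ)
    (H : (x = w ∧ ∀ c ∈ Z, ‖w - c‖ ≤ ρ → ‖y c‖ ≤ ρ) ∨
      ∃ c ∈ Z, ‖w - c‖ ≤ ρ ∧ ρ / 2 ≤ ‖y c‖ ∧ x ≠ c ∧ ‖x - c‖ ≤ ρ ∧
        (ε / (x - c) = y c ∨ (‖y c‖ ≤ ρ ∧ ‖ε / (x - c)‖ ≤ ρ)))
    (hA : (∀ c ∈ Z, ‖w - c‖ ≤ ρ → ‖y c‖ ≤ ρ) → Near δ (pev P w) v)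
    (hB : ∀ c ∈ Z, ‖w - c‖ ≤ ρ → ρ / 2 ≤ ‖y c‖ → Near δ (pev (P' c) (y c)) v) :
    Near (10 * δ) (pev W x) v := by
  rcases H with ⟨rfl, h1⟩ | ⟨c, hc, h1, h2, h3, h4, h5⟩
  · have h5 := (hA h1).pos
    exact (trans' ((h.nearA s (fun g => (hw x g).1 rfl) fun c hc => (hw c hc).2).symm
      (by linarith)) (hA h1) (by linarith)).mono (by linarith)
  have h6 := hB c hc h1 h2
  have h7 := h6.pos
  have h8 := (h.nearB s h0 hρ hε hc h3 h4).symm (by linarith)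
  rcases h5 with h5 | ⟨h5, h9⟩
  · rw [h5] at h8
    exact (trans' h8 h6 (by linarith)).mono (by linarith)
  · exact (trans' (trans' (trans' h8 ((s.near0 hc h9).symm (by linarith)) (by linarith))
      (s.near0 hc h5) (by linarith)) h6 (by linarith)).mono (by linarith)

end Pool.Agent.Lib.MP_879098_ag.Sm.Sta
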