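import Pool.Agent.Lib.MP_879098_ag.QDefs
import Pool.Agent.Lib.MP_879098_ag.SStarB

/-! First order closeness of parametrised rational curves: definitions and basic tools. -/

namespace Pool.Agent.Lib.MP_879098_ag.Q2

open Polynomial Filter Topology Metric

/-- tuples of polynomials -/
abbrev Tup (n : ℕ) : Type := Fin (n + 1) → ℂ[X]

/-- the closed unit disc -/
abbrev D1 : Set ℂ := closedBall 0 1

/-- the unit circle -/
abbrev S1 : Set ℂ := sphere 0 1

/-- the unit interval -/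
abbrev I1 : Set ℝ := Set.Icc 0 1

variable {n : ℕ}

/-- two independent vectors -/
def I2 (u v : VV n) : Prop := ∀ a b : ℂ, a • u + b • v = 0 → a = 0 ∧ b = 0

/-- three independent vectors -/
def I3 (u y z : VV n) : Prop := ∀ a b c : ℂ, a • u + b • y + c • z = 0 → a = 0 ∧ b = 0 ∧ c = 0

/-- an open cone of nonzero vectors -/
structure OC (N : Set (VV n)) : Prop where
  isOpen : IsOpen N
  ne : ∀ u ∈ N, u ≠ 0
  smul : ∀ u ∈ N, ∀ a : ℂ, a ≠ 0 → a • u ∈ N

/-- an open set of flags (point, line), written with pairs of vectors -/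
structure Sat (Ω : Set (VV n × VV n)) : Prop where
  isOpen : IsOpen Ω
  ind : ∀ u v, (u, v) ∈ Ω → I2 u v
  sat : ∀ u v (a b c : ℂ), a ≠ 0 → b ≠ 0 → (u, v) ∈ Ω → (a • u, b • v + c • u) ∈ Ω

/-- all flags at `u` in the plane spanned by `y` and `z` are in `Ω` -/
def GT (Ω : Set (VV n × VV n)) (u y z : VV n) : Prop :=
  ∀ a b : ℂ, a ≠ 0 ∨ b ≠ 0 → (u, a • y + b • z) ∈ Ω

/-- the flags that stay in `Ω` under all linear maps close to the identity -/
def shr (η : ℝ) (Ω : Set (VV n × VV n)) : Set (VV n × VV n) :=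
  {p | ∀ A : VV n →L[ℂ] VV n, ‖A - 1‖ ≤ η → (A p.1, A p.2) ∈ Ω}

/-- the flags tangent to `Y` -/
def TF (Y : Set (PP n)) : Set (VV n × VV n) := {p | IsTangent Y p.1 p.2 ∧ I2 p.1 p.2}

/-- the derivative of a tuple -/
noncomputable def der (P : Tup n) : Tup n := fun i => derivative (P i)

/-- the flag of a curve at a finite parameter -/
noncomputable def fl (P : Tup n) (w : ℂ) : VV n × VV n := (pev P w, pev (der P) w)

/-- the curve in the chart at infinity -/
noncomputable def rf (d : ℕ) (P : Tup n) : Tup n := fun i => reflect d (P i)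

/-- an immersed rational curve of degree `d` with all flags in `Ω` -/
structure Cur (Ω : Set (VV n × VV n)) (P : Tup n) (d : ℕ) : Prop where
  pos : 1 ≤ d
  deg : ∀ i, (P i).natDegree ≤ d
  mem : ∀ w, fl P w ∈ Ω
  top : (ptop P d, ptop P (d - 1)) ∈ Ω

/-- the curve has a flag in `O` -/
def Meets (O : Set (VV n × VV n)) (P : Tup n) : Prop := ∃ w, fl P w ∈ O

/-- `p` is a flag of the curve -/
def FlagOf (P : Tup n) (d : ℕ) (p : VV n × VV n) : Prop :=
  (∃ w, p = fl P w) ∨ p = (ptop P d, ptop P (d - 1))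

/-- the homogeneous form of a tuple -/
noncomputable def hom (P : Tup n) (d : ℕ) (x : ℂ × ℂ) : VV n :=
  ∑ k ∈ Finset.range (d + 1), (x.1 ^ (d - k) * x.2 ^ k) • ptop P k

/-- the image of a tuple under a linear map -/
noncomputable def lin (A : VV n →L[ℂ] VV n) (P : Tup n) : Tup n :=
  fun i => ∑ j, C (A (Pi.single j 1) i) * P j

/-- an affine change of the parameter -/
noncomputable def afc (c l : ℂ) (P : Tup n) : Tup n := fun i => (P i).comp (C c + C l * X)

/-- the smoothing of a curve with finitely many curves attached -/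
noncomputable def star (Z : Finset ℂ) (P : Tup n) (P' : ℂ → Tup n) (d' : ℂ → ℕ) (ε : ℂ) : Tup n :=
  fun i => P i * ∏ c ∈ Z, (X - C c) ^ d' c + ∑ c ∈ Z, (∏ x ∈ Z.erase c, (X - C x) ^ d' x) *
    ∑ k ∈ Finset.range (d' c), C ((P' c i).coeff (k + 1) * ε ^ (k + 1)) * (X - C c) ^ (d' c - (k + 1))

/-- the Riemann-Hilbert polynomial -/
noncomputable def rhF (p : Tup n) (Q : ℕ → Tup n) (N M D : ℕ) (t : ℂ) : Tup n :=
  fun i => p i + ∑ k ∈ Finset.Icc 1 D, C (t ^ k) * X ^ (k * M - N) * Q k i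

section Lift

variable {W : Type} [NormedAddCommGroup W] [NormedSpace ℂ W]

/-- a projector of rank one -/
structure R1 (T : W →L[ℂ] W) : Prop where
  idem : ∀ y, T (T y) = T y
  ex : ∃ y, y ≠ 0 ∧ T y = y
  rank : ∀ y z, y ≠ 0 → T y = y → T z = z → ∃ c : ℂ, z = c • y

/-- a line bundle on the cone `N`, given by a field of projectors -/
structure PF (N : Set (VV n)) (π : VV n → W →L[ℂ] W) : Prop where
  cont : ContinuousOn π N
  smul : ∀ u ∈ N, ∀ a : ℂ, a ≠ 0 → π (a • u) = π u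
  r1 : ∀ u ∈ N, R1 (π u)

/-- a nowhere vanishing section -/
def Lf {α : Type} [TopologicalSpace α] (S : Set α) (φ : α → W →L[ℂ] W) (L : α → W) : Prop :=
  ContinuousOn L S ∧ ∀ x ∈ S, L x ≠ 0 ∧ φ x (L x) = L x

/-- a section over a cone that is homogeneous of degree `k` -/
def Dg {E : Type} [NormedAddCommGroup E] [NormedSpace ℂ E] (Y : Set E) (φ : E → W →L[ℂ] W)
    (k : ℤ) : Prop :=
  ∃ L, Lf Y φ L ∧ ∀ x ∈ Y, ∀ s : ℂ, s ≠ 0 → L (s • x) = s ^ k • L x

/-- the degree of the bundle `π` on a rational curve -/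
def DgP (π : VV n → W →L[ℂ] W) (P : Tup n) (d : ℕ) (k : ℤ) : Prop :=
  Dg {0}ᶜ (fun x => π (hom P d x)) k

/-- the quotient of two sections on the circle has winding number `k` -/
def Rel (k : ℤ) (L M : ℂ → W) : Prop :=
  ∃ h : ℂ → ℂ, ContinuousOn h S1 ∧ ∀ ζ ∈ S1, L ζ = (ζ ^ k * Complex.exp (h ζ)) • M ζ

/-- the degree of a bundle on the disc relative to a section on the circle -/
def BD (φ : ℂ → W →L[ℂ] W) (l : ℂ → W) (k : ℤ) : Prop := ∃ L, Lf D1 φ L ∧ Rel k L l

end Lift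

/-- the curve `F` has the class of the sum of the `m i` times `R i` -/
def Cl {ι : Type} [Fintype ι] (N : Set (VV n)) (R : ι → Tup n) (d : ι → ℕ) (F : Tup n) (D : ℕ)
    (m : ι → ℕ) : Prop :=
  ∀ (K : ℕ) (π : VV n → VV K →L[ℂ] VV K), PF N π → ∀ k : ι → ℤ,
    (∀ i, DgP π (R i) (d i) (k i)) → DgP π F D (∑ i, m i * k i)

/-- a tree of rational curves in `Y`; each curve is attached to its parent at the parameter zero -/
structure Tree {ι : Type} (Y : Set (PP n)) (R : ι → Tup n) (d : ι → ℕ) : Prop where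
  pos : ∀ i, 1 ≤ d i
  deg : ∀ i j, (R i j).natDegree ≤ d i
  mem : ∀ i p, FlagOf (R i) (d i) p → p ∈ TF Y
  node : ∃ (rk : ι → ℕ) (par : ι → ι) (y : ι → VV n) (root : ι),
    (∀ i, i ≠ root → rk (par i) < rk i) ∧
    ∀ i, FlagOf (R (par i)) (d (par i)) (pev (R i) 0, y i) ∧
      I3 (pev (R i) 0) (y i) (pev (der (R i)) 0)

/-! ### Independence -/

theorem i2_iff {u v : VV n} : LinearIndependent ℂ ![u, v] ↔ I2 u v := LinearIndependent.pair_iff

theorem i3_iff {u y z : VV n} : LinearIndependent ℂ ![u, y, z] ↔ I3 u y z := by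
  rw [Fintype.linearIndependent_iff]
  refine ⟨fun h a b c e => ?_, fun h g e => ?_⟩
  · have := h ![a, b, c] (by simpa [Fin.sum_univ_three] using e)
    exact ⟨this 0, this 1, this 2⟩
  · obtain ⟨h0, h1, h2⟩ := h (g 0) (g 1) (g 2) (by simpa [Fin.sum_univ_three] using e)
    intro i
    fin_cases i
    exacts [h0, h1, h2]

theorem I2.ne {u v : VV n} (h : I2 u v) : u ≠ 0 := fun e => by
  simpa using (h 1 0 (by simp [e])).1

theorem I2.ne_smul {u v : VV n} (h : I2 u v) (c : ℂ) : v ≠ c • u := fun e => by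
  simpa using (h (-c) 1 (by simp [e])).2

theorem i2_of {u v : VV n} (hu : u ≠ 0) (h : ∀ c : ℂ, v ≠ c • u) : I2 u v := fun a b e => by
  have hb : b = 0 := by
    by_contra hb
    refine h (-(a / b)) ?_
    have : b • v = -(a • u) := eq_neg_of_add_eq_zero_right e
    rw [← inv_smul_smul₀ hb v, this, smul_neg, smul_smul, neg_smul, div_eq_inv_mul]
  rw [hb, zero_smul, add_zero] at e
  exact ⟨(smul_eq_zero.1 e).resolve_right hu, hb⟩

theorem I2.sat {u v : VV n} (h : I2 u v) {a b : ℂ} (c : ℂ) (ha : a ≠ 0) (hb : b ≠ 0) :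
    I2 (a • u) (b • v + c • u) := fun s t e => by
  obtain ⟨h1, h2⟩ := h (s * a + t * c) (t * b) (by
    rw [← e]; simp only [smul_add, smul_smul, add_smul]; abel)
  have ht : t = 0 := (mul_eq_zero.1 h2).resolve_right hb
  rw [ht, zero_mul, add_zero] at h1
  exact ⟨(mul_eq_zero.1 h1).resolve_right ha, ht⟩

theorem isOpen_i2 : IsOpen {p : VV n × VV n | I2 p.1 p.2} := by
  simp only [← i2_iff]
  exact isOpen_setOfPred_linearIndependent.preimage (f := fun p : VV n × VV n => ![p.1, p.2])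
    (by fun_prop)

theorem isOpen_i3 : IsOpen {p : VV n × VV n × VV n | I3 p.1 p.2.1 p.2.2} := by
  simp only [← i3_iff]
  exact isOpen_setOfPred_linearIndependent.preimage
    (f := fun p : VV n × VV n × VV n => ![p.1, p.2.1, p.2.2]) (by fun_prop)

theorem I3.comb {u y z : VV n} (h : I3 u y z) {a b : ℂ} (hab : a ≠ 0 ∨ b ≠ 0) :
    I2 u (a • y + b • z) := fun s t e => by
  obtain ⟨h1, h2, h3⟩ := h s (t * a) (t * b) (by
    rw [← e]; simp only [smul_add, smul_smul]; abel)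
  refine ⟨h1, ?_⟩
  rcases hab with g | g
  exacts [(mul_eq_zero.1 h2).resolve_right g, (mul_eq_zero.1 h3).resolve_right g]

theorem I3.swap {u y z : VV n} (h : I3 u y z) : I3 u z y := fun a b c e => by
  obtain ⟨h1, h2, h3⟩ := h a c b (by rw [← e]; abel)
  exact ⟨h1, h3, h2⟩

theorem I3.left {u y z : VV n} (h : I3 u y z) : I2 u y := by
  simpa using h.comb (a := 1) (b := 0) (.inl one_ne_zero)

/-! ### Saturated sets -/

section SatApi

variable {Ω Ω' : Set (VV n × VV n)} {u v y z : VV n}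

theorem Sat.ne (h : Sat Ω) (m : (u, v) ∈ Ω) : u ≠ 0 := (h.ind u v m).ne

theorem Sat.smul (h : Sat Ω) (m : (u, v) ∈ Ω) {a b : ℂ} (ha : a ≠ 0) (hb : b ≠ 0) :
    (a • u, b • v) ∈ Ω := by simpa using h.sat u v a b 0 ha hb m

theorem Sat.inter (h : Sat Ω) (h' : Sat Ω') : Sat (Ω ∩ Ω') :=
  ⟨h.isOpen.inter h'.isOpen, fun u v m => h.ind u v m.1,
    fun u v a b c ha hb m => ⟨h.sat u v a b c ha hb m.1, h'.sat u v a b c ha hb m.2⟩⟩

theorem OC.sat {N : Set (VV n)} (h : OC N) : Sat {p : VV n × VV n | p.1 ∈ N ∧ I2 p.1 p.2} :=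
  ⟨(h.isOpen.preimage continuous_fst).inter isOpen_i2, fun _ _ m => m.2,
    fun u _ a _ c ha hb m => ⟨h.smul u m.1 a ha, m.2.sat c ha hb⟩⟩

theorem oc_near {δ : ℝ} (hδ : δ ≤ 1) (u : VV n) : OC {v | Near δ u v} :=
  ⟨isOpen_near δ u, fun _ h => Near.ne' h hδ, fun _ h _ ha => Near.smul_right h ha⟩

theorem shr_subset {η : ℝ} (hη : 0 ≤ η) : shr η Ω ⊆ Ω := fun p h => by
  simpa using h 1 (by simpa using hη)

theorem shr_mono {η η' : ℝ} (h : η ≤ η') (h' : Ω ⊆ Ω') : shr η' Ω ⊆ shr η Ω' :=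
  fun _ m A hA => h' (m A (hA.trans h))

theorem Sat.shr (h : Sat Ω) {η : ℝ} (hη : 0 ≤ η) : Sat (shr η Ω) := by
  refine ⟨isOpen_iff_mem_nhds.2 fun p hp => ?_, fun u v m => h.ind u v (shr_subset hη m),
    fun u v a b c ha hb m A hA => ?_⟩
  · have := (isCompact_closedBall (1 : VV n →L[ℂ] VV n) η).eventually_forall_of_forall_eventually
      (x₀ := p) (P := fun q A => (A q.1, A q.2) ∈ Ω) fun A hA =>
        (show ContinuousAt (fun z : (VV n × VV n) × (VV n →L[ℂ] VV n) => (z.2 z.1.1, z.2 z.1.2))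
          (p, A) by fun_prop).eventually_mem
          (h.isOpen.mem_nhds (hp A (mem_closedBall_iff_norm.1 hA)))
    filter_upwards [this] with q hq A hA using hq A (mem_closedBall_iff_norm.2 hA)
  · simpa using h.sat _ _ a b c ha hb (m A hA)

theorem exists_shr (h : IsOpen Ω) {K : Set (VV n × VV n)} (hK : IsCompact K) (hs : K ⊆ Ω) :
    ∃ η : ℝ, 0 < η ∧ K ⊆ shr η Ω := by
  have := hK.eventually_forall_of_forall_eventually (x₀ := (1 : VV n →L[ℂ] VV n))
    (P := fun A q => (A q.1, A q.2) ∈ Ω) fun q hq =>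
      (show ContinuousAt (fun z : (VV n →L[ℂ] VV n) × (VV n × VV n) => (z.1 z.2.1, z.1 z.2.2))
        (1, q) by fun_prop).eventually_mem (h.mem_nhds (hs hq))
  obtain ⟨η, h0, h1⟩ := nhds_basis_closedBall.eventually_iff.1 this
  exact ⟨η, h0, fun q hq A hA => h1 (mem_closedBall_iff_norm.2 hA) q hq⟩

theorem GT.left (h : GT Ω u y z) : (u, y) ∈ Ω := by simpa using h 1 0 (.inl one_ne_zero)

theorem GT.swap (h : GT Ω u y z) : GT Ω u z y := fun a b hab => by
  rw [add_comm]; exact h b a hab.symm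

theorem GT.mono (h : GT Ω u y z) (hs : Ω ⊆ Ω') : GT Ω' u y z := fun a b hab => hs (h a b hab)

theorem GT.sat (hΩ : Sat Ω) (h : GT Ω u y z) {s a b : ℂ} (c c' : ℂ) (hs : s ≠ 0) (ha : a ≠ 0)
    (hb : b ≠ 0) : GT Ω (s • u) (a • y + c • u) (b • z + c' • u) := fun α β hab => by
  have := hΩ.sat _ _ s 1 (α * c + β * c') hs one_ne_zero
    (h (α * a) (β * b) (hab.imp (mul_ne_zero · ha) (mul_ne_zero · hb)))
  convert this using 2
  simp only [smul_add, smul_smul, add_smul, one_mul]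
  abel

theorem isOpen_gt (hΩ : Sat Ω) : IsOpen {t : VV n × VV n × VV n | GT Ω t.1 t.2.1 t.2.2} := by
  refine isOpen_iff_mem_nhds.2 fun t ht => ?_
  have := (isCompact_sphere (0 : ℂ × ℂ) 1).eventually_forall_of_forall_eventually (x₀ := t)
    (P := fun t q => (t.1, q.1 • t.2.1 + q.2 • t.2.2) ∈ Ω) fun q hq =>
      (show ContinuousAt (fun z : (VV n × VV n × VV n) × (ℂ × ℂ) =>
        (z.1.1, z.2.1 • z.1.2.1 + z.2.2 • z.1.2.2)) (t, q) by fun_prop).eventually_mem
        (hΩ.isOpen.mem_nhds (ht q.1 q.2 (by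
          by_contra! c
          have : q = 0 := Prod.ext c.1 c.2
          simp [this] at hq)))
  filter_upwards [this] with s hs a b hab
  have h0 : ‖(a, b)‖ ≠ 0 := norm_ne_zero_iff.2 fun e => by
    rw [Prod.mk_eq_zero] at e
    exact hab.elim (· e.1) (· e.2)
  have h1 : ((‖(a, b)‖ : ℝ) : ℂ) ≠ 0 := Complex.ofReal_ne_zero.2 h0
  have := hΩ.smul (hs (((‖(a, b)‖ : ℝ) : ℂ)⁻¹ • (a, b)) (by
    rw [mem_sphere_zero_iff_norm, norm_smul, norm_inv, Complex.norm_real, norm_norm,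
      inv_mul_cancel₀ h0])) one_ne_zero h1
  simpa only [Prod.smul_fst, Prod.smul_snd, smul_eq_mul, one_smul, smul_add, smul_smul,
    mul_inv_cancel_left₀ h1] using this

theorem sat_gt (hΩ : Sat Ω) (z : VV n) : Sat {p : VV n × VV n | GT Ω p.1 p.2 z} :=
  ⟨(isOpen_gt hΩ).preimage (f := fun p : VV n × VV n => (p.1, p.2, z)) (by fun_prop),
    fun u v m => hΩ.ind u v (GT.left m), fun _ _ a b c ha hb m => by
      simpa using GT.sat hΩ m c 0 ha hb one_ne_zero⟩

/-- change of the parameter and of the scale -/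
theorem Sat.reparam (hΩ : Sat Ω) {F G : ℂ → VV n} {s φ : ℂ → ℂ} {w s' φ' : ℂ} {F' G' : VV n}
    (hF : HasDerivAt F F' w) (hG : HasDerivAt G G' (φ w)) (hs : HasDerivAt s s' w)
    (hφ : HasDerivAt φ φ' w) (s0 : s w ≠ 0) (φ0 : φ' ≠ 0)
    (e : ∀ᶠ x in 𝓝 w, F x = s x • G (φ x)) (m : (G (φ w), G') ∈ Ω) : (F w, F') ∈ Ω := by
  have h1 := (hs.smul (hG.scomp w hφ)).congr_of_eventuallyEq (f₁ := F) e
  rw [hF.unique h1, e.self_of_nhds, smul_smul]
  exact hΩ.sat _ _ _ _ _ s0 (mul_ne_zero s0 φ0) m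

/-- flags of a family of curves -/
theorem tube {E : Type} [NormedAddCommGroup E] [NormedSpace ℂ E] (hΩ : IsOpen Ω)
    {H : E × ℂ → VV n} {e : E} {K : Set ℂ} (hK : IsCompact K)
    (hH : ∀ w ∈ K, ContDiffAt ℂ 1 H (e, w))
    (h : ∀ w ∈ K, (H (e, w), deriv (fun w => H (e, w)) w) ∈ Ω) :
    ∀ᶠ x in 𝓝 e, ∀ w ∈ K, (H (x, w), deriv (fun w => H (x, w)) w) ∈ Ω := by
  refine hK.eventually_forall_of_forall_eventually fun w hw => ?_
  have k : ∀ p : E × ℂ, DifferentiableAt ℂ H p →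
      deriv (fun w => H (p.1, w)) p.2 = fderiv ℂ H p (0, 1) := fun p hp =>
    (hp.hasFDerivAt.comp_hasDerivAt p.2
      ((hasDerivAt_const p.2 p.1).prodMk (hasDerivAt_id p.2))).deriv
  have c : ContinuousAt (fun p : E × ℂ => (H p, fderiv ℂ H p (0, 1))) (e, w) :=
    (hH w hw).continuousAt.prodMk
      (((hH w hw).continuousAt_fderiv one_ne_zero).clm_apply continuousAt_const)
  have m := h w hw
  rw [k (e, w) ((hH w hw).differentiableAt one_ne_zero)] at m
  filter_upwards [c.eventually_mem (hΩ.mem_nhds m), (hH w hw).eventually (by simp)] with p h1 h2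
  rwa [k p (h2.differentiableAt one_ne_zero)]

end SatApi

end Pool.Agent.Lib.MP_879098_ag.Q2
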