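import Pool.Agent.Lib.MP_879098_ag.QCur
import Pool.Agent.Lib.MP_879098_ag.Morph

/-! Tangent spaces of a smooth projective variety. -/

namespace Pool.Agent.Lib.MP_879098_ag.Q2

open Polynomial Filter Topology Metric

variable {n : ℕ} {Y : Set (PP n)} {u v y z : VV n} {Ω : Set (VV n × VV n)}

theorem cone_ne (h : u ∈ cone Y) : u ≠ 0 := by
  obtain ⟨x, -, hx⟩ := h
  exact hx.ne

theorem cone_smul (h : u ∈ cone Y) {a : ℂ} (ha : a ≠ 0) : a • u ∈ cone Y := by
  obtain ⟨x, h1, hx⟩ := h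
  exact ⟨x, h1, hx.smul ha⟩

theorem tan_mem (h : IsTangent Y u v) : u ∈ cone Y := by
  obtain ⟨γ, h0, -, h2⟩ := h
  exact h0 ▸ h2.self_of_nhds

theorem tan_arc {γ : ℂ → VV n} {w : ℂ} (h : HasDerivAt γ v w) (hm : ∀ᶠ t in 𝓝 w, γ t ∈ cone Y) :
    IsTangent Y (γ w) v := by
  have h1 : Tendsto (fun t : ℂ => w + t) (𝓝 0) (𝓝 w) := by
    simpa using (continuous_const_add w).tendsto 0
  exact ⟨fun t => γ (w + t), by simp, HasDerivAt.comp_const_add w 0 (by rwa [add_zero]),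
    h1.eventually hm⟩

theorem tan_self (h : u ∈ cone Y) : IsTangent Y u u := by
  have h1 : HasDerivAt (fun t : ℂ => t • u) u 1 := by
    simpa using (hasDerivAt_id (1 : ℂ)).smul_const u
  have h2 := tan_arc (Y := Y) h1 (by
    filter_upwards [eventually_ne_nhds (one_ne_zero (α := ℂ))] with t ht using cone_smul h ht)
  rwa [one_smul] at h2

theorem tan_smul (h : IsTangent Y u v) (c : ℂ) : IsTangent Y u (c • v) := by
  obtain ⟨γ, h0, h1, h2⟩ := h
  have h3 : HasDerivAt (fun t : ℂ => c * t) c 0 := by simpa using (hasDerivAt_id (0 : ℂ)).const_mul c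
  have h4 : Tendsto (fun t : ℂ => c * t) (𝓝 0) (𝓝 0) := by simpa using h3.continuousAt.tendsto
  exact ⟨fun t => γ (c * t), by simpa using h0,
    HasDerivAt.scomp 0 (by rwa [mul_zero]) h3, h4.eventually h2⟩

theorem tan_scale (h : IsTangent Y u v) {a : ℂ} (ha : a ≠ 0) : IsTangent Y (a • u) v := by
  obtain ⟨γ, h0, h1, h2⟩ := tan_smul h a⁻¹
  refine ⟨fun t => a • γ t, by simp only [h0], ?_, h2.mono fun t ht => cone_smul ht ha⟩
  exact (h1.const_smul a).congr_deriv (smul_inv_smul₀ ha v)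

namespace Tan

theorem tan_iff {c : ℕ} {F : VV n → Fin c → ℂ} {L : VV n →L[ℂ] Fin c → ℂ}
    (hF : HasStrictFDerivAt F L u) (hL : L.range = ⊤) (hu : u ∈ cone Y)
    (he : ∀ᶠ w in 𝓝 u, F w = 0 ↔ w ∈ cone Y) : IsTangent Y u v ↔ L v = 0 := by
  constructor
  · rintro ⟨γ, rfl, h1, h2⟩
    have h3 := hF.hasFDerivAt.comp_hasDerivAt 0 h1
    refine h3.unique ((hasDerivAt_const (0 : ℂ) (0 : Fin c → ℂ)).congr_of_eventuallyEq ?_)
    filter_upwards [h2, h1.continuousAt.eventually he] with t h4 h5 using h5.2 h4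
  · intro hv
    have h1 : HasDerivAt (fun t : ℂ => t • (⟨v, hv⟩ : L.ker)) ⟨v, hv⟩ 0 := by
      simpa using (hasDerivAt_id (0 : ℂ)).smul_const (⟨v, hv⟩ : L.ker)
    have h2 : Tendsto (fun t : ℂ => t • (⟨v, hv⟩ : L.ker)) (𝓝 0) (𝓝 0) := by
      simpa using h1.continuousAt.tendsto
    have h3 := (hF.to_implicitFunction hL).hasFDerivAt
    have h6 := HasFDerivAt.comp_hasDerivAt_of_eq 0 h3 h1 (by simp)
    refine ⟨fun t => hF.implicitFunction F L hL (F u) (t • (⟨v, hv⟩ : L.ker)), by simp, h6, ?_⟩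
    filter_upwards [(tendsto_const_nhds.prodMk_nhds h2).eventually (hF.map_implicitFunction_eq hL),
      (hF.tendsto_implicitFunction hL tendsto_const_nhds h2).eventually he] with t h4 h5
    exact h5.1 (h4.trans (he.self_of_nhds.2 hu))

theorem loc (hs : IsSmooth Y) {u₀ : VV n} (h : u₀ ∈ cone Y) :
    ∃ (c : ℕ) (L : VV n → VV n →L[ℂ] Fin c → ℂ) (B : (Fin c → ℂ) →L[ℂ] VV n),
      ∀ᶠ u in 𝓝 u₀, ContinuousAt L u ∧ IsUnit (L u ∘L B) ∧
        (u ∈ cone Y → ∀ v, IsTangent Y u v ↔ L u v = 0) := by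
  obtain ⟨x, hx, hr⟩ := h
  obtain ⟨c, F, h1, h2, h3⟩ := hs x hx u₀ hr
  obtain ⟨B, hB⟩ := (fderiv ℂ F u₀).exists_rightInverse_of_surjective
    (LinearMap.range_eq_top.2 h2)
  have h4 : ∀ᶠ u in 𝓝 u₀, IsUnit (fderiv ℂ F u ∘L B) :=
    (h1.fderiv.continuousAt.clm_comp continuousAt_const).eventually_mem
      (Units.isOpen.mem_nhds (show IsUnit (fderiv ℂ F u₀ ∘L B) from hB ▸ isUnit_one))
  refine ⟨c, fderiv ℂ F, B, ?_⟩
  filter_upwards [h1.eventually_analyticAt, h4, h3.eventually_nhds] with u h5 h6 h7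
  refine ⟨h5.fderiv.continuousAt, h6, fun hu v => tan_iff h5.hasStrictFDerivAt ?_ hu h7⟩
  refine LinearMap.range_eq_top.2 fun w => ⟨B (Ring.inverse (fderiv ℂ F u ∘L B) w), ?_⟩
  exact congrArg (fun A : (Fin c → ℂ) →L[ℂ] Fin c → ℂ => A w) (Ring.mul_inverse_cancel _ h6)

theorem ell_smul (u y : VV n) (c : ℂ) : Clo.ell u (c • y) = c * Clo.ell u y := by
  simp only [Clo.ell, Pi.smul_apply, smul_eq_mul, ← mul_div_assoc, Finset.mul_sum, mul_left_comm]

end Tan

theorem tan_add (hs : IsSmooth Y) (h : IsTangent Y u y) (h' : IsTangent Y u z) :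
    IsTangent Y u (y + z) := by
  obtain ⟨c, L, B, H⟩ := Tan.loc hs (tan_mem h)
  have h1 := H.self_of_nhds.2.2 (tan_mem h)
  rw [h1, map_add, (h1 y).1 h, (h1 z).1 h', add_zero]

theorem isClosed_tan (hs : IsSmooth Y) {K : Set (VV n)} (hK : IsClosed K) (h : K ⊆ cone Y) :
    IsClosed {p : VV n × VV n | p.1 ∈ K ∧ IsTangent Y p.1 p.2} := by
  refine isOpen_compl_iff.1 (isOpen_iff_mem_nhds.2 fun p hp => ?_)
  by_cases h1 : p.1 ∈ K
  · obtain ⟨c, L, B, H⟩ := Tan.loc hs (h h1)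
    have h2 : L p.1 p.2 ≠ 0 := fun e => hp ⟨h1, (H.self_of_nhds.2.2 (h h1) _).2 e⟩
    have h3 : ContinuousAt (fun q : VV n × VV n => L q.1 q.2) p :=
      (H.self_of_nhds.1.comp continuousAt_fst).clm_apply continuousAt_snd
    filter_upwards [h3.eventually_ne h2, continuousAt_fst.eventually H] with q h4 h5 h6
    exact h4 ((h5.2.2 (h h6.1) _).1 h6.2)
  · filter_upwards [continuousAt_fst.eventually_mem (hK.isOpen_compl.mem_nhds h1)] with q h2 h3
    exact h2 h3.1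

theorem isCompact_cone (hc : IsZClosed Y) : IsCompact (cone Y ∩ sphere 0 1) := by
  obtain ⟨K, h1, h2, h3⟩ := Morph.exists_compact hc
  have h4 : cone Y ∩ sphere 0 1 = K ∩ sphere 0 1 := Set.ext fun v =>
    ⟨fun ⟨⟨x, hx, hr⟩, h5⟩ => ⟨h3 x hx v hr (mem_sphere_zero_iff_norm.1 h5), h5⟩,
      fun h5 => ⟨h2 v h5.1, h5.2⟩⟩
  rw [h4]
  exact h1.inter_right isClosed_sphere

theorem exists_proj (hs : IsSmooth Y) (hc : IsZClosed Y) :
    ∃ T : VV n → VV n →L[ℂ] VV n, ContinuousOn T (cone Y ∩ sphere 0 1) ∧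
      ∀ u ∈ cone Y ∩ sphere 0 1, (∀ v, IsTangent Y u (T u v)) ∧
        ∀ v, IsTangent Y u v → T u v = v := by
  classical
  obtain ⟨g, hg⟩ := exists_continuous_forall_mem_convex_of_local
    (X := ↥(cone Y ∩ sphere (0 : VV n) 1)) (E := VV n →L[ℂ] VV n)
    (t := fun x => {T | (∀ v, IsTangent Y x.1 (T v)) ∧ ∀ v, IsTangent Y x.1 v → T v = v})
    (fun x T h1 T' h2 a b _ _ hab => ⟨fun v => by
        have := tan_add hs (tan_smul (h1.1 v) a) (tan_smul (h2.1 v) b)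
        rwa [Complex.coe_smul, Complex.coe_smul] at this,
      fun v hv => by
        change a • T v + b • T' v = v
        rw [h1.2 v hv, h2.2 v hv, ← add_smul, hab, one_smul]⟩)
    (fun x => by
      obtain ⟨c, L, B, H⟩ := Tan.loc hs x.2.1
      refine ⟨_, continuousAt_subtype_val.eventually H,
        fun w => 1 - B ∘L Ring.inverse (L w.1 ∘L B) ∘L L w.1, fun w hw => ?_, fun w hw => ?_⟩
      · obtain ⟨h1, ⟨U, hU⟩, -⟩ := hw
        have h2 : ContinuousAt (fun w : ↥(cone Y ∩ sphere (0 : VV n) 1) => L w.1) w :=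
          h1.comp continuousAt_subtype_val
        have h3 : ContinuousAt
            (fun w : ↥(cone Y ∩ sphere (0 : VV n) 1) => Ring.inverse (L w.1 ∘L B)) w :=
          ContinuousAt.comp_of_eq (NormedRing.inverse_continuousAt U)
            (h2.clm_comp continuousAt_const) hU.symm
        exact (continuousAt_const.sub
          (continuousAt_const.clm_comp (h3.clm_comp h2))).continuousWithinAt
      · obtain ⟨-, h1, h2⟩ := hw
        refine ⟨fun v => (h2 w.2.1 _).2 ?_, fun v hv => ?_⟩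
        · have h3 := congrArg (fun A : (Fin c → ℂ) →L[ℂ] Fin c → ℂ => A (L w.1 v))
            (Ring.mul_inverse_cancel _ h1)
          change L w.1 (v - B (Ring.inverse (L w.1 ∘L B) (L w.1 v))) = 0
          rw [map_sub, sub_eq_zero]
          exact h3.symm
        · simp [(h2 w.2.1 _).1 hv])
  refine ⟨fun u => if h : u ∈ cone Y ∩ sphere (0 : VV n) 1 then g ⟨u, h⟩ else 0, ?_,
    fun u hu => ?_⟩
  · rw [continuousOn_iff_continuous_domRestrict]
    refine g.continuous.congr fun x => ?_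
    simp only [Set.domRestrict_apply, dif_pos x.2]
  · simp only [dif_pos hu]
    exact hg ⟨u, hu⟩

theorem tf_shr (hs : IsSmooth Y) (hc : IsZClosed Y) (hΩ : Sat Ω) (h : TF Y ⊆ Ω) :
    ∃ η : ℝ, 0 < η ∧ TF Y ⊆ shr η Ω := by
  have hK := isCompact_cone hc
  have h1 : IsClosed ({p : VV n × VV n | p.1 ∈ cone Y ∩ sphere 0 1 ∧ IsTangent Y p.1 p.2} ∩
      (fun p : VV n × VV n => Clo.ell p.1 p.2) ⁻¹' {0}) :=
    (Clo.continuousOn_ell continuousOn_fst continuousOn_snd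
      fun p hp => cone_ne hp.1.1).preimage_isClosed_of_isClosed
      (isClosed_tan hs hK.isClosed Set.inter_subset_left) isClosed_singleton
  obtain ⟨η, h0, hη⟩ := exists_shr hΩ.isOpen
    ((hK.prod (isCompact_sphere (0 : VV n) 1)).inter_right h1) (fun p hp => h ⟨hp.2.1.2,
      i2_of (cone_ne hp.1.1.1) fun c e => by
        have h2 : Clo.ell p.1 p.2 = 0 := hp.2.2
        have h3 := mem_sphere_zero_iff_norm.1 hp.1.2
        rw [e, Tan.ell_smul, Clo.ell_self (cone_ne hp.1.1.1), mul_one] at h2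
        rw [e, h2, zero_smul, norm_zero] at h3
        exact zero_ne_one h3⟩)
  refine ⟨η, h0, fun p hp => ?_⟩
  obtain ⟨u, v⟩ := p
  obtain ⟨h2, h3⟩ : IsTangent Y u v ∧ I2 u v := hp
  obtain ⟨a, ha, -, h4⟩ := Morph.exists_unit h3.ne
  have h5 : a • u ∈ cone Y := cone_smul (tan_mem h2) ha
  have h6 : v - Clo.ell (a • u) v • a • u ≠ 0 := by
    rw [smul_smul, sub_ne_zero]
    exact h3.ne_smul _
  obtain ⟨b, hb, -, h7⟩ := Morph.exists_unit h6
  have h8 : IsTangent Y (a • u) (b • (v - Clo.ell (a • u) v • a • u)) := by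
    rw [sub_eq_add_neg, ← neg_smul]
    exact tan_smul (tan_add hs (tan_scale h2 ha) (tan_smul (tan_self h5) _)) b
  have h9 := (hΩ.shr h0.le).sat _ _ a⁻¹ b⁻¹ (Clo.ell (a • u) v) (inv_ne_zero ha) (inv_ne_zero hb)
    (hη (a := (a • u, b • (v - Clo.ell (a • u) v • a • u)))
      ⟨⟨⟨h5, mem_sphere_zero_iff_norm.2 h4⟩, mem_sphere_zero_iff_norm.2 h7⟩,
        ⟨⟨h5, mem_sphere_zero_iff_norm.2 h4⟩, h8⟩, by
          change Clo.ell (a • u) (b • (v - Clo.ell (a • u) v • a • u)) = 0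
          rw [Tan.ell_smul, Clo.ell_sub _ _ _ (cone_ne h5), sub_self, mul_zero]⟩)
  rwa [inv_smul_smul₀ ha, inv_smul_smul₀ hb, sub_add_cancel] at h9

theorem cone_margin (hc : IsZClosed Y) {N : Set (VV n)} (hN : OC N) (h : cone Y ⊆ N) :
    ∃ δ : ℝ, 0 < δ ∧ ∀ u ∈ cone Y, ∀ v, ‖v - u‖ ≤ δ * ‖u‖ → v ∈ N := by
  obtain ⟨δ, h0, h1⟩ := (isCompact_cone hc).exists_cthickening_subset_open hN.isOpen
    (Set.inter_subset_left.trans h)
  refine ⟨δ, h0, fun u hu v hv => ?_⟩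
  obtain ⟨a, ha, h2, h3⟩ := Morph.exists_unit (cone_ne hu)
  have h4 : a • v ∈ N := h1 (mem_cthickening_of_dist_le _ (a • u) _ _
    ⟨cone_smul hu ha, mem_sphere_zero_iff_norm.2 h3⟩ (by
      rw [dist_eq_norm, ← smul_sub, norm_smul, h2,
        inv_mul_le_iff₀ (norm_pos_iff.2 (cone_ne hu)), mul_comm]
      exact hv))
  have h5 := hN.smul _ h4 a⁻¹ (inv_ne_zero ha)
  rwa [inv_smul_smul₀ ha] at h5

theorem gt_of_tan (hs : IsSmooth Y) (h : TF Y ⊆ Ω) (hy : IsTangent Y u y) (hz : IsTangent Y u z)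
    (hi : I3 u y z) : GT Ω u y z := fun a b hab =>
  h ⟨tan_add hs (tan_smul hy a) (tan_smul hz b), hi.comb hab⟩

end Pool.Agent.Lib.MP_879098_ag.Q2
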