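import Pool.Agent.Lib.MP_879098_ag.QAttach
import Pool.Agent.Lib.MP_879098_ag.QTan

/-! One rational curve of prescribed class that passes near finitely many points. -/

namespace Pool.Agent.Lib.MP_879098_ag.Q2

open Polynomial Filter Topology Metric

variable {n : ℕ} {Y : Set (PP n)} {ι : Type} [Fintype ι] {R : ι → Tup n} {d : ι → ℕ}
  {Ω : Set (VV n × VV n)} {N : Set (VV n)}

namespace Big

theorem ev_sub {O K : Set (VV n × VV n)} (hO : IsOpen O) (hK : IsCompact K) (h : K ⊆ O) :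
    ∀ᶠ η in 𝓝[>] (0 : ℝ), K ⊆ shr η O := by
  obtain ⟨η, h0, h1⟩ := exists_shr hO hK h
  filter_upwards [Ioc_mem_nhdsGT h0] with t ht using h1.trans (shr_mono ht.2 subset_rfl)

theorem ev_meets {O : Set (VV n × VV n)} (hO : IsOpen O) (Q : Tup n) :
    ∀ᶠ η in 𝓝[>] (0 : ℝ), Meets O Q → Meets (shr η O) Q := by
  by_cases h : Meets O Q
  · obtain ⟨w, hw⟩ := h
    filter_upwards [ev_sub hO isCompact_singleton (Set.singleton_subset_iff.2 hw)] with t ht _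
      using ⟨w, ht rfl⟩
  · exact .of_forall fun _ g => absurd g h

theorem ev_cur (hΩ : Sat Ω) {Q : Tup n} {e : ℕ} (h : Cur Ω Q e) :
    ∀ᶠ η in 𝓝[>] (0 : ℝ), Cur (shr η Ω) Q e := by
  filter_upwards [self_mem_nhdsWithin,
    ev_sub hΩ.isOpen ((isCompact_closedBall (0 : ℂ) 1).image (continuous_fl Q))
      (Set.image_subset_iff.2 fun w _ => h.mem w),
    ev_sub hΩ.isOpen ((isCompact_closedBall (0 : ℂ) 1).image (continuous_fl (rf e Q)))
      (Set.image_subset_iff.2 fun w _ => (h.rf hΩ).mem w)] with t h0 h1 h2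
  exact cur_of_discs (hΩ.shr (le_of_lt h0)) h.pos h.deg (r := 1) (s := 1) one_pos (by simp)
    (fun w hw => h1 ⟨w, mem_closedBall_zero_iff.2 hw, rfl⟩)
    fun w hw => h2 ⟨w, mem_closedBall_zero_iff.2 hw, rfl⟩

/-- curves of class `m` meet any finite family of sets with the property `A` -/
def Re (Ω : Set (VV n × VV n)) (N : Set (VV n)) (R : ι → Tup n) (d : ι → ℕ)
    (A : Set (VV n × VV n) → Prop) (m : ι → ℕ) : Prop :=
  ∀ s : Set (Set (VV n × VV n)), s.Finite → (∀ O ∈ s, Sat O ∧ A O) →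
    ∃ F D, Cur Ω F D ∧ (∀ O ∈ s, Meets O F) ∧ Cl N R d F D m

variable {A A' : Set (VV n × VV n) → Prop} {m m' : ι → ℕ}

theorem Re.mono (h : Re Ω N R d A m) (hA : ∀ O, A' O → A O) : Re Ω N R d A' m :=
  fun s hf hs => h s hf fun O hO => ⟨(hs O hO).1, hA O (hs O hO).2⟩

theorem Re.step (h : Re Ω N R d A m) (hΩ : Sat Ω) (hN : OC N) (hm : ∀ p ∈ Ω, p.1 ∈ N)
    {q y z : VV n} (hG : GT Ω q y z) (hA : ∀ O, Sat O → (q, y) ∈ O → A O) {Q : Tup n} {e : ℕ}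
    (hQ : Cur Ω Q e) (h0 : pev Q 0 = q) (h1 : ∃ ρ : ℂ, ρ ≠ 0 ∧ pev (der Q) 0 = ρ • z)
    (hC : Cl N R d Q e m') : Re Ω N R d (fun O => A O ∨ Meets O Q) (m + m') := by
  intro s hf hs
  have a0 : ∀ᶠ η in 𝓝[>] (0 : ℝ), 0 < η := self_mem_nhdsWithin
  obtain ⟨η, a1, a2, a3⟩ := (a0.and ((ev_cur hΩ hQ).and
    ((eventually_all_finite hf).2 fun O hO => ev_meets (hs O hO).1.isOpen Q))).exists
  obtain ⟨O₀, b1, b2, b3⟩ := attach hΩ hN hm hG a1
  obtain ⟨F, D, c1, c2, c3⟩ := h (insert O₀ {O ∈ s | A O}) ((hf.sep _).insert _) (by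
    rintro O (rfl | hO)
    exacts [⟨b1, hA _ b1 b2⟩, ⟨(hs O hO.1).1, hO.2⟩])
  obtain ⟨G, d1, d2, d3⟩ := b3 F D Q e s hf c1 (c2 _ (.inl rfl)) a2 h0 h1 fun O hO =>
    ⟨(hs O hO).1, (hs O hO).2.imp (fun g => c2 O (.inr ⟨hO, g⟩)) (a3 O hO)⟩
  refine ⟨G, D + e, d1, d2, fun K π hπ k hk => ?_⟩
  have := d3 K π hπ _ _ (c3 K π hπ k hk) (hC K π hπ k hk)
  simpa only [Pi.add_apply, Nat.cast_add, add_mul, Finset.sum_add_distrib] using this

theorem cl_self [DecidableEq ι] (i : ι) : Cl N R d (R i) (d i) (Pi.single i 1) := by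
  intro K π _ k hk
  rw [Finset.sum_eq_single i (fun j _ hj => by simp [hj]) (by simp)]
  simpa using hk i

theorem Re.node (h : Re Ω N R d A m) (hs : IsSmooth Y) (hT : Tree Y R d) (hΩ : Sat Ω)
    (hY : TF Y ⊆ Ω) (hN : OC N) (hm : ∀ p ∈ Ω, p.1 ∈ N) {i j : ι} {y : VV n}
    (h1 : FlagOf (R j) (d j) (pev (R i) 0, y)) (h2 : I3 (pev (R i) 0) y (pev (der (R i)) 0))
    (hA : ∀ O, Meets O (R j) → A O) {Q : Tup n} {e : ℕ} (hQ : Cur Ω Q e)
    (h0 : pev Q 0 = pev (R i) 0) (h3 : ∃ ρ : ℂ, ρ ≠ 0 ∧ pev (der Q) 0 = ρ • pev (der (R i)) 0)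
    (hC : Cl N R d Q e m') : Re Ω N R d (fun O => A O ∨ Meets O Q) (m + m') :=
  h.step hΩ hN hm (gt_of_tan hs hY (hT.mem _ _ h1).1 (hT.mem i _ (.inl ⟨0, rfl⟩)).1 h2)
    (fun O a b => hA O (h1.meets a (hT.pos j) (hT.deg j) b)) hQ h0 h3 hC

theorem re_tree (hs : IsSmooth Y) (hT : Tree Y R d) (hΩ : Sat Ω) (hY : TF Y ⊆ Ω) (hN : OC N)
    (hm : ∀ p ∈ Ω, p.1 ∈ N) : Re Ω N R d (fun O => ∃ i, Meets O (R i)) fun _ => 1 := by
  classical
  obtain ⟨rk, par, y, root, h1, h2⟩ := hT.node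
  have key : ∀ T : Finset ι, root ∉ T → (∀ i ∈ T, par i = root ∨ par i ∈ T) →
      Re Ω N R d (fun O => ∃ i, (i = root ∨ i ∈ T) ∧ Meets O (R i))
        fun i => if i = root ∨ i ∈ T then 1 else 0 := by
    intro T
    induction T using Finset.induction_on_max_value rk with
    | empty =>
      intro _ _ s _ h
      refine ⟨R root, d root, hT.cur hY root, fun O hO => ?_, ?_⟩
      · obtain ⟨i, a1, a2⟩ := (h O hO).2
        rwa [a1.resolve_right (Finset.notMem_empty i)] at a2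
      · convert cl_self (N := N) (R := R) (d := d) root using 2 with i
        simp [Pi.single_apply]
    | insert a T a1 a2 ih =>
      intro b1 b2
      rw [Finset.mem_insert, not_or] at b1
      have b3 : ∀ i, i = a ∨ i ∈ T → par i = root ∨ par i ∈ T := fun i hi => by
        refine (b2 i (Finset.mem_insert.2 hi)).imp_right fun g => ?_
        refine (Finset.mem_insert.1 g).resolve_left fun e => ?_
        have c1 : i ≠ root := by
          rintro rfl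
          exact hi.elim b1.1 b1.2
        have c2 := h1 i c1
        rw [e] at c2
        rcases hi with rfl | hi
        · exact lt_irrefl _ c2
        · exact absurd (a2 i hi) (not_le.2 c2)
      have := (ih b1.2 fun i hi => b3 i (.inr hi)).node hs hT hΩ hY hN hm (h2 a).1 (h2 a).2
        (fun O g => ⟨par a, b3 a (.inl rfl), g⟩) (hT.cur hY a) rfl ⟨1, one_ne_zero, by simp⟩
        (cl_self a)
      convert this.mono (A' := fun O => ∃ i, (i = root ∨ i ∈ insert a T) ∧ Meets O (R i)) ?_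
        using 2 with i
      · by_cases e : i = a
        · simp [e, a1, Ne.symm b1.1]
        · simp [e]
      · rintro O ⟨i, c1, c2⟩
        rw [Finset.mem_insert] at c1
        rcases c1 with c1 | rfl | c1
        exacts [.inl ⟨i, .inl c1, c2⟩, .inr c2, .inl ⟨i, .inr c1, c2⟩]
  have e : ∀ i, i = root ∨ i ∈ Finset.univ.erase root := fun i => by simp [em]
  simpa only [e, true_and, if_true] using
    key (Finset.univ.erase root) (Finset.notMem_erase _ _) fun i _ => e _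

theorem Re.add (h : Re Ω N R d A m) (hs : IsSmooth Y) (hT : Tree Y R d) (hΩ : Sat Ω)
    (hY : TF Y ⊆ Ω) (hN : OC N) (hm : ∀ p ∈ Ω, p.1 ∈ N) (hA : ∀ O i, Meets O (R i) → A O)
    (c : ι → ℕ) : Re Ω N R d A (m + c) := by
  classical
  obtain ⟨-, par, y, -, -, h2⟩ := hT.node
  induction c using Pi.single_induction generalizing m with
  | zero => rwa [add_zero]
  | add f g h3 h4 => rw [← add_assoc]; exact h4 (h3 h)
  | single i k =>
    induction k with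
    | zero => rwa [Pi.single_zero, add_zero]
    | succ k ih =>
      rw [Pi.single_add, ← add_assoc]
      exact (ih.node hs hT hΩ hY hN hm (h2 i).1 (h2 i).2 (fun O => hA O _) (hT.cur hY i) rfl
        ⟨1, one_ne_zero, by simp⟩ (cl_self i)).mono fun O => .inl

end Big

theorem tree_curve (hs : IsSmooth Y) (hT : Tree Y R d) (hΩ : Sat Ω) (hY : TF Y ⊆ Ω) (hN : OC N)
    (hm : ∀ p ∈ Ω, p.1 ∈ N) {s : Set (Set (VV n × VV n))} (hf : s.Finite)
    (h : ∀ O ∈ s, Sat O ∧ ∃ i p, FlagOf (R i) (d i) p ∧ p ∈ O) :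
    ∃ F D, Cur Ω F D ∧ (∀ O ∈ s, Meets O F) ∧ Cl N R d F D fun _ => 1 :=
  Big.re_tree hs hT hΩ hY hN hm s hf fun O hO => by
    obtain ⟨a1, i, p, a2, a3⟩ := h O hO
    exact ⟨a1, i, a2.meets a1 (hT.pos i) (hT.deg i) a3⟩

theorem big (hs : IsSmooth Y) (hc : IsZClosed Y) (hT : Tree Y R d) (hΩ : Sat Ω) (hY : TF Y ⊆ Ω)
    (hN : OC N) (hm : ∀ p ∈ Ω, p.1 ∈ N) (i₁ : ι) {B : Set (VV n)}
    (hB : ∀ Ω', Sat Ω' → TF Y ⊆ Ω' → Ω' ⊆ Ω → ∀ v ∈ B, ∃ F D m y, Cur Ω' F D ∧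
      pev F 0 = pev (R i₁) 0 ∧ (∃ ρ : ℂ, ρ ≠ 0 ∧ pev (der F) 0 = ρ • pev (der (R i₁)) 0) ∧
      FlagOf F D (v, y) ∧ Cl N R d F D m)
    {s : Set (Set (VV n))} (hf : s.Finite) (h : ∀ N' ∈ s, OC N' ∧ ∃ v ∈ B, v ∈ N')
    {a : ι → ℕ} (ha : ∀ i, 0 < a i) :
    ∃ (F : Tup n) (D M : ℕ) (w : ℂ) (z : VV n), 0 < M ∧ Cur Ω F D ∧
      GT Ω (pev F w) (pev (der F) w) z ∧ (∀ N' ∈ s, ∃ w, pev F w ∈ N') ∧
      Cl N R d F D fun i => M * a i := by
  obtain ⟨-, par, y, -, -, h2⟩ := hT.node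
  set S : Set (VV n) → Set (VV n × VV n) := fun N' => {p | p.1 ∈ N' ∧ I2 p.1 p.2} with hS
  have key : ∃ m, Big.Re Ω N R d (fun O => (∃ i, Meets O (R i)) ∨ O ∈ S '' s) m := by
    induction s, hf using Set.Finite.induction_on with
    | empty => exact ⟨_, (Big.re_tree hs hT hΩ hY hN hm).mono fun O g => by simpa using g⟩
    | @insert N' s _ _ ih =>
      obtain ⟨m, a1⟩ := ih fun N₁ g => h N₁ (.inr g)
      obtain ⟨a2, v, a3, a4⟩ := h N' (.inl rfl)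
      obtain ⟨Q, e, m', y', b1, b2, b3, b4, b5⟩ := hB Ω hΩ hY subset_rfl v a3
      refine ⟨_, (a1.node hs hT hΩ hY hN hm (h2 i₁).1 (h2 i₁).2 (fun O g => .inl ⟨_, g⟩) b1 b2 b3
        b5).mono ?_⟩
      rintro O (g | ⟨N₁, rfl | g, rfl⟩)
      · exact .inl (.inl g)
      · exact .inr (b4.meets a2.sat b1.pos b1.deg ⟨a4, hΩ.ind _ _ (b1.flagOf b4)⟩)
      · exact .inl (.inr ⟨N₁, g, rfl⟩)
  obtain ⟨m, a1⟩ := key
  have a2 := a1.add hs hT hΩ hY hN hm (fun O i g => .inl ⟨i, g⟩)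
    fun i => (∑ j, m j + 1) * a i - m i
  have a3 : (m + fun i => (∑ j, m j + 1) * a i - m i) = fun i => (∑ j, m j + 1) * a i := by
    ext i
    refine Nat.add_sub_cancel' (le_trans ?_ (Nat.le_mul_of_pos_right _ (ha i)))
    exact (Finset.single_le_sum (fun _ _ => Nat.zero_le _) (Finset.mem_univ i)).trans
      (Nat.le_succ _)
  rw [a3] at a2
  have hE := sat_gt hΩ (pev (der (R i₁)) 0)
  obtain ⟨F, D, b1, b2, b3⟩ := a2 (insert _ (S '' s)) ((hf.image S).insert _) (by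
    rintro O (rfl | ⟨N', g, rfl⟩)
    · exact ⟨hE, .inl ⟨_, (h2 i₁).1.meets hE (hT.pos _) (hT.deg _) (gt_of_tan hs hY
        (hT.mem _ _ (h2 i₁).1).1 (hT.mem i₁ _ (.inl ⟨0, rfl⟩)).1 (h2 i₁).2)⟩⟩
    · exact ⟨(h N' g).1.sat, .inr ⟨N', g, rfl⟩⟩)
  obtain ⟨w, hw⟩ := b2 _ (.inl rfl)
  exact ⟨F, D, _, w, _, Nat.succ_pos _, b1, hw,
    fun N' g => (b2 _ (.inr ⟨N', g, rfl⟩)).imp fun w g => g.1, b3⟩

end Pool.Agent.Lib.MP_879098_ag.Q2
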