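import Pool.Agent.Lib.MP_879098_ag.QBase

/-! Basic tools for immersed rational curves. -/

namespace Pool.Agent.Lib.MP_879098_ag.Q2

open Polynomial Filter Topology Metric

variable {n : ℕ} {Ω Ω' O : Set (VV n × VV n)} {P Q : Tup n} {d : ℕ}

theorem hasDerivAt_pev (P : Tup n) (w : ℂ) : HasDerivAt (pev P) (pev (der P) w) w :=
  hasDerivAt_pi.2 fun i => (P i).hasDerivAt w

theorem deriv_pev (P : Tup n) (w : ℂ) : deriv (pev P) w = pev (der P) w := (hasDerivAt_pev P w).deriv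

theorem contDiff_pev (P : Tup n) : ContDiff ℂ 1 (pev P) :=
  contDiff_pi.2 fun i => by simpa [pev] using (P i).contDiff_aeval (𝕜 := ℂ) 1

theorem analyticAt_pev (P : Tup n) (w : ℂ) : AnalyticAt ℂ (pev P) w :=
  AnalyticAt.pi fun i => AnalyticOnNhd.eval_polynomial (P i) w (Set.mem_univ _)

theorem continuous_fl (P : Tup n) : Continuous (fl P) :=
  (continuous_pev P).prodMk (continuous_pev _)

theorem tup_ext (h : ∀ w, pev P w = pev Q w) : P = Q :=
  funext fun i => Polynomial.funext fun w => congrFun (h w) i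

theorem pev_zero (P : Tup n) : pev P 0 = ptop P 0 := by
  ext i; simp [pev, ptop, coeff_zero_eq_eval_zero]

theorem pev_der_zero (P : Tup n) : pev (der P) 0 = ptop P 1 := by
  ext i; simp [pev, ptop, der, ← coeff_zero_eq_eval_zero, coeff_derivative]

theorem pev_eq_sum (hd : ∀ i, (P i).natDegree ≤ d) (w : ℂ) :
    pev P w = ∑ k ∈ Finset.range (d + 1), w ^ k • ptop P k := by
  ext i
  simp only [pev, ptop, Finset.sum_apply, Pi.smul_apply, smul_eq_mul]
  rw [eval_eq_sum_range' (Nat.lt_succ_of_le (hd i))]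
  exact Finset.sum_congr rfl fun k _ => mul_comm _ _

/-! ### The chart at infinity -/

theorem ptop_rf (P : Tup n) {k : ℕ} (hk : k ≤ d) : ptop (rf d P) k = ptop P (d - k) := by
  ext i; simp [ptop, rf, coeff_reflect, revAt_le hk]

theorem deg_rf (hd : ∀ i, (P i).natDegree ≤ d) (i : Fin (n + 1)) : (rf d P i).natDegree ≤ d :=
  natDegree_le_iff_coeff_eq_zero.2 fun j hj => by
    rw [rf, coeff_reflect, revAt_eq_self_of_lt hj]
    exact coeff_eq_zero_of_natDegree_lt ((hd i).trans_lt hj)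

theorem rf_rf (P : Tup n) (d : ℕ) : rf d (rf d P) = P := by
  ext i k; simp [rf]

theorem pev_rf (hd : ∀ i, (P i).natDegree ≤ d) {u : ℂ} (hu : u ≠ 0) :
    pev (rf d P) u = u ^ d • pev P u⁻¹ := by
  have := pev_reflect (rf d P) d (deg_rf hd) hu
  rwa [show (fun i => reflect d (rf d P i)) = P from rf_rf P d] at this

theorem fl_rf_zero (P : Tup n) (h : 1 ≤ d) : fl (rf d P) 0 = (ptop P d, ptop P (d - 1)) := by
  rw [fl, pev_zero, pev_der_zero, ptop_rf P (Nat.zero_le _), ptop_rf P h, Nat.sub_zero]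

theorem Sat.fl_rf (hΩ : Sat Ω) (hd : ∀ i, (P i).natDegree ≤ d) {u : ℂ} (hu : u ≠ 0)
    (m : fl P u⁻¹ ∈ Ω) : fl (rf d P) u ∈ Ω :=
  hΩ.reparam (φ := fun x => x⁻¹) (s := fun x => x ^ d) (hasDerivAt_pev _ u) (hasDerivAt_pev P u⁻¹)
    (hasDerivAt_pow d u) (hasDerivAt_inv hu) (pow_ne_zero _ hu)
    (neg_ne_zero.2 (inv_ne_zero (pow_ne_zero _ hu)))
    ((eventually_ne_nhds hu).mono fun _ hx => pev_rf hd hx) m

theorem Cur.rf (hΩ : Sat Ω) (h : Cur Ω P d) : Cur Ω (rf d P) d := by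
  refine ⟨h.pos, deg_rf h.deg, fun w => ?_, ?_⟩
  · by_cases g : w = 0
    · rw [g, fl_rf_zero P h.pos]; exact h.top
    · exact hΩ.fl_rf h.deg g (h.mem _)
  · rw [← fl_rf_zero _ h.pos, rf_rf]; exact h.mem 0

theorem cur_of_discs (hΩ : Sat Ω) (h0 : 1 ≤ d) (hd : ∀ i, (P i).natDegree ≤ d) {r s : ℝ}
    (hr : 0 < r) (hrs : 1 ≤ r * s) (h1 : ∀ w : ℂ, ‖w‖ ≤ r → fl P w ∈ Ω)
    (h2 : ∀ u : ℂ, ‖u‖ ≤ s → fl (rf d P) u ∈ Ω) : Cur Ω P d := by
  have hs : 0 < s := by by_contra c; nlinarith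
  refine ⟨h0, hd, fun w => ?_, by rw [← fl_rf_zero _ h0]; exact h2 0 (by simpa using hs.le)⟩
  rcases le_or_gt ‖w‖ r with g | g
  · exact h1 w g
  · have w0 : 0 < ‖w‖ := hr.trans g
    have := hΩ.fl_rf (deg_rf hd) (norm_pos_iff.1 w0) (h2 w⁻¹ (by
      rw [norm_inv, inv_le_iff_one_le_mul₀ w0]; nlinarith))
    rwa [rf_rf] at this

theorem Cur.mono (h : Cur Ω P d) (hs : Ω ⊆ Ω') : Cur Ω' P d :=
  ⟨h.pos, h.deg, fun w => hs (h.mem w), hs h.top⟩

theorem Cur.flagOf (h : Cur Ω P d) {p : VV n × VV n} (hp : FlagOf P d p) : p ∈ Ω := by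
  rcases hp with ⟨w, rfl⟩ | rfl
  exacts [h.mem w, h.top]

theorem Tree.cur {ι : Type} {Y : Set (PP n)} {R : ι → Tup n} {d : ι → ℕ} (h : Tree Y R d)
    (hs : TF Y ⊆ Ω) (i : ι) : Cur Ω (R i) (d i) :=
  ⟨h.pos i, h.deg i, fun w => hs (h.mem i _ (.inl ⟨w, rfl⟩)), hs (h.mem i _ (.inr rfl))⟩

theorem Meets.exists_ne (hO : IsOpen O) (h : Meets O P) (Z : Finset ℂ) :
    ∃ w, w ∉ Z ∧ fl P w ∈ O := by
  obtain ⟨w, hw⟩ := h
  have h1 : ∀ᶠ x in 𝓝[≠] w, fl P x ∈ O :=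
    ((continuous_fl P).continuousAt.eventually_mem (hO.mem_nhds hw)).filter_mono nhdsWithin_le_nhds
  have h2 : ∀ᶠ x in 𝓝[≠] w, x ∉ Z := (nhdsNE_le_cofinite w) Z.finite_toSet.compl_mem_cofinite
  exact (h2.and h1).exists

theorem Meets.rf (hO : Sat O) (hd : ∀ i, (P i).natDegree ≤ d) (h : Meets O P) :
    Meets O (rf d P) := by
  obtain ⟨w, h0, hw⟩ := h.exists_ne hO.isOpen {0}
  exact ⟨w⁻¹, hO.fl_rf hd (inv_ne_zero (by simpa using h0)) (by rwa [inv_inv])⟩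

theorem FlagOf.meets (hO : Sat O) (h0 : 1 ≤ d) (hd : ∀ i, (P i).natDegree ≤ d) {p : VV n × VV n}
    (hp : FlagOf P d p) (m : p ∈ O) : Meets O P := by
  rcases hp with ⟨w, rfl⟩ | rfl
  · exact ⟨w, m⟩
  · have := Meets.rf hO (deg_rf hd) (P := Q2.rf d P) ⟨0, by rwa [fl_rf_zero P h0]⟩
    rwa [rf_rf] at this

/-! ### The homogeneous form -/

theorem hom_one (hd : ∀ i, (P i).natDegree ≤ d) (w : ℂ) : hom P d (1, w) = pev P w := by
  simp [hom, pev_eq_sum hd]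

theorem hom_smul (P : Tup n) (d : ℕ) (s : ℂ) (x : ℂ × ℂ) : hom P d (s • x) = s ^ d • hom P d x := by
  simp only [hom, Finset.smul_sum, smul_smul, Prod.smul_fst, Prod.smul_snd, smul_eq_mul, mul_pow]
  refine Finset.sum_congr rfl fun k hk => ?_
  have : s ^ d = s ^ (d - k) * s ^ k := by
    rw [← pow_add, Nat.sub_add_cancel (Nat.lt_succ_iff.1 (Finset.mem_range.1 hk))]
  rw [this]
  congr 1
  ring

theorem hom_rf (P : Tup n) (d : ℕ) (x : ℂ × ℂ) : hom (rf d P) d x = hom P d x.swap := by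
  rw [hom, hom, ← Finset.sum_range_reflect]
  refine Finset.sum_congr rfl fun k hk => ?_
  have h := Nat.lt_succ_iff.1 (Finset.mem_range.1 hk)
  rw [Nat.add_sub_cancel, ptop_rf P (Nat.sub_le _ _), Nat.sub_sub_self h, mul_comm]
  rfl

theorem hom_one' (hd : ∀ i, (P i).natDegree ≤ d) (u : ℂ) : hom P d (u, 1) = pev (rf d P) u := by
  rw [← hom_one (deg_rf hd), hom_rf]; rfl

theorem hom_top (hd : ∀ i, (P i).natDegree ≤ d) : hom P d (0, 1) = ptop P d := by
  rw [hom_one' hd, pev_zero, ptop_rf P (Nat.zero_le _), Nat.sub_zero]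

theorem contDiff_hom (P : Tup n) (d : ℕ) : ContDiff ℂ 1 (hom P d) := by
  unfold hom; fun_prop

theorem continuous_hom (P : Tup n) (d : ℕ) : Continuous (hom P d) := (contDiff_hom P d).continuous

theorem continuousOn_hom {α : Type} [TopologicalSpace α] {S : Set α} {G : α → Tup n}
    {x : α → ℂ × ℂ} (hG : ∀ k, ContinuousOn (fun a => ptop (G a) k) S) (hx : ContinuousOn x S)
    (d : ℕ) : ContinuousOn (fun a => hom (G a) d (x a)) S :=
  continuousOn_finsetSum _ fun k _ => ((hx.fst.pow _).mul (hx.snd.pow _)).smul (hG k)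

theorem hom_left (hd : ∀ i, (P i).natDegree ≤ d) {x : ℂ × ℂ} (h : x.1 ≠ 0) :
    hom P d x = x.1 ^ d • pev P (x.2 / x.1) := by
  rw [← hom_one hd, ← hom_smul]
  congr 1
  ext
  · simp
  · simp [mul_div_cancel₀ _ h]

theorem hom_right (hd : ∀ i, (P i).natDegree ≤ d) {x : ℂ × ℂ} (h : x.2 ≠ 0) :
    hom P d x = x.2 ^ d • pev (rf d P) (x.1 / x.2) := by
  rw [← hom_one' hd, ← hom_smul]
  congr 1
  ext
  · simp [mul_div_cancel₀ _ h]
  · simp

theorem hom_ext (hd : ∀ i, (P i).natDegree ≤ d) {H : ℂ × ℂ → VV n} (hc : Continuous H)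
    (hs : ∀ (s : ℂ) x, H (s • x) = s ^ d • H x) (h1 : ∀ w, H (1, w) = pev P w) : H = hom P d := by
  have hD : Dense {x : ℂ × ℂ | x.1 ≠ 0} := by
    have := (dense_compl_singleton (0 : ℂ)).prod (dense_univ (X := ℂ))
    refine this.mono fun x hx => hx.1
  refine hc.ext_on hD (continuous_hom P d) fun x hx => ?_
  rw [hom_left hd hx, ← h1, ← hs]
  congr 1
  ext
  · simp
  · simp [mul_div_cancel₀ _ (show x.1 ≠ 0 from hx)]

theorem Cur.hom_mem {N : Set (VV n)} (h : Cur Ω P d) (hN : OC N) (hs : ∀ p ∈ Ω, p.1 ∈ N)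
    {x : ℂ × ℂ} (hx : x ≠ 0) : hom P d x ∈ N := by
  by_cases g : x.1 = 0
  · have g2 : x.2 ≠ 0 := fun c => hx (Prod.ext g c)
    rw [hom_right h.deg g2, g, zero_div, pev_zero, ptop_rf P (Nat.zero_le _), Nat.sub_zero]
    exact hN.smul _ (hs _ h.top) _ (pow_ne_zero _ g2)
  · rw [hom_left h.deg g]
    exact hN.smul _ (hs _ (h.mem _)) _ (pow_ne_zero _ g)

/-! ### Linear maps -/

theorem clm_eq_sum (A : VV n →L[ℂ] VV n) (v : VV n) (i : Fin (n + 1)) :
    A v i = ∑ j, A (Pi.single j 1) i * v j := by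
  conv_lhs => rw [pi_eq_sum_univ' v]
  simp [map_sum, mul_comm]

theorem pev_lin (A : VV n →L[ℂ] VV n) (P : Tup n) (w : ℂ) : pev (lin A P) w = A (pev P w) := by
  ext i
  rw [clm_eq_sum]
  simp [pev, lin, eval_finsetSum]

theorem ptop_lin (A : VV n →L[ℂ] VV n) (P : Tup n) (k : ℕ) : ptop (lin A P) k = A (ptop P k) := by
  ext i
  rw [clm_eq_sum]
  simp [ptop, lin]

theorem der_lin (A : VV n →L[ℂ] VV n) (P : Tup n) : der (lin A P) = lin A (der P) := by
  ext i : 1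
  simp [der, lin]

theorem fl_lin (A : VV n →L[ℂ] VV n) (P : Tup n) (w : ℂ) :
    fl (lin A P) w = (A (fl P w).1, A (fl P w).2) := by
  simp only [fl, der_lin, pev_lin]

theorem deg_lin (A : VV n →L[ℂ] VV n) (hd : ∀ i, (P i).natDegree ≤ d) (i : Fin (n + 1)) :
    (lin A P i).natDegree ≤ d :=
  natDegree_sum_le_of_forall_le _ _ fun j _ => (natDegree_C_mul_le _ _).trans (hd j)

theorem hom_lin (A : VV n →L[ℂ] VV n) (P : Tup n) (d : ℕ) (x : ℂ × ℂ) :
    hom (lin A P) d x = A (hom P d x) := by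
  simp [hom, ptop_lin, map_sum]

theorem Cur.lin {η : ℝ} {A : VV n →L[ℂ] VV n} (h : Cur (shr η Ω) P d) (hA : ‖A - 1‖ ≤ η) :
    Cur Ω (lin A P) d :=
  ⟨h.pos, deg_lin A h.deg, fun w => by rw [fl_lin]; exact h.mem w A hA,
    by rw [ptop_lin, ptop_lin]; exact h.top A hA⟩

theorem Meets.lin {η : ℝ} {A : VV n →L[ℂ] VV n} (h : Meets (shr η O) P) (hA : ‖A - 1‖ ≤ η) :
    Meets O (lin A P) := h.imp fun w m => by rw [fl_lin]; exact m A hA

theorem Cur.smul (hΩ : Sat Ω) (h : Cur Ω P d) {s : ℂ} (hs : s ≠ 0) :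
    Cur Ω (Q2.lin (s • 1) P) d :=
  ⟨h.pos, deg_lin _ h.deg, fun w => by rw [fl_lin]; exact hΩ.smul (h.mem w) hs hs,
    by rw [ptop_lin, ptop_lin]; exact hΩ.smul h.top hs hs⟩

theorem Meets.smul (hO : Sat O) (h : Meets O P) {s : ℂ} (hs : s ≠ 0) :
    Meets O (Q2.lin (s • 1) P) := h.imp fun w m => by rw [fl_lin]; exact hO.smul m hs hs

/-- a linear map close to the identity that moves one vector to another -/
theorem exists_clm {u v : VV n} (hu : u ≠ 0) :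
    ∃ A : VV n →L[ℂ] VV n, A u = v ∧ ‖A - 1‖ ≤ ‖v - u‖ / ‖u‖ := by
  obtain ⟨i, hi⟩ : ∃ i, ‖u‖ ≤ ‖u i‖ := by
    by_contra c
    simp only [not_exists, not_le] at c
    exact lt_irrefl _ ((pi_norm_lt_iff (norm_pos_iff.2 hu)).2 c)
  have u0 := norm_pos_iff.2 hu
  have ui : u i ≠ 0 := norm_pos_iff.1 (u0.trans_le hi)
  refine ⟨1 + (ContinuousLinearMap.proj i : VV n →L[ℂ] ℂ).smulRight ((u i)⁻¹ • (v - u)), ?_, ?_⟩
  · simp [smul_smul, mul_inv_cancel₀ ui]
  · rw [add_sub_cancel_left]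
    refine ContinuousLinearMap.opNorm_le_bound _ (by positivity) fun y => ?_
    rw [ContinuousLinearMap.smulRight_apply, norm_smul, norm_smul, norm_inv, mul_comm,
      div_eq_inv_mul]
    gcongr
    exact norm_le_pi_norm y i

/-! ### Affine changes of the parameter -/

theorem pev_afc (c l : ℂ) (P : Tup n) (w : ℂ) : pev (afc c l P) w = pev P (c + l * w) := by
  ext i; simp [pev, afc, eval_comp]

theorem pev_der_afc (c l : ℂ) (P : Tup n) (w : ℂ) :
    pev (der (afc c l P)) w = l • pev (der P) (c + l * w) := by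
  ext i; simp [pev, afc, der, derivative_comp, eval_comp]

theorem deg_afc (c l : ℂ) (hd : ∀ i, (P i).natDegree ≤ d) (i : Fin (n + 1)) :
    (afc c l P i).natDegree ≤ d := by
  refine natDegree_comp_le.trans ?_
  have : (C c + C l * X : ℂ[X]).natDegree ≤ 1 := by compute_degree
  simpa using Nat.mul_le_mul (hd i) this

theorem ptop_afc (c l : ℂ) (P : Tup n) (k : ℕ) :
    ptop (afc c l P) k = l ^ k • pev (fun i => hasseDeriv k (P i)) c := by
  ext i
  have : afc c l P i = (taylor c (P i)).comp (C l * X) := by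
    simp [afc, taylor_apply, comp_assoc, add_comm]
  simp only [ptop, pev, this, comp_C_mul_X_coeff, taylor_coeff, Pi.smul_apply, smul_eq_mul]
  ring

theorem ptop_afc_top (c l : ℂ) (hd : ∀ i, (P i).natDegree ≤ d) :
    ptop (afc c l P) d = l ^ d • ptop P d := by
  rw [ptop_afc]
  congr 1
  ext i
  have : (hasseDeriv d (P i)).natDegree ≤ 0 :=
    (natDegree_hasseDeriv_le _ _).trans (by have := hd i; omega)
  simp [pev, ptop, eval_eq_sum_range' (Nat.lt_succ_of_le this), hasseDeriv_coeff]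

theorem ptop_afc_sub (c l : ℂ) (h0 : 1 ≤ d) (hd : ∀ i, (P i).natDegree ≤ d) :
    ptop (afc c l P) (d - 1) = l ^ (d - 1) • (ptop P (d - 1) + (d * c) • ptop P d) := by
  rw [ptop_afc]
  congr 1
  obtain ⟨e, rfl⟩ : ∃ e, d = e + 1 := ⟨d - 1, by omega⟩
  ext i
  have : (hasseDeriv e (P i)).natDegree ≤ 1 :=
    (natDegree_hasseDeriv_le _ _).trans (by have := hd i; omega)
  simp [pev, ptop, eval_eq_sum_range' (Nat.lt_succ_of_le this), hasseDeriv_coeff,
    Finset.sum_range_succ, add_comm 1 e]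
  ring

theorem continuousOn_ptop_afc {α : Type} [TopologicalSpace α] {S : Set α} {c l : α → ℂ}
    (hc : ContinuousOn c S) (hl : ContinuousOn l S) (P : Tup n) (k : ℕ) :
    ContinuousOn (fun a => ptop (afc (c a) (l a) P) k) S := by
  simp only [ptop_afc]
  exact (hl.pow k).smul ((continuous_pev _).comp_continuousOn hc)

theorem hom_afc (c l : ℂ) (hd : ∀ i, (P i).natDegree ≤ d) (x : ℂ × ℂ) :
    hom (afc c l P) d x = hom P d (x.1, c * x.1 + l * x.2) := by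
  rw [← hom_ext (deg_afc c l hd) (H := fun x => hom P d (x.1, c * x.1 + l * x.2))
    ((continuous_hom P d).comp (by fun_prop)) (fun s x => ?_) fun w => ?_]
  · rw [← hom_smul]
    congr 1
    ext
    · simp
    · simp; ring
  · simp only [mul_one, hom_one hd, pev_afc]

theorem Cur.afc (hΩ : Sat Ω) (h : Cur Ω P d) (c : ℂ) {l : ℂ} (hl : l ≠ 0) :
    Cur Ω (afc c l P) d := by
  refine ⟨h.pos, deg_afc c l h.deg, fun w => ?_, ?_⟩
  · rw [fl, pev_afc, pev_der_afc]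
    simpa using hΩ.smul (h.mem _) one_ne_zero hl
  · rw [ptop_afc_top c l h.deg, ptop_afc_sub c l h.pos h.deg, smul_add, smul_smul]
    exact hΩ.sat _ _ _ _ _ (pow_ne_zero _ hl) (pow_ne_zero _ hl) h.top

theorem Meets.afc (hO : Sat O) (h : Meets O P) (c : ℂ) {l : ℂ} (hl : l ≠ 0) :
    Meets O (afc c l P) := by
  obtain ⟨w, m⟩ := h
  refine ⟨(w - c) / l, ?_⟩
  rw [fl, pev_afc, pev_der_afc, mul_div_cancel₀ _ hl, add_sub_cancel]
  simpa using hO.smul m one_ne_zero hl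

/-- the flags of a curve in homogeneous form -/
theorem Cur.hom_flag (hΩ : Sat Ω) (h : Cur Ω P d) {x ξ : ℂ × ℂ} (hx : x.1 * ξ.2 ≠ x.2 * ξ.1) :
    (hom P d x, fderiv ℂ (hom P d) x ξ) ∈ Ω := by
  have key : ∀ {P : Tup n} {x ξ : ℂ × ℂ} {y : VV n}, Cur Ω P d → x.1 * ξ.2 ≠ x.2 * ξ.1 → x.1 ≠ 0 →
      HasDerivAt (fun t : ℂ => hom P d (x + t • ξ)) y 0 → (hom P d x, y) ∈ Ω := by
    intro P x ξ y h hx g hy
    have d1 : HasDerivAt (fun t : ℂ => x.1 + t * ξ.1) ξ.1 0 := by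
      simpa using ((hasDerivAt_id (0 : ℂ)).mul_const ξ.1).const_add x.1
    have d2 : HasDerivAt (fun t : ℂ => x.2 + t * ξ.2) ξ.2 0 := by
      simpa using ((hasDerivAt_id (0 : ℂ)).mul_const ξ.2).const_add x.2
    have g0 : x.1 + 0 * ξ.1 ≠ 0 := by simpa using g
    have := hΩ.reparam (φ := fun t => (x.2 + t * ξ.2) / (x.1 + t * ξ.1)) hy (hasDerivAt_pev P _)
      (d1.pow d) (d2.div d1 g0) (pow_ne_zero _ g0)
      (div_ne_zero (by simpa [sub_ne_zero, mul_comm] using hx) (pow_ne_zero _ g0))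
      ((d1.continuousAt.eventually_ne g0).mono fun t ht => hom_left h.deg ht) (h.mem _)
    simpa using this
  have hy : HasDerivAt (fun t : ℂ => hom P d (x + t • ξ)) (fderiv ℂ (hom P d) x ξ) 0 := by
    have h1 : HasDerivAt (fun t : ℂ => x + t • ξ) ξ 0 := by
      simpa using ((hasDerivAt_id (0 : ℂ)).smul_const ξ).const_add x
    have h2 : HasFDerivAt (hom P d) (fderiv ℂ (hom P d) x) (x + (0 : ℂ) • ξ) := by
      simpa using ((contDiff_hom P d).differentiable one_ne_zero x).hasFDerivAt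
    exact h2.comp_hasDerivAt 0 h1
  by_cases g : x.1 = 0
  · have := key (x := x.swap) (ξ := ξ.swap) (y := fderiv ℂ (hom P d) x ξ) (h.rf hΩ) hx.symm
      (fun c => hx (by rw [g, show x.2 = 0 from c, zero_mul, zero_mul]))
      (by simp only [hom_rf]; exact hy)
    simpa only [hom_rf, Prod.swap_swap] using this
  · exact key h hx g hy

/-- a smooth closed curve in the plane does not fill a disc -/
theorem exists_small_ne {g : ℝ → ℂ} (hg : ContDiff ℝ 1 g) {r : ℝ} (hr : 0 < r) :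
    ∃ μ : ℂ, ‖μ‖ < r ∧ ∀ θ, g θ ≠ μ := by
  obtain ⟨μ, h1, h2⟩ := (hg.dense_compl_range_of_finrank_lt_finrank (by simp)).exists_mem_open
    isOpen_ball (nonempty_ball (x := 0).2 hr)
  exact ⟨μ, mem_ball_zero_iff.1 h2, fun θ e => h1 ⟨θ, e⟩⟩

end Pool.Agent.Lib.MP_879098_ag.Q2
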