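import Pool.Agent.Lib.MP_879098_ag.SDefs

/-! Elliptic curves that are close to a variety to first order, and their homology classes. -/

namespace Pool.Agent.Lib.MP_879098_ag

open Filter Topology

/-- The Euclidean topology of projective space: the quotient topology. -/
noncomputable instance topPP (n : ℕ) : TopologicalSpace (PP n) :=
  TopologicalSpace.coinduced (Projectivization.mk' ℂ) inferInstance

/-- The vectors of homogeneous coordinates of the points of `Y`. -/
def cone {n : ℕ} (Y : Set (PP n)) : Set (Fin (n + 1) → ℂ) := {v | ∃ x ∈ Y, Rep v x}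

/-- `v` is tangent at `u` to the cone over `X`: it is the velocity of an arc in the cone. -/
def IsTangent {n : ℕ} (X : Set (PP n)) (u v : Fin (n + 1) → ℂ) : Prop :=
  ∃ γ : ℂ → Fin (n + 1) → ℂ, γ 0 = u ∧ HasDerivAt γ v 0 ∧ ∀ᶠ t in 𝓝 0, γ t ∈ cone X

/-- A point of the projectivised tangent bundle of projective space is a point with a line through
it; the line is a plane of coordinate vectors. These are the pairs of vectors that give a point of
`T`. -/
def flags {n : ℕ} (T : Set (PP n × Submodule ℂ (Fin (n + 1) → ℂ))) :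
    Set ((Fin (n + 1) → ℂ) × (Fin (n + 1) → ℂ)) :=
  {p | LinearIndependent ℂ ![p.1, p.2] ∧
    ∃ x, Rep p.1 x ∧ (x, Submodule.span ℂ {p.1, p.2}) ∈ T}

/-- `T` is an open neighbourhood of the projectivised tangent bundle of `X`. -/
def IsTangentNhd {n : ℕ} (X : Set (PP n)) (T : Set (PP n × Submodule ℂ (Fin (n + 1) → ℂ))) : Prop :=
  IsOpen (flags T) ∧ ∀ u v, IsTangent X u v → LinearIndependent ℂ ![u, v] → (u, v) ∈ flags T

/-- `μ` is an immersion of the curve `E` whose tangent lift lies in `T`: the image of an analytic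
arc in `E` with nonzero velocity has nonzero velocity, and its point and tangent line are in `T`. -/
def TangentLiftIn {m n : ℕ} (E : Set (PP m)) (μ : PP m → PP n)
    (T : Set (PP n × Submodule ℂ (Fin (n + 1) → ℂ))) : Prop :=
  ∀ (f : ℂ → PP m) (F : ℂ → Fin (m + 1) → ℂ) (G : ℂ → Fin (n + 1) → ℂ),
    AnalyticAt ℂ F 0 → AnalyticAt ℂ G 0 →
    (∀ᶠ w in 𝓝 0, f w ∈ E ∧ Rep (F w) (f w) ∧ Rep (G w) (μ (f w))) →
    LinearIndependent ℂ ![F 0, deriv F 0] → (G 0, deriv G 0) ∈ flags T

/-- The maps `μ` and `μ'` from `E` to `U` are homotopic. -/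
def HomotopicIn {m n : ℕ} (U : Set (PP n)) (E : Set (PP m)) (μ μ' : PP m → PP n) : Prop :=
  ∃ H : ℝ × PP m → PP n, ContinuousOn H (Set.Icc 0 1 ×ˢ E) ∧ Set.MapsTo H (Set.Icc 0 1 ×ˢ E) U ∧
    ∀ y ∈ E, H (0, y) = μ y ∧ H (1, y) = μ' y

/-- The pull-back of `O(1)` under `φ` is the topological line bundle `O(d)` on `Y`: the map `φ` has
a continuous lift to the cone over `Y` that is homogeneous of degree `d`. -/
def HasDeg {m K : ℕ} (Y : Set (PP m)) (φ : PP m → PP K) (d : ℤ) : Prop :=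
  ∃ L : (Fin (m + 1) → ℂ) → Fin (K + 1) → ℂ, ContinuousOn L (cone Y) ∧
    (∀ y ∈ Y, ∀ v, Rep v y → Rep (L v) (φ y)) ∧
    ∀ v ∈ cone Y, ∀ s : ℂ, s ≠ 0 → L (s • v) = s ^ d • L v

/-- A hypersurface section of `X` is a union of smooth rational curves `ν i`, and for all
neighbourhoods `U` of `X` and `T` of its projectivised tangent bundle and all positive
multiplicities `a i`, through each point of `X` passes a smooth elliptic curve in `U` with tangent
lift in `T`; these curves are homotopic in `U`, and every line bundle on `U` has on them the same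
degree as on a fixed positive multiple of the sum of the `a i` times `ν i`. -/
def CohConn {n : ℕ} (X : Set (PP n)) : Prop :=
  ∃ (e r : ℕ) (G : MvPolynomial (Fin (n + 1)) ℂ) (ν : Fin r → PP 1 → PP n),
    0 < e ∧ G.IsHomogeneous e ∧ ¬ X ⊆ zeroSet {G} ∧ X ∩ zeroSet {G} = ⋃ i, Set.range (ν i) ∧
    (∀ i, IsMorphism Set.univ (ν i) ∧ Function.Injective (ν i)) ∧
    ∀ (U : Set (PP n)) (T : Set (PP n × Submodule ℂ (Fin (n + 1) → ℂ))),
      IsOpen U → X ⊆ U → IsTangentNhd X T → ∀ a : Fin r → ℕ, (∀ i, 0 < a i) →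
      ∃ (M : ℕ) (A B : ℂ) (μ : PP n → PP 2 → PP n), 0 < M ∧ 4 * A ^ 3 + 27 * B ^ 2 ≠ 0 ∧
        (∀ x ∈ X, IsMorphism (cubic A B) (μ x) ∧ Set.InjOn (μ x) (cubic A B) ∧
          Set.MapsTo (μ x) (cubic A B) U ∧ TangentLiftIn (cubic A B) (μ x) T ∧
          x ∈ μ x '' cubic A B) ∧
        (∀ x ∈ X, ∀ y ∈ X, HomotopicIn U (cubic A B) (μ x) (μ y)) ∧
        ∀ (K : ℕ) (g : PP n → PP K), ContinuousOn g U →
          (∃ k : Fin r → ℤ, ∀ i, HasDeg Set.univ (g ∘ ν i) (k i)) ∧
          ∀ k : Fin r → ℤ, (∀ i, HasDeg Set.univ (g ∘ ν i) (k i)) →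
            ∀ x ∈ X, HasDeg (cubic A B) (g ∘ μ x) (M * ∑ i, a i * k i)

end Pool.Agent.Lib.MP_879098_ag
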