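import Pool.Agent.Lib.MP_879098_ag.QLift

/-! Degrees of line bundles on discs and spheres. -/

namespace Pool.Agent.Lib.MP_879098_ag.Q2

open Filter Topology Metric

variable {W : Type} [NormedAddCommGroup W] [NormedSpace ℂ W] {k j : ℤ}

namespace Deg

theorem ne_of_S1 {ζ : ℂ} (h : ζ ∈ S1) : ζ ≠ 0 := ne_zero_of_mem_sphere one_ne_zero ⟨ζ, h⟩

theorem inv_S1 {ζ : ℂ} (h : ζ ∈ S1) : ζ⁻¹ ∈ S1 := by
  rw [mem_sphere_zero_iff_norm] at h ⊢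
  rw [norm_inv, h, inv_one]

theorem cont_inv : ContinuousOn (fun ζ : ℂ => ζ⁻¹) S1 := continuousOn_id.inv₀ fun _ => ne_of_S1

theorem lf_mono {α : Type} [TopologicalSpace α] {S T : Set α} {φ : α → W →L[ℂ] W} {L : α → W}
    (h : Lf S φ L) (e : T ⊆ S) : Lf T φ L := ⟨h.1.mono e, fun x hx => h.2 x (e hx)⟩

theorem lf_comp {α β : Type} [TopologicalSpace α] [TopologicalSpace β] {S : Set α} {T : Set β}
    {φ : α → W →L[ℂ] W} {L : α → W} (h : Lf S φ L) {f : β → α} (hf : ContinuousOn f T)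
    (e : Set.MapsTo f T S) : Lf T (fun x => φ (f x)) fun x => L (f x) :=
  ⟨h.1.comp hf e, fun _ hx => h.2 _ (e hx)⟩

theorem dg_comp {φ : ℂ × ℂ → W →L[ℂ] W} (h : Dg {0}ᶜ φ k) {f : ℂ × ℂ → ℂ × ℂ} (hf : Continuous f)
    (h0 : ∀ x, x ≠ 0 → f x ≠ 0) (hs : ∀ x (s : ℂ), f (s • x) = s • f x) :
    Dg {0}ᶜ (fun x => φ (f x)) k := by
  obtain ⟨L, h1, h2⟩ := h
  exact ⟨_, lf_comp h1 hf.continuousOn h0, fun x hx s e => by rw [hs, h2 _ (h0 x hx) s e]⟩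

theorem exists_ext {h : ℂ → ℂ} (hc : ContinuousOn h S1) :
    ∃ g : ℂ → ℂ, Continuous g ∧ ∀ ζ ∈ S1, g ζ = h ζ := by
  obtain ⟨g, hg⟩ := ContinuousMap.exists_restrict_eq (isClosed_sphere (x := (0 : ℂ)) (ε := 1))
    (⟨S1.domRestrict h, hc.domRestrict⟩ : C(S1, ℂ))
  exact ⟨g, g.continuous, fun ζ hζ => DFunLike.congr_fun hg ⟨ζ, hζ⟩⟩

theorem half {φ : ℂ × ℂ → W →L[ℂ] W} (hi : ∀ x, x ≠ 0 → ∀ s : ℂ, s ≠ 0 → φ (s • x) = φ x)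
    {L : ℂ → W} (h : Lf D1 (fun z => φ (1, z)) L) (m : ℤ) :
    Lf ({0}ᶜ ∩ {x : ℂ × ℂ | ‖x.2‖ ≤ ‖x.1‖}) φ fun x => x.1 ^ m • L (x.2 / x.1) := by
  have h0 : ∀ x ∈ ({0}ᶜ ∩ {x : ℂ × ℂ | ‖x.2‖ ≤ ‖x.1‖}), x.1 ≠ 0 := fun x hx e =>
    hx.1 (Prod.ext e (norm_le_zero_iff.1 (by simpa [e] using hx.2)))
  have h1 : ∀ x ∈ ({0}ᶜ ∩ {x : ℂ × ℂ | ‖x.2‖ ≤ ‖x.1‖}), x.2 / x.1 ∈ D1 := fun x hx => by
    rw [mem_closedBall_zero_iff, norm_div]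
    exact div_le_one_of_le₀ hx.2 (norm_nonneg _)
  refine ⟨(continuousOn_fst.zpow₀ m fun x hx => .inl (h0 x hx)).smul
    (h.1.comp (continuousOn_snd.div continuousOn_fst h0) h1), fun x hx => ?_⟩
  obtain ⟨h2, h3⟩ := h.2 _ (h1 x hx)
  refine ⟨smul_ne_zero (zpow_ne_zero _ (h0 x hx)) h2, ?_⟩
  have e : x.1 • ((1 : ℂ), x.2 / x.1) = x := by
    ext
    · simp
    · simp [mul_div_cancel₀ _ (h0 x hx)]
  have e' := hi (1, x.2 / x.1) (by simp) _ (h0 x hx)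
  rw [e] at e'
  rw [map_smul, e']
  exact congrArg _ h3

end Deg

open Deg

theorem Rel.refl (L : ℂ → W) : Rel 0 L L := ⟨fun _ => 0, continuousOn_const, fun _ _ => by simp⟩

theorem Rel.symm {L M : ℂ → W} (h : Rel k L M) : Rel (-k) M L := by
  obtain ⟨h, h1, h2⟩ := h
  refine ⟨fun ζ => -h ζ, h1.neg, fun ζ hζ => ?_⟩
  rw [h2 ζ hζ, smul_smul, mul_mul_mul_comm, ← zpow_add₀ (ne_of_S1 hζ), ← Complex.exp_add]
  simp

theorem Rel.trans {L M N : ℂ → W} (h : Rel k L M) (h' : Rel j M N) : Rel (k + j) L N := by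
  obtain ⟨h, h1, h2⟩ := h
  obtain ⟨g, g1, g2⟩ := h'
  refine ⟨fun ζ => h ζ + g ζ, h1.add g1, fun ζ hζ => ?_⟩
  rw [h2 ζ hζ, g2 ζ hζ, smul_smul, mul_mul_mul_comm, ← zpow_add₀ (ne_of_S1 hζ), ← Complex.exp_add]

theorem Rel.congr {L M L' M' : ℂ → W} (h : Rel k L M) (e : ∀ ζ ∈ S1, L ζ = L' ζ)
    (e' : ∀ ζ ∈ S1, M ζ = M' ζ) : Rel k L' M' := by
  obtain ⟨h, h1, h2⟩ := h
  exact ⟨h, h1, fun ζ hζ => by rw [← e ζ hζ, ← e' ζ hζ, h2 ζ hζ]⟩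

theorem Rel.inv {L M : ℂ → W} (h : Rel k L M) : Rel (-k) (fun ζ => L ζ⁻¹) fun ζ => M ζ⁻¹ := by
  obtain ⟨h, h1, h2⟩ := h
  exact ⟨fun ζ => h ζ⁻¹, h1.comp cont_inv fun _ => inv_S1, fun ζ hζ => by
    simpa only [inv_zpow'] using h2 _ (inv_S1 hζ)⟩

theorem Rel.cyl {φ : ℂ × ℝ → W →L[ℂ] W} (h1 : ∀ p ∈ S1 ×ˢ I1, R1 (φ p)) {L M : ℂ × ℝ → W}
    (hL : Lf (S1 ×ˢ I1) φ L) (hM : Lf (S1 ×ˢ I1) φ M)
    (h : Rel k (fun ζ => L (ζ, 0)) fun ζ => M (ζ, 0)) :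
    Rel k (fun ζ => L (ζ, 1)) fun ζ => M (ζ, 1) := by
  obtain ⟨h, h2, h3⟩ := h
  obtain ⟨c, c1, c2⟩ := Lf.ratio h1 hM hL
  obtain ⟨g, g1, g2⟩ := log_cyl (isCompact_sphere 0 1) c1 fun p hp => (c2 p hp).1
  refine ⟨fun ζ => h ζ + g (ζ, 1), h2.add (g1.comp (by fun_prop) fun ζ hζ => ⟨hζ, by simp⟩),
    fun ζ hζ => ?_⟩
  have m0 : (ζ, (0 : ℝ)) ∈ S1 ×ˢ I1 := ⟨hζ, by simp⟩
  have m1 : (ζ, (1 : ℝ)) ∈ S1 ×ˢ I1 := ⟨hζ, by simp⟩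
  have e := smul_left_injective ℂ (hM.2 _ m0).1 ((c2 _ m0).2.symm.trans (h3 ζ hζ))
  simp only [(c2 _ m1).2, g2 _ m1, e, Complex.exp_add, mul_assoc]

theorem BD.self {φ : ℂ → W →L[ℂ] W} {L : ℂ → W} (h : Lf D1 φ L) : BD φ L 0 := ⟨L, h, Rel.refl L⟩

theorem BD.rel {φ : ℂ → W →L[ℂ] W} {l l' : ℂ → W} (h : BD φ l k) (h' : Rel j l l') :
    BD φ l' (k + j) := h.imp fun _ g => ⟨g.1, g.2.trans h'⟩

theorem BD.congr {φ φ' : ℂ → W →L[ℂ] W} {l l' : ℂ → W} (h : BD φ l k) (e : ∀ z ∈ D1, φ z = φ' z)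
    (e' : ∀ ζ ∈ S1, l ζ = l' ζ) : BD φ' l' k :=
  h.imp fun _ g => ⟨⟨g.1.1, fun z hz => e z hz ▸ g.1.2 z hz⟩, g.2.congr (fun _ _ => rfl) e'⟩

theorem BD.homotopy {φ : ℂ × ℝ → W →L[ℂ] W} (hc : ContinuousOn φ (D1 ×ˢ I1))
    (h1 : ∀ p ∈ D1 ×ˢ I1, R1 (φ p)) {l : ℂ × ℝ → W} (hl : Lf (S1 ×ˢ I1) φ l)
    (h : BD (fun z => φ (z, 0)) (fun ζ => l (ζ, 0)) k) :
    BD (fun z => φ (z, 1)) (fun ζ => l (ζ, 1)) k := by
  obtain ⟨L, h2, h3⟩ := h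
  obtain ⟨M, m1, m2⟩ := lift_cyl (isCompact_closedBall 0 1) hc h1 h2
  have hs : S1 ×ˢ I1 ⊆ D1 ×ˢ I1 := Set.prod_mono_left sphere_subset_closedBall
  exact ⟨fun z => M (z, 1), lf_comp m1 (by fun_prop) fun z hz => ⟨hz, by simp⟩,
    Rel.cyl (fun p hp => h1 p (hs hp)) (lf_mono m1 hs) hl
      (h3.congr (fun ζ hζ => (m2 ζ (sphere_subset_closedBall hζ)).symm) fun _ _ => rfl)⟩

theorem BD.homotopy' {φ : ℂ × ℝ → W →L[ℂ] W} (hc : ContinuousOn φ (D1 ×ˢ I1))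
    (h1 : ∀ p ∈ D1 ×ˢ I1, R1 (φ p)) {l : ℂ × ℝ → W} (hl : Lf (S1 ×ˢ I1) φ l)
    (h : BD (fun z => φ (z, 1)) (fun ζ => l (ζ, 1)) k) :
    BD (fun z => φ (z, 0)) (fun ζ => l (ζ, 0)) k := by
  have hm : ∀ S : Set ℂ, Set.MapsTo (fun p : ℂ × ℝ => (p.1, 1 - p.2)) (S ×ˢ I1) (S ×ˢ I1) :=
    fun S p hp => ⟨hp.1, by linarith [hp.2.2], by linarith [hp.2.1]⟩
  simpa using BD.homotopy (φ := fun p => φ (p.1, 1 - p.2)) (l := fun p => l (p.1, 1 - p.2))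
    (hc.comp (by fun_prop) (hm _)) (fun p hp => h1 _ (hm _ hp)) (lf_comp hl (by fun_prop) (hm _))
    (by simpa using h)

theorem Dg.congr {E : Type} [NormedAddCommGroup E] [NormedSpace ℂ E] {Y : Set E}
    {φ φ' : E → W →L[ℂ] W} (h : Dg Y φ k) (e : ∀ x ∈ Y, φ x = φ' x) : Dg Y φ' k :=
  h.imp fun _ g => ⟨⟨g.1.1, fun x hx => e x hx ▸ g.1.2 x hx⟩, g.2⟩

theorem Dg.of_pair {φ : ℂ × ℂ → W →L[ℂ] W} (hi : ∀ x, x ≠ 0 → ∀ s : ℂ, s ≠ 0 → φ (s • x) = φ x)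
    {l : ℂ → W} (h : BD (fun z => φ (1, z)) l k) (h' : BD (fun z => φ (z, 1)) (fun ζ => l ζ⁻¹) j) :
    Dg {0}ᶜ φ (k + j) := by
  obtain ⟨L, h1, h2⟩ := h
  obtain ⟨L', h3, h4⟩ := h'
  have h5 := h4.inv.symm
  simp only [inv_inv, neg_neg] at h5
  obtain ⟨h, h6, h7⟩ := h2.trans h5
  obtain ⟨g, g1, g2⟩ := exists_ext h6
  have a1 := half hi (L := fun z => Complex.exp (-g z) • L z) ⟨(by fun_prop : Continuous
    fun z => Complex.exp (-g z)).continuousOn.smul h1.1, fun z hz =>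
      ⟨smul_ne_zero (Complex.exp_ne_zero _) (h1.2 z hz).1, by rw [map_smul, (h1.2 z hz).2]⟩⟩ (k + j)
  have a2 := lf_comp (half (φ := fun x => φ x.swap) (fun x hx s hs => hi x.swap
    (fun e => hx (Prod.swap_injective e)) s hs) h3 (k + j)) continuous_swap.continuousOn
    (T := {0}ᶜ ∩ {x : ℂ × ℂ | ‖x.1‖ ≤ ‖x.2‖}) fun x hx => ⟨fun e => hx.1 (Prod.swap_injective e), hx.2⟩
  simp only [Prod.swap_swap, Prod.fst_swap, Prod.snd_swap] at a2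
  have c1 : Continuous fun x : ℂ × ℂ => ‖x.1‖ := by fun_prop
  have c2 : Continuous fun x : ℂ × ℂ => ‖x.2‖ := by fun_prop
  refine ⟨fun x => if ‖x.2‖ ≤ ‖x.1‖ then x.1 ^ (k + j) • (Complex.exp (-g (x.2 / x.1)) • L (x.2 / x.1))
    else x.2 ^ (k + j) • L' (x.1 / x.2), ⟨ContinuousOn.if (fun x hx => ?_) ?_ ?_, fun x hx => ?_⟩,
    fun x hx s hs => ?_⟩
  · have e : ‖x.2‖ = ‖x.1‖ := frontier_le_subset_eq c2 c1 hx.2
    have x1 : x.1 ≠ 0 := fun c => hx.1 (Prod.ext c (norm_eq_zero.1 (by simpa [c] using e)))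
    have m : x.2 / x.1 ∈ S1 := by
      rw [mem_sphere_zero_iff_norm, norm_div, e, div_self (norm_ne_zero_iff.2 x1)]
    simp only [h7 _ m, g2 _ m, smul_smul, inv_div, div_zpow, Complex.exp_neg]
    have := zpow_ne_zero (k + j) x1
    have := Complex.exp_ne_zero (h (x.2 / x.1))
    congr 1
    field_simp
  · rw [closure_le_eq c2 c1]
    exact a1.1
  · simp only [not_le]
    exact a2.1.mono (Set.inter_subset_inter_right _ (closure_lt_subset_le c1 c2))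
  · by_cases c : ‖x.2‖ ≤ ‖x.1‖
    · simp only [if_pos c]
      exact a1.2 x ⟨hx, c⟩
    · simp only [if_neg c]
      exact a2.2 x ⟨hx, (not_le.1 c).le⟩
  · have e : ‖s * x.2‖ ≤ ‖s * x.1‖ ↔ ‖x.2‖ ≤ ‖x.1‖ := by
      rw [norm_mul, norm_mul, mul_le_mul_iff_right₀ (norm_pos_iff.2 hs)]
    simp only [Prod.smul_fst, Prod.smul_snd, smul_eq_mul, e, mul_div_mul_left _ _ hs, mul_zpow,
      mul_smul, smul_ite]

theorem Dg.exists {φ : ℂ × ℂ → W →L[ℂ] W} (hc : ContinuousOn φ {0}ᶜ) (h1 : ∀ x, x ≠ 0 → R1 (φ x))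
    (hi : ∀ x, x ≠ 0 → ∀ s : ℂ, s ≠ 0 → φ (s • x) = φ x) : ∃ k, Dg {0}ᶜ φ k := by
  obtain ⟨L, hL⟩ := lift_disc (φ := fun z => φ (1, z))
    (hc.comp (by fun_prop) fun z _ => by simp) fun z _ => h1 _ (by simp)
  obtain ⟨L', hL'⟩ := lift_disc (φ := fun z => φ (z, 1))
    (hc.comp (by fun_prop) fun z _ => by simp) fun z _ => h1 _ (by simp)
  have h2 := lf_comp hL' cont_inv fun ζ hζ => sphere_subset_closedBall (inv_S1 hζ)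
  have h3 : Lf S1 (fun z => φ (1, z)) fun ζ => L' ζ⁻¹ := ⟨h2.1, fun ζ hζ => by
    have := hi (ζ⁻¹, 1) (by simp) ζ (ne_of_S1 hζ)
    simp only [Prod.smul_mk, smul_eq_mul, mul_inv_cancel₀ (ne_of_S1 hζ), mul_one] at this
    simpa only [this] using h2.2 ζ hζ⟩
  obtain ⟨c, c1, c2⟩ := Lf.ratio (fun z _ => h1 _ (by simp)) h3
    (lf_mono hL sphere_subset_closedBall)
  obtain ⟨k, h, h4, h5⟩ := exists_wind c1 fun ζ hζ => (c2 ζ hζ).1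
  exact ⟨k + 0, Dg.of_pair hi (l := fun ζ => L' ζ⁻¹)
    ⟨L, hL, h, h4, fun ζ hζ => by rw [← h5 ζ hζ]; exact (c2 ζ hζ).2⟩
    (by simpa only [inv_inv] using BD.self hL')⟩

variable {n : ℕ} {N : Set (VV n)} {π : VV n → W →L[ℂ] W} {P : Tup n} {d : ℕ}

theorem PF.mono {N' : Set (VV n)} (h : PF N π) (hs : N' ⊆ N) : PF N' π :=
  ⟨h.cont.mono hs, fun u hu => h.smul u (hs hu), fun u hu => h.r1 u (hs hu)⟩

theorem DgP.rf (h : DgP π P d k) : DgP π (rf d P) d k :=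
  (dg_comp h continuous_swap (fun _ hx e => hx (Prod.swap_injective e)) fun _ _ => rfl).congr
    fun x _ => by rw [hom_rf]

theorem DgP.afc (h : DgP π P d k) (hd : ∀ i, (P i).natDegree ≤ d) (c : ℂ) {l : ℂ} (hl : l ≠ 0) :
    DgP π (afc c l P) d k := by
  refine (dg_comp h (f := fun x => (x.1, c * x.1 + l * x.2)) (by fun_prop) (fun x hx e => ?_)
    fun x s => ?_).congr fun x _ => by rw [hom_afc c l hd]
  · obtain ⟨e1, e2⟩ := Prod.ext_iff.1 e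
    have e1' : x.1 = 0 := e1
    exact hx (Prod.ext e1' (by simpa [e1', hl] using e2))
  · ext
    · simp
    · simp; ring

theorem DgP.smul (hπ : PF N π) (hm : ∀ x, x ≠ 0 → hom P d x ∈ N) (h : DgP π P d k) {s : ℂ}
    (hs : s ≠ 0) : DgP π (lin (s • 1) P) d k :=
  Dg.congr h fun x hx => by rw [hom_lin]; exact (hπ.smul _ (hm x hx) s hs).symm

theorem DgP.homotopy (hπ : PF N π) {G : ℝ → Tup n}
    (hG : ∀ k, ContinuousOn (fun t => ptop (G t) k) I1)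
    (hm : ∀ t ∈ I1, ∀ x, x ≠ 0 → hom (G t) d x ∈ N) (h : DgP π (G 0) d k) : DgP π (G 1) d k := by
  refine Dg.homotopy (Y := {0}ᶜ) (φ := fun p => π (hom (G p.2) d p.1)) ?_ (by simp)
    (fun x hx s hs => smul_ne_zero hs hx)
    (hπ.cont.comp (continuousOn_hom (fun k => (hG k).comp continuousOn_snd fun _ hp => hp.2)
      continuousOn_fst d) fun p hp => hm _ hp.2 _ hp.1)
    (fun p hp => hπ.r1 _ (hm _ hp.2 _ hp.1))
    (fun x hx t ht s hs => by rw [hom_smul, hπ.smul _ (hm t ht x hx) _ (pow_ne_zero _ hs)]) h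
  rw [Set.inter_eq_right.2 fun x hx => ne_zero_of_mem_sphere one_ne_zero ⟨x, hx⟩]
  exact isCompact_sphere 0 1

theorem DgP.lin (hπ : PF N π) {A : VV n →L[ℂ] VV n}
    (hm : ∀ B : VV n →L[ℂ] VV n, ‖B - 1‖ ≤ ‖A - 1‖ → ∀ x, x ≠ 0 → B (hom P d x) ∈ N)
    (h : DgP π P d k) : DgP π (lin A P) d k := by
  have := DgP.homotopy hπ (G := fun t => Q2.lin (1 + (t : ℂ) • (A - 1)) P) (d := d) (k := k)
    (fun k => by simp only [ptop_lin]; fun_prop) (fun t ht x hx => by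
      rw [hom_lin]
      refine hm _ ?_ x hx
      rw [add_sub_cancel_left, norm_smul, Complex.norm_real, Real.norm_of_nonneg ht.1]
      exact mul_le_of_le_one_left (norm_nonneg _) ht.2)
    (Dg.congr h fun x _ => by simp [hom_lin])
  simpa using this

end Pool.Agent.Lib.MP_879098_ag.Q2
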