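import Pool.Agent.Lib.MP_879098_ag.SBase
import Pool.Agent.Lib.MP_879098_ag.Disc

/-! Discs through a generic point of the smooth surface with boundary near the two fibres. -/

namespace Pool.Agent.Lib.MP_879098_ag.Sm

open Filter Topology Polynomial Metric

namespace SD

theorem ff_ne {k : ℕ} {x : ℂ} : ff (2 * k) x ≠ 0 ↔ x ≠ 0 ∧ x ^ k - 1 ≠ 0 ∧ x ^ k + 1 ≠ 0 := by
  have : ff (2 * k) x = x * ((x ^ k - 1) * (x ^ k + 1)) := by rw [ff, mul_comm 2 k, pow_mul]; ring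
  rw [this, mul_ne_zero_iff, mul_ne_zero_iff]

theorem alg {k : ℕ} {a b x : ℂ} (hx : x ≠ 0) (ha : a ≠ 0)
    (h : a ^ 2 * (x ^ k - 1) = b * (x ^ k + 1)) :
    a * (1 - x⁻¹ ^ k) = b / a * (1 + x⁻¹ ^ k) := by
  have := pow_ne_zero k hx
  rw [inv_pow]
  field_simp
  linear_combination h

theorem inv_ff {k : ℕ} {x : ℂ} (hx : x ≠ 0) (h1 : 1 - x ^ k ≠ 0) (h2 : 1 + x ^ k ≠ 0) :
    ff (2 * k) x⁻¹ ≠ 0 := by
  have := pow_ne_zero k hx
  refine ff_ne.2 ⟨inv_ne_zero hx, fun c => h1 ?_, fun c => h2 ?_⟩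
  · rw [inv_pow] at c
    field_simp at c
    linear_combination c
  · rw [inv_pow] at c
    field_simp at c
    linear_combination c

theorem near_one {k : ℕ} (hk : 0 < k) {x : ℂ} (hx : 4 ≤ ‖x‖) :
    ‖(x ^ k + 1) / (x ^ k - 1) - 1‖ ≤ 2 / 3 := by
  have h1 : 4 ≤ ‖x ^ k‖ := by
    rw [norm_pow]
    exact hx.trans (le_self_pow₀ (by linarith) hk.ne')
  have h2 : 3 ≤ ‖x ^ k - 1‖ := by
    have := norm_sub_norm_le (x ^ k) 1
    rw [norm_one] at this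
    linarith
  have h3 : x ^ k - 1 ≠ 0 := norm_pos_iff.1 (by linarith)
  rw [show (x ^ k + 1) / (x ^ k - 1) - 1 = 2 / (x ^ k - 1) by field_simp; ring, norm_div,
    Complex.norm_ofNat]
  exact div_le_div_of_nonneg_left (by norm_num) (by norm_num) h2

theorem far {b e y : ℂ} (he : e ≠ 0) {A : ℝ} (h : (A + ‖b‖) / ‖e‖ < ‖y‖) : A < ‖b + e * y‖ := by
  rw [div_lt_iff₀ (norm_pos_iff.2 he)] at h
  have e3 : ‖e * y‖ ≤ ‖b + e * y‖ + ‖b‖ := by simpa using norm_sub_le (b + e * y) b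
  rw [norm_mul] at e3
  linarith

/-- the square root of the ratio along a strip, close to one at the right end -/
theorem kappa (k : ℕ) (hk : 0 < k) (b : ℂ) (hb : ff (2 * k) b ≠ 0) :
    ∃ (e : ℂ) (κ : ℂ → ℂ) (M N : ℝ), e ≠ 0 ∧ DifferentiableOn ℂ κ {y | |y.im| < 2} ∧
      ∀ y : ℂ, |y.im| < 2 → ff (2 * k) (b + e * y) ≠ 0 ∧
        κ y ^ 2 * ((b + e * y) ^ k - 1) = (b + e * y) ^ k + 1 ∧ ‖κ y‖ ^ 2 ≤ M ∧
        1 ≤ M * ‖κ y‖ ^ 2 ∧ (N < y.re → ‖κ y - 1‖ ≤ ‖κ y + 1‖) := by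
  obtain ⟨e, he, hstrip⟩ := exists_strip _ (finite_ff (2 * k) (by omega)) b hb
  have hne : ∀ y : ℂ, |y.im| ≤ 2 → ff (2 * k) (b + e * y) ≠ 0 := hstrip
  set ρ : ℂ → ℂ := fun y => ((b + e * y) ^ k + 1) / ((b + e * y) ^ k - 1) with hρ
  have hρd : ∀ y : ℂ, |y.im| ≤ 2 → DifferentiableAt ℂ ρ y := fun y hy =>
    DifferentiableAt.div (by fun_prop) (by fun_prop) (ff_ne.1 (hne y hy)).2.1
  have hρ0 : ∀ y : ℂ, |y.im| ≤ 2 → ρ y ≠ 0 := fun y hy =>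
    div_ne_zero (ff_ne.1 (hne y hy)).2.2 (ff_ne.1 (hne y hy)).2.1
  have hDo : IsOpen {y : ℂ | |y.im| < 2} := isOpen_lt (by fun_prop) continuous_const
  have hDc : Convex ℝ {y : ℂ | |y.im| < 2} := by
    have : {y : ℂ | |y.im| < 2} = {y : ℂ | -2 < y.im} ∩ {y : ℂ | y.im < 2} := by
      ext y; simp [abs_lt]
    rw [this]
    exact (convex_halfSpace_im_gt _).inter (convex_halfSpace_im_lt _)
  obtain ⟨q, hq⟩ := IsAlgClosed.exists_pow_nat_eq (ρ 0) two_pos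
  obtain ⟨κ, hκ, -, hκ2⟩ := exists_root hDo hDc (f := ρ)
    (fun y hy => (hρd y (le_of_lt hy)).differentiableWithinAt) (fun y hy => hρ0 y (le_of_lt hy))
    2 two_pos (z₀ := 0) (by simp) hq
  set N : ℝ := (4 + ‖b‖) / ‖e‖ with hN
  have hK : IsCompact (closedBall (0 : ℂ) N ∩ {y : ℂ | |y.im| ≤ 2}) :=
    (isCompact_closedBall _ _).inter_right (isClosed_le (by fun_prop) continuous_const)
  obtain ⟨C1, hC1⟩ := hK.exists_bound_of_continuousOn (f := ρ)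
    fun y hy => (hρd y hy.2).continuousAt.continuousWithinAt
  obtain ⟨C2, hC2⟩ := hK.exists_bound_of_continuousOn (f := fun y => (ρ y)⁻¹)
    fun y hy => ((hρd y hy.2).continuousAt.inv₀ (hρ0 y hy.2)).continuousWithinAt
  have hfar : ∀ y : ℂ, N < ‖y‖ → ‖ρ y - 1‖ ≤ 2 / 3 := fun y hy => near_one hk (far he hy).le
  have hM : ∀ y : ℂ, |y.im| < 2 → ‖ρ y‖ ≤ max (max C1 C2) 3 ∧ 1 ≤ max (max C1 C2) 3 * ‖ρ y‖ := by
    intro y hy
    have p0 : 0 < ‖ρ y‖ := norm_pos_iff.2 (hρ0 y hy.le)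
    rcases le_or_gt ‖y‖ N with g | g
    · have m1 : y ∈ closedBall (0 : ℂ) N ∩ {y : ℂ | |y.im| ≤ 2} := ⟨by simpa using g, hy.le⟩
      have a1 := hC1 y m1
      have a2 := hC2 y m1
      rw [norm_inv, inv_le_iff_one_le_mul₀ p0] at a2
      exact ⟨a1.trans ((le_max_left _ _).trans (le_max_left _ _)), a2.trans
        (mul_le_mul_of_nonneg_right ((le_max_right _ _).trans (le_max_left _ _)) p0.le)⟩
    · have a1 := hfar y g
      have a2 := norm_sub_norm_le (ρ y) 1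
      have a3 := norm_sub_norm_le 1 (ρ y)
      rw [norm_one] at a2 a3
      rw [norm_sub_rev] at a3
      have a4 : (3 : ℝ) ≤ max (max C1 C2) 3 := le_max_right _ _
      exact ⟨by linarith, by nlinarith⟩
  have hre : ∀ y : ℂ, |y.im| < 2 → N < y.re → (κ y).re ≠ 0 := by
    intro y hy g c
    have a1 := hfar y (g.trans_le (Complex.re_le_norm y))
    rw [← hκ2 y hy] at a1
    have a2 := Complex.abs_re_le_norm (κ y ^ 2 - 1)
    rw [Complex.sub_re, sq, Complex.mul_re, c, Complex.one_re] at a2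
    rw [sq] at a1
    nlinarith [neg_abs_le (0 * 0 - (κ y).im * (κ y).im - 1), mul_self_nonneg (κ y).im]
  have key : ∀ κ : ℂ → ℂ, DifferentiableOn ℂ κ {y | |y.im| < 2} →
      (∀ y : ℂ, |y.im| < 2 → κ y ^ 2 = ρ y) → (∀ y : ℂ, |y.im| < 2 → N < y.re → 0 ≤ (κ y).re) →
      ∃ (e : ℂ) (κ : ℂ → ℂ) (M N : ℝ), e ≠ 0 ∧ DifferentiableOn ℂ κ {y | |y.im| < 2} ∧
      ∀ y : ℂ, |y.im| < 2 → ff (2 * k) (b + e * y) ≠ 0 ∧
        κ y ^ 2 * ((b + e * y) ^ k - 1) = (b + e * y) ^ k + 1 ∧ ‖κ y‖ ^ 2 ≤ M ∧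
        1 ≤ M * ‖κ y‖ ^ 2 ∧ (N < y.re → ‖κ y - 1‖ ≤ ‖κ y + 1‖) := by
    intro κ h1 h2 h3
    refine ⟨e, κ, max (max C1 C2) 3, N, he, h1, fun y hy => ⟨hne y hy.le, ?_, ?_, ?_, fun g => ?_⟩⟩
    · rw [h2 y hy]
      exact div_mul_cancel₀ _ (ff_ne.1 (hne y hy.le)).2.1
    · rw [← norm_pow, h2 y hy]; exact (hM y hy).1
    · rw [← norm_pow, h2 y hy]; exact (hM y hy).2
    · refine abs_le_of_sq_le_sq' ?_ (norm_nonneg _) |>.2
      rw [Complex.sq_norm, Complex.sq_norm, Complex.normSq_apply, Complex.normSq_apply]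
      simp only [Complex.sub_re, Complex.add_re, Complex.sub_im, Complex.add_im, Complex.one_re,
        Complex.one_im]
      nlinarith [h3 y hy g]
  by_cases hs : ∀ y : ℂ, |y.im| < 2 → N < y.re → 0 ≤ (κ y).re
  · exact key κ hκ hκ2 hs
  · push Not at hs
    obtain ⟨y1, a1, a2, a3⟩ := hs
    refine key (fun y => -κ y) hκ.neg (fun y hy => by rw [neg_sq, hκ2 y hy]) fun y hy g => ?_
    by_contra c
    rw [Complex.neg_re, not_le, neg_lt_zero] at c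
    have hpc : IsPreconnected ({y : ℂ | |y.im| < 2} ∩ {y : ℂ | N < y.re}) :=
      (hDc.inter (convex_halfSpace_re_gt _)).isPreconnected
    obtain ⟨y2, m2, e2⟩ := hpc.intermediate_value (f := fun y => (κ y).re) ⟨a1, a2⟩ ⟨hy, g⟩
      ((Complex.continuous_re.comp_continuousOn hκ.continuousOn).mono Set.inter_subset_left)
      ⟨a3.le, c.le⟩
    exact hre y2 m2.1 m2.2 e2

end SD

theorem exists_disc2 (k : ℕ) (hk : 0 < k) {l₀ m₀ l₀' m₀' : ℂ} (h : Gen k l₀ m₀ l₀' m₀') :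
    ∃ M : ℝ, ∀ r : ℝ, 0 < r → ∃ l m l' m' w : ℂ → ℂ, AnalyticOnNhd ℂ l (closedBall 0 1) ∧
      AnalyticOnNhd ℂ m (closedBall 0 1) ∧ AnalyticOnNhd ℂ l' (closedBall 0 1) ∧
      AnalyticOnNhd ℂ m' (closedBall 0 1) ∧ AnalyticOnNhd ℂ w (closedBall 0 1) ∧
      l 0 = l₀ ∧ m 0 = m₀ ∧ l' 0 = l₀' ∧ m' 0 = m₀' ∧
      (∀ z ∈ closedBall (0 : ℂ) 1, Gen k (l z) (m z) (l' z) (m' z) ∧ w z ^ 2 = l z * m z) ∧
      ∀ ζ ∈ sphere (0 : ℂ) 1,
        (‖l ζ * m ζ‖ < r ∧ ‖l ζ‖ ≤ M * ‖m ζ‖ ∧ ‖m ζ‖ ≤ M * ‖l ζ‖) ∨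
          (‖l' ζ * m' ζ‖ < r ∧ ‖l ζ - w ζ‖ ≤ ‖l ζ + w ζ‖) := by
  have hs0 : l₀ * m₀ ≠ 0 := mul_ne_zero h.l0 h.m0
  have ht0 : l₀' * m₀' ≠ 0 := mul_ne_zero h.l0' h.m0'
  obtain ⟨e, κ, M, N, he, hκ, hK⟩ := SD.kappa k hk (l₀' * m₀')⁻¹
    (SD.inv_ff ht0 h.symm.ne.1 h.symm.ne.2)
  refine ⟨M, fun r hr => ?_⟩
  have hφ : ∀ u : ℂ, (X * (X ^ (2 * k) - 1) : ℂ[X]).eval u = ff (2 * k) u := fun u => by simp [ff]
  have hff : Continuous (ff (2 * k)) := by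
    have : ff (2 * k) = fun u => (X * (X ^ (2 * k) - 1) : ℂ[X]).eval u :=
      funext fun u => (hφ u).symm
    rw [this]; exact Polynomial.continuous _
  set Λ : ℝ := Real.exp (max N ((r⁻¹ + ‖(l₀' * m₀')⁻¹‖) / ‖e‖)) with hΛ
  have hΛ0 : 0 < Λ := Real.exp_pos _
  obtain ⟨α, v, h0, h1, h2, h3, h4⟩ := Disc.alpha (X * (X ^ (2 * k) - 1)) (l₀ * m₀)⁻¹
    (by rw [hφ]; exact SD.inv_ff hs0 h.ne.1 h.ne.2) r⁻¹ (4 * Λ)⁻¹ (by positivity)
  obtain ⟨τ, g0, g1, g2⟩ := Disc.exists_tau v h2 (fun ζ hζ => (h3 ζ hζ).1) Λ hΛ0 h4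
  have hU : IsOpen {z : ℂ | 0 < (τ.eval z).re ∧ ff (2 * k) (α.eval z) ≠ 0} :=
    (isOpen_lt continuous_const (Complex.continuous_re.comp τ.continuous)).inter
      (isOpen_ne_fun (hff.comp α.continuous) continuous_const)
  obtain ⟨δ, hδ, hδU⟩ := (isCompact_closedBall (0 : ℂ) 1).exists_thickening_subset_open hU
    fun z hz => ⟨g1 z hz, by rw [← hφ]; exact h1 z hz⟩
  rw [thickening_closedBall hδ zero_le_one] at hδU
  have hsub : closedBall (0 : ℂ) 1 ⊆ ball 0 (δ + 1) := closedBall_subset_ball (by linarith)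
  set y : ℂ → ℂ := fun z => Complex.log (τ.eval z) with hy
  have hyd : DifferentiableOn ℂ y (ball 0 (δ + 1)) := fun z hz =>
    ((τ.differentiable z).clog (Or.inl (hδU hz).1)).differentiableWithinAt
  have hyD : ∀ z ∈ ball (0 : ℂ) (δ + 1), |(y z).im| < 2 := by
    intro z hz
    rw [hy]
    simp only [Complex.log_im]
    linarith [Complex.abs_arg_le_pi_div_two_iff.2 (hδU hz).1.le, Real.pi_lt_four]
  have hy0 : y 0 = 0 := by simp [hy, g0]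
  set β : ℂ → ℂ := fun z => (l₀' * m₀')⁻¹ + e * y z with hβ
  have hβd : DifferentiableOn ℂ β (ball 0 (δ + 1)) := (hyd.const_mul e).const_add _
  have hβz : β 0 = (l₀' * m₀')⁻¹ := by simp [hβ, hy0]
  have hβ0 : ∀ z ∈ ball (0 : ℂ) (δ + 1), β z ≠ 0 := fun z hz =>
    (SD.ff_ne.1 (hK _ (hyD z hz)).1).1
  have hα0 : ∀ z ∈ ball (0 : ℂ) (δ + 1), α.eval z ≠ 0 ∧ α.eval z ^ k - 1 ≠ 0 ∧
      α.eval z ^ k + 1 ≠ 0 := fun z hz => SD.ff_ne.1 (hδU hz).2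
  have hαd : DifferentiableOn ℂ (fun z => α.eval z) (ball (0 : ℂ) (δ + 1)) :=
    α.differentiable.differentiableOn
  set c : ℂ → ℂ := fun z => κ (y z) with hc
  have hcd : DifferentiableOn ℂ c (ball 0 (δ + 1)) := hκ.comp hyd hyD
  have hc2 : ∀ z ∈ ball (0 : ℂ) (δ + 1), c z ^ 2 * (β z ^ k - 1) = 1 * (β z ^ k + 1) :=
    fun z hz => by rw [one_mul]; exact (hK _ (hyD z hz)).2.1
  have hc0 : ∀ z ∈ ball (0 : ℂ) (δ + 1), c z ≠ 0 := fun z hz g => by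
    have := (hK _ (hyD z hz)).2.2.2.1
    rw [show κ (y z) = 0 from g] at this
    norm_num at this
  have hz0 : (0 : ℂ) ∈ ball (0 : ℂ) (δ + 1) := hsub (by simp)
  have hcz : c 0 ^ 2 * m₀ = l₀ := by
    have a1 := SD.alg (hβ0 0 hz0) (hc0 0 hz0) (hc2 0 hz0)
    rw [hβz, inv_inv] at a1
    have a2 := hc0 0 hz0
    field_simp at a1
    refine mul_right_cancel₀ h.symm.ne.1 ?_
    rw [mul_pow] at *
    linear_combination m₀ * a1 - h.eq
  obtain ⟨w, hw, hw0, hw2⟩ := exists_root (f := fun z => (α.eval z)⁻¹) isOpen_ball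
    (convex_ball _ _) (hαd.inv fun z hz => (hα0 z hz).1) (fun z hz => inv_ne_zero (hα0 z hz).1)
    2 two_pos (y₀ := c 0 * m₀) hz0 (by rw [h0, inv_inv, ← hcz]; ring)
  obtain ⟨l', hl', hl0, hl2⟩ := exists_root
    (f := fun z => (β z)⁻¹ * (α.eval z ^ k + 1) / (α.eval z ^ k - 1)) isOpen_ball
    (convex_ball _ _)
    (((hβd.inv hβ0).mul ((hαd.pow k).add_const 1)).div ((hαd.pow k).sub_const 1)
      fun z hz => (hα0 z hz).2.1)
    (fun z hz => div_ne_zero (mul_ne_zero (inv_ne_zero (hβ0 z hz)) (hα0 z hz).2.2) (hα0 z hz).2.1)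
    2 two_pos (y₀ := l₀') hz0 (by
      rw [eq_div_iff (hα0 0 hz0).2.1, hβz, h0, inv_inv, inv_pow]
      have := pow_ne_zero k hs0
      field_simp
      linear_combination l₀' * h.eq')
  have hw' : ∀ z ∈ ball (0 : ℂ) (δ + 1), w z ≠ 0 := fun z hz g =>
    inv_ne_zero (hα0 z hz).1 (by rw [← hw2 z hz, g]; norm_num)
  have hl'' : ∀ z ∈ ball (0 : ℂ) (δ + 1), l' z ≠ 0 := fun z hz g =>
    div_ne_zero (mul_ne_zero (inv_ne_zero (hβ0 z hz)) (hα0 z hz).2.2) (hα0 z hz).2.1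
      (by rw [← hl2 z hz, g]; norm_num)
  have e1 : ∀ z ∈ ball (0 : ℂ) (δ + 1), c z * w z * (w z / c z) = w z ^ 2 := fun z hz => by
    have := hc0 z hz
    field_simp
  have e2 : ∀ z ∈ ball (0 : ℂ) (δ + 1), l' z * ((β z)⁻¹ / l' z) = (β z)⁻¹ := fun z hz =>
    mul_div_cancel₀ _ (hl'' z hz)
  refine ⟨fun z => c z * w z, fun z => w z / c z, l', fun z => (β z)⁻¹ / l' z, w,
    ((hcd.mul hw).analyticOnNhd isOpen_ball).mono hsub,
    ((hw.div hcd hc0).analyticOnNhd isOpen_ball).mono hsub,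
    (hl'.analyticOnNhd isOpen_ball).mono hsub,
    (((hβd.inv hβ0).div hl' hl'').analyticOnNhd isOpen_ball).mono hsub,
    (hw.analyticOnNhd isOpen_ball).mono hsub, ?_, ?_, hl0, ?_, fun z hz => ?_, fun ζ hζ => ?_⟩
  · simp only [hw0]
    rw [← hcz]; ring
  · simp only [hw0]
    exact mul_div_cancel_left₀ _ (hc0 0 hz0)
  · simp only [hβz, hl0, inv_inv]
    exact mul_div_cancel_left₀ _ h.l0'
  · have hz' := hsub hz
    refine ⟨⟨mul_ne_zero (hc0 z hz') (hw' z hz'), div_ne_zero (hw' z hz') (hc0 z hz'), hl'' z hz',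
      div_ne_zero (inv_ne_zero (hβ0 z hz')) (hl'' z hz'), ?_, ?_⟩, (e1 z hz').symm⟩
    · rw [e2 z hz']
      linear_combination w z * SD.alg (hβ0 z hz') (hc0 z hz') (hc2 z hz')
    · rw [e1 z hz', hw2 z hz']
      refine SD.alg (hα0 z hz').1 (hl'' z hz') ?_
      rw [hl2 z hz']
      exact div_mul_cancel₀ _ (hα0 z hz').2.1
  · have hz := hsub (sphere_subset_closedBall hζ)
    refine (lt_or_ge r⁻¹ ‖α.eval ζ‖).imp (fun g => ?_) fun g => ?_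
    · obtain ⟨-, -, b1, b2, -⟩ := hK _ (hyD ζ hz)
      have p0 : 0 < ‖c ζ‖ := norm_pos_iff.2 (hc0 ζ hz)
      refine ⟨?_, ?_, ?_⟩
      · rw [e1 ζ hz, hw2 ζ hz, norm_inv]
        exact inv_lt_of_inv_lt₀ hr g
      · rw [norm_mul, norm_div, mul_div_assoc', le_div_iff₀ p0]
        nlinarith [mul_le_mul_of_nonneg_right b1 (norm_nonneg (w ζ))]
      · rw [norm_mul, norm_div, div_le_iff₀ p0]
        nlinarith [mul_le_mul_of_nonneg_right b2 (norm_nonneg (w ζ))]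
    · have a1 : Λ < ‖τ.eval ζ‖ := (g2 ζ hζ ((h3 ζ hζ).2 g)).trans_le (Complex.re_le_norm _)
      have a2 : max N ((r⁻¹ + ‖(l₀' * m₀')⁻¹‖) / ‖e‖) < (y ζ).re := by
        rw [hy]
        simp only [Complex.log_re]
        exact (Real.lt_log_iff_exp_lt (hΛ0.trans a1)).2 a1
      refine ⟨?_, ?_⟩
      · rw [e2 ζ hz, norm_inv]
        exact inv_lt_of_inv_lt₀ hr (SD.far he
          (((le_max_right _ _).trans_lt a2).trans_le (Complex.re_le_norm _)))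
      · have b1 := (hK _ (hyD ζ hz)).2.2.2.2 ((le_max_left _ _).trans_lt a2)
        rw [show c ζ * w ζ - w ζ = (c ζ - 1) * w ζ by ring,
          show c ζ * w ζ + w ζ = (c ζ + 1) * w ζ by ring, norm_mul, norm_mul]
        exact mul_le_mul_of_nonneg_right b1 (norm_nonneg _)

end Pool.Agent.Lib.MP_879098_ag.Sm
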