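import Pool.Agent.Lib.MP_879098_ag.QGeoDef
import Pool.Agent.Lib.MP_879098_ag.SDisc

/-! A two parameter family of generic points that contains an immersed disc. -/

namespace Pool.Agent.Lib.MP_879098_ag.Q2

open Polynomial Filter Topology Metric Sm

namespace D3

theorem deriv_root {f g : ℂ → ℂ} {z : ℂ} (hf : DifferentiableAt ℂ f z) (hg : DifferentiableAt ℂ g z)
    (h : ∀ᶠ u in 𝓝 z, f u ^ 2 = (g u)⁻¹ ∧ g u ≠ 0) (h0 : deriv f z = 0) : deriv g z = 0 := by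
  have h1 : (fun u => f u ^ 2 * g u) =ᶠ[𝓝 z] fun _ => 1 :=
    h.mono fun u hu => by simp only [hu.1, inv_mul_cancel₀ hu.2]
  have h2 := ((hf.hasDerivAt.fun_pow 2).fun_mul hg.hasDerivAt).unique
    ((hasDerivAt_const z (1 : ℂ)).congr_of_eventuallyEq h1)
  have h3 := h.self_of_nhds
  rw [h0, h3.1] at h2
  simpa [h3.2] using h2

theorem isOpen_St : IsOpen St := isOpen_lt (by fun_prop) continuous_const

theorem convex_St : Convex ℝ St := by
  have : St = {y : ℂ | -2 < y.im} ∩ {y : ℂ | y.im < 2} := by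
    ext y; simp [abs_lt]
  rw [this]
  exact (convex_halfSpace_im_gt _).inter (convex_halfSpace_im_lt _)

/-- the strip can be chosen at a positive distance from zero -/
theorem kappa' (k : ℕ) (hk : 0 < k) (b : ℂ) (hb : ff (2 * k) b ≠ 0) :
    ∃ (e : ℂ) (κ : ℂ → ℂ) (M N : ℝ), e ≠ 0 ∧ DifferentiableOn ℂ κ St ∧
      ∀ y ∈ St, b + e * y ≠ 0 ∧ ‖b + e * y‖⁻¹ ≤ M ∧
        κ y ^ 2 * ((b + e * y) ^ k - 1) = 1 * ((b + e * y) ^ k + 1) ∧ ‖κ y‖ ^ 2 ≤ M ∧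
        1 ≤ M * ‖κ y‖ ^ 2 ∧ (N < y.re → ‖κ y - 1‖ ≤ ‖κ y + 1‖) := by
  obtain ⟨e, κ, M, N, he, hκ, hK⟩ := SD.kappa k hk b hb
  have half : ∀ y ∈ St, |(y / 2).im| < 1 := fun y hy => by
    have : |y.im| < 2 := hy
    rw [Complex.div_ofNat_im, abs_div, abs_two]
    linarith
  have h0 : 2 ≤ |(-b / e).im| := by
    by_contra c
    refine (SD.ff_ne.1 (hK _ (not_le.1 c)).1).1 ?_
    field_simp
    ring
  refine ⟨e / 2, fun y => κ (y / 2), max M ‖e‖⁻¹, 2 * N, by simpa using he,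
    hκ.comp (by fun_prop) fun y hy => (half y hy).trans one_lt_two, fun y hy => ?_⟩
  obtain ⟨a1, a2, a3, a4, a5⟩ := hK (y / 2) ((half y hy).trans one_lt_two)
  rw [show e / 2 * y = e * (y / 2) by ring, one_mul]
  refine ⟨(SD.ff_ne.1 a1).1, le_trans ?_ (le_max_right _ _), a2, a3.trans (le_max_left _ _),
    a4.trans (mul_le_mul_of_nonneg_right (le_max_left _ _) (sq_nonneg _)), fun g => a5 ?_⟩
  · refine inv_anti₀ (norm_pos_iff.2 he) ?_
    rw [show b + e * (y / 2) = e * (y / 2 - -b / e) by field_simp; ring, norm_mul]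
    refine le_mul_of_one_le_right (norm_nonneg _) (le_trans ?_ (Complex.abs_im_le_norm _))
    rw [Complex.sub_im]
    have := abs_sub_abs_le_abs_sub (-b / e).im (y / 2).im
    rw [abs_sub_comm] at this
    linarith [half y hy]
  · rw [Complex.div_ofNat_re]
    linarith

/-- perturbation of the two functions -/
theorem pert (α : ℂ[X]) {y : ℂ → ℂ} {F : ℂ → ℂ} (hF : Continuous F)
    (hy : ∀ z ∈ D1, DifferentiableAt ℂ y z) (h1 : ∀ z ∈ D1, F (α.eval z) ≠ 0)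
    (h2 : ∀ z ∈ D1, y z ∈ St) {R N : ℝ} (h3 : ∀ ζ ∈ S1, R < ‖α.eval ζ‖ ∨ N < (y ζ).re) :
    ∃ (α₁ : ℂ[X]) (ε : ℂ), α₁.eval 0 = α.eval 0 ∧ (∀ z ∈ D1, F (α₁.eval z) ≠ 0) ∧
      (∀ z ∈ D1, y z + ε * z ∈ St) ∧ (∀ ζ ∈ S1, R < ‖α₁.eval ζ‖ ∨ N < (y ζ + ε * ζ).re) ∧
      (∀ ζ ∈ S1, (derivative α₁).eval ζ ≠ 0) ∧
      ∀ z ∈ D1, (derivative α₁).eval z ≠ 0 ∨ deriv y z + ε ≠ 0 := by
  have ca : Continuous fun x : (ℂ × ℂ) × ℂ => α.eval x.2 - x.1.1 * x.2 := by fun_prop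
  have cy : ∀ z ∈ D1, ContinuousAt (fun x : (ℂ × ℂ) × ℂ => y x.2 + x.1.2 * x.2) ((0, 0), z) :=
    fun z hz => (ContinuousAt.comp (g := y) (f := fun x : (ℂ × ℂ) × ℂ => x.2)
      (hy z hz).continuousAt continuousAt_snd).add (by fun_prop)
  have e1 : ∀ᶠ x : ℂ × ℂ in 𝓝 (0, 0), ∀ z ∈ D1,
      F (α.eval z - x.1 * z) ≠ 0 ∧ y z + x.2 * z ∈ St := by
    refine (isCompact_closedBall (0 : ℂ) 1).eventually_forall_of_forall_eventually
      (P := fun (x : ℂ × ℂ) z => F (α.eval z - x.1 * z) ≠ 0 ∧ y z + x.2 * z ∈ St) fun z hz => ?_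
    refine Eventually.and ((hF.comp ca).continuousAt.eventually_ne ?_)
      ((cy z hz).eventually_mem (isOpen_St.mem_nhds ?_))
    · simpa using h1 z hz
    · simpa using h2 z hz
  have e2 : ∀ᶠ x : ℂ × ℂ in 𝓝 (0, 0), ∀ z ∈ S1,
      R < ‖α.eval z - x.1 * z‖ ∨ N < (y z + x.2 * z).re := by
    refine (isCompact_sphere (0 : ℂ) 1).eventually_forall_of_forall_eventually
      (P := fun (x : ℂ × ℂ) z => R < ‖α.eval z - x.1 * z‖ ∨ N < (y z + x.2 * z).re) fun z hz => ?_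
    rcases h3 z hz with g | g
    · exact (continuousAt_const.eventually_lt ca.norm.continuousAt (by simpa using g)).mono
        fun x hx => Or.inl hx
    · exact (continuousAt_const.eventually_lt (Complex.continuous_re.continuousAt.comp
        (cy z (sphere_subset_closedBall hz))) (by simpa using g)).mono fun x hx => Or.inr hx
  obtain ⟨ρ, hρ, hb⟩ := Metric.eventually_nhds_iff_ball.1 (e1.and e2)
  obtain ⟨μ, hμ, hμ'⟩ := exists_small_ne
    (g := fun θ : ℝ => (derivative α).eval (Complex.exp (θ * Complex.I)))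
    (((derivative α).contDiff_aeval (𝕜 := ℂ) 1).restrict_scalars ℝ |>.comp
      (Complex.contDiff_exp.comp (Complex.ofRealCLM.contDiff.mul contDiff_const))) hρ
  have hd : ∀ z, (derivative (α - C μ * X)).eval z = (derivative α).eval z - μ := fun z => by
    simp
  have hS : ∀ ζ ∈ S1, (derivative (α - C μ * X)).eval ζ ≠ 0 := fun ζ hζ => by
    have := hμ' ζ.arg
    have h4 := Complex.norm_mul_exp_arg_mul_I ζ
    rw [mem_sphere_zero_iff_norm.1 hζ, Complex.ofReal_one, one_mul] at h4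
    simp only [h4] at this
    rw [hd]
    exact sub_ne_zero.2 this
  have hne : derivative (α - C μ * X) ≠ 0 := fun c => hS 1 (by simp) (by rw [c, eval_zero])
  have hfin := ((derivative (α - C μ * X)).finite_setOfPred_isRoot hne).image fun z => -deriv y z
  obtain ⟨ε, hε, hε'⟩ := (hfin.countable.dense_compl ℂ).exists_mem_open isOpen_ball
    (nonempty_ball (x := (0 : ℂ)).2 hρ)
  have hm := hb (μ, ε) (by
    rw [← ball_prod_same]
    exact ⟨mem_ball_zero_iff.2 hμ, hε'⟩)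
  have hv : ∀ z, (α - C μ * X).eval z = α.eval z - μ * z := fun z => by simp
  refine ⟨α - C μ * X, ε, by simp, fun z hz => by rw [hv]; exact (hm.1 z hz).1,
    fun z hz => (hm.1 z hz).2, fun z hz => by rw [hv]; exact hm.2 z hz, hS, fun z _ => ?_⟩
  by_contra c
  push Not at c
  exact hε ⟨z, c.1, by linear_combination -c.2⟩

end D3

theorem disc3 {k : ℕ} (hk : 0 < k) {l₀ m₀ l₀' m₀' : ℂ} (h : Gen k l₀ m₀ l₀' m₀') :
    ∃ (M : ℝ) (κ b : ℂ → ℂ), AnalyticOnNhd ℂ κ St ∧ AnalyticOnNhd ℂ b St ∧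
      (∀ t ∈ St, κ t ≠ 0 ∧ b t ≠ 0 ∧ deriv b t ≠ 0 ∧ ‖κ t‖ ^ 2 ≤ M ∧ 1 ≤ M * ‖κ t‖ ^ 2 ∧
        ‖b t‖ ^ 2 ≤ M) ∧
      ∀ r : ℝ, 0 < r → ∃ (N : ℝ) (w q y : ℂ → ℂ), AnalyticOnNhd ℂ w D1 ∧ AnalyticOnNhd ℂ q D1 ∧
        AnalyticOnNhd ℂ y D1 ∧ (∀ z ∈ D1, y z ∈ St) ∧ κ (y 0) * w 0 = l₀ ∧ w 0 / κ (y 0) = m₀ ∧
        b (y 0) * q 0 = l₀' ∧ b (y 0) / q 0 = m₀' ∧
        (∀ z ∈ D1, ∀ t ∈ St, Gen k (κ t * w z) (w z / κ t) (b t * q z) (b t / q z)) ∧
        (∀ t ∈ St, N < t.re → ‖b t‖ ^ 2 < r ∧ ‖κ t - 1‖ ≤ ‖κ t + 1‖) ∧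
        (∀ ζ ∈ S1, ‖w ζ‖ ^ 2 < r ∨ N < (y ζ).re) ∧ (∀ ζ ∈ S1, deriv w ζ ≠ 0) ∧
        ∀ z ∈ D1, deriv w z ≠ 0 ∨ deriv y z ≠ 0 := by
  have hs0 : l₀ * m₀ ≠ 0 := mul_ne_zero h.l0 h.m0
  have ht0 : l₀' * m₀' ≠ 0 := mul_ne_zero h.l0' h.m0'
  obtain ⟨e, κ, M, N, he, hκ, hK⟩ := D3.kappa' k hk (l₀' * m₀')⁻¹
    (SD.inv_ff ht0 h.symm.ne.1 h.symm.ne.2)
  have h0S : (0 : ℂ) ∈ St := by simp
  obtain ⟨b₀, hb₀⟩ := IsAlgClosed.exists_pow_nat_eq (l₀' * m₀') two_pos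
  have hβd : Differentiable ℂ fun t => (l₀' * m₀')⁻¹ + e * t := by fun_prop
  obtain ⟨b, hb, -, hb2⟩ := exists_root (f := fun t => ((l₀' * m₀')⁻¹ + e * t)⁻¹) D3.isOpen_St
    D3.convex_St (hβd.differentiableOn.inv fun t ht => (hK t ht).1)
    (fun t ht => inv_ne_zero (hK t ht).1) 2 two_pos (y₀ := b₀) h0S (by simpa using hb₀)
  have hκ0 : ∀ t ∈ St, κ t ≠ 0 := fun t ht g => by
    have := (hK t ht).2.2.2.2.1
    rw [g] at this
    norm_num at this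
  have hb0 : ∀ t ∈ St, b t ≠ 0 := fun t ht g =>
    inv_ne_zero (hK t ht).1 (by rw [← hb2 t ht, g]; norm_num)
  have hbn : ∀ t ∈ St, ‖b t‖ ^ 2 = ‖(l₀' * m₀')⁻¹ + e * t‖⁻¹ := fun t ht => by
    rw [← norm_pow, hb2 t ht, norm_inv]
  refine ⟨M, κ, b, hκ.analyticOnNhd D3.isOpen_St, hb.analyticOnNhd D3.isOpen_St,
    fun t ht => ⟨hκ0 t ht, hb0 t ht, fun g => he ?_, (hK t ht).2.2.2.1, (hK t ht).2.2.2.2.1,
      (hbn t ht).trans_le (hK t ht).2.1⟩, fun r hr => ?_⟩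
  · have h1 := D3.deriv_root (hb.differentiableAt (D3.isOpen_St.mem_nhds ht)) (hβd t)
      (Filter.eventually_of_mem (D3.isOpen_St.mem_nhds ht) fun u hu => ⟨hb2 u hu, (hK u hu).1⟩) g
    have h2 : HasDerivAt (fun t => (l₀' * m₀')⁻¹ + e * t) e t := by
      simpa using ((hasDerivAt_id t).const_mul e).const_add (l₀' * m₀')⁻¹
    rwa [h2.deriv] at h1
  have hφ : ∀ u : ℂ, (X * (X ^ (2 * k) - 1) : ℂ[X]).eval u = ff (2 * k) u := fun u => by simp [ff]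
  have hff : Continuous (ff (2 * k)) := by
    have : ff (2 * k) = fun u => (X * (X ^ (2 * k) - 1) : ℂ[X]).eval u :=
      funext fun u => (hφ u).symm
    rw [this]; exact Polynomial.continuous _
  obtain ⟨N', hN'⟩ : ∃ N', N' = max N ((r⁻¹ + ‖(l₀' * m₀')⁻¹‖) / ‖e‖) := ⟨_, rfl⟩
  have hΛ0 : 0 < Real.exp N' := Real.exp_pos _
  obtain ⟨α₀, v, h0, h1, h2, h3, h4⟩ := Disc.alpha (X * (X ^ (2 * k) - 1)) (l₀ * m₀)⁻¹
    (by rw [hφ]; exact SD.inv_ff hs0 h.ne.1 h.ne.2) r⁻¹ (4 * Real.exp N')⁻¹ (by positivity)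
  obtain ⟨τ, g0, g1, g2⟩ := Disc.exists_tau v h2 (fun ζ hζ => (h3 ζ hζ).1) _ hΛ0 h4
  have hyd : ∀ z, 0 < (τ.eval z).re → DifferentiableAt ℂ (fun z => Complex.log (τ.eval z)) z :=
    fun z hz => (τ.differentiable z).clog (Or.inl hz)
  obtain ⟨α, ε, p0, p1, p2, p3, p4, p5⟩ := D3.pert α₀ (y := fun z => Complex.log (τ.eval z)) hff
    (fun z hz => hyd z (g1 z hz)) (fun z hz => by rw [← hφ]; exact h1 z hz)
    (fun z hz => by
      show |(Complex.log (τ.eval z)).im| < 2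
      rw [Complex.log_im]
      linarith [Complex.abs_arg_le_pi_div_two_iff.2 (g1 z hz).le, Real.pi_lt_four])
    (R := r⁻¹) (N := N') fun ζ hζ => (lt_or_ge r⁻¹ ‖α₀.eval ζ‖).imp id fun g => by
      have a1 : Real.exp N' < ‖τ.eval ζ‖ :=
        (g2 ζ hζ ((h3 ζ hζ).2 g)).trans_le (Complex.re_le_norm _)
      rw [Complex.log_re]
      exact (Real.lt_log_iff_exp_lt (hΛ0.trans a1)).2 a1
  rw [h0] at p0
  have hU : IsOpen {z : ℂ | 0 < (τ.eval z).re ∧ ff (2 * k) (α.eval z) ≠ 0} :=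
    (isOpen_lt continuous_const (Complex.continuous_re.comp τ.continuous)).inter
      (isOpen_ne_fun (hff.comp α.continuous) continuous_const)
  obtain ⟨δ, hδ, hδU⟩ := (isCompact_closedBall (0 : ℂ) 1).exists_thickening_subset_open hU
    fun z hz => ⟨g1 z hz, p1 z hz⟩
  rw [thickening_closedBall hδ zero_le_one] at hδU
  have hsub : closedBall (0 : ℂ) 1 ⊆ ball 0 (δ + 1) := closedBall_subset_ball (by linarith)
  have hy : DifferentiableOn ℂ (fun z => Complex.log (τ.eval z) + ε * z) (ball 0 (δ + 1)) :=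
    fun z hz => ((hyd z (hδU hz).1).add (by fun_prop)).differentiableWithinAt
  have hα0 : ∀ z ∈ ball (0 : ℂ) (δ + 1), α.eval z ≠ 0 ∧ α.eval z ^ k - 1 ≠ 0 ∧
      α.eval z ^ k + 1 ≠ 0 := fun z hz => SD.ff_ne.1 (hδU hz).2
  have hαd : DifferentiableOn ℂ (fun z => α.eval z) (ball (0 : ℂ) (δ + 1)) :=
    α.differentiable.differentiableOn
  have hz0 : (0 : ℂ) ∈ ball (0 : ℂ) (δ + 1) := hsub (by simp)
  have hcz : κ 0 ^ 2 * m₀ = l₀ := by
    have a1 := SD.alg (hK 0 h0S).1 (hκ0 0 h0S) (hK 0 h0S).2.2.1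
    rw [mul_zero, add_zero, inv_inv] at a1
    have a2 := hκ0 0 h0S
    field_simp at a1
    refine mul_right_cancel₀ h.symm.ne.1 ?_
    rw [mul_pow] at *
    linear_combination m₀ * a1 - h.eq
  have hbz : b 0 ^ 2 = l₀' * m₀' := by simpa using hb2 0 h0S
  obtain ⟨w, hw, hw0, hw2⟩ := exists_root (f := fun z => (α.eval z)⁻¹) isOpen_ball
    (convex_ball _ _) (hαd.inv fun z hz => (hα0 z hz).1) (fun z hz => inv_ne_zero (hα0 z hz).1)
    2 two_pos (y₀ := κ 0 * m₀) hz0 (by rw [p0, inv_inv, ← hcz]; ring)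
  obtain ⟨q, hq, hq0, hq2⟩ := exists_root
    (f := fun z => (α.eval z ^ k + 1) / (α.eval z ^ k - 1)) isOpen_ball (convex_ball _ _)
    (((hαd.pow k).add_const 1).div ((hαd.pow k).sub_const 1) fun z hz => (hα0 z hz).2.1)
    (fun z hz => div_ne_zero (hα0 z hz).2.2 (hα0 z hz).2.1)
    2 two_pos (y₀ := l₀' / b 0) hz0 (by
      rw [eq_div_iff (hα0 0 hz0).2.1, p0, div_pow, hbz, inv_pow]
      have := pow_ne_zero k hs0
      have := h.l0'
      have := h.m0'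
      field_simp
      linear_combination h.eq')
  have hw' : ∀ z ∈ ball (0 : ℂ) (δ + 1), w z ≠ 0 := fun z hz g =>
    inv_ne_zero (hα0 z hz).1 (by rw [← hw2 z hz, g]; norm_num)
  have hq' : ∀ z ∈ ball (0 : ℂ) (δ + 1), q z ≠ 0 := fun z hz g =>
    div_ne_zero (hα0 z hz).2.2 (hα0 z hz).2.1 (by rw [← hq2 z hz, g]; norm_num)
  have hwd : ∀ z ∈ D1, deriv w z = 0 → (derivative α).eval z = 0 := fun z hz g => by
    have := D3.deriv_root (hw.differentiableAt (isOpen_ball.mem_nhds (hsub hz)))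
      (α.differentiable z) (Filter.eventually_of_mem (isOpen_ball.mem_nhds (hsub hz))
        fun u hu => ⟨hw2 u hu, (hα0 u hu).1⟩) g
    rwa [Polynomial.deriv] at this
  have hy0 : Complex.log (τ.eval 0) + ε * 0 = 0 := by simp [g0]
  refine ⟨N', w, q, fun z => Complex.log (τ.eval z) + ε * z,
    (hw.analyticOnNhd isOpen_ball).mono hsub, (hq.analyticOnNhd isOpen_ball).mono hsub,
    (hy.analyticOnNhd isOpen_ball).mono hsub, p2, ?_, ?_, ?_, ?_, fun z hz t ht => ?_,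
    fun t ht g => ⟨?_, (hK t ht).2.2.2.2.2 ?_⟩, fun ζ hζ => (p3 ζ hζ).imp (fun g => ?_) id,
    fun ζ hζ g => p4 ζ hζ (hwd ζ (sphere_subset_closedBall hζ) g),
    fun z hz => (p5 z hz).imp (fun g g' => g (hwd z hz g')) fun g => ?_⟩
  · simp only [hy0, hw0]
    rw [← hcz]; ring
  · simp only [hy0, hw0]
    exact mul_div_cancel_left₀ _ (hκ0 0 h0S)
  · simp only [hy0, hq0]
    exact mul_div_cancel₀ _ (hb0 0 h0S)
  · simp only [hy0, hq0]
    have := h.l0'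
    have := hb0 0 h0S
    field_simp
    exact hbz
  · have hz' := hsub hz
    have c1 := hκ0 t ht
    have c2 := hq' z hz'
    have e1 : κ t * w z * (w z / κ t) = (α.eval z)⁻¹ := by
      rw [← hw2 z hz']
      field_simp
    have e2 : b t * q z * (b t / q z) = ((l₀' * m₀')⁻¹ + e * t)⁻¹ := by
      rw [← hb2 t ht]
      field_simp
    refine ⟨mul_ne_zero c1 (hw' z hz'), div_ne_zero (hw' z hz') c1, mul_ne_zero (hb0 t ht) c2,
      div_ne_zero (hb0 t ht) c2, ?_, ?_⟩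
    · rw [e2]
      linear_combination w z * SD.alg (hK t ht).1 c1 (hK t ht).2.2.1
    · rw [e1]
      have : q z ^ 2 * (α.eval z ^ k - 1) = 1 * (α.eval z ^ k + 1) := by
        rw [hq2 z hz', one_mul]
        exact div_mul_cancel₀ _ (hα0 z hz').2.1
      linear_combination b t * SD.alg (hα0 z hz').1 c2 this
  · rw [hbn t ht]
    rw [hN'] at g
    exact inv_lt_of_inv_lt₀ hr (SD.far he
      (((le_max_right _ _).trans_lt g).trans_le (Complex.re_le_norm _)))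
  · rw [hN'] at g
    exact (le_max_left _ _).trans_lt g
  · rw [← norm_pow, hw2 ζ (hsub (sphere_subset_closedBall hζ)), norm_inv]
    exact inv_lt_of_inv_lt₀ hr g
  · have := ((hyd z (g1 z hz)).hasDerivAt.fun_add ((hasDerivAt_id' z).const_mul ε)).deriv
    rwa [this, mul_one]

end Pool.Agent.Lib.MP_879098_ag.Q2
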