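import Pool.Agent.Lib.MP_879098_ag.QCur

/-! Sections of line bundles along homotopies, and logarithms. -/

namespace Pool.Agent.Lib.MP_879098_ag.Q2

open Filter Topology Metric

variable {W : Type} [NormedAddCommGroup W] [NormedSpace ℂ W]

namespace LiftAux

/-- transport along a subdivision of the unit interval -/
noncomputable def tr (N : ℕ) (p : ℝ → W →L[ℂ] W) (t : ℝ) (y : W) : ℕ → W
  | 0 => y
  | i + 1 => p (min t (((i + 1 : ℕ) : ℝ) / N)) (tr N p t y i)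

theorem min_mem {t : ℝ} (ht : t ∈ I1) (i N : ℕ) : min t ((i : ℝ) / N) ∈ I1 :=
  ⟨le_min ht.1 (by positivity), (min_le_left _ _).trans ht.2⟩

theorem min_step (t : ℝ) (i N : ℕ) :
    |min t ((i : ℝ) / N) - min t (((i + 1 : ℕ) : ℝ) / N)| ≤ 1 / N := by
  refine (abs_min_sub_min_le_max _ _ _ _).trans (max_le (by simp) (le_of_eq ?_))
  rw [← sub_div, abs_div]
  simp

theorem tr_congr {N : ℕ} {p q : ℝ → W →L[ℂ] W} (h : ∀ t ∈ I1, p t = q t) {t : ℝ} (ht : t ∈ I1)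
    (s : ℂ) (y : W) (i : ℕ) : tr N p t (s • y) i = s • tr N q t y i := by
  induction i with
  | zero => rfl
  | succ i ih => rw [tr, tr, ih, map_smul, h _ (min_mem ht _ _)]

theorem ne_of_close {A B : W →L[ℂ] W} (h : ‖A - B‖ < 1) {y : W} (hy : y ≠ 0) (e : A y = y) :
    B y ≠ 0 := fun c => by
  have h1 := (A - B).le_opNorm y
  rw [sub_apply, e, c, sub_zero] at h1
  have := norm_pos_iff.2 hy
  nlinarith

theorem cont_min {β G : Type} [TopologicalSpace β] [TopologicalSpace G] {S : Set β}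
    {f : β × ℝ → G} (hc : ContinuousOn f (S ×ˢ I1)) (i N : ℕ) :
    ContinuousOn (fun p : β × ℝ => f (p.1, min p.2 ((i : ℝ) / N))) (S ×ˢ I1) :=
  hc.comp (by fun_prop) fun p hp => ⟨hp.1, min_mem hp.2 _ _⟩

theorem lift_gen {β : Type} [TopologicalSpace β] {S : Set β} {φ : β × ℝ → W →L[ℂ] W}
    (hc : ContinuousOn φ (S ×ˢ I1)) (h1 : ∀ p ∈ S ×ˢ I1, R1 (φ p)) {N : ℕ} (hN : 0 < N)
    (hu : ∀ x ∈ S, ∀ a ∈ I1, ∀ b ∈ I1, |a - b| ≤ 1 / N → ‖φ (x, a) - φ (x, b)‖ < 1)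
    {L : β → W} (hL : Lf S (fun x => φ (x, 0)) L) :
    Lf (S ×ˢ I1) φ (fun p => tr N (fun t => φ (p.1, t)) p.2 (L p.1) N) ∧
      ∀ x ∈ S, tr N (fun t => φ (x, t)) 0 (L x) N = L x := by
  have key : ∀ i : ℕ, Lf (S ×ˢ I1) (fun p => φ (p.1, min p.2 ((i : ℝ) / N)))
      (fun p => tr N (fun t => φ (p.1, t)) p.2 (L p.1) i) := by
    intro i
    induction i with
    | zero =>
      refine ⟨hL.1.comp continuousOn_fst fun p hp => hp.1, fun p hp => ?_⟩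
      have : min p.2 (((0 : ℕ) : ℝ) / N) = 0 := by simpa using hp.2.1
      simp only [this]
      exact hL.2 _ hp.1
    | succ i ih =>
      refine ⟨(cont_min hc (i + 1) N).clm_apply ih.1, fun p hp => ⟨?_, ?_⟩⟩
      · exact ne_of_close (hu _ hp.1 _ (min_mem hp.2 _ _) _ (min_mem hp.2 _ _) (min_step _ i N))
          (ih.2 p hp).1 (ih.2 p hp).2
      · exact (h1 (p.1, min p.2 (((i + 1 : ℕ) : ℝ) / N)) ⟨hp.1, min_mem hp.2 _ _⟩).idem _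
  have hN' : (N : ℝ) ≠ 0 := by exact_mod_cast hN.ne'
  refine ⟨⟨(key N).1, fun p hp => ⟨((key N).2 p hp).1, ?_⟩⟩, fun x hx => ?_⟩
  · have := ((key N).2 p hp).2
    simp only [div_self hN', min_eq_left hp.2.2] at this
    exact this
  · suffices h : ∀ i, tr N (fun t => φ (x, t)) 0 (L x) i = L x from h N
    intro i
    induction i with
    | zero => rfl
    | succ i ih =>
      rw [tr, ih, min_eq_left (by positivity)]
      exact (hL.2 x hx).2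

theorem exists_mesh {β G : Type} [PseudoMetricSpace β] [NormedAddCommGroup G] {S : Set β}
    (hS : IsCompact S) {f : β × ℝ → G} (hc : ContinuousOn f (S ×ˢ I1)) {ε : ℝ} (hε : 0 < ε) :
    ∃ N : ℕ, 0 < N ∧ ∀ x ∈ S, ∀ a ∈ I1, ∀ b ∈ I1, |a - b| ≤ 1 / N → ‖f (x, a) - f (x, b)‖ < ε := by
  obtain ⟨δ, hδ, h⟩ := Metric.uniformContinuousOn_iff.1
    ((hS.prod isCompact_Icc).uniformContinuousOn_of_continuous hc) ε hε
  obtain ⟨N, hN⟩ := exists_nat_one_div_lt hδ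
  refine ⟨N + 1, N.succ_pos, fun x hx a ha b hb hab => ?_⟩
  rw [← dist_eq_norm]
  refine h (x, a) ⟨hx, ha⟩ (x, b) ⟨hx, hb⟩ ?_
  rw [Prod.dist_eq, dist_self, Real.dist_eq]
  push_cast at hab
  exact max_lt hδ (hab.trans_lt hN)

theorem cont_desc {e g : ℝ → ℂ} (he : Continuous e) (hg : ContinuousOn g I1) {h : ℂ → ℂ}
    (hh : ∀ θ ∈ I1, h (e θ) = g θ) : ContinuousOn h (e '' I1) := by
  refine continuousOn_iff_isClosed.2 fun T hT => ⟨e '' (I1 ∩ g ⁻¹' T), ?_, ?_⟩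
  · exact ((isCompact_Icc.of_isClosed_subset (hg.preimage_isClosed_of_isClosed isClosed_Icc hT)
      Set.inter_subset_left).image he).isClosed
  · ext z
    constructor
    · rintro ⟨h1, θ, h2, rfl⟩
      exact ⟨⟨θ, ⟨h2, by rw [Set.mem_preimage, ← hh θ h2]; exact h1⟩, rfl⟩, θ, h2, rfl⟩
    · rintro ⟨⟨θ, ⟨h2, h1⟩, rfl⟩, h3⟩
      exact ⟨by rw [Set.mem_preimage, hh θ h2]; exact h1, h3⟩

theorem smul_mem {z : ℂ} (hz : z ∈ D1) {t : ℝ} (ht : t ∈ I1) : (t : ℂ) * z ∈ D1 := by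
  rw [mem_closedBall_zero_iff] at hz ⊢
  rw [norm_mul, Complex.norm_real, Real.norm_of_nonneg ht.1]
  exact mul_le_one₀ ht.2 (norm_nonneg _) hz

end LiftAux

open LiftAux

theorem Lf.ratio {α : Type} [TopologicalSpace α] {S : Set α} {φ : α → W →L[ℂ] W} {L M : α → W}
    (h1 : ∀ x ∈ S, R1 (φ x)) (hL : Lf S φ L) (hM : Lf S φ M) :
    ∃ c : α → ℂ, ContinuousOn c S ∧ ∀ x ∈ S, c x ≠ 0 ∧ M x = c x • L x := by
  have : ∀ x, ∃ c : ℂ, x ∈ S → M x = c • L x := fun x => by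
    by_cases hx : x ∈ S
    · obtain ⟨c, hc⟩ := (h1 x hx).rank _ _ (hL.2 x hx).1 (hL.2 x hx).2 (hM.2 x hx).2
      exact ⟨c, fun _ => hc⟩
    · exact ⟨0, fun h => absurd h hx⟩
  choose c hc using this
  refine ⟨c, fun x hx => ?_, fun x hx => ⟨fun e => ?_, hc x hx⟩⟩
  · obtain ⟨f, -, hf⟩ := exists_dual_vector ℂ (L x) (norm_ne_zero_iff.2 (hL.2 x hx).1)
    have f0 : f (L x) ≠ 0 := by
      rw [hf]
      exact RCLike.ofReal_ne_zero.2 (norm_ne_zero_iff.2 (hL.2 x hx).1)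
    have c1 : ContinuousWithinAt (fun z => f (L z)) S x :=
      f.continuous.continuousAt.comp_continuousWithinAt (hL.1 x hx)
    have c2 : ContinuousWithinAt (fun z => f (M z)) S x :=
      f.continuous.continuousAt.comp_continuousWithinAt (hM.1 x hx)
    have e : ∀ z ∈ S, f (L z) ≠ 0 → c z = f (M z) / f (L z) := fun z hz h => by
      rw [hc z hz, map_smul, smul_eq_mul, mul_div_cancel_right₀ _ h]
    refine (c2.div c1 f0).congr_of_eventuallyEq ?_ (e x hx f0)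
    filter_upwards [c1.eventually_ne f0, self_mem_nhdsWithin] with z h hz using e z hz h
  · exact (hM.2 x hx).1 (by rw [hc x hx, e, zero_smul])

theorem lift_cyl {α : Type} [PseudoMetricSpace α] {K : Set α} (hK : IsCompact K)
    {φ : α × ℝ → W →L[ℂ] W} (hc : ContinuousOn φ (K ×ˢ I1)) (h1 : ∀ p ∈ K ×ˢ I1, R1 (φ p))
    {L : α → W} (hL : Lf K (fun x => φ (x, 0)) L) :
    ∃ M : α × ℝ → W, Lf (K ×ˢ I1) φ M ∧ ∀ x ∈ K, M (x, 0) = L x := by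
  obtain ⟨N, hN, hu⟩ := exists_mesh hK hc one_pos
  exact ⟨_, lift_gen hc h1 hN hu hL⟩

theorem lift_hom {α E : Type} [PseudoMetricSpace α] [NormedAddCommGroup E] [NormedSpace ℂ E]
    {K : Set α} (hK : IsCompact K) {Y : Set E} (hY : IsCompact (Y ∩ sphere 0 1)) (h0 : (0 : E) ∉ Y)
    (hs : ∀ x ∈ Y, ∀ s : ℂ, s ≠ 0 → s • x ∈ Y) {φ : (α × E) × ℝ → W →L[ℂ] W}
    (hc : ContinuousOn φ ((K ×ˢ Y) ×ˢ I1)) (h1 : ∀ p ∈ (K ×ˢ Y) ×ˢ I1, R1 (φ p))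
    (hi : ∀ a ∈ K, ∀ x ∈ Y, ∀ t ∈ I1, ∀ s : ℂ, s ≠ 0 → φ ((a, s • x), t) = φ ((a, x), t))
    {k : ℤ} {L : α × E → W} (hL : Lf (K ×ˢ Y) (fun p => φ (p, 0)) L)
    (hk : ∀ a ∈ K, ∀ x ∈ Y, ∀ s : ℂ, s ≠ 0 → L (a, s • x) = s ^ k • L (a, x)) :
    ∃ M : (α × E) × ℝ → W, Lf ((K ×ˢ Y) ×ˢ I1) φ M ∧ (∀ p ∈ K ×ˢ Y, M (p, 0) = L p) ∧
      ∀ a ∈ K, ∀ x ∈ Y, ∀ t ∈ I1, ∀ s : ℂ, s ≠ 0 → M ((a, s • x), t) = s ^ k • M ((a, x), t) := by
  obtain ⟨N, hN, hu⟩ := exists_mesh (hK.prod hY)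
    (hc.mono (Set.prod_mono_left (Set.prod_mono_right Set.inter_subset_left))) one_pos
  have hu' : ∀ p ∈ K ×ˢ Y, ∀ a ∈ I1, ∀ b ∈ I1, |a - b| ≤ 1 / N → ‖φ (p, a) - φ (p, b)‖ < 1 := by
    rintro ⟨u, x⟩ ⟨hu1, hx⟩ a ha b hb hab
    have x0 : ‖x‖ ≠ 0 := norm_ne_zero_iff.2 fun e => h0 (e ▸ hx)
    have s0 : ((‖x‖ : ℝ) : ℂ)⁻¹ ≠ 0 := inv_ne_zero (Complex.ofReal_ne_zero.2 x0)
    rw [← hi u hu1 x hx a ha _ s0, ← hi u hu1 x hx b hb _ s0]
    refine hu (u, ((‖x‖ : ℝ) : ℂ)⁻¹ • x) ⟨hu1, hs x hx _ s0, ?_⟩ a ha b hb hab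
    rw [mem_sphere_zero_iff_norm, norm_smul, norm_inv, Complex.norm_real, norm_norm,
      inv_mul_cancel₀ x0]
  obtain ⟨g1, g2⟩ := lift_gen hc h1 hN hu' hL
  refine ⟨_, g1, g2, fun a ha x hx t ht s s0 => ?_⟩
  simp only [hk a ha x hx s s0]
  exact tr_congr (fun τ hτ => hi a ha x hx τ hτ s s0) ht _ _ _

theorem Dg.homotopy {E : Type} [NormedAddCommGroup E] [NormedSpace ℂ E] {Y : Set E}
    (hY : IsCompact (Y ∩ sphere 0 1)) (h0 : (0 : E) ∉ Y)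
    (hs : ∀ x ∈ Y, ∀ s : ℂ, s ≠ 0 → s • x ∈ Y) {φ : E × ℝ → W →L[ℂ] W}
    (hc : ContinuousOn φ (Y ×ˢ I1)) (h1 : ∀ p ∈ Y ×ˢ I1, R1 (φ p))
    (hi : ∀ x ∈ Y, ∀ t ∈ I1, ∀ s : ℂ, s ≠ 0 → φ (s • x, t) = φ (x, t)) {k : ℤ}
    (h : Dg Y (fun x => φ (x, 0)) k) : Dg Y (fun x => φ (x, 1)) k := by
  obtain ⟨L, hL, hk⟩ := h
  obtain ⟨M, g1, -, g3⟩ := lift_hom (α := ℝ) (K := {0}) isCompact_singleton hY h0 hs
    (φ := fun p => φ (p.1.2, p.2)) (hc.comp (by fun_prop) fun p hp => ⟨hp.1.2, hp.2⟩)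
    (fun p hp => h1 _ ⟨hp.1.2, hp.2⟩) (fun _ _ x hx t ht s s0 => hi x hx t ht s s0) (k := k)
    (L := fun p => L p.2) ⟨hL.1.comp continuousOn_snd fun p hp => hp.2, fun p hp => hL.2 _ hp.2⟩
    fun _ _ x hx s s0 => hk x hx s s0
  have o : (1 : ℝ) ∈ I1 := ⟨zero_le_one, le_rfl⟩
  exact ⟨fun x => M ((0, x), 1), ⟨g1.1.comp (by fun_prop) fun x hx => ⟨⟨rfl, hx⟩, o⟩,
    fun x hx => g1.2 ((0, x), 1) ⟨⟨rfl, hx⟩, o⟩⟩, fun x hx s s0 => g3 0 rfl x hx 1 o s s0⟩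

theorem log_cyl {α : Type} [PseudoMetricSpace α] {K : Set α} (hK : IsCompact K) {c : α × ℝ → ℂ}
    (hc : ContinuousOn c (K ×ˢ I1)) (h0 : ∀ p ∈ K ×ˢ I1, c p ≠ 0) :
    ∃ h : α × ℝ → ℂ, ContinuousOn h (K ×ˢ I1) ∧
      ∀ p ∈ K ×ˢ I1, c p = c (p.1, 0) * Complex.exp (h p) := by
  obtain ⟨m, hm, hb⟩ := (hK.prod isCompact_Icc).exists_forall_le' hc.norm
    (a := 0) fun p hp => norm_pos_iff.2 (h0 p hp)
  obtain ⟨N, hN, hu⟩ := exists_mesh hK hc hm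
  have key : ∀ i : ℕ, ∃ h : α × ℝ → ℂ, ContinuousOn h (K ×ˢ I1) ∧
      ∀ p ∈ K ×ˢ I1, c (p.1, min p.2 ((i : ℝ) / N)) = c (p.1, 0) * Complex.exp (h p) := by
    intro i
    induction i with
    | zero =>
      refine ⟨fun _ => 0, continuousOn_const, fun p hp => ?_⟩
      have : min p.2 (((0 : ℕ) : ℝ) / N) = 0 := by simpa using hp.2.1
      rw [this, Complex.exp_zero, mul_one]
    | succ i ih =>
      obtain ⟨h, g1, g2⟩ := ih
      have n0 : ∀ j : ℕ, ∀ p ∈ K ×ˢ I1, c (p.1, min p.2 ((j : ℝ) / N)) ≠ 0 := fun j p hp =>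
        h0 _ ⟨hp.1, min_mem hp.2 _ _⟩
      refine ⟨fun p => h p + Complex.log (c (p.1, min p.2 (((i + 1 : ℕ) : ℝ) / N)) /
        c (p.1, min p.2 ((i : ℝ) / N))), g1.add (((cont_min hc (i + 1) N).div (cont_min hc i N)
          (n0 i)).clog fun p hp => Complex.ball_one_subset_slitPlane ?_), fun p hp => ?_⟩
      · have a1 := hu _ hp.1 _ (min_mem hp.2 _ _) _ (min_mem hp.2 _ _) (min_step p.2 i N)
        have a2 := hb (p.1, min p.2 ((i : ℝ) / N)) ⟨hp.1, min_mem hp.2 _ _⟩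
        rw [mem_ball_iff_norm, Pi.div_apply, div_sub_one (n0 i p hp), norm_div,
          div_lt_one (norm_pos_iff.2 (n0 i p hp)), norm_sub_rev]
        exact a1.trans_le a2
      · rw [Complex.exp_add, Complex.exp_log (div_ne_zero (n0 _ p hp) (n0 i p hp)), ← mul_assoc,
          ← g2 p hp, mul_div_cancel₀ _ (n0 i p hp)]
  obtain ⟨h, g1, g2⟩ := key N
  have hN' : (N : ℝ) ≠ 0 := by exact_mod_cast hN.ne'
  refine ⟨h, g1, fun p hp => ?_⟩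
  rw [← g2 p hp, div_self hN', min_eq_left hp.2.2]

theorem log_disc {c : ℂ → ℂ} (hc : ContinuousOn c D1) (h0 : ∀ z ∈ D1, c z ≠ 0) :
    ∃ h : ℂ → ℂ, ContinuousOn h D1 ∧ ∀ z ∈ D1, Complex.exp (h z) = c z := by
  obtain ⟨h, g1, g2⟩ := log_cyl (isCompact_closedBall (0 : ℂ) 1)
    (c := fun p : ℂ × ℝ => c (p.2 * p.1)) (hc.comp (by fun_prop) fun p hp => smul_mem hp.1 hp.2)
    fun p hp => h0 _ (smul_mem hp.1 hp.2)
  have o : (1 : ℝ) ∈ I1 := ⟨zero_le_one, le_rfl⟩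
  refine ⟨fun z => Complex.log (c 0) + h (z, 1),
    continuousOn_const.add (g1.comp (by fun_prop) fun z hz => ⟨hz, o⟩), fun z hz => ?_⟩
  have := g2 (z, 1) ⟨hz, o⟩
  simp only [Complex.ofReal_one, one_mul, Complex.ofReal_zero, zero_mul] at this
  rw [Complex.exp_add, Complex.exp_log (h0 0 (by simp)), this]

theorem exists_wind {c : ℂ → ℂ} (hc : ContinuousOn c S1) (h0 : ∀ ζ ∈ S1, c ζ ≠ 0) :
    ∃ (k : ℤ) (h : ℂ → ℂ), ContinuousOn h S1 ∧ ∀ ζ ∈ S1, c ζ = ζ ^ k * Complex.exp (h ζ) := by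
  set e : ℝ → ℂ := fun θ => Complex.exp (θ * (2 * Real.pi * Complex.I)) with he
  have ec : Continuous e := by fun_prop
  have em : ∀ θ, e θ ∈ S1 := fun θ => by
    rw [mem_sphere_zero_iff_norm, he]
    simp only []
    rw [show (θ : ℂ) * (2 * Real.pi * Complex.I) = ((θ * (2 * Real.pi) : ℝ) : ℂ) * Complex.I by
      push_cast; ring, Complex.norm_exp_ofReal_mul_I]
  have e0 : e 0 = 1 := by simp [he]
  have e1 : e 1 = 1 := by simp [he]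
  have im : e '' I1 = S1 := by
    refine Set.Subset.antisymm (by rintro _ ⟨θ, -, rfl⟩; exact em θ) fun ζ hζ => ?_
    have p2 : (0 : ℝ) < 2 * Real.pi := by positivity
    refine ⟨Int.fract (ζ.arg / (2 * Real.pi)),
      ⟨Int.fract_nonneg _, (Int.fract_lt_one _).le⟩, ?_⟩
    have a1 := Complex.norm_mul_exp_arg_mul_I ζ
    rw [mem_sphere_zero_iff_norm.1 hζ, Complex.ofReal_one, one_mul] at a1
    rw [← a1, he]
    simp only []
    rw [Complex.exp_eq_exp_iff_exists_int]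
    refine ⟨-⌊ζ.arg / (2 * Real.pi)⌋, ?_⟩
    have p3 : (Real.pi : ℂ) ≠ 0 := Complex.ofReal_ne_zero.2 Real.pi_ne_zero
    rw [a1, Int.fract]
    push_cast
    field_simp
    ring
  obtain ⟨H, g1, g2⟩ := log_cyl (α := ℝ) (K := {0}) isCompact_singleton
    (c := fun p => c (e p.2)) (hc.comp (by fun_prop) fun p _ => em _) fun p _ => h0 _ (em _)
  have o0 : (0 : ℝ) ∈ I1 := ⟨le_rfl, zero_le_one⟩
  have o1 : (1 : ℝ) ∈ I1 := ⟨zero_le_one, le_rfl⟩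
  have c1 : c 1 ≠ 0 := h0 1 (by simp)
  have g3 : ∀ θ ∈ I1, c (e θ) = c 1 * Complex.exp (H (0, θ)) := fun θ hθ => by
    simpa only [e0] using g2 (0, θ) ⟨rfl, hθ⟩
  obtain ⟨k, hk⟩ : ∃ k : ℤ, H (0, 1) = H (0, 0) + k * (2 * Real.pi * Complex.I) := by
    rw [← Complex.exp_eq_exp_iff_exists_int]
    apply mul_left_cancel₀ c1
    rw [← g3 1 o1, ← g3 0 o0, e0, e1]
  set g : ℝ → ℂ := fun θ => Complex.log (c 1) + H (0, θ) - k * (θ * (2 * Real.pi * Complex.I))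
    with hg
  have gc : ContinuousOn g I1 :=
    (continuousOn_const.add (g1.comp (f := fun θ : ℝ => ((0 : ℝ), θ)) (by fun_prop)
      fun θ hθ => ⟨rfl, hθ⟩)).sub (by fun_prop)
  have g01 : g 1 = g 0 := by
    simp only [hg, hk]
    push_cast
    ring
  have wd : ∀ a ∈ I1, ∀ b ∈ I1, e a = e b → g a = g b := by
    intro a ha b hb hab
    obtain ⟨n, hn⟩ := Complex.exp_eq_exp_iff_exists_int.1 hab
    have a1 : (a : ℂ) = b + n := by
      apply mul_right_cancel₀ Complex.two_pi_I_ne_zero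
      rw [hn]; ring
    have a2 : a = b + n := by exact_mod_cast a1
    have a3 : (-1 : ℝ) ≤ n := by linarith [ha.1, hb.2]
    have a4 : (n : ℝ) ≤ 1 := by linarith [ha.2, hb.1]
    have a5 : -1 ≤ n := by exact_mod_cast a3
    have a6 : n ≤ 1 := by exact_mod_cast a4
    interval_cases n
    · push_cast at a2
      rw [show a = 0 by linarith [ha.1, hb.2], show b = 1 by linarith [ha.1, hb.2], g01]
    · rw [show a = b by simpa using a2]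
    · push_cast at a2
      rw [show a = 1 by linarith [ha.2, hb.1], show b = 0 by linarith [ha.2, hb.1], g01]
  have : ∀ ζ : ℂ, ∃ v : ℂ, ∀ θ ∈ I1, e θ = ζ → v = g θ := fun ζ => by
    by_cases hz : ∃ θ ∈ I1, e θ = ζ
    · obtain ⟨a, ha, rfl⟩ := hz
      exact ⟨g a, fun b hb hab => wd a ha b hb hab.symm⟩
    · exact ⟨0, fun θ h1 h2 => absurd ⟨θ, h1, h2⟩ hz⟩
  choose h hh using this
  refine ⟨k, h, im ▸ cont_desc ec gc fun θ hθ => hh _ θ hθ rfl, fun ζ hζ => ?_⟩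
  rw [← im] at hζ
  obtain ⟨θ, hθ, rfl⟩ := hζ
  rw [hh _ θ hθ rfl, g3 θ hθ, he, hg]
  simp only []
  rw [← Complex.exp_int_mul, ← Complex.exp_add, add_sub_cancel, Complex.exp_add,
    Complex.exp_log c1]

theorem lift_disc {φ : ℂ → W →L[ℂ] W} (hc : ContinuousOn φ D1) (h1 : ∀ z ∈ D1, R1 (φ z)) :
    ∃ L, Lf D1 φ L := by
  obtain ⟨y, y0, hy⟩ := (h1 0 (by simp)).ex
  obtain ⟨M, g1, -⟩ := lift_cyl (isCompact_closedBall (0 : ℂ) 1)
    (φ := fun p : ℂ × ℝ => φ (p.2 * p.1)) (hc.comp (by fun_prop) fun p hp => smul_mem hp.1 hp.2)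
    (fun p hp => h1 _ (smul_mem hp.1 hp.2)) (L := fun _ => y)
    ⟨continuousOn_const, fun z _ => ⟨y0, by simpa using hy⟩⟩
  have o : (1 : ℝ) ∈ I1 := ⟨zero_le_one, le_rfl⟩
  refine ⟨fun z => M (z, 1), g1.1.comp (by fun_prop) fun z hz => ⟨hz, o⟩, fun z hz => ?_⟩
  simpa using g1.2 (z, 1) ⟨hz, o⟩

end Pool.Agent.Lib.MP_879098_ag.Q2
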