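import Pool.Agent.Lib.MP_879098_ag.QGeoDef
import Pool.Agent.Lib.MP_879098_ag.QTan
import Pool.Agent.Lib.MP_879098_ag.SSmooth

/-! The derivative of the Segre map. -/

namespace Pool.Agent.Lib.MP_879098_ag.Q2

open Polynomial Filter Topology Metric Sm

namespace Sg

theorem seg_update (u : W6) (i : Fin 6) (y : Fin 2 → ℂ) (j : Fin (63 + 1)) :
    seg (Function.update u i y) j = (∏ l ∈ Finset.univ.erase i, u l (idx j l)) * y (idx j i) := by
  rw [seg, ← Finset.prod_erase_mul _ _ (Finset.mem_univ i), Function.update_self]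
  congr 1
  exact Finset.prod_congr rfl fun l hl => by
    rw [Function.update_of_ne (Finset.ne_of_mem_erase hl)]

theorem dseg_apply (u g : W6) (j : Fin (63 + 1)) :
    dseg u g j = ∑ i, (∏ l ∈ Finset.univ.erase i, u l (idx j l)) * g i (idx j i) := by
  simp only [dseg, Finset.sum_apply, seg_update]

/-- the pairing of two pairs -/
def pr (c x : Fin 2 → ℂ) : ℂ := c 0 * x 0 + c 1 * x 1

/-- the tensor product of six linear forms -/
noncomputable def ph (c : W6) : VV 63 →L[ℂ] ℂ :=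
  ∑ j, (∏ i, c i (idx j i)) • ContinuousLinearMap.proj j

theorem ph_seg (c x : W6) : ph c (seg x) = ∏ i, pr (c i) (x i) := by
  have e : ∀ i, pr (c i) (x i) = ∑ a, c i a * x i a := fun i => by simp [pr, Fin.sum_univ_two]
  simp only [e]
  rw [Fintype.prod_sum, ← idx.sum_comp]
  simp only [ph, _root_.sum_apply, _root_.smul_apply,
    ContinuousLinearMap.proj_apply, seg, smul_eq_mul, Finset.prod_mul_distrib]

/-- the form that kills a pair -/
def kl (x : Fin 2 → ℂ) : Fin 2 → ℂ := ![-x 1, x 0]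

theorem pr_kl (x y : Fin 2 → ℂ) : pr (kl x) y = x 0 * y 1 - x 1 * y 0 := by
  simp only [pr, kl, Matrix.cons_val_zero, Matrix.cons_val_one]
  ring

theorem pr_kl_self (x : Fin 2 → ℂ) : pr (kl x) x = 0 := by rw [pr_kl]; ring

theorem exists_form {y z : Fin 2 → ℂ} (hy : y ≠ 0) (hz : z ≠ 0) :
    ∃ c, pr c y ≠ 0 ∧ pr c z ≠ 0 := by
  by_cases y0 : y 0 = 0
  · have y1 := H76.pair_ne hy y0
    by_cases z1 : z 1 = 0
    · have z0 : z 0 ≠ 0 := fun c => H76.pair_ne hz c z1
      exact ⟨![1, 1], by simpa [pr, y0] using y1, by simpa [pr, z1] using z0⟩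
    · exact ⟨![0, 1], by simpa [pr] using y1, by simpa [pr] using z1⟩
  · by_cases z0 : z 0 = 0
    · have z1 := H76.pair_ne hz z0
      by_cases y1 : y 1 = 0
      · exact ⟨![1, 1], by simpa [pr, y1] using y0, by simpa [pr, z0] using z1⟩
      · exact ⟨![0, 1], by simpa [pr] using y1, by simpa [pr] using z1⟩
    · exact ⟨![1, 0], by simpa [pr] using y0, by simpa [pr] using z0⟩

/-- forms that kill the factors in `S` -/
def cf (c u : W6) (S : Finset (Fin 6)) : W6 := fun l => if l ∈ S then kl (u l) else c l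

theorem ph_cf_zero (c u : W6) {S : Finset (Fin 6)} {i : Fin 6} (hi : i ∈ S) {x : W6}
    (hx : x i = u i) : ph (cf c u S) (seg x) = 0 := by
  rw [ph_seg]
  exact Finset.prod_eq_zero (Finset.mem_univ i) (by rw [cf, if_pos hi, hx, pr_kl_self])

theorem exists_test {u : W6} (hu : ∀ i, u i ≠ 0) (i : Fin 6) : ∃ (φ : VV 63 →L[ℂ] ℂ) (s : ℂ),
    s ≠ 0 ∧ φ (seg u) = 0 ∧ ∀ g, φ (dseg u g) = s * dl u g i := by
  choose c hc _ using fun l => exists_form (hu l) (hu l)
  refine ⟨ph (cf c u {i}), ∏ l ∈ Finset.univ.erase i, pr (c l) (u l),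
    Finset.prod_ne_zero_iff.2 fun l _ => hc l, ph_cf_zero c u (Finset.mem_singleton_self i) rfl,
    fun g => ?_⟩
  rw [dseg, map_sum, Finset.sum_eq_single i (fun l _ hl => ph_cf_zero c u
    (Finset.mem_singleton_self i) (Function.update_of_ne hl.symm _ _)) (by simp), ph_seg,
    ← Finset.prod_erase_mul _ _ (Finset.mem_univ i), Function.update_self]
  congr 1
  · refine Finset.prod_congr rfl fun l hl => ?_
    have := Finset.ne_of_mem_erase hl
    rw [Function.update_of_ne this, cf, if_neg (by simpa using this)]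
  · rw [cf, if_pos (Finset.mem_singleton_self i), pr_kl, dl]

theorem reflect_prod {ι : Type} (s : Finset ι) (p : ι → ℂ[X]) (δ : ι → ℕ)
    (h : ∀ i, (p i).natDegree ≤ δ i) :
    reflect (∑ i ∈ s, δ i) (∏ i ∈ s, p i) = ∏ i ∈ s, reflect (δ i) (p i) := by
  classical
  induction s using Finset.induction_on with
  | empty => simp
  | insert a s ha ih =>
    rw [Finset.sum_insert ha, Finset.prod_insert ha, Finset.prod_insert ha, reflect_mul _ _ (h a)
      ((natDegree_prod_le _ _).trans (Finset.sum_le_sum fun i _ => h i)), ih]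

theorem kc_smul {C : ℝ} {v : VV 63} (h : v ∈ KC C) (s : ℂ) : s • v ∈ KC C := fun e => by
  rw [Pi.smul_apply, Pi.smul_apply, norm_smul, norm_smul, mul_left_comm]
  exact mul_le_mul_of_nonneg_left (h e) (norm_nonneg s)

theorem isClosed_kc (C : ℝ) : IsClosed (KC C) := by
  rw [KC, Set.ofPred_forall]
  exact isClosed_iInter fun e => isClosed_le (by fun_prop) (by fun_prop)

theorem seg_five (U : W6) (e : Fin 6 → Fin 2) (a : Fin 2) :
    seg U (idx.symm (Function.update e 5 a)) =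
      (∏ l ∈ Finset.univ.erase 5, U l (e l)) * U 5 a := congrFun (prj_seg e U 5) a

theorem five_ne {C : ℝ} {U : W6} (hU : ∀ i, U i ≠ 0) (h : seg U ∈ KC C) : U 5 0 ≠ 0 := fun c => by
  choose e he using fun i => Function.ne_iff.1 (hU i)
  have := h e
  rw [seg_five, seg_five, c, mul_zero, norm_zero, mul_zero, norm_le_zero_iff] at this
  exact mul_ne_zero (Finset.prod_ne_zero_iff.2 fun l _ => he l) (H76.pair_ne (hU 5) c) this

theorem cone_seg {k : ℕ} {w : VV 63} (h : w ∈ cone (YY k)) :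
    ∃ (U : W6) (s : ℂ), Sol k U ∧ s ≠ 0 ∧ w = s • seg U := by
  obtain ⟨x, ⟨U, h1, h2⟩, h3⟩ := h
  obtain ⟨s, hs, e⟩ := h2.exists_smul h3
  exact ⟨U, s, h1, hs, e⟩

theorem minor (c u : W6) {i j : Fin 6} (hij : i ≠ j) (x : W6) :
    ph (cf c u {i, j}) (seg x) * ph (cf c u ∅) (seg x) =
      ph (cf c u {i}) (seg x) * ph (cf c u {j}) (seg x) := by
  simp only [ph_seg, ← Finset.prod_mul_distrib]
  refine Finset.prod_congr rfl fun l _ => ?_
  by_cases h1 : l = i
  · subst h1
    simp [cf, hij]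
  · by_cases h2 : l = j
    · subst h2
      simp [cf, h1, mul_comm]
    · simp [cf, h1, h2]

theorem tan_minor {k : ℕ} {U : W6} {s : ℂ} (hs : s ≠ 0) {v : VV 63}
    (h : IsTangent (YY k) (s • seg U) v) {c : W6} (hc : ∀ l, pr (c l) (U l) ≠ 0) {i j : Fin 6}
    (hij : i ≠ j) : ph (cf c U {i, j}) v = 0 := by
  obtain ⟨γ, h0, hd, hm⟩ := h
  have d : ∀ S, HasDerivAt (fun t => ph (cf c U S) (γ t)) (ph (cf c U S) v) 0 := fun S =>
    (ph (cf c U S)).hasFDerivAt.comp_hasDerivAt (0 : ℂ) hd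
  have e : (fun t => ph (cf c U {i, j}) (γ t) * ph (cf c U ∅) (γ t)) =ᶠ[𝓝 0]
      fun t => ph (cf c U {i}) (γ t) * ph (cf c U {j}) (γ t) := by
    filter_upwards [hm] with t ht
    obtain ⟨x, r, -, -, e⟩ := cone_seg ht
    simp only [e, map_smul, smul_eq_mul]
    linear_combination r ^ 2 * minor c U hij x
  have := (((d {i}).fun_mul (d {j})).congr_of_eventuallyEq e).unique ((d {i, j}).fun_mul (d ∅))
  simp only [h0, map_smul, ph_cf_zero c U (Finset.mem_singleton_self i) rfl,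
    ph_cf_zero c U (Finset.mem_singleton_self j) rfl,
    ph_cf_zero c U (Finset.mem_insert_self i {j}) rfl, smul_zero, mul_zero, zero_mul,
    add_zero] at this
  refine (mul_eq_zero.1 this.symm).resolve_right (smul_ne_zero hs ?_)
  rw [ph_seg]
  exact Finset.prod_ne_zero_iff.2 fun l _ => by simpa [cf] using hc l

/-- the factors of `qq` -/
def qfac : W6 := ![![1, 0], ![1, 0], ![1, 0], ![0, 1], ![0, 1], ![0, 1]]

theorem qfac_ne (i : Fin 6) : qfac i ≠ 0 := fun h => by
  have h0 := congrFun h 0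
  have h1 := congrFun h 1
  fin_cases i <;> simp [qfac] at h0 h1

theorem not_tan {k : ℕ} {C : ℝ} {u : VV 63} (hu : u ∈ KC C) : ¬IsTangent (YY k) u qq := fun h => by
  obtain ⟨U, s, hU, hs, rfl⟩ := cone_seg (tan_mem h)
  have h5 : U 5 0 ≠ 0 := five_ne hU.1 (by
    have := kc_smul hu s⁻¹
    rwa [inv_smul_smul₀ hs] at this)
  choose c hc hc' using fun l => exists_form (hU.1 l) (qfac_ne l)
  have key : ∀ i : Fin 6, i ≠ 5 → qfac i = ![0, 1] → U i 0 = 0 := fun i hi hq => by
    have := tan_minor hs h hc hi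
    rw [show qq = seg qfac from rfl, ph_seg, Finset.prod_eq_zero_iff] at this
    obtain ⟨l, -, hl⟩ := this
    by_cases h1 : l = i
    · subst h1
      simpa [cf, pr_kl, hq] using hl
    · by_cases h2 : l = 5
      · subst h2
        exact absurd (by simpa [cf, pr_kl, qfac] using hl) h5
      · exact absurd (by simpa [cf, h1, h2] using hl) (hc' l)
  have h3 := key 3 (by decide) rfl
  have h4 := key 4 (by decide) rfl
  have e := hU.2.2.1
  rw [h3, zero_mul, zero_mul] at e
  exact mul_ne_zero (mul_ne_zero (H76.pair_ne (hU.1 3) h3) (H76.pair_ne (hU.1 4) h4)) h5 e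

end Sg

open Sg

theorem hasDerivAt_seg {U : ℂ → W6} {U' : W6} {z : ℂ} (h : HasDerivAt U U' z) :
    HasDerivAt (fun z => seg (U z)) (dseg (U z) U') z := by
  refine hasDerivAt_pi.2 fun j => ?_
  rw [dseg_apply]
  exact HasDerivAt.fun_finsetProd (u := Finset.univ) (f := fun i z => U z i (idx j i))
    fun i _ => hasDerivAt_pi.1 (hasDerivAt_pi.1 h i) (idx j i)

theorem continuous_dseg : Continuous fun p : W6 × W6 => dseg p.1 p.2 := by
  refine continuous_pi fun j => ?_
  simp only [dseg_apply]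
  fun_prop

theorem i2_seg {u g : W6} (hu : ∀ i, u i ≠ 0) {i : Fin 6} (h : dl u g i ≠ 0) :
    I2 (seg u) (dseg u g) := fun a b e => by
  obtain ⟨φ, s, hs, h0, h1⟩ := exists_test hu i
  have := congrArg φ e
  rw [map_add, map_smul, map_smul, h0, h1, map_zero, smul_zero, zero_add] at this
  have hb : b = 0 := (smul_eq_zero.1 this).resolve_right (mul_ne_zero hs h)
  rw [hb, zero_smul, add_zero] at e
  exact ⟨(smul_eq_zero.1 e).resolve_right (seg_ne_iff.2 hu), hb⟩

theorem i3_seg {u g g' : W6} (hu : ∀ i, u i ≠ 0) {i j : Fin 6}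
    (h : dl u g i * dl u g' j ≠ dl u g j * dl u g' i) : I3 (seg u) (dseg u g) (dseg u g') :=
  fun a b c e => by
  have key : ∀ l, b * dl u g l + c * dl u g' l = 0 := fun l => by
    obtain ⟨φ, s, hs, h0, h1⟩ := exists_test hu l
    have := congrArg φ e
    simp only [map_add, map_smul, h0, h1, map_zero, smul_eq_mul] at this
    exact (mul_eq_zero.1 (by linear_combination this)).resolve_left hs
  have h' := sub_ne_zero.2 h
  have hb : b = 0 := (mul_eq_zero.1 (by
    linear_combination dl u g' j * key i - dl u g' i * key j)).resolve_right h'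
  have hc : c = 0 := (mul_eq_zero.1 (by
    linear_combination dl u g i * key j - dl u g j * key i)).resolve_right h'
  rw [hb, hc, zero_smul, zero_smul, add_zero, add_zero] at e
  exact ⟨(smul_eq_zero.1 e).resolve_right (seg_ne_iff.2 hu), hb, hc⟩

theorem pev_segP (U : Fin 6 → Tup 1) (w : ℂ) : pev (segP U) w = seg fun i => pev (U i) w :=
  funext fun j => by simp [pev, segP, seg, eval_prod]

theorem pev_der_segP (U : Fin 6 → Tup 1) (w : ℂ) :
    pev (der (segP U)) w = dseg (fun i => pev (U i) w) fun i => pev (der (U i)) w := by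
  refine (hasDerivAt_pev (segP U) w).unique ?_
  rw [show pev (segP U) = fun w => seg fun i => pev (U i) w from funext (pev_segP U)]
  exact hasDerivAt_seg (U := fun w i => pev (U i) w)
    (hasDerivAt_pi.2 fun i => hasDerivAt_pev (U i) w)

theorem deg_segP {U : Fin 6 → Tup 1} {δ : Fin 6 → ℕ} (h : ∀ i a, (U i a).natDegree ≤ δ i)
    (j : Fin (63 + 1)) : (segP U j).natDegree ≤ ∑ i, δ i :=
  (natDegree_prod_le _ _).trans (Finset.sum_le_sum fun i _ => h i _)

theorem rf_segP {U : Fin 6 → Tup 1} {δ : Fin 6 → ℕ} (h : ∀ i a, (U i a).natDegree ≤ δ i) :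
    rf (∑ i, δ i) (segP U) = segP fun i => rf (δ i) (U i) :=
  funext fun j => reflect_prod _ _ _ fun i => h i (idx j i)

theorem hom_segP {U : Fin 6 → Tup 1} {δ : Fin 6 → ℕ} (h : ∀ i a, (U i a).natDegree ≤ δ i)
    (x : ℂ × ℂ) : hom (segP U) (∑ i, δ i) x = seg fun i => hom (U i) (δ i) x := by
  rw [← hom_ext (deg_segP h) (H := fun x => seg fun i => hom (U i) (δ i) x)
    (continuous_seg.comp (continuous_pi fun i => continuous_hom _ _)) (fun s x => ?_) fun w => ?_]
  · simp only [hom_smul]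
    rw [seg_smul (fun i => s ^ δ i), Finset.prod_pow_eq_pow_sum]
  · simp only [hom_one (h _), pev_segP]

theorem gpt_mem_KC {l m l' m' : ℂ} {C : ℝ} (h : ‖l' * m'‖ ≤ C) : gpt l m l' m' ∈ KC C := fun e => by
  rw [gpt, seg_five, seg_five, norm_mul, norm_mul, mul_left_comm]
  refine mul_le_mul_of_nonneg_left ?_ (norm_nonneg _)
  simpa [pt] using h

theorem qq_ne : qq ≠ 0 := seg_ne_iff.2 qfac_ne

theorem sep {k : ℕ} (hk : 2 ≤ k) (C : ℝ) : ∃ c : ℝ, 0 < c ∧ ∀ u ∈ KC C, ∀ v,
    IsTangent (YY k) u v → c * ‖qq‖ ≤ ‖qq - v‖ := by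
  have q0 : 0 < ‖qq‖ := norm_pos_iff.2 qq_ne
  have hK := isCompact_cone (isZClosed_YY k)
  have h1 := isClosed_tan (isSmooth_YY k hk) (hK.isClosed.inter (isClosed_kc C))
    fun _ h => h.1.1
  have h2 : IsCompact ((cone (YY k) ∩ sphere 0 1) ×ˢ closedBall qq ‖qq‖ ∩
      {p : VV 63 × VV 63 | p.1 ∈ cone (YY k) ∩ sphere 0 1 ∩ KC C ∧ IsTangent (YY k) p.1 p.2}) :=
    (hK.prod (isCompact_closedBall _ _)).inter_right h1
  obtain ⟨a, a0, ha⟩ := h2.exists_forall_le' (f := fun p => ‖qq - p.2‖) (a := 0) (by fun_prop)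
    fun p hp => norm_pos_iff.2 (sub_ne_zero.2 fun e => not_tan hp.2.1.2 (e ▸ hp.2.2))
  refine ⟨min 1 (a / ‖qq‖), lt_min one_pos (by positivity), fun u hu v hv => ?_⟩
  rcases le_or_gt ‖qq - v‖ ‖qq‖ with g | g
  · have u0 : ‖u‖ ≠ 0 := norm_ne_zero_iff.2 (cone_ne (tan_mem hv))
    have s0 : ((‖u‖⁻¹ : ℝ) : ℂ) ≠ 0 := Complex.ofReal_ne_zero.2 (inv_ne_zero u0)
    have t := tan_scale hv s0
    have m : ((‖u‖⁻¹ : ℝ) : ℂ) • u ∈ cone (YY k) ∩ sphere 0 1 := ⟨tan_mem t, by
      rw [mem_sphere_zero_iff_norm, norm_smul, Complex.norm_real, norm_inv, norm_norm,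
        inv_mul_cancel₀ u0]⟩
    have := ha (((‖u‖⁻¹ : ℝ) : ℂ) • u, v)
      ⟨⟨m, mem_closedBall_iff_norm'.2 g⟩, ⟨m, kc_smul hu _⟩, t⟩
    refine le_trans ?_ this
    rw [← le_div_iff₀ q0]
    exact min_le_right _ _
  · exact (mul_le_of_le_one_left q0.le (min_le_left _ _)).trans g.le

end Pool.Agent.Lib.MP_879098_ag.Q2
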