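import Pool.Agent.Lib.MP_879098_ag.SBase

/-! Generic points of the surface near the central curve and its leaves. -/

namespace Pool.Agent.Lib.MP_879098_ag.Sm

open Filter Topology Polynomial Metric

namespace NearAux

theorem near1 {δ : ℝ} {x y : ℂ} (h : ‖y - x‖ < δ * max 1 ‖x‖) :
    Near δ (n := 1) ![1, x] ![1, y] := by
  have d0 : 0 < δ := by
    by_contra c
    have : δ * max 1 ‖x‖ ≤ 0 :=
      mul_nonpos_of_nonpos_of_nonneg (not_lt.1 c) (le_max_of_le_left zero_le_one)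
    linarith [norm_nonneg (y - x)]
  refine near_of_norm ?_
  have a1 : max 1 ‖x‖ ≤ ‖(![1, x] : VV 1)‖ := by
    refine max_le ?_ ?_
    · simpa using norm_le_pi_norm (![1, x] : VV 1) 0
    · simpa using norm_le_pi_norm (![1, x] : VV 1) 1
  have a2 : ‖(![1, y] : VV 1) - ![1, x]‖ ≤ ‖y - x‖ := by
    refine (pi_norm_le_iff_of_nonneg (norm_nonneg _)).2 fun i => ?_
    fin_cases i <;> simp
  exact a2.trans_lt (h.trans_le (mul_le_mul_of_nonneg_left a1 d0.le))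

theorem near_pt {δ : ℝ} (hδ : δ ≤ 1 / 10) {a b c d e f a' b' c' d' e' f' : ℂ}
    (h1 : ‖a' - a‖ < δ * max 1 ‖a‖) (h2 : ‖b' - b‖ < δ * max 1 ‖b‖)
    (h3 : ‖c' - c‖ < δ * max 1 ‖c‖) (h4 : ‖d' - d‖ < δ * max 1 ‖d‖)
    (h5 : ‖e' - e‖ < δ * max 1 ‖e‖) (h6 : ‖f' - f‖ < δ * max 1 ‖f‖) :
    Near (20 * δ) (seg (pt a b c d e f)) (seg (pt a' b' c' d' e' f')) := by
  refine near_seg hδ fun i => ?_
  fin_cases i
  exacts [near1 h1, near1 h2, near1 h3, near1 h4, near1 h5, near1 h6]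

theorem abs_bd {δ u : ℝ} (x : ℂ) (h0 : 0 < δ) (h : u < δ) : u < δ * max 1 ‖x‖ :=
  h.trans_le (le_mul_of_one_le_right h0.le (le_max_left _ _))

theorem rel_bd {δ u q : ℝ} {x : ℂ} (h0 : 0 ≤ q) (hq : q < δ) (h : u ≤ q * ‖x‖) :
    u < δ * max 1 ‖x‖ := by
  have a1 : (1 : ℝ) ≤ max 1 ‖x‖ := le_max_left _ _
  have a2 : ‖x‖ ≤ max 1 ‖x‖ := le_max_right _ _
  nlinarith

theorem prod_lower {ρ : ℝ} (hρ : 0 ≤ ρ) (w : ℂ) (S : Multiset ℂ) (h : ∀ c ∈ S, ρ ≤ ‖w - c‖) :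
    ρ ^ Multiset.card S ≤ ‖(S.map fun c => w - c).prod‖ := by
  induction S using Multiset.induction_on with
  | empty => simp
  | cons a S ih =>
    rw [Multiset.map_cons, Multiset.prod_cons, Multiset.card_cons, norm_mul, pow_succ']
    exact mul_le_mul (h a (Multiset.mem_cons_self _ _))
      (ih fun c hc => h c (Multiset.mem_cons_of_mem hc)) (by positivity) (norm_nonneg _)

theorem pow_lower {n : ℕ} (hn : 0 < n) {ρ : ℝ} (hρ : 0 ≤ ρ) (a w : ℂ)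
    (h : ∀ c : ℂ, c ^ n = a → ρ ≤ ‖w - c‖) : ρ ^ n ≤ ‖w ^ n - a‖ := by
  have hm : (X ^ n - C a : ℂ[X]).Monic := monic_X_pow_sub_C a hn.ne'
  have hc : Multiset.card (X ^ n - C a : ℂ[X]).roots = (X ^ n - C a : ℂ[X]).natDegree :=
    IsAlgClosed.card_roots_eq_natDegree
  have e := congrArg (eval w) (prod_multiset_X_sub_C_of_monic_of_roots_card_eq hm hc)
  rw [eval_multiset_prod, Multiset.map_map] at e
  simp only [Function.comp_def, eval_sub, eval_X, eval_C, eval_pow] at e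
  have := prod_lower hρ w (X ^ n - C a : ℂ[X]).roots fun c hc => h c (by
    have := (mem_roots hm.ne_zero).1 hc
    simpa [sub_eq_zero] using this)
  rwa [e, hc, natDegree_X_pow_sub_C] at this

/-- away from the roots of `x ^ n = a` the square root of `t (a + x ^ n) / (a - x ^ n)` is small -/
theorem small_of_far {n : ℕ} (hn : 0 < n) {ρ ε : ℝ} (hρ : 0 < ρ) (hε : 0 < ε) :
    ∃ r : ℝ, 0 < r ∧ ∀ a w p q : ℂ, ‖a‖ = 1 → p * (a - w ^ n) = q * (a + w ^ n) → ‖p * q‖ < r →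
      (∀ c : ℂ, c ^ n = a → ρ ≤ ‖w - c‖) → ‖p‖ < ε := by
  have m0 : 0 < ρ ^ n := pow_pos hρ n
  refine ⟨ε ^ 2 * ρ ^ n / (ρ ^ n + 2), by positivity, fun a w p q ha e hr h => ?_⟩
  have a1 := pow_lower hn hρ.le a w h
  have a2 : ‖a + w ^ n‖ ≤ ‖w ^ n - a‖ + 2 := by
    calc _ = ‖(w ^ n - a) + 2 * a‖ := by ring_nf
      _ ≤ ‖w ^ n - a‖ + ‖2 * a‖ := norm_add_le _ _
      _ = _ := by simp [ha]
  have a3 : ‖p‖ ^ 2 * ‖w ^ n - a‖ = ‖p * q‖ * ‖a + w ^ n‖ := by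
    rw [norm_sub_rev, ← norm_pow, ← norm_mul, ← norm_mul]
    congr 1
    linear_combination p * e
  rw [lt_div_iff₀ (by positivity)] at hr
  by_contra c
  have c1 : ε ^ 2 ≤ ‖p‖ ^ 2 := pow_le_pow_left₀ hε.le (not_lt.1 c) 2
  set N := ‖w ^ n - a‖
  set T := ‖p * q‖
  have T0 : 0 ≤ T := norm_nonneg _
  have b1 : ε ^ 2 * N ≤ T * (N + 2) :=
    calc ε ^ 2 * N ≤ ‖p‖ ^ 2 * N := mul_le_mul_of_nonneg_right c1 (norm_nonneg _)
      _ = T * ‖a + w ^ n‖ := a3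
      _ ≤ _ := mul_le_mul_of_nonneg_left a2 T0
  have b2 : T < ε ^ 2 := by nlinarith
  nlinarith

theorem pow_small {k : ℕ} (hk : 0 < k) {t : ℂ} {r : ℝ} (h : ‖t‖ < r) (hr : r ≤ 1) :
    ‖t ^ k‖ ≤ r := by
  rw [norm_pow]
  exact (pow_le_of_le_one (norm_nonneg _) (h.le.trans hr) hk.ne').trans h.le

theorem ratio {l m T : ℂ} {r : ℝ} (e : l * (1 - T) = m * (1 + T)) (hT : ‖T‖ ≤ r)
    (hr : r ≤ 1 / 2) : ‖m - l‖ ≤ 4 * r * ‖l‖ := by
  have a1 : ‖m - l‖ = ‖T‖ * ‖2 * l + (m - l)‖ := by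
    rw [← norm_mul, ← norm_neg]
    congr 1
    linear_combination e
  have a2 : ‖2 * l + (m - l)‖ ≤ 2 * ‖l‖ + ‖m - l‖ := by
    simpa using norm_add_le (2 * l) (m - l)
  have r0 : 0 ≤ r := (norm_nonneg _).trans hT
  have a3 : ‖m - l‖ ≤ r * (2 * ‖l‖ + ‖m - l‖) :=
    a1.le.trans (mul_le_mul hT a2 (norm_nonneg _) r0)
  nlinarith [norm_nonneg (m - l), norm_nonneg l]

theorem root_close {l m w : ℂ} {r : ℝ} (hl : l ≠ 0) (hw : w ^ 2 = l * m)
    (h : ‖m - l‖ ≤ 4 * r * ‖l‖) (hs : ‖l - w‖ ≤ ‖l + w‖) (r0 : 0 ≤ r) (hr : r ≤ 1 / 8) :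
    ‖l - w‖ ≤ 8 * r * ‖w‖ ∧ ‖m - w‖ ≤ 16 * r * ‖w‖ := by
  have l0 : 0 < ‖l‖ := norm_pos_iff.2 hl
  have a1 : ‖l - w‖ * ‖l + w‖ = ‖l‖ * ‖m - l‖ := by
    rw [← norm_mul, ← norm_mul, ← norm_neg]
    congr 1
    linear_combination hw
  have a2 : 2 * ‖l‖ ≤ ‖l - w‖ + ‖l + w‖ := by
    calc 2 * ‖l‖ = ‖(l - w) + (l + w)‖ := by
          rw [show l - w + (l + w) = 2 * l by ring]; simp
      _ ≤ _ := norm_add_le _ _
  have a3 : ‖l - w‖ * ‖l‖ ≤ 4 * r * ‖l‖ * ‖l‖ := by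
    calc ‖l - w‖ * ‖l‖ ≤ ‖l - w‖ * ‖l + w‖ :=
          mul_le_mul_of_nonneg_left (by linarith) (norm_nonneg _)
      _ = ‖l‖ * ‖m - l‖ := a1
      _ ≤ ‖l‖ * (4 * r * ‖l‖) := mul_le_mul_of_nonneg_left h l0.le
      _ = _ := by ring
  have a4 : ‖l - w‖ ≤ 4 * r * ‖l‖ := le_of_mul_le_mul_right a3 l0
  have a5 : ‖l‖ ≤ ‖w‖ + ‖l - w‖ := by simpa using norm_add_le w (l - w)
  have a6 : ‖l‖ ≤ 2 * ‖w‖ := by nlinarith
  have a7 : ‖m - w‖ ≤ ‖m - l‖ + ‖l - w‖ := by simpa using norm_add_le (m - l) (l - w)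
  constructor <;> nlinarith

theorem exists_gap (Z : Finset ℂ) : ∃ g : ℝ, 0 < g ∧ ∀ c ∈ Z, ∀ c' ∈ Z, ‖c - c'‖ < g → c = c' := by
  classical
  by_cases h : ((Z ×ˢ Z).filter fun p => p.1 ≠ p.2).Nonempty
  · obtain ⟨p, hp, hm⟩ := Finset.exists_min_image _ (fun p : ℂ × ℂ => ‖p.1 - p.2‖) h
    refine ⟨_, norm_pos_iff.2 (sub_ne_zero.2 (Finset.mem_filter.1 hp).2), fun c hc c' hc' g => ?_⟩
    by_contra n
    exact g.not_ge (hm (c, c') (Finset.mem_filter.2 ⟨Finset.mk_mem_product hc hc', n⟩))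
  · refine ⟨1, one_pos, fun c hc c' hc' _ => ?_⟩
    by_contra n
    exact h ⟨(c, c'), Finset.mem_filter.2 ⟨Finset.mk_mem_product hc hc', n⟩⟩

theorem norm_one {n : ℕ} (hn : 0 < n) {c a : ℂ} (h : c ^ n = a) (ha : ‖a‖ = 1) : ‖c‖ = 1 := by
  rw [← h, norm_pow] at ha
  exact (pow_eq_one_iff_of_nonneg (norm_nonneg _) hn.ne').1 ha

theorem mem_pos {k : ℕ} (hk : 0 < k) {c : ℂ} (h : c ^ (2 * k) = 1) : c ∈ ZZ k :=
  (mem_ZZ hk).2 (Or.inr (by rw [show 4 * k = 2 * k * 2 by ring, pow_mul, h]; norm_num))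

theorem mem_neg {k : ℕ} (hk : 0 < k) {c : ℂ} (h : c ^ (2 * k) = -1) : c ∈ ZZ k :=
  (mem_ZZ hk).2 (Or.inr (by rw [show 4 * k = 2 * k * 2 by ring, pow_mul, h]; norm_num))

theorem par_zero {k : ℕ} (hk : 0 < k) (l' m' : ℂ) : par k 0 l' m' = l' :=
  if_neg (by rw [zero_pow (by omega)]; norm_num)

theorem par_pos {k : ℕ} {c : ℂ} (h : c ^ (2 * k) = 1) (l' m' : ℂ) : par k c l' m' = l' :=
  if_neg (by rw [h]; norm_num)

theorem par_neg {k : ℕ} {c : ℂ} (h : c ^ (2 * k) = -1) (l' m' : ℂ) : par k c l' m' = m' :=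
  if_pos h

theorem sq_small {x : ℂ} {ε : ℝ} (hε : 0 < ε) (h : ‖x‖ ^ 2 < ε ^ 2) : ‖x‖ < ε :=
  lt_of_pow_lt_pow_left₀ 2 hε.le h

end NearAux

open NearAux in
theorem near_star (k : ℕ) (hk : 0 < k) (η : ℝ) (hη : 0 < η) : ∃ ρ₁ : ℝ, 0 < ρ₁ ∧
    ∀ ρ : ℝ, 0 < ρ → ρ ≤ ρ₁ → ∀ M : ℝ, ∃ r : ℝ, 0 < r ∧ ∀ l m l' m' w : ℂ, Gen k l m l' m' →
      w ^ 2 = l * m →
      ((‖l * m‖ < r ∧ ‖l‖ ≤ M * ‖m‖ ∧ ‖m‖ ≤ M * ‖l‖) ∨ (‖l' * m'‖ < r ∧ ‖l - w‖ ≤ ‖l + w‖)) →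
      ((∀ c ∈ ZZ k, ‖w - c‖ ≤ ρ → ‖par k c l' m'‖ ≤ ρ) → Near η (cen w) (gpt l m l' m')) ∧
        ∀ c ∈ ZZ k, ‖w - c‖ ≤ ρ → ρ / 2 ≤ ‖par k c l' m'‖ → ‖w - c‖ ≤ ρ / 2 ∧
          Near η (leaf k c (par k c l' m')) (gpt l m l' m') := by
  obtain ⟨δ, d0, d1, d2⟩ : ∃ δ : ℝ, 0 < δ ∧ δ ≤ 1 / 10 ∧ 20 * δ ≤ η :=
    ⟨min (1 / 10) (η / 20), by positivity, min_le_left _ _, by
      linarith [min_le_right (1 / 10) (η / 20)]⟩
  obtain ⟨g, g0, hg⟩ := exists_gap (ZZ k)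
  refine ⟨min (δ / 4) (g / 2), by positivity, fun ρ ρ0 ρ1 M => ?_⟩
  have ρδ : ρ ≤ δ / 4 := ρ1.trans (min_le_left _ _)
  have ρg : ρ ≤ g / 2 := ρ1.trans (min_le_right _ _)
  have k2 : 0 < 2 * k := by omega
  obtain ⟨r1, r10, hr1⟩ := small_of_far k2 (half_pos ρ0) (half_pos ρ0)
  have M0 : 0 < |M| + 1 := by positivity
  obtain ⟨r, r0, q1, q2, q3⟩ : ∃ r : ℝ, 0 < r ∧ r ≤ r1 ∧ r ≤ δ * ρ / 64 ∧
      (|M| + 1) * r ≤ (ρ / 2) ^ 2 := by
    refine ⟨min (min r1 (δ * ρ / 64)) ((ρ / 2) ^ 2 / (|M| + 1)), by positivity,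
      (min_le_left _ _).trans (min_le_left _ _), (min_le_left _ _).trans (min_le_right _ _), ?_⟩
    rw [← le_div_iff₀' M0]
    exact min_le_right _ _
  have q4 : r ≤ δ / 64 := by nlinarith
  refine ⟨r, r0, fun l m l' m' w G hw H => ?_⟩
  have s0 : ‖l * m - w ^ 2‖ < δ * max 1 ‖w ^ 2‖ := abs_bd _ d0 (by simpa [hw] using d0)
  rcases H with ⟨H1, H2, H3⟩ | ⟨H1, H2⟩
  · have b0 : ‖m' - l'‖ ≤ 4 * r * ‖l'‖ :=
      ratio G.eq' (pow_small hk H1 (by linarith)) (by linarith)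
    have P0 : 0 ≤ ‖l‖ * ‖m‖ := by positivity
    have H1' : ‖l‖ * ‖m‖ < r := by rwa [norm_mul] at H1
    have P1 : M * (‖l‖ * ‖m‖) < (ρ / 2) ^ 2 := by
      nlinarith [le_abs_self M, abs_nonneg M, mul_le_mul_of_nonneg_right (le_abs_self M) P0]
    have b1 : ‖l‖ < ρ / 2 := sq_small (half_pos ρ0) (by nlinarith [norm_nonneg l])
    have b2 : ‖m‖ < ρ / 2 := sq_small (half_pos ρ0) (by nlinarith [norm_nonneg m])
    have b3 : ‖w‖ < ρ / 2 := sq_small (half_pos ρ0) (by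
      rw [← norm_pow, hw]; nlinarith [abs_nonneg M])
    refine ⟨fun h => ?_, fun c hc h1 _ => ?_⟩
    · have c1 : ‖l'‖ ≤ ρ := by
        have := h 0 ((mem_ZZ hk).2 (Or.inl rfl)) (by rw [sub_zero]; linarith)
        rwa [par_zero hk] at this
      have c2 : ‖m'‖ ≤ 2 * ρ := by
        have : ‖m'‖ ≤ ‖l'‖ + ‖m' - l'‖ := by simpa using norm_add_le l' (m' - l')
        nlinarith [norm_nonneg l']
      refine (near_pt d1 (abs_bd _ d0 ?_) (abs_bd _ d0 ?_) s0 (abs_bd _ d0 ?_) (abs_bd _ d0 ?_)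
        (abs_bd _ d0 ?_)).mono d2
      · linarith [norm_sub_le l w]
      · linarith [norm_sub_le m w]
      · rw [sub_zero]; linarith
      · rw [sub_zero]; linarith
      · rw [sub_zero, norm_mul]
        nlinarith [mul_le_mul c1 c2 (norm_nonneg _) ρ0.le]
    · have hc0 : c = 0 := by
        rcases (mem_ZZ hk).1 hc with h | h
        · exact h
        · have := norm_one (by omega) h norm_one
          have : ‖c‖ ≤ ‖w‖ + ‖w - c‖ := by simpa using norm_sub_le w (w - c)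
          linarith
      subst hc0
      refine ⟨by rw [sub_zero]; exact b3.le, ?_⟩
      have e1 : al k 0 = 1 := if_neg (by rw [zero_pow (by omega)]; norm_num)
      have e2 : be k 0 = 1 := if_neg (by rw [zero_pow (by omega)]; norm_num)
      rw [par_zero hk, leaf, e1, e2]
      refine (near_pt d1 (abs_bd _ d0 ?_) (abs_bd _ d0 ?_) (abs_bd _ d0 ?_) (abs_bd _ d0 ?_)
        (rel_bd (q := 4 * r) (by positivity) (by linarith) ?_)
        (rel_bd (q := 4 * r) (by positivity) (by linarith) ?_)).mono d2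
      · rw [sub_zero]; linarith
      · rw [sub_zero]; linarith
      · rw [zero_pow two_ne_zero, sub_zero]; linarith
      · simpa using d0
      · simpa using b0
      · rw [one_mul, one_mul, show l' * m' - l' ^ 2 = l' * (m' - l') by ring, norm_mul, norm_pow]
        nlinarith [norm_nonneg l']
  · obtain ⟨b1, b2⟩ := root_close G.l0 hw
      (ratio G.eq (pow_small hk H1 (by linarith)) (by linarith)) H2 r0.le (by linarith)
    have ws : (l * m) ^ k = w ^ (2 * k) := by rw [pow_mul, hw]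
    have R1 : (∀ c : ℂ, c ^ (2 * k) = 1 → ρ / 2 ≤ ‖w - c‖) → ‖l'‖ < ρ / 2 :=
      hr1 1 w l' m' norm_one (by rw [← ws]; exact G.eq') (by linarith)
    have R2 : (∀ c : ℂ, c ^ (2 * k) = -1 → ρ / 2 ≤ ‖w - c‖) → ‖m'‖ < ρ / 2 :=
      hr1 (-1) w m' l' (by simp) (by rw [← ws]; linear_combination G.eq')
        (by rw [mul_comm]; linarith)
    have t0 : ∀ x : ℂ, x = 0 → ‖l' * m' - x‖ < δ * max 1 ‖x‖ := fun x hx =>
      abs_bd _ d0 (by rw [hx, sub_zero]; linarith)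
    refine ⟨fun h => ?_, fun c hc h1 h2 => ?_⟩
    · have c1 : ‖l'‖ ≤ ρ := by
        by_contra n
        refine n (le_trans (R1 fun c hc => ?_).le (by linarith))
        by_contra n'
        exact n (par_pos hc l' m' ▸ h c (mem_pos hk hc) (by linarith [not_le.1 n']))
      have c2 : ‖m'‖ ≤ ρ := by
        by_contra n
        refine n (le_trans (R2 fun c hc => ?_).le (by linarith))
        by_contra n'
        exact n (par_neg hc l' m' ▸ h c (mem_neg hk hc) (by linarith [not_le.1 n']))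
      refine (near_pt d1 (rel_bd (by positivity) (by linarith) b1)
        (rel_bd (by positivity) (by linarith) b2) s0 (abs_bd _ d0 ?_) (abs_bd _ d0 ?_)
        (t0 0 rfl)).mono d2
      · rw [sub_zero]; linarith
      · rw [sub_zero]; linarith
    · have uniq : ∀ c' ∈ ZZ k, ‖w - c'‖ < ρ / 2 → ‖w - c‖ ≤ ρ / 2 := fun c' hc' h => by
        have : ‖c - c'‖ ≤ ‖w - c'‖ + ‖w - c‖ := by
          simpa using norm_sub_le (w - c') (w - c)
        rw [hg c hc c' hc' (by linarith)]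
        exact h.le
      have three : ‖c‖ = 1 → ‖l - c‖ < δ * max 1 ‖c‖ ∧ ‖m - c‖ < δ * max 1 ‖c‖ ∧
          ‖l * m - c ^ 2‖ < δ * max 1 ‖c ^ 2‖ := fun n => by
        have w2 : ‖w‖ ≤ 2 := by
          have : ‖w‖ ≤ ‖c‖ + ‖w - c‖ := by simpa using norm_add_le c (w - c)
          linarith
        have u1 : ‖l - c‖ ≤ ‖l - w‖ + ‖w - c‖ := by simpa using norm_add_le (l - w) (w - c)
        have u2 : ‖m - c‖ ≤ ‖m - w‖ + ‖w - c‖ := by simpa using norm_add_le (m - w) (w - c)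
        refine ⟨abs_bd _ d0 (by nlinarith), abs_bd _ d0 (by nlinarith), abs_bd _ d0 ?_⟩
        rw [← hw, show w ^ 2 - c ^ 2 = (w - c) * (w + c) by ring, norm_mul]
        have u3 : ‖w + c‖ ≤ 3 := by linarith [norm_add_le w c]
        nlinarith [mul_le_mul h1 u3 (norm_nonneg _) ρ0.le]
      have other : ∀ p q : ℂ, ‖p * q‖ < r → ρ / 2 ≤ ‖p‖ → ‖q‖ < δ := fun p q a b => by
        rw [norm_mul] at a
        by_contra n
        nlinarith [mul_le_mul b (not_lt.1 n) d0.le (norm_nonneg _)]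
      rcases ZZ_cases hk hc with ⟨e0, -, -⟩ | ⟨e0, e1, e2⟩ | ⟨e0, e1, e2⟩
      · subst e0
        rw [par_zero hk] at h2
        refine absurd (R1 fun c hc => ?_) (not_lt.2 h2)
        have := norm_one k2 hc norm_one
        have : ‖c‖ ≤ ‖w - 0‖ + ‖w - c‖ := by simpa using norm_sub_le w (w - c)
        linarith
      · rw [par_pos e0] at h2 ⊢
        obtain ⟨u1, u2, u3⟩ := three (norm_one k2 e0 norm_one)
        refine ⟨?_, ?_⟩
        · by_contra n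
          refine absurd (R1 fun c' hc' => ?_) (not_lt.2 h2)
          by_contra n'
          exact n (uniq c' (mem_pos hk hc') (not_le.1 n'))
        · rw [leaf, e1, e2]
          refine (near_pt d1 u1 u2 u3 (abs_bd _ d0 ?_) (abs_bd _ d0 ?_) (t0 _ (by ring))).mono d2
          · simpa using d0
          · simpa using other l' m' H1 h2
      · rw [par_neg e0] at h2 ⊢
        obtain ⟨u1, u2, u3⟩ := three (norm_one k2 e0 (by simp))
        refine ⟨?_, ?_⟩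
        · by_contra n
          refine absurd (R2 fun c' hc' => ?_) (not_lt.2 h2)
          by_contra n'
          exact n (uniq c' (mem_neg hk hc') (not_le.1 n'))
        · rw [leaf, e1, e2]
          refine (near_pt d1 u1 u2 u3 (abs_bd _ d0 ?_) (abs_bd _ d0 ?_) (t0 _ (by ring))).mono d2
          · simpa using other m' l' (by rwa [mul_comm]) h2
          · simpa using d0

end Pool.Agent.Lib.MP_879098_ag.Sm
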