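import Pool.Agent.Lib.MP_879098_ag.QDisc
import Pool.Agent.Lib.MP_879098_ag.QSeg
import Pool.Agent.Lib.MP_879098_ag.QLift
import Pool.Agent.Lib.MP_879098_ag.SNear

/-! An immersed disc that can be pushed into a neighbourhood of the star. -/

namespace Pool.Agent.Lib.MP_879098_ag.Q2

open Polynomial Filter Topology Metric Sm

namespace D4

/-- velocities of affine points -/
def dp (l m s l' m' t : ℂ) : W6 := ![![0, l], ![0, m], ![0, s], ![0, l'], ![0, m'], ![0, t]]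

/-- the factors of the family -/
noncomputable def uu (κ w b q : ℂ) : W6 := pt (κ * w) (w / κ) (w ^ 2) (b * q) (b / q) (b ^ 2)

theorem dl_two (κ w b q a₀ a₁ a₂ a₃ a₄ a₅ : ℂ) :
    dl (uu κ w b q) (dp a₀ a₁ a₂ a₃ a₄ a₅) 2 = a₂ := by simp [dl, uu, pt, dp]

theorem dl_five (κ w b q a₀ a₁ a₂ a₃ a₄ a₅ : ℂ) :
    dl (uu κ w b q) (dp a₀ a₁ a₂ a₃ a₄ a₅) 5 = a₅ := by simp [dl, uu, pt, dp]

theorem uu_ne (κ w b q : ℂ) (i : Fin 6) : uu κ w b q i ≠ 0 := pt_ne _ _ _ _ _ _ i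

theorem hd_pt {l m s l' m' t : ℂ → ℂ} {a₀ a₁ a₂ a₃ a₄ a₅ z : ℂ} (h0 : HasDerivAt l a₀ z)
    (h1 : HasDerivAt m a₁ z) (h2 : HasDerivAt s a₂ z) (h3 : HasDerivAt l' a₃ z)
    (h4 : HasDerivAt m' a₄ z) (h5 : HasDerivAt t a₅ z) :
    HasDerivAt (fun z => pt (l z) (m z) (s z) (l' z) (m' z) (t z)) (dp a₀ a₁ a₂ a₃ a₄ a₅) z := by
  have c : HasDerivAt (fun _ : ℂ => (1 : ℂ)) 0 z := hasDerivAt_const _ _
  refine hasDerivAt_pi.2 fun i => hasDerivAt_pi.2 fun j => ?_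
  fin_cases i <;> fin_cases j
  exacts [c, h0, c, h1, c, h2, c, h3, c, h4, c, h5]

theorem hd_uu {κ w b q : ℂ → ℂ} {κ' w' b' q' z : ℂ} (hκ : HasDerivAt κ κ' z)
    (hw : HasDerivAt w w' z) (hb : HasDerivAt b b' z) (hq : HasDerivAt q q' z) (κ0 : κ z ≠ 0)
    (q0 : q z ≠ 0) :
    HasDerivAt (fun z => uu (κ z) (w z) (b z) (q z))
      (dp (κ' * w z + κ z * w') ((w' * κ z - w z * κ') / κ z ^ 2) (2 * w z * w')
        (b' * q z + b z * q') ((b' * q z - b z * q') / q z ^ 2) (2 * b z * b')) z :=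
  hd_pt (hκ.fun_mul hw) (hw.fun_div hκ κ0) ((hw.fun_pow 2).congr_deriv (by norm_num))
    (hb.fun_mul hq) (hb.fun_div hq q0) ((hb.fun_pow 2).congr_deriv (by norm_num))

theorem co_pt {α : Type} [TopologicalSpace α] {S : Set α} {l m s l' m' t : α → ℂ}
    (h0 : ContinuousOn l S) (h1 : ContinuousOn m S) (h2 : ContinuousOn s S)
    (h3 : ContinuousOn l' S) (h4 : ContinuousOn m' S) (h5 : ContinuousOn t S) :
    ContinuousOn (fun z => pt (l z) (m z) (s z) (l' z) (m' z) (t z)) S := by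
  have c : ContinuousOn (fun _ : α => (1 : ℂ)) S := continuousOn_const
  refine continuousOn_pi.2 fun i => continuousOn_pi.2 fun j => ?_
  fin_cases i <;> fin_cases j
  exacts [c, h0, c, h1, c, h2, c, h3, c, h4, c, h5]

theorem co_dp {α : Type} [TopologicalSpace α] {S : Set α} {l m s l' m' t : α → ℂ}
    (h0 : ContinuousOn l S) (h1 : ContinuousOn m S) (h2 : ContinuousOn s S)
    (h3 : ContinuousOn l' S) (h4 : ContinuousOn m' S) (h5 : ContinuousOn t S) :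
    ContinuousOn (fun z => dp (l z) (m z) (s z) (l' z) (m' z) (t z)) S := by
  have c : ContinuousOn (fun _ : α => (0 : ℂ)) S := continuousOn_const
  refine continuousOn_pi.2 fun i => continuousOn_pi.2 fun j => ?_
  fin_cases i <;> fin_cases j
  exacts [c, h0, c, h1, c, h2, c, h3, c, h4, c, h5]

theorem co_uu {α : Type} [TopologicalSpace α] {S : Set α} {κ w b q : α → ℂ}
    (hκ : ContinuousOn κ S) (hw : ContinuousOn w S) (hb : ContinuousOn b S)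
    (hq : ContinuousOn q S) (κ0 : ∀ z ∈ S, κ z ≠ 0) (q0 : ∀ z ∈ S, q z ≠ 0) :
    ContinuousOn (fun z => uu (κ z) (w z) (b z) (q z)) S :=
  co_pt (hκ.mul hw) (hw.div hκ κ0) (hw.pow 2) (hb.mul hq) (hb.div hq q0) (hb.pow 2)

theorem an_uu {κ w b q : ℂ → ℂ} {z : ℂ} (hκ : AnalyticAt ℂ κ z) (hw : AnalyticAt ℂ w z)
    (hb : AnalyticAt ℂ b z) (hq : AnalyticAt ℂ q z) (κ0 : κ z ≠ 0) (q0 : q z ≠ 0) :
    AnalyticAt ℂ (fun z => seg (uu (κ z) (w z) (b z) (q z))) z := by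
  have c : AnalyticAt ℂ (fun _ : ℂ => (1 : ℂ)) z := analyticAt_const
  refine analyticAt_seg fun i a => ?_
  fin_cases i <;> fin_cases a
  exacts [c, hκ.fun_mul hw, c, hw.fun_div hκ κ0, c, hw.fun_pow 2, c, hb.fun_mul hq, c,
    hb.fun_div hq q0, c, hb.fun_pow 2]

theorem sq_eq {κ w : ℂ} (h : κ * w ≠ 0) : w ^ 2 = κ * w * (w / κ) := by
  have := left_ne_zero_of_mul h
  field_simp

theorem sq_eq' {b q : ℂ} (h : b * q ≠ 0) : b ^ 2 = b * q * (b / q) := by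
  have := right_ne_zero_of_mul h
  field_simp

theorem seg_uu {k : ℕ} {κ w b q : ℂ} (h : Gen k (κ * w) (w / κ) (b * q) (b / q)) :
    seg (uu κ w b q) = gpt (κ * w) (w / κ) (b * q) (b / q) := by
  rw [uu, gpt, sq_eq h.l0, sq_eq' h.l0']

theorem uu_mem {k : ℕ} {κ w b q : ℂ} (h : Gen k (κ * w) (w / κ) (b * q) (b / q)) :
    seg (uu κ w b q) ∈ cone (YY k) := by
  rw [seg_uu h]
  exact ⟨_, h.mem.2, rep_toP h.mem.1⟩

theorem freq {z : ℂ} (hz : z ∈ D1) : ∃ᶠ x in 𝓝[≠] z, x ∈ D1 :=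
  accPt_iff_frequently_nhdsNE.1 (IsPreconnected.preperfect_of_nontrivial
    ⟨0, by simp, 1, by simp, zero_ne_one⟩ (convex_closedBall (0 : ℂ) 1).isPreconnected z hz)

theorem gen_ev {k : ℕ} {l m l' m' : ℂ → ℂ} {z : ℂ} (hz : z ∈ D1) (h1 : AnalyticAt ℂ l z)
    (h2 : AnalyticAt ℂ m z) (h3 : AnalyticAt ℂ l' z) (h4 : AnalyticAt ℂ m' z)
    (h : ∀ x ∈ D1, Gen k (l x) (m x) (l' x) (m' x)) :
    ∀ᶠ x in 𝓝 z, Gen k (l x) (m x) (l' x) (m' x) := by
  have e1 : ∀ᶠ x in 𝓝 z, l x * (1 - (l' x * m' x) ^ k) = m x * (1 + (l' x * m' x) ^ k) :=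
    (AnalyticAt.frequently_eq_iff_eventually_eq (by fun_prop) (by fun_prop)).1
      ((freq hz).mono fun x hx => (h x hx).eq)
  have e2 : ∀ᶠ x in 𝓝 z, l' x * (1 - (l x * m x) ^ k) = m' x * (1 + (l x * m x) ^ k) :=
    (AnalyticAt.frequently_eq_iff_eventually_eq (by fun_prop) (by fun_prop)).1
      ((freq hz).mono fun x hx => (h x hx).eq')
  filter_upwards [e1, e2, h1.continuousAt.eventually_ne (h z hz).l0,
    h2.continuousAt.eventually_ne (h z hz).m0, h3.continuousAt.eventually_ne (h z hz).l0',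
    h4.continuousAt.eventually_ne (h z hz).m0'] with x a1 a2 a3 a4 a5 a6
  exact ⟨a3, a4, a5, a6, a1, a2⟩

theorem isOpen_St : IsOpen St := isOpen_lt (by fun_prop) continuous_const

theorem add_mem_St {t : ℂ} (h : t ∈ St) (x : ℝ) : t + x ∈ St := by
  simpa using h

/-- a push to the right that vanishes on the circle -/
theorem exists_push {w y : ℂ → ℂ} (hw : ContinuousOn w D1) (hy : ContinuousOn y D1) {r N : ℝ}
    (h : ∀ ζ ∈ S1, ‖w ζ‖ ^ 2 < r ∨ N < (y ζ).re) :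
    ∃ K : ℝ, ∀ z ∈ D1, ‖w z‖ ^ 2 < r ∨ N < (y z).re + K * (1 - ‖z‖) := by
  have c1 : ContinuousOn (fun z => ‖w z‖ ^ 2) D1 := hw.norm.pow 2
  have c2 : ContinuousOn (fun z => (y z).re) D1 := Complex.continuous_re.comp_continuousOn hy
  have hc : IsClosed (D1 ∩ (fun z => (‖w z‖ ^ 2, (y z).re)) ⁻¹' (Set.Ici r ×ˢ Set.Iic N)) :=
    (c1.prodMk c2).preimage_isClosed_of_isClosed isClosed_closedBall (isClosed_Ici.prod isClosed_Iic)
  set Z := D1 ∩ (fun z => (‖w z‖ ^ 2, (y z).re)) ⁻¹' (Set.Ici r ×ˢ Set.Iic N) with hZ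
  have hK : IsCompact Z := (isCompact_closedBall 0 1).of_isClosed_subset hc Set.inter_subset_left
  have pos : ∀ z ∈ Z, 0 < 1 - ‖z‖ := fun z hz => by
    have h1 : ‖z‖ ≤ 1 := mem_closedBall_zero_iff.1 hz.1
    refine sub_pos.2 (lt_of_le_of_ne h1 fun e => ?_)
    rcases h z (mem_sphere_zero_iff_norm.2 e) with g | g
    · exact absurd hz.2.1 (not_le.2 g)
    · exact absurd hz.2.2 (not_le.2 g)
  have c3 : ContinuousOn (fun z => (N + 1 - (y z).re) / (1 - ‖z‖)) Z :=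
    (continuousOn_const.sub (c2.mono Set.inter_subset_left)).div (by fun_prop)
      fun z hz => (pos z hz).ne'
  obtain ⟨K, hb⟩ := hK.bddAbove_image c3
  refine ⟨max K 0, fun z hz => ?_⟩
  have h1 : 0 ≤ 1 - ‖z‖ := sub_nonneg.2 (mem_closedBall_zero_iff.1 hz)
  by_cases g : z ∈ Z
  · have h2 : (N + 1 - (y z).re) / (1 - ‖z‖) ≤ max K 0 :=
      (hb ⟨z, g, rfl⟩).trans (le_max_left _ _)
    rw [div_le_iff₀ (pos z g)] at h2
    exact .inr (by linarith)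
  · by_contra! c
    have h2 := mul_nonneg (le_max_right K 0) h1
    exact g ⟨hz, c.1, show (y z).re ≤ N by linarith [c.2]⟩

theorem sub_ne {k : ℕ} (hk : 0 < k) {l m l' m' w c : ℂ} (g1 : Gen k l m l' m')
    (g2 : w ^ 2 = l * m) (hc : c ∈ ZZ k) : w - c ≠ 0 := fun g => by
  rw [sub_eq_zero.1 g] at g2
  have g3 := g1.ne
  rw [← g2, ← pow_mul] at g3
  rcases ZZ_cases hk hc with ⟨h1, -⟩ | ⟨h1, -⟩ | ⟨h1, -⟩
  · exact mul_ne_zero g1.l0 g1.m0 (by rw [← g2, h1, sq, mul_zero])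
  · exact g3.1 (by rw [h1, sub_self])
  · exact g3.2 (by rw [h1, add_neg_cancel])

theorem side {κ w b q : ℂ} {M r : ℝ} (κ0 : κ * w ≠ 0) (q0 : b * q ≠ 0) (h1 : ‖κ‖ ^ 2 ≤ M)
    (h2 : 1 ≤ M * ‖κ‖ ^ 2) (h : ‖w‖ ^ 2 < r ∨ (‖b‖ ^ 2 < r ∧ ‖κ - 1‖ ≤ ‖κ + 1‖)) :
    (‖κ * w * (w / κ)‖ < r ∧ ‖κ * w‖ ≤ M * ‖w / κ‖ ∧ ‖w / κ‖ ≤ M * ‖κ * w‖) ∨
      (‖b * q * (b / q)‖ < r ∧ ‖κ * w - w‖ ≤ ‖κ * w + w‖) := by
  have p : 0 < ‖κ‖ := norm_pos_iff.2 (left_ne_zero_of_mul κ0)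
  have p' := norm_nonneg w
  rcases h with h | h
  · refine .inl ⟨by rwa [← sq_eq κ0, norm_pow], ?_, ?_⟩
    · rw [norm_mul, norm_div, ← mul_div_assoc, le_div_iff₀ p]
      nlinarith [mul_le_mul_of_nonneg_right h1 p']
    · rw [norm_mul, norm_div, div_le_iff₀ p]
      nlinarith [mul_le_mul_of_nonneg_right h2 p']
  · refine .inr ⟨by rw [← sq_eq' q0, norm_pow]; exact h.1, ?_⟩
    rw [show κ * w - w = (κ - 1) * w by ring, show κ * w + w = (κ + 1) * w by ring, norm_mul,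
      norm_mul]
    exact mul_le_mul_of_nonneg_right h.2 p'

end D4

open D4 in
theorem disc4 {k : ℕ} (hk : 0 < k) {l₀ m₀ l₀' m₀' : ℂ} (h : Gen k l₀ m₀ l₀' m₀') :
    ∃ C : ℝ, ∀ δ : ℝ, 0 < δ → ∃ ρ₁ : ℝ, 0 < ρ₁ ∧ ∀ ρ : ℝ, 0 < ρ → ρ ≤ ρ₁ →
      ∃ (f m : ℂ → VV 63) (H : ℂ × ℝ → VV 63) (w : ℂ → ℂ) (A B : ℂ → ℂ → ℂ),
        AnalyticOnNhd ℂ f D1 ∧ f 0 = gpt l₀ m₀ l₀' m₀' ∧
        (∀ z ∈ D1, (f z, deriv f z) ∈ TF (YY k)) ∧ ContinuousOn m S1 ∧
        (∀ ζ ∈ S1, IsTangent (YY k) (f ζ) (m ζ) ∧ I3 (f ζ) (deriv f ζ) (m ζ) ∧ f ζ ∈ KC C) ∧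
        ContinuousOn H (D1 ×ˢ I1) ∧ (∀ p ∈ D1 ×ˢ I1, H p ∈ cone (YY k)) ∧
        (∀ z ∈ D1, H (z, 0) = f z) ∧ (∀ ζ ∈ S1, ∀ t ∈ I1, H (ζ, t) = f ζ) ∧ ContinuousOn w D1 ∧
        (∀ c ∈ ZZ k, ContinuousOn (A c) D1 ∧ ContinuousOn (B c) D1 ∧
          ∀ z ∈ D1, Complex.exp (A c z) = w z - c) ∧
        ∀ z ∈ D1, ((∀ c ∈ ZZ k, ‖w z - c‖ ≤ ρ → ‖Complex.exp (B c z)‖ ≤ ρ) →
            Near δ (cen (w z)) (H (z, 1))) ∧
          ∀ c ∈ ZZ k, ‖w z - c‖ ≤ ρ → ρ / 2 ≤ ‖Complex.exp (B c z)‖ → ‖w z - c‖ ≤ ρ / 2 ∧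
            Near δ (leaf k c (Complex.exp (B c z))) (H (z, 1)) := by
  obtain ⟨M, κ, b, aκ, ab, hS, h3⟩ := disc3 hk h
  refine ⟨M, fun δ hδ => ?_⟩
  obtain ⟨ρ₁, ρ0, hρ⟩ := near_star k hk δ hδ
  refine ⟨ρ₁, ρ0, fun ρ p0 p1 => ?_⟩
  obtain ⟨r, r0, hr⟩ := hρ ρ p0 p1 M
  obtain ⟨N, w, q, y, aw, aq, ay, yS, e1, e2, e3, e4, G, hN, hC, w1, wy⟩ := h3 r r0
  obtain ⟨K, hK⟩ := exists_push aw.continuousOn ay.continuousOn hC
  have q0 : ∀ z ∈ D1, q z ≠ 0 := fun z hz => right_ne_zero_of_mul (G z hz _ (yS z hz)).l0'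
  have w0 : ∀ z ∈ D1, w z ≠ 0 := fun z hz => right_ne_zero_of_mul (G z hz _ (yS z hz)).l0
  have aκy : ∀ z ∈ D1, AnalyticAt ℂ (fun z => κ (y z)) z := fun z hz =>
    (aκ _ (yS z hz)).comp (ay z hz)
  have aby : ∀ z ∈ D1, AnalyticAt ℂ (fun z => b (y z)) z := fun z hz =>
    (ab _ (yS z hz)).comp (ay z hz)
  obtain ⟨T, hT⟩ : ∃ T : ℂ × ℝ → ℂ, T = fun p => y p.1 + ((p.2 * (K * (1 - ‖p.1‖)) : ℝ) : ℂ) :=
    ⟨_, rfl⟩
  have TS : ∀ p : ℂ × ℝ, p.1 ∈ D1 → T p ∈ St := fun p hp => hT ▸ add_mem_St (yS _ hp) _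
  have cfst : ∀ {g : ℂ → ℂ}, ContinuousOn g D1 → ∀ s : Set ℝ,
      ContinuousOn (fun p : ℂ × ℝ => g p.1) (D1 ×ˢ s) := fun hg s =>
    hg.comp continuousOn_fst fun p hp => hp.1
  have Tc : ∀ s : Set ℝ, ContinuousOn T (D1 ×ˢ s) := fun s =>
    hT ▸ (cfst ay.continuousOn s).add (by fun_prop)
  have T1 : ContinuousOn (fun z => T (z, 1)) D1 :=
    (Tc Set.univ).comp (by fun_prop) fun z hz => ⟨hz, trivial⟩
  have b1 : ContinuousOn (fun z => b (T (z, 1))) D1 :=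
    ab.continuousOn.comp T1 fun z hz => TS _ hz
  have hA : ∀ c, ∃ A : ℂ → ℂ, c ∈ ZZ k → ContinuousOn A D1 ∧
      ∀ z ∈ D1, Complex.exp (A z) = w z - c := by
    intro c
    by_cases hc : c ∈ ZZ k
    swap
    · exact ⟨w, fun g => absurd g hc⟩
    obtain ⟨A, a1⟩ := log_disc (c := fun z => w z - c) (aw.continuousOn.sub continuousOn_const)
      fun z hz => sub_ne hk (G z hz _ (yS z hz)) (sq_eq (G z hz _ (yS z hz)).l0) hc
    exact ⟨A, fun _ => a1⟩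
  have hB : ∀ c, ∃ B : ℂ → ℂ, ContinuousOn B D1 ∧ ∀ z ∈ D1, Complex.exp (B z) =
      par k c (b (T (z, 1)) * q z) (b (T (z, 1)) / q z) := fun c =>
    log_disc (c := fun z => par k c (b (T (z, 1)) * q z) (b (T (z, 1)) / q z))
      (by unfold par; split_ifs; exacts [b1.div aq.continuousOn q0, b1.mul aq.continuousOn])
      fun z hz => by
        unfold par; split_ifs; exacts [(G z hz _ (TS (z, 1) hz)).m0', (G z hz _ (TS (z, 1) hz)).l0']
  choose A hA using hA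
  choose B hB hB' using hB
  have dκ : ∀ t ∈ St, HasDerivAt κ (deriv κ t) t := fun t ht => (aκ t ht).differentiableAt.hasDerivAt
  have db : ∀ t ∈ St, HasDerivAt b (deriv b t) t := fun t ht => (ab t ht).differentiableAt.hasDerivAt
  have df := fun z (hz : z ∈ D1) => hasDerivAt_seg (hd_uu
    ((dκ _ (yS z hz)).comp z (ay z hz).differentiableAt.hasDerivAt)
    (aw z hz).differentiableAt.hasDerivAt
    ((db _ (yS z hz)).comp z (ay z hz).differentiableAt.hasDerivAt)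
    (aq z hz).differentiableAt.hasDerivAt (hS _ (yS z hz)).1 (q0 z hz))
  have dm := fun z (hz : z ∈ D1) => hasDerivAt_seg (hd_uu (dκ _ (yS z hz))
    (hasDerivAt_const (y z) (w z)) (db _ (yS z hz)) (hasDerivAt_const (y z) (q z))
    (hS _ (yS z hz)).1 (q0 z hz))
  simp only [Function.comp_def] at df
  refine ⟨fun z => seg (uu (κ (y z)) (w z) (b (y z)) (q z)),
    fun z => dseg (uu (κ (y z)) (w z) (b (y z)) (q z))
      (dp (deriv κ (y z) * w z + κ (y z) * 0) ((0 * κ (y z) - w z * deriv κ (y z)) / κ (y z) ^ 2)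
        (2 * w z * 0) (deriv b (y z) * q z + b (y z) * 0)
        ((deriv b (y z) * q z - b (y z) * 0) / q z ^ 2) (2 * b (y z) * deriv b (y z))),
    fun p => seg (uu (κ (T p)) (w p.1) (b (T p)) (q p.1)), w, A, B,
    fun z hz => an_uu (aκy z hz) (aw z hz) (aby z hz) (aq z hz) (hS _ (yS z hz)).1 (q0 z hz),
    ?_, fun z hz => ?_, ?_, fun ζ hζ => ?_, ?_, fun p hp => uu_mem (G _ hp.1 _ (TS p hp.1)),
    fun z _ => by simp [hT], fun ζ hζ t _ => by simp [hT, mem_sphere_zero_iff_norm.1 hζ],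
    aw.continuousOn, fun c hc => ⟨(hA c hc).1, hB c, (hA c hc).2⟩, fun z hz => ?_⟩
  · have z0 : (0 : ℂ) ∈ D1 := by simp
    exact (seg_uu (G 0 z0 _ (yS 0 z0))).trans (by rw [e1, e2, e3, e4])
  · rw [(df z hz).deriv]
    refine ⟨tan_arc (df z hz) ?_, ?_⟩
    · exact (gen_ev hz ((aκy z hz).fun_mul (aw z hz))
        ((aw z hz).fun_div (aκy z hz) (hS _ (yS z hz)).1) ((aby z hz).fun_mul (aq z hz))
        ((aby z hz).fun_div (aq z hz) (q0 z hz)) fun x hx => G x hx _ (yS x hx)).mono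
        fun x hx => uu_mem hx
    · rcases wy z hz with g | g
      · refine i2_seg (uu_ne _ _ _ _) (i := 2) ?_
        rw [dl_two]
        exact mul_ne_zero (mul_ne_zero two_ne_zero (w0 z hz)) g
      · refine i2_seg (uu_ne _ _ _ _) (i := 5) ?_
        rw [dl_five]
        exact mul_ne_zero (mul_ne_zero two_ne_zero (hS _ (yS z hz)).2.1)
          (mul_ne_zero (hS _ (yS z hz)).2.2.1 g)
  · have cy := ay.continuousOn
    have cw := aw.continuousOn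
    have cq := aq.continuousOn
    have cκ : ContinuousOn (fun z => κ (y z)) D1 := aκ.continuousOn.comp cy yS
    have cb : ContinuousOn (fun z => b (y z)) D1 := ab.continuousOn.comp cy yS
    have cκ' : ContinuousOn (fun z => deriv κ (y z)) D1 := aκ.deriv.continuousOn.comp cy yS
    have cb' : ContinuousOn (fun z => deriv b (y z)) D1 := ab.deriv.continuousOn.comp cy yS
    refine (continuous_dseg.comp_continuousOn (ContinuousOn.prodMk
      (co_uu cκ cw cb cq (fun z hz => (hS _ (yS z hz)).1) q0)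
      (co_dp ?_ ?_ ?_ ?_ ?_ ?_))).mono sphere_subset_closedBall
    · exact (cκ'.mul cw).add (cκ.mul continuousOn_const)
    · exact ((continuousOn_const.mul cκ).sub (cw.mul cκ')).div (cκ.pow 2)
        fun z hz => pow_ne_zero 2 (hS _ (yS z hz)).1
    · exact (continuousOn_const.mul cw).mul continuousOn_const
    · exact (cb'.mul cq).add (cb.mul continuousOn_const)
    · exact ((cb'.mul cq).sub (cb.mul continuousOn_const)).div (cq.pow 2)
        fun z hz => pow_ne_zero 2 (q0 z hz)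
    · exact (continuousOn_const.mul cb).mul cb'
  · have hz : ζ ∈ D1 := sphere_subset_closedBall hζ
    refine ⟨tan_arc (dm ζ hz) ?_, ?_, ?_⟩
    · filter_upwards [isOpen_St.mem_nhds (yS ζ hz)] with t ht using uu_mem (G ζ hz t ht)
    · rw [(df ζ hz).deriv]
      refine i3_seg (uu_ne _ _ _ _) (i := 2) (j := 5) ?_
      rw [dl_two, dl_two, dl_five, dl_five, mul_zero, mul_zero]
      exact mul_ne_zero (mul_ne_zero (mul_ne_zero two_ne_zero (w0 ζ hz)) (w1 ζ hζ))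
        (mul_ne_zero (mul_ne_zero two_ne_zero (hS _ (yS ζ hz)).2.1) (hS _ (yS ζ hz)).2.2.1)
    · have g := G ζ hz _ (yS ζ hz)
      show seg (uu (κ (y ζ)) (w ζ) (b (y ζ)) (q ζ)) ∈ KC M
      rw [seg_uu g]
      refine gpt_mem_KC ?_
      rw [← sq_eq' g.l0', norm_pow]
      exact (hS _ (yS ζ hz)).2.2.2.2.2
  · exact continuous_seg.comp_continuousOn (co_uu
      (aκ.continuousOn.comp (Tc I1) fun p hp => TS p hp.1) (cfst aw.continuousOn I1)
      (ab.continuousOn.comp (Tc I1) fun p hp => TS p hp.1) (cfst aq.continuousOn I1)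
      (fun p hp => (hS _ (TS p hp.1)).1) fun p hp => q0 _ hp.1)
  · have t := TS (z, 1) hz
    have g := G z hz _ t
    have re : (T (z, 1)).re = (y z).re + K * (1 - ‖z‖) := by
      rw [hT]
      simp only [Complex.add_re, Complex.ofReal_re, one_mul]
    have := hr _ _ _ _ (w z) g (sq_eq g.l0) (side g.l0 g.l0' (hS _ t).2.2.2.1 (hS _ t).2.2.2.2.1
      ((hK z hz).imp id fun a => hN _ t (re ▸ a)))
    simp only [hB' _ z hz]
    rw [seg_uu g]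
    exact this

end Pool.Agent.Lib.MP_879098_ag.Q2
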