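import Pool.Agent.Lib.MP_879098_ag.QEllA
import Pool.Agent.Lib.MP_879098_ag.QDeg

/-! An embedded elliptic curve close to a cover of a rational curve. -/

namespace Pool.Agent.Lib.MP_879098_ag.Q2

open Filter Topology Metric Morph

namespace El

variable {n : ℕ} {Ω : Set (VV n × VV n)} {F : Tup n} {d : ℕ} {ρ ε : ℂ} {z : VV n} {v τ : VV 2}

theorem hd_co (v τ : VV 2) (i : Fin (2 + 1)) : HasDerivAt (fun s : ℂ => (v + s • τ) i) (τ i) 0 := by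
  simpa using ((hasDerivAt_id (0 : ℂ)).mul_const (τ i)).const_add (v i)

theorem hd_sig (v τ : VV 2) : HasDerivAt (fun s : ℂ => sig (v + s • τ))
    (2 * v 1 * τ 1 + τ 0 * v 2 + v 0 * τ 2 - 4 * v 2 * τ 2) 0 := by
  refine ((((hd_co v τ 1).pow 2).add ((hd_co v τ 0).mul (hd_co v τ 2))).sub
    (((hd_co v τ 2).pow 2).const_mul 2)).congr_deriv ?_
  simp
  ring

theorem hd_sq (ρ : ℂ) (v τ : VV 2) : HasDerivAt (fun s : ℂ => ρ * (v + s • τ) 2 ^ 2)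
    (ρ * (2 * v 2 * τ 2)) 0 := by
  simpa using ((hd_co v τ 2).pow 2).const_mul ρ

theorem hd_cc (ε : ℂ) (v τ : VV 2) :
    HasDerivAt (fun s : ℂ => ε * ((v + s • τ) 1 * (2 * (v + s • τ) 2 + (v + s • τ) 0)))
    (ε * (τ 1 * (2 * v 2 + v 0) + v 1 * (2 * τ 2 + τ 0))) 0 := by
  simpa using ((hd_co v τ 1).mul (((hd_co v τ 2).const_mul 2).add (hd_co v τ 0))).const_mul ε

theorem diff_MM (e : ℂ × (Fin 3 → VV n)) : Differentiable ℂ fun v => MM F d ρ z (e, v) :=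
  (contDiff_MM.differentiable one_ne_zero).comp (by fun_prop)

theorem flag_unram (hΩ : Sat Ω) (hF : Cur Ω F (d + 1)) (hρ : ρ ≠ 0) (hW : sig v * (2 * v 2 * τ 2) ≠
      v 2 ^ 2 * (2 * v 1 * τ 1 + τ 0 * v 2 + v 0 * τ 2 - 4 * v 2 * τ 2)) :
    (MM F d ρ z (0, v), fderiv ℂ (fun v => MM F d ρ z (0, v)) v τ) ∈ Ω := by
  have h1 := hasDerivAt_line (diff_MM (F := F) (d := d) (ρ := ρ) (z := z) 0 v) τ
  have h2 : HasFDerivAt (hom F (d + 1)) (fderiv ℂ (hom F (d + 1)) (cov ρ v))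
      (cov ρ (v + (0 : ℂ) • τ)) := by
    simpa using ((contDiff_hom F (d + 1)).differentiable one_ne_zero (cov ρ v)).hasFDerivAt
  have h3 := h2.comp_hasDerivAt (f := fun s : ℂ => cov ρ (v + s • τ)) 0
    ((hd_sig v τ).prodMk (hd_sq ρ v τ))
  simp only [MM_zero] at h1 ⊢
  rw [h1.unique h3]
  exact hF.hom_flag hΩ fun e => hW (mul_left_cancel₀ hρ (by
    simp only [cov] at e
    linear_combination e))

theorem flag_neck (hΩ : Sat Ω) (hF : ∀ i, (F i).natDegree ≤ d + 1) (hρ : ρ ≠ 0) (hε : ε ≠ 0)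
    (hv : v ∈ E0) (hT : Tc v τ) (hI : I2 v τ) (hs : sig v ≠ 0)
    (hG : GT Ω (pev F (ρ * v 2 ^ 2 / sig v) + (ε * (v 1 * (2 * v 2 + v 0)) / sig v) • z)
      (pev (der F) (ρ * v 2 ^ 2 / sig v)) z) :
    (MM F d ρ z ((ε, 0), v), fderiv ℂ (fun v => MM F d ρ z ((ε, 0), v)) v τ) ∈ Ω := by
  have s0 : sig (v + (0 : ℂ) • τ) ≠ 0 := by simpa using hs
  have h1 := (hd_sq ρ v τ).div (hd_sig v τ) s0
  have h2 := (hd_cc ε v τ).div (hd_sig v τ) s0
  have h3 := ((hasDerivAt_pev F _).scomp 0 h1).add (h2.smul_const z)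
  have := hΩ.reparam (φ := id)
    (hasDerivAt_line (diff_MM (F := F) (d := d) (ρ := ρ) (z := z) (ε, 0) v) τ) h3
    ((hd_sig v τ).pow (d + 1)) (hasDerivAt_id _) (pow_ne_zero _ s0) one_ne_zero
    (((hd_sig v τ).continuousAt.eventually_ne s0).mono fun t ht => by
      simp only [MM, Pi.zero_apply, smul_zero, add_zero, Pi.pow_apply, id, Pi.add_apply _ _ t,
        Function.comp, Pi.div_apply, smul_add _ (pev F _), smul_smul]
      rw [hom_left hF (x := cov ρ _) ht]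
      congr 2
      field_simp
      ring) (by
      simp only [id, Pi.add_apply _ _ (0 : ℂ), Function.comp, Pi.div_apply, zero_smul, add_zero]
      refine hG _ _ ?_
      by_contra! c
      simp only [div_eq_zero_iff, pow_eq_zero_iff two_ne_zero, hs, or_false] at c
      refine (ram (mem_E0.1 hv).2 hT (fun s t e0 e1 e2 => hI s t ?_) (mul_left_cancel₀ hρ ?_)).2
        (mul_left_cancel₀ hε ?_)
      · ext i
        fin_cases i
        exacts [e0, e1, e2]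
      · simp only [sig] at c
        linear_combination c.1
      · simp only [sig] at c
        linear_combination c.2)
  simpa using this

theorem ev_eps (hΩ : Sat Ω) (hF : Cur Ω F (d + 1)) (hρ : ρ ≠ 0) {r : ℝ} (hr : ‖ρ‖ < r)
    (hG : ∀ w : ℂ, ‖w‖ ≤ r → GT Ω (pev F w) (pev (der F) w) z) : ∀ᶠ ε in 𝓝[≠] (0 : ℂ), ∀ q ∈ KK,
      (MM F d ρ z ((ε, 0), q.1), fderiv ℂ (fun v => MM F d ρ z ((ε, 0), v)) q.1 q.2) ∈ Ω := by
  have c0 : Continuous sig := by unfold sig; fun_prop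
  have s0 : ∀ q ∈ KK, ‖q.1 2 ^ 2‖ * ‖ρ‖ ≤ r * ‖sig q.1‖ → sig q.1 ≠ 0 := fun q hq h e =>
    cov_ne hρ hq.1.1.1 (Prod.ext e (by
      rw [e, norm_zero, mul_zero, ← norm_mul, norm_le_zero_iff, mul_comm] at h
      exact h))
  have h1 := (isCompact_KK.inter_right (isClosed_le (f := fun q : VV 2 × VV 2 => ‖q.1 2 ^ 2‖ * ‖ρ‖)
    (g := fun q => r * ‖sig q.1‖) (by fun_prop) (by fun_prop))).eventually_forall_of_forall_eventually
    (x₀ := (0 : ℂ)) (P := fun ε q => GT Ω (pev F (ρ * q.1 2 ^ 2 / sig q.1) +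
      (ε * (q.1 1 * (2 * q.1 2 + q.1 0)) / sig q.1) • z) (pev (der F) (ρ * q.1 2 ^ 2 / sig q.1)) z)
    fun q hq => by
      have g := s0 q hq.1 hq.2
      have c1 := continuous_pev F
      have c2 := continuous_pev (der F)
      refine (show ContinuousAt (fun p : ℂ × VV 2 × VV 2 => (pev F (ρ * p.2.1 2 ^ 2 / sig p.2.1) +
        (p.1 * (p.2.1 1 * (2 * p.2.1 2 + p.2.1 0)) / sig p.2.1) • z,
          pev (der F) (ρ * p.2.1 2 ^ 2 / sig p.2.1), z)) (0, q) by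
        fun_prop (disch := exact g)).eventually_mem ((isOpen_gt hΩ).mem_nhds ?_)
      simp only [Set.mem_ofPred_eq, zero_mul, zero_div, zero_smul, add_zero]
      refine hG _ ?_
      rw [norm_div, div_le_iff₀ (norm_pos_iff.2 g), norm_mul, mul_comm]
      exact hq.2
  have h2 := tube2 hΩ.isOpen (H := fun p : ℂ × VV 2 => MM F d ρ z ((p.1, 0), p.2)) (e := 0)
    (contDiff_MM.comp (by fun_prop))
    (isCompact_KK.inter_right (isClosed_le (g := fun q : VV 2 × VV 2 => ‖q.1 2 ^ 2‖ * ‖ρ‖)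
      (f := fun q => r * ‖sig q.1‖) (by fun_prop) (by fun_prop))) fun q hq =>
    flag_unram hΩ hF hρ fun e => by
      have a1 : ‖q.1 2 ^ 2‖ ≤ ‖sig q.1‖ := (ram (mem_E0.1 hq.1.1.1.1).2 hq.1.2.1
        (fun s t e0 e1 e2 => KK_i2 hq.1 s t (by
          ext i
          fin_cases i
          exacts [e0, e1, e2])) e).1
      have a2 : r * ‖sig q.1‖ ≤ ‖q.1 2 ^ 2‖ * ‖ρ‖ := hq.2
      have a3 := norm_pos_iff.2 (s0 q hq.1 (by nlinarith [norm_nonneg ρ, norm_nonneg (sig q.1)]))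
      nlinarith [norm_nonneg ρ]
  filter_upwards [nhdsWithin_le_nhds h1, nhdsWithin_le_nhds h2, self_mem_nhdsWithin]
    with ε g1 g2 g3 q hq
  rcases le_total (‖q.1 2 ^ 2‖ * ‖ρ‖) (r * ‖sig q.1‖) with g | g
  · exact flag_neck hΩ hF.deg hρ g3 hq.1.1.1 hq.2.1 (KK_i2 hq) (s0 q hq g) (g1 q ⟨hq, g⟩)
  · exact g2 q ⟨hq, g⟩

/-- local parametrisations of the cubic -/
noncomputable def JJ : Option (Fin 5) → ℂ → VV 2 × (Fin 3 → ℂ)
  | none, _ => (![0, 1, 0], 0)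
  | some c, x => (![x, H66.sg c x, 1], H66.th x (H66.sg c x))

/-- their domains -/
def dom : Option (Fin 5) → Set ℂ
  | none => Set.univ
  | some c => H66.dm c

theorem contDiffAt_JJ {i : Option (Fin 5)} {x : ℂ} (h : x ∈ dom i) : ContDiffAt ℂ 1 (JJ i) x := by
  rcases i with _ | c
  · exact contDiffAt_const
  · have s := H66.contDiffAt_sg (c := c) h
    refine ContDiffAt.prodMk (contDiffAt_pi.2 fun j => ?_) (contDiffAt_pi.2 fun j => ?_) <;>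
      fin_cases j
    exacts [contDiffAt_id, s, contDiffAt_const, contDiffAt_id, s, contDiffAt_id.pow 2]

theorem MM_JJ (t : Fin 3 → VV n) (i : Option (Fin 5)) (x : ℂ) : MM F d ρ z ((ε, t), (JJ i x).1) =
    H66.ev t (MM F d ρ z ((ε, 0), (JJ i x).1), (JJ i x).2) := by
  rcases i with _ | c <;> simp [MM, JJ, H66.ev, H66.th, Fin.sum_univ_three]

theorem exists_JJ (hv : v ∈ E0) : ∃ s : ℂ, s ≠ 0 ∧ ∃ i x, x ∈ dom i ∧ v = s • (JJ i x).1 ∧
    ∀ c, i = some c → H66.sg c x ^ 2 = x ^ 3 - x := by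
  obtain ⟨y, hy, h⟩ := hv
  obtain rfl | ⟨a, b, e, rfl⟩ := Ell.cubic_cases hy
  · obtain ⟨s, s0, rfl⟩ := (rep_toP Ell.ne_inf).exists_smul h
    exact ⟨s, s0, none, 0, trivial, rfl, by simp⟩
  · obtain ⟨s, s0, rfl⟩ := (rep_toP (Ell.ne_aff a b)).exists_smul h
    obtain ⟨c, c1, rfl⟩ := H66.exists_sg e
    exact ⟨s, s0, some c, a, c1, rfl, by rintro _ ⟨⟩; exact e⟩

theorem exists_inj (h3 : 3 ≤ n) (hF : ∀ i, (F i).natDegree ≤ d + 1)
    (hI : I2 (pev F 0) (pev F (ρ / -2))) (ε : ℂ) {r : ℝ} (hr : 0 < r) :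
    ∃ t : Fin 3 → VV n, ‖t‖ < r ∧ ∀ v ∈ E0, ∀ v' ∈ E0, ∀ κ : ℂ, κ ≠ 0 →
      MM F d ρ z ((ε, t), v') = κ • MM F d ρ z ((ε, t), v) → ∃ s : ℂ, v' = s • v := by
  have c : ∀ i x, x ∈ dom i →
      ContDiffAt ℂ 1 (fun x => (MM F d ρ z ((ε, 0), (JJ i x).1), (JJ i x).2)) x := fun i x h =>
    (contDiff_MM.contDiffAt.comp x (contDiffAt_const.prodMk (contDiffAt_JJ h).fst)).prodMk
      (contDiffAt_JJ h).snd
  obtain ⟨p, h1, h2⟩ := (H66.gen (W := ℂ) (ι := Option (Fin 5) × Option (Fin 5))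
    (fun i y => (MM F d ρ z ((ε, 0), (JJ i.1 y.1).1), (JJ i.1 y.1).2))
    (fun i y => (MM F d ρ z ((ε, 0), (JJ i.2 y.2).1), (JJ i.2 y.2).2))
    (fun _ _ => (0, 1)) (fun _ _ => (1, 0)) (fun i => dom i.1 ×ˢ dom i.2)
    (fun i y h => ⟨(c _ _ h.1).comp y contDiffAt_fst, (c _ _ h.2).comp y contDiffAt_snd,
      contDiffAt_const, contDiffAt_const⟩)
    (by simp; omega)).exists_mem_open isOpen_ball (nonempty_ball (x := 0).2 hr)
  rw [mem_ball_zero_iff] at h2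
  refine ⟨p.1, (norm_fst_le p).trans_lt h2, fun v hv v' hv' κ hκ E => ?_⟩
  obtain ⟨s, s0, i, x, hx, rfl, e⟩ := exists_JJ hv
  obtain ⟨s', s0', j, x', hx', rfl, e'⟩ := exists_JJ hv'
  rw [MM_smul, MM_smul, ← eq_inv_smul_iff₀ (pow_ne_zero _ s0'), smul_smul, smul_smul] at E
  have k0 : (s' ^ (2 * (d + 1)))⁻¹ * κ * s ^ (2 * (d + 1)) ≠ 0 := by simp [s0, s0', hκ]
  generalize (s' ^ (2 * (d + 1)))⁻¹ * κ * s ^ (2 * (d + 1)) = l at E k0
  suffices (JJ j x').1 = (JJ i x).1 from ⟨s' / s, by rw [this, smul_smul, div_mul_cancel₀ _ s0]⟩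
  have E' : (JJ j x').2 = l • (JJ i x).2 := by
    by_contra g
    rw [MM_JJ, MM_JJ _ i] at E
    exact h1 (j, i) (x', x) ⟨hx', hx⟩ l (H66.ev p.2 (0, 1)) g (by simp) E (by simp [H66.ev])
  have m1 : MM F d ρ z ((ε, p.1), ![0, 1, 0]) = pev F 0 := by
    simp [MM, cov, sig, hom_one hF]
  have m2 : MM F d ρ z ((ε, p.1), ![0, 0, 1]) = (-2 : ℂ) ^ (d + 1) • pev F (ρ / -2) := by
    simp [MM, cov, sig, hom_left hF]
  have m3 : (-2 : ℂ) ^ (d + 1) ≠ 0 := pow_ne_zero _ (by norm_num)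
  rcases i with _ | a <;> rcases j with _ | b
  · rfl
  · obtain rfl : x' = 0 := by simpa [JJ, H66.th] using congrFun E' 0
    have : H66.sg b 0 = 0 := by simpa [JJ, H66.th] using congrFun E' 1
    simp only [JJ, this, m1, m2] at E
    exact absurd (hI (-l) _ (by rw [E, neg_smul, neg_add_cancel])).2 m3
  · obtain rfl : x = 0 := by simpa [JJ, H66.th, k0] using congrFun E' 0
    have : H66.sg a 0 = 0 := by simpa [JJ, H66.th, k0] using congrFun E' 1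
    simp only [JJ, this, m1, m2, smul_smul] at E
    simpa using (hI (-1) _ (by rw [← E, neg_smul, one_smul, neg_add_cancel])).1
  · obtain ⟨g1, g2⟩ := H66.th_ne (e a rfl) k0 E'
    simp only [JJ, g2]
    rw [g1]

theorem exists_pt (hF : ∀ i, (F i).natDegree ≤ d + 1) (hρ : ρ ≠ 0) (w : ℂ) :
    ∃ v ∈ E0, ∃ s : ℂ, s ≠ 0 ∧ MM F d ρ z (0, v) = s • pev F w := by
  by_cases hw : w = 0
  · exact ⟨![0, 1, 0], mem_E0.2 ⟨Ell.ne_inf, by simp⟩, 1, one_ne_zero, by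
      simp [MM_zero, cov, sig, hom_one hF, hw]⟩
  obtain ⟨x, hx⟩ := IsAlgClosed.exists_pow_nat_eq (ρ / w + 2) three_pos
  obtain ⟨y, hy⟩ := IsAlgClosed.exists_pow_nat_eq (x ^ 3 - x) two_pos
  have e : cov ρ ![x, y, 1] = (ρ / w) • (1, w) := by
    ext
    · simp only [cov, sig, Matrix.cons_val, Prod.smul_fst, smul_eq_mul]
      linear_combination hy + hx
    · simp [cov, hw]
  exact ⟨![x, y, 1], mem_E0.2 ⟨Ell.ne_aff x y, by simpa using hy⟩, _,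
    pow_ne_zero (d + 1) (div_ne_zero hρ hw), by rw [MM_zero, e, hom_smul, hom_one hF]⟩

end El

open El in
theorem ell {n : ℕ} (h3 : 3 ≤ n) {Ω : Set (VV n × VV n)} (hΩ : Sat Ω) {N : Set (VV n)} (hN : OC N)
    (hs : ∀ p ∈ Ω, p.1 ∈ N) {F : Tup n} {D : ℕ} (hF : Cur Ω F D) {w : ℂ} {z : VV n}
    (hG : GT Ω (pev F w) (pev (der F) w) z) {s : Set (Set (VV n))} (hf : s.Finite)
    (h : ∀ N' ∈ s, OC N' ∧ ∃ w, pev F w ∈ N') :
    ∃ p : Fin (n + 1) → MvPolynomial (Fin (2 + 1)) ℂ, (∀ i, (p i).IsHomogeneous (2 * D)) ∧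
      (∀ v ∈ E0, mev p v ∈ N ∧
        ∀ τ, Tc v τ → I2 v τ → (mev p v, fderiv ℂ (mev p) v τ) ∈ Ω) ∧
      (∀ v ∈ E0, ∀ v' ∈ E0, ∀ κ : ℂ, mev p v' = κ • mev p v → ∃ s : ℂ, v' = s • v) ∧
      (∀ N' ∈ s, ∃ v ∈ E0, mev p v ∈ N') ∧
      ∀ (K : ℕ) (π : VV n → VV K →L[ℂ] VV K), PF N π → ∀ k : ℤ, DgP π F D k →
        Dg E0 (fun v => π (mev p v)) (2 * k) := by
  wlog hw : w = 0 generalizing F w
  · obtain ⟨p, h1, h2, h3, h4, h5⟩ := this (hF.afc hΩ w one_ne_zero) (w := 0)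
      (by simpa [pev_afc, pev_der_afc] using hG) (fun N' m => ⟨(h N' m).1,
        (h N' m).2.elim fun x hx => ⟨x - w, by simpa [pev_afc] using hx⟩⟩) rfl
    exact ⟨p, h1, h2, h3, h4, fun K π hπ k hk => h5 K π hπ k (hk.afc hF.deg w one_ne_zero)⟩
  subst hw
  obtain ⟨d, rfl⟩ : ∃ d, D = d + 1 := ⟨D - 1, by have := hF.pos; omega⟩
  have c1 := continuous_pev F
  have c2 := continuous_pev (der F)
  obtain ⟨r₁, r1, g1⟩ := nhds_basis_closedBall.eventually_iff.1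
    ((show ContinuousAt (fun w => (pev F w, pev (der F) w, z)) 0 by fun_prop).eventually_mem
      ((isOpen_gt hΩ).mem_nhds hG))
  obtain ⟨w, ⟨w1, w2⟩, w0⟩ := ((((tendsto_const_nhds (x := pev F 0)).prodMk_nhds
    (hasDerivAt_iff_tendsto_slope_zero.1 (hasDerivAt_pev F 0))).eventually_mem
      (isOpen_i2.mem_nhds (hΩ.ind _ _ hG.left))).and
    (nhdsWithin_le_nhds (ball_mem_nhds (0 : ℂ) (half_pos r1)))).and self_mem_nhdsWithin |>.exists
  have w0 : w ≠ 0 := w0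
  have ρ0 : -2 * w ≠ 0 := by simpa using w0
  have hI : I2 (pev F 0) (pev F (-2 * w / -2)) := by
    simpa [smul_smul, w0] using I2.sat w1 1 one_ne_zero w0
  have ρ1 : ‖-2 * w‖ < r₁ := by
    have := mem_ball_zero_iff.1 w2
    simp only [neg_mul, norm_neg, Complex.norm_mul, Complex.norm_ofNat]
    linarith
  generalize -2 * w = ρ at ρ0 hI ρ1
  have cM : Continuous (MM F d ρ z) := contDiff_MM.continuous
  have m0 : ∀ v ∈ E0, hom F (d + 1) (cov ρ v) ∈ N := fun v hv => hF.hom_mem hN hs (cov_ne ρ0 hv)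
  have e1 : ∀ᶠ e in 𝓝 (0 : ℂ × (Fin 3 → VV n)), ∀ v ∈ E0 ∩ sphere 0 1, MM F d ρ z (e, v) ∈ N :=
    isCompact_E0.eventually_forall_of_forall_eventually fun v hv =>
      cM.continuousAt.eventually_mem (hN.isOpen.mem_nhds (by rw [MM_zero]; exact m0 v hv.1))
  have e2 : ∀ᶠ e in 𝓝 (0 : ℂ × (Fin 3 → VV n)), ∀ N' ∈ s, ∃ v ∈ E0, MM F d ρ z (e, v) ∈ N' :=
    (eventually_all_finite hf).2 fun N' m => by
      obtain ⟨a1, x, a2⟩ := h N' m
      obtain ⟨v, hv, c, c0, e⟩ := exists_pt (z := z) hF.deg ρ0 x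
      exact ((show ContinuousAt (fun e => MM F d ρ z (e, v)) 0 by fun_prop).eventually_mem
        (a1.isOpen.mem_nhds (by rw [e]; exact a1.smul _ a2 c c0))).mono fun e he => ⟨v, hv, he⟩
  obtain ⟨r, r0, g2⟩ := nhds_basis_ball.eventually_iff.1 (e1.and e2)
  have m1 : ∀ e : ℂ × (Fin 3 → VV n), ‖e‖ < r → ∀ v ∈ E0, MM F d ρ z (e, v) ∈ N := fun e he v hv => by
    obtain ⟨a, a0, -, a1⟩ := exists_unit (mem_E0.1 hv).1
    have := hN.smul _ ((g2 (mem_ball_zero_iff.2 he)).1 _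
      ⟨smul_E0 hv a0, mem_sphere_zero_iff_norm.2 a1⟩) _ (inv_ne_zero (pow_ne_zero (2 * (d + 1)) a0))
    rwa [MM_smul, inv_smul_smul₀ (pow_ne_zero _ a0)] at this
  obtain ⟨ε, g3, ε1⟩ := ((ev_eps hΩ hF ρ0 ρ1 fun w hw => g1 (mem_closedBall_zero_iff.2 hw)).and
    (nhdsWithin_le_nhds (ball_mem_nhds (0 : ℂ) r0))).exists
  obtain ⟨r₂, r2, g4⟩ := nhds_basis_ball.eventually_iff.1 (tube2 hΩ.isOpen
    (H := fun p : (Fin 3 → VV n) × VV 2 => MM F d ρ z ((ε, p.1), p.2)) (e := 0)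
    (contDiff_MM.comp (by fun_prop)) isCompact_KK g3)
  obtain ⟨t, t1, g5⟩ := exists_inj (z := z) h3 hF.deg hI ε (lt_min r0 r2)
  have t2 : ‖(ε, t)‖ < r := max_lt (mem_ball_zero_iff.1 ε1) (t1.trans_le (min_le_left _ _))
  obtain ⟨p, p1, p2⟩ := exists_pp F d ρ z (ε, t)
  refine ⟨p, p1, ?_⟩
  rw [p2]
  have g6 := g4 (mem_ball_zero_iff.2 (t1.trans_le (min_le_right _ _)))
  refine ⟨fun v hv => ⟨m1 _ t2 v hv, fun τ => ?_⟩, fun v hv v' hv' κ E => ?_,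
    (g2 (mem_ball_zero_iff.2 t2)).2, fun K π hπ k ⟨L, ⟨l1, l2⟩, l3⟩ => ?_⟩
  · exact of_KK hΩ (G := fun v => MM F d ρ z ((ε, t), v)) (diff_MM _) (MM_smul _) g6 hv
  · exact g5 v hv v' hv' κ (fun c => hN.ne _ (m1 _ t2 v' hv') (by simpa [c] using E)) E
  have m2 : ∀ q ∈ E0 ×ˢ I1, MM F d ρ z (q.2 • (ε, t), q.1) ∈ N := fun q hq => m1 _ (by
    rw [norm_smul, Real.norm_of_nonneg hq.2.1]
    exact (mul_le_of_le_one_left (norm_nonneg _) hq.2.2).trans_lt t2) _ hq.1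
  simpa using Dg.homotopy isCompact_E0 (fun h => (mem_E0.1 h).1 rfl) (fun _ h _ hs => smul_E0 h hs)
    (φ := fun q => π (MM F d ρ z (q.2 • (ε, t), q.1))) (k := 2 * k)
    (hπ.cont.comp (Continuous.continuousOn (by fun_prop)) m2) (fun q hq => hπ.r1 _ (m2 q hq))
    (fun v hv s hs c hc => by
      simp only [MM_smul]
      exact hπ.smul _ (m2 (v, s) ⟨hv, hs⟩) _ (pow_ne_zero _ hc))
    ⟨fun v => L (cov ρ v), ⟨l1.comp (contDiff_cov ρ).continuous.continuousOn fun v hv =>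
      cov_ne ρ0 hv, fun v hv => by simpa only [zero_smul, MM_zero] using l2 _ (cov_ne ρ0 hv)⟩,
      fun v hv c hc => by
        simp only [cov_smul, l3 _ (cov_ne ρ0 hv) _ (pow_ne_zero 2 hc)]
        rw [zpow_mul, zpow_ofNat]⟩

end Pool.Agent.Lib.MP_879098_ag.Q2
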