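import Pool.Agent.Lib.MP_879098_ag.QGeoDef
import Pool.Agent.Lib.MP_879098_ag.H66Pert
import Pool.Agent.Lib.MP_879098_ag.Morph
import Pool.Agent.Lib.MP_879098_ag.CloseA

/-! A cover of degree six of the projective line by the cubic: tools. -/

namespace Pool.Agent.Lib.MP_879098_ag.Q2

open Filter Topology Metric Morph

theorem mem_E0 {v : VV 2} : v ∈ E0 ↔ v ≠ 0 ∧ v 1 ^ 2 * v 2 = v 0 ^ 3 - v 0 * v 2 ^ 2 :=
  ⟨fun ⟨_, hx, h⟩ => ⟨h.ne, (Ell.mem_cubic h).1 hx⟩,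
    fun h => ⟨_, (Ell.mem_cubic (rep_toP h.1)).2 h.2, rep_toP h.1⟩⟩

theorem smul_E0 {v : VV 2} (h : v ∈ E0) {s : ℂ} (hs : s ≠ 0) : s • v ∈ E0 :=
  h.imp fun _ g => ⟨g.1, g.2.smul hs⟩

theorem isCompact_E0 : IsCompact (E0 ∩ sphere 0 1) := by
  have : E0 ∩ sphere 0 1 = sphere 0 1 ∩ {v : VV 2 | v 1 ^ 2 * v 2 = v 0 ^ 3 - v 0 * v 2 ^ 2} := by
    ext v
    refine ⟨fun h => ⟨h.2, (mem_E0.1 h.1).2⟩, fun h => ⟨mem_E0.2 ⟨fun c => ?_, h.2⟩, h.1⟩⟩
    simpa [c] using h.1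
  rw [this]
  exact (isCompact_sphere _ _).inter_right (isClosed_eq (by fun_prop) (by fun_prop))

namespace El

variable {n : ℕ} {Ω : Set (VV n × VV n)}

theorem ram {x y z a b c : ℂ} (hE : y ^ 2 * z = x ^ 3 - x * z ^ 2)
    (hT : 2 * y * z * b + y ^ 2 * c = 3 * x ^ 2 * a - z ^ 2 * a - 2 * x * z * c)
    (hI : ∀ s t : ℂ, s * x + t * a = 0 → s * y + t * b = 0 → s * z + t * c = 0 → s = 0 ∧ t = 0)
    (hW : (y ^ 2 + x * z - 2 * z ^ 2) * (2 * z * c) = z ^ 2 * (2 * y * b + a * z + x * c - 4 * z * c)) :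
    ‖z ^ 2‖ ≤ ‖y ^ 2 + x * z - 2 * z ^ 2‖ ∧
      (b * (2 * z + x) + y * (2 * c + a)) * (y ^ 2 + x * z - 2 * z ^ 2) ≠
        y * (2 * z + x) * (2 * y * b + a * z + x * c - 4 * z * c) := by
  by_cases hz : z = 0
  · subst hz
    obtain rfl : x = 0 := by simpa using hE.symm
    have hy : y ≠ 0 := fun e => by simpa using (hI 1 0 (by simp) (by simp [e]) (by simp)).1
    obtain rfl : c = 0 := by simpa [hy] using hT
    have ha : a ≠ 0 := fun e => hy (by simpa using (hI b (-y) (by simp [e]) (by ring) (by simp)).2)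
    simp [hy, ha]
  have e1 : 2 * y * z * (z * b - y * c) = (3 * x ^ 2 - z ^ 2) * (z * a - x * c) := by
    linear_combination z * hT - 3 * c * hE
  have e2 : x ^ 2 * (z * a - x * c) = 0 := by linear_combination (-1 / 3) * hW - (1 / 3) * e1
  have e3 : z * a - x * c = 0 := by
    rcases mul_eq_zero.1 e2 with g | g
    · obtain rfl : x = 0 := by simpa using g
      obtain rfl : y = 0 := by simpa [hz] using hE
      simpa [hz] using e1
    · exact g
  have e4 : z * b - y * c ≠ 0 := fun e =>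
    hz (hI (-c) z (by linear_combination e3) (by linear_combination e) (by ring)).2
  obtain rfl : y = 0 := by simpa [e3, e4, hz] using e1
  have hb : b ≠ 0 := fun e => e4 (by simp [e])
  have e5 : x * (x - z) * (x + z) = 0 := by linear_combination -hE
  have key : ∀ r : ℝ, x = r * z → 1 ≤ |r - 2| → r + 2 ≠ 0 →
      ‖z ^ 2‖ ≤ ‖(0 : ℂ) ^ 2 + x * z - 2 * z ^ 2‖ ∧
      (b * (2 * z + x) + 0 * (2 * c + a)) * (0 ^ 2 + x * z - 2 * z ^ 2) ≠
        0 * (2 * z + x) * (2 * 0 * b + a * z + x * c - 4 * z * c) := fun r e h1 h2 => by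
    have f1 : (0 : ℂ) ^ 2 + x * z - 2 * z ^ 2 = ((r - 2 : ℝ) : ℂ) * z ^ 2 := by
      rw [e]; push_cast; ring
    have f2 : b * (2 * z + x) + 0 * (2 * c + a) = b * z * ((r + 2 : ℝ) : ℂ) := by
      rw [e]; push_cast; ring
    rw [f1, f2, zero_mul, zero_mul, norm_mul, Complex.norm_real, Real.norm_eq_abs]
    refine ⟨le_mul_of_one_le_left (norm_nonneg _) h1, mul_ne_zero (mul_ne_zero (mul_ne_zero hb hz)
      (Complex.ofReal_ne_zero.2 h2)) (mul_ne_zero (Complex.ofReal_ne_zero.2 fun g => ?_)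
        (pow_ne_zero _ hz))⟩
    norm_num [g] at h1
  rcases mul_eq_zero.1 e5 with g | g
  · rcases mul_eq_zero.1 g with g | g
    · exact key 0 (by simpa using g) (by norm_num) (by norm_num)
    · exact key 1 (by push_cast; linear_combination g) (by norm_num) (by norm_num)
  · exact key (-1) (by push_cast; linear_combination g) (by norm_num [abs_of_neg]) (by norm_num)

theorem hasDerivAt_line {E : Type} [NormedAddCommGroup E] [NormedSpace ℂ E] {G : E → VV n}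
    {v : E} (hG : DifferentiableAt ℂ G v) (τ : E) :
    HasDerivAt (fun s : ℂ => G (v + s • τ)) (fderiv ℂ G v τ) 0 := by
  have h1 : HasDerivAt (fun t : ℂ => v + t • τ) τ 0 := by
    simpa using ((hasDerivAt_id (0 : ℂ)).smul_const τ).const_add v
  have h2 : HasFDerivAt G (fderiv ℂ G v) (v + (0 : ℂ) • τ) := by simpa using hG.hasFDerivAt
  exact h2.comp_hasDerivAt 0 h1

theorem tube2 {E : Type} [NormedAddCommGroup E] [NormedSpace ℂ E] (hΩ : IsOpen Ω)
    {H : E × VV 2 → VV n} (hH : ContDiff ℂ 1 H) {e : E} {K : Set (VV 2 × VV 2)} (hK : IsCompact K)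
    (h : ∀ q ∈ K, (H (e, q.1), fderiv ℂ (fun v => H (e, v)) q.1 q.2) ∈ Ω) :
    ∀ᶠ x in 𝓝 e, ∀ q ∈ K, (H (x, q.1), fderiv ℂ (fun v => H (x, v)) q.1 q.2) ∈ Ω := by
  have k : ∀ (x : E) (v τ : VV 2), fderiv ℂ (fun v => H (x, v)) v τ = fderiv ℂ H (x, v) (0, τ) :=
    fun x v τ => by
      rw [show (fun v => H (x, v)) = H ∘ fun v => (x, v) from rfl, ((hH.differentiable one_ne_zero
        (x, v)).hasFDerivAt.comp v (hasFDerivAt_prodMk_right x v)).fderiv]
      rfl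
  simp only [k] at h ⊢
  have c1 := hH.continuous
  have c2 := hH.continuous_fderiv one_ne_zero
  exact hK.eventually_forall_of_forall_eventually fun q hq =>
    (show ContinuousAt (fun p : E × VV 2 × VV 2 => (H (p.1, p.2.1),
      fderiv ℂ H (p.1, p.2.1) (0, p.2.2))) (e, q) by fun_prop).eventually_mem (hΩ.mem_nhds (h q hq))

/-- normalised tangent vectors of the cone over the cubic -/
def KK : Set (VV 2 × VV 2) := ((E0 ∩ sphere 0 1) ×ˢ sphere 0 1) ∩
  {q | Tc q.1 q.2 ∧ ∑ i, (starRingEnd ℂ) (q.1 i) * q.2 i = 0}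

theorem isCompact_KK : IsCompact KK :=
  (isCompact_E0.prod (isCompact_sphere _ _)).inter_right
    ((isClosed_eq (by fun_prop) (by fun_prop)).inter (isClosed_eq (by fun_prop) continuous_const))

theorem KK_i2 {q : VV 2 × VV 2} (h : q ∈ KK) : I2 q.1 q.2 := by
  have h0 := (mem_E0.1 h.1.1.1).1
  refine i2_of h0 fun c e => ?_
  have := Clo.ell_sub q.1 q.2 c h0
  rw [← e, sub_self, Clo.ell, Clo.ell, h.2.2] at this
  have : c = 0 := by simpa using this
  simpa [e, this] using h.1.2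

theorem of_KK (hΩ : Sat Ω) {G : VV 2 → VV n} (hG : Differentiable ℂ G) {e : ℕ}
    (hs : ∀ (s : ℂ) v, G (s • v) = s ^ e • G v) (h : ∀ q ∈ KK, (G q.1, fderiv ℂ G q.1 q.2) ∈ Ω)
    {v τ : VV 2} (hv : v ∈ E0) (hT : Tc v τ) (hI : I2 v τ) : (G v, fderiv ℂ G v τ) ∈ Ω := by
  obtain ⟨v0, hE⟩ := mem_E0.1 hv
  set l := Clo.ell v τ
  obtain ⟨a, a0, -, a1⟩ := exists_unit v0
  obtain ⟨b, b0, -, b1⟩ := exists_unit (sub_ne_zero.2 (hI.ne_smul l))
  have m := h (a • v, b • (τ - l • v)) ⟨⟨⟨smul_E0 hv a0, mem_sphere_zero_iff_norm.2 a1⟩,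
    mem_sphere_zero_iff_norm.2 b1⟩, by
      simp only [Tc, Pi.smul_apply, Pi.sub_apply, smul_eq_mul] at hT ⊢
      linear_combination a ^ 2 * b * hT - 3 * a ^ 2 * b * l * hE, by
      have := Clo.ell_sub v τ l v0
      rw [sub_self, Clo.ell, div_eq_zero_iff] at this
      have := this.resolve_right (Complex.ofReal_ne_zero.2 (Clo.sum_pos v0).ne')
      rw [← mul_zero ((starRingEnd ℂ) a * b), ← this, Finset.mul_sum]
      refine Finset.sum_congr rfl fun i _ => ?_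
      simp only [Pi.smul_apply, smul_eq_mul, map_mul]
      ring⟩
  have d1 : HasDerivAt (fun t : ℂ => a⁻¹ + t * (l / a)) (l / a) 0 := by
    simpa using ((hasDerivAt_id (0 : ℂ)).mul_const (l / a)).const_add a⁻¹
  have d2 : HasDerivAt (fun t : ℂ => t * b⁻¹) b⁻¹ 0 := by
    simpa using (hasDerivAt_id (0 : ℂ)).mul_const b⁻¹
  have g0 : a⁻¹ + 0 * (l / a) ≠ 0 := by simpa using a0
  have := hΩ.reparam (G := fun r : ℂ => G (a • v + r • b • (τ - l • v)))
    (φ := fun t => t * b⁻¹ / (a⁻¹ + t * (l / a))) (hasDerivAt_line (hG v) τ)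
    (by simpa using hasDerivAt_line (hG (a • v)) (b • (τ - l • v))) (d1.pow e) (d2.div d1 g0)
    (pow_ne_zero _ g0) (by simp [a0, b0])
    ((d1.continuousAt.eventually_ne g0).mono fun t ht => by
      rw [Pi.pow_apply, ← hs]
      congr 1
      ext i
      simp only [Pi.smul_apply, Pi.add_apply, Pi.sub_apply, smul_eq_mul]
      rw [mul_add, ← mul_assoc _ (_ / _), mul_div_cancel₀ _ ht]
      field_simp
      ring) (by simpa using m)
  simpa using this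

/-- the first quadric -/
noncomputable def sig (v : VV 2) : ℂ := v 1 ^ 2 + v 0 * v 2 - 2 * v 2 ^ 2

/-- the cover -/
noncomputable def cov (ρ : ℂ) (v : VV 2) : ℂ × ℂ := (sig v, ρ * v 2 ^ 2)

/-- the perturbed cover -/
noncomputable def MM (F : Tup n) (d : ℕ) (ρ : ℂ) (z : VV n) (q : (ℂ × (Fin 3 → VV n)) × VV 2) :
    VV n :=
  hom F (d + 1) (cov ρ q.2) + (q.1.1 * (q.2 1 * (2 * q.2 2 + q.2 0)) * sig q.2 ^ d) • z +
    ((q.2 0 * q.2 2 ^ (2 * d + 1)) • q.1.2 0 + (q.2 1 * q.2 2 ^ (2 * d + 1)) • q.1.2 1 +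
      (q.2 0 ^ 2 * q.2 2 ^ (2 * d)) • q.1.2 2)

variable {F : Tup n} {d : ℕ} {ρ : ℂ} {z : VV n}

theorem contDiff_cov (ρ : ℂ) : ContDiff ℂ 1 (cov ρ) := by
  unfold cov sig; fun_prop

theorem contDiff_MM : ContDiff ℂ 1 (MM F d ρ z) := by
  have h1 := contDiff_hom F (d + 1)
  have h2 := contDiff_cov ρ
  unfold MM sig; fun_prop

theorem cov_smul (ρ s : ℂ) (v : VV 2) : cov ρ (s • v) = s ^ 2 • cov ρ v := by
  ext <;> simp [cov, sig] <;> ring

theorem cov_ne (hρ : ρ ≠ 0) {v : VV 2} (hv : v ∈ E0) : cov ρ v ≠ 0 := fun e => by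
  obtain ⟨v0, hE⟩ := mem_E0.1 hv
  have h2 : v 2 = 0 := by simpa [cov, hρ] using congrArg Prod.snd e
  have h1 : v 1 = 0 := by simpa [cov, sig, h2] using congrArg Prod.fst e
  have h0 : v 0 = 0 := Ell.cubic_inf hE h2
  exact v0 (by ext i; fin_cases i; exacts [h0, h1, h2])

theorem MM_zero (v : VV 2) : MM F d ρ z (0, v) = hom F (d + 1) (cov ρ v) := by simp [MM]

open MvPolynomial in
theorem exists_pp (F : Tup n) (d : ℕ) (ρ : ℂ) (z : VV n) (e : ℂ × (Fin 3 → VV n)) :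
    ∃ p : Fin (n + 1) → MvPolynomial (Fin (2 + 1)) ℂ, (∀ i, (p i).IsHomogeneous (2 * (d + 1))) ∧
      mev p = fun v => MM F d ρ z (e, v) := by
  have hX : ∀ i : Fin (2 + 1), (X i : MvPolynomial (Fin (2 + 1)) ℂ).IsHomogeneous 1 :=
    isHomogeneous_X ℂ
  have hS : (X 1 ^ 2 + X 0 * X 2 - C 2 * X 2 ^ 2 : MvPolynomial (Fin (2 + 1)) ℂ).IsHomogeneous 2 :=
    (((hX 1).pow 2).add ((hX 0).mul (hX 2))).sub (((hX 2).pow 2).C_mul 2)
  refine ⟨fun i => ∑ k ∈ Finset.range (d + 1 + 1), C (ptop F k i) *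
      ((X 1 ^ 2 + X 0 * X 2 - C 2 * X 2 ^ 2) ^ (d + 1 - k) * (C ρ * X 2 ^ 2) ^ k) +
    C (e.1 * z i) * (X 1 * (C 2 * X 2 + X 0) * (X 1 ^ 2 + X 0 * X 2 - C 2 * X 2 ^ 2) ^ d) +
    (C (e.2 0 i) * (X 0 * X 2 ^ (2 * d + 1)) + C (e.2 1 i) * (X 1 * X 2 ^ (2 * d + 1)) +
      C (e.2 2 i) * (X 0 ^ 2 * X 2 ^ (2 * d))), fun i => ((IsHomogeneous.sum _ _ _ fun k hk =>
        IsHomogeneous.C_mul ?_ _).add (IsHomogeneous.C_mul ?_ _)).add
        (((IsHomogeneous.C_mul ?_ _).add (IsHomogeneous.C_mul ?_ _)).add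
          (IsHomogeneous.C_mul ?_ _)), ?_⟩
  · have := Finset.mem_range.1 hk
    convert (hS.pow (d + 1 - k)).mul ((((hX 2).pow 2).C_mul ρ).pow k) using 1
    omega
  · convert ((hX 1).mul (((hX 2).C_mul 2).add (hX 0))).mul (hS.pow d) using 1
    omega
  · convert (hX 0).mul ((hX 2).pow (2 * d + 1)) using 1
    omega
  · convert (hX 1).mul ((hX 2).pow (2 * d + 1)) using 1
    omega
  · convert ((hX 0).pow 2).mul ((hX 2).pow (2 * d)) using 1
    omega
  · ext v i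
    simp only [mev, MM, hom, cov, sig, map_add, map_sum, map_mul, map_pow, map_sub, eval_C, eval_X,
      Pi.add_apply, Pi.smul_apply, Finset.sum_apply, smul_eq_mul]
    congr 1
    · congr 1
      · exact Finset.sum_congr rfl fun k _ => mul_comm _ _
      · ring
    · ring

theorem MM_smul (e : ℂ × (Fin 3 → VV n)) (s : ℂ) (v : VV 2) :
    MM F d ρ z (e, s • v) = s ^ (2 * (d + 1)) • MM F d ρ z (e, v) := by
  obtain ⟨p, h1, h2⟩ := exists_pp F d ρ z e
  rw [← congrFun h2 (s • v), ← congrFun h2 v]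
  exact funext fun i => eval_smul (h1 i) s v

end El

end Pool.Agent.Lib.MP_879098_ag.Q2
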