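import Pool.Agent.Lib.MP_879098_ag.QSeg

/-! The rational curves on the surface form a tree. -/

namespace Pool.Agent.Lib.MP_879098_ag.Q2

open Polynomial Filter Topology Metric Sm

namespace GeoA

/-- the points of the six factors -/
noncomputable def pu (U : Fin 6 → Tup 1) (w : ℂ) : W6 := fun j => pev (U j) w

/-- the velocities of the six factors -/
noncomputable def pv (U : Fin 6 → Tup 1) (w : ℂ) : W6 := fun j => pev (der (U j)) w

/-- the exchange of the two triples of factors -/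
def sh {β : Type} (a : Bool) (u : Fin 6 → β) : Fin 6 → β := fun j => u (if a then j + 3 else j)

/-- the point zero or infinity -/
def oc (b : Bool) : Fin 2 → ℂ := if b then ![0, 1] else ![1, 0]

open Classical in
/-- the leaves with an arbitrary parametrisation -/
noncomputable def S0 (k : ℕ) (b : Bool) (c : ℂ) (F : Tup 1) : Fin 6 → Tup 1 :=
  ![![1, C c], ![1, C (sg b * c)], ![1, C (sg b * c ^ 2)],
    if (sg b * c ^ 2) ^ k = sg b then F else oo b,
    if (sg b * c ^ 2) ^ k = sg b then oo b else F, oo b]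

/-- the curves in the chart at infinity -/
noncomputable def V0 (k : ℕ) (b : Bool) : Option ℂ → Fin 6 → Tup 1
  | none => ![![X, 1], ![X, C (sg b)], ![X ^ 2, C (sg b)], oo b, oo b, oo b]
  | some c => S0 k b c (fr !b)

open Classical in
/-- the degrees of the factors -/
noncomputable def de (k : ℕ) (b : Bool) : Option ℂ → Fin 6 → ℕ
  | none => ![1, 1, 2, 0, 0, 0]
  | some c => ![0, 0, 0, if (sg b * c ^ 2) ^ k = sg b then 1 else 0,
      if (sg b * c ^ 2) ^ k = sg b then 0 else 1, 0]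

theorem U0_some (k : ℕ) (b : Bool) (c : ℂ) : U0 k b (some c) = S0 k b c (fr b) := rfl

theorem pev_two (p q : ℂ[X]) (w : ℂ) : pev (n := 1) ![p, q] w = ![p.eval w, q.eval w] := by
  ext a; fin_cases a <;> rfl

theorem der_two (p q : ℂ[X]) : der (n := 1) ![p, q] = ![derivative p, derivative q] := by
  ext a : 1; fin_cases a <;> rfl

theorem rf_two (d : ℕ) (p q : ℂ[X]) : rf (n := 1) d ![p, q] = ![reflect d p, reflect d q] := by
  ext a : 1; fin_cases a <;> rfl

theorem pev_oo (b : Bool) (w : ℂ) : pev (oo b) w = oc b := by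
  cases b <;> simp [oo, oc, pev_two]

theorem pev_der_oo (b : Bool) (w : ℂ) : pev (der (oo b)) w = 0 := by
  cases b <;> simp [oo, pev_two, der_two]

theorem pev_fr_zero (b : Bool) : pev (fr b) 0 = oc b := by
  cases b <;> simp [fr, oc, pev_two]

theorem pev_fr_ne (b : Bool) (w : ℂ) : pev (fr b) w ≠ 0 := by
  cases b <;> simp [fr, pev_two]

theorem dl_fr (b : Bool) (w : ℂ) :
    pev (fr b) w 0 * pev (der (fr b)) w 1 - pev (fr b) w 1 * pev (der (fr b)) w 0 ≠ 0 := by
  cases b <;> simp [fr, pev_two, der_two]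

theorem oc_ne (b : Bool) : oc b ≠ 0 := by cases b <;> simp [oc]

theorem rf_oo (b : Bool) : rf 0 (oo b) = oo b := by
  cases b <;> simp [oo, rf_two]

theorem rf_fr (b : Bool) : rf 1 (fr b) = fr !b := by
  cases b <;> simp [fr, rf_two]

theorem deg_oo (b : Bool) (a : Fin 2) : (oo b a).natDegree ≤ 0 := by
  cases b <;> fin_cases a <;> simp [oo]

theorem deg_fr (b : Bool) (a : Fin 2) : (fr b a).natDegree ≤ 1 := by
  cases b <;> fin_cases a <;> simp [fr]

theorem pu_U0 (k : ℕ) (b : Bool) (w : ℂ) : pu (U0 k b none) w =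
    ![![1, w], ![1, sg b * w], ![1, sg b * w ^ 2], oc b, oc b, oc b] := by
  ext j : 1
  fin_cases j <;> simp [pu, U0, pev_two, pev_oo]

theorem pv_U0 (k : ℕ) (b : Bool) (w : ℂ) : pv (U0 k b none) w =
    ![![0, 1], ![0, sg b], ![0, sg b * (2 * w)], 0, 0, 0] := by
  ext j : 1
  fin_cases j <;> simp [pv, U0, pev_two, der_two, pev_der_oo, one_add_one_eq_two]

theorem pu_V0 (k : ℕ) (b : Bool) (w : ℂ) : pu (V0 k b none) w =
    ![![w, 1], ![w, sg b], ![w ^ 2, sg b], oc b, oc b, oc b] := by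
  ext j : 1
  fin_cases j <;> simp [pu, V0, pev_two, pev_oo]

theorem pv_V0 (k : ℕ) (b : Bool) (w : ℂ) : pv (V0 k b none) w =
    ![![1, 0], ![1, 0], ![2 * w, 0], 0, 0, 0] := by
  ext j : 1
  fin_cases j <;> simp [pv, V0, pev_two, der_two, pev_der_oo, one_add_one_eq_two]

open Classical in
theorem pu_S0 (k : ℕ) (b : Bool) (c : ℂ) (F : Tup 1) (w : ℂ) : pu (S0 k b c F) w =
    ![![1, c], ![1, sg b * c], ![1, sg b * c ^ 2],
      if (sg b * c ^ 2) ^ k = sg b then pev F w else oc b,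
      if (sg b * c ^ 2) ^ k = sg b then oc b else pev F w, oc b] := by
  ext j : 1
  by_cases h : (sg b * c ^ 2) ^ k = sg b <;> fin_cases j <;> simp [pu, S0, pev_two, pev_oo, h]

open Classical in
theorem pv_S0 (k : ℕ) (b : Bool) (c : ℂ) (F : Tup 1) (w : ℂ) : pv (S0 k b c F) w =
    ![0, 0, 0, if (sg b * c ^ 2) ^ k = sg b then pev (der F) w else 0,
      if (sg b * c ^ 2) ^ k = sg b then 0 else pev (der F) w, 0] := by
  ext j : 1
  by_cases h : (sg b * c ^ 2) ^ k = sg b <;> fin_cases j <;>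
    simp [pv, S0, pev_two, der_two, pev_der_oo, h, -map_pow, -map_mul]

theorem rf_U0 (k : ℕ) (b : Bool) (o : Option ℂ) (j : Fin 6) :
    rf (de k b o j) (U0 k b o j) = V0 k b o j := by
  rcases o with _ | c
  · fin_cases j <;> simp [de, U0, V0, rf_two, rf_oo]
  · by_cases h : (sg b * c ^ 2) ^ k = sg b <;> fin_cases j <;>
      simp [de, U0, V0, S0, rf_oo, rf_fr, rf_two, h, -map_pow, -map_mul]

theorem deg_U0 (k : ℕ) (b : Bool) (o : Option ℂ) (j : Fin 6) (a : Fin 2) :
    (U0 k b o j a).natDegree ≤ de k b o j := by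
  rcases o with _ | c
  · fin_cases j
    · fin_cases a <;> simp [de, U0]
    · fin_cases a
      · simp [de, U0]
      · exact (natDegree_C_mul_le _ _).trans natDegree_X_le
    · fin_cases a
      · simp [de, U0]
      · exact (natDegree_C_mul_le _ _).trans (natDegree_X_pow_le 2)
    all_goals exact deg_oo b a
  · fin_cases j
    · fin_cases a
      · simp [U0]
      · exact (natDegree_C _).le
    · fin_cases a
      · simp [U0]
      · exact (natDegree_C _).le
    · fin_cases a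
      · simp [U0]
      · exact (natDegree_C _).le
    · by_cases h : (sg b * c ^ 2) ^ k = sg b
      · simpa [de, U0, h] using deg_fr b a
      · simpa [de, U0, h] using deg_oo b a
    · by_cases h : (sg b * c ^ 2) ^ k = sg b
      · simpa [de, U0, h] using deg_oo b a
      · simpa [de, U0, h] using deg_fr b a
    · exact deg_oo b a

theorem sum_de (k : ℕ) (b : Bool) (o : Option ℂ) :
    ∑ j, de k b o j = if o.isSome then 1 else 4 := by
  rcases o with _ | c
  · simp [de, Fin.sum_univ_six]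
  · by_cases h : (sg b * c ^ 2) ^ k = sg b <;> simp [de, Fin.sum_univ_six, h]

theorem sum_sh (a : Bool) (δ : Fin 6 → ℕ) : ∑ j, sh a δ j = ∑ j, δ j := by
  cases a
  · rfl
  · exact Equiv.sum_comp (Equiv.addRight (3 : Fin 6)) δ

theorem sol_sh {k : ℕ} {u : W6} (h : Sol k u) (a : Bool) : Sol k (sh a u) := by
  cases a
  · exact h
  · exact ⟨fun j => h.1 _, h.2.2, h.2.1⟩

theorem sol_U0 {k : ℕ} (hk : 0 < k) (b : Bool) (w : ℂ) : Sol k (pu (U0 k b none) w) := by
  rw [pu_U0]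
  refine ⟨fun j => ?_, ?_, ?_⟩
  · fin_cases j <;> simp [oc_ne]
  all_goals cases b <;> simp [Zr, oc, sg, hk.ne', sq]

theorem sol_V0 {k : ℕ} (hk : 0 < k) (b : Bool) (w : ℂ) : Sol k (pu (V0 k b none) w) := by
  rw [pu_V0]
  refine ⟨fun j => ?_, ?_, ?_⟩
  · cases b <;> fin_cases j <;> simp [oc_ne, sg]
  all_goals cases b <;> simp [Zr, oc, sg, hk.ne', sq]

theorem sol_S0 {k : ℕ} (hk : 0 < k) (b : Bool) {c : ℂ} (hc : c ^ (4 * k) = 1) {F : Tup 1} {w : ℂ}
    (hF : pev F w ≠ 0) : Sol k (pu (S0 k b c F) w) := by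
  have h2 : ((sg b * c ^ 2) ^ k) ^ 2 = 1 := by
    have : sg b ^ 2 = 1 := by cases b <;> simp [sg]
    calc ((sg b * c ^ 2) ^ k) ^ 2 = (sg b ^ 2) ^ k * c ^ (4 * k) := by ring
      _ = 1 := by rw [this, hc, one_pow, one_mul]
  rw [pu_S0]
  by_cases h : (sg b * c ^ 2) ^ k = sg b
  · rw [if_pos h, if_pos h]
    refine ⟨fun j => ?_, ?_, ?_⟩
    · fin_cases j <;> simp [oc_ne, hF]
    · cases b <;> simp [Zr, oc, sg, hk.ne', sq]
    · cases b <;> simp [sg] at h <;> simp [Zr, oc, sg, h]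
  · rw [if_neg h, if_neg h]
    have h3 : (sg b * c ^ 2) ^ k = -sg b := by
      rcases sq_eq_one_iff.1 h2 with g | g <;> cases b <;> simp_all [sg]
    refine ⟨fun j => ?_, ?_, ?_⟩
    · fin_cases j <;> simp [oc_ne, hF]
    · cases b <;> simp [Zr, oc, sg, hk.ne', sq]
    · cases b <;> simp [sg] at h3 <;> simp [Zr, oc, sg, h3]

theorem mem_tf {k : ℕ} {U : Fin 6 → Tup 1} (hs : ∀ w, Sol k (pu U w)) {w : ℂ} {j : Fin 6}
    (hj : dl (pu U w) (pv U w) j ≠ 0) : fl (segP U) w ∈ TF (YY k) := by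
  refine ⟨tan_arc (hasDerivAt_pev _ w) (Eventually.of_forall fun t => ?_), ?_⟩
  · rw [pev_segP]
    exact ⟨_, (hs t).mem.2, rep_toP (hs t).mem.1⟩
  · simp only [fl, pev_segP, pev_der_segP]
    exact i2_seg (hs w).1 hj

theorem dl_sh (a : Bool) (u g : W6) (j : Fin 6) :
    dl (sh a u) (sh a g) (if a then j + 3 else j) = dl u g j := by
  cases a
  · rfl
  · fin_cases j <;> rfl

theorem dl_S0 (k : ℕ) (b : Bool) (c : ℂ) (b' : Bool) (w : ℂ) : ∃ j : Fin 6, (j = 3 ∨ j = 4) ∧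
    dl (pu (S0 k b c (fr b')) w) (pv (S0 k b c (fr b')) w) j ≠ 0 := by
  rw [pu_S0, pv_S0]
  by_cases h : (sg b * c ^ 2) ^ k = sg b
  · refine ⟨3, .inl rfl, ?_⟩
    simpa [dl, h] using dl_fr b' w
  · refine ⟨4, .inr rfl, ?_⟩
    simpa [dl, h] using dl_fr b' w

theorem root_pow {k : ℕ} (hk : 0 < k) (c : nthRootsFinset (4 * k) (1 : ℂ)) :
    (c : ℂ) ^ (4 * k) = 1 := (mem_nthRootsFinset (by omega) _).1 c.2

/-- the curves in the chart at infinity -/
noncomputable def VW (k : ℕ) (i : II k) : Fin 6 → Tup 1 := sh i.1 (V0 k i.2.1 (i.2.2.map (↑)))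

theorem UU_eq (k : ℕ) (i : II k) : UU k i = sh i.1 (U0 k i.2.1 (i.2.2.map (↑))) := rfl

theorem dd_eq (k : ℕ) (i : II k) : dd k i = ∑ j, sh i.1 (de k i.2.1 (i.2.2.map (↑))) j := by
  rw [sum_sh, sum_de, dd, Option.isSome_map]

theorem deg_UU (k : ℕ) (i : II k) (j : Fin 6) (a : Fin 2) :
    (UU k i j a).natDegree ≤ sh i.1 (de k i.2.1 (i.2.2.map (↑))) j :=
  deg_U0 k i.2.1 (i.2.2.map (↑)) (if i.1 then j + 3 else j) a

theorem rf_RR (k : ℕ) (i : II k) : rf (dd k i) (RR k i) = segP (VW k i) := by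
  rw [dd_eq, RR, rf_segP (deg_UU k i)]
  exact congrArg segP (funext fun j =>
    rf_U0 k i.2.1 (i.2.2.map (↑)) (if i.1 then j + 3 else j))

theorem dd_pos (k : ℕ) (i : II k) : 1 ≤ dd k i := by
  rw [dd]; split_ifs <;> norm_num

theorem top_RR (k : ℕ) (i : II k) :
    (ptop (RR k i) (dd k i), ptop (RR k i) (dd k i - 1)) = fl (segP (VW k i)) 0 := by
  rw [← fl_rf_zero _ (dd_pos k i), rf_RR]

theorem mem_RR {k : ℕ} (hk : 0 < k) (i : II k) (p : VV 63 × VV 63)
    (hp : FlagOf (RR k i) (dd k i) p) : p ∈ TF (YY k) := by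
  obtain ⟨a, b, o⟩ := i
  rcases hp with ⟨w, rfl⟩ | rfl
  · rcases o with _ | c
    · refine mem_tf (fun w => sol_sh (sol_U0 hk b w) a) (j := if a then 0 + 3 else 0) ?_
      refine (dl_sh a (pu (U0 k b none) w) (pv (U0 k b none) w) 0).trans_ne ?_
      simp [pu_U0, pv_U0, dl]
    · obtain ⟨j, -, hj⟩ := dl_S0 k b c b w
      exact mem_tf (fun w => sol_sh (sol_S0 hk b (root_pow hk c) (pev_fr_ne b w)) a)
        (j := if a then j + 3 else j) ((dl_sh a _ _ j).trans_ne hj)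
  · rw [top_RR]
    rcases o with _ | c
    · refine mem_tf (fun w => sol_sh (sol_V0 hk b w) a) (j := if a then 0 + 3 else 0) ?_
      refine (dl_sh a (pu (V0 k b none) 0) (pv (V0 k b none) 0) 0).trans_ne ?_
      simp [pu_V0, pv_V0, dl]
    · obtain ⟨j, -, hj⟩ := dl_S0 k b c (!b) 0
      exact mem_tf (fun w => sol_sh (sol_S0 hk b (root_pow hk c) (pev_fr_ne (!b) w)) a)
        (j := if a then j + 3 else j) ((dl_sh a _ _ j).trans_ne hj)

/-- the curve `V` is attached transversally to the curve `U` at the parameter `w` -/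
def Nd (U V : Fin 6 → Tup 1) (w : ℂ) : Prop :=
  pev (segP V) 0 = pev (segP U) w ∧
    I3 (pev (segP V) 0) (pev (der (segP U)) w) (pev (der (segP V)) 0)

theorem nd_of {U V : Fin 6 → Tup 1} {w : ℂ} (h : pu V 0 = pu U w) (h0 : ∀ j, pu U w j ≠ 0)
    {i j : Fin 6} (h1 : dl (pu U w) (pv U w) i ≠ 0) (h2 : dl (pu V 0) (pv V 0) j ≠ 0)
    (h3 : dl (pu U w) (pv U w) j = 0) : Nd U V w := by
  have e1 : pev (segP V) 0 = seg (pu U w) := by rw [pev_segP, ← h]; rfl
  have e2 : pev (der (segP U)) w = dseg (pu U w) (pv U w) := pev_der_segP U w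
  have e3 : pev (der (segP V)) 0 = dseg (pu U w) (pv V 0) := by rw [pev_der_segP, ← h]; rfl
  refine ⟨e1.trans (pev_segP U w).symm, ?_⟩
  rw [e1, e2, e3]
  rw [h] at h2
  refine i3_seg h0 (i := i) (j := j) ?_
  rw [h3, zero_mul]
  exact mul_ne_zero h1 h2

theorem pu_sh (a : Bool) (U : Fin 6 → Tup 1) (w : ℂ) : pu (sh a U) w = sh a (pu U w) := rfl

theorem pv_sh (a : Bool) (U : Fin 6 → Tup 1) (w : ℂ) : pv (sh a U) w = sh a (pv U w) := rfl

theorem sh_true {β : Type} (a b c d e f : β) :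
    sh true ![a, b, c, d, e, f] = ![d, e, f, a, b, c] := by
  ext j; fin_cases j <;> rfl

theorem sh_false {β : Type} (u : Fin 6 → β) : sh false u = u := rfl

theorem nd_root {k : ℕ} (hk : 0 < k) :
    Nd (UU k (true, false, none)) (UU k (false, false, none)) 0 := by
  refine nd_of ?_ (sol_sh (sol_U0 hk false 0) true).1 (i := 3) (j := 0) ?_ ?_ ?_
  all_goals simp [UU_eq, pu_sh, pv_sh, pu_U0, pv_U0, sh_true, sh_false, oc, dl]

theorem nd_tf {k : ℕ} (hk : 0 < k) :
    Nd (UU k (false, false, none)) (UU k (true, false, none)) 0 := by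
  refine nd_of ?_ (sol_sh (sol_U0 hk false 0) false).1 (i := 0) (j := 3) ?_ ?_ ?_
  all_goals simp [UU_eq, pu_sh, pv_sh, pu_U0, pv_U0, sh_true, sh_false, oc, dl]

theorem nd_tt {k : ℕ} (hk : 0 < k) :
    Nd (VW k (false, false, none)) (UU k (true, true, none)) 0 := by
  refine nd_of ?_ (sol_sh (sol_V0 hk false 0) false).1 (i := 0) (j := 3) ?_ ?_ ?_
  all_goals
    simp [VW, UU_eq, pu_sh, pv_sh, pu_U0, pv_U0, pu_V0, pv_V0, sh_true, sh_false, oc, dl, sg]

theorem nd_ft {k : ℕ} (hk : 0 < k) :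
    Nd (VW k (true, false, none)) (UU k (false, true, none)) 0 := by
  refine nd_of ?_ (sol_sh (sol_V0 hk false 0) true).1 (i := 3) (j := 0) ?_ ?_ ?_
  all_goals
    simp [VW, UU_eq, pu_sh, pv_sh, pu_U0, pv_U0, pu_V0, pv_V0, sh_true, sh_false, oc, dl, sg]

theorem nd_some {k : ℕ} (hk : 0 < k) (a b : Bool) (c : nthRootsFinset (4 * k) (1 : ℂ)) :
    Nd (UU k (a, b, none)) (UU k (a, b, some c)) c := by
  obtain ⟨j, hj, h⟩ := dl_S0 k b c b 0
  refine nd_of ?_ (sol_sh (sol_U0 hk b c) a).1 (i := if a then 0 + 3 else 0)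
    (j := if a then j + 3 else j) ?_ ((dl_sh a _ _ j).trans_ne h) ?_
  · refine congrArg (sh a) (?_ : pu (S0 k b c (fr b)) 0 = pu (U0 k b none) c)
    rw [pu_S0, pu_U0, pev_fr_zero, ite_self]
  · refine (dl_sh a (pu (U0 k b none) c) (pv (U0 k b none) c) 0).trans_ne ?_
    simp [pu_U0, pv_U0, dl]
  · refine (dl_sh a (pu (U0 k b none) c) (pv (U0 k b none) c) j).trans ?_
    rcases hj with rfl | rfl <;> simp [pu_U0, pv_U0, dl]

/-- the parent -/
def pa (k : ℕ) : II k → II k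
  | (a, b, some _) => (a, b, none)
  | (false, _, none) => (true, false, none)
  | (true, _, none) => (false, false, none)

/-- the rank -/
def rk (k : ℕ) : II k → ℕ
  | (_, _, some _) => 3
  | (false, false, none) => 0
  | (false, true, none) => 2
  | (true, _, none) => 1

theorem rk_lt (k : ℕ) (i : II k) (h : i ≠ (false, false, none)) : rk k (pa k i) < rk k i := by
  obtain ⟨a, b, o⟩ := i
  rcases o with _ | c <;> cases a <;> cases b <;> simp [rk, pa] at h ⊢

theorem Nd.fin {k : ℕ} {i j : II k} {w : ℂ} (h : Nd (UU k j) (UU k i) w) :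
    ∃ y, FlagOf (RR k j) (dd k j) (pev (RR k i) 0, y) ∧
      I3 (pev (RR k i) 0) y (pev (der (RR k i)) 0) :=
  ⟨_, .inl ⟨w, Prod.ext h.1 rfl⟩, h.2⟩

theorem Nd.inf {k : ℕ} {i j : II k} (h : Nd (VW k j) (UU k i) 0) :
    ∃ y, FlagOf (RR k j) (dd k j) (pev (RR k i) 0, y) ∧
      I3 (pev (RR k i) 0) y (pev (der (RR k i)) 0) := by
  refine ⟨_, .inr ?_, h.2⟩
  rw [top_RR]
  exact Prod.ext h.1 rfl

theorem node_RR {k : ℕ} (hk : 0 < k) (i : II k) :
    ∃ y, FlagOf (RR k (pa k i)) (dd k (pa k i)) (pev (RR k i) 0, y) ∧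
      I3 (pev (RR k i) 0) y (pev (der (RR k i)) 0) := by
  obtain ⟨a, b, o⟩ := i
  rcases o with _ | c
  · cases a <;> cases b
    exacts [(nd_root hk).fin, (nd_ft hk).inf, (nd_tf hk).fin, (nd_tt hk).inf]
  · exact (nd_some hk a b c).fin

theorem tree_RR {k : ℕ} (hk : 0 < k) : Tree (YY k) (RR k) (dd k) := by
  choose y hy using node_RR hk
  refine ⟨dd_pos k, fun i j => ?_, mem_RR hk, rk k, pa k, y, (false, false, none), rk_lt k, hy⟩
  rw [dd_eq]
  exact deg_segP (deg_UU k i) j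

open Classical in
/-- the index of the leaf at `c` -/
noncomputable def ee (k : ℕ) (c : ℂ) : II k :=
  if h : c ∈ nthRootsFinset (4 * k) (1 : ℂ) then (false, false, some ⟨c, h⟩) else (true, false, none)

theorem ee_zero {k : ℕ} (hk : 0 < k) : ee k 0 = (true, false, none) := by
  refine dif_neg ?_
  rw [mem_nthRootsFinset (by omega), zero_pow (by omega)]
  exact zero_ne_one

theorem pev_RR (k : ℕ) (i : II k) (w : ℂ) : pev (RR k i) w = seg (pu (UU k i) w) := pev_segP _ w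

theorem pcen (k : ℕ) (w : ℂ) : pev (RR k (false, false, none)) w = cen w := by
  rw [pev_RR, cen]
  refine congrArg seg ?_
  simp [UU_eq, sh_false, pu_U0, pt, oc, sg]

theorem far (k : ℕ) : pev (RR k (false, true, none)) 0 = qq := by
  rw [pev_RR, qq]
  refine congrArg seg ?_
  simp [UU_eq, sh_false, pu_U0, oc]

theorem pleaf {k : ℕ} (hk : 0 < k) {c : ℂ} (hc : c ∈ ZZ k) (w : ℂ) :
    pev (RR k (ee k c)) w = leaf k c w := by
  have e : (sg false * c ^ 2) ^ k = c ^ (2 * k) := by simp [sg, pow_mul]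
  have hm : ∀ s : ℂ, s ^ 2 = 1 → c ^ (2 * k) = s → c ∈ nthRootsFinset (4 * k) (1 : ℂ) := by
    intro s hs h
    rw [mem_nthRootsFinset (by omega), show 4 * k = 2 * k * 2 by ring, pow_mul, h, hs]
  rw [pev_RR, leaf]
  refine congrArg seg ?_
  rcases ZZ_cases hk hc with ⟨rfl, h2, h3⟩ | ⟨h1, h2, h3⟩ | ⟨h1, h2, h3⟩
  · rw [ee_zero hk, h2, h3]
    simp [UU_eq, pu_sh, sh_true, pu_U0, pt, oc, sg]
  · rw [ee, dif_pos (hm 1 (by norm_num) h1), h2, h3]
    refine (pu_S0 k false c (fr false) w).trans ?_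
    rw [e, h1]
    simp [pt, oc, sg, fr, pev_two]
  · rw [ee, dif_pos (hm (-1) (by norm_num) h1), h2, h3]
    refine (pu_S0 k false c (fr false) w).trans ?_
    have : ¬(-1 : ℂ) = sg false := by rw [sg]; norm_num
    rw [e, h1, if_neg this, if_neg this]
    simp [pt, oc, sg, fr, pev_two]

theorem nd_ee {k : ℕ} (hk : 0 < k) {c : ℂ} (hc : c ∈ ZZ k) :
    Nd (UU k (false, false, none)) (UU k (ee k c)) c := by
  rcases Finset.mem_insert.1 hc with rfl | h
  · rw [ee_zero hk]; exact nd_tf hk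
  · rw [ee, dif_pos h]; exact nd_some hk false false ⟨c, h⟩

end GeoA

open GeoA in
theorem geo {k : ℕ} (hk : 0 < k) :
    ∃ e, Geo k (RR k) (dd k) (false, false, none) (false, true, none) e := by
  have t := top_RR k (true, false, none)
  have t1 : ptop (RR k (true, false, none)) (dd k (true, false, none)) =
      pev (segP (VW k (true, false, none))) 0 := congrArg Prod.fst t
  have t2 : ptop (RR k (true, false, none)) (dd k (true, false, none) - 1) =
      pev (der (segP (VW k (true, false, none)))) 0 := congrArg Prod.snd t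
  refine ⟨ee k, tree_RR hk, pcen k, fun c hc => pleaf hk hc, fun c hc => ?_, ?_, far k, ?_⟩
  · obtain ⟨h1, h2⟩ := nd_ee hk hc
    rw [← pcen k c]
    exact h1 ▸ h2
  · rw [ee_zero hk, t1, ← far k]
    exact (nd_ft hk).1.symm
  · rw [ee_zero hk, t2, ← far k]
    exact (nd_ft hk).2

end Pool.Agent.Lib.MP_879098_ag.Q2
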