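import Pool.Agent.Lib.MP_879098_ag.Base

/-! Small tools: strips, logarithms, roots, margins of rational curves, points of the surface. -/

namespace Pool.Agent.Lib.MP_879098_ag

open Filter Topology Polynomial Metric

theorem exists_strip (T : Set ℂ) (hT : T.Finite) (t : ℂ) (ht : t ∉ T) :
    ∃ e : ℂ, e ≠ 0 ∧ ∀ w : ℂ, |w.im| ≤ 2 → t + e * w ∉ T := by
  classical
  obtain ⟨x, hx⟩ := Infinite.exists_notMem_finset
    (hT.toFinset.image fun u : ℂ => (u - t).im / (u - t).re)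
  have e0 : (⟨1, x⟩ : ℂ) ≠ 0 := fun h => by simpa using congrArg Complex.re h
  have h1 : ∀ u ∈ T, ∀ᶠ r : ℝ in 𝓝[>] 0, 2 * r < |((u - t) / ⟨1, x⟩).im| := by
    intro u hu
    have h2 : ((u - t) / ⟨1, x⟩).im ≠ 0 := by
      intro c
      have h3 : u - t = ((u - t) / ⟨1, x⟩) * ⟨1, x⟩ := (div_mul_cancel₀ _ e0).symm
      have h4 := congrArg Complex.re h3
      have h5 := congrArg Complex.im h3
      simp only [Complex.mul_re, Complex.mul_im, c, mul_one, zero_mul, sub_zero, add_zero] at h4 h5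
      by_cases g : (u - t).re = 0
      · refine ht ((sub_eq_zero.1 (Complex.ext g ?_)) ▸ hu)
        rw [h5, ← h4, g, zero_mul]; rfl
      · exact hx (Finset.mem_image.2 ⟨u, hT.mem_toFinset.2 hu, by
          rw [h5, ← h4]; exact mul_div_cancel_left₀ _ g⟩)
    have : Tendsto (fun r : ℝ => 2 * r) (𝓝[>] 0) (𝓝 (2 * 0)) :=
      (tendsto_id.const_mul 2).mono_left nhdsWithin_le_nhds
    exact this.eventually_lt_const (by simpa using h2)
  obtain ⟨r, h2, h3⟩ := (((eventually_all_finite hT).2 h1).and self_mem_nhdsWithin).exists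
  have r0 : (0 : ℝ) < r := h3
  refine ⟨r * ⟨1, x⟩, mul_ne_zero (by exact_mod_cast r0.ne') e0, fun w hw hu => ?_⟩
  have h4 := h2 _ hu
  rw [add_sub_cancel_left, mul_right_comm, mul_div_cancel_right₀ _ e0, Complex.im_ofReal_mul,
    abs_mul, abs_of_pos r0] at h4
  nlinarith

theorem finite_ff (m : ℕ) (hm : 0 < m) : {s | ff m s = 0}.Finite := by
  have h : (X * (X ^ m - C 1) : ℂ[X]) ≠ 0 := mul_ne_zero X_ne_zero (X_pow_sub_C_ne_zero hm 1)
  refine (finite_setOfPred_isRoot h).subset fun s hs => ?_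
  simpa [ff] using hs

theorem exists_log {D : Set ℂ} (hD : IsOpen D) (hc : Convex ℝ D) {f : ℂ → ℂ}
    (hf : DifferentiableOn ℂ f D) (h0 : ∀ z ∈ D, f z ≠ 0) :
    ∃ g : ℂ → ℂ, DifferentiableOn ℂ g D ∧ ∀ z ∈ D, Complex.exp (g z) = f z := by
  rcases D.eq_empty_or_nonempty with rfl | ⟨z₀, hz⟩
  · exact ⟨0, by simp [differentiableOn_empty], by simp⟩
  obtain ⟨g, hg⟩ := hc.exists_forall_hasDerivWithinAt ((hf.deriv hD).div hf h0)
  have hg' : ∀ z ∈ D, HasDerivAt g (deriv f z / f z) z := fun z h =>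
    (hg z h).hasDerivAt (hD.mem_nhds h)
  have h1 : ∀ z ∈ D, HasDerivAt (fun z => f z * Complex.exp (-g z)) 0 z := fun z h => by
    have := ((hf.differentiableAt (hD.mem_nhds h)).hasDerivAt.mul (hg' z h).neg.cexp)
    refine this.congr_deriv ?_
    have := h0 z h
    simp only [Pi.neg_apply]
    field_simp
    ring
  have h2 : ∀ z ∈ D, f z * Complex.exp (-g z) = f z₀ * Complex.exp (-g z₀) := fun z h =>
    hD.is_const_of_deriv_eq_zero hc.isPreconnected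
      (fun z h => (h1 z h).differentiableAt.differentiableWithinAt)
      (fun z h => (h1 z h).deriv) h hz
  refine ⟨fun z => g z + Complex.log (f z₀ * Complex.exp (-g z₀)),
    fun z h => ((hg' z h).add_const _).differentiableAt.differentiableWithinAt,
    fun z h => ?_⟩
  rw [Complex.exp_add, Complex.exp_log (mul_ne_zero (h0 _ hz) (Complex.exp_ne_zero _)), ← h2 z h,
    mul_left_comm, ← Complex.exp_add, add_neg_cancel, Complex.exp_zero, mul_one]

theorem exists_root {D : Set ℂ} (hD : IsOpen D) (hc : Convex ℝ D) {f : ℂ → ℂ}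
    (hf : DifferentiableOn ℂ f D) (h0 : ∀ z ∈ D, f z ≠ 0) (n : ℕ) (hn : 0 < n) {z₀ y₀ : ℂ}
    (hz : z₀ ∈ D) (hy : y₀ ^ n = f z₀) :
    ∃ y : ℂ → ℂ, DifferentiableOn ℂ y D ∧ y z₀ = y₀ ∧ ∀ z ∈ D, y z ^ n = f z := by
  obtain ⟨g, h1, h2⟩ := exists_log hD hc hf h0
  refine ⟨fun z => y₀ * Complex.exp ((g z - g z₀) / n),
    (((h1.sub_const _).div_const _).cexp).const_mul _, by simp, fun z h => ?_⟩
  have : (n : ℂ) ≠ 0 := by exact_mod_cast hn.ne'
  rw [mul_pow, ← Complex.exp_nat_mul, mul_div_cancel₀ _ this, hy, ← h2 _ hz, ← Complex.exp_add,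
    add_sub_cancel, h2 _ h]

theorem continuous_pev {n : ℕ} (P : Fin (n + 1) → ℂ[X]) : Continuous (pev P) :=
  continuous_pi fun i => (P i).continuous

theorem pev_reflect {n : ℕ} (P : Fin (n + 1) → ℂ[X]) (d : ℕ) (hd : ∀ i, (P i).natDegree ≤ d)
    {w : ℂ} (hw : w ≠ 0) : pev P w = w ^ d • pev (fun i => reflect d (P i)) w⁻¹ := by
  ext i
  have := invertibleOfNonzero hw
  have h := eval₂_reflect_mul_pow (RingHom.id ℂ) w d (P i) (hd i)
  rw [invOf_eq_inv] at h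
  simp only [pev, Pi.smul_apply, smul_eq_mul]
  rw [mul_comm]
  exact h.symm

theorem pev_reflect_zero {n : ℕ} (P : Fin (n + 1) → ℂ[X]) (d : ℕ) :
    pev (fun i => reflect d (P i)) 0 = ptop P d := by
  ext i
  simp [pev, ptop, ← coeff_zero_eq_eval_zero, coeff_reflect]

theorem pev_lower {n : ℕ} (P : Fin (n + 1) → ℂ[X]) (d : ℕ) (hd : ∀ i, (P i).natDegree ≤ d)
    (h : ∀ w, pev P w ≠ 0) (ht : ptop P d ≠ 0) :
    ∃ c : ℝ, 0 < c ∧ ∀ w, c * (1 + ‖w‖) ^ d ≤ ‖pev P w‖ := by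
  have k : ∀ Q : Fin (n + 1) → ℂ[X], (∀ w, pev Q w ≠ 0) →
      ∃ c : ℝ, 0 < c ∧ ∀ w : ℂ, ‖w‖ ≤ 1 → c ≤ ‖pev Q w‖ := fun Q hQ => by
    obtain ⟨w, -, hw⟩ := (isCompact_closedBall (0 : ℂ) 1).exists_isMinOn
      (nonempty_closedBall.2 zero_le_one) (continuous_pev Q).norm.continuousOn
    exact ⟨_, norm_pos_iff.2 (hQ w), fun z hz => hw (mem_closedBall_zero_iff.2 hz)⟩
  obtain ⟨c, c0, h1⟩ := k P h
  obtain ⟨c', c1, h2⟩ := k (fun i => reflect d (P i)) fun w e => by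
    by_cases g : w = 0
    · exact ht (by rw [← pev_reflect_zero, ← g, e])
    · exact h w⁻¹ (by rw [pev_reflect P d hd (inv_ne_zero g), inv_inv, e, smul_zero])
  refine ⟨min c c' / 2 ^ d, by positivity, fun w => ?_⟩
  rw [div_mul_eq_mul_div, mul_div_assoc, ← div_pow]
  rcases le_total ‖w‖ 1 with g | g
  · exact (mul_le_of_le_one_right (by positivity)
      (pow_le_one₀ (by positivity) (by linarith))).trans ((min_le_left _ _).trans (h1 w g))
  · have w0 : w ≠ 0 := fun e => by simp [e] at g; linarith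
    rw [pev_reflect P d hd w0, norm_smul, norm_pow, mul_comm]
    exact mul_le_mul (pow_le_pow_left₀ (by positivity) (by linarith) _)
      ((min_le_right _ _).trans (h2 _ (by rw [norm_inv]; exact inv_le_one_of_one_le₀ g)))
      (by positivity) (by positivity)

theorem pev_near_top {n : ℕ} (P : Fin (n + 1) → ℂ[X]) (d : ℕ) (hd : ∀ i, (P i).natDegree ≤ d)
    (ht : ptop P d ≠ 0) (δ : ℝ) (hδ : 0 < δ) :
    ∃ R : ℝ, ∀ w : ℂ, R ≤ ‖w‖ → Near δ (ptop P d) (pev P w) := by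
  have h1 := ((isOpen_near δ (ptop P d)).preimage
    (continuous_pev fun i => reflect d (P i))).mem_nhds
    (show (0 : ℂ) ∈ _ by
      show Near _ _ _
      rw [pev_reflect_zero]; exact near_refl hδ ht)
  obtain ⟨r, r0, h2⟩ := Metric.mem_nhds_iff.1 h1
  refine ⟨r⁻¹ + 1, fun w hw => ?_⟩
  have r1 := inv_pos.2 r0
  have w0 : w ≠ 0 := fun e => by simp [e] at hw; linarith
  rw [pev_reflect P d hd w0]
  refine Near.smul_right (h2 ?_) (pow_ne_zero _ w0)
  rw [mem_ball_zero_iff, norm_inv]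
  exact inv_lt_of_inv_lt₀ r0 (by linarith)

theorem IsCone.margin {a b : ℕ} {Ω : Set (VV a × VV b)} (hΩ : IsCone Ω) {K : Set (VV a × VV b)}
    (hK : IsCompact K) (h : K ⊆ Ω) :
    ∃ δ : ℝ, 0 < δ ∧ ∀ p ∈ K, ∀ u v, Near δ p.1 u → Near δ p.2 v → (u, v) ∈ Ω := by
  obtain ⟨r, r0, h1⟩ := hK.exists_thickening_subset_open hΩ.isOpen h
  obtain ⟨B, hB⟩ := hK.isBounded.exists_norm_le
  have B0 : 0 < |B| + 1 := by positivity
  refine ⟨r / (|B| + 1), by positivity, ?_⟩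
  have key : ∀ {n : ℕ} (p u : VV n), ‖p‖ ≤ B → Near (r / (|B| + 1)) p u →
      ∃ κ : ℂ, κ ≠ 0 ∧ ∃ y, u = κ • y ∧ dist y p < r := by
    rintro n p u hp ⟨κ, k0, hk⟩
    refine ⟨κ, k0, κ⁻¹ • u, by simp [k0], ?_⟩
    have e : κ⁻¹ • u - p = κ⁻¹ • (u - κ • p) := by simp [smul_sub, k0]
    rw [dist_eq_norm, e, norm_smul, norm_inv, inv_mul_lt_iff₀ (norm_pos_iff.2 k0)]
    refine hk.trans_le ?_
    rw [norm_smul, mul_left_comm, div_mul_eq_mul_div, mul_div_assoc]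
    refine mul_le_mul_of_nonneg_left (mul_le_of_le_one_right r0.le ?_) (norm_nonneg _)
    rw [div_le_one B0]
    linarith [le_abs_self B]
  intro p hp u v hu hv
  obtain ⟨κ, k0, y, rfl, h2⟩ := key p.1 u ((norm_fst_le p).trans (hB p hp)) hu
  obtain ⟨μ, k1, z, rfl, h3⟩ := key p.2 v ((norm_snd_le p).trans (hB p hp)) hv
  exact hΩ.smul _ _ _ _ k0 k1 (h1 (mem_thickening_iff.2 ⟨p, hp, max_lt h2 h3⟩))

theorem IsRat.margin {a b : ℕ} {Ω : Set (VV a × VV b)} (hΩ : IsCone Ω) {P : Fin (a + 1) → ℂ[X]}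
    {d : ℕ} {Q : Fin (b + 1) → ℂ[X]} {e : ℕ} (h : IsRat Ω P d Q e) :
    ∃ δ : ℝ, 0 < δ ∧ (∀ w u v, Near δ (pev P w) u → Near δ (pev Q w) v → (u, v) ∈ Ω) ∧
      ∀ u v, Near δ (ptop P d) u → Near δ (ptop Q e) v → (u, v) ∈ Ω := by
  obtain ⟨δ, d0, h1⟩ := hΩ.margin ((isCompact_closedBall (0 : ℂ) 1).image
    ((continuous_pev P).prodMk (continuous_pev Q))) (by rintro _ ⟨w, -, rfl⟩; exact h.mem w)
  obtain ⟨ε, e0, h2⟩ := hΩ.margin ((isCompact_closedBall (0 : ℂ) 1).image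
    ((continuous_pev fun i => reflect d (P i)).prodMk (continuous_pev fun i => reflect e (Q i))))
    (by
      rintro _ ⟨w, -, rfl⟩
      by_cases g : w = 0
      · simpa only [g, pev_reflect_zero] using h.top
      · have := hΩ.smul _ _ (w ^ d) (w ^ e) (pow_ne_zero _ g) (pow_ne_zero _ g) (h.mem w⁻¹)
        rw [pev_reflect P d h.degP (inv_ne_zero g), pev_reflect Q e h.degQ (inv_ne_zero g)] at this
        simpa [smul_smul, g] using this)
  refine ⟨min δ ε, lt_min d0 e0, fun w u v hu hv => ?_, fun u v hu hv => ?_⟩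
  · rcases le_total ‖w‖ 1 with g | g
    · exact h1 _ ⟨w, mem_closedBall_zero_iff.2 g, rfl⟩ u v (hu.mono (min_le_left _ _))
        (hv.mono (min_le_left _ _))
    · have w0 : w ≠ 0 := fun e => by simp [e] at g; linarith
      rw [pev_reflect P d h.degP w0] at hu
      rw [pev_reflect Q e h.degQ w0] at hv
      refine h2 _ ⟨w⁻¹, mem_closedBall_zero_iff.2 ?_, rfl⟩ u v ?_ ?_
      · rw [norm_inv]; exact inv_le_one_of_one_le₀ g
      · simpa [w0] using (hu.mono (min_le_right _ _)).smul_left (inv_ne_zero (pow_ne_zero d w0))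
      · simpa [w0] using (hv.mono (min_le_right _ _)).smul_left (inv_ne_zero (pow_ne_zero e w0))
  · exact h2 _ ⟨0, by simp, rfl⟩ u v (by simpa only [pev_reflect_zero] using hu.mono (min_le_right _ _))
      (by simpa only [pev_reflect_zero] using hv.mono (min_le_right _ _))

theorem norm_ff_le (m : ℕ) (s : ℂ) : ‖ff m s‖ ≤ 2 * max 1 ‖s‖ ^ (m + 1) := by
  have h1 : (1 : ℝ) ≤ max 1 ‖s‖ ^ m := one_le_pow₀ (le_max_left _ _)
  have h2 : ‖s‖ ^ m ≤ max 1 ‖s‖ ^ m := pow_le_pow_left₀ (norm_nonneg _) (le_max_right _ _) _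
  have h3 : ‖s ^ m - 1‖ ≤ 2 * max 1 ‖s‖ ^ m := by
    refine (norm_sub_le _ _).trans ?_
    rw [norm_pow, norm_one]
    linarith
  rw [ff, norm_mul, pow_succ', mul_left_comm]
  exact mul_le_mul (le_max_right _ _) h3 (norm_nonneg _) (by positivity)

theorem small_root (m : ℕ) (η : ℝ) (hη : 0 < η) : ∃ R : ℝ, 1 ≤ R ∧ ∀ s t y : ℂ,
    y ^ (m + 2) = ff m s * ff m t → R ≤ ‖s‖ →
      max 1 ‖t‖ < η * (‖s‖ * max 1 ‖t‖) ∧ ‖y‖ < η * (‖s‖ * max 1 ‖t‖) := by
  refine ⟨1 + 1 / η + 4 / η ^ (m + 2), by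
    have : 0 < 1 / η + 4 / η ^ (m + 2) := by positivity
    linarith, fun s t y h hs => ?_⟩
  have a1 : 0 < 1 / η := by positivity
  have a2 : 0 < 4 / η ^ (m + 2) := by positivity
  have a3 : (1 : ℝ) ≤ max 1 ‖t‖ := le_max_left _ _
  have a4 : 1 < η * ‖s‖ := by
    rw [mul_comm, ← div_lt_iff₀ hη]; linarith
  have a5 : 4 < η ^ (m + 2) * ‖s‖ := by
    rw [mul_comm, ← div_lt_iff₀ (by positivity)]; linarith
  refine ⟨by nlinarith, lt_of_pow_lt_pow_left₀ (m + 2) (by positivity) ?_⟩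
  have a6 := norm_ff_le m s
  rw [max_eq_right (by linarith)] at a6
  have a7 := mul_le_mul a6 (norm_ff_le m t) (norm_nonneg _) (by positivity)
  rw [← norm_mul, ← h, norm_pow] at a7
  refine a7.trans_lt ?_
  have a8 : 0 < ‖s‖ ^ (m + 1) * max 1 ‖t‖ ^ (m + 1) := by
    have : 0 < ‖s‖ := by linarith
    positivity
  rw [mul_pow, mul_pow, pow_succ ‖s‖ (m + 1), pow_succ (max 1 ‖t‖) (m + 1)]
  nlinarith [mul_le_mul a5.le a3 zero_le_one (by positivity), mul_pos (sub_pos.2 a5) a8,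
    mul_nonneg (mul_nonneg (sub_nonneg.2 a3) a8.le) (le_trans (by norm_num) a5.le)]

theorem near_line (m : ℕ) (η : ℝ) (hη : 0 < η) : ∃ R : ℝ, ∀ s t y : ℂ,
    y ^ (m + 2) = ff m s * ff m t →
      (R ≤ ‖s‖ → Near η (![0, 0, 1, t, 0] : VV 4) (aff s t y)) ∧
      (R ≤ ‖t‖ → Near η (![0, 1, 0, s, 0] : VV 4) (aff s t y)) := by
  obtain ⟨R, R1, h⟩ := small_root m η hη
  have key : ∀ (s t : ℂ) (u v : VV 4) (i : Fin 5), 1 ≤ ‖s‖ → u i = 1 → u 3 = t →
      (∀ k, ‖(v - s • u) k‖ < η * (‖s‖ * max 1 ‖t‖)) → Near η u v := by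
    intro s t u v i h1 h2 h3 h4
    have s0 : 0 < ‖s‖ := by linarith
    refine ⟨s, norm_pos_iff.1 s0, ((pi_norm_lt_iff (by positivity)).2 h4).trans_le ?_⟩
    rw [norm_smul]
    gcongr
    exact max_le (by simpa [h2] using norm_le_pi_norm u i) (by simpa [h3] using norm_le_pi_norm u 3)
  refine ⟨R, fun s t y e => ⟨fun g => ?_, fun g => ?_⟩⟩
  · obtain ⟨a1, a2⟩ := h s t y e g
    have a0 := zero_lt_one.trans_le (le_max_left _ _) |>.trans a1
    refine key s t _ _ 2 (R1.trans g) rfl rfl fun k => ?_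
    fin_cases k <;> simp [aff]
    exacts [(le_max_left _ _).trans_lt a1, (le_max_right _ _).trans_lt a1, a0, a0, a2]
  · obtain ⟨a1, a2⟩ := h t s y (by rw [e, mul_comm]) g
    have a0 := zero_lt_one.trans_le (le_max_left _ _) |>.trans a1
    refine key t s _ _ 1 (R1.trans g) rfl rfl fun k => ?_
    fin_cases k <;> simp [aff, mul_comm]
    exacts [(le_max_left _ _).trans_lt a1, a0, (le_max_right _ _).trans_lt a1, a0, a2]

theorem exists_segre {m : ℕ} {v : VV 4} {x : PP 4} (h : Rep v x) (hx : x ∈ surface m) :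
    ∃ s₀ s₁ t₀ t₁ : ℂ, v = ![s₀ * t₀, s₀ * t₁, s₁ * t₀, s₁ * t₁, v 4] ∧ (s₀ ≠ 0 ∨ s₁ ≠ 0) ∧
      (t₀ ≠ 0 ∨ t₁ ≠ 0) := by
  obtain ⟨h1, h2⟩ := (mem_surface h).1 hx
  by_cases c0 : v 0 = 0
  · by_cases c1 : v 1 = 0
    · refine ⟨0, 1, v 2, v 3, by ext k; fin_cases k <;> simp [c0, c1], by simp, ?_⟩
      by_contra c
      simp only [ne_eq, not_or, not_not] at c
      have c4 : v 4 = 0 := by
        rw [c0, zero_mul, zero_mul] at h2
        exact pow_eq_zero_iff (by omega) |>.1 h2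
      exact h.ne (by ext k; fin_cases k <;> simp [c0, c1, c.1, c.2, c4])
    · have c2 : v 2 = 0 := by
        rw [c0, zero_mul, eq_comm, mul_eq_zero] at h1
        exact h1.resolve_left c1
      exact ⟨v 1, v 3, 0, 1, by ext k; fin_cases k <;> simp [c0, c2], Or.inl c1, by simp⟩
  · refine ⟨v 0, v 2, 1, v 1 / v 0, ?_, Or.inl c0, by simp⟩
    ext k
    fin_cases k <;> simp <;> field_simp
    linear_combination h1

theorem aff_dense (m : ℕ) (hm : 0 < m) (x : PP 4) (hx : x ∈ surface m) (η : ℝ) (hη : 0 < η) :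
    ∃ s t y : ℂ, y ≠ 0 ∧ y ^ (m + 2) = ff m s * ff m t ∧ Near η x.rep (aff s t y) := by
  obtain ⟨s₀, s₁, t₀, t₁, e, -, -⟩ := exists_segre (rep_rep x) hx
  have h2 := ((mem_surface (rep_rep x)).1 hx).2
  have hv := x.rep_nonzero
  generalize x.rep = v at e h2 hv
  let G : (ℂ × ℂ) × ℂ × ℂ → ℂ := fun p => p.1.1 * p.1.2 * (p.1.2 ^ m - p.1.1 ^ m) *
    (p.2.1 * p.2.2 * (p.2.2 ^ m - p.2.1 ^ m))
  let Ψ : ((ℂ × ℂ) × ℂ × ℂ) × ℂ → VV 4 := fun p =>
    ![p.1.1.1 * p.1.2.1, p.1.1.1 * p.1.2.2, p.1.1.2 * p.1.2.1, p.1.1.2 * p.1.2.2, p.2]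
  have hG : v 4 ^ (m + 2) = G ((s₀, s₁), t₀, t₁) := by
    rw [h2, e]
    simp only [G, Matrix.cons_val, mul_pow]
    ring
  have fin : ∀ (p : (ℂ × ℂ) × ℂ × ℂ) (y : ℂ), G p ≠ 0 → y ^ (m + 2) = G p → Near η v (Ψ (p, y)) →
      ∃ s t y : ℂ, y ≠ 0 ∧ y ^ (m + 2) = ff m s * ff m t ∧ Near η v (aff s t y) := by
    rintro ⟨⟨a, b⟩, c, d⟩ y h0 h1 h3
    have a0 : a ≠ 0 := fun g => h0 (by simp [G, g])
    have c0 : c ≠ 0 := fun g => h0 (by simp [G, g])
    refine ⟨b / a, d / c, y / (a * c), div_ne_zero (fun g => h0 (by rw [← h1, g]; simp))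
      (mul_ne_zero a0 c0), ?_, ?_⟩
    · rw [div_pow, h1]
      simp only [G, ff, div_pow, mul_pow]
      field_simp
      ring
    · convert h3.smul_right (inv_ne_zero (mul_ne_zero a0 c0)) using 1
      ext k
      fin_cases k <;> simp [aff, Ψ] <;> field_simp
  by_cases y0 : v 4 = 0
  swap
  · exact fin _ _ (hG ▸ pow_ne_zero _ y0) hG (by
      convert near_refl hη hv using 1
      exact e.symm)
  have cΨ : Continuous Ψ := continuous_pi fun k => by fin_cases k <;> simp [Ψ] <;> fun_prop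
  obtain ⟨r, r0, h3⟩ := Metric.mem_nhds_iff.1 (((isOpen_near η v).preimage cΨ).mem_nhds
    (show (((s₀, s₁), t₀, t₁), 0) ∈ _ by
      show Near η v _
      convert near_refl hη hv using 1
      rw [← y0]
      exact e.symm))
  have cG : Continuous G := by fun_prop
  obtain ⟨ρ, ρ0, h4⟩ := Metric.continuousAt_iff.1 (cG.continuousAt (x := ((s₀, s₁), t₀, t₁)))
    (r ^ (m + 2)) (by positivity)
  have pick : ∀ a b : ℂ, ∃ p : ℂ × ℂ, dist p (a, b) < min r ρ ∧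
      p.1 * p.2 * (p.2 ^ m - p.1 ^ m) ≠ 0 := by
    intro a b
    obtain ⟨a', g1, g2⟩ := ((Set.finite_singleton (0 : ℂ)).countable.dense_compl ℂ).exists_dist_lt
      a (lt_min r0 ρ0)
    obtain ⟨b', g3, g4⟩ := (((finite_ff m hm).image (a' * ·)).countable.dense_compl
      ℂ).exists_dist_lt b (lt_min r0 ρ0)
    have a0 : a' ≠ 0 := g1
    refine ⟨(a', b'), max_lt (by rwa [dist_comm]) (by rwa [dist_comm]), fun c => g3 ⟨b' / a', ?_,
      mul_div_cancel₀ _ a0⟩⟩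
    have : ff m (b' / a') = a' * b' * (b' ^ m - a' ^ m) / a' ^ (m + 2) := by
      simp only [ff, div_pow]
      field_simp
      ring
    exact this.trans (by rw [c, zero_div])
  obtain ⟨p, p1, p2⟩ := pick s₀ s₁
  obtain ⟨q, q1, q2⟩ := pick t₀ t₁
  have d1 : dist (p, q) ((s₀, s₁), t₀, t₁) < min r ρ := max_lt p1 q1
  obtain ⟨y, hy⟩ := IsAlgClosed.exists_pow_nat_eq (G (p, q)) (show 0 < m + 2 by omega)
  refine fin (p, q) y (mul_ne_zero p2 q2) hy (h3 (max_lt (d1.trans_le (min_le_left _ _)) ?_))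
  have := h4 (d1.trans_le (min_le_right _ _))
  rw [← hG, y0, zero_pow (by omega), ← hy, dist_zero_right, norm_pow] at this
  simpa using lt_of_pow_lt_pow_left₀ _ r0.le this

end Pool.Agent.Lib.MP_879098_ag
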