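import Pool.Agent.Lib.MP_879098_ag.SDefs
import Pool.Agent.Lib.MP_879098_ag.Tools

/-! A smooth surface in a product of six projective lines, in its Segre embedding. -/

namespace Pool.Agent.Lib.MP_879098_ag.Sm

open Polynomial Filter Topology Metric

/-- six pairs of homogeneous coordinates -/
abbrev W6 : Type := Fin 6 → Fin 2 → ℂ

/-- the indices of the Segre coordinates -/
def idx : Fin (63 + 1) ≃ (Fin 6 → Fin 2) := (finFunctionFinEquiv (m := 2) (n := 6)).symm

/-- the Segre map -/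
noncomputable def seg (u : W6) : VV 63 := fun j => ∏ i, u i (idx j i)

/-- the coordinates of the six factors, read off along the lines through the index `e` -/
def prj (e : Fin 6 → Fin 2) (v : VV 63) : W6 := fun i a => v (idx.symm (Function.update e i a))

/-- the relations `s = l m` and `l / m = r1 / r0` in homogeneous form -/
def Zr (l m s : Fin 2 → ℂ) (r0 r1 : ℂ) : Prop :=
  l 1 * m 1 * s 0 = l 0 * m 0 * s 1 ∧ l 1 * m 0 * r0 = l 0 * m 1 * r1

/-- the equations of the surface -/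
def Sol (k : ℕ) (u : W6) : Prop :=
  (∀ i, u i ≠ 0) ∧ Zr (u 0) (u 1) (u 2) (u 5 0 ^ k - u 5 1 ^ k) (u 5 0 ^ k + u 5 1 ^ k) ∧
    Zr (u 3) (u 4) (u 5) (u 2 0 ^ k - u 2 1 ^ k) (u 2 0 ^ k + u 2 1 ^ k)

/-- the surface -/
def YY (k : ℕ) : Set (PP 63) := {x | ∃ u, Sol k u ∧ Rep (seg u) x}

/-- affine points of the product of lines -/
def pt (l m s l' m' t : ℂ) : W6 := ![![1, l], ![1, m], ![1, s], ![1, l'], ![1, m'], ![1, t]]

/-- generic points of the surface -/
structure Gen (k : ℕ) (l m l' m' : ℂ) : Prop where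
  l0 : l ≠ 0
  m0 : m ≠ 0
  l0' : l' ≠ 0
  m0' : m' ≠ 0
  eq : l * (1 - (l' * m') ^ k) = m * (1 + (l' * m') ^ k)
  eq' : l' * (1 - (l * m) ^ k) = m' * (1 + (l * m) ^ k)

/-- coordinates of a generic point -/
noncomputable def gpt (l m l' m' : ℂ) : VV 63 := seg (pt l m (l * m) l' m' (l' * m'))

/-- the central rational curve -/
noncomputable def cen (w : ℂ) : VV 63 := seg (pt w w (w ^ 2) 0 0 0)

/-- the central curve near infinity -/
noncomputable def cenI (u : ℂ) : VV 63 :=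
  seg ![![u, 1], ![u, 1], ![u ^ 2, 1], ![1, 0], ![1, 0], ![1, 0]]

open Classical in
/-- first coefficient of a leaf -/
noncomputable def al (k : ℕ) (c : ℂ) : ℂ := if c ^ (2 * k) = -1 then 0 else 1

open Classical in
/-- second coefficient of a leaf -/
noncomputable def be (k : ℕ) (c : ℂ) : ℂ := if c ^ (2 * k) = 1 then 0 else 1

/-- the rational curve attached to the central curve at `c` -/
noncomputable def leaf (k : ℕ) (c n : ℂ) : VV 63 :=
  seg (pt c c (c ^ 2) (al k c * n) (be k c * n) (al k c * be k c * n ^ 2))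

/-- a leaf near infinity -/
noncomputable def leafI (k : ℕ) (c u : ℂ) : VV 63 :=
  seg ![![1, c], ![1, c], ![1, c ^ 2], ![1 - al k c + al k c * u, al k c],
    ![1 - be k c + be k c * u, be k c],
    ![1 - al k c * be k c + al k c * be k c * u ^ 2, al k c * be k c]]

open Classical in
/-- the parameter along the leaf at `c` -/
noncomputable def par (k : ℕ) (c l' m' : ℂ) : ℂ := if c ^ (2 * k) = -1 then m' else l'

open Classical in
/-- the points where leaves are attached -/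
noncomputable def ZZ (k : ℕ) : Finset ℂ := insert 0 (nthRootsFinset (4 * k) (1 : ℂ))

open Classical in
/-- the affine coordinate of the factor `i` -/
noncomputable def crd (i : Fin 6) (x : PP 63) : ℂ :=
  epsilon fun a => ∃ u : W6, Rep (seg u) x ∧ a = u i 1 / u i 0

/-- a holomorphic map to the projective line, read in the affine coordinate -/
def P1At (S : ℂ → ℂ) (z : ℂ) : Prop :=
  AnalyticAt ℂ S z ∨ ∃ g : ℂ → ℂ, AnalyticAt ℂ g z ∧ g z = 0 ∧ ∀ᶠ w in 𝓝 z, S w = (g w)⁻¹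

/-- the ramification condition of the two projections of a disc -/
def Good (m : ℕ) (S T : ℂ → ℂ) : Prop :=
  ∀ z ∈ ball (0 : ℂ) 1, P1At S z ∧ P1At T z ∧ (S z ^ m = 1 → T z ≠ 0 → deriv S z = 0) ∧
    (T z ^ m = 1 → S z ≠ 0 → deriv T z = 0)

theorem mem_ZZ {k : ℕ} (hk : 0 < k) {c : ℂ} : c ∈ ZZ k ↔ c = 0 ∨ c ^ (4 * k) = 1 := by
  rw [ZZ, Finset.mem_insert, mem_nthRootsFinset (by omega)]

theorem ZZ_cases {k : ℕ} (hk : 0 < k) {c : ℂ} (h : c ∈ ZZ k) :
    (c = 0 ∧ al k c = 1 ∧ be k c = 1) ∨ (c ^ (2 * k) = 1 ∧ al k c = 1 ∧ be k c = 0) ∨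
      (c ^ (2 * k) = -1 ∧ al k c = 0 ∧ be k c = 1) := by
  rcases (mem_ZZ hk).1 h with rfl | h
  · left
    simp [al, be, zero_pow (show 2 * k ≠ 0 by omega)]
  · rw [show 4 * k = 2 * k * 2 by ring, pow_mul, sq_eq_one_iff] at h
    rcases h with h | h
    · right; left
      refine ⟨h, if_neg ?_, if_pos h⟩
      rw [h]; norm_num
    · right; right
      refine ⟨h, if_pos h, if_neg ?_⟩
      rw [h]; norm_num

theorem seg_idx (u : W6) (e : Fin 6 → Fin 2) : seg u (idx.symm e) = ∏ i, u i (e i) := by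
  simp [seg]

theorem seg_ne_iff {u : W6} : seg u ≠ 0 ↔ ∀ i, u i ≠ 0 := by
  constructor
  · intro h i c
    refine h (funext fun j => Finset.prod_eq_zero (Finset.mem_univ i) ?_)
    rw [c]; rfl
  · intro h c
    choose e he using fun i => Function.ne_iff.1 (h i)
    have := congrFun c (idx.symm e)
    rw [seg_idx] at this
    exact Finset.prod_ne_zero_iff.2 (fun i _ => he i) this

theorem seg_smul (c : Fin 6 → ℂ) (u : W6) : seg (fun i => c i • u i) = (∏ i, c i) • seg u := by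
  ext j
  simp [seg, Finset.prod_mul_distrib]

theorem prj_smul (e : Fin 6 → Fin 2) (c : ℂ) (v : VV 63) : prj e (c • v) = c • prj e v := rfl

theorem prj_self (e : Fin 6 → Fin 2) (v : VV 63) (i : Fin 6) :
    prj e v i (e i) = v (idx.symm e) := by
  simp [prj]

theorem prj_seg (e : Fin 6 → Fin 2) (u : W6) (i : Fin 6) :
    prj e (seg u) i = (∏ l ∈ Finset.univ.erase i, u l (e l)) • u i := by
  ext a
  rw [prj, seg_idx, ← Finset.prod_erase_mul _ _ (Finset.mem_univ i), Function.update_self]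
  congr 1
  exact Finset.prod_congr rfl fun l hl => by
    rw [Function.update_of_ne (Finset.ne_of_mem_erase hl)]

theorem seg_prj (e : Fin 6 → Fin 2) (u : W6) :
    seg (prj e (seg u)) = seg u (idx.symm e) ^ 5 • seg u := by
  rw [show prj e (seg u) = _ from funext (prj_seg e u), seg_smul, seg_idx]
  congr 1
  simp only [Fin.prod_univ_six, show ∀ i : Fin 6, Finset.univ.erase i =
    Finset.univ.filter (· ≠ i) from fun i => by ext; simp, Finset.prod_filter]
  simp
  ring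

theorem Zr.smul {l m s : Fin 2 → ℂ} {r0 r1 : ℂ} (h : Zr l m s r0 r1) (a b c d : ℂ) :
    Zr (a • l) (b • m) (c • s) (d * r0) (d * r1) := by
  simp only [Zr, Pi.smul_apply, smul_eq_mul]
  exact ⟨by linear_combination a * b * c * h.1, by linear_combination a * b * d * h.2⟩

theorem Sol.smul {k : ℕ} {u : W6} (h : Sol k u) {c : Fin 6 → ℂ} (hc : ∀ i, c i ≠ 0) :
    Sol k fun i => c i • u i := by
  refine ⟨fun i => smul_ne_zero (hc i) (h.1 i), ?_, ?_⟩
  · convert h.2.1.smul (c 0) (c 1) (c 2) (c 5 ^ k) using 1 <;>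
      simp only [Pi.smul_apply, smul_eq_mul, mul_pow] <;> ring
  · convert h.2.2.smul (c 3) (c 4) (c 5) (c 2 ^ k) using 1 <;>
      simp only [Pi.smul_apply, smul_eq_mul, mul_pow] <;> ring

/-- the factors of a pure tensor are determined up to scalars -/
theorem exists_factors {u u' : W6} {x : PP 63} (h : Rep (seg u) x) (h' : Rep (seg u') x) :
    ∃ c : Fin 6 → ℂ, (∀ i, c i ≠ 0) ∧ u' = fun i => c i • u i := by
  obtain ⟨s, hs, g⟩ := h.exists_smul h'
  choose e he using fun i => Function.ne_iff.1 (seg_ne_iff.1 h'.ne i)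
  have a1 : ∀ i, ∏ l ∈ Finset.univ.erase i, u' l (e l) ≠ 0 := fun i =>
    Finset.prod_ne_zero_iff.2 fun l _ => he l
  have a2 : ∀ i, u' i = ((∏ l ∈ Finset.univ.erase i, u' l (e l))⁻¹ *
      (s * ∏ l ∈ Finset.univ.erase i, u l (e l))) • u i := fun i => by
    rw [mul_smul, mul_smul, ← prj_seg, show s • prj e (seg u) i = prj e (s • seg u) i from rfl,
      ← g, prj_seg, smul_smul, inv_mul_cancel₀ (a1 i), one_smul]
  exact ⟨_, fun i c => seg_ne_iff.1 h'.ne i (by rw [a2 i, c, zero_smul]), funext a2⟩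

theorem seg_par {u u' : W6} {x : PP 63} (h : Rep (seg u) x) (h' : Rep (seg u') x) (i : Fin 6) :
    u i 1 * u' i 0 = u i 0 * u' i 1 := by
  obtain ⟨c, -, rfl⟩ := exists_factors h h'
  simp only [Pi.smul_apply, smul_eq_mul]
  ring

theorem mem_YY {k : ℕ} {u : W6} {x : PP 63} (h : Rep (seg u) x) : x ∈ YY k ↔ Sol k u :=
  ⟨fun ⟨_, h1, h2⟩ => by
    obtain ⟨c, hc, rfl⟩ := exists_factors h2 h
    exact h1.smul hc, fun g => ⟨u, g, h⟩⟩

theorem Sol.mem {k : ℕ} {u : W6} (h : Sol k u) : seg u ≠ 0 ∧ toP (seg u) ∈ YY k :=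
  ⟨seg_ne_iff.2 h.1, u, h, rep_toP (seg_ne_iff.2 h.1)⟩

theorem crd_eq {u : W6} {x : PP 63} (h : Rep (seg u) x) (i : Fin 6) :
    crd i x = u i 1 / u i 0 := by
  obtain ⟨u', h', e⟩ := Classical.epsilon_spec
    (p := fun a => ∃ u : W6, Rep (seg u) x ∧ a = u i 1 / u i 0) ⟨_, u, h, rfl⟩
  obtain ⟨c, hc, rfl⟩ := exists_factors h h'
  rw [crd, e]
  exact mul_div_mul_left _ _ (hc i)

/-- every vector of coordinates of a point of the surface is recovered from its projections -/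
theorem rep_prj {k : ℕ} {x : PP 63} (hx : x ∈ YY k) {v : VV 63} (hv : Rep v x)
    {e : Fin 6 → Fin 2} (he : v (idx.symm e) ≠ 0) :
    Sol k (prj e v) ∧ seg (prj e v) = v (idx.symm e) ^ 5 • v := by
  obtain ⟨u, -, h2⟩ := id hx
  obtain ⟨s, -, rfl⟩ := h2.exists_smul hv
  have : seg (prj e (s • seg u)) = (s • seg u) (idx.symm e) ^ 5 • s • seg u := by
    rw [prj_smul, show s • prj e (seg u) = fun i => (fun _ => s) i • prj e (seg u) i from rfl,
      seg_smul, seg_prj, smul_smul, smul_smul]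
    congr 1
    simp only [Finset.prod_const, Finset.card_univ, Fintype.card_fin, Pi.smul_apply, smul_eq_mul]
    ring
  exact ⟨(mem_YY (this ▸ hv.smul (pow_ne_zero 5 he))).1 hx, this⟩

theorem pt_ne (l m s l' m' t : ℂ) (i : Fin 6) : pt l m s l' m' t i ≠ 0 := fun h => by
  have := congrFun h 0
  fin_cases i <;> simp [pt] at this

theorem sol_pt {k : ℕ} {l m s l' m' t : ℂ} : Sol k (pt l m s l' m' t) ↔
    (l * m = s ∧ l * (1 - t ^ k) = m * (1 + t ^ k)) ∧
      l' * m' = t ∧ l' * (1 - s ^ k) = m' * (1 + s ^ k) := by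
  rw [Sol, and_iff_right (pt_ne _ _ _ _ _ _)]
  simp [Zr, pt]

theorem Gen.sol {k : ℕ} {l m l' m' : ℂ} (h : Gen k l m l' m') :
    Sol k (pt l m (l * m) l' m' (l' * m')) := sol_pt.2 ⟨⟨rfl, h.eq⟩, rfl, h.eq'⟩

theorem Gen.mem {k : ℕ} {l m l' m' : ℂ} (h : Gen k l m l' m') :
    gpt l m l' m' ≠ 0 ∧ toP (gpt l m l' m') ∈ YY k := h.sol.mem

theorem Gen.symm {k : ℕ} {l m l' m' : ℂ} (h : Gen k l m l' m') : Gen k l' m' l m :=
  ⟨h.l0', h.m0', h.l0, h.m0, h.eq', h.eq⟩

theorem Gen.ne {k : ℕ} {l m l' m' : ℂ} (h : Gen k l m l' m') :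
    1 - (l * m) ^ k ≠ 0 ∧ 1 + (l * m) ^ k ≠ 0 := by
  refine ⟨fun c => h.m0' ?_, fun c => h.l0' ?_⟩
  · linear_combination (-1 / 2) * h.eq' + (l' + m') / 2 * c
  · linear_combination (1 / 2) * h.eq' + (l' + m') / 2 * c

theorem cen_mem {k : ℕ} (hk : 0 < k) (w : ℂ) : cen w ≠ 0 ∧ toP (cen w) ∈ YY k :=
  (sol_pt.2 (by simp [sq, hk.ne'])).mem

theorem leaf_mem {k : ℕ} (hk : 0 < k) {c : ℂ} (hc : c ∈ ZZ k) (n : ℂ) :
    leaf k c n ≠ 0 ∧ toP (leaf k c n) ∈ YY k := by
  refine (sol_pt.2 ?_).mem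
  rw [← pow_mul]
  rcases ZZ_cases hk hc with ⟨h1, h2, h3⟩ | ⟨h1, h2, h3⟩ | ⟨h1, h2, h3⟩ <;> rw [h2, h3, h1] <;>
    simp [sq, hk.ne']

theorem leaf_zero (k : ℕ) (c : ℂ) : leaf k c 0 = cen c := by simp [leaf, cen]

theorem cenI_mem (k : ℕ) : cenI 0 ≠ 0 ∧ toP (cenI 0) ∈ YY k := by
  refine Sol.mem ⟨fun i h => ?_, ?_, ?_⟩
  · have h0 := congrFun h 0
    have h1 := congrFun h 1
    fin_cases i <;> simp at h0 h1
  all_goals simp [Zr]

theorem leafI_mem {k : ℕ} (hk : 0 < k) {c : ℂ} (hc : c ∈ ZZ k) :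
    leafI k c 0 ≠ 0 ∧ toP (leafI k c 0) ∈ YY k := by
  refine Sol.mem ⟨fun i h => ?_, ?_⟩
  · have h0 := congrFun h 0
    have h1 := congrFun h 1
    rcases ZZ_cases hk hc with ⟨-, h2, h3⟩ | ⟨-, h2, h3⟩ | ⟨-, h2, h3⟩ <;> fin_cases i <;>
      simp [h2, h3] at h0 h1
  · rcases ZZ_cases hk hc with ⟨h1, h2, h3⟩ | ⟨h1, h2, h3⟩ | ⟨h1, h2, h3⟩ <;>
      simp [Zr, h2, h3, sq, hk.ne'] <;> simp [h1, ← sq, ← pow_mul]

theorem rep_cenI {u : ℂ} (hu : u ≠ 0) : Rep (cenI u) (toP (cen u⁻¹)) := by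
  have := (rep_toP (cen_mem one_pos u⁻¹).1).smul (s := ∏ i, ![u, u, u ^ 2, 1, 1, 1] i)
    (by simp [Fin.prod_univ_six, hu])
  rw [cen, ← seg_smul] at this
  rw [cen]
  convert this using 1
  refine congrArg seg ?_
  ext i a
  fin_cases i <;> fin_cases a <;> simp [pt, hu]

theorem rep_leafI {k : ℕ} (hk : 0 < k) {c : ℂ} (hc : c ∈ ZZ k) {u : ℂ} (hu : u ≠ 0) :
    Rep (leafI k c u) (toP (leaf k c u⁻¹)) := by
  have := (rep_toP (leaf_mem hk hc u⁻¹).1).smul (s := ∏ i, ![1, 1, 1, 1 - al k c + al k c * u,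
    1 - be k c + be k c * u, 1 - al k c * be k c + al k c * be k c * u ^ 2] i) (by
      rcases ZZ_cases hk hc with ⟨-, h2, h3⟩ | ⟨-, h2, h3⟩ | ⟨-, h2, h3⟩ <;>
        simp [Fin.prod_univ_six, hu, h2, h3])
  rw [leaf, ← seg_smul] at this
  rw [leaf]
  convert this using 1
  refine congrArg seg ?_
  ext i a
  rcases ZZ_cases hk hc with ⟨-, h2, h3⟩ | ⟨-, h2, h3⟩ | ⟨-, h2, h3⟩ <;>
    fin_cases i <;> fin_cases a <;> simp [pt, hu, h2, h3]

theorem analyticAt_seg {E : Type*} [NormedAddCommGroup E] [NormedSpace ℂ E] {U : E → W6} {z : E}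
    (h : ∀ i a, AnalyticAt ℂ (fun w => U w i a) z) : AnalyticAt ℂ (fun w => seg (U w)) z :=
  analyticAt_pi_iff.2 fun _ => Finset.analyticAt_fun_prod _ fun i _ => h i _

theorem continuous_seg : Continuous seg :=
  continuous_pi fun _ => continuous_finsetProd _ fun i _ =>
    (continuous_apply _).comp (continuous_apply i)

theorem analyticAt_gpt {l m l' m' : ℂ → ℂ} {z : ℂ} (h1 : AnalyticAt ℂ l z) (h2 : AnalyticAt ℂ m z)
    (h3 : AnalyticAt ℂ l' z) (h4 : AnalyticAt ℂ m' z) :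
    AnalyticAt ℂ (fun w => gpt (l w) (m w) (l' w) (m' w)) z := by
  refine analyticAt_seg fun i a => ?_
  fin_cases i <;> fin_cases a <;> simp only [pt] <;> simp <;> fun_prop

/-- a tuple of polynomials for a product of tuples of polynomials -/
theorem exists_segP (U : Fin 6 → Fin 2 → ℂ[X]) :
    ∃ Φ : Fin (63 + 1) → ℂ[X], ∀ w, pev Φ w = seg fun i a => (U i a).eval w :=
  ⟨fun j => ∏ i, U i (idx j i), fun w => funext fun j => by simp [pev, seg, eval_prod]⟩

theorem norm_seg (u : W6) : ‖seg u‖ = ∏ i, ‖u i‖ := by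
  refine le_antisymm ((pi_norm_le_iff_of_nonneg (by positivity)).2 fun j => ?_) ?_
  · rw [seg, norm_prod]
    exact Finset.prod_le_prod (fun _ _ => norm_nonneg _) fun i _ => norm_le_pi_norm _ _
  · choose e he using fun i => Finite.exists_max fun a => ‖u i a‖
    refine le_trans ?_ (norm_le_pi_norm _ (idx.symm e))
    rw [seg_idx, norm_prod]
    exact Finset.prod_le_prod (fun _ _ => norm_nonneg _) fun i _ =>
      (pi_norm_le_iff_of_nonneg (norm_nonneg _)).2 (he i)

theorem near_seg_update {δ : ℝ} {u : W6} (hu : ∀ i, u i ≠ 0) (i : Fin 6) {y : VV 1}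
    (h : Near δ (n := 1) (u i) y) : Near δ (seg u) (seg (Function.update u i y)) := by
  obtain ⟨κ, hκ, h⟩ := h
  have e : ∀ y : VV 1, ‖seg (Function.update u i y)‖ = (∏ l ∈ Finset.univ.erase i, ‖u l‖) * ‖y‖ :=
    fun y => by
      rw [norm_seg, ← Finset.prod_erase_mul _ _ (Finset.mem_univ i), Function.update_self]
      congr 1
      exact Finset.prod_congr rfl fun l hl => by
        rw [Function.update_of_ne (Finset.ne_of_mem_erase hl)]
  have e1 : ∀ (y : VV 1) j, seg (Function.update u i y) j =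
      (∏ l ∈ Finset.univ.erase i, u l (idx j l)) * y (idx j i) := fun y j => by
    rw [seg, ← Finset.prod_erase_mul _ _ (Finset.mem_univ i), Function.update_self]
    congr 1
    exact Finset.prod_congr rfl fun l hl => by
      rw [Function.update_of_ne (Finset.ne_of_mem_erase hl)]
  have e2 : κ • seg u = seg (Function.update u i (κ • u i)) := by
    ext j
    rw [e1, Pi.smul_apply, seg, ← Finset.prod_erase_mul _ _ (Finset.mem_univ i), Pi.smul_apply,
      smul_eq_mul, smul_eq_mul]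
    ring
  have e3 : seg (Function.update u i y) - κ • seg u = seg (Function.update u i (y - κ • u i)) := by
    ext j
    rw [e2, Pi.sub_apply, e1, e1, e1, Pi.sub_apply]
    ring
  refine ⟨κ, hκ, ?_⟩
  rw [e3, e2, e, e, mul_left_comm]
  exact mul_lt_mul_of_pos_left h (Finset.prod_pos fun l _ => norm_pos_iff.2 (hu l))

/-- nearness of the factors gives nearness of the Segre coordinates -/
theorem near_seg {δ : ℝ} (hδ : δ ≤ 1 / 10) {u u' : W6} (h : ∀ i, Near δ (n := 1) (u i) (u' i)) :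
    Near (20 * δ) (seg u) (seg u') := by
  classical
  have d0 := (h 0).pos
  have key : ∀ s : Finset (Fin 6),
      Near ((1 + δ) ^ (s.card + 1) - 1) (seg u) (seg (s.piecewise u' u)) := by
    intro s
    induction s using Finset.induction_on with
    | empty => simpa using near_refl d0 (seg_ne_iff.2 fun i => (h i).ne)
    | insert i s hi ih =>
      rw [Finset.piecewise_insert, Finset.card_insert_of_notMem hi]
      refine (ih.trans (near_seg_update (δ := δ) (fun l => ?_) i ?_)).mono (le_of_eq (by ring))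
      · by_cases c : l ∈ s
        · rw [Finset.piecewise_eq_of_mem _ _ _ c]; exact (h l).ne' (by linarith)
        · rw [Finset.piecewise_eq_of_notMem _ _ _ c]; exact (h l).ne
      · rw [Finset.piecewise_eq_of_notMem _ _ _ hi]; exact h i
  have := key Finset.univ
  rw [Finset.piecewise_univ, Finset.card_univ, Fintype.card_fin] at this
  refine this.mono ?_
  have a : (1 + δ) ^ 2 ≤ 1 + 2.1 * δ := by nlinarith
  have b : (1 + δ) ^ 4 ≤ 1 + 5 * δ := by
    calc _ = ((1 + δ) ^ 2) ^ 2 := by ring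
      _ ≤ (1 + 2.1 * δ) ^ 2 := by gcongr
      _ ≤ _ := by nlinarith
  calc _ ≤ (1 + δ) ^ 8 - 1 := by gcongr <;> linarith
    _ = ((1 + δ) ^ 4) ^ 2 - 1 := by ring
    _ ≤ (1 + 5 * δ) ^ 2 - 1 := by gcongr
    _ ≤ _ := by nlinarith

theorem exists_log_disc {f : ℂ → ℂ} (hf : AnalyticOnNhd ℂ f (closedBall 0 1))
    (h0 : ∀ z ∈ closedBall (0 : ℂ) 1, f z ≠ 0) : ∃ g : ℂ → ℂ,
      AnalyticOnNhd ℂ g (closedBall 0 1) ∧ ∀ z ∈ closedBall (0 : ℂ) 1, Complex.exp (g z) = f z := by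
  have hU : IsOpen {z | AnalyticAt ℂ f z ∧ f z ≠ 0} := isOpen_iff_mem_nhds.2 fun z hz =>
    hz.1.eventually_analyticAt.and (hz.1.continuousAt.eventually_ne hz.2)
  obtain ⟨δ, hδ, hδU⟩ := (isCompact_closedBall (0 : ℂ) 1).exists_thickening_subset_open hU
    fun z hz => ⟨hf z hz, h0 z hz⟩
  rw [thickening_closedBall hδ zero_le_one] at hδU
  have hsub : closedBall (0 : ℂ) 1 ⊆ ball 0 (δ + 1) := closedBall_subset_ball (by linarith)
  obtain ⟨g, h1, h2⟩ := exists_log isOpen_ball (convex_ball _ _)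
    (fun z hz => (hδU hz).1.differentiableAt.differentiableWithinAt) fun z hz => (hδU hz).2
  exact ⟨g, (h1.analyticOnNhd isOpen_ball).mono hsub, fun z hz => h2 z (hsub hz)⟩

end Pool.Agent.Lib.MP_879098_ag.Sm
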