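import Pool.Agent.Lib.MP_879098_ag.QCur
import Pool.Agent.Lib.MP_879098_ag.SBase

/-! The rational curves on the surface: definitions. -/

namespace Pool.Agent.Lib.MP_879098_ag.Q2

open Polynomial Filter Topology Metric Sm

/-- the map of the projective line given by a tuple -/
noncomputable def nu {n : ℕ} (P : Tup n) (d : ℕ) (x : PP 1) : PP n :=
  toP (hom P d (x.rep 0, x.rep 1))

/-- the derivative of the Segre map -/
noncomputable def dseg (u g : W6) : VV 63 := ∑ i, seg (Function.update u i (g i))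

/-- the velocity in one factor -/
def dl (u g : W6) (i : Fin 6) : ℂ := u i 0 * g i 1 - u i 1 * g i 0

/-- the Segre product of six tuples -/
noncomputable def segP (U : Fin 6 → Tup 1) : Tup 63 := fun j => ∏ i, U i (idx j i)

/-- the point where the curves `s = 0` and `t = ∞` meet -/
noncomputable def qq : VV 63 := seg ![![1, 0], ![1, 0], ![1, 0], ![0, 1], ![0, 1], ![0, 1]]

/-- the vectors with bounded last coordinate -/
def KC (C : ℝ) : Set (VV 63) :=
  {v | ∀ e : Fin 6 → Fin 2,
    ‖v (idx.symm (Function.update e 5 1))‖ ≤ C * ‖v (idx.symm (Function.update e 5 0))‖}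

open Classical in
/-- indices of the curves -/
abbrev II (k : ℕ) : Type := Bool × Bool × Option (nthRootsFinset (4 * k) (1 : ℂ))

/-- a sign -/
def sg (b : Bool) : ℂ := if b then -1 else 1

/-- the point zero or infinity -/
noncomputable def oo (b : Bool) : Tup 1 := if b then ![0, 1] else ![1, 0]

/-- a free coordinate that starts at zero or infinity -/
noncomputable def fr (b : Bool) : Tup 1 := if b then ![X, 1] else ![1, X]

open Classical in
/-- the curves in the fibres `t = 0` and `t = ∞` -/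
noncomputable def U0 (k : ℕ) (b : Bool) : Option ℂ → Fin 6 → Tup 1
  | none => ![![1, X], ![1, C (sg b) * X], ![1, C (sg b) * X ^ 2], oo b, oo b, oo b]
  | some c => ![![1, C c], ![1, C (sg b * c)], ![1, C (sg b * c ^ 2)],
      if (sg b * c ^ 2) ^ k = sg b then fr b else oo b,
      if (sg b * c ^ 2) ^ k = sg b then oo b else fr b, oo b]

/-- the factors of all curves -/
noncomputable def UU (k : ℕ) (i : II k) : Fin 6 → Tup 1 :=
  fun j => U0 k i.2.1 (i.2.2.map (↑)) (if i.1 then j + 3 else j)

/-- the curves -/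
noncomputable def RR (k : ℕ) (i : II k) : Tup 63 := segP (UU k i)

/-- their degrees -/
def dd (k : ℕ) (i : II k) : ℕ := if i.2.2.isSome then 1 else 4

/-- the properties of the tree of curves that are used -/
structure Geo (k : ℕ) {ι : Type} (R : ι → Tup 63) (d : ι → ℕ) (i₀ i₁ : ι) (e : ℂ → ι) : Prop where
  tree : Tree (YY k) R d
  pcen : ∀ w, pev (R i₀) w = cen w
  pleaf : ∀ c ∈ ZZ k, ∀ w, pev (R (e c)) w = leaf k c w
  node : ∀ c ∈ ZZ k, I3 (cen c) (pev (der (R i₀)) c) (pev (der (R (e c))) 0)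
  top : ptop (R (e 0)) (d (e 0)) = qq
  far : pev (R i₁) 0 = qq
  nodeF : I3 qq (ptop (R (e 0)) (d (e 0) - 1)) (pev (der (R i₁)) 0)

/-- the cone over the cubic -/
abbrev E0 : Set (VV 2) := cone (cubic (-1) 0)

/-- the tangent plane of the cone over the cubic -/
def Tc (v τ : VV 2) : Prop :=
  2 * v 1 * v 2 * τ 1 + v 1 ^ 2 * τ 2 = 3 * v 0 ^ 2 * τ 0 - v 2 ^ 2 * τ 0 - 2 * v 0 * v 2 * τ 2

/-- the strip -/
abbrev St : Set ℂ := {y | |y.im| < 2}

end Pool.Agent.Lib.MP_879098_ag.Q2
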