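import Pool.Agent.Lib.MP_879098_ag.QSRH
import Pool.Agent.Lib.MP_879098_ag.CloseA

/-! Closing a disc with a family of copies of one rational curve. -/

namespace Pool.Agent.Lib.MP_879098_ag.Q2

open Filter Topology Metric

namespace Pt

variable {n : ℕ}

theorem norm_mix {A : VV n →L[ℂ] VV n} {η t : ℝ} (hA : ‖A - 1‖ ≤ η) (ht : t ∈ I1) :
    ‖((1 - t) • (1 : VV n →L[ℂ] VV n) + t • A) - 1‖ ≤ η :=
  mem_closedBall_iff_norm.1 (convex_closedBall (1 : VV n →L[ℂ] VV n) η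
    (mem_closedBall_self ((norm_nonneg _).trans hA)) (mem_closedBall_iff_norm.2 hA)
    (sub_nonneg.2 ht.2) ht.1 (by ring))

theorem norm_seg (u v : VV n) {t : ℝ} (ht : t ∈ I1) : ‖(1 - t) • u + t • v - u‖ ≤ ‖v - u‖ ∧
    ‖(1 - t) • u + t • v - v‖ ≤ ‖v - u‖ :=
  ⟨mem_closedBall_iff_norm.1 (convex_closedBall u _ (mem_closedBall_self (norm_nonneg _))
      (mem_closedBall_iff_norm.2 le_rfl) (sub_nonneg.2 ht.2) ht.1 (by ring)),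
    mem_closedBall_iff_norm.1 (convex_closedBall v _ (mem_closedBall_iff_norm'.2 le_rfl)
      (mem_closedBall_self (norm_nonneg _)) (sub_nonneg.2 ht.2) ht.1 (by ring))⟩

theorem near_ell {δ : ℝ} {u v : VV n} (h : Near δ u v) (hδ : 2 * ((n + 1) * δ) ≤ 1) :
    Clo.ell u v ≠ 0 ∧ ‖v - Clo.ell u v • u‖ ≤ 2 * ((n + 2) * δ) * ‖Clo.ell u v • u‖ := by
  have u0 := h.ne
  have d0 := h.pos
  obtain ⟨κ, k0, h⟩ := h
  have h1 := Clo.norm_ell u0 (v - κ • u)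
  rw [Clo.ell_sub _ _ _ u0, ← norm_smul, sub_smul] at h1
  have h2 := norm_sub_le_norm_sub_add_norm_sub v (κ • u) (Clo.ell u v • u)
  have h3 := norm_le_norm_sub_add (κ • u) (Clo.ell u v • u)
  rw [norm_sub_rev (κ • u)] at h2 h3
  have h4 := norm_pos_iff.2 (smul_ne_zero k0 u0)
  have n0 : (0 : ℝ) ≤ n := n.cast_nonneg
  have h5 : (n + 1) * ‖v - κ • u‖ ≤ (n + 1) * δ * ‖κ • u‖ := by
    rw [mul_assoc]; gcongr
  have h6 : ‖κ • u‖ ≤ 2 * ‖Clo.ell u v • u‖ := by nlinarith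
  refine ⟨fun e => ?_, ?_⟩
  · rw [e, zero_smul, norm_zero] at h6
    linarith
  · have : (n + 2) * δ * ‖κ • u‖ ≤ (n + 2) * δ * (2 * ‖Clo.ell u v • u‖) := by gcongr
    nlinarith

theorem seg_bd {K : ℕ} {N : Set (VV n)} {π : VV n → VV K →L[ℂ] VV K} (hπ : PF N π) {a b : ℂ → VV n}
    (ha : ContinuousOn a D1) (hb : ContinuousOn b D1)
    (m : ∀ z ∈ D1, ∀ s ∈ I1, (1 - s) • a z + s • b z ∈ N) {l : ℂ × ℝ → VV K} {L : ℂ → VV K}
    (hl : Lf (S1 ×ˢ I1) (fun p => π ((1 - p.2) • a p.1 + p.2 • b p.1)) l)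
    (hL : Lf D1 (fun z => π (a z)) L) (e : ∀ ζ ∈ S1, L ζ = l (ζ, 0)) :
    BD (fun z => π (b z)) (fun ζ => l (ζ, 1)) 0 := by
  have c : ContinuousOn (fun p : ℂ × ℝ => (1 - p.2) • a p.1 + p.2 • b p.1) (D1 ×ˢ I1) :=
    ((continuousOn_const.sub continuousOn_snd).smul (ha.comp continuousOn_fst fun _ hp => hp.1)).add
      (continuousOn_snd.smul (hb.comp continuousOn_fst fun _ hp => hp.1))
  simpa using BD.homotopy (φ := fun p => π ((1 - p.2) • a p.1 + p.2 • b p.1))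
    (hπ.cont.comp c fun p hp => m _ hp.1 _ hp.2) (fun p hp => hπ.r1 _ (m _ hp.1 _ hp.2)) hl
    ((BD.self hL).congr (fun z _ => by simp) e)

theorem close {Ω : Set (VV n × VV n)} (hΩ : Sat Ω) {N : Set (VV n)} (hN : OC N)
    (hm : ∀ p ∈ Ω, p.1 ∈ N) {η : ℝ} {G : ℂ → Tup n} {D : ℕ} {f g : ℂ → VV n} {H : ℂ × ℝ → VV n}
    {A : ℂ → VV n →L[ℂ] VV n} {q : VV n} (hf : AnalyticOnNhd ℂ f D1) (hg : AnalyticOnNhd ℂ g D1)
    (mf : ∀ z ∈ D1, (f z, deriv f z) ∈ Ω) (mg : ∀ z ∈ D1, (g z, deriv g z) ∈ Ω)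
    (hG : ∀ k, ContinuousOn (fun z => ptop (G z) k) D1) (hC : ∀ z ∈ D1, Cur (shr η Ω) (G z) D)
    (hq : ∀ z ∈ D1, ptop (G z) D = q) (hA : ContinuousOn A S1)
    (hA' : ∀ ζ ∈ S1, ‖A ζ - 1‖ ≤ η ∧ A ζ (ptop (G ζ) 0) = f ζ ∧ A ζ q = g ζ⁻¹ ∧
      GT Ω (f ζ) (deriv f ζ) (A ζ (ptop (G ζ) 1)) ∧
      GT Ω (g ζ⁻¹) (deriv g ζ⁻¹) (A ζ (ptop (G ζ) (D - 1))))
    (cH : ContinuousOn H (D1 ×ˢ I1)) (mH : ∀ p ∈ D1 ×ˢ I1, H p ∈ N) (H0 : ∀ z ∈ D1, H (z, 0) = f z)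
    (H1 : ∀ ζ ∈ S1, ∀ t ∈ I1, H (ζ, t) = f ζ)
    (s1 : ∀ z ∈ D1, ∀ s ∈ I1, (1 - s) • ptop (G z) 0 + s • H (z, 1) ∈ N)
    (s2 : ∀ z ∈ D1, ∀ s ∈ I1, (1 - s) • q + s • g z ∈ N) :
    ∃ (F : Tup n) (E M : ℕ), Cur Ω F E ∧ pev F 0 = f 0 ∧ ptop F E = g 0 ∧
      ptop F (E - 1) = deriv g 0 ∧
      ∀ (K : ℕ) (π : VV n → VV K →L[ℂ] VV K), PF N π → ∀ (k : ℤ) (L : ℂ × ℂ × ℂ → VV K),
        Lf (D1 ×ˢ {0}ᶜ) (fun p => π (hom (G p.1) D p.2)) L →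
        (∀ z ∈ D1, ∀ x, x ≠ 0 → ∀ s : ℂ, s ≠ 0 → L (z, s • x) = s ^ k • L (z, x)) →
        DgP π F E (M * k) := by
  have sd : S1 ⊆ D1 := sphere_subset_closedBall
  obtain ⟨F, E, M, h1, h2, h3, h4, h5⟩ := srh hΩ hN hm hf hg mf mg (G := fun ζ => lin (A ζ) (G ζ))
    (D := D) (j := 0) (fun k => by simpa only [ptop_lin] using hA.clm_apply ((hG k).mono sd))
    (fun ζ h => (hC ζ (sd h)).lin (hA' ζ h).1) (fun ζ h => by rw [ptop_lin, (hA' ζ h).2.1])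
    (fun ζ h => by rw [ptop_lin, hq ζ (sd h), (hA' ζ h).2.2.1, zpow_zero, one_smul])
    (fun ζ h => by rw [ptop_lin]; exact (hA' ζ h).2.2.2.1)
    fun ζ h => by rw [ptop_lin]; exact (hA' ζ h).2.2.2.2
  refine ⟨F, E, M, h1, h2, h3, h4, fun K π hπ k L hL hk => ?_⟩
  have m1 : ∀ p ∈ (S1 ×ˢ ({0}ᶜ : Set (ℂ × ℂ))) ×ˢ I1,
      ((1 - p.2) • (1 : VV n →L[ℂ] VV n) + p.2 • A p.1.1) (hom (G p.1.1) D p.1.2) ∈ N :=
    fun p hp => by
      rw [← hom_lin]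
      exact ((hC _ (sd hp.1.1)).lin (norm_mix (hA' _ hp.1.1).1 hp.2)).hom_mem hN hm hp.1.2
  obtain ⟨Λ, l1, l2, l3⟩ := lift_hom (isCompact_sphere (0 : ℂ) 1) (Y := ({0}ᶜ : Set (ℂ × ℂ)))
    (by
      rw [Set.inter_eq_right.2 fun x hx => ne_zero_of_mem_sphere one_ne_zero ⟨x, hx⟩]
      exact isCompact_sphere _ _)
    (fun h => h rfl) (fun x hx s hs => smul_ne_zero hs hx)
    (φ := fun p => π (((1 - p.2) • (1 : VV n →L[ℂ] VV n) + p.2 • A p.1.1) (hom (G p.1.1) D p.1.2)))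
    (hπ.cont.comp ((ContinuousOn.add (by fun_prop) (continuousOn_snd.smul
      (hA.comp continuousOn_fst.fst fun p hp => hp.1.1))).clm_apply
      (continuousOn_hom (fun k => (hG k).comp continuousOn_fst.fst fun p hp => sd hp.1.1)
        continuousOn_fst.snd D)) m1)
    (fun p hp => hπ.r1 _ (m1 p hp))
    (fun ζ hζ x hx t ht s hs => by
      simp only [hom_smul, map_smul]
      exact hπ.smul _ (m1 ((ζ, x), t) ⟨⟨hζ, hx⟩, ht⟩) _ (pow_ne_zero _ hs))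
    (k := k) (L := L) (by simpa using Deg.lf_mono hL (Set.prod_mono sd subset_rfl))
    fun ζ hζ => hk ζ (sd hζ)
  have x1 : ((1, 0) : ℂ × ℂ) ≠ 0 := by simp
  have x2 : ((0, 1) : ℂ × ℂ) ≠ 0 := by simp
  have o1 : (1 : ℝ) ∈ I1 := ⟨zero_le_one, le_rfl⟩
  have e1 : ∀ z ∈ D1, hom (G z) D (1, 0) = ptop (G z) 0 := fun z hz => by
    rw [hom_one (hC z hz).deg, pev_zero]
  have e2 : ∀ z ∈ D1, hom (G z) D (0, 1) = q := fun z hz => by rw [hom_top (hC z hz).deg, hq z hz]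
  have := h5 K π hπ k 0 0 (fun p => Λ (p, 1)) (by
    simpa [hom_lin] using Deg.lf_comp l1
      (f := fun p => (p, (1 : ℝ))) (by fun_prop) fun p hp => ⟨hp, o1⟩)
    (fun ζ hζ x hx => l3 ζ hζ x hx 1 o1) ?_ ?_
  · simpa using this
  · have a1 : Lf (S1 ×ˢ I1) (fun p => π ((1 - p.2) • ptop (G p.1) 0 + p.2 • H (p.1, 1)))
        fun p => Λ ((p.1, 1, 0), p.2) := by
      obtain ⟨b1, b2⟩ := Deg.lf_comp l1 (f := fun p : ℂ × ℝ => ((p.1, (1, 0)), p.2)) (T := S1 ×ˢ I1)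
        (by fun_prop) fun p hp => ⟨⟨hp.1, x1⟩, hp.2⟩
      refine ⟨b1, fun p hp => ?_⟩
      simpa [e1 _ (sd hp.1), (hA' _ hp.1).2.1, H1 _ hp.1 1 o1] using b2 p hp
    have a2 := seg_bd hπ (b := fun z => H (z, 1)) (hG 0)
      (cH.comp (f := fun z : ℂ => (z, (1 : ℝ))) (by fun_prop) fun p hp => ⟨hp, o1⟩) s1 a1
      (L := fun z => L (z, 1, 0)) (by
        obtain ⟨b1, b2⟩ := Deg.lf_comp hL (f := fun z : ℂ => (z, (1, 0))) (T := D1) (by fun_prop)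
          fun z hz => ⟨hz, x1⟩
        exact ⟨b1, fun z hz => by simpa only [e1 z hz] using b2 z hz⟩)
      fun ζ hζ => (l2 (ζ, 1, 0) ⟨hζ, x1⟩).symm
    refine (BD.homotopy' (φ := fun p => π (H p)) (l := fun p => Λ ((p.1, 1, 0), 1))
      (hπ.cont.comp cH mH) (fun p hp => hπ.r1 _ (mH p hp)) ?_ a2).congr
      (fun z hz => by rw [H0 z hz]) fun _ _ => rfl
    obtain ⟨b1, b2⟩ := Deg.lf_comp a1 (f := fun p : ℂ × ℝ => (p.1, (1 : ℝ))) (T := S1 ×ˢ I1)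
      (by fun_prop) fun p hp => ⟨hp.1, o1⟩
    refine ⟨b1, fun p hp => ?_⟩
    have := b2 p hp
    dsimp only
    rw [show H p = H (p.1, 1) from (H1 _ hp.1 _ hp.2).trans (H1 _ hp.1 _ o1).symm]
    simpa using this
  · have a1 : Lf (S1 ×ˢ I1) (fun p => π ((1 - p.2) • q + p.2 • g p.1))
        fun p => Λ ((p.1⁻¹, 0, 1), p.2) := by
      obtain ⟨b1, b2⟩ := Deg.lf_comp l1 (f := fun p : ℂ × ℝ => ((p.1⁻¹, (0, 1)), p.2))
        (T := S1 ×ˢ I1) (((Deg.cont_inv.comp continuousOn_fst fun p hp => hp.1).prodMk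
          continuousOn_const).prodMk continuousOn_snd) fun p hp => ⟨⟨Deg.inv_S1 hp.1, x2⟩, hp.2⟩
      refine ⟨b1, fun p hp => ?_⟩
      simpa [e2 _ (sd (Deg.inv_S1 hp.1)), (hA' _ (Deg.inv_S1 hp.1)).2.2.1] using b2 p hp
    have c : ∀ z ∈ D1, (starRingEnd ℂ) z ∈ D1 := fun z hz => by simpa using hz
    refine seg_bd hπ continuousOn_const hg.continuousOn s2 a1
      (L := fun z => L ((starRingEnd ℂ) z, 0, 1)) ?_ fun ζ hζ => ?_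
    · obtain ⟨b1, b2⟩ := Deg.lf_comp hL (f := fun z : ℂ => ((starRingEnd ℂ) z, (0, 1))) (T := D1)
        (by fun_prop) fun z hz => ⟨c z hz, x2⟩
      exact ⟨b1, fun z hz => by simpa only [e2 _ (c z hz)] using b2 z hz⟩
    · rw [l2 (ζ⁻¹, 0, 1) ⟨Deg.inv_S1 hζ, x2⟩, Complex.inv_eq_conj (mem_sphere_zero_iff_norm.1 hζ)]

theorem family {Ω : Set (VV n × VV n)} (hΩ : Sat Ω) {V : Tup n} {D : ℕ} (hV : Cur Ω V D) {σ : ℂ}
    {q : VV n} (hσ : σ ≠ 0) (hq : ptop V D = σ • q) {c : ℂ → ℂ} {T : ℂ → VV n}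
    (hc : ContinuousOn c D1) (hT : ContinuousOn T D1) {δ : ℝ} (hδ : 2 * ((n + 1) * δ) ≤ 1)
    (h : ∀ z ∈ D1, Near δ (pev V (c z)) (T z)) :
    ∃ G : ℂ → Tup n, (∀ k, ContinuousOn (fun z => ptop (G z) k) D1) ∧
      (∀ z ∈ D1, Cur Ω (G z) D ∧ ptop (G z) D = q ∧
        ‖T z - ptop (G z) 0‖ ≤ 2 * ((n + 2) * δ) * ‖ptop (G z) 0‖ ∧
        ∃ a b : ℂ, a ≠ 0 ∧ ptop (G z) (D - 1) = a • ptop V (D - 1) + b • ptop V D) ∧
      ∀ (N : Set (VV n)) (K : ℕ) (π : VV n → VV K →L[ℂ] VV K), PF N π →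
        (∀ x, x ≠ 0 → hom V D x ∈ N) → ∀ k : ℤ, DgP π V D k → ∃ L : ℂ × ℂ × ℂ → VV K,
        Lf (D1 ×ˢ {0}ᶜ) (fun p => π (hom (G p.1) D p.2)) L ∧
        ∀ z ∈ D1, ∀ x, x ≠ 0 → ∀ s : ℂ, s ≠ 0 → L (z, s • x) = s ^ k • L (z, x) := by
  have c1 : ContinuousOn (fun z => Clo.ell (pev V (c z)) (T z)) D1 :=
    Clo.continuousOn_ell ((continuous_pev V).comp_continuousOn hc) hT fun z hz => (h z hz).ne
  have k0 := fun z hz => (near_ell (h z hz) hδ).1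
  obtain ⟨g, g1, g2⟩ := log_disc (c1.mul (continuousOn_const (c := σ)))
    fun z hz => mul_ne_zero (k0 z hz) hσ
  have c2 : ContinuousOn (fun z => Complex.exp (-g z / D)) D1 := (g1.neg.div_const _).cexp
  have D0 : (D : ℂ) ≠ 0 := Nat.cast_ne_zero.2 (by have := hV.pos; omega)
  refine ⟨fun z => lin (Clo.ell (pev V (c z)) (T z) • 1) (afc (c z) (Complex.exp (-g z / D)) V),
    fun k => ?_, fun z hz => ⟨(hV.afc hΩ _ (Complex.exp_ne_zero _)).smul hΩ (k0 z hz), ?_, ?_, ?_⟩,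
    fun N K π hπ m k ⟨L, l1, l2⟩ => ⟨fun p => L (p.2.1, c p.1 * p.2.1 +
      Complex.exp (-g p.1 / D) * p.2.2), ?_, ?_⟩⟩
  · simp only [ptop_lin, smul_apply, one_apply_eq_self]
    exact c1.smul (continuousOn_ptop_afc hc c2 V k)
  · have := g2 z hz
    simp only [Pi.mul_apply] at this
    rw [ptop_lin, ptop_afc_top _ _ hV.deg, hq, ← Complex.exp_nat_mul, mul_div_cancel₀ _ D0,
      Complex.exp_neg, this]
    simp only [smul_apply, one_apply_eq_self, smul_smul]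
    rw [mul_left_comm, inv_mul_cancel₀ (mul_ne_zero (k0 z hz) hσ), one_smul]
  · simpa [ptop_lin, ← pev_zero, pev_afc, pev_lin] using (near_ell (h z hz) hδ).2
  · dsimp only
    rw [ptop_lin, ptop_afc_sub _ _ hV.pos hV.deg]
    simp only [smul_apply, one_apply_eq_self, smul_smul, smul_add]
    exact ⟨_, _, mul_ne_zero (k0 z hz) (pow_ne_zero (D - 1) (Complex.exp_ne_zero (-g z / D))), rfl⟩
  · have x0 : ∀ p ∈ D1 ×ˢ ({0}ᶜ : Set (ℂ × ℂ)),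
        (p.2.1, c p.1 * p.2.1 + Complex.exp (-g p.1 / D) * p.2.2) ≠ 0 := fun p hp e => by
      rw [Prod.mk_eq_zero] at e
      exact hp.2 (Prod.ext e.1 (by simpa [e.1] using e.2))
    obtain ⟨b1, b2⟩ := Deg.lf_comp l1 (T := D1 ×ˢ ({0}ᶜ : Set (ℂ × ℂ)))
      (f := fun p : ℂ × ℂ × ℂ => (p.2.1, c p.1 * p.2.1 + Complex.exp (-g p.1 / D) * p.2.2))
      (continuousOn_snd.fst.prodMk (((hc.comp continuousOn_fst fun p hp => hp.1).mul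
        continuousOn_snd.fst).add ((c2.comp continuousOn_fst fun p hp => hp.1).mul
        continuousOn_snd.snd))) x0
    refine ⟨b1, fun p hp => ?_⟩
    have := b2 p hp
    dsimp only at this ⊢
    rwa [hom_lin, hom_afc _ _ hV.deg, smul_apply, one_apply_eq_self,
      hπ.smul _ (m _ (x0 p hp)) _ (k0 _ hp.1)]
  · intro z hz x hx s hs
    rw [← l2 _ (fun e => ?_) s hs]
    · exact congrArg L (Prod.ext rfl (by simp; ring))
    · rw [Set.mem_singleton_iff, Prod.mk_eq_zero] at e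
      exact hx (Prod.ext e.1 (by simpa [show x.1 = 0 from e.1] using e.2))

end Pt

end Pool.Agent.Lib.MP_879098_ag.Q2
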