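import Pool.Agent.Lib.MP_879098_ag.QDisc4
import Pool.Agent.Lib.MP_879098_ag.QAlign
import Pool.Agent.Lib.MP_879098_ag.QAttach
import Pool.Agent.Lib.MP_879098_ag.QPointA

/-! A rational curve through a generic point. -/

namespace Pool.Agent.Lib.MP_879098_ag.Q2

open Polynomial Filter Topology Metric Sm

namespace Pt

theorem exists_eps {p : ℂ → Prop} (h : ∀ᶠ ε in 𝓝[≠] (0 : ℂ), p ε) :
    ∃ r : ℝ, 0 < r ∧ ∀ ε : ℝ, 0 < ε → ε ≤ r → p ε := by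
  obtain ⟨r, r0, h⟩ := (nhdsWithin_hasBasis nhds_basis_closedBall _).eventually_iff.1 h
  exact ⟨r, r0, fun ε h1 h2 => h ⟨by simpa [abs_of_pos h1] using h2,
    Complex.ofReal_ne_zero.2 h1.ne'⟩⟩

theorem sum_cl {ι : Type} [Fintype ι] [DecidableEq ι] (i₀ : ι) (Z : Finset ℂ) (e : ℂ → ι) (M : ℕ)
    (k : ι → ℤ) : ∑ i, ((M * ((if i₀ = i then 1 else 0) + ∑ c ∈ Z, if e c = i then 1 else 0) : ℕ) :
      ℤ) * k i = M * (k i₀ + ∑ c ∈ Z, k (e c)) := by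
  push_cast
  simp only [mul_assoc, ← Finset.mul_sum, add_mul, Finset.sum_add_distrib, Finset.sum_mul]
  rw [Finset.sum_comm]
  simp

/-- the smoothed star passes near the pushed disc -/
theorem centre {n : ℕ} {Z : Finset ℂ} (h0 : (0 : ℂ) ∈ Z) {P : Tup n} {P' : ℂ → Tup n} {d : ℕ}
    {d' : ℂ → ℕ} (hP : ∀ i, (P i).natDegree ≤ d) (hP' : ∀ c ∈ Z, ∀ i, (P' c i).natDegree ≤ d' c)
    (hn : ∀ c ∈ Z, pev P c = pev (P' c) 0) {δ ρ : ℝ} (s : Sta.Sml δ ρ Z P P') (hδ : δ ≤ 1 / 8)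
    (r : 0 < ρ) {T : ℂ → VV n} {w : ℂ → ℂ} {A B : ℂ → ℂ → ℂ} (hw : ContinuousOn w D1)
    (hA : ∀ c ∈ Z, ContinuousOn (A c) D1 ∧ ContinuousOn (B c) D1 ∧
      ∀ z ∈ D1, Complex.exp (A c z) = w z - c)
    (H : ∀ z ∈ D1, ((∀ c ∈ Z, ‖w z - c‖ ≤ ρ → ‖Complex.exp (B c z)‖ ≤ ρ) →
      Near δ (pev P (w z)) (T z)) ∧ ∀ c ∈ Z, ‖w z - c‖ ≤ ρ → ρ / 2 ≤ ‖Complex.exp (B c z)‖ →
        ‖w z - c‖ ≤ ρ / 2 ∧ Near δ (pev (P' c) (Complex.exp (B c z))) (T z)) :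
    ∃ ε₁ : ℝ, 0 < ε₁ ∧ ∀ ε : ℝ, 0 < ε → ε ≤ ε₁ → ∃ c : ℂ → ℂ, ContinuousOn c D1 ∧ ∀ z ∈ D1,
      Near (10 * δ) (pev (rf (d + ∑ c ∈ Z, d' c) (star Z P P' d' ε)) (c z)) (T z) := by
  obtain ⟨ε₁, pε₁, hε₁⟩ := Sta.exists_pos_forall Z
    (fun c x => ∀ ζ ∈ D1, x ≤ ρ * ‖Complex.exp (A c ζ)‖)
    (fun _ _ _ _ h1 h2 ζ hζ => h1.trans (h2 ζ hζ)) fun c hc => by
      obtain ⟨ζ, -, hζ⟩ := (isCompact_closedBall (0 : ℂ) 1).exists_isMinOn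
        (nonempty_closedBall.2 zero_le_one) (hA c hc).1.cexp.norm
      exact ⟨_, mul_pos r (norm_pos_iff.2 (Complex.exp_ne_zero (A c ζ))),
        fun x hx => mul_le_mul_of_nonneg_left (hζ hx) r.le⟩
  refine ⟨min (ρ ^ 2 / 2) ε₁, by positivity, fun ε pε hε => ?_⟩
  have e₁ : 2 * ε ≤ ρ ^ 2 := by linarith [min_le_left (ρ ^ 2 / 2) ε₁]
  have e₂ : ∀ c ∈ Z, ∀ ζ ∈ D1, ε ≤ ρ * ‖Complex.exp (A c ζ)‖ := fun c hc ζ hζ =>
    (hε.trans (min_le_right _ _)).trans (hε₁ c hc ζ hζ)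
  have e₃ : ‖(ε : ℂ)‖ ≤ ρ ^ 2 := by
    rw [Complex.norm_real, Real.norm_of_nonneg pε.le]
    linarith
  have e₄ : ∀ ζ ∈ D1, ∀ c ∈ Z, w ζ ≠ c ∧ ‖ε / (w ζ - c)‖ ≤ ρ := fun ζ hζ c hc => by
    rw [← sub_ne_zero, ← (hA c hc).2.2 ζ hζ, norm_div, Complex.norm_real,
      Real.norm_of_nonneg pε.le, div_le_iff₀ (norm_pos_iff.2 (Complex.exp_ne_zero _))]
    exact ⟨Complex.exp_ne_zero _, e₂ c hc ζ hζ⟩
  obtain ⟨c, hc, Hc⟩ := Sta.exists_cc r pε s.1 hw hA e₁ e₂ fun ζ hζ c hc g1 g2 =>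
    ((H ζ hζ).2 c hc g1 g2).1
  have hW := star_smo hP hP' hn ε
  have c0 : ∀ z ∈ D1, c z ≠ 0 := fun z hz => by
    rcases Hc z hz with ⟨g, -⟩ | ⟨x, hx, -, -, g1, g2, -⟩
    · rw [g]; exact (e₄ z hz 0 h0).1
    · intro e
      rw [e] at g1 g2
      linarith [s.1 0 h0 x hx g1]
  refine ⟨fun z => (c z)⁻¹, hc.inv₀ c0, fun z hz => ?_⟩
  rw [pev_rf hW.deg (inv_ne_zero (c0 z hz)), inv_inv]
  exact (hW.near_cc s hn hδ r e₃ (e₄ z hz) (Hc z hz) (H z hz).1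
    fun c hc g1 g2 => ((H z hz).2 c hc g1 g2).2).smul_left (pow_ne_zero _ (inv_ne_zero (c0 z hz)))

end Pt

open Pt in
theorem point {k : ℕ} (hk : 2 ≤ k) {ι : Type} [Fintype ι] {R : ι → Tup 63} {d : ι → ℕ} {i₀ i₁ : ι}
    {e : ℂ → ι} (hG : Geo k R d i₀ i₁ e) {Ω : Set (VV 63 × VV 63)} (hΩ : Sat Ω)
    (hY : TF (YY k) ⊆ Ω) {N : Set (VV 63)} (hN : OC N) (hm : ∀ p ∈ Ω, p.1 ∈ N)
    (hc : cone (YY k) ⊆ N) {l₀ m₀ l₀' m₀' : ℂ} (h : Gen k l₀ m₀ l₀' m₀') :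
    ∃ F D m y, Cur Ω F D ∧ pev F 0 = pev (R i₁) 0 ∧
      (∃ ρ : ℂ, ρ ≠ 0 ∧ pev (der F) 0 = ρ • pev (der (R i₁)) 0) ∧
      FlagOf F D (gpt l₀ m₀ l₀' m₀', y) ∧ Cl N R d F D m := by
  classical
  have k0 : 0 < k := by omega
  have hs := isSmooth_YY k hk
  have hz := isZClosed_YY k
  have hT := hG.tree
  have z0 : (0 : ℂ) ∈ ZZ k := (mem_ZZ k0).2 (.inl rfl)
  have sd : S1 ⊆ D1 := sphere_subset_closedBall
  have t0 : ∀ i w, IsTangent (YY k) (pev (R i) w) (pev (der (R i)) w) := fun i w =>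
    (hT.mem i _ (.inl ⟨w, rfl⟩)).1
  have t1 : IsTangent (YY k) qq (ptop (R (e 0)) (d (e 0) - 1)) :=
    hG.top ▸ (hT.mem (e 0) _ (.inr rfl)).1
  have hn : ∀ c ∈ ZZ k, pev (R i₀) c = pev (R (e c)) 0 := fun c hc => by
    rw [hG.pcen, hG.pleaf c hc, leaf_zero]
  obtain ⟨η₁, e1, e2⟩ := tf_shr hs hz hΩ hY
  obtain ⟨r₀, r0, g0⟩ := nhds_basis_closedBall.eventually_iff.1
    ((show ContinuousAt (fun z => (qq, ptop (R (e 0)) (d (e 0) - 1), z)) (pev (der (R i₁)) 0) by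
      fun_prop).eventually_mem ((isOpen_gt hΩ).mem_nhds
        (gt_of_tan hs hY t1 (hG.far ▸ t0 i₁ 0) hG.nodeF)))
  have hO := Att.sat_ball hΩ (pev (der (R i₁)) 0) r0.le
  obtain ⟨η₂, e3, e4⟩ := exists_shr hO.isOpen (isCompact_singleton
    (x := (qq, ptop (R (e 0)) (d (e 0) - 1)))) (Set.singleton_subset_iff.2 fun z hz => g0 hz)
  obtain ⟨C, hD⟩ := disc4 k0 h
  obtain ⟨c, c0, hsep⟩ := sep hk C
  obtain ⟨Ω₁, δ, s1, s2, d0, hal⟩ := align hs hz (lt_min e1 e3) c0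
  set η := min η₁ η₂
  have η0 : 0 ≤ η := (lt_min e1 e3).le
  have hΩ₂ := (hΩ.shr η0).inter s1
  have hY₂ : TF (YY k) ⊆ shr η Ω ∩ Ω₁ :=
    Set.subset_inter (e2.trans (shr_mono (min_le_left _ _) subset_rfl)) s2
  have hm₂ : ∀ p ∈ shr η Ω ∩ Ω₁, p.1 ∈ N := fun p m => hm p (shr_subset η0 m.1)
  obtain ⟨δ₁, d1, hmar⟩ := cone_margin hz hN hc
  obtain ⟨δ₂, d2, d3, d4, d5⟩ : ∃ x : ℝ, 0 < x ∧ x ≤ δ ∧ 2 * x ≤ δ₁ ∧ x ≤ 1 / 2 :=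
    ⟨min δ (min (δ₁ / 2) (1 / 2)), by positivity, min_le_left _ _,
      by linarith [(min_le_right δ _).trans (min_le_left (δ₁ / 2) (1 / 2))],
      (min_le_right _ _).trans (min_le_right _ _)⟩
  obtain ⟨ρ₁, r1, hD⟩ := hD (δ₂ / 1300) (by positivity)
  have cu := hT.cur hY₂
  obtain ⟨ρ₂, r2, hS⟩ := Sta.exists_sml (Z := ZZ k) (P' := fun c => R (e c)) (d' := fun c => d (e c))
    (hT.deg i₀) (fun c _ => hT.deg _) (fun w => hΩ₂.ne ((cu _).mem w))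
    (fun c _ w => hΩ₂.ne ((cu _).mem w)) (hΩ₂.ne (cu _).top) (fun c _ => hΩ₂.ne (cu _).top)
    (show 0 < δ₂ / 1300 by positivity)
  obtain ⟨f, m, H, w, A, B, f1, f2, f3, f4, f5, H1, H2, H3, H4, w1, w2, w3⟩ :=
    hD (min ρ₁ ρ₂) (lt_min r1 r2) (min_le_left _ _)
  obtain ⟨ε₁, p1, hc1⟩ := centre z0 (d' := fun c => d (e c)) (hT.deg i₀) (fun c _ => hT.deg _) hn
    (hS.mono (min_le_right ρ₁ ρ₂)) (by linarith) (lt_min r1 r2) (T := fun z => H (z, 1)) w1 w2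
    fun z hz => ⟨fun g => by rw [hG.pcen]; exact (w3 z hz).1 g,
      fun c hc g1 g2 => by rw [hG.pleaf c hc]; exact (w3 z hz).2 c hc g1 g2⟩
  obtain ⟨ε₂, p2, hc2⟩ := exists_eps ((star_cur hΩ₂ (cu i₀) (fun c _ => cu (e c)) hn fun c hc =>
    gt_of_tan hs hY₂ (t0 _ _) (hn c hc ▸ t0 _ _) (by rw [hG.pcen]; exact hG.node c hc)).and
    (star_node (hO.shr η0) (d' := fun c => d (e c)) (hT.deg i₀) (fun c _ => hT.deg _) hn z0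
      (hT.pos _) (hG.top ▸ shr_mono (min_le_right _ _) subset_rfl (e4 rfl))))
  have p3 := lt_min p1 p2
  obtain ⟨cc, c1, c2⟩ := hc1 _ p3 (min_le_left _ _)
  obtain ⟨hW, hW'⟩ := hc2 _ p3 (min_le_right _ _)
  have dW := fun K (π : VV 63 → VV K →L[ℂ] VV K) (hπ : PF N π) (j : ι → ℤ)
    (hj : ∀ i, DgP π (R i) (d i) (j i)) => (star_dg hN hπ (hT.deg i₀) (fun c _ => hT.deg (e c)) hn
      (fun x => (cu _).hom_mem hN hm₂) (fun c _ x => (cu _).hom_mem hN hm₂) p3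
      (fun ε h1 h2 x => (hc2 ε h1 (h2.trans (min_le_right _ _))).1.hom_mem hN hm₂) (hj i₀)
      fun c _ => hj (e c)).rf
  obtain ⟨σ, σ0, hσ⟩ : ∃ σ : ℂ, σ ≠ 0 ∧ pev (star (ZZ k) (R i₀) (fun c => R (e c))
      (fun c => d (e c)) (min ε₁ ε₂ : ℝ)) 0 = σ • qq := by
    obtain ⟨s, s0, g⟩ := (star_smo (d' := fun c => d (e c)) (hT.deg i₀) (fun c _ => hT.deg _) hn
      (min ε₁ ε₂ : ℝ)).node 0 z0
    exact ⟨_, mul_ne_zero s0 (pow_ne_zero (d (e 0)) (Complex.ofReal_ne_zero.2 p3.ne')), by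
      rw [g, zero_pow (hT.pos _ |> Nat.ne_of_gt), zero_smul, add_zero, smul_smul, hG.top]⟩
  generalize star (ZZ k) (R i₀) (fun c => R (e c)) (fun c => d (e c)) (min ε₁ ε₂ : ℝ) = W
    at c2 hW hW' dW hσ
  generalize d i₀ + ∑ c ∈ ZZ k, d (e c) = D at c2 hW dW
  have o1 : (1 : ℝ) ∈ I1 := ⟨zero_le_one, le_rfl⟩
  have q1 : ptop (rf D W) D = pev W 0 := by rw [ptop_rf _ le_rfl, Nat.sub_self, pev_zero]
  have q2 : ptop (rf D W) (D - 1) = pev (der W) 0 := by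
    rw [ptop_rf _ (Nat.sub_le _ _), Nat.sub_sub_self hW.pos, pev_der_zero]
  obtain ⟨G, G1, G2, G3⟩ := family hΩ₂ (hW.rf hΩ₂) σ0 (q1.trans hσ) c1
    (H1.comp (f := fun z : ℂ => (z, (1 : ℝ))) (by fun_prop) fun p hp => ⟨hp, o1⟩)
    (by push_cast; linarith) c2
  have G4 : ∀ z ∈ D1, ‖H (z, 1) - ptop (G z) 0‖ ≤ δ₂ * ‖ptop (G z) 0‖ := fun z hz =>
    (G2 z hz).2.2.1.trans_eq (by push_cast; ring)
  have a1 := continuous_pev (R i₁)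
  have a2 := continuous_pev (der (R i₁))
  obtain ⟨r, r3, g1⟩ := nhds_basis_closedBall.eventually_iff.1
    ((a1.continuousAt.eventually_mem (closedBall_mem_nhds (pev (R i₁) 0)
      (mul_pos d2 (norm_pos_iff.2 qq_ne)))).and
      (a2.continuousAt.eventually_mem (closedBall_mem_nhds (pev (der (R i₁)) 0) r0)))
  have r4 : (r : ℂ) ≠ 0 := Complex.ofReal_ne_zero.2 r3.ne'
  have g2 : ∀ z ∈ D1, ‖pev (afc 0 r (R i₁)) z - qq‖ ≤ δ₂ * ‖qq‖ ∧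
      pev (der (R i₁)) (0 + r * z) ∈ closedBall (pev (der (R i₁)) 0) r₀ := fun z hz => by
    have := g1 (x := 0 + r * z) (by
      rw [mem_closedBall_zero_iff, zero_add, norm_mul, Complex.norm_real, Real.norm_of_nonneg r3.le]
      exact mul_le_of_le_one_right r3.le (mem_closedBall_zero_iff.1 hz))
    rw [pev_afc, ← mem_closedBall_iff_norm]
    rwa [hG.far] at this
  obtain ⟨M, M1, M2⟩ := hal (fun ζ => ptop (G ζ) 0) (fun ζ => ptop (G ζ) 1) f (deriv f) m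
    (fun ζ => pev (afc 0 r (R i₁)) ζ⁻¹) qq qq_ne ((G1 0).mono sd) ((G1 1).mono sd)
    (f1.continuousOn.mono sd) (f1.deriv.continuousOn.mono sd) f4
    ((continuous_pev _).comp_continuousOn Deg.cont_inv) fun ζ hζ =>
      ⟨by rw [← pev_zero, ← pev_der_zero]; exact ((G2 ζ (sd hζ)).1.mem 0).2,
        by rw [← H4 ζ hζ 1 o1]; exact (G4 ζ (sd hζ)).trans (by gcongr),
        (f3 ζ (sd hζ)).1, (f5 ζ hζ).1, (f5 ζ hζ).2.1,
        (g2 _ (sd (Deg.inv_S1 hζ))).1.trans (by gcongr), hsep _ (f5 ζ hζ).2.2⟩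
  obtain ⟨F, E, n, F1, F2, F3, F4, F5⟩ := Pt.close hΩ hN hm (η := η) (g := pev (afc 0 r (R i₁)))
    f1 (fun z _ => analyticAt_pev _ z) (fun z hz => hY (f3 z hz))
    (fun z _ => by rw [deriv_pev]; exact ((hT.cur hY i₁).afc hΩ 0 r4).mem z) G1
    (fun z hz => (G2 z hz).1.mono Set.inter_subset_left) (fun z hz => (G2 z hz).2.1) M1
    (fun ζ hζ => ⟨(M2 ζ hζ).1, (M2 ζ hζ).2.1, (M2 ζ hζ).2.2.2.2,
      gt_of_tan hs hY (f3 ζ (sd hζ)).1 (M2 ζ hζ).2.2.1 (M2 ζ hζ).2.2.2.1, by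
        obtain ⟨a, b, a0, g⟩ := (G2 ζ (sd hζ)).2.2.2
        have := GT.sat hΩ (hW' _ (M2 ζ hζ).1 _ (g2 _ (sd (Deg.inv_S1 hζ))).2) b 0
          (inv_ne_zero σ0) a0 r4
        rw [deriv_pev, pev_der_afc, g, q1, q2, ← (M2 ζ hζ).2.2.2.2]
        refine GT.swap ?_
        simpa only [fl, hσ, map_smul, map_add, inv_smul_smul₀ σ0, zero_smul, add_zero] using this⟩)
    H1 (fun p hp => hc (H2 p hp)) H3 H4
    (fun z hz s hs => hmar _ (H2 (z, 1) ⟨hz, o1⟩) _ ((norm_seg _ _ hs).2.trans (by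
      have b1 := G4 z hz
      have b2 := norm_le_norm_sub_add (ptop (G z) 0) (H (z, 1))
      rw [norm_sub_rev] at b2
      have b3 := mul_le_mul_of_nonneg_right d5 (norm_nonneg (ptop (G z) 0))
      have b4 := mul_le_mul_of_nonneg_left (show ‖ptop (G z) 0‖ ≤ 2 * ‖H (z, 1)‖ by linarith) d2.le
      have b5 := mul_le_mul_of_nonneg_right d4 (norm_nonneg (H (z, 1)))
      linarith)))
    fun z hz s hs => hmar _ (tan_mem t1) _ ((norm_seg _ _ hs).1.trans ((g2 z hz).1.trans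
      (mul_le_mul_of_nonneg_right (by linarith) (norm_nonneg _))))
  refine ⟨rf E F, E, fun i => n * ((if i₀ = i then 1 else 0) + ∑ c ∈ ZZ k, if e c = i then 1 else 0),
    ptop (rf E F) (E - 1), F1.rf hΩ, ?_, ⟨r, r4, ?_⟩, .inr ?_, fun K π hπ j hj => ?_⟩
  · rw [pev_zero, ptop_rf _ (Nat.zero_le _), Nat.sub_zero, F3, pev_afc, mul_zero, add_zero]
  · rw [pev_der_zero, ptop_rf _ F1.pos, F4, deriv_pev, pev_der_afc, mul_zero, add_zero]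
  · rw [ptop_rf _ le_rfl, Nat.sub_self, ← pev_zero, F2, f2]
  · obtain ⟨L, l1, l2⟩ := G3 N K π hπ (fun x => (hW.rf hΩ₂).hom_mem hN hm₂) _ (dW K π hπ j hj)
    rw [sum_cl]
    exact (F5 K π hπ _ L l1 l2).rf

end Pool.Agent.Lib.MP_879098_ag.Q2
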