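import Pool.Agent.Lib.MP_879098_ag.SBase
import Pool.Agent.Lib.MP_879098_ag.Ahlfors

/-! The Ahlfors-Schwarz lemma for pairs of maps to the line with the ramification condition. -/

namespace Pool.Agent.Lib.MP_879098_ag.Sm

open Filter Topology Polynomial Metric

namespace Ah2

open Ahl (Lap lap_log lap_one_add analyticAt_log_div bdd_logDeriv one_le_pow_near)

/-- `|x| ^ (2 / 9)` -/
noncomputable def A (x : ℂ) : ℝ := ‖x‖ ^ (2 / 9 : ℝ)

theorem A_nonneg (x : ℂ) : 0 ≤ A x := Real.rpow_nonneg (norm_nonneg _) _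

theorem A_pos {x : ℂ} (h : x ≠ 0) : 0 < A x := Real.rpow_pos_of_pos (norm_pos_iff.2 h) _

theorem A_zero : A 0 = 0 := by simp [A]

theorem A_one : A 1 = 1 := by simp [A]

theorem A_neg (x : ℂ) : A (-x) = A x := by simp [A]

theorem A_mul (x y : ℂ) : A (x * y) = A x * A y := by
  rw [A, norm_mul, Real.mul_rpow (norm_nonneg _) (norm_nonneg _)]
  rfl

theorem A_inv (x : ℂ) : A x⁻¹ = (A x)⁻¹ := by
  rw [A, norm_inv, Real.inv_rpow (norm_nonneg _)]
  rfl

theorem A_npow (x : ℂ) (n : ℕ) : A (x ^ n) = A x ^ n := by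
  induction n with
  | zero => simp [A]
  | succ k ih => rw [pow_succ, A_mul, ih, pow_succ]

theorem A_pow (x : ℂ) : A x ^ 9 = ‖x‖ ^ 2 := by
  rw [A, ← Real.rpow_natCast, ← Real.rpow_mul (norm_nonneg _), ← Real.rpow_natCast]
  norm_num

theorem norm_eq (x : ℂ) : ‖x‖ = A x ^ 4 * √(A x) := by
  have h := A_nonneg x
  refine (pow_left_inj₀ (norm_nonneg _) (by positivity) two_ne_zero).1 ?_
  rw [← A_pow, mul_pow, Real.sq_sqrt h]
  ring

theorem A_add (x y : ℂ) : A (x + y) ≤ A x + A y :=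
  (Real.rpow_le_rpow (norm_nonneg _) (norm_add_le x y) (by norm_num)).trans
    (Real.rpow_add_le_add_rpow (norm_nonneg _) (norm_nonneg _) (by norm_num) (by norm_num))

theorem continuous_A : Continuous A := continuous_norm.rpow_const fun _ => Or.inr (by norm_num)

theorem log_A {x : ℂ} (h : x ≠ 0) : Real.log (A x) = 2 / 9 * Real.log ‖x‖ :=
  Real.log_rpow (norm_pos_iff.2 h) _

theorem q_le (u : ℂ) : A (u - 1) ≤ 1 + A u := by
  have := A_add (-1) u
  rwa [A_neg, A_one, neg_add_eq_sub] at this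

theorem one_le_add (u : ℂ) : 1 ≤ A u + A (u - 1) := by
  have := A_add u (-(u - 1))
  rwa [A_neg, show u + -(u - 1) = 1 by ring, A_one] at this

theorem lap_A {H : ℂ → ℂ} {z : ℂ} (hH : AnalyticAt ℂ H z) (h0 : H z ≠ 0) :
    Lap (fun w => Real.log (1 + A (H w))) z
      (‖deriv H z / H z‖ ^ 2 / 81 * (A (H z) / (1 + A (H z)) ^ 2)) := by
  have hL := analyticAt_log_div hH h0
  have hn : 0 < ‖H z‖ := norm_pos_iff.2 h0
  let P : ℂ → ℂ := fun w =>
    (‖H z‖ ^ (1 / 9 : ℝ) : ℝ) * Complex.exp ((1 / 9 : ℝ) * Complex.log (H w / H z))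
  have hP : AnalyticAt ℂ P z := analyticAt_const.mul (analyticAt_const.mul hL).cexp
  have h1 : ∀ w, H w ≠ 0 → ‖P w‖ ^ 2 = A (H w) := by
    intro w hw
    have hw' : 0 < ‖H w‖ := norm_pos_iff.2 hw
    simp only [P, A, norm_mul, Complex.norm_exp, Complex.re_ofReal_mul, Complex.log_re,
      Complex.norm_real, norm_div]
    rw [Real.norm_of_nonneg (by positivity), mul_comm (1 / 9 : ℝ),
      ← Real.rpow_def_of_pos (by positivity), ← Real.mul_rpow hn.le (by positivity),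
      mul_div_cancel₀ _ hn.ne', ← Real.rpow_natCast, ← Real.rpow_mul hw'.le]
    norm_num
  have h2 : HasDerivAt P (P z * ((1 / 9 : ℝ) * (deriv H z / H z))) z := by
    have h3 : HasDerivAt (fun w => Complex.log (H w / H z)) (deriv H z / H z) z := by
      convert (hH.differentiableAt.hasDerivAt.div_const (H z)).clog
        (by rw [div_self h0]; exact Complex.one_mem_slitPlane) using 1
      rw [div_self h0, div_one]
    refine (((h3.const_mul ((1 / 9 : ℝ) : ℂ)).cexp).const_mul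
      ((‖H z‖ ^ (1 / 9 : ℝ) : ℝ) : ℂ)).congr_deriv ?_
    simp only [P]
    ring
  have h3 := lap_one_add hP 1 (by positivity)
  rw [h2.deriv, norm_mul, mul_pow, h1 z h0, norm_mul, Complex.norm_real] at h3
  convert h3.congr (Φ := fun w => Real.log (1 + A (H w))) ?_ using 1
  · rw [Real.norm_of_nonneg (by norm_num)]
    ring
  · filter_upwards [hH.continuousAt.eventually_ne h0] with w hw
    rw [h1 w hw, one_mul]

theorem br_upper {p q : ℝ} (hp : 0 ≤ p) (hq : 0 < q) (h : q ≤ 1 + p) :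
    1 / (1 + p) ^ 2 ≤ (1 + p) * (1 + q) / q ^ 4 := by
  rw [div_le_div_iff₀ (by positivity) (by positivity)]
  calc 1 * q ^ 4 = q ^ 3 * q := by ring
    _ ≤ (1 + p) ^ 3 * (1 + q) := by gcongr; linarith
    _ = _ := by ring

theorem br_lower {p q : ℝ} (hp : 0 ≤ p) (hq : 0 < q) (h1 : 1 ≤ p + q) :
    (1 + p) * (1 + q) / q ^ 4 / 81 ≤ 1 / (1 + p) ^ 2 + p ^ 8 / (q ^ 8 * (1 + q) ^ 2) := by
  rcases le_total p q with h | h
  · refine le_trans ?_ (le_add_of_nonneg_right (by positivity))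
    rw [div_div, div_le_div_iff₀ (by positivity) (by positivity)]
    calc (1 + p) * (1 + q) * (1 + p) ^ 2 = (1 + p) ^ 3 * (1 + q) := by ring
      _ ≤ (3 * q) ^ 3 * (3 * q) := by gcongr <;> linarith
      _ = _ := by ring
  · refine le_trans ?_ (le_add_of_nonneg_left (by positivity))
    rw [div_div, div_le_div_iff₀ (by positivity) (by positivity)]
    calc (1 + p) * (1 + q) * (q ^ 8 * (1 + q) ^ 2)
        = q ^ 4 * ((1 + p) * (1 + q) ^ 3 * q ^ 4) := by ring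
      _ ≤ q ^ 4 * ((3 * p) * (3 * p) ^ 3 * p ^ 4) := by gcongr <;> linarith
      _ = _ := by ring

variable (m : ℕ)

/-- the density of the cone metric -/
noncomputable def W (s : ℂ) : ℝ :=
  A s ^ (m - 9) * ((1 + A (s ^ m)) * (1 + A (s ^ m - 1)) / A (s ^ m - 1) ^ 4)

/-- the pinching factor -/
noncomputable def Zf (s : ℂ) : ℝ := ‖s‖ / (1 + A (s ^ m)) ^ (9 / m : ℝ)

theorem one_add_pos (x : ℂ) : 0 < 1 + A x := add_pos_of_pos_of_nonneg one_pos (A_nonneg _)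

theorem W_nonneg (s : ℂ) : 0 ≤ W m s := by
  have h1 := A_nonneg s
  have h2 := A_nonneg (s ^ m)
  have h3 := A_nonneg (s ^ m - 1)
  rw [W]
  positivity

theorem W_pos {s : ℂ} (h0 : s ≠ 0) (h1 : s ^ m - 1 ≠ 0) : 0 < W m s := by
  have h1 := A_pos h0
  have h2 := A_nonneg (s ^ m)
  have h3 := A_pos ‹s ^ m - 1 ≠ 0›
  rw [W]
  positivity

theorem Zf_nonneg (s : ℂ) : 0 ≤ Zf m s :=
  div_nonneg (norm_nonneg _) (Real.rpow_nonneg (one_add_pos _).le _)

theorem Zf_pos {s : ℂ} (h0 : s ≠ 0) : 0 < Zf m s :=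
  div_pos (norm_pos_iff.2 h0) (Real.rpow_pos_of_pos (one_add_pos _) _)

theorem Zf_zero : Zf m 0 = 0 := by simp [Zf]

theorem continuous_p : Continuous fun s : ℂ => A (s ^ m) := continuous_A.comp (continuous_pow m)

theorem continuous_q : Continuous fun s : ℂ => A (s ^ m - 1) :=
  continuous_A.comp ((continuous_pow m).sub continuous_const)

theorem continuous_Zf : Continuous (Zf m) :=
  continuous_norm.div ((continuous_const.add (continuous_p m)).rpow_const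
    fun _ => Or.inl (one_add_pos _).ne') fun _ => (Real.rpow_pos_of_pos (one_add_pos _) _).ne'

theorem continuousAt_W {s : ℂ} (h : s ^ m - 1 ≠ 0) : ContinuousAt (W m) s :=
  (continuous_A.pow _).continuousAt.mul (((continuous_const.add (continuous_p m)).mul
    (continuous_const.add (continuous_q m))).continuousAt.div
      ((continuous_q m).pow 4).continuousAt (pow_pos (A_pos h) 4).ne')

theorem Zf_le (s : ℂ) : Zf m s ≤ ‖s‖ :=
  div_le_self (norm_nonneg _) (Real.one_le_rpow (le_add_of_nonneg_right (A_nonneg _))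
    (by positivity))

variable {m}

theorem Zf_le_inv (hm : 0 < m) (s : ℂ) : Zf m s ≤ ‖s⁻¹‖ := by
  by_cases h0 : s = 0
  · simp [h0, Zf_zero]
  have h1 := norm_pos_iff.2 h0
  have hm' : (m : ℝ) ≠ 0 := by exact_mod_cast hm.ne'
  have h2 : ‖s‖ ^ 2 ≤ (1 + A (s ^ m)) ^ (9 / m : ℝ) := by
    refine le_trans (le_of_eq ?_) (Real.rpow_le_rpow (A_nonneg _)
      (le_add_of_nonneg_left zero_le_one) (by positivity))
    rw [A_npow, ← Real.rpow_natCast (A s), ← Real.rpow_mul (A_nonneg s), ← A_pow,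
      ← Real.rpow_natCast (A s)]
    congr 1
    push_cast
    field_simp
  rw [Zf, norm_inv]
  calc _ ≤ ‖s‖ / ‖s‖ ^ 2 := by gcongr
    _ = _ := by field_simp

theorem Zf_le_one (hm : 0 < m) (s : ℂ) : Zf m s ≤ 1 := by
  rcases le_total ‖s‖ 1 with h | h
  · exact (Zf_le m s).trans h
  · refine (Zf_le_inv hm s).trans ?_
    rw [norm_inv]
    exact inv_le_one_of_one_le₀ h

theorem W_zero (hm : 10 ≤ m) : W m 0 = 0 := by
  rw [W, A_zero, zero_pow (by omega), zero_mul]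

theorem W_root {s : ℂ} (h : s ^ m - 1 = 0) : W m s = 0 := by
  simp [W, h, A_zero]

theorem W_inv (hm : 10 ≤ m) (g g' : ℂ) : ‖-g' / g ^ 2‖ ^ 2 * W m g⁻¹ = ‖g'‖ ^ 2 *
    (A g ^ (m - 9) * ((1 + A (g ^ m)) * (A (g ^ m) + A (g ^ m - 1)) / A (g ^ m - 1) ^ 4)) := by
  by_cases h0 : g = 0
  · rw [h0, inv_zero, W_zero hm, A_zero, zero_pow (by omega : m - 9 ≠ 0)]
    simp
  have hu : g ^ m ≠ 0 := pow_ne_zero _ h0
  have h2 : g⁻¹ ^ m - 1 = -((g ^ m - 1) * (g ^ m)⁻¹) := by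
    rw [inv_pow]
    field_simp
    ring
  by_cases h1 : g ^ m - 1 = 0
  · rw [W_root (by rw [h2, h1, zero_mul, neg_zero]), h1, A_zero]
    simp
  have h3 := A_pos h0
  have h4 := A_pos h1
  obtain ⟨k, rfl⟩ : ∃ k, m = k + 9 := ⟨m - 9, by omega⟩
  rw [W, h2, A_neg, A_mul, inv_pow g, A_inv, A_inv, A_npow, norm_div, norm_neg, norm_pow, div_pow,
    ← A_pow g, Nat.add_sub_cancel, inv_pow (A g)]
  field_simp
  ring

theorem hasDerivAt_pow' {S : ℂ → ℂ} {z : ℂ} (hS : AnalyticAt ℂ S z) (h1 : S z ≠ 0) :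
    HasDerivAt (fun w => S w ^ m) (m * S z ^ m * (deriv S z / S z)) z := by
  refine (hS.differentiableAt.hasDerivAt.fun_pow m).congr_deriv ?_
  cases m with
  | zero => simp
  | succ k =>
    rw [Nat.add_sub_cancel]
    field_simp
    ring

theorem lap_p (hm : 10 ≤ m) {S : ℂ → ℂ} {z : ℂ} (hS : AnalyticAt ℂ S z) (h1 : S z ≠ 0) :
    Lap (fun w => Real.log (1 + A (S w ^ m))) z ((m : ℝ) ^ 2 / 81 * (‖deriv S z‖ ^ 2 *
      (A (S z) ^ (m - 9) * (1 / (1 + A (S z ^ m)) ^ 2)))) := by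
  have h3 : S z ^ m ≠ 0 := pow_ne_zero _ h1
  have h4 := lap_A (H := fun w => S w ^ m) (hS.pow m) h3
  have e1 : m * S z ^ m * (deriv S z / S z) / S z ^ m = m * (deriv S z / S z) := by
    field_simp
  rw [(hasDerivAt_pow' hS h1).deriv, e1, norm_mul, norm_div, mul_pow, div_pow, ← A_pow (S z),
    Complex.norm_natCast] at h4
  convert h4 using 1
  have h5 := A_pos h1
  have h6 := one_add_pos (S z ^ m)
  obtain ⟨k, rfl⟩ : ∃ k, m = k + 9 := ⟨m - 9, by omega⟩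
  rw [Nat.add_sub_cancel, A_npow] at *
  field_simp
  ring

theorem lap_q (hm : 10 ≤ m) {S : ℂ → ℂ} {z : ℂ} (hS : AnalyticAt ℂ S z) (h1 : S z ≠ 0)
    (h2 : S z ^ m - 1 ≠ 0) :
    Lap (fun w => Real.log (1 + A (S w ^ m - 1))) z ((m : ℝ) ^ 2 / 81 * (‖deriv S z‖ ^ 2 *
      (A (S z) ^ (m - 9) * (A (S z ^ m) ^ 8 /
        (A (S z ^ m - 1) ^ 8 * (1 + A (S z ^ m - 1)) ^ 2))))) := by
  have h4 := lap_A (H := fun w => S w ^ m - 1) ((hS.pow m).sub analyticAt_const) h2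
  rw [((hasDerivAt_pow' hS h1).sub_const 1).deriv, norm_div, norm_mul, norm_mul, norm_div, div_pow,
    mul_pow, mul_pow, div_pow, ← A_pow (S z), ← A_pow (S z ^ m), ← A_pow (S z ^ m - 1),
    Complex.norm_natCast] at h4
  convert h4 using 1
  have h5 := A_pos h1
  have h6 := one_add_pos (S z ^ m - 1)
  have h7 := A_pos h2
  obtain ⟨k, rfl⟩ : ∃ k, m = k + 9 := ⟨m - 9, by omega⟩
  rw [Nat.add_sub_cancel, A_npow]
  field_simp
  ring

variable {S T : ℂ → ℂ}

theorem good_symm (h : Good m S T) : Good m T S := fun z hz =>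
  ⟨(h z hz).2.1, (h z hz).1, (h z hz).2.2.2, (h z hz).2.2.1⟩

theorem an_of_ne {z : ℂ} (h : P1At S z) (h0 : S z ≠ 0) : AnalyticAt ℂ S z := by
  rcases h with h | ⟨g, -, h1, h2⟩
  · exact h
  · exact absurd (by rw [h2.self_of_nhds, h1, inv_zero]) h0

theorem exists_dom (hm : 0 < m) {z : ℂ} (h : P1At T z) (h0 : T z = 0) :
    ∃ y : ℂ → ℂ, AnalyticAt ℂ y z ∧ y z = 0 ∧ ∀ᶠ w in 𝓝 z, Zf m (T w) ≤ ‖y w‖ := by
  rcases h with h | ⟨g, h1, h2, h3⟩
  · exact ⟨T, h, h0, Eventually.of_forall fun w => Zf_le m _⟩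
  · refine ⟨g, h1, h2, h3.mono fun w hw => ?_⟩
    simpa [hw] using Zf_le_inv hm (g w)⁻¹

theorem cont_Zf (hm : 0 < m) {z : ℂ} (h : P1At T z) : ContinuousAt (fun w => Zf m (T w)) z := by
  by_cases h0 : T z = 0
  swap
  · exact (continuous_Zf m).continuousAt.comp (an_of_ne h h0).continuousAt
  obtain ⟨y, h1, h2, h3⟩ := exists_dom hm h h0
  have h4 := h1.continuousAt.norm.tendsto
  rw [h2, norm_zero] at h4
  rw [ContinuousAt, h0, Zf_zero]
  exact squeeze_zero' (Eventually.of_forall fun w => Zf_nonneg m _) h3 h4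

theorem cont_sig (hm : 10 ≤ m) {z : ℂ} (h : P1At S z) (h0 : S z ^ m - 1 ≠ 0) :
    ContinuousAt (fun w => ‖deriv S w‖ ^ 2 * W m (S w)) z := by
  rcases h with h | ⟨g, h1, h2, h3⟩
  · exact (h.deriv.continuousAt.norm.pow 2).mul ((continuousAt_W m h0).comp h.continuousAt)
  have h4 : g z ^ m - 1 ≠ 0 := by
    rw [h2, zero_pow (by omega)]
    norm_num
  have c0 := h1.continuousAt
  have c1 := (continuous_p m).continuousAt.comp c0
  have c2 := (continuous_q m).continuousAt.comp c0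
  refine ((h1.deriv.continuousAt.norm.pow 2).mul (((continuous_A.continuousAt.comp c0).pow
    (m - 9)).mul ((((continuousAt_const (y := (1 : ℝ))).add c1).mul (c1.add c2)).div (c2.pow 4)
      (pow_pos (A_pos h4) 4).ne'))).congr ?_
  filter_upwards [h3.eventually_nhds, h1.eventually_analyticAt] with w k1 k2
  rw [EventuallyEq.deriv_eq k1, k1.self_of_nhds]
  refine (W_inv hm (g w) (deriv g w)).symm.trans ?_
  by_cases k3 : g w = 0
  · rw [k3, inv_zero, W_zero hm, mul_zero, mul_zero]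
  · rw [(k2.differentiableAt.hasDerivAt.fun_inv k3).deriv]

/-- the pulled back pseudometric -/
noncomputable def ll (m : ℕ) (S T : ℂ → ℂ) (z : ℂ) : ℝ :=
  ‖deriv S z‖ ^ 2 * W m (S z) * (Zf m (S z) * Zf m (T z))

theorem ll_nonneg (z : ℂ) : 0 ≤ ll m S T z :=
  mul_nonneg (mul_nonneg (sq_nonneg _) (W_nonneg _ _)) (mul_nonneg (Zf_nonneg _ _) (Zf_nonneg _ _))

theorem cont (hm : 10 ≤ m) (h : Good m S T) {z : ℂ} (hz : z ∈ ball (0 : ℂ) 1) :
    ContinuousAt (ll m S T) z := by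
  have hm0 : 0 < m := by omega
  obtain ⟨h1, h2, h3, -⟩ := h z hz
  by_cases h0 : S z ^ m - 1 = 0
  swap
  · exact (cont_sig hm h1 h0).mul ((cont_Zf hm0 h1).mul (cont_Zf hm0 h2))
  have h4 : S z ≠ 0 := fun c => by
    rw [c, zero_pow hm0.ne'] at h0
    norm_num at h0
  have hS := an_of_ne h1 h4
  have hm' : (m : ℂ) ≠ 0 := by exact_mod_cast hm0.ne'
  obtain ⟨y, y1, y2, y3⟩ : ∃ y : ℂ → ℂ, AnalyticAt ℂ y z ∧ y z = 0 ∧
      ∀ᶠ w in 𝓝 z, ‖deriv S w‖ * Zf m (T w) ≤ ‖y w‖ := by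
    by_cases h5 : T z = 0
    · obtain ⟨y, y1, y2, y3⟩ := exists_dom hm0 h2 h5
      refine ⟨fun w => deriv S w * y w, hS.deriv.mul y1, by simp [y2], y3.mono fun w hw => ?_⟩
      rw [norm_mul]
      exact mul_le_mul_of_nonneg_left hw (norm_nonneg _)
    · exact ⟨deriv S, hS.deriv, h3 (sub_eq_zero.1 h0) h5, Eventually.of_forall fun w =>
        mul_le_of_le_one_right (norm_nonneg _) (Zf_le_one hm0 _)⟩
  obtain ⟨D, hD⟩ := bdd_logDeriv (g := fun w => S w ^ m - 1)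
    (y := fun w => y w * S w / (m * S w ^ m)) ((hS.pow m).sub analyticAt_const)
    ((y1.mul hS).div (analyticAt_const.mul (hS.pow m)) (mul_ne_zero hm' (pow_ne_zero _ h4)))
    (by simp [y2])
  have c0 := hS.continuousAt
  have c1 := (continuous_p m).continuousAt.comp c0
  have c2 := (continuous_q m).continuousAt.comp c0
  have c3 : ContinuousAt (fun w => D * √(A (S w ^ m - 1)) * (A (S w) ^ (m - 9) *
      ((1 + A (S w ^ m)) * (1 + A (S w ^ m - 1))) * Zf m (S w))) z :=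
    (continuousAt_const.mul c2.sqrt).mul ((((continuous_A.continuousAt.comp c0).pow _).mul
      ((continuousAt_const.add c1).mul (continuousAt_const.add c2))).mul (cont_Zf hm0 h1))
  have c4 := c3.tendsto
  rw [h0, A_zero, Real.sqrt_zero, mul_zero, zero_mul] at c4
  rw [ContinuousAt, show ll m S T z = 0 by simp [ll, W_root h0]]
  refine squeeze_zero' (Eventually.of_forall ll_nonneg) ?_ c4
  filter_upwards [hD, y3, hS.eventually_analyticAt, c0.eventually_ne h4] with w k1 k2 k3 k4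
  have hD0 : 0 ≤ D := (norm_nonneg _).trans k1
  have n1 := A_nonneg (S w)
  have n2 := A_nonneg (S w ^ m)
  have n3 := Zf_nonneg m (S w)
  by_cases k5 : S w ^ m - 1 = 0
  · rw [show ll m S T w = 0 by simp [ll, W_root k5]]
    have n4 := A_nonneg (S w ^ m - 1)
    positivity
  have n4 := A_pos k5
  have n5 := Real.sqrt_pos.2 n4
  have k6 : y w * S w / (m * S w ^ m) * (m * S w ^ m * (deriv S w / S w) / (S w ^ m - 1)) =
      y w * deriv S w / (S w ^ m - 1) := by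
    field_simp
  rw [((hasDerivAt_pow' k3 k4).sub_const 1).deriv, k6, norm_div, norm_mul, norm_eq (S w ^ m - 1),
    ← div_div, div_le_iff₀ n5] at k1
  calc ll m S T w = ‖deriv S w‖ * Zf m (T w) * ‖deriv S w‖ / A (S w ^ m - 1) ^ 4 *
        (A (S w) ^ (m - 9) * ((1 + A (S w ^ m)) * (1 + A (S w ^ m - 1))) * Zf m (S w)) := by
        rw [ll, W]
        ring
    _ ≤ _ := by
        refine mul_le_mul_of_nonneg_right (le_trans ?_ k1) (by positivity)
        gcongr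

theorem atMax (hm : 4000 ≤ m) (h : Good m S T) {z : ℂ} (hz : z ∈ ball (0 : ℂ) 1) {ε : ℝ}
    (hε : ε ≤ 0) (hρ : 0 < 1 + ε * ‖z‖ ^ 2)
    (hmax : IsLocalMax (fun w => (1 + ε * ‖w‖ ^ 2) ^ 2 * ll m S T w) z)
    (hle : ll m T S z ≤ ll m S T z) : (1 + ε * ‖z‖ ^ 2) ^ 2 * ll m S T z ≤ -4 * ε := by
  have hm0 : 0 < m := by omega
  have hm1 : 10 ≤ m := by omega
  have hm' : (4000 : ℝ) ≤ m := by exact_mod_cast hm
  by_cases hl : ll m S T z = 0
  · rw [hl]
    linarith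
  have hS0 : S z ≠ 0 := fun c => hl (by simp [ll, c, Zf_zero])
  have hT0 : T z ≠ 0 := fun c => hl (by simp [ll, c, Zf_zero])
  have h1 : deriv S z ≠ 0 := fun c => hl (by simp [ll, c])
  have h3 : S z ^ m - 1 ≠ 0 := fun c => hl (by simp [ll, W_root c])
  obtain ⟨g1, g2, -, g4⟩ := h z hz
  have hS := an_of_ne g1 hS0
  have hT := an_of_ne g2 hT0
  have a3 : AnalyticAt ℂ (fun w => S w ^ m - 1) z := (hS.pow m).sub analyticAt_const
  have l3 := lap_one_add (P := fun w => w) (z := z) analyticAt_id ε hρ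
  have l4 := (((((((l3.const_mul 2).add ((lap_log hS.deriv h1).const_mul 2)).add
    ((lap_log hS hS0).const_mul (((m - 9 : ℕ) : ℝ) * (2 / 9) + 1))).add
    ((lap_log a3 h3).const_mul (-(8 / 9)))).add (lap_log hT hT0)).add
    ((lap_p hm1 hS hS0).const_mul (1 - 9 / m))).add (lap_q hm1 hS hS0 h3)).add
    ((lap_p hm1 hT hT0).const_mul (-(9 / m)))
  have c1 : ContinuousAt (fun w : ℂ => 1 + ε * ‖w‖ ^ 2) z := by fun_prop
  have ev : ∀ᶠ w in 𝓝 z, 0 < 1 + ε * ‖w‖ ^ 2 ∧ deriv S w ≠ 0 ∧ S w ≠ 0 ∧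
      S w ^ m - 1 ≠ 0 ∧ T w ≠ 0 :=
    (c1.eventually (lt_mem_nhds hρ)).and ((hS.deriv.continuousAt.eventually_ne h1).and
      ((hS.continuousAt.eventually_ne hS0).and ((a3.continuousAt.eventually_ne h3).and
        (hT.continuousAt.eventually_ne hT0))))
  have l5 := (l4.congr (Φ := fun w => Real.log ((1 + ε * ‖w‖ ^ 2) ^ 2 * ll m S T w)) (by
    filter_upwards [ev] with w ⟨k1, k2, k3, k4, k5⟩
    have k6 := norm_pos_iff.2 k2
    have k7 := A_pos k3
    have k8 := A_pos k4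
    have k9 := norm_pos_iff.2 k5
    have k10 := norm_pos_iff.2 k3
    have k11 := one_add_pos (S w ^ m)
    have k12 := one_add_pos (T w ^ m)
    have k13 := W_pos m k3 k4
    have k14 := Zf_pos m k3
    have k15 := Zf_pos m k5
    rw [ll, Real.log_mul (by positivity) (by positivity),
      Real.log_mul (by positivity) (by positivity), Real.log_mul (by positivity) (by positivity),
      Real.log_mul k14.ne' k15.ne', W, Zf, Zf, Real.log_mul (by positivity) (by positivity),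
      Real.log_div (by positivity) (by positivity), Real.log_div (by positivity) (by positivity),
      Real.log_div (by positivity) (by positivity), Real.log_mul (by positivity) (by positivity),
      Real.log_pow, Real.log_pow, Real.log_pow, Real.log_pow, log_A k3, log_A k4,
      Real.log_rpow k11, Real.log_rpow k12]
    push_cast
    ring)).nonpos (by
    filter_upwards [ev, hmax] with w ⟨k1, k2, k3, k4, k5⟩ k0
    have k6 := norm_pos_iff.2 k2
    have k13 := W_pos m k3 k4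
    have k14 := Zf_pos m k3
    have k15 := Zf_pos m k5
    refine Real.log_le_log ?_ k0
    rw [ll]
    positivity)
  have hZ : 0 < Zf m (S z) * Zf m (T z) := mul_pos (Zf_pos m hS0) (Zf_pos m hT0)
  have hZ1 : Zf m (S z) * Zf m (T z) ≤ 1 :=
    mul_le_one₀ (Zf_le_one hm0 _) (Zf_nonneg m _) (Zf_le_one hm0 _)
  rw [ll, ll, mul_comm (Zf m (T z))] at hle
  have h5 := le_of_mul_le_mul_right hle hZ
  have h6 : 0 ≤ ‖deriv S z‖ ^ 2 * W m (S z) := mul_nonneg (sq_nonneg _) (W_nonneg _ _)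
  have u1 : ‖deriv T z‖ ^ 2 * (A (T z) ^ (m - 9) * (1 / (1 + A (T z ^ m)) ^ 2)) ≤
      ‖deriv S z‖ ^ 2 * W m (S z) := by
    by_cases c : T z ^ m - 1 = 0
    · rw [g4 (sub_eq_zero.1 c) hS0]
      simpa using h6
    · exact (mul_le_mul_of_nonneg_left (mul_le_mul_of_nonneg_left
        (br_upper (A_nonneg _) (A_pos c) (q_le _)) (pow_nonneg (A_nonneg _) _))
        (sq_nonneg _)).trans h5
  have u2 := mul_le_mul_of_nonneg_left (mul_le_mul_of_nonneg_left
    (br_lower (A_nonneg _) (A_pos h3) (one_le_add (S z ^ m))) (pow_nonneg (A_nonneg (S z)) (m - 9)))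
    (sq_nonneg ‖deriv S z‖)
  rw [← mul_div_assoc, ← W, ← mul_div_assoc, mul_add, mul_add] at u2
  have u3 : 0 ≤ ‖deriv S z‖ ^ 2 * (A (S z) ^ (m - 9) * (A (S z ^ m) ^ 8 /
      (A (S z ^ m - 1) ^ 8 * (1 + A (S z ^ m - 1)) ^ 2))) := by
    have := A_nonneg (S z)
    positivity
  have hθ0 : (0 : ℝ) ≤ 9 / m := by positivity
  have hθ1 : (9 : ℝ) / m ≤ 1 / 164 := by
    rw [div_le_div_iff₀ (by positivity) (by positivity)]
    linarith
  have hμ : (6724 : ℝ) ≤ (m : ℝ) ^ 2 / 81 := by nlinarith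
  rw [deriv_id'', norm_one, one_pow, mul_one] at l5
  rw [ll]
  generalize (9 : ℝ) / m = θ at *
  generalize (m : ℝ) ^ 2 / 81 = μ at *
  generalize ‖deriv S z‖ ^ 2 * W m (S z) = σ at *
  generalize ‖deriv S z‖ ^ 2 * (A (S z) ^ (m - 9) * (A (S z ^ m) ^ 8 /
      (A (S z ^ m - 1) ^ 8 * (1 + A (S z ^ m - 1)) ^ 2))) = M₂ at *
  generalize ‖deriv S z‖ ^ 2 * (A (S z) ^ (m - 9) * (1 / (1 + A (S z ^ m)) ^ 2)) = M₁ at *
  generalize ‖deriv T z‖ ^ 2 * (A (T z) ^ (m - 9) * (1 / (1 + A (T z ^ m)) ^ 2)) = M' at *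
  have h7 : σ / 200 ≤ (1 - θ) * M₁ + M₂ - θ * M' := by
    have v1 : θ * M' ≤ θ * σ := mul_le_mul_of_nonneg_left u1 hθ0
    have v2 : (1 - θ) * (σ / 81) ≤ (1 - θ) * (M₁ + M₂) :=
      mul_le_mul_of_nonneg_left u2 (by linarith)
    have v3 : θ * σ ≤ 1 / 164 * σ := mul_le_mul_of_nonneg_right hθ1 h6
    have v4 : 0 ≤ θ * M₂ := mul_nonneg hθ0 u3
    linarith
  have h8 := mul_le_mul_of_nonneg_left h7 (show 0 ≤ μ by linarith)
  have h9 : 6724 * σ ≤ μ * σ := mul_le_mul_of_nonneg_right hμ h6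
  have h12 : σ ≤ -4 * ε / (1 + ε * ‖z‖ ^ 2) ^ 2 := by
    rw [mul_div_assoc]
    have v5 : ε / (1 + ε * ‖z‖ ^ 2) ^ 2 ≤ 0 := div_nonpos_of_nonpos_of_nonneg hε (sq_nonneg _)
    linarith
  rw [le_div_iff₀ (by positivity)] at h12
  have h13 := mul_le_of_le_one_right h6 hZ1
  nlinarith [mul_le_mul_of_nonneg_left h13 (sq_nonneg (1 + ε * ‖z‖ ^ 2))]

theorem bound (hm : 4000 ≤ m) (h : Good m S T) {z : ℂ} (hz : z ∈ ball (0 : ℂ) 1) :
    (1 - ‖z‖ ^ 2) ^ 2 * ll m S T z ≤ 24 := by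
  have hm0 : 10 ≤ m := by omega
  have hz1 : ‖z‖ ^ 2 < 1 := pow_lt_one₀ (norm_nonneg _) (mem_ball_zero_iff.1 hz) two_ne_zero
  have hz0 := sq_nonneg ‖z‖
  obtain ⟨ε, hε⟩ : ∃ ε : ℝ, ε = -(1 + (1 - ‖z‖ ^ 2) / 2) := ⟨_, rfl⟩
  have hε1 : ε < -1 := by linarith
  have hε2 : -(3 / 2) ≤ ε := by linarith
  have hρ : (1 - ‖z‖ ^ 2) / 2 ≤ 1 + ε * ‖z‖ ^ 2 := by
    rw [hε]
    nlinarith
  have c1 : Continuous fun w : ℂ => 1 + ε * ‖w‖ ^ 2 := by fun_prop
  have hsub : {w : ℂ | 0 ≤ 1 + ε * ‖w‖ ^ 2} ⊆ ball 0 1 := fun w hw => by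
    rw [mem_ball_zero_iff]
    by_contra hc
    have h1 : 1 ≤ ‖w‖ ^ 2 := one_le_pow₀ (not_lt.1 hc)
    have h2 : 0 ≤ 1 + ε * ‖w‖ ^ 2 := hw
    nlinarith
  have hK : IsCompact {w : ℂ | 0 ≤ 1 + ε * ‖w‖ ^ 2} :=
    (isCompact_closedBall 0 1).of_isClosed_subset (isClosed_le continuous_const c1)
      (hsub.trans ball_subset_closedBall)
  have hzK : z ∈ {w : ℂ | 0 ≤ 1 + ε * ‖w‖ ^ 2} := le_trans (by linarith) hρ
  obtain ⟨z₀, h1, h2⟩ := hK.exists_isMaxOn ⟨z, hzK⟩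
    (f := fun w => (1 + ε * ‖w‖ ^ 2) ^ 2 * max (ll m S T w) (ll m T S w))
    fun w hw => ((c1.continuousAt.pow 2).mul
      ((cont hm0 h (hsub hw)).max (cont hm0 (good_symm h) (hsub hw)))).continuousWithinAt
  have h3 : (1 + ε * ‖z₀‖ ^ 2) ^ 2 * max (ll m S T z₀) (ll m T S z₀) ≤ -4 * ε := by
    rcases eq_or_lt_of_le (show 0 ≤ 1 + ε * ‖z₀‖ ^ 2 from h1) with h4 | h4
    · rw [← h4]
      linarith
    have h5 := h2.isLocalMax (mem_of_superset (c1.continuousAt.eventually (lt_mem_nhds h4))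
      fun w hw => show 0 ≤ 1 + ε * ‖w‖ ^ 2 from le_of_lt hw)
    rcases le_total (ll m T S z₀) (ll m S T z₀) with h6 | h6
    · rw [max_eq_left h6]
      refine atMax hm h (hsub h1) (by linarith) h4 (h5.mono fun w hw => ?_) h6
      simp only [max_eq_left h6] at hw
      exact (mul_le_mul_of_nonneg_left (le_max_left _ _) (sq_nonneg _)).trans hw
    · rw [max_eq_right h6]
      refine atMax hm (good_symm h) (hsub h1) (by linarith) h4 (h5.mono fun w hw => ?_) h6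
      simp only [max_eq_right h6] at hw
      exact (mul_le_mul_of_nonneg_left (le_max_right _ _) (sq_nonneg _)).trans hw
  have h4 := (mul_le_mul_of_nonneg_left (le_max_left _ _) (sq_nonneg _)).trans ((h2 hzK).trans h3)
  have h5 := mul_le_mul_of_nonneg_right (pow_le_pow_left₀ (by linarith) hρ 2)
    (ll_nonneg (m := m) (S := S) (T := T) z)
  nlinarith

theorem ne_near (hm : 0 < m) {s : ℂ} (hs : s ∈ closedBall (3 : ℂ) 1) : s ≠ 0 ∧ s ^ m - 1 ≠ 0 := by
  obtain ⟨h1, h2, -⟩ := one_le_pow_near hm (mem_closedBall_iff_norm.1 hs)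
  refine ⟨fun c => ?_, norm_pos_iff.1 (by linarith)⟩
  rw [c, zero_pow hm.ne', norm_zero] at h1
  linarith

end Ah2

open Ah2 in
theorem ahlfors2 (m : ℕ) (hm : 4000 ≤ m) : ∃ C : ℝ, ∀ S T : ℂ → ℂ, Good m S T →
    ∀ z ∈ ball (0 : ℂ) 1, ‖S z - 3‖ ≤ 1 → ‖T z - 3‖ ≤ 1 → ‖deriv S z‖ ≤ C / (1 - ‖z‖ ^ 2) := by
  have hm0 : 0 < m := by omega
  obtain ⟨B, hB0, hB⟩ := (isCompact_closedBall (3 : ℂ) 1).exists_forall_le' (f := W m) (a := 0)
    (fun s hs => (continuousAt_W m (ne_near hm0 hs).2).continuousWithinAt)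
    fun s hs => W_pos m (ne_near hm0 hs).1 (ne_near hm0 hs).2
  obtain ⟨E, hE0, hE⟩ := (isCompact_closedBall (3 : ℂ) 1).exists_forall_le' (f := Zf m) (a := 0)
    (continuous_Zf m).continuousOn fun s hs => Zf_pos m (ne_near hm0 hs).1
  refine ⟨1 + 24 / (B * (E * E)), fun S T h z hz hS hT => ?_⟩
  have hz1 : ‖z‖ ^ 2 < 1 := pow_lt_one₀ (norm_nonneg _) (mem_ball_zero_iff.1 hz) two_ne_zero
  have h6 := hB _ (mem_closedBall_iff_norm.2 hS)
  have h7 := hE _ (mem_closedBall_iff_norm.2 hS)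
  have h8 := hE _ (mem_closedBall_iff_norm.2 hT)
  have h9 : ‖deriv S z‖ ^ 2 * (B * (E * E)) ≤ ll m S T z := by
    rw [ll, ← mul_assoc]
    have := W_nonneg m (S z)
    have := Zf_nonneg m (S z)
    gcongr
  have h10 := (mul_le_mul_of_nonneg_left h9 (sq_nonneg _)).trans (bound hm h hz)
  rw [← mul_assoc, ← le_div_iff₀ (by positivity), ← mul_pow] at h10
  rw [le_div_iff₀ (by linarith), mul_comm]
  nlinarith [sq_nonneg ((1 - ‖z‖ ^ 2) * ‖deriv S z‖ - 1)]

end Pool.Agent.Lib.MP_879098_ag.Sm
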