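import Pool.Agent.Lib.MP_879098_ag.SClosed
import Pool.Agent.Lib.MP_879098_ag.SNear
import Pool.Agent.Lib.MP_879098_ag.Disc
import Pool.Agent.Lib.MP_879098_ag.Rigid

/-! A morphism from the smooth surface that is constant on the central curve and on the leaves is
constant. -/

namespace Pool.Agent.Lib.MP_879098_ag.Sm

open Filter Topology Polynomial Metric

namespace Rig2

/-- square roots of nonvanishing analytic functions exist on `D` -/
def Sq (D : Set ℂ) : Prop := ∀ f : ℂ → ℂ, AnalyticOnNhd ℂ f D → (∀ z ∈ D, f z ≠ 0) →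
  ∀ y₀ : ℂ, y₀ ^ 2 = f 0 → ∃ y : ℂ → ℂ, AnalyticOnNhd ℂ y D ∧ y 0 = y₀ ∧ ∀ z ∈ D, y z ^ 2 = f z

theorem sq_strip : Sq {w : ℂ | |w.im| < 2} := fun f hf h0 y₀ hy => by
  obtain ⟨y, h1, h2, h3⟩ := exists_root Rigid.strip_open Rigid.strip_convex hf.differentiableOn h0
    2 two_pos (z₀ := 0) (by simp) hy
  exact ⟨y, h1.analyticOnNhd Rigid.strip_open, h2, h3⟩

theorem sq_disc : Sq (closedBall 0 1) := fun f hf h0 y₀ hy => by
  obtain ⟨g, h1, h2⟩ := exists_log_disc hf h0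
  refine ⟨fun z => y₀ * Complex.exp ((g z - g 0) / 2), fun z hz => ?_, by simp, fun z hz => ?_⟩
  · have := h1 z hz
    fun_prop
  · rw [mul_pow, hy, ← h2 0 (by simp), ← h2 z hz, sq, ← Complex.exp_add, ← Complex.exp_add]
    congr 1
    ring

theorem ff_iff {k : ℕ} {s : ℂ} :
    ff (2 * k) s⁻¹ ≠ 0 ↔ s ≠ 0 ∧ 1 - s ^ k ≠ 0 ∧ 1 + s ^ k ≠ 0 := by
  rw [ff, mul_ne_zero_iff, ← mul_ne_zero_iff (a := 1 - s ^ k), sub_ne_zero, inv_pow,
    show (1 - s ^ k) * (1 + s ^ k) = 1 - s ^ (2 * k) by ring, sub_ne_zero]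
  exact and_congr inv_eq_zero.not (inv_eq_one.trans eq_comm).not

/-- a curve in the surface through a generic point with prescribed first and constant second
coordinate -/
theorem curve {D : Set ℂ} (hD : Sq D) {k : ℕ} {l₀ m₀ l₀' m₀' : ℂ} (h : Gen k l₀ m₀ l₀' m₀')
    {A : ℂ → ℂ} (hA : AnalyticOnNhd ℂ A D) (h0 : A 0 = (l₀ * m₀)⁻¹)
    (h1 : ∀ z ∈ D, ff (2 * k) (A z) ≠ 0) :
    ∃ l m l' m' : ℂ → ℂ, AnalyticOnNhd ℂ l D ∧ AnalyticOnNhd ℂ m D ∧ AnalyticOnNhd ℂ l' D ∧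
      AnalyticOnNhd ℂ m' D ∧ l 0 = l₀ ∧ m 0 = m₀ ∧ l' 0 = l₀' ∧ m' 0 = m₀' ∧
      ∀ z ∈ D, Gen k (l z) (m z) (l' z) (m' z) ∧ l z * m z = (A z)⁻¹ ∧
        l' z * m' z = l₀' * m₀' ∧ m z = l z * (m₀ / l₀) := by
  have a1 := h.l0
  have a2 := h.m0
  have a3 := h.l0'
  have a4 := h.m0'
  have h2 : ∀ z ∈ D, (A z)⁻¹ ≠ 0 ∧ 1 - (A z)⁻¹ ^ k ≠ 0 ∧ 1 + (A z)⁻¹ ^ k ≠ 0 := fun z hz =>
    ff_iff.1 (by rw [inv_inv]; exact h1 z hz)
  have hS : AnalyticOnNhd ℂ (fun z => (A z)⁻¹) D := fun z hz =>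
    (hA z hz).fun_inv (inv_eq_zero.not.1 (h2 z hz).1)
  obtain ⟨l, l1, l2, l3⟩ := hD (fun z => (A z)⁻¹ * (l₀ / m₀))
    (fun z hz => (hS z hz).mul analyticAt_const)
    (fun z hz => mul_ne_zero (h2 z hz).1 (div_ne_zero a1 a2)) l₀ (by
      rw [h0, inv_inv]; field_simp)
  obtain ⟨l', k1, k2, k3⟩ := hD
    (fun z => l₀' * m₀' * (1 + (A z)⁻¹ ^ k) / (1 - (A z)⁻¹ ^ k))
    (fun z hz => (analyticAt_const.mul (analyticAt_const.add ((hS z hz).pow k))).div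
      (analyticAt_const.sub ((hS z hz).pow k)) (h2 z hz).2.1)
    (fun z hz => div_ne_zero (mul_ne_zero (mul_ne_zero a3 a4) (h2 z hz).2.2) (h2 z hz).2.1) l₀' (by
      rw [h0, inv_inv, eq_div_iff h.ne.1]
      linear_combination l₀' * h.eq')
  have b1 : ∀ z ∈ D, l z ≠ 0 := fun z hz c => by
    have := l3 z hz
    rw [c, zero_pow two_ne_zero] at this
    exact mul_ne_zero (h2 z hz).1 (div_ne_zero a1 a2) this.symm
  have b2 : ∀ z ∈ D, l' z ≠ 0 := fun z hz c => by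
    have := k3 z hz
    rw [c, zero_pow two_ne_zero] at this
    exact div_ne_zero (mul_ne_zero (mul_ne_zero a3 a4) (h2 z hz).2.2) (h2 z hz).2.1 this.symm
  refine ⟨l, fun z => l z * (m₀ / l₀), l', fun z => l₀' * m₀' / l' z, l1,
    fun z hz => (l1 z hz).mul analyticAt_const, k1,
    fun z hz => analyticAt_const.div (k1 z hz) (b2 z hz), l2, ?_, k2, ?_, fun z hz => ?_⟩
  · simp only [l2]; field_simp
  · simp only [k2]; field_simp
  have c1 := b1 z hz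
  have c2 := b2 z hz
  have e1 : l z * (l z * (m₀ / l₀)) = (A z)⁻¹ := by
    rw [← mul_assoc, ← sq, l3 z hz]; field_simp
  have e2 : l' z * (l₀' * m₀' / l' z) = l₀' * m₀' := by field_simp
  refine ⟨⟨c1, mul_ne_zero c1 (div_ne_zero a2 a1), c2, div_ne_zero (mul_ne_zero a3 a4) c2,
    ?_, ?_⟩, e1, e2, rfl⟩
  · rw [e2, mul_assoc, div_mul_eq_mul_div, ← h.eq, mul_div_cancel_left₀ _ a1]
  · have := k3 z hz
    rw [eq_div_iff (h2 z hz).2.1] at this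
    rw [e1, div_mul_eq_mul_div, eq_div_iff c2]
    linear_combination this

theorem norm_le_avg {f : ℂ → ℂ} (hf : AnalyticOnNhd ℂ f (closedBall 0 1)) {g : ℂ → ℝ}
    (hg : ContinuousOn g (sphere 0 1)) (h : ∀ z ∈ sphere (0 : ℂ) 1, ‖f z‖ ≤ g z) :
    ‖f 0‖ ≤ Real.circleAverage g 0 1 := by
  obtain ⟨u, hu, e⟩ : ∃ u : ℂ, ‖u‖ = 1 ∧ (‖f 0‖ : ℂ) = u * f 0 := by
    obtain ⟨u, h1, h2⟩ := Complex.exists_norm_mul_eq_self (f 0)
    refine ⟨u⁻¹, by simp [h1], ?_⟩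
    rw [eq_inv_mul_iff_mul_eq₀ (norm_ne_zero_iff.1 (by simp [h1])), h2]
  have hc : ContinuousOn (fun z => u * f z) (closedBall 0 1) :=
    continuousOn_const.mul hf.continuousOn
  have hs := hc.mono sphere_subset_closedBall
  have e1 : Real.circleAverage (fun z => u * f z) 0 1 = u * f 0 := by
    refine DiffContOnCl.circleAverage (f := fun z => u * f z) ?_
    rw [abs_one]
    exact DiffContOnCl.mk_ball
      ((hf.mono ball_subset_closedBall).differentiableOn.const_mul u) hc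
  have e2 := Complex.reCLM.circleAverage_comp_comm (f := fun z => u * f z) (c := 0) (R := 1)
    (hs.circleIntegrable zero_le_one)
  rw [e1, ← e, Complex.reCLM_apply, Complex.ofReal_re] at e2
  rw [← e2]
  refine Disc.avg_mono (Complex.reCLM.continuous.comp_continuousOn hs) hg fun z hz => ?_
  refine (Complex.re_le_norm _).trans ?_
  rw [norm_mul, hu, one_mul]
  exact h z hz

end Rig2

open Rig2 Rigid in
theorem rigid2_of (k : ℕ) (hk : 0 < k) (hd : ∀ x ∈ YY k, ∀ η : ℝ, 0 < η →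
      ∃ l m l' m' : ℂ, Gen k l m l' m' ∧ Near η x.rep (gpt l m l' m'))
    {a : ℕ} {j : PP 63 → PP a} (hj : IsMorphism (YY k) j) (c₀ : PP a)
    (h1 : ∀ w : ℂ, j (toP (cen w)) = c₀)
    (h2 : ∀ c ∈ ZZ k, ∀ n : ℂ, j (toP (leaf k c n)) = c₀) : ∀ x ∈ YY k, j x = c₀ := by
  obtain ⟨i₀, h0⟩ : ∃ i₀, ‖c₀.rep i₀‖ = ‖c₀.rep‖ := by
    obtain ⟨i, hi⟩ := Finite.exists_max fun i => ‖c₀.rep i‖
    exact ⟨i, le_antisymm (norm_le_pi_norm _ _) ((pi_norm_le_iff_of_nonneg (norm_nonneg _)).2 hi)⟩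
  have hc : c₀.rep i₀ ≠ 0 := norm_pos_iff.1 (h0 ▸ norm_pos_iff.2 c₀.rep_nonzero)
  have far : ∀ δ > 0, ∀ M : ℝ, ∃ r > 0, ∀ l m l' m' : ℂ, Gen k l m l' m' →
      ((‖l * m‖ < r ∧ ‖l‖ ≤ M * ‖m‖ ∧ ‖m‖ ≤ M * ‖l‖) ∨ ‖l' * m'‖ < r) →
      ∀ u, Rep u (j (toP (gpt l m l' m'))) → Near δ c₀.rep u := by
    intro δ hδ M
    obtain ⟨η, η1, η2⟩ := hj.unif (isZClosed_YY k) δ hδ
    obtain ⟨ρ, ρ1, ρ2⟩ := near_star k hk η η1
    obtain ⟨r, r1, r2⟩ := ρ2 ρ ρ1 le_rfl M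
    refine ⟨r, r1, fun l m l' m' g H u hu => ?_⟩
    obtain ⟨w, w1, w2⟩ : ∃ w : ℂ, w ^ 2 = l * m ∧ ‖l - w‖ ≤ ‖l + w‖ := by
      obtain ⟨w, hw⟩ := IsAlgClosed.exists_pow_nat_eq (l * m) two_pos
      rcases le_total ‖l - w‖ ‖l + w‖ with c | c
      · exact ⟨w, hw, c⟩
      · exact ⟨-w, by rw [neg_sq, hw], by rwa [sub_neg_eq_add, ← sub_eq_add_neg]⟩
    obtain ⟨n1, n2⟩ := r2 l m l' m' w g w1 (H.imp id fun H => ⟨H, w2⟩)
    by_cases c : ∀ c ∈ ZZ k, ‖w - c‖ ≤ ρ → ‖par k c l' m'‖ ≤ ρ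
    · exact η2 _ (cen_mem hk w).2 _ g.mem.2 _ _ _ _ (rep_toP (cen_mem hk w).1) (rep_toP g.mem.1)
        (n1 c) (h1 w ▸ rep_rep _) hu
    · push Not at c
      obtain ⟨c, c1, c2, c3⟩ := c
      exact η2 _ (leaf_mem hk c1 _).2 _ g.mem.2 _ _ _ _ (rep_toP (leaf_mem hk c1 _).1)
        (rep_toP g.mem.1) (n2 c c1 c2 (by linarith)).2 (h2 c c1 _ ▸ rep_rep _) hu
  obtain ⟨r₀, hr₀, hR⟩ := far (1 / 2) (by norm_num) 0
  have fib : ∀ l₀ m₀ l₀' m₀' : ℂ, Gen k l₀ m₀ l₀' m₀' → ‖l₀' * m₀'‖ < r₀ →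
      j (toP (gpt l₀ m₀ l₀' m₀')) = c₀ := by
    intro l₀ m₀ l₀' m₀' g ht
    refine eq_of_ratio hc (ratio h0 (hR _ _ _ _ g (.inr ht) _ (rep_rep _)) le_rfl).1 fun i => ?_
    refine norm_le_zero_iff.1 (le_of_forall_pos_le_add fun ε hε => ?_)
    have q0 : 0 < ‖m₀ / l₀‖ := norm_pos_iff.2 (div_ne_zero g.m0 g.l0)
    obtain ⟨r, r1, r2⟩ := far (min (ε / 8) (1 / 2)) (by positivity) (‖m₀ / l₀‖ + ‖m₀ / l₀‖⁻¹)
    have hφ : ∀ u : ℂ, (X * (X ^ (2 * k) - 1) : ℂ[X]).eval u = ff (2 * k) u := fun u => by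
      simp [ff]
    obtain ⟨α, v, α0, α1, v1, v2, v3⟩ := Disc.alpha (X * (X ^ (2 * k) - 1)) (l₀ * m₀)⁻¹
      (by rw [hφ]; exact ff_iff.2 ⟨mul_ne_zero g.l0 g.m0, g.ne⟩) r⁻¹ (ε / 4) (by positivity)
    obtain ⟨l, m, l', m', a1, a2, a3, a4, e1, e2, e3, e4, G⟩ := curve sq_disc g
      (A := fun z => α.eval z) (fun z _ => α.differentiable.analyticAt z) α0
      fun z hz => by rw [← hφ]; exact α1 z hz
    obtain ⟨H, H1, H2⟩ := hj.lift_disc (Φ := fun z => gpt (l z) (m z) (l' z) (m' z))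
      (fun z hz => analyticAt_gpt (a1 z hz) (a2 z hz) (a3 z hz) (a4 z hz))
      fun z hz => (G z hz).1.mem
    have H3 := fun z hz => ratio h0 (hR _ _ _ _ (G z hz).1
      (.inr (by rw [(G z hz).2.2.1]; exact ht)) _ (H2 z hz)) le_rfl
    have key := norm_le_avg (f := fun z => H z i / H z i₀ - c₀.rep i / c₀.rep i₀)
      (fun z hz => ((analyticAt_pi_iff.1 (H1 z hz) i).div (analyticAt_pi_iff.1 (H1 z hz) i₀)
        (H3 z hz).1).sub analyticAt_const) (g := fun z => ε / 2 + 2 * v z)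
      (Disc.cadd continuousOn_const (Disc.cmul 2 v1)) fun z hz => by
        have hz' := sphere_subset_closedBall hz
        obtain ⟨g1, g2, -, g4⟩ := G z hz'
        rcases le_or_gt ‖α.eval z‖ r⁻¹ with c | c
        · linarith [(H3 z hz').2 i, (v2 z hz).2 c]
        · have := (ratio h0 (r2 _ _ _ _ g1 (.inl ⟨?_, ?_, ?_⟩) _ (H2 z hz'))
            (min_le_right _ _)).2 i
          · linarith [min_le_left (ε / 8) (1 / 2), (v2 z hz).1]
          · rw [g2, norm_inv]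
            exact inv_lt_of_inv_lt₀ r1 c
          · rw [g4, norm_mul, add_mul, mul_comm ‖l z‖, inv_mul_cancel_left₀ q0.ne']
            exact le_add_of_nonneg_left (by positivity)
          · rw [g4, norm_mul, add_mul, mul_comm ‖l z‖]
            exact le_add_of_nonneg_right (by positivity)
    rw [Disc.avg_add continuousOn_const (Disc.cmul 2 v1), Disc.avg_mul,
      Real.circleAverage_const] at key
    have H0 := H2 0 (by simp)
    simp only [e1, e2, e3, e4] at H0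
    obtain ⟨s, hs, e⟩ := H0.exists_smul (rep_rep _)
    rw [e, Pi.smul_apply, Pi.smul_apply, smul_eq_mul, smul_eq_mul, mul_div_mul_left _ _ hs]
    linarith
  have gen : ∀ l₀ m₀ l₀' m₀' : ℂ, Gen k l₀ m₀ l₀' m₀' →
      Rep c₀.rep (j (toP (gpt l₀ m₀ l₀' m₀'))) := by
    intro l₀ m₀ l₀' m₀' g
    obtain ⟨e, he, hs⟩ := exists_strip _ (finite_ff (2 * k) (by omega)) (l₀' * m₀')⁻¹
      (ff_iff.2 ⟨mul_ne_zero g.l0' g.m0', g.symm.ne⟩)
    obtain ⟨l', m', l, m, a1, a2, a3, a4, e1, e2, e3, e4, G⟩ := curve sq_strip g.symm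
      (A := fun z => (l₀' * m₀')⁻¹ + e * z) (fun z _ => by fun_prop) (by simp)
      fun z hz => hs z (le_of_lt hz)
    obtain ⟨r, hr⟩ := exists_far (l₀' * m₀')⁻¹ he r₀⁻¹
    have hw : |(r : ℂ).im| < 2 := by simp
    have := hj.ident strip_open strip_convex.isPreconnected
      (Φ := fun z => gpt (l z) (m z) (l' z) (m' z)) (h := fun _ => c₀.rep)
      (fun z hz => analyticAt_gpt (a3 z hz) (a4 z hz) (a1 z hz) (a2 z hz)) analyticOnNhd_const
      (fun z hz => (G z hz).1.symm.mem) (fun _ _ => c₀.rep_nonzero) (z₀ := r) hw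
      (Eventually.frequently (eventually_nhdsWithin_of_eventually_nhds (by
        filter_upwards [strip_open.mem_nhds hw, (isOpen_lt continuous_const
          (f := fun _ => r₀⁻¹) (g := fun w : ℂ => ‖(l₀' * m₀')⁻¹ + e * w‖) (by fun_prop)).mem_nhds
            hr] with w w1 w2
        rw [fib _ _ _ _ (G w w1).1.symm (by
          rw [(G w w1).2.1, norm_inv]
          exact inv_lt_of_inv_lt₀ hr₀ w2)]
        exact rep_rep c₀))) 0 (by simp)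
    simpa only [e1, e2, e3, e4] using this
  intro x hx
  have fin : ∀ δ > 0, Near δ c₀.rep (j x).rep := by
    intro δ hδ
    obtain ⟨η, η1, η2⟩ := hj.unif (isZClosed_YY k) δ hδ
    obtain ⟨l, m, l', m', y1, y2⟩ := hd x hx (min (η / 2) (1 / 2)) (by positivity)
    exact η2 _ y1.mem.2 _ hx _ _ _ _ (rep_toP y1.mem.1) (rep_rep x)
      ((y2.symm (min_le_right _ _)).mono (by linarith [min_le_left (η / 2) (1 / 2)]))
      (gen _ _ _ _ y1) (rep_rep _)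
  refine eq_of_ratio hc (ratio h0 (fin (1 / 2) (by norm_num)) le_rfl).1 fun i => ?_
  refine norm_le_zero_iff.1 (le_of_forall_pos_le_add fun ε hε => ?_)
  have := (ratio h0 (fin (min (ε / 4) (1 / 2)) (by positivity)) (min_le_right _ _)).2 i
  linarith [min_le_left (ε / 4) (1 / 2)]

end Pool.Agent.Lib.MP_879098_ag.Sm
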