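import Pool.Agent.Lib.MP_879098_ag.SBase
import Pool.Agent.Lib.MP_879098_ag.SStarB

/-! Closing a holomorphic disc to a rational curve along a star of rational curves. -/

namespace Pool.Agent.Lib.MP_879098_ag.Sm

open Filter Topology Polynomial Metric

open Sta in
theorem star {a b : ℕ} {Ω : Set (VV a × VV b)} (hΩ : IsCone Ω)
    {P : Fin (a + 1) → ℂ[X]} {d : ℕ} {Q : Fin (b + 1) → ℂ[X]} {e : ℕ} (h : IsRat Ω P d Q e)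
    (Z : Finset ℂ) {P' : ℂ → Fin (a + 1) → ℂ[X]} {d' : ℂ → ℕ} {Q' : ℂ → Fin (b + 1) → ℂ[X]}
    {e' : ℂ → ℕ} (h' : ∀ c ∈ Z, IsRat Ω (P' c) (d' c) (Q' c) (e' c))
    (hP : ∀ c ∈ Z, pev P c = pev (P' c) 0) (hQ : ∀ c ∈ Z, pev Q c = pev (Q' c) 0)
    (hd : 1 ≤ d + ∑ c ∈ Z, d' c) (he : 1 ≤ e + ∑ c ∈ Z, e' c) :
    ∃ δ : ℝ, 0 < δ ∧ ∃ ρ₀ : ℝ, 0 < ρ₀ ∧ ∃ (p₀ : PP a) (q₀ : PP b), ∀ ρ : ℝ, 0 < ρ → ρ ≤ ρ₀ →
      ∀ (f : ℂ → VV a) (g : ℂ → VV b) (w : ℂ → ℂ) (A B : ℂ → ℂ → ℂ),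
      AnalyticOnNhd ℂ f (closedBall 0 1) → AnalyticOnNhd ℂ g (closedBall 0 1) →
      (∀ z ∈ closedBall (0 : ℂ) 1, (f z, g z) ∈ Ω) → ContinuousOn w (sphere 0 1) →
      (∀ c ∈ Z, ContinuousOn (A c) (sphere 0 1) ∧ ContinuousOn (B c) (sphere 0 1) ∧
        ∀ ζ ∈ sphere (0 : ℂ) 1, Complex.exp (A c ζ) = w ζ - c) →
      (∀ ζ ∈ sphere (0 : ℂ) 1,
        ((∀ c ∈ Z, ‖w ζ - c‖ ≤ ρ → ‖Complex.exp (B c ζ)‖ ≤ ρ) →
          Near δ (pev P (w ζ)) (f ζ) ∧ Near δ (pev Q (w ζ)) (g ζ)) ∧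
        ∀ c ∈ Z, ‖w ζ - c‖ ≤ ρ → ρ / 2 ≤ ‖Complex.exp (B c ζ)‖ → ‖w ζ - c‖ ≤ ρ / 2 ∧
          Near δ (pev (P' c) (Complex.exp (B c ζ))) (f ζ) ∧
          Near δ (pev (Q' c) (Complex.exp (B c ζ))) (g ζ)) →
      ∃ (F : Fin (a + 1) → ℂ[X]) (D : ℕ) (G : Fin (b + 1) → ℂ[X]) (E : ℕ),
        IsRat Ω F D G E ∧ 1 ≤ D ∧ 1 ≤ E ∧ toP (pev F 0) = toP (f 0) ∧ toP (pev G 0) = toP (g 0) ∧
        toP (ptop F D) = p₀ ∧ toP (ptop G E) = q₀ := by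
  have sml : ∀ δ : ℝ, 0 < δ → ∃ ρ : ℝ, 0 < ρ ∧ Sml δ ρ Z P P' ∧ Sml δ ρ Z Q Q' := fun δ hδ => by
    obtain ⟨r, hr, s⟩ := exists_sml h.degP (fun c hc => (h' c hc).degP)
      (fun w => (hΩ.ne _ _ (h.mem w)).1) (fun c hc w => (hΩ.ne _ _ ((h' c hc).mem w)).1)
      (hΩ.ne _ _ h.top).1 (fun c hc => (hΩ.ne _ _ (h' c hc).top).1) hδ
    obtain ⟨r', hr', s'⟩ := exists_sml h.degQ (fun c hc => (h' c hc).degQ)
      (fun w => (hΩ.ne _ _ (h.mem w)).2) (fun c hc w => (hΩ.ne _ _ ((h' c hc).mem w)).2)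
      (hΩ.ne _ _ h.top).2 (fun c hc => (hΩ.ne _ _ (h' c hc).top).2) hδ
    exact ⟨min r r', lt_min hr hr', s.mono (min_le_left _ _), s'.mono (min_le_right _ _)⟩
  obtain ⟨δ₁, p₁, m₁⟩ := smo_margin hΩ h h' hP hQ
  obtain ⟨ρ₀, r₀, sP₀, sQ₀⟩ := sml δ₁ p₁
  have e₀ : ((ρ₀ ^ 2 : ℝ) : ℂ) ≠ 0 := Complex.ofReal_ne_zero.2 (pow_pos r₀ 2).ne'
  obtain ⟨W₀, hW₀⟩ := exists_smo h.degP (fun c hc => (h' c hc).degP) hP (ρ₀ ^ 2 : ℝ)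
  obtain ⟨V₀, hV₀⟩ := exists_smo h.degQ (fun c hc => (h' c hc).degQ) hQ (ρ₀ ^ 2 : ℝ)
  obtain ⟨rat₀, -⟩ := m₁ δ₁ ρ₀ _ W₀ V₀ le_rfl r₀ e₀
    (by rw [Complex.norm_real, Real.norm_of_nonneg (sq_nonneg _)]) sP₀ sQ₀ hW₀ hV₀
  obtain ⟨δ₂, p₂, cl⟩ := close_two hΩ (isRat_reflect hΩ rat₀) hd he
  rw [pev_reflect_zero, pev_reflect_zero, hW₀.top, hV₀.top] at cl
  set η := min (min δ₁ (δ₂ / 3)) 1 with hη
  have pη : 0 < η := by positivity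
  have l₁ : η ≤ δ₁ := (min_le_left _ _).trans (min_le_left _ _)
  have l₂ : η ≤ δ₂ / 3 := (min_le_left _ _).trans (min_le_right _ _)
  have l₃ : η ≤ 1 := min_le_right _ _
  set δ := η / (20 * ((((a + b : ℕ) : ℝ) + 1) * ((a + b : ℕ) + 2))) with hδ
  have pδ : 0 < δ := by positivity
  obtain ⟨n₁, n₂, a₃, a₄⟩ := Clo.num (Nat.le_add_right a b) pη l₃ hδ
  obtain ⟨-, -, b₃, b₄⟩ := Clo.num (Nat.le_add_left b a) pη l₃ hδ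
  obtain ⟨ρ', r', sP', sQ'⟩ := sml δ pδ
  refine ⟨δ, pδ, ρ', r',
    toP (ptop (fun i => reflect (d + ∑ c ∈ Z, d' c) (W₀ i)) (d + ∑ c ∈ Z, d' c)),
    toP (ptop (fun i => reflect (e + ∑ c ∈ Z, e' c) (V₀ i)) (e + ∑ c ∈ Z, e' c)),
    fun ρ r hr f g w A B hf hg hm hw hA H => ?_⟩
  have sP := sP'.mono hr
  have sQ := sQ'.mono hr
  obtain ⟨ε₁, pε₁, hε₁⟩ := exists_pos_forall Z
    (fun c x => ∀ ζ ∈ sphere (0 : ℂ) 1, x ≤ ρ * ‖Complex.exp (A c ζ)‖)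
    (fun _ _ _ _ h1 h2 ζ hζ => h1.trans (h2 ζ hζ)) fun c hc => by
      obtain ⟨ζ, -, hζ⟩ := (isCompact_sphere (0 : ℂ) 1).exists_isMinOn
        (NormedSpace.sphere_nonempty.2 zero_le_one) (hA c hc).1.cexp.norm
      exact ⟨_, mul_pos r (norm_pos_iff.2 (Complex.exp_ne_zero (A c ζ))),
        fun x hx => mul_le_mul_of_nonneg_left (hζ hx) r.le⟩
  set ε := min (ρ ^ 2 / 2) ε₁ with hε
  have pε : 0 < ε := by positivity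
  have e₁ : 2 * ε ≤ ρ ^ 2 := by linarith [min_le_left (ρ ^ 2 / 2) ε₁]
  have e₂ : ∀ c ∈ Z, ∀ ζ ∈ sphere (0 : ℂ) 1, ε ≤ ρ * ‖Complex.exp (A c ζ)‖ := fun c hc ζ hζ =>
    (min_le_right _ _).trans (hε₁ c hc ζ hζ)
  have e₃ : ‖(ε : ℂ)‖ ≤ ρ ^ 2 := by
    rw [Complex.norm_real, Real.norm_of_nonneg pε.le]
    linarith
  have e₄ : ∀ ζ ∈ sphere (0 : ℂ) 1, ∀ c ∈ Z, w ζ ≠ c ∧ ‖ε / (w ζ - c)‖ ≤ ρ := fun ζ hζ c hc => by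
    rw [← sub_ne_zero, ← (hA c hc).2.2 ζ hζ, norm_div, Complex.norm_real,
      Real.norm_of_nonneg pε.le, div_le_iff₀ (norm_pos_iff.2 (Complex.exp_ne_zero _))]
    exact ⟨Complex.exp_ne_zero _, e₂ c hc ζ hζ⟩
  obtain ⟨c, hc, Hc⟩ := exists_cc r pε sP.1 hw hA e₁ e₂ fun ζ hζ c hc g1 g2 =>
    ((H ζ hζ).2 c hc g1 g2).1
  obtain ⟨W, hW⟩ := exists_smo h.degP (fun c hc => (h' c hc).degP) hP ε
  obtain ⟨V, hV⟩ := exists_smo h.degQ (fun c hc => (h' c hc).degQ) hQ ε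
  obtain ⟨rat, mar⟩ := m₁ δ ρ ε W V (n₂.trans l₁) r (Complex.ofReal_ne_zero.2 pε.ne') e₃ sP sQ hW hV
  have nW : ∀ w, pev W w ≠ 0 := fun w => (hΩ.ne _ _ (rat.mem w)).1
  have nV : ∀ w, pev V w ≠ 0 := fun w => (hΩ.ne _ _ (rat.mem w)).2
  have tW : ∀ ζ ∈ sphere (0 : ℂ) 1, ∀ w,
      Near η (pev W w) (Clo.tw (pev W (c ζ)) (f ζ) (pev W w)) :=
    fun ζ hζ w => (Clo.near_tw (hW.near_cc sP hP n₁ r e₃ (e₄ ζ hζ) (Hc ζ hζ)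
      (fun h => ((H ζ hζ).1 h).1) fun c hc g1 g2 => ((H ζ hζ).2 c hc g1 g2).2.1) a₃ (nW w)).mono a₄
  have tV : ∀ ζ ∈ sphere (0 : ℂ) 1, ∀ w,
      Near η (pev V w) (Clo.tw (pev V (c ζ)) (g ζ) (pev V w)) :=
    fun ζ hζ w => (Clo.near_tw (hV.near_cc sQ hQ n₁ r e₃ (e₄ ζ hζ) (Hc ζ hζ)
      (fun h => ((H ζ hζ).1 h).2) fun c hc g1 g2 => ((H ζ hζ).2 c hc g1 g2).2.2) b₃ (nV w)).mono b₄
  obtain ⟨R₁, hR₁⟩ := pev_near_top W _ rat.degP (hΩ.ne _ _ rat.top).1 η pη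
  obtain ⟨R₂, hR₂⟩ := pev_near_top V _ rat.degQ (hΩ.ne _ _ rat.top).2 η pη
  obtain ⟨K, hK⟩ := (isCompact_sphere (0 : ℂ) 1).exists_bound_of_continuousOn hc
  set ρ₁ : ℝ := |R₁| + |R₂| + |K| with hρ₁
  have big : ∀ ζ ∈ sphere (0 : ℂ) 1, ∀ w ∈ sphere (0 : ℂ) 1, |R₁| + |R₂| ≤ ‖c ζ + ρ₁ * w‖ := by
    intro ζ hζ w hw
    have h1 := norm_le_norm_sub_add (ρ₁ * w) (-c ζ)
    rw [norm_mul, mem_sphere_zero_iff_norm.1 hw, mul_one, Complex.norm_real,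
      Real.norm_of_nonneg (by positivity), norm_neg, sub_neg_eq_add, add_comm _ (c ζ)] at h1
    linarith [hK ζ hζ, le_abs_self K]
  have c₁ : ContinuousOn (fun z : ℂ × ℂ => c z.1) (sphere 0 1 ×ˢ Set.univ) :=
    hc.comp continuousOn_fst fun z hz => hz.1
  have c₂ : ContinuousOn (fun z : ℂ × ℂ => c z.1 + ρ₁ * z.2) (sphere 0 1 ×ˢ Set.univ) :=
    c₁.add (continuousOn_const.mul continuousOn_snd)
  have d₁ : ∀ ζ, Differentiable ℂ fun w : ℂ => c ζ + ρ₁ * w := fun ζ => by fun_prop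
  obtain ⟨N, cc, h1, h2, h3, h4⟩ := rh' (fun z => (f z, g z)) (hf.prod hg)
    (fun ζ w => (Clo.tw (pev W (c ζ)) (f ζ) (pev W (c ζ + ρ₁ * w)),
      Clo.tw (pev V (c ζ)) (g ζ) (pev V (c ζ + ρ₁ * w))))
    ((Clo.continuousOn_tw ((continuous_pev W).comp_continuousOn c₁)
      (hf.continuousOn.comp continuousOn_fst fun z hz => sphere_subset_closedBall hz.1)
      ((continuous_pev W).comp_continuousOn c₂) fun _ _ => nW _).prodMk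
      (Clo.continuousOn_tw ((continuous_pev V).comp_continuousOn c₁)
      (hg.continuousOn.comp continuousOn_fst fun z hz => sphere_subset_closedBall hz.1)
      ((continuous_pev V).comp_continuousOn c₂) fun _ _ => nV _))
    (fun ζ _ => (Clo.differentiable_tw _ _ ((Clo.differentiable_pev W).comp (d₁ ζ))).prodMk
      (Clo.differentiable_tw _ _ ((Clo.differentiable_pev V).comp (d₁ ζ))))
    (fun ζ _ => by rw [mul_zero, add_zero, Clo.tw_self (nW _), Clo.tw_self (nV _)])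
    Ω ({u | Near δ₂ (ptop P d) u} ×ˢ {v | Near δ₂ (ptop Q e) v}) hΩ.isOpen
    ((isOpen_near _ _).prod (isOpen_near _ _)) hm
    (fun ζ hζ w _ => mar _ _ _ ((tW ζ hζ _).mono l₁) ((tV ζ hζ _).mono l₁))
    (fun ζ hζ w hw => by
      have h5 := big ζ hζ w hw
      have h6 := Clo.trans' (hR₁ _ (by linarith [le_abs_self R₁, abs_nonneg R₂]))
        (tW ζ hζ (c ζ + ρ₁ * w)) l₃
      have h7 := Clo.trans' (hR₂ _ (by linarith [le_abs_self R₂, abs_nonneg R₁]))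
        (tV ζ hζ (c ζ + ρ₁ * w)) l₃
      rw [hW.top] at h6
      rw [hV.top] at h7
      exact ⟨h6.mono (by linarith), h7.mono (by linarith)⟩)
  obtain ⟨F₀, G₀, h5⟩ := exists_tuple N cc
  obtain ⟨F, D, G, E, k1, k2, k3, k4, k5, k6, k7⟩ := cl F₀ G₀
    (fun z hz => (h5 z).symm ▸ h3 z hz) fun ζ hζ => by
      have := h4 ζ hζ
      rw [← h5] at this
      exact this
  have h6 := h5 0
  rw [Finset.sum_eq_single_of_mem 0 (Finset.mem_range.2 h2) fun k _ hk => by simp [hk], pow_zero,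
    one_smul, h1, Prod.mk.injEq] at h6
  exact ⟨F, D, G, E, k1, k2, k3, h6.1 ▸ k4, h6.2 ▸ k5, k6, k7⟩

end Pool.Agent.Lib.MP_879098_ag.Sm
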