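import Pool.Agent.Lib.MP_879098_ag.SIrred
import Pool.Agent.Lib.MP_879098_ag.Main
import Pool.Agent.Lib.MP_879098_ag.SSmooth
import Pool.Agent.Lib.MP_879098_ag.SStar
import Pool.Agent.Lib.MP_879098_ag.SDisc
import Pool.Agent.Lib.MP_879098_ag.SRigid
import Pool.Agent.Lib.MP_879098_ag.SAhl
import Pool.Agent.Lib.MP_879098_ag.SKob

/-! The smooth surface is strongly approximately elliptically connected. -/

namespace Pool.Agent.Lib.MP_879098_ag.Sm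

open Filter Topology Polynomial Metric

/-- a polynomial parametrisation of the image of a rational curve -/
structure Curve {n a : ℕ} (j : PP n → PP a) (γ : ℂ → VV n) (p : VV n) (P : Fin (a + 1) → ℂ[X])
    (d : ℕ) : Prop where
  deg : ∀ i, (P i).natDegree ≤ d
  rep : ∀ w, Rep (pev P w) (j (toP (γ w)))
  top : Rep (ptop P d) (j (toP p))

theorem lift_poly {n a : ℕ} {X : Set (PP n)} {j : PP n → PP a} (hj : IsMorphism X j)
    {γ : ℂ → VV n} (hγ : ∃ Φ : Fin (n + 1) → ℂ[X], ∀ w, pev Φ w = γ w)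
    (h : ∀ w, γ w ≠ 0 ∧ toP (γ w) ∈ X) {Ψ : ℂ → VV n} (hΨ : ContinuousAt Ψ 0)
    (h1 : Ψ 0 ≠ 0 ∧ toP (Ψ 0) ∈ X) (h2 : ∀ u, u ≠ 0 → Rep (Ψ u) (toP (γ u⁻¹))) :
    ∃ P d, Curve j γ (Ψ 0) P d := by
  classical
  obtain ⟨Φ, hΦ'⟩ := hγ
  have hPa : ∀ {a : ℕ} (P : Fin (a + 1) → ℂ[X]) (w : ℂ), AnalyticAt ℂ (pev P) w := fun P w =>
    AnalyticAt.pi fun i => AnalyticOnNhd.eval_polynomial (P i) w (Set.mem_univ _)
  have hΦ : ∀ w : ℂ, AnalyticAt ℂ γ w := fun w => funext hΦ' ▸ hPa Φ w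
  obtain ⟨p, hp⟩ := hj.local (h 0).2 (rep_toP (h 0).1)
  have hp' : ∀ᶠ w in 𝓝 (0 : ℂ), Rep (Morph.mev p (γ w)) (j (toP (γ w))) := by
    filter_upwards [(hΦ 0).continuousAt.eventually hp] with w e1
    exact e1 _ (h w).2 (rep_toP (h w).1)
  obtain ⟨Q, hQ⟩ : ∃ Q : Fin (a + 1) → ℂ[X], ∀ w, pev Q w = Morph.mev p (γ w) := by
    refine ⟨fun i => MvPolynomial.aeval Φ (p i), fun w => funext fun i => ?_⟩
    simp only [pev, Morph.mev]
    rw [← coe_aeval_eq_eval, ← AlgHom.comp_apply, MvPolynomial.comp_aeval,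
      MvPolynomial.aeval_eq_eval, ← hΦ']
    rfl
  obtain ⟨P, hP, hg⟩ := Finset.extract_gcd (s := Finset.univ) Q Finset.univ_nonempty
  have hP0 : ∀ w, pev P w ≠ 0 := by
    intro w c
    have : Polynomial.X - C w ∣ Finset.univ.gcd P :=
      Finset.dvd_gcd fun i _ => dvd_iff_isRoot.2 (congrFun c i)
    rw [hg] at this
    exact not_isUnit_X_sub_C w (isUnit_of_dvd_one this)
  have hR : ∀ w, Rep (pev P w) (j (toP (γ w))) := by
    refine fun w => hj.ident isOpen_univ isPreconnected_univ (fun w _ => hΦ w)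
      (fun w _ => hPa P w) (fun w _ => h w) (fun w _ => hP0 w) (Set.mem_univ 0)
      (Eventually.frequently ?_) w (Set.mem_univ _)
    filter_upwards [hp'.filter_mono nhdsWithin_le_nhds] with z e2
    have hs : Morph.mev p (γ z) = (Finset.univ.gcd Q).eval z • pev P z := by
      rw [← hQ]
      ext i
      simp only [pev, Pi.smul_apply, smul_eq_mul]
      conv_lhs => rw [hP i (Finset.mem_univ _), eval_mul]
    have hs0 : (Finset.univ.gcd Q).eval z ≠ 0 := fun c => e2.ne (by rw [hs, c, zero_smul])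
    have := e2.smul (inv_ne_zero hs0)
    rwa [hs, smul_smul, inv_mul_cancel₀ hs0, one_smul] at this
  obtain ⟨i₀, hi⟩ := Finite.exists_max fun i => (P i).degree
  have hd : ∀ i, (P i).natDegree ≤ (P i₀).natDegree := fun i => natDegree_le_natDegree (hi i)
  have hi0 : P i₀ ≠ 0 := by
    intro c
    refine hP0 0 (funext fun i => ?_)
    have := hi i
    rw [c, degree_zero, le_bot_iff, degree_eq_bot] at this
    simp [pev, this]
  set d := (P i₀).natDegree with hdd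
  have ht : ptop P d ≠ 0 := fun c => leadingCoeff_ne_zero.2 hi0 (congrFun c i₀)
  refine ⟨P, d, hd, hR, ?_⟩
  have e0 : pev (fun i => reflect d (P i)) 0 = ptop P d := by
    ext i
    simp [pev, ptop, ← coeff_zero_eq_eval_zero]
  rw [← e0]
  refine hj.limit hΨ (hPa _ 0).continuousAt h1 (by rwa [e0]) ?_
  refine Frequently.filter_mono (Eventually.frequently ?_) (nhdsWithin_le_nhds (s := {0}ᶜ))
  filter_upwards [self_mem_nhdsWithin] with u hu
  have hu0 : u ≠ 0 := hu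
  have r1 := h2 u hu0
  have e2 : pev (fun i => reflect d (P i)) u = u ^ d • pev P u⁻¹ := by
    ext i
    let _ : Invertible u⁻¹ := invertibleOfNonzero (inv_ne_zero hu0)
    have := eval₂_reflect_mul_pow (RingHom.id ℂ) u⁻¹ d (P i) (hd i)
    simp only [invOf_eq_inv, inv_inv, eval₂_id] at this
    simp only [pev, Pi.smul_apply, smul_eq_mul, ← this]
    rw [mul_left_comm, ← mul_pow, mul_inv_cancel₀ hu0, one_pow, mul_one]
  rw [r1.toP_eq, e2]
  exact ⟨⟨r1.ne, (h u⁻¹).2⟩, (hR u⁻¹).smul (pow_ne_zero _ hu0)⟩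

theorem Curve.smul {n a : ℕ} {j : PP n → PP a} {γ : ℂ → VV n} {p : VV n}
    {P : Fin (a + 1) → ℂ[X]} {d : ℕ} (h : Curve j γ p P d) {s : ℂ} (hs : s ≠ 0) :
    Curve j γ p (fun i => C s * P i) d ∧ ∀ w, pev (fun i => C s * P i) w = s • pev P w := by
  have e1 : ∀ w, pev (fun i => C s * P i) w = s • pev P w := fun w => by ext i; simp [pev]
  have e2 : ptop (fun i => C s * P i) d = s • ptop P d := by ext i; simp [ptop]
  exact ⟨⟨fun i => (natDegree_C_mul_le _ _).trans (h.deg i), fun w => e1 w ▸ (h.rep w).smul hs,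
    e2 ▸ h.top.smul hs⟩, e1⟩

theorem exists_cen {k a : ℕ} (hk : 0 < k) {j : PP 63 → PP a} (hj : IsMorphism (YY k) j) :
    ∃ P d, Curve j cen (cenI 0) P d := by
  refine lift_poly hj ?_ (cen_mem hk) (continuous_seg.comp (by fun_prop)).continuousAt
    (cenI_mem k) fun u hu => rep_cenI hu
  obtain ⟨Φ, h⟩ := exists_segP ![![1, X], ![1, X], ![1, X ^ 2], ![1, 0], ![1, 0], ![1, 0]]
  refine ⟨Φ, fun w => (h w).trans (congrArg seg ?_)⟩
  ext i a
  fin_cases i <;> fin_cases a <;> simp [pt]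

theorem exists_leaf {k a : ℕ} (hk : 0 < k) {j : PP 63 → PP a} (hj : IsMorphism (YY k) j) {c : ℂ}
    (hc : c ∈ ZZ k) : ∃ P d, Curve j (leaf k c) (leafI k c 0) P d := by
  refine lift_poly hj ?_ (leaf_mem hk hc) (continuous_seg.comp (by fun_prop)).continuousAt
    (leafI_mem hk hc) fun u hu => rep_leafI hk hc hu
  obtain ⟨Φ, h⟩ := exists_segP ![![1, C c], ![1, C c], ![1, C (c ^ 2)], ![1, C (al k c) * X],
    ![1, C (be k c) * X], ![1, C (al k c * be k c) * X ^ 2]]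
  refine ⟨Φ, fun w => (h w).trans (congrArg seg ?_)⟩
  ext i a
  fin_cases i <;> fin_cases a <;> simp [pt]

/-- parametrisations of the images of the central curve and of the leaves -/
structure Tree (k : ℕ) {a : ℕ} (j : PP 63 → PP a) (P : Fin (a + 1) → ℂ[X]) (d : ℕ)
    (P' : ℂ → Fin (a + 1) → ℂ[X]) (d' : ℂ → ℕ) : Prop where
  cen : Curve j cen (cenI 0) P d
  leaf : ∀ c ∈ ZZ k, Curve j (leaf k c) (leafI k c 0) (P' c) (d' c)
  zero : ∀ c ∈ ZZ k, pev P c = pev (P' c) 0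

theorem exists_tree {k a : ℕ} (hk : 0 < k) {j : PP 63 → PP a} (hj : IsMorphism (YY k) j) :
    ∃ P d P' d', Tree k j P d P' d' := by
  obtain ⟨P, d, h⟩ := exists_cen hk hj
  have : ∀ c, ∃ P' d', c ∈ ZZ k →
      Curve j (leaf k c) (leafI k c 0) P' d' ∧ pev P c = pev P' 0 := by
    intro c
    by_cases hc : c ∈ ZZ k
    swap
    · exact ⟨P, d, fun g => absurd g hc⟩
    obtain ⟨P', d', h'⟩ := exists_leaf hk hj hc
    obtain ⟨s, s0, e⟩ := (h'.rep 0).exists_smul (leaf_zero k c ▸ h.rep c)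
    exact ⟨_, d', fun _ => ⟨(h'.smul s0).1, by rw [(h'.smul s0).2, e]⟩⟩
  choose P' d' h' using this
  exact ⟨P, d, P', d', h, fun c hc => (h' c hc).1, fun c hc => (h' c hc).2⟩

theorem Tree.pos {k a : ℕ} (hk : 0 < k) {j : PP 63 → PP a} (hj : IsMorphism (YY k) j)
    {P : Fin (a + 1) → ℂ[X]} {d : ℕ} {P' : ℂ → Fin (a + 1) → ℂ[X]} {d' : ℂ → ℕ}
    (L : Tree k j P d P' d') (h : ¬ ∃ c, ∀ x ∈ YY k, j x = c) : 1 ≤ d + ∑ c ∈ ZZ k, d' c := by
  by_contra c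
  obtain rfl : d = 0 := by omega
  have c' : ∀ c ∈ ZZ k, d' c = 0 := Finset.sum_eq_zero_iff.1 (by omega)
  refine h ⟨toP (ptop P 0), rigid2_of k hk (gen_dense k hk) hj _ (fun w => ?_) fun c hc n => ?_⟩
  · rw [← (L.cen.rep w).toP_eq, pev_of_zero L.cen.deg]
  · have := fun i => ((L.leaf c hc).deg i).trans (c' c hc).le
    rw [← ((L.leaf c hc).rep n).toP_eq, pev_of_zero this, ← pev_of_zero this 0, ← L.zero c hc,
      pev_of_zero L.cen.deg]

theorem connect {m a b : ℕ} (hm : 0 < m) {j : PP 63 → PP a} {k : PP 63 → PP b}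
    (hj : IsMorphism (YY m) j) (hk : IsMorphism (YY m) k) {Ω : Set (VV a × VV b)}
    (hΩ : IsCone Ω) (h : ∀ x ∈ YY m, ∀ u v, Rep u (j x) → Rep v (k x) → (u, v) ∈ Ω)
    (hj' : ¬ ∃ c, ∀ x ∈ YY m, j x = c) (hk' : ¬ ∃ c, ∀ x ∈ YY m, k x = c) :
    ∃ (p₀ : PP a) (q₀ : PP b), ∀ x ∈ YY m,
      ∃ (F : Fin (a + 1) → ℂ[X]) (D : ℕ) (G : Fin (b + 1) → ℂ[X]) (E : ℕ),
        IsRat Ω F D G E ∧ 1 ≤ D ∧ 1 ≤ E ∧ toP (pev F 0) = j x ∧ toP (pev G 0) = k x ∧
        toP (ptop F D) = p₀ ∧ toP (ptop G E) = q₀ := by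
  obtain ⟨P, d, P', d', L⟩ := exists_tree hm hj
  obtain ⟨Q, e, Q', e', M⟩ := exists_tree hm hk
  obtain ⟨δ, d0, ρ₀, r0, p₀, q₀, hc⟩ := star hΩ
    ⟨L.cen.deg, M.cen.deg, fun w => h _ (cen_mem hm w).2 _ _ (L.cen.rep w) (M.cen.rep w),
      h _ (cenI_mem m).2 _ _ L.cen.top M.cen.top⟩ (ZZ m)
    (fun c hc => ⟨(L.leaf c hc).deg, (M.leaf c hc).deg, fun w => h _ (leaf_mem hm hc w).2 _ _
      ((L.leaf c hc).rep w) ((M.leaf c hc).rep w),
      h _ (leafI_mem hm hc).2 _ _ (L.leaf c hc).top (M.leaf c hc).top⟩) L.zero M.zero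
    (L.pos hm hj hj') (M.pos hm hk hk')
  refine ⟨p₀, q₀, fun x hx => ?_⟩
  obtain ⟨μ, m0, hμ⟩ := hj.margin (isZClosed_YY m) hk hΩ h
  obtain ⟨ε, e0, e1, e2, e3⟩ : ∃ ε : ℝ, 0 < ε ∧ ε ≤ 1 / 2 ∧ 2 * ε ≤ μ ∧
      ε + 2 * ε + ε * (2 * ε) ≤ δ := by
    refine ⟨min (1 / 2) (min (μ / 2) (δ / 4)), by positivity, min_le_left _ _, ?_, ?_⟩
    · linarith [(min_le_right (1 / 2) _).trans (min_le_left (μ / 2) (δ / 4))]
    · nlinarith [(min_le_right (1 / 2) _).trans (min_le_right (μ / 2) (δ / 4)),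
        min_le_left (1 / 2 : ℝ) (min (μ / 2) (δ / 4)),
        show 0 < min (1 / 2) (min (μ / 2) (δ / 4)) by positivity]
  obtain ⟨η₁, n1, u1⟩ := hj.unif (isZClosed_YY m) ε e0
  obtain ⟨η₂, n2, u2⟩ := hk.unif (isZClosed_YY m) ε e0
  obtain ⟨ρ₁, r1, hρ⟩ := near_star m hm (min η₁ η₂) (lt_min n1 n2)
  obtain ⟨l₀, m₀, l₀', m₀', hg, hn⟩ := gen_dense m hm x hx _ (lt_min n1 n2)
  obtain ⟨K, hK⟩ := exists_disc2 m hm hg
  obtain ⟨r, r2, hr⟩ := hρ (min ρ₀ ρ₁) (lt_min r0 r1) (min_le_right _ _) K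
  obtain ⟨l, n, l', n', w, b1, b2, b3, b4, b5, b6, b7, b8, b9, b10, b11⟩ := hK r r2
  have hΦ : AnalyticOnNhd ℂ (fun z => gpt (l z) (n z) (l' z) (n' z)) (closedBall 0 1) :=
    fun z hz => analyticAt_gpt (b1 z hz) (b2 z hz) (b3 z hz) (b4 z hz)
  have hX := fun z hz => (b10 z hz).1.mem
  have hA : ∀ c, ∃ A : ℂ → ℂ, c ∈ ZZ m → ContinuousOn A (sphere 0 1) ∧
      ∀ ζ ∈ sphere (0 : ℂ) 1, Complex.exp (A ζ) = w ζ - c := by
    intro c
    by_cases hc : c ∈ ZZ m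
    swap
    · exact ⟨w, fun g => absurd g hc⟩
    obtain ⟨A, a1, a2⟩ := exists_log_disc (f := fun z => w z - c)
      (fun z hz => (b5 z hz).sub analyticAt_const) fun z hz g => by
        obtain ⟨g1, g2⟩ := b10 z hz
        rw [sub_eq_zero.1 g] at g2
        have g3 := g1.ne
        rw [← g2, ← pow_mul] at g3
        rcases ZZ_cases hm hc with ⟨h1, -⟩ | ⟨h1, -⟩ | ⟨h1, -⟩
        · exact mul_ne_zero g1.l0 g1.m0 (by rw [← g2, h1, sq, mul_zero])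
        · exact g3.1 (by rw [h1, sub_self])
        · exact g3.2 (by rw [h1, add_neg_cancel])
    exact ⟨A, fun _ => ⟨a1.continuousOn.mono sphere_subset_closedBall,
      fun ζ hζ => a2 ζ (sphere_subset_closedBall hζ)⟩⟩
  have hB : ∀ c, ∃ B : ℂ → ℂ, ContinuousOn B (sphere 0 1) ∧
      ∀ ζ ∈ sphere (0 : ℂ) 1, Complex.exp (B ζ) = par m c (l' ζ) (n' ζ) := by
    intro c
    obtain ⟨B, a1, a2⟩ := exists_log_disc (f := fun z => par m c (l' z) (n' z))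
      (by unfold par; split_ifs; exacts [b4, b3]) fun z hz => by
        unfold par; split_ifs; exacts [(b10 z hz).1.m0', (b10 z hz).1.l0']
    exact ⟨B, a1.continuousOn.mono sphere_subset_closedBall,
      fun ζ hζ => a2 ζ (sphere_subset_closedBall hζ)⟩
  choose A hA using hA
  choose B hB hB' using hB
  have key : ∀ {a : ℕ} {j : PP 63 → PP a} {η : ℝ}, IsMorphism (YY m) j → min η₁ η₂ ≤ η →
      (∀ x ∈ YY m, ∀ x' ∈ YY m, ∀ v v' u u', Rep v x → Rep v' x' → Near η v v' →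
        Rep u (j x) → Rep u' (j x') → Near ε u u') →
      ∃ h f : ℂ → VV a, AnalyticOnNhd ℂ f (closedBall 0 1) ∧ toP (f 0) = j x ∧
        (∀ z ∈ closedBall (0 : ℂ) 1, Near μ (h z) (f z) ∧
          Rep (h z) (j (toP (gpt (l z) (n z) (l' z) (n' z))))) ∧
        ∀ ζ ∈ sphere (0 : ℂ) 1, ∀ v u, v ≠ 0 ∧ toP v ∈ YY m → Rep u (j (toP v)) →
          Near (min η₁ η₂) v (gpt (l ζ) (n ζ) (l' ζ) (n' ζ)) → Near δ u (f ζ) := by
    intro a j η hj hη u
    obtain ⟨h, c1, c2⟩ := hj.lift_disc hΦ hX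
    obtain ⟨f, c3, c4, c5⟩ := exists_shift e1 c1 (fun z hz => (c2 z hz).ne)
      (u x hx _ (hX 0 (by simp)).2 _ _ _ _ (rep_rep x) (rep_toP (hX 0 (by simp)).1)
        (by rw [b6, b7, b8, b9]; exact hn.mono hη) (rep_rep _) (c2 0 (by simp)))
    refine ⟨h, f, c3, c4.trans (rep_rep _).toP_eq, fun z hz => ⟨(c5 z hz).mono e2, c2 z hz⟩,
      fun ζ hζ v y hv hy g => ?_⟩
    have hz := sphere_subset_closedBall hζ
    exact ((u _ hv.2 _ (hX ζ hz).2 _ _ _ _ (rep_toP hv.1) (rep_toP (hX ζ hz).1) (g.mono hη) hy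
      (c2 ζ hz)).trans (c5 ζ hz)).mono e3
  obtain ⟨h₁, f, c1, c2, c3, c4⟩ := key hj (min_le_left _ _) u1
  obtain ⟨h₂, g, g1, g2, g3, g4⟩ := key hk (min_le_right _ _) u2
  obtain ⟨F, D, G, E, r1, r2, r3, r4, r5, r6, r7⟩ := hc _ (lt_min r0 r1) (min_le_left _ _) f g w A B
    c1 g1 (fun z hz => hμ _ (hX z hz).2 _ _ _ _ (c3 z hz).2 (g3 z hz).2 (c3 z hz).1 (g3 z hz).1)
    (b5.continuousOn.mono sphere_subset_closedBall)
    (fun c hc => ⟨(hA c hc).1, hB c, (hA c hc).2⟩) fun ζ hζ => by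
      have hz := sphere_subset_closedBall hζ
      obtain ⟨t1, t2⟩ := hr _ _ _ _ _ (b10 ζ hz).1 (b10 ζ hz).2 (b11 ζ hζ)
      simp only [hB' _ ζ hζ]
      exact ⟨fun t => ⟨c4 ζ hζ _ _ (cen_mem hm _) (L.cen.rep _) (t1 t),
        g4 ζ hζ _ _ (cen_mem hm _) (M.cen.rep _) (t1 t)⟩, fun c hc t3 t4 => ⟨(t2 c hc t3 t4).1,
        c4 ζ hζ _ _ (leaf_mem hm hc _) ((L.leaf c hc).rep _) (t2 c hc t3 t4).2,
        g4 ζ hζ _ _ (leaf_mem hm hc _) ((M.leaf c hc).rep _) (t2 c hc t3 t4).2⟩⟩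
  exact ⟨F, D, G, E, r1, r2, r3, r4.trans c2, r5.trans g2, r6, r7⟩

theorem zero_mem_ZZ (k : ℕ) : (0 : ℂ) ∈ ZZ k := Finset.mem_insert_self _ _

theorem cen_ne_leaf {k : ℕ} (hk : 0 < k) (w : ℂ) : toP (cen w) ≠ toP (leaf k 0 1) := fun e => by
  have := seg_par (rep_toP (cen_mem hk w).1) (e ▸ rep_toP (leaf_mem hk (zero_mem_ZZ k) 1).1) 3
  simp [pt, al, zero_pow (show 2 * k ≠ 0 by omega)] at this

theorem cenI_ne_leaf {k : ℕ} (hk : 0 < k) : toP (cenI 0) ≠ toP (leaf k 0 1) := fun e => by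
  have := seg_par (rep_toP (cenI_mem k).1) (e ▸ rep_toP (leaf_mem hk (zero_mem_ZZ k) 1).1) 0
  simp [pt] at this

theorem two_le_of_inj {m a : ℕ} (hm : 0 < m) {j : PP 63 → PP a} (hj : IsMorphism (YY m) j)
    (hi : Set.InjOn j (YY m)) : 2 ≤ a := by
  obtain ⟨P, d, L⟩ := exists_cen hm hj
  have hy := (leaf_mem hm (zero_mem_ZZ m) 1).2
  set y := (j (toP (leaf m 0 1))).rep
  have ne : ∀ {u : VV a} {x : PP 63}, x ∈ YY m → x ≠ toP (leaf m 0 1) → Rep u (j x) →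
      ¬ ∀ i k, u i * y k = u k * y i := fun hx h hu g =>
    h (hi hx hy ((Morph.of_minors (rep_rep _) hu.ne g).eq hu).symm)
  by_contra c
  obtain rfl | rfl : a = 0 ∨ a = 1 := by omega
  · exact ne (cenI_mem m).2 (cenI_ne_leaf hm) L.top fun i k => by
      rw [Subsingleton.elim (α := Fin 1) i k]
  have d0 : d ≠ 0 := by
    rintro rfl
    have e := hi (cen_mem hm 0).2 (cenI_mem m).2 ((pev_of_zero L.deg 0 ▸ L.rep 0).eq L.top)
    have := seg_par (rep_toP (cen_mem hm 0).1) (e ▸ rep_toP (cenI_mem m).1) 0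
    simp [pt] at this
  have two : ∀ u v : VV 1, u 0 * v 1 = u 1 * v 0 → ∀ i k, u i * v k = u k * v i := by
    intro u v h i k
    fin_cases i <;> fin_cases k
    exacts [rfl, h, h.symm, rfl]
  by_cases g : (P 0 * C (y 1) - P 1 * C (y 0)).degree = 0
  · refine ne (cenI_mem m).2 (cenI_ne_leaf hm) L.top (two _ _ ?_)
    have := coeff_eq_zero_of_degree_lt (n := d) (g.trans_lt (by exact_mod_cast Nat.pos_of_ne_zero d0))
    simpa [ptop, sub_eq_zero] using this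
  · obtain ⟨w, hw⟩ := IsAlgClosed.exists_root _ g
    refine ne (cen_mem hm w).2 (cen_ne_leaf hm w) (L.rep w) (two _ _ ?_)
    simpa [pev, sub_eq_zero] using hw

theorem through_of_not_const {m a b : ℕ} (hm : 0 < m) {j : PP 63 → PP a} {k : PP 63 → PP b}
    (hj : IsMorphism (YY m) j) (hk : IsMorphism (YY m) k)
    (hi : Set.InjOn (fun x => (j x, k x)) (YY m)) (hj' : ¬ ∃ c, ∀ x ∈ YY m, j x = c)
    {U : Set (PP a × PP b)} (hU : IsOpen (hat U)) (h : ∀ x ∈ YY m, (j x, k x) ∈ U) :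
    ∃ p, ∀ x ∈ YY m, ∃ C, IsElliptic C ∧ C ⊆ U ∧ (j x, k x) ∈ C ∧ p ∈ C := by
  by_cases hk' : ∃ c, ∀ x ∈ YY m, k x = c
  · obtain ⟨c, hc⟩ := hk'
    have hΩ : IsCone {p : VV a × VV a | (p.1, c.rep) ∈ hat U ∧ p.2 ≠ 0} :=
      ⟨(hU.preimage (by fun_prop)).inter (isOpen_ne.preimage continuous_snd),
        fun u v g => ⟨((isCone_hat hU).ne _ _ g.1).1, g.2⟩, fun u v s t hs ht g =>
          ⟨by simpa using (isCone_hat hU).smul _ _ s 1 hs one_ne_zero g.1, smul_ne_zero ht g.2⟩⟩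
    obtain ⟨p₀, q₀, H⟩ := connect hm hj hj hΩ
      (fun x hx u v hu hv => ⟨⟨_, h x hx, hu, hc x hx ▸ rep_rep c⟩, hv.ne⟩) hj' hj'
    refine ⟨(p₀, c), fun x hx => ?_⟩
    obtain ⟨F, D, G, E, r1, r2, -, r4, -, r6, -⟩ := H x hx
    have e1 : ∀ w, pev (fun i => C (c.rep i)) w = c.rep := fun w => by ext i; simp [pev]
    have e2 : ptop (fun i => C (c.rep i)) 0 = c.rep := by ext i; simp [ptop]
    have := exists_elliptic hU (Q := fun i => C (c.rep i)) (e := 0)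
      ⟨r1.degP, fun i => by simp, fun w => by rw [e1]; exact (r1.mem w).1,
        by rw [e2]; exact r1.top.1⟩ r2 (Or.inr (two_le_of_inj hm hj fun x hx y hy e =>
          hi hx hy (Prod.ext e ((hc x hx).trans (hc y hy).symm))))
    rwa [e1, e2, r4, r6, (rep_rep c).toP_eq,
      show (j x, c) = (j x, k x) from Prod.ext rfl (hc x hx).symm] at this
  · obtain ⟨p₀, q₀, H⟩ := connect hm hj hk (isCone_hat hU)
      (fun x hx u v hu hv => ⟨_, h x hx, hu, hv⟩) hj' hk'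
    refine ⟨(p₀, q₀), fun x hx => ?_⟩
    obtain ⟨F, D, G, E, r1, r2, r3, r4, r5, r6, r7⟩ := H x hx
    have := exists_elliptic hU r1 r2 (Or.inl r3)
    rwa [r4, r5, r6, r7] at this

theorem stronglyConnected_YY (m : ℕ) (hm : 0 < m) : StronglyConnected (YY m) := by
  intro a b j k hj hk hi U hU hY
  have h : ∀ x ∈ YY m, (j x, k x) ∈ U := fun x hx => hY ⟨x, hx, rfl⟩
  obtain ⟨p, key⟩ : ∃ p, ∀ x ∈ YY m, ∃ C, IsElliptic C ∧ C ⊆ U ∧ (j x, k x) ∈ C ∧ p ∈ C := by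
    by_cases hj' : ∃ c, ∀ x ∈ YY m, j x = c
    swap
    · exact through_of_not_const hm hj hk hi hj' hU h
    obtain ⟨c, hc⟩ := hj'
    have a1 := (cen_mem hm 0).2
    have a2 := (leaf_mem hm (zero_mem_ZZ m) 1).2
    obtain ⟨p, H⟩ := through_of_not_const hm hk hj
      (fun x hx y hy e => hi hx hy (congrArg Prod.swap e)) (by
        rintro ⟨c', hc'⟩
        exact cen_ne_leaf hm 0 (hi a1 a2 (Prod.ext ((hc _ a1).trans (hc _ a2).symm)
          ((hc' _ a1).trans (hc' _ a2).symm)))) (isOpen_hat_swap hU) h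
    refine ⟨p.swap, fun x hx => ?_⟩
    obtain ⟨C, h1, h2, h3, h4⟩ := H x hx
    exact ⟨_, h1.swap, by rintro _ ⟨p, hp, rfl⟩; exact h2 hp, ⟨_, h3, rfl⟩, ⟨_, h4, rfl⟩⟩
  rintro _ ⟨x, hx, rfl⟩ _ ⟨y, hy, rfl⟩
  obtain ⟨C, h1, h2, h3, h4⟩ := key y hy
  exact Relation.TransGen.tail (Relation.TransGen.single (key x hx)) ⟨C, h1, h2, h4, h3⟩

theorem main : ∃ (n : ℕ) (X : Set (PP n)), IsProjVariety X ∧ IsSmooth X ∧ StronglyConnected X ∧
    ∃ x ∈ X, ∃ y ∈ X, 0 < kobayashi X x y := by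
  obtain ⟨C, h⟩ := ahlfors2 (2 * 2000) le_rfl
  exact ⟨63, YY 2000, isProjVariety_YY _ (by norm_num), isSmooth_YY _ (by norm_num),
    stronglyConnected_YY _ (by norm_num), kob2 2000 (by norm_num) C h⟩

end Pool.Agent.Lib.MP_879098_ag.Sm
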