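import Pool.Agent.Lib.MP_879098_ag.QTop
import Pool.Agent.Lib.MP_879098_ag.QEll
import Pool.Agent.Lib.MP_879098_ag.QPoint
import Pool.Agent.Lib.MP_879098_ag.QBig
import Pool.Agent.Lib.MP_879098_ag.QGeo
import Pool.Agent.Lib.MP_879098_ag.SMain

/-! The surface is cohomologically approximately elliptically connected. -/

namespace Pool.Agent.Lib.MP_879098_ag.Q2

open Polynomial Filter Topology Metric Morph Sm

/-- the vectors that stay in `N` under all linear maps close to the identity -/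
def shc {n : ℕ} (η : ℝ) (N : Set (VV n)) : Set (VV n) :=
  {u | ∀ A : VV n →L[ℂ] VV n, ‖A - 1‖ ≤ η → A u ∈ N}

theorem shc_subset {n : ℕ} {η : ℝ} (hη : 0 ≤ η) (N : Set (VV n)) : shc η N ⊆ N := fun u h => by
  simpa using h 1 (by simpa using hη)

theorem OC.shc {n : ℕ} {N : Set (VV n)} (h : OC N) {η : ℝ} (hη : 0 ≤ η) : OC (shc η N) := by
  refine ⟨isOpen_iff_mem_nhds.2 fun p hp => ?_, fun u m => h.ne u (shc_subset hη N m),
    fun u m a ha A hA => by simpa using h.smul _ (m A hA) a ha⟩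
  have := (isCompact_closedBall (1 : VV n →L[ℂ] VV n) η).eventually_forall_of_forall_eventually
    (x₀ := p) (P := fun q A => A q ∈ N) fun A hA =>
      (show ContinuousAt (fun z : VV n × (VV n →L[ℂ] VV n) => z.2 z.1) (p, A) by
        fun_prop).eventually_mem (h.isOpen.mem_nhds (hp A (mem_closedBall_iff_norm.1 hA)))
  filter_upwards [this] with q hq A hA using hq A (mem_closedBall_iff_norm.2 hA)

theorem norm_apply_sub {n : ℕ} {A : VV n →L[ℂ] VV n} {η : ℝ} (hA : ‖A - 1‖ ≤ η) (u : VV n) :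
    ‖A u - u‖ ≤ η * ‖u‖ := by
  simpa using (A - 1).le_of_opNorm_le hA u

theorem inj_of_norm {n : ℕ} {A : VV n →L[ℂ] VV n} {η : ℝ} (hA : ‖A - 1‖ ≤ η) (h1 : η < 1) :
    Function.Injective A := (injective_iff_map_eq_zero A).2 fun u hu => by
  have := norm_apply_sub hA u
  rw [hu, zero_sub, norm_neg] at this
  by_contra c
  nlinarith [norm_pos_iff.2 c]

theorem norm_seg_sub {n : ℕ} {A A' : VV n →L[ℂ] VV n} {η t : ℝ} (hA : ‖A - 1‖ ≤ η)
    (hA' : ‖A' - 1‖ ≤ η) (ht : t ∈ I1) : ‖((1 - t) • A + t • A') - 1‖ ≤ η :=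
  mem_closedBall_iff_norm.1 (convex_closedBall (1 : VV n →L[ℂ] VV n) η
    (mem_closedBall_iff_norm.2 hA) (mem_closedBall_iff_norm.2 hA') (sub_nonneg.2 ht.2) ht.1
    (by ring))

theorem exists_net {k : ℕ} (hk : 0 < k) {δ : ℝ} (hδ : 0 < δ) (h1 : δ ≤ 1) :
    ∃ t : Set (VV 63), t.Finite ∧ (∀ g ∈ t, ∃ l m l' m', Gen k l m l' m' ∧ g = gpt l m l' m') ∧
      ∀ x ∈ YY k, ∃ g ∈ t, Near δ g x.rep := by
  obtain ⟨t, h2, h3, h4⟩ := (isCompact_cone (isZClosed_YY k)).elim_finite_subcover_image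
    (b := {g | ∃ l m l' m', Gen k l m l' m' ∧ g = gpt l m l' m'}) (c := fun g => {v | Near δ g v})
    (fun g _ => isOpen_near δ g) (by
      rintro u ⟨⟨x, hx, hu⟩, -⟩
      obtain ⟨l, m, l', m', g1, g2⟩ := gen_dense k hk x hx (δ / 2) (by positivity)
      obtain ⟨s, hs, rfl⟩ := (rep_rep x).exists_smul hu
      refine Set.mem_biUnion (x := gpt l m l' m') ⟨l, m, l', m', g1, rfl⟩ ?_
      have := (g2.symm (by linarith)).smul_right hs
      rwa [mul_div_cancel₀ _ two_ne_zero] at this)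
  refine ⟨t, h3, h2, fun x hx => ?_⟩
  obtain ⟨c, c0, -, c1⟩ := exists_unit x.rep_nonzero
  obtain ⟨g, g1, g2⟩ := Set.mem_iUnion₂.1
    (h4 ⟨⟨x, hx, (rep_rep x).smul c0⟩, mem_sphere_zero_iff_norm.2 c1⟩)
  refine ⟨g, g1, ?_⟩
  have := Near.smul_right g2 (inv_ne_zero c0)
  rwa [inv_smul_smul₀ c0] at this

theorem exists_move {n : ℕ} {δ : ℝ} (h1 : δ ≤ 1 / 2) {g m : VV n} {x : PP n}
    (h : Near δ g x.rep) (h' : Near δ g m) :
    ∃ A : VV n →L[ℂ] VV n, ‖A - 1‖ ≤ 4 * δ ∧ Rep (A m) x := by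
  have d0 := h.pos
  obtain ⟨κ, k0, hκ⟩ := (h'.symm h1).trans h
  have m0 : κ • m ≠ 0 := smul_ne_zero k0 (h'.ne' (by linarith))
  obtain ⟨A, a1, a2⟩ := exists_clm (v := x.rep) m0
  refine ⟨A, a2.trans ?_, ?_⟩
  · rw [div_le_iff₀ (norm_pos_iff.2 m0)]
    refine hκ.le.trans (mul_le_mul_of_nonneg_right (by nlinarith) (norm_nonneg _))
  · have := (rep_rep x).smul (inv_ne_zero k0)
    rwa [← a1, map_smul, inv_smul_smul₀ k0] at this

theorem rep_cone {n : ℕ} {U : Set (PP n)} {u : VV n} {x : PP n} (h : u ∈ cone U) (hx : Rep u x) :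
    x ∈ U := by
  obtain ⟨y, hy, e⟩ := h
  rwa [hx.eq e]

theorem pair_ne {v : VV 1} (h : v ≠ 0) : (v 0, v 1) ≠ 0 := fun e => h (by
  rw [Prod.mk_eq_zero] at e
  ext i
  fin_cases i
  exacts [e.1, e.2])

theorem cohConn_YY {k : ℕ} (hk : 2 ≤ k) : CohConn (YY k) := by
  classical
  have k0 : 0 < k := by omega
  obtain ⟨e, hG⟩ := geo k0
  obtain ⟨G, G1, G2, G3⟩ := zero_set k0
  have hs := isSmooth_YY k hk
  have hc := isZClosed_YY k
  let σ := (Fintype.equivFin (II k)).symm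
  have hR : ∀ {N : Set (VV 63)}, OC N → cone (YY k) ⊆ N → ∀ i x, x ≠ 0 →
      hom (RR k i) (dd k i) x ∈ N := fun hN h i x hx =>
    (hG.tree.cur (Ω := {p | p.1 ∈ _ ∧ I2 p.1 p.2}) (fun p m => ⟨h (tan_mem m.1), m.2⟩) i).hom_mem hN
      (fun _ m => m.1) hx
  have hR0 : ∀ i x, x ≠ 0 → hom (RR k i) (dd k i) x ≠ 0 :=
    hR (N := {0}ᶜ) ⟨isOpen_compl_singleton, fun _ h => h, fun _ h _ ha => smul_ne_zero ha h⟩
      fun _ h => cone_ne h
  refine ⟨2, _, G, fun i => nu (RR k (σ i)) (dd k (σ i)), two_pos, G1, G2, ?_,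
    fun i => ⟨isMorphism_nu (hR0 _), injective_nu k0 _⟩, fun U T hU hXU hT a ha => ?_⟩
  · rw [G3]
    exact (σ.surjective.iUnion_comp fun i => Set.range (nu (RR k i) (dd k i))).symm
  have hN0 := oc_cone hU
  have hY0 : cone (YY k) ⊆ cone U := fun u ⟨x, hx, hu⟩ => ⟨x, hXU hx, hu⟩
  have hΩ0 := (sat_flags hT.1).inter hN0.sat
  obtain ⟨η₀, e0, e1⟩ := tf_shr hs hc hΩ0 fun p m =>
    ⟨hT.2 _ _ m.1 (i2_iff.2 m.2), hY0 (tan_mem m.1), m.2⟩
  obtain ⟨η₁, e2, e3⟩ := cone_margin hc hN0 hY0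
  obtain ⟨η, η0, η1, η2, η3⟩ : ∃ η : ℝ, 0 < η ∧ η ≤ η₀ ∧ η ≤ η₁ ∧ η ≤ 1 / 2 :=
    ⟨min η₀ (min η₁ (1 / 2)), by positivity, min_le_left _ _,
      (min_le_right _ _).trans (min_le_left _ _), (min_le_right _ _).trans (min_le_right _ _)⟩
  have hΩ := hΩ0.shr η0.le
  have hN := hN0.shc η0.le
  have hY := e1.trans (shr_mono η1 subset_rfl)
  have hYN : cone (YY k) ⊆ shc η (cone U) := fun u hu A hA => e3 u hu _
    ((norm_apply_sub hA u).trans (mul_le_mul_of_nonneg_right η2 (norm_nonneg _)))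
  have hm : ∀ p ∈ shr η (flags T ∩ {p | p.1 ∈ cone U ∧ I2 p.1 p.2}), p.1 ∈ shc η (cone U) :=
    fun p m A hA => (m A hA).2.1
  obtain ⟨t, t1, t2, t3⟩ := exists_net k0 (δ := η / 4) (by positivity) (by linarith)
  obtain ⟨F, D, M, w, z, M0, hF, hz, hp, hCl⟩ := big hs hc hG.tree hΩ hY hN hm (false, true, none)
    (B := t) (fun Ω' h1 h2 h3 v hv => by
      obtain ⟨l, m, l', m', g, rfl⟩ := t2 v hv
      exact point hk hG h1 h2 hN (fun p m => hm p (h3 m)) hYN g)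
    (t1.image fun g => {v | Near (η / 4) g v}) (by
      rintro _ ⟨g, hg, rfl⟩
      obtain ⟨l, m, l', m', g, rfl⟩ := t2 g hg
      exact ⟨oc_near (by linarith) _, _, hg, near_refl (by positivity) g.mem.1⟩)
    (a := fun i => a (σ.symm i)) fun i => ha _
  obtain ⟨p, p1, p2, p3, p4, p5⟩ := ell (by norm_num) hΩ hN hm hF hz
    (t1.image fun g => {v | Near (η / 4) g v}) (by
      rintro _ ⟨g, hg, rfl⟩
      exact ⟨oc_near (by linarith) _, hp _ ⟨g, hg, rfl⟩⟩)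
  have hA : ∀ x : PP 63, ∃ A : VV 63 →L[ℂ] VV 63, ‖A - 1‖ ≤ η ∧
      (x ∈ YY k → ∃ v ∈ E0, Rep (A (mev p v)) x) := fun x => by
    by_cases hx : x ∈ YY k
    · obtain ⟨g, g1, g2⟩ := t3 x hx
      obtain ⟨v, v1, v2⟩ := p4 _ ⟨g, g1, rfl⟩
      obtain ⟨A, a1, a2⟩ := exists_move (by linarith) g2 v2
      exact ⟨A, by linarith, fun _ => ⟨v, v1, a2⟩⟩
    · exact ⟨1, by simpa using η0.le, fun h => absurd h hx⟩
  choose A A1 A2 using hA
  have A3 : ∀ x, ∀ v ∈ E0, A x (mev p v) ∈ cone U := fun x v hv => (p2 v hv).1 _ (A1 x)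
  have A0 : ∀ x, ∀ v ∈ E0, A x (mev p v) ≠ 0 := fun x v hv => cone_ne (A3 x v hv)
  have A4 : ∀ x, ∀ y ∈ cubic (-1) 0, ∀ v, Rep v y →
      Rep (A x (mev p v)) (mu p (A x) y) ∧ mu p (A x) y ∈ U := fun x y hy v hv =>
    ⟨rep_mu p1 (A0 x) hy hv, rep_cone (A3 x v ⟨y, hy, hv⟩) (rep_mu p1 (A0 x) hy hv)⟩
  refine ⟨2 * M, -1, 0, fun x => mu p (A x), by omega, by norm_num, fun x hx =>
    ⟨isMorphism_mu p1 (A0 x), fun y hy y' hy' E => ?_, fun y hy => (A4 x y hy _ (rep_rep y)).2,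
      tangentLiftIn_mu p1 hT.1 (A0 x) fun v hv τ h1 h2 => ((p2 v hv).2 τ h1 h2 _ (A1 x)).1, ?_⟩,
    fun x _ y _ => homotopicIn_mu p1 fun s hs v hv => (p2 v hv).1 _ (norm_seg_sub (A1 x) (A1 y) hs),
    fun K g hg => ?_⟩
  · obtain ⟨κ, -, h⟩ := (A4 x y hy _ (rep_rep y)).1.exists_smul
      ((show mu p (A x) y = mu p (A x) y' from E) ▸ (A4 x y' hy' _ (rep_rep y')).1)
    rw [← map_smul] at h
    obtain ⟨s, hs⟩ := p3 _ ⟨y, hy, rep_rep y⟩ _ ⟨y', hy', rep_rep y'⟩ κ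
      (inj_of_norm (A1 x) (by linarith) h)
    exact ((rep_rep y).smul fun c => y'.rep_nonzero (by rw [hs, c, zero_smul])).eq
      (hs ▸ rep_rep y')
  · obtain ⟨v, ⟨y, hy, hv⟩, h⟩ := A2 x hx
    exact ⟨y, hy, (A4 x y hy v hv).1.eq h⟩
  obtain ⟨π, π1, π2⟩ := exists_pf hg
  have key : ∀ i j, HasDeg Set.univ (g ∘ nu (RR k i) (dd k i)) j ↔ DgP π (RR k i) (dd k i) j :=
    fun i j => (hasDeg_iff π2 (p := fun v => hom (RR k i) (dd k i) (v 0, v 1)) (fun y _ v hv =>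
      ⟨rep_nu (hR0 i) hv, rep_cone (hR hN0 hY0 i _ (pair_ne hv.ne)) (rep_nu (hR0 i) hv)⟩) j).trans
      (dg_univ (fun x => π (hom (RR k i) (dd k i) x)) j)
  refine ⟨?_, fun j hj x _ => ?_⟩
  · have : ∀ i, ∃ j, DgP π (RR k i) (dd k i) j := fun i =>
      Dg.exists (π1.cont.comp (continuous_hom _ _).continuousOn (hR hN0 hY0 i))
        (fun x hx => π1.r1 _ (hR hN0 hY0 i x hx)) fun x hx s hs => by
          rw [hom_smul, π1.smul _ (hR hN0 hY0 i x hx) _ (pow_ne_zero _ hs)]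
    choose j hj using this
    exact ⟨fun i => j (σ i), fun i => (key _ _).2 (hj _)⟩
  have π3 := π1.mono (shc_subset η0.le _)
  have d1 := p5 K π π3 _ (hCl K π π3 (fun i => j (σ.symm i)) fun i => (key _ _).1 (by
    simpa using hj (σ.symm i)))
  have m : ∀ v ∈ E0, ∀ s ∈ I1, ((1 - s) • (1 : VV 63 →L[ℂ] VV 63) + s • A x) (mev p v) ∈ cone U :=
    fun v hv s hs => (p2 v hv).1 _ (norm_seg_sub (by simpa using η0.le) (A1 x) hs)
  have d2 := Dg.homotopy isCompact_E0 (fun h => cone_ne h rfl) (fun _ h _ hs => cone_smul h hs)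
    (φ := fun q => π (((1 - q.2) • (1 : VV 63 →L[ℂ] VV 63) + q.2 • A x) (mev p q.1)))
    (π1.cont.comp (Continuous.continuousOn (by have := continuous_mev p; fun_prop))
      fun q hq => m _ hq.1 _ hq.2)
    (fun q hq => π1.r1 _ (m _ hq.1 _ hq.2)) (fun v hv s hs c hc => by
      have : mev p (c • v) = c ^ (2 * D) • mev p v := funext fun i => eval_smul (p1 i) c v
      simp only [this, map_smul]
      exact π1.smul _ (m _ hv _ hs) _ (pow_ne_zero _ hc)) (by simpa using d1)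
  rw [hasDeg_iff π2 (p := fun v => A x (mev p v)) (A4 x)]
  convert d2 using 1
  · simp
  · rw [← σ.symm.sum_comp (fun i => (a i : ℤ) * j i), Finset.mul_sum, Finset.mul_sum]
    refine Finset.sum_congr rfl fun i _ => ?_
    push_cast
    ring

theorem main : ∃ (n : ℕ) (X : Set (PP n)), IsProjVariety X ∧ IsSmooth X ∧ CohConn X ∧
    ∃ x ∈ X, ∃ y ∈ X, 0 < kobayashi X x y := by
  obtain ⟨C, h⟩ := ahlfors2 (2 * 2000) le_rfl
  exact ⟨63, YY 2000, isProjVariety_YY _ (by norm_num), isSmooth_YY _ (by norm_num),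
    cohConn_YY (by norm_num), kob2 2000 (by norm_num) C h⟩

end Pool.Agent.Lib.MP_879098_ag.Q2
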