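import Pool.Agent.Lib.MP_879098_ag.QCur

/-! The Riemann-Hilbert approximation to first order. -/

namespace Pool.Agent.Lib.MP_879098_ag.Q2

open Polynomial Filter Topology Metric

variable {n : ℕ}

namespace Rhh

theorem exists_tup {F : ℂ → VV n} (h : RH.IsPM F) : ∃ P : Tup n, ∀ z, pev P z = F z := by
  induction h with
  | mono k e => exact ⟨fun i => monomial k (e i), fun z => by ext i; simp [pev, mul_comm]⟩
  | add _ _ h1 h2 =>
    obtain ⟨P, hP⟩ := h1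
    obtain ⟨Q, hQ⟩ := h2
    exact ⟨P + Q, fun z => by beta_reduce; rw [← hP, ← hQ]; ext i; simp [pev]⟩

theorem exists_prim (q : ℂ[X]) : ∃ r : ℂ[X], derivative r = q ∧ r.eval 0 = 0 := by
  induction q using Polynomial.induction_on' with
  | add p q hp hq =>
    obtain ⟨r, h1, h2⟩ := hp
    obtain ⟨s, h3, h4⟩ := hq
    exact ⟨r + s, by simp [h1, h3], by simp [h2, h4]⟩
  | monomial k c =>
    refine ⟨monomial (k + 1) (c / (k + 1)), ?_, by simp⟩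
    rw [derivative_monomial_succ, div_mul_cancel₀ _ (Nat.cast_add_one_ne_zero k)]

theorem margin {α E : Type} [TopologicalSpace α] [NormedAddCommGroup E] {S : Set α}
    (hS : IsCompact S) {φ : α → E} (hφ : ContinuousOn φ S) {U : Set E} (hU : IsOpen U)
    (h : ∀ x ∈ S, φ x ∈ U) : ∃ μ : ℝ, 0 < μ ∧ ∀ x ∈ S, ∀ y, ‖y - φ x‖ < μ → y ∈ U := by
  obtain ⟨μ, h0, h1⟩ := (hS.image_of_continuousOn hφ).exists_thickening_subset_open hU (by
    rintro _ ⟨x, hx, rfl⟩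
    exact h x hx)
  exact ⟨μ, h0, fun x hx y hy =>
    h1 (mem_thickening_iff.2 ⟨φ x, ⟨x, hx, rfl⟩, by rwa [dist_eq_norm]⟩)⟩

theorem ev_lt {a : ℝ} (h : 0 < a) : ∀ᶠ δ in 𝓝[>] (0 : ℝ), δ < a :=
  (gt_mem_nhds h).filter_mono nhdsWithin_le_nhds

theorem unif {α E : Type} [PseudoMetricSpace α] [NormedAddCommGroup E] {S : Set α}
    (hS : IsCompact S) {φ : α → E} (hφ : ContinuousOn φ S) {η : ℝ} (hη : 0 < η) :
    ∀ᶠ δ in 𝓝[>] (0 : ℝ), ∀ x ∈ S, ∀ y ∈ S, dist x y < δ → ‖φ x - φ y‖ ≤ η := by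
  obtain ⟨δ, h0, h1⟩ := Metric.uniformContinuousOn_iff.1
    (hS.uniformContinuousOn_of_continuous hφ) η hη
  filter_upwards [ev_lt h0] with d hd x hx y hy e
  rw [← dist_eq_norm]
  exact (h1 x hx y hy (e.trans hd)).le

theorem bound {α : Type} [TopologicalSpace α] {S : Set α} (hS : IsCompact S) {φ : α → ℝ}
    (hφ : ContinuousOn φ S) : ∃ C : ℝ, 0 < C ∧ ∀ x ∈ S, φ x ≤ C := by
  obtain ⟨C, hC⟩ := hS.exists_bound_of_continuousOn hφ
  exact ⟨max C 1, lt_max_of_lt_right one_pos, fun x hx =>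
    (le_abs_self _).trans ((hC x hx).trans (le_max_left _ _))⟩

theorem sum_le (s : Finset ℕ) {a : ℕ → ℂ} (x : ℕ → VV n) {ε : ℝ} (h : ∀ k ∈ s, ‖a k‖ ≤ ε) :
    ‖∑ k ∈ s, a k • x k‖ ≤ ε * ∑ k ∈ s, ‖x k‖ := by
  rw [Finset.mul_sum]
  exact norm_sum_le_of_le _ fun k hk => by
    rw [norm_smul]; exact mul_le_mul_of_nonneg_right (h k hk) (norm_nonneg _)

theorem sum_sub_le {D : ℕ} {a : ℕ → ℂ} {x y : ℕ → VV n} {ε B : ℝ} (hB : 0 ≤ B)
    (h : ∀ k ∈ Finset.Icc 1 D, ‖a k‖ ≤ B) (h' : ∀ k ∈ Finset.Icc 1 D, ‖x k - y k‖ ≤ ε) :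
    ‖∑ k ∈ Finset.Icc 1 D, a k • x k - ∑ k ∈ Finset.Icc 1 D, a k • y k‖ ≤ B * (D * ε) := by
  simp only [← Finset.sum_sub_distrib, ← smul_sub]
  refine (sum_le _ _ h).trans (mul_le_mul_of_nonneg_left ?_ hB)
  simpa using Finset.sum_le_card_nsmul _ _ _ h'

/-- the value of a polynomial map -/
noncomputable def vA (D : ℕ) (u : VV n) (c : ℕ → VV n) (w : ℂ) : VV n :=
  u + ∑ k ∈ Finset.Icc 1 D, w ^ k • c k

/-- the derivative of a polynomial map -/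
noncomputable def vB (D : ℕ) (c : ℕ → VV n) (w : ℂ) : VV n :=
  ∑ k ∈ Finset.Icc 1 D, ((k : ℂ) * w ^ (k - 1)) • c k

variable {D : ℕ}

theorem pev_vA {P : Tup n} (hd : ∀ i, (P i).natDegree ≤ D) (w : ℂ) :
    pev P w = vA D (ptop P 0) (ptop P) w := by
  rw [pev_eq_sum hd, show Finset.range (D + 1) = insert 0 (Finset.Icc 1 D) by
    ext; simp; omega, Finset.sum_insert (by simp), vA, pow_zero, one_smul]

theorem pev_vB {P : Tup n} (hd : ∀ i, (P i).natDegree ≤ D) (w : ℂ) :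
    pev (der P) w = vB D (ptop P) w := by
  refine (hasDerivAt_pev P w).unique ?_
  rw [show pev P = vA D (ptop P 0) (ptop P) from funext (pev_vA hd)]
  exact (HasDerivAt.fun_sum fun k _ => (hasDerivAt_pow k w).smul_const _).const_add _

theorem vA_sub {u u' : VV n} {c c' : ℕ → VV n} {ε : ℝ} {w : ℂ} (hw : w ∈ D1) (hu : ‖u - u'‖ ≤ ε)
    (h : ∀ k ∈ Finset.Icc 1 D, ‖c k - c' k‖ ≤ ε) : ‖vA D u c w - vA D u' c' w‖ ≤ ε + D * ε := by
  rw [vA, vA, add_sub_add_comm]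
  refine (norm_add_le _ _).trans (add_le_add hu ?_)
  simpa using sum_sub_le (a := fun k => w ^ k) zero_le_one (fun k _ => by
    rw [norm_pow]; exact pow_le_one₀ (norm_nonneg _) (mem_closedBall_zero_iff.1 hw)) h

theorem vB_sub {c c' : ℕ → VV n} {ε : ℝ} {w : ℂ} (hw : w ∈ D1)
    (h : ∀ k ∈ Finset.Icc 1 D, ‖c k - c' k‖ ≤ ε) : ‖vB D c w - vB D c' w‖ ≤ D * (D * ε) :=
  sum_sub_le (Nat.cast_nonneg _) (fun k hk => by
    rw [norm_mul, norm_pow, Complex.norm_natCast]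
    exact (mul_le_of_le_one_right (Nat.cast_nonneg _) (pow_le_one₀ (norm_nonneg _)
      (mem_closedBall_zero_iff.1 hw))).trans (by exact_mod_cast (Finset.mem_Icc.1 hk).2)) h

variable (p : Tup n) (Q : ℕ → Tup n) (m M : ℕ)

theorem pev_rhF (D : ℕ) (t z : ℂ) : pev (rhF p Q m M D t) z =
    pev p z + ∑ k ∈ Finset.Icc 1 D, (t ^ k * z ^ (k * M - m)) • pev (Q k) z := by
  ext i
  simp [pev, rhF, eval_finsetSum]

theorem pev_der_rhF (D : ℕ) (z : ℂ) : pev (der (rhF p Q m M D 1)) z = pev (der p) z +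
    (∑ k ∈ Finset.Icc 1 D, (((k * M - m : ℕ) : ℂ) * z ^ (k * M - m - 1)) • pev (Q k) z +
      ∑ k ∈ Finset.Icc 1 D, z ^ (k * M - m) • pev (der (Q k)) z) := by
  ext i
  simp [pev, rhF, der, eval_finsetSum, derivative_X_pow, Finset.sum_add_distrib]

/-- the Laurent coefficients -/
noncomputable def L0 (z : ℂ) (k : ℕ) : VV n := (z ^ m)⁻¹ • pev (Q k) z

/-- their derivatives -/
noncomputable def L1 (z : ℂ) (k : ℕ) : VV n :=
  (z ^ m)⁻¹ • (pev (der (Q k)) z - (m * z⁻¹) • pev (Q k) z)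

variable {m M}

theorem pev_rhF' (h : m < M) (D : ℕ) (t : ℂ) {z : ℂ} (hz : z ≠ 0) :
    pev (rhF p Q m M D t) z = vA D (pev p z) (L0 Q m z) (t * z ^ M) := by
  rw [pev_rhF, vA]
  congr 1
  refine Finset.sum_congr rfl fun k hk => ?_
  have := (Finset.mem_Icc.1 hk).1
  rw [L0, smul_smul, pow_sub₀ _ hz (by nlinarith), mul_pow, ← pow_mul, mul_comm M, mul_assoc]

theorem pev_der_rhF' (h : m < M) (D : ℕ) {z : ℂ} (hz : z ≠ 0) :
    pev (der (rhF p Q m M D 1)) z = vA D (pev (der p) z) (L1 Q m z) (z ^ M) +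
      (M * z ^ (M - 1)) • vB D (L0 Q m z) (z ^ M) := by
  rw [pev_der_rhF, vA, vB, add_assoc, Finset.smul_sum, ← Finset.sum_add_distrib,
    ← Finset.sum_add_distrib]
  congr 1
  refine Finset.sum_congr rfl fun k hk => ?_
  have h1 := (Finset.mem_Icc.1 hk).1
  have h2 : m < k * M := by nlinarith
  rw [L0, L1, pow_sub₀ _ hz (show 1 ≤ k * M - m by omega), pow_sub₀ _ hz h2.le,
    pow_sub₀ _ hz (show 1 ≤ M by omega), pow_sub₀ _ (pow_ne_zero M hz) h1, Nat.cast_sub h2.le,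
    ← pow_mul, mul_comm M k]
  simp only [smul_sub, smul_smul]
  match_scalars
  · field_simp
    ring
  · ring

theorem exists_near {δ : ℝ} (hδ : 0 < δ) {z : ℂ} (h1 : ‖z‖ ≤ 1)
    (h2 : max (1 / 2) (1 - δ / 2) ≤ ‖z‖) : ∃ ζ ∈ S1, dist z ζ < δ := by
  have h3 : 1 / 2 ≤ ‖z‖ := (le_max_left _ _).trans h2
  have h4 : 1 - δ / 2 ≤ ‖z‖ := (le_max_right _ _).trans h2
  have h5 : 0 < ‖z‖ := by linarith
  have h6 : ‖(‖z‖ : ℂ)⁻¹ * z‖ = 1 := by
    rw [norm_mul, norm_inv, Complex.norm_real, norm_norm, inv_mul_cancel₀ h5.ne']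
  refine ⟨(‖z‖ : ℂ)⁻¹ * z, by simpa using h6, ?_⟩
  have e : z - (‖z‖ : ℂ)⁻¹ * z = ((‖z‖ - 1 : ℝ) : ℂ) * ((‖z‖ : ℂ)⁻¹ * z) := by
    have : (‖z‖ : ℂ) ≠ 0 := by exact_mod_cast h5.ne'
    push_cast
    field_simp
  rw [dist_eq_norm, e, norm_mul, h6, mul_one, Complex.norm_real, Real.norm_eq_abs,
    abs_of_nonpos (by linarith)]
  linarith

theorem exists_J {r ε : ℝ} (h0 : 0 < r) (h1 : r < 1) (hε : 0 < ε) :
    ∃ J : ℕ, ∀ j, J ≤ j → j * r ^ (j - 1) ≤ ε ∧ r ^ j ≤ ε := by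
  have t1 := (tendsto_self_mul_const_pow_of_lt_one h0.le h1).mul_const r⁻¹
  rw [zero_mul] at t1
  have t2 := tendsto_pow_atTop_nhds_zero_of_lt_one h0.le h1
  obtain ⟨J, hJ⟩ := eventually_atTop.1 (((t1.eventually (gt_mem_nhds hε)).and
    (t2.eventually (gt_mem_nhds hε))).and (eventually_ge_atTop 1))
  refine ⟨J, fun j hj => ⟨?_, (hJ j hj).1.2.le⟩⟩
  rw [pow_sub₀ _ h0.ne' (hJ j hj).2, pow_one, ← mul_assoc]
  exact (hJ j hj).1.1.le

theorem seg_le {u v : VV n} {s : ℝ} (hs : s ∈ I1) : ‖(1 - s) • u + s • v - u‖ ≤ ‖v - u‖ := by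
  rw [show (1 - s) • u + s • v - u = s • (v - u) by module, norm_smul, Real.norm_of_nonneg hs.1]
  exact mul_le_of_le_one_left (norm_nonneg _) hs.2

theorem tri (a b c : VV n) {x y : ℝ} (h : ‖a - b‖ ≤ x) (h' : ‖b - c‖ ≤ y) : ‖a - c‖ ≤ x + y :=
  (norm_sub_le_norm_sub_add_norm_sub a b c).trans (add_le_add h h')

end Rhh

open Rhh

theorem approx1 {f : ℂ → VV n} (hf : AnalyticOnNhd ℂ f D1) {η : ℝ} (hη : 0 < η) :
    ∃ p : Tup n, pev p 0 = f 0 ∧ pev (der p) 0 = deriv f 0 ∧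
      ∀ z ∈ D1, ‖pev p z - f z‖ < η ∧ ‖pev (der p) z - deriv f z‖ < η := by
  obtain ⟨q, h1, h2, h3⟩ := RH.approx_f (deriv f) hf.deriv (η / 2) (by positivity)
  obtain ⟨P, hP⟩ := exists_tup h1
  choose r hr hr0 using fun i => exists_prim (P i)
  obtain ⟨p, hp⟩ : ∃ p : Tup n, p = fun i => C (f 0 i) + r i := ⟨_, rfl⟩
  have e0 : pev p 0 = f 0 := by ext i; simp [hp, pev, hr0]
  have e1 : der p = P := by ext i : 1; simp [hp, der, hr]
  refine ⟨p, e0, by rw [e1, hP, h2], fun z hz => ⟨?_, ?_⟩⟩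
  · have := Convex.norm_image_sub_le_of_norm_hasDerivWithin_le (f := fun z => pev p z - f z)
      (f' := fun z => pev (der p) z - deriv f z) (C := η / 2)
      (fun x hx => ((hasDerivAt_pev p x).sub (hf x hx).differentiableAt.hasDerivAt).hasDerivWithinAt)
      (fun x hx => by rw [e1, hP]; exact (h3 x hx).le) (convex_closedBall (0 : ℂ) 1)
      (mem_closedBall_self zero_le_one) hz
    rw [e0, sub_self, sub_zero, sub_zero] at this
    nlinarith [mem_closedBall_zero_iff.1 hz]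
  · rw [e1, hP]
    linarith [h3 z hz]

theorem approx2 {a : ℂ → VV n} (ha : ContinuousOn a S1) {η : ℝ} (hη : 0 < η) :
    ∀ᶠ m : ℕ in atTop, ∃ Q : Tup n, ∀ ζ ∈ S1, ‖pev Q ζ - ζ ^ m • a ζ‖ < η := by
  filter_upwards [RH.laurent_vec a ha η hη] with m ⟨q, h1, h2⟩
  obtain ⟨Q, hQ⟩ := exists_tup h1
  exact ⟨Q, fun ζ hζ => by rw [hQ]; exact h2 ζ hζ⟩

theorem rhh {Ω : Set (VV n × VV n)} (hΩ : Sat Ω) {N : Set (VV n)} (hN : IsOpen N)
    (hs : ∀ p ∈ Ω, p.1 ∈ N) {f : ℂ → VV n} (hf : AnalyticOnNhd ℂ f D1)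
    (hm : ∀ z ∈ D1, (f z, deriv f z) ∈ Ω) {D : ℕ} (hD : 1 ≤ D) {G : ℂ → Tup n}
    (hG : ∀ k, ContinuousOn (fun ζ => ptop (G ζ) k) S1)
    (hd : ∀ ζ ∈ S1, ∀ i, (G ζ i).natDegree ≤ D) (hGm : ∀ ζ ∈ S1, ∀ w ∈ D1, fl (G ζ) w ∈ Ω)
    (h0 : ∀ ζ ∈ S1, ptop (G ζ) 0 = f ζ) (hT : ∀ ζ ∈ S1, GT Ω (f ζ) (deriv f ζ) (ptop (G ζ) 1)) :
    ∃ η : ℝ, 0 < η ∧ ∀ (p : Tup n) (m : ℕ) (Q : ℕ → Tup n),
      (∀ z ∈ D1, ‖pev p z - f z‖ < η ∧ ‖pev (der p) z - deriv f z‖ < η) →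
      (∀ k ∈ Finset.Icc 1 D, ∀ ζ ∈ S1, ‖pev (Q k) ζ - ζ ^ m • ptop (G ζ) k‖ < η) →
      (∀ s ∈ I1, ∀ z ∈ D1, (1 - s) • f z + s • pev p z ∈ N) ∧
      ∀ᶠ M : ℕ in atTop, (∀ z ∈ D1, fl (rhF p Q m M D 1) z ∈ Ω) ∧
        (∀ t ∈ I1, ∀ z ∈ D1, pev (rhF p Q m M D t) z ∈ N) ∧
        ∀ t ∈ I1, ∀ s ∈ I1, ∀ ζ ∈ S1,
          (1 - s) • pev (G ζ) (t * ζ ^ M) + s • pev (rhF p Q m M D t) ζ ∈ N := by
  have kD : IsCompact D1 := isCompact_closedBall _ _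
  have kS : IsCompact S1 := isCompact_sphere _ _
  have sD : S1 ⊆ D1 := sphere_subset_closedBall
  have c0 := hf.continuousOn
  have c1 := hf.deriv.continuousOn
  have cG : ContinuousOn (fun x : ℂ × ℂ => fl (G x.1) x.2) (S1 ×ˢ D1) := by
    have g : ∀ k, ContinuousOn (fun x : ℂ × ℂ => ptop (G x.1) k) (S1 ×ˢ D1) := fun k =>
      (hG k).comp continuousOn_fst fun x hx => hx.1
    refine ContinuousOn.congr (f := fun x : ℂ × ℂ =>
      (vA D (ptop (G x.1) 0) (ptop (G x.1)) x.2, vB D (ptop (G x.1)) x.2)) (.prodMk ?_ ?_)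
      fun x hx => by rw [fl, pev_vA (hd _ hx.1), pev_vB (hd _ hx.1)]
    · exact (g 0).add (continuousOn_finsetSum _ fun k _ => (continuousOn_snd.pow k).smul (g k))
    · exact continuousOn_finsetSum _ fun k _ =>
        (continuousOn_const.mul (continuousOn_snd.pow _)).smul (g k)
  obtain ⟨μ1, p1, H1⟩ := margin kD (c0.prodMk c1) hΩ.isOpen hm
  obtain ⟨μ2, p2, H2⟩ := margin (kS.prod kD) cG hΩ.isOpen fun x hx => hGm _ hx.1 _ hx.2
  obtain ⟨μ3, p3, H3⟩ := margin kS ((c0.mono sD).prodMk ((c1.mono sD).prodMk (hG 1)))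
    (isOpen_gt hΩ) hT
  obtain ⟨E, hE, e1, e2, e3⟩ : ∃ E : ℝ, 0 < E ∧ 6 * E < μ1 ∧ 6 * E < μ2 ∧ 6 * E < μ3 :=
    ⟨min μ1 (min μ2 μ3) / 7, by positivity, by linarith [min_le_left μ1 (min μ2 μ3)],
      by linarith [min_le_right μ1 (min μ2 μ3), min_le_left μ2 μ3],
      by linarith [min_le_right μ1 (min μ2 μ3), min_le_right μ2 μ3]⟩
  have K1 : ∀ z ∈ D1, ∀ u v, ‖u - f z‖ ≤ 6 * E → ‖v - deriv f z‖ ≤ 6 * E → (u, v) ∈ Ω :=
    fun z hz u v a b => H1 z hz _ ((norm_prod_le_iff.2 ⟨a, b⟩).trans_lt e1)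
  have K2 : ∀ ζ ∈ S1, ∀ w ∈ D1, ∀ u v, ‖u - pev (G ζ) w‖ ≤ 6 * E →
      ‖v - pev (der (G ζ)) w‖ ≤ 6 * E → (u, v) ∈ Ω :=
    fun ζ hζ w hw u v a b => H2 (ζ, w) ⟨hζ, hw⟩ _ ((norm_prod_le_iff.2 ⟨a, b⟩).trans_lt e2)
  have K3 : ∀ ζ ∈ S1, ∀ u v y, ‖u - f ζ‖ ≤ 6 * E → ‖v - deriv f ζ‖ ≤ 6 * E →
      ‖y - ptop (G ζ) 1‖ ≤ 6 * E → GT Ω u v y := fun ζ hζ u v y a b c =>
    H3 ζ hζ (u, v, y) ((norm_prod_le_iff.2 ⟨a, norm_prod_le_iff.2 ⟨b, c⟩⟩).trans_lt e3)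
  have N1 : ∀ z ∈ D1, ∀ u, ‖u - f z‖ ≤ 6 * E → u ∈ N := fun z hz u a =>
    hs _ (K1 z hz u _ a (by rw [sub_self, norm_zero]; positivity))
  have N2 : ∀ ζ ∈ S1, ∀ w ∈ D1, ∀ u, ‖u - pev (G ζ) w‖ ≤ 6 * E → u ∈ N := fun ζ hζ w hw u a =>
    hs _ (K2 ζ hζ w hw u _ a (by rw [sub_self, norm_zero]; positivity))
  have hD' : (1 : ℝ) ≤ D := by exact_mod_cast hD
  obtain ⟨η, hη, y3⟩ : ∃ η : ℝ, 0 < η ∧ D * (D * η) = E :=
    ⟨E / (D * D), by positivity, by field_simp⟩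
  have y2 : D * η ≤ E := by nlinarith [mul_pos (zero_lt_one.trans_le hD') hη]
  have y1 : η ≤ E := by nlinarith
  refine ⟨η, hη, fun p m Q hp hQ => ⟨fun s hs z hz =>
    N1 z hz _ ((seg_le hs).trans (by linarith [(hp z hz).1])), ?_⟩⟩
  obtain ⟨A, hA⟩ : ∃ A : Set ℂ, A = D1 \ ball 0 (1 / 2) := ⟨_, rfl⟩
  have kA : IsCompact A := hA ▸ kD.diff isOpen_ball
  have mA : ∀ z, z ∈ A ↔ z ∈ D1 ∧ 1 / 2 ≤ ‖z‖ := fun z => by simp [hA]
  have A0 : ∀ z ∈ A, z ≠ 0 := fun z hz e => by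
    have := ((mA z).1 hz).2
    rw [e, norm_zero] at this
    linarith
  have sA : S1 ⊆ A := fun z hz => (mA z).2 ⟨sD hz, by rw [RH.norm_of_mem hz]; norm_num⟩
  have AD : A ⊆ D1 := fun z hz => ((mA z).1 hz).1
  have ci : ContinuousOn (fun z : ℂ => (z ^ m)⁻¹) A :=
    .inv₀ (by fun_prop) fun z hz => pow_ne_zero _ (A0 z hz)
  have cL0 : ∀ k, ContinuousOn (fun z => L0 Q m z k) A := fun k =>
    ci.smul (continuous_pev _).continuousOn
  have cL1 : ∀ k, ContinuousOn (fun z => L1 Q m z k) A := fun k =>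
    ci.smul ((continuous_pev _).continuousOn.sub (.smul (continuousOn_const.mul
      (continuousOn_id.inv₀ A0)) (continuous_pev _).continuousOn))
  obtain ⟨C1, q1, hC1⟩ := bound kA (continuousOn_finsetSum (Finset.Icc 1 D) fun k _ => (cL1 k).norm)
  obtain ⟨C2, q2, hC2⟩ := bound kD (continuous_pev (der p)).continuousOn.norm
  obtain ⟨C3, q3, hC3⟩ := bound kD (continuousOn_finsetSum (Finset.Icc 1 D) fun k _ =>
    (continuous_pev (Q k)).continuousOn.norm)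
  obtain ⟨C4, q4, hC4⟩ := bound kD (continuousOn_finsetSum (Finset.Icc 1 D) fun k _ =>
    (continuous_pev (der (Q k))).continuousOn.norm)
  obtain ⟨δ, ⟨⟨u0, u1⟩, u2⟩, hδ⟩ := ((((unif kD c0 hη).and (unif kD c1 hη)).and
    ((Finset.Icc 1 D).eventually_all.2 fun k _ => unif kA (cL0 k) hη)).and
      self_mem_nhdsWithin).exists
  obtain ⟨ω, ⟨u3, u4⟩, hω⟩ := (((unif (kS.prod kD) cG hη).and (ev_lt (div_pos hE q1))).and
    self_mem_nhdsWithin).exists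
  replace hδ : 0 < δ := hδ
  replace hω : 0 < ω := hω
  have core : ∀ z ∈ A, ∀ ζ ∈ S1, dist z ζ < δ → ∀ w ∈ D1,
      ‖vA D (pev p z) (L0 Q m z) w - pev (G ζ) w‖ ≤ 4 * E ∧
      ‖vB D (L0 Q m z) w - pev (der (G ζ)) w‖ ≤ 2 * E := fun z hz ζ hζ e w hw => by
    have a : ∀ k ∈ Finset.Icc 1 D, ‖L0 Q m z k - ptop (G ζ) k‖ ≤ η + η := fun k hk => by
      refine tri _ _ _ (u2 k hk z hz ζ (sA hζ) e) ?_
      rw [L0, ← inv_smul_smul₀ (pow_ne_zero m (RH.ne_zero_of_mem hζ)) (ptop (G ζ) k), ← smul_sub,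
        norm_smul, norm_inv, norm_pow, RH.norm_of_mem hζ, one_pow, inv_one, one_mul]
      exact (hQ k hk ζ hζ).le
    rw [pev_vA (hd ζ hζ), pev_vB (hd ζ hζ), h0 ζ hζ]
    exact ⟨(vA_sub hw (tri _ _ _ (hp z (AD hz)).1.le (u0 z (AD hz) ζ (sD hζ) e)) a).trans
      (by linarith), (vB_sub hw a).trans (by linarith)⟩
  obtain ⟨r, hr⟩ : ∃ r : ℝ, r = max (1 / 2) (1 - δ / 2) := ⟨_, rfl⟩
  have r1 : r < 1 := hr ▸ max_lt (by norm_num) (by linarith)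
  have r0 : 1 / 2 ≤ r := hr ▸ le_max_left _ _
  obtain ⟨J, hJ⟩ := exists_J (by linarith) r1 (div_pos hE (add_pos q3 q4))
  obtain ⟨M0, hM0⟩ := exists_nat_gt ((C2 + C1) / (ω * E))
  filter_upwards [eventually_ge_atTop (J + m + 1), eventually_ge_atTop M0] with M hM hM'
  have mM : m < M := by omega
  have hk : ∀ k ∈ Finset.Icc 1 D, J ≤ k * M - m := fun k hk => by
    have : M ≤ k * M := Nat.le_mul_of_pos_left _ (Finset.mem_Icc.1 hk).1
    omega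
  have b3 : E / (C3 + C4) * C3 ≤ E := by
    rw [div_mul_eq_mul_div, div_le_iff₀ (add_pos q3 q4)]; nlinarith
  have b4 : E / (C3 + C4) * C4 ≤ E := by
    rw [div_mul_eq_mul_div, div_le_iff₀ (add_pos q3 q4)]; nlinarith
  have b5 : 0 ≤ E / (C3 + C4) := by positivity
  have tw : ∀ t ∈ I1, ∀ z ∈ D1, (t : ℂ) * z ^ M ∈ D1 := fun t ht z hz => by
    rw [mem_closedBall_zero_iff, norm_mul, norm_pow, Complex.norm_real, Real.norm_of_nonneg ht.1]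
    exact mul_le_one₀ ht.2 (by positivity)
      (pow_le_one₀ (norm_nonneg _) (mem_closedBall_zero_iff.1 hz))
  have inner : ∀ t ∈ I1, ∀ z ∈ D1, ‖z‖ ≤ r → ‖pev (rhF p Q m M D t) z - f z‖ ≤ 6 * E :=
    fun t ht z hz e => by
      refine (tri _ _ _ (x := E) ?_ (hp z hz).1.le).trans (by linarith)
      rw [pev_rhF, add_sub_cancel_left]
      refine (sum_le _ _ fun k hk' => ?_).trans
        ((mul_le_mul_of_nonneg_left (hC3 z hz) b5).trans b3)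
      rw [norm_mul, norm_pow, norm_pow, Complex.norm_real, Real.norm_of_nonneg ht.1]
      exact (mul_le_of_le_one_left (by positivity) (pow_le_one₀ ht.1 ht.2)).trans
        ((pow_le_pow_left₀ (norm_nonneg _) e _).trans (hJ _ (hk k hk')).2)
  have outer : ∀ z ∈ D1, r ≤ ‖z‖ → z ∈ A ∧ ∃ ζ ∈ S1, dist z ζ < δ := fun z hz e =>
    ⟨(mA z).2 ⟨hz, r0.trans e⟩, exists_near hδ (mem_closedBall_zero_iff.1 hz) (hr ▸ e)⟩
  refine ⟨fun z hz => ?_, fun t ht z hz => ?_, fun t ht s hs ζ hζ => ?_⟩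
  · rcases le_total ‖z‖ r with e | e
    · refine K1 z hz _ _ (by simpa using inner 1 ⟨zero_le_one, le_rfl⟩ z hz e) ?_
      refine (tri _ _ _ (x := E + E) ?_ (hp z hz).2.le).trans (by linarith)
      rw [pev_der_rhF, add_sub_cancel_left]
      refine (norm_add_le _ _).trans (add_le_add ((sum_le _ _ fun k hk' => ?_).trans
        ((mul_le_mul_of_nonneg_left (hC3 z hz) b5).trans b3)) ((sum_le _ _ fun k hk' => ?_).trans
        ((mul_le_mul_of_nonneg_left (hC4 z hz) b5).trans b4)))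
      · rw [norm_mul, norm_pow, Complex.norm_natCast]
        exact (mul_le_mul_of_nonneg_left (pow_le_pow_left₀ (norm_nonneg _) e _)
          (Nat.cast_nonneg _)).trans (hJ _ (hk k hk')).1
      · rw [norm_pow]
        exact (pow_le_pow_left₀ (norm_nonneg _) e _).trans (hJ _ (hk k hk')).2
    obtain ⟨zA, ζ, hζ, e'⟩ := outer z hz e
    have hw : z ^ M ∈ D1 := by simpa using tw 1 ⟨zero_le_one, le_rfl⟩ z hz
    have hw1 : ‖z ^ M‖ ≤ 1 := mem_closedBall_zero_iff.1 hw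
    obtain ⟨a1, a2⟩ := core z zA ζ hζ e' _ hw
    have a3 : ‖vA D (pev (der p) z) (L1 Q m z) (z ^ M) - pev (der p) z‖ ≤ ‖z ^ M‖ * C1 := by
      rw [vA, add_sub_cancel_left]
      refine (sum_le _ _ fun k hk' => ?_).trans
        (mul_le_mul_of_nonneg_left (hC1 z zA) (norm_nonneg _))
      rw [norm_pow]
      exact pow_le_of_le_one (norm_nonneg _) hw1 (by have := (Finset.mem_Icc.1 hk').1; omega)
    rw [fl, pev_rhF' p Q mM D 1 (A0 z zA), pev_der_rhF' p Q mM D (A0 z zA), one_mul]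
    rcases lt_or_ge ‖z ^ M‖ ω with g | g
    · have a4 : ‖fl (G ζ) (z ^ M) - fl (G ζ) 0‖ ≤ η := u3 (ζ, z ^ M) ⟨hζ, hw⟩ (ζ, 0)
        ⟨hζ, mem_closedBall_self zero_le_one⟩ (by simpa [Prod.dist_eq, hω] using g)
      rw [fl, fl, pev_der_zero, pev_zero, h0 ζ hζ, Prod.mk_sub_mk, norm_prod_le_iff] at a4
      have a5 : ‖z ^ M‖ * C1 ≤ E := ((lt_div_iff₀ q1).1 (g.trans u4)).le
      simpa using K3 ζ hζ _ _ _ ((tri _ _ _ a1 a4.1).trans (by linarith))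
        ((tri _ _ _ (a3.trans a5) (tri _ _ _ (hp z hz).2.le (u1 z hz ζ (sD hζ) e'))).trans
          (by linarith)) ((tri _ _ _ a2 a4.2).trans (by linarith)) 1 (M * z ^ (M - 1))
        (.inl one_ne_zero)
    · have a4 : (C2 + C1) / E < ‖(M : ℂ) * z ^ (M - 1)‖ := by
        rw [norm_mul, Complex.norm_natCast, norm_pow]
        rw [norm_pow] at g
        have g1 : ‖z‖ ^ M ≤ ‖z‖ ^ (M - 1) :=
          pow_le_pow_of_le_one (norm_nonneg _) (mem_closedBall_zero_iff.1 hz) (Nat.sub_le _ _)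
        have g2 : (M0 : ℝ) ≤ M := by exact_mod_cast hM'
        rw [← div_div, div_right_comm, div_lt_iff₀ hω] at hM0
        exact hM0.trans_le (mul_le_mul g2 (g.trans g1) hω.le (Nat.cast_nonneg _))
      have a5 : 0 < ‖(M : ℂ) * z ^ (M - 1)‖ := lt_trans (by positivity) a4
      have a6 := norm_pos_iff.1 a5
      generalize (M : ℂ) * z ^ (M - 1) = b at a4 a5 a6 ⊢
      have a7 : ‖b⁻¹ • vA D (pev (der p) z) (L1 Q m z) (z ^ M)‖ ≤ E := by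
        rw [norm_smul, norm_inv, inv_mul_le_iff₀ a5]
        rw [div_lt_iff₀ hE] at a4
        nlinarith [norm_le_norm_add_norm_sub' (vA D (pev (der p) z) (L1 Q m z) (z ^ M))
          (pev (der p) z), hC2 z hz, norm_nonneg (z ^ M)]
      have := hΩ.smul (K2 ζ hζ _ hw _ (b⁻¹ • vA D (pev (der p) z) (L1 Q m z) (z ^ M) +
        vB D (L0 Q m z) (z ^ M)) (a1.trans (by linarith)) (by
          rw [add_sub_assoc]
          exact (norm_add_le _ _).trans (by linarith))) one_ne_zero a6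
      rwa [one_smul, smul_add, smul_inv_smul₀ a6] at this
  · rcases le_total ‖z‖ r with e | e
    · exact N1 z hz _ (inner t ht z hz e)
    · obtain ⟨zA, ζ, hζ, e'⟩ := outer z hz e
      rw [pev_rhF' p Q mM D t (A0 z zA)]
      exact N2 ζ hζ _ (tw t ht z hz) _ ((core z zA ζ hζ e' _ (tw t ht z hz)).1.trans (by linarith))
  · refine N2 ζ hζ _ (tw t ht ζ (sD hζ)) _ ((seg_le hs).trans ?_)
    rw [pev_rhF' p Q mM D t (RH.ne_zero_of_mem hζ)]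
    exact (core ζ (sA hζ) ζ hζ (by simpa using hδ) _ (tw t ht ζ (sD hζ))).1.trans (by linarith)

end Pool.Agent.Lib.MP_879098_ag.Q2
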