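import Pool.Agent.Lib.MP_879098_ag.QRH
import Pool.Agent.Lib.MP_879098_ag.QDeg

/-! A rational curve made of two discs and a family of rational curves joining their boundaries. -/

namespace Pool.Agent.Lib.MP_879098_ag.Q2

open Polynomial Filter Topology Metric

namespace Srh

variable {n : ℕ}

theorem ne0 {ζ : ℂ} (h : ζ ∈ S1) : ζ ≠ 0 := ne_zero_of_mem_unit_sphere ⟨ζ, h⟩

theorem inv_mem {ζ : ℂ} (h : ζ ∈ S1) : ζ⁻¹ ∈ S1 := by
  rw [mem_sphere_zero_iff_norm] at h ⊢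
  rw [norm_inv, h, inv_one]

theorem norm_zpow_smul {ζ : ℂ} (h : ζ ∈ S1) (j : ℤ) (v : VV n) : ‖ζ ^ j • v‖ = ‖v‖ := by
  rw [norm_smul, norm_zpow, mem_sphere_zero_iff_norm.1 h, one_zpow, one_mul]

theorem pow_mem {ζ : ℂ} (h : ζ ∈ S1) {t : ℝ} (ht : t ∈ I1) (M : ℕ) : (t : ℂ) * ζ ^ M ∈ D1 := by
  rw [mem_closedBall_zero_iff, norm_mul, norm_pow, mem_sphere_zero_iff_norm.1 h, one_pow, mul_one,
    Complex.norm_real, Real.norm_of_nonneg ht.1]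
  exact ht.2

theorem cont_inv : ContinuousOn (fun ζ : ℂ => ζ⁻¹) S1 := continuousOn_id.inv₀ fun _ h => ne0 h

theorem tup_ext0 {P Q : Tup n} (h : ∀ u, u ≠ 0 → pev P u = pev Q u) : P = Q :=
  tup_ext (congrFun ((continuous_pev P).ext_on (dense_compl_singleton 0) (continuous_pev Q) h))

theorem exists_deg (Q : ℕ → Tup n) (D : ℕ) :
    ∀ᶠ b : ℕ in atTop, ∀ k ≤ D, ∀ i, (Q k i).natDegree ≤ b := by
  have : ∀ᶠ b : ℕ in atTop, ∀ k ∈ Set.Iic D, ∀ i, (Q k i).natDegree ≤ b :=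
    (eventually_all_finite (Set.finite_Iic D)).2 fun k _ =>
      eventually_all.2 fun i => eventually_ge_atTop _
  exact this

theorem rf_of_eq {P P' : Tup n} {E : ℕ} (h : ∀ u, u ≠ 0 → pev P' u = u ^ E • pev P u⁻¹) :
    (∀ i, (P i).natDegree ≤ E) ∧ rf E P = P' := by
  obtain ⟨a, ha⟩ := (exists_deg (fun _ => P) 0).exists
  have hd : ∀ i, (P i).natDegree ≤ E + a := fun i => (ha 0 le_rfl i).trans (Nat.le_add_left _ _)
  have h1 : rf (E + a) P = fun i => X ^ a * P' i := tup_ext0 fun u hu => by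
    rw [pev_rf hd hu, pow_add, mul_comm, mul_smul, ← h u hu]
    ext i
    simp [pev]
  have h2 : ∀ i, (P i).natDegree ≤ E := fun i => natDegree_le_iff_coeff_eq_zero.2 fun k hk => by
    rcases lt_or_ge (E + a) k with g | g
    · exact coeff_eq_zero_of_natDegree_lt ((hd i).trans_lt g)
    · have := congrFun (ptop_rf P (Nat.sub_le (E + a) k)) i
      rw [h1, Nat.sub_sub_self g] at this
      simp only [ptop, coeff_X_pow_mul'] at this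
      rw [← this, if_neg (by omega)]
  exact ⟨h2, tup_ext0 fun u hu => by rw [pev_rf h2 hu, h u hu]⟩

theorem pev_rhF (p : Tup n) (Q : ℕ → Tup n) (m M D : ℕ) (t z : ℂ) :
    pev (rhF p Q m M D t) z =
      pev p z + ∑ k ∈ Finset.Icc 1 D, (t ^ k * z ^ (k * M - m)) • pev (Q k) z := by
  ext i
  simp [pev, rhF, eval_finsetSum]

theorem pev_rhF_zero (p : Tup n) (Q : ℕ → Tup n) (m M D : ℕ) (z : ℂ) :
    pev (rhF p Q m M D 0) z = pev p z := by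
  rw [pev_rhF, Finset.sum_eq_zero fun k hk => ?_, add_zero]
  rw [zero_pow (by have := (Finset.mem_Icc.1 hk).1; omega), zero_mul, zero_smul]

theorem pev_rhF_one {p : Tup n} {Q : ℕ → Tup n} {m M : ℕ} (D : ℕ) (hM : m ≤ M) {z : ℂ}
    (h0 : pev (Q 0) z = z ^ m • pev p z) :
    z ^ m • pev (rhF p Q m M D 1) z = ∑ k ∈ Finset.range (D + 1), z ^ (k * M) • pev (Q k) z := by
  rw [pev_rhF, Finset.range_eq_Ico, Finset.sum_eq_sum_Ico_succ_bot (Nat.succ_pos D), smul_add,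
    zero_mul, pow_zero, one_smul, h0, Finset.smul_sum]
  congr 1
  refine Finset.sum_congr rfl fun k hk => ?_
  have : M ≤ k * M := Nat.le_mul_of_pos_left _ (Finset.mem_Icc.1 hk).1
  rw [one_pow, one_mul, smul_smul, ← pow_add, Nat.add_sub_cancel' (hM.trans this)]

theorem ptop_rhF (p : Tup n) (Q : ℕ → Tup n) {m M i : ℕ} (D : ℕ) (t : ℂ) (h : i + m < M) :
    ptop (rhF p Q m M D t) i = ptop p i := by
  ext l
  simp only [ptop, rhF, coeff_add, finsetSum_coeff, mul_assoc, coeff_C_mul, coeff_X_pow_mul']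
  rw [Finset.sum_eq_zero fun k hk => ?_, add_zero]
  have : M ≤ k * M := Nat.le_mul_of_pos_left _ (Finset.mem_Icc.1 hk).1
  rw [if_neg (by omega), mul_zero]

theorem glue {p p' : Tup n} {Q : ℕ → Tup n} {m m' c M D E : ℕ} (hm : m ≤ M) (hm' : m' ≤ M)
    (hE : E + m = D * M + c) (hb : ∀ k ≤ D, ∀ i, (Q k i).natDegree ≤ m' + c)
    (h0 : ∀ z, pev (Q 0) z = z ^ m • pev p z) (hc : ∀ i, (p' i).natDegree ≤ c)
    (hD : Q D = rf c p') {u : ℂ} (hu : u ≠ 0) :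
    pev (rhF p' (fun k => rf (m' + c) (Q (D - k))) m' M D 1) u =
      u ^ E • pev (rhF p Q m M D 1) u⁻¹ := by
  have e1 := pev_rhF_one (p := p') (Q := fun k => rf (m' + c) (Q (D - k))) D hm' (z := u) (by
    rw [Nat.sub_zero, pev_rf (hb D le_rfl) hu, hD, pev_rf hc (inv_ne_zero hu), inv_inv, smul_smul,
      pow_add, inv_pow, mul_inv_cancel_right₀ (pow_ne_zero _ hu)])
  have e2 := pev_rhF_one D hm (h0 u⁻¹)
  refine smul_right_injective _ (pow_ne_zero m' hu) ?_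
  have e3 : u ^ m' * u ^ E = u ^ (D * M + (m' + c)) * u⁻¹ ^ m := by
    rw [inv_pow, eq_mul_inv_iff_mul_eq₀ (pow_ne_zero _ hu), ← pow_add, ← pow_add]
    congr 1
    omega
  simp only
  rw [e1, smul_smul, e3, mul_smul, e2, Finset.smul_sum, ← Finset.sum_range_reflect]
  refine Finset.sum_congr rfl fun k hk => ?_
  have hk' := Nat.lt_succ_iff.1 (Finset.mem_range.1 hk)
  rw [Nat.add_sub_cancel, Nat.sub_sub_self hk', pev_rf (hb k hk') hu, smul_smul, smul_smul]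
  congr 1
  rw [inv_pow, eq_mul_inv_iff_mul_eq₀ (pow_ne_zero _ hu), ← pow_add, ← pow_add, Nat.sub_mul]
  congr 1
  have := Nat.mul_le_mul_right M hk'
  omega

variable {W : Type} [NormedAddCommGroup W] [NormedSpace ℂ W]

theorem lf_comp {α β : Type} [TopologicalSpace α] [TopologicalSpace β] {S : Set α} {T : Set β}
    {φ : α → W →L[ℂ] W} {φ' : β → W →L[ℂ] W} {L : α → W} (h : Lf S φ L) {a : β → α}
    (ha : ContinuousOn a T) (hm : ∀ x ∈ T, a x ∈ S) (e : ∀ x ∈ T, φ' x = φ (a x)) :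
    Lf T φ' fun x => L (a x) :=
  ⟨h.1.comp ha hm, fun x hx => by rw [e x hx]; exact h.2 _ (hm x hx)⟩

theorem half {N : Set (VV n)} {π : VV n → W →L[ℂ] W} (hπ : PF N π) {f : ℂ → VV n}
    (cf : ContinuousOn f D1) {D : ℕ} {G : ℂ → Tup n}
    (hG : ∀ k, ContinuousOn (fun ζ => ptop (G ζ) k) S1)
    (hd : ∀ ζ ∈ S1, ∀ i, (G ζ i).natDegree ≤ D) (h0 : ∀ ζ ∈ S1, ptop (G ζ) 0 = f ζ) {p : Tup n}
    {Q : ℕ → Tup n} {m M : ℕ} (a1 : ∀ s ∈ I1, ∀ z ∈ D1, (1 - s) • f z + s • pev p z ∈ N)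
    (a2 : ∀ t ∈ I1, ∀ z ∈ D1, pev (rhF p Q m M D t) z ∈ N)
    (a3 : ∀ t ∈ I1, ∀ s ∈ I1, ∀ ζ ∈ S1,
      (1 - s) • pev (G ζ) (t * ζ ^ M) + s • pev (rhF p Q m M D t) ζ ∈ N)
    {L : ℂ × ℝ → W} (hL : Lf (S1 ×ˢ I1) (fun q : ℂ × ℝ => π (pev (G q.1) (q.2 * q.1 ^ M))) L)
    {k : ℤ} (hB : BD (fun z => π (f z)) (fun ζ => L (ζ, 0)) k) :
    ∃ L' : ℂ × ℝ → W, Lf (S1 ×ˢ I1) (fun q : ℂ × ℝ =>
        π ((1 - q.2) • pev (G q.1) (q.1 ^ M) + q.2 • pev (rhF p Q m M D 1) q.1)) L' ∧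
      (∀ ζ ∈ S1, L' (ζ, 0) = L (ζ, 1)) ∧
      BD (fun z => π (pev (rhF p Q m M D 1) z)) (fun ζ => L' (ζ, 1)) k := by
  have i0 : (0 : ℝ) ∈ I1 := ⟨le_rfl, zero_le_one⟩
  have i1 : (1 : ℝ) ∈ I1 := ⟨zero_le_one, le_rfl⟩
  have c1 : Continuous fun q : ℂ × ℝ => pev (rhF p Q m M D q.2) q.1 := by
    simp only [pev_rhF]
    refine ((continuous_pev p).comp continuous_fst).add (continuous_finsetSum _ fun k _ => ?_)
    have := continuous_pev (Q k)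
    fun_prop
  have c2 : ContinuousOn (fun q : ℂ × ℝ => pev (G q.1) (q.2 * q.1 ^ M)) (S1 ×ˢ I1) :=
    (continuousOn_hom (G := fun q : ℂ × ℝ => G q.1) (x := fun q => (1, q.2 * q.1 ^ M))
      (fun k => (hG k).comp continuousOn_fst fun _ h => h.1) (by fun_prop) D).congr
      fun q hq => (hom_one (hd _ hq.1) _).symm
  obtain ⟨L3, h1, h2⟩ := lift_cyl ((isCompact_sphere (0 : ℂ) 1).prod isCompact_Icc)
    (φ := fun q : (ℂ × ℝ) × ℝ => π ((1 - q.2) • pev (G q.1.1) (q.1.2 * q.1.1 ^ M) +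
      q.2 • pev (rhF p Q m M D q.1.2) q.1.1))
    (hπ.cont.comp (((continuousOn_const.sub continuousOn_snd).smul
      (c2.comp continuousOn_fst fun _ h => h.1)).add
      (continuousOn_snd.smul (c1.comp continuous_fst).continuousOn))
      fun q hq => a3 _ hq.1.2 _ hq.2 _ hq.1.1)
    (fun q hq => hπ.r1 _ (a3 _ hq.1.2 _ hq.2 _ hq.1.1)) (L := L) (by simpa using hL)
  have b1 := BD.homotopy (φ := fun q : ℂ × ℝ => π ((1 - q.2) • f q.1 + q.2 • pev p q.1))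
    (hπ.cont.comp (((continuousOn_const.sub continuousOn_snd).smul
      (cf.comp continuousOn_fst fun _ h => h.1)).add
      (continuousOn_snd.smul ((continuous_pev p).comp continuous_fst).continuousOn))
      fun q hq => a1 _ hq.2 _ hq.1)
    (fun q hq => hπ.r1 _ (a1 _ hq.2 _ hq.1))
    (lf_comp h1 (a := fun q : ℂ × ℝ => ((q.1, 0), q.2)) (by fun_prop)
      (fun q hq => ⟨⟨hq.1, i0⟩, hq.2⟩) fun q hq => by
        simp only [Complex.ofReal_zero, zero_mul, pev_zero, h0 _ hq.1, pev_rhF_zero])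
    (hB.congr (fun z _ => by simp) fun ζ hζ => (h2 _ ⟨hζ, i0⟩).symm)
  have b2 := BD.homotopy (φ := fun q : ℂ × ℝ => π (pev (rhF p Q m M D q.2) q.1))
    (hπ.cont.comp c1.continuousOn fun q hq => a2 _ hq.2 _ hq.1)
    (fun q hq => hπ.r1 _ (a2 _ hq.2 _ hq.1))
    (lf_comp h1 (a := fun q : ℂ × ℝ => (q, 1)) (by fun_prop) (fun q hq => ⟨hq, i1⟩)
      fun q _ => by simp)
    (b1.congr (fun z _ => by simp [pev_rhF_zero]) fun _ _ => rfl)
  exact ⟨fun q => L3 ((q.1, 1), q.2), lf_comp h1 (a := fun q : ℂ × ℝ => ((q.1, 1), q.2))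
    (by fun_prop) (fun q hq => ⟨⟨hq.1, i1⟩, hq.2⟩) fun q _ => by simp,
    fun ζ hζ => h2 _ ⟨hζ, i1⟩, by simpa using b2⟩

end Srh

open Srh in
theorem srh {n : ℕ} {Ω : Set (VV n × VV n)} (hΩ : Sat Ω) {N : Set (VV n)} (hN : OC N)
    (hs : ∀ p ∈ Ω, p.1 ∈ N) {f g : ℂ → VV n} (hf : AnalyticOnNhd ℂ f D1)
    (hg : AnalyticOnNhd ℂ g D1) (mf : ∀ z ∈ D1, (f z, deriv f z) ∈ Ω)
    (mg : ∀ z ∈ D1, (g z, deriv g z) ∈ Ω) {D : ℕ} {G : ℂ → Tup n}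
    (hG : ∀ k, ContinuousOn (fun ζ => ptop (G ζ) k) S1) (hC : ∀ ζ ∈ S1, Cur Ω (G ζ) D) {j : ℤ}
    (h0 : ∀ ζ ∈ S1, ptop (G ζ) 0 = f ζ) (h1 : ∀ ζ ∈ S1, ptop (G ζ) D = ζ ^ j • g ζ⁻¹)
    (T0 : ∀ ζ ∈ S1, GT Ω (f ζ) (deriv f ζ) (ptop (G ζ) 1))
    (T1 : ∀ ζ ∈ S1, GT Ω (g ζ⁻¹) (deriv g ζ⁻¹) (ptop (G ζ) (D - 1))) :
    ∃ (F : Tup n) (E M : ℕ), Cur Ω F E ∧ pev F 0 = f 0 ∧ ptop F E = g 0 ∧
      ptop F (E - 1) = deriv g 0 ∧
      ∀ (K : ℕ) (π : VV n → VV K →L[ℂ] VV K), PF N π → ∀ (k k₁ k₂ : ℤ) (Λ : ℂ × ℂ × ℂ → VV K),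
        Lf (S1 ×ˢ {0}ᶜ) (fun p => π (hom (G p.1) D p.2)) Λ →
        (∀ ζ ∈ S1, ∀ x, x ≠ 0 → ∀ s : ℂ, s ≠ 0 → Λ (ζ, s • x) = s ^ k • Λ (ζ, x)) →
        BD (fun z => π (f z)) (fun ζ => Λ (ζ, 1, 0)) k₁ →
        BD (fun z => π (g z)) (fun ζ => Λ (ζ⁻¹, 0, 1)) k₂ → DgP π F E (k₁ + k₂ + M * k) := by
  have hD : 1 ≤ D := (hC 1 (by simp)).pos
  set G' : ℂ → Tup n := fun ζ => lin (ζ ^ j • 1) (rf D (G ζ⁻¹)) with hG'
  have tG' : ∀ ζ k, ptop (G' ζ) k = ζ ^ j • ptop (G ζ⁻¹) (revAt D k) := fun ζ k => by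
    rw [hG', ptop_lin]
    ext i
    simp [ptop, rf]
  have cG' : ∀ k, ContinuousOn (fun ζ => ptop (G' ζ) k) S1 := fun k => by
    simp only [tG']
    exact (continuousOn_id.zpow₀ j fun _ h => .inl (ne0 h)).smul
      ((hG _).comp cont_inv fun _ h => inv_mem h)
  have hC' : ∀ ζ ∈ S1, Cur Ω (G' ζ) D := fun ζ h =>
    ((hC _ (inv_mem h)).rf hΩ).smul hΩ (zpow_ne_zero _ (ne0 h))
  have h0' : ∀ ζ ∈ S1, ptop (G' ζ) 0 = g ζ := fun ζ h => by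
    rw [tG', revAt_zero, h1 _ (inv_mem h), inv_inv, inv_zpow,
      smul_inv_smul₀ (zpow_ne_zero _ (ne0 h))]
  have pG' : ∀ ζ ∈ S1, ∀ w, pev (G' ζ) w = ζ ^ j • hom (G ζ⁻¹) D (w, 1) := fun ζ h w => by
    rw [hG', pev_lin, hom_one' (hC _ (inv_mem h)).deg]
    rfl
  obtain ⟨η₁, p₁, r₁⟩ := rhh hΩ hN.isOpen hs hf mf hD hG (fun ζ h => (hC ζ h).deg)
    (fun ζ h w _ => (hC ζ h).mem w) h0 T0
  obtain ⟨η₂, p₂, r₂⟩ := rhh hΩ hN.isOpen hs hg mg hD cG' (fun ζ h => (hC' ζ h).deg)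
    (fun ζ h w _ => (hC' ζ h).mem w) h0' fun ζ h => by
      rw [tG', revAt_le hD]
      simpa using (T1 _ (inv_mem h)).sat hΩ 0 0 one_ne_zero one_ne_zero (zpow_ne_zero j (ne0 h))
  have hη := lt_min p₁ p₂
  obtain ⟨p, e1, -, e2⟩ := approx1 hf hη
  obtain ⟨p', e3, e4, e5⟩ := approx1 hg hη
  obtain ⟨e, he⟩ := (exists_deg (fun _ => p') 0).exists
  obtain ⟨m, hm, hQ⟩ := ((eventually_ge_atTop (e - j).toNat).and
    ((eventually_all_finite (Set.finite_Iic D)).2 fun k _ => approx2 (hG k) hη)).exists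
  choose! Q₀ hQ₀ using hQ
  obtain ⟨c, hc⟩ : ∃ c : ℕ, (c : ℤ) = m + j := ⟨(m + j).toNat, by omega⟩
  have hce : ∀ i, (p' i).natDegree ≤ c := fun i => (he 0 le_rfl i).trans (by omega)
  obtain ⟨Q, q0, qD, qk⟩ : ∃ Q : ℕ → Tup n, (∀ z, pev (Q 0) z = z ^ m • pev p z) ∧
      Q D = rf c p' ∧
      ∀ k ≤ D, ∀ ζ ∈ S1, ‖pev (Q k) ζ - ζ ^ m • ptop (G ζ) k‖ < min η₁ η₂ := by
    have q0 : ∀ z, pev (fun i => X ^ m * p i) z = z ^ m • pev p z := fun z => by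
      ext i; simp [pev]
    refine ⟨fun k => if k = 0 then fun i => X ^ m * p i else if k = D then rf c p' else Q₀ k,
      by simpa using q0, by simp [show D ≠ 0 by omega], fun k hk ζ h => ?_⟩
    simp only
    split_ifs with g1 g2
    · rw [g1, q0, h0 ζ h, ← smul_sub, ← zpow_natCast, norm_zpow_smul h]
      exact (e2 ζ (sphere_subset_closedBall h)).1
    · rw [g2, pev_rf hce (ne0 h), h1 ζ h, smul_smul, ← zpow_natCast, ← zpow_natCast,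
        ← zpow_add₀ (ne0 h), hc, ← smul_sub, norm_zpow_smul h]
      exact (e5 _ (sphere_subset_closedBall (inv_mem h))).1
    · exact hQ₀ k hk ζ h
  obtain ⟨m', hb⟩ := ((tendsto_add_atTop_nat c).eventually (exists_deg Q D)).exists
  obtain ⟨a1, r₁⟩ := r₁ p m Q (fun z hz => (e2 z hz).imp (·.trans_le (min_le_left _ _))
    (·.trans_le (min_le_left _ _)))
    fun k hk ζ h => (qk k (Finset.mem_Icc.1 hk).2 ζ h).trans_le (min_le_left _ _)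
  obtain ⟨a1', r₂⟩ := r₂ p' m' (fun k => rf (m' + c) (Q (D - k)))
    (fun z hz => (e5 z hz).imp (·.trans_le (min_le_right _ _)) (·.trans_le (min_le_right _ _)))
    fun k hk ζ h => by
      have g1 := (qk (D - k) (Nat.sub_le _ _) _ (inv_mem h)).trans_le (min_le_right _ _)
      have g2 : ζ ^ m' * ζ ^ j = ζ ^ ((m' + c : ℕ) : ℤ) * ζ⁻¹ ^ m := by
        rw [inv_pow, ← zpow_natCast, ← zpow_natCast ζ m, ← zpow_neg, ← zpow_add₀ (ne0 h),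
          ← zpow_add₀ (ne0 h)]
        congr 1
        omega
      rwa [pev_rf (hb _ (Nat.sub_le _ _)) (ne0 h), tG', revAt_le (Finset.mem_Icc.1 hk).2, smul_smul,
        g2, mul_smul, ← zpow_natCast ζ (m' + c), ← smul_sub, norm_zpow_smul h]
  obtain ⟨M, ⟨⟨f1, a2, a3⟩, f2, a2', a3'⟩, hM⟩ :=
    ((r₁.and r₂).and (eventually_ge_atTop (m + m' + 2))).exists
  have hDM : M ≤ D * M := Nat.le_mul_of_pos_left _ hD
  obtain ⟨E, hE⟩ : ∃ E, E + m = D * M + c := ⟨D * M + c - m, by omega⟩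
  have hgl := fun u => glue (p := p) (M := M) (by omega) (by omega) hE hb q0 hce qD (u := u)
  obtain ⟨dF, rF⟩ := rf_of_eq hgl
  have hF : Cur Ω (rhF p Q m M D 1) E := cur_of_discs hΩ (by omega) dF one_pos (one_mul 1).ge
    (fun w hw => f1 w (mem_closedBall_zero_iff.2 hw))
    fun u hu => by rw [rF]; exact f2 u (mem_closedBall_zero_iff.2 hu)
  refine ⟨_, E, M, hF, by rw [pev_zero, ptop_rhF _ _ _ _ (by omega), ← pev_zero, e1], ?_, ?_,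
    fun K π hπ k k₁ k₂ Λ hΛ hk b₁ b₂ => ?_⟩
  · rw [← Nat.sub_zero E, ← ptop_rf _ (Nat.zero_le _), rF, ptop_rhF _ _ _ _ (by omega), ← pev_zero,
      e3]
  · rw [← ptop_rf _ hF.pos, rF, ptop_rhF _ _ _ _ (by omega), ← pev_der_zero, e4]
  have n1 : ∀ w : ℂ, ((1, w) : ℂ × ℂ) ≠ 0 := fun w h => one_ne_zero (congrArg Prod.fst h)
  have n2 : ∀ w : ℂ, ((w, 1) : ℂ × ℂ) ≠ 0 := fun w h => one_ne_zero (congrArg Prod.snd h)
  obtain ⟨L₁, l1, l2, l3⟩ := half hπ hf.continuousOn hG (fun ζ h => (hC ζ h).deg) h0 a1 a2 a3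
    (lf_comp hΛ (a := fun q : ℂ × ℝ => (q.1, 1, q.2 * q.1 ^ M)) (by fun_prop)
      (fun q hq => ⟨hq.1, n1 _⟩) fun q hq => by rw [hom_one (hC _ hq.1).deg])
    (k := k₁) (by simpa using b₁)
  have ci : ContinuousOn (fun q : ℂ × ℝ => q.1⁻¹) (S1 ×ˢ I1) :=
    cont_inv.comp continuousOn_fst fun _ h => h.1
  obtain ⟨L₂, l4, l5, l6⟩ := half hπ hg.continuousOn cG' (fun ζ h => (hC' ζ h).deg) h0' a1' a2' a3'
    (lf_comp hΛ (a := fun q : ℂ × ℝ => (q.1⁻¹, q.2 * q.1 ^ M, 1)) (ci.prodMk (by fun_prop))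
      (fun q hq => ⟨inv_mem hq.1, n2 _⟩) fun q hq => by
        rw [pG' _ hq.1, hπ.smul _ ((hC _ (inv_mem hq.1)).hom_mem hN hs (n2 _)) _
          (zpow_ne_zero _ (ne0 hq.1))])
    (k := k₂) (by simpa using b₂)
  have e6 : ∀ ζ ∈ S1, ((ζ ^ M, 1) : ℂ × ℂ) = ζ ^ M • (1, ζ⁻¹ ^ M) := fun ζ h => by
    simp [pow_ne_zero M (ne0 h)]
  have i1 : (1 : ℝ) ∈ I1 := ⟨zero_le_one, le_rfl⟩
  have hR := Rel.cyl (k := M * k) (fun q hq => hπ.r1 _ (by simpa using a3' 1 i1 _ hq.2 _ hq.1)) l4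
    (lf_comp l1 (a := fun q : ℂ × ℝ => (q.1⁻¹, q.2)) (ci.prodMk continuousOn_snd)
      (fun q hq => ⟨inv_mem hq.1, hq.2⟩) fun q hq => by
        have g1 : q.1 ^ j * (q.1 ^ M) ^ D = q.1 ^ E := by
          rw [← pow_mul, ← zpow_natCast, ← zpow_natCast, ← zpow_add₀ (ne0 hq.1)]
          congr 1
          have := congrArg (Nat.cast : ℕ → ℤ) hE
          push_cast at this ⊢
          linarith
        rw [pG' _ hq.1, e6 _ hq.1, hom_smul, hom_one (hC _ (inv_mem hq.1)).deg, smul_smul, g1,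
          hgl _ (ne0 hq.1), smul_comm (1 - q.2), smul_comm q.2, ← smul_add]
        exact hπ.smul _ (by simpa using a3 1 i1 _ hq.2 _ (inv_mem hq.1)) _
          (pow_ne_zero _ (ne0 hq.1)))
    ⟨fun _ => 0, continuousOn_const, fun ζ h => by
      simp only [l5 ζ h, l2 _ (inv_mem h), Complex.ofReal_one, one_mul, Complex.exp_zero, mul_one]
      rw [e6 ζ h, hk _ (inv_mem h) _ (n1 _) _ (pow_ne_zero _ (ne0 h)), zpow_mul, zpow_natCast]⟩
  rw [add_assoc]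
  exact Dg.of_pair (fun x hx s h => by
      rw [hom_smul, hπ.smul _ (hF.hom_mem hN hs hx) _ (pow_ne_zero _ h)])
    (l3.congr (fun z _ => by rw [hom_one dF]) fun _ _ => rfl)
    ((l6.rel hR).congr (fun z _ => by rw [hom_one' dF, rF]) fun _ _ => rfl)

end Pool.Agent.Lib.MP_879098_ag.Q2
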