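import Pool.Agent.Lib.MP_879098_ag.QCur

/-! The smoothing of a star of rational curves is close to them to first order. -/

namespace Pool.Agent.Lib.MP_879098_ag.Q2

open Polynomial Filter Topology Metric

variable {n : ℕ} {Ω O : Set (VV n × VV n)} {Z : Finset ℂ} {P : Tup n} {P' : ℂ → Tup n} {d : ℕ}
  {d' : ℂ → ℕ}

namespace StarAux

/-- the polar part of an attached curve in homogeneous form -/
noncomputable def tl (Q : Tup n) (e : ℕ) (x : ℂ × ℂ) : VV n := hom Q e x - x.1 ^ e • pev Q 0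

theorem tl_eq (Q : Tup n) (e : ℕ) (a b : ℂ) : tl Q e (a, b) =
    ∑ k ∈ Finset.range e, (a ^ (e - (k + 1)) * b ^ (k + 1)) • ptop Q (k + 1) := by
  simp [tl, hom, Finset.sum_range_succ', pev_zero]

theorem tl_zero (Q : Tup n) (e : ℕ) (a : ℂ) : tl Q e (a, 0) = 0 := by simp [tl_eq]

theorem tl_smul (Q : Tup n) (e : ℕ) (s : ℂ) (x : ℂ × ℂ) : tl Q e (s • x) = s ^ e • tl Q e x := by
  simp [tl, hom_smul, smul_sub, smul_smul, mul_pow]

theorem tl_left {Q : Tup n} {e : ℕ} (hd : ∀ i, (Q i).natDegree ≤ e) {a : ℂ} (ha : a ≠ 0) (b : ℂ) :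
    tl Q e (a, b) = a ^ e • (pev Q (b / a) - pev Q 0) := by
  rw [tl, hom_left hd ha, smul_sub]

@[fun_prop]
theorem contDiff_tl (Q : Tup n) (e : ℕ) : ContDiff ℂ 1 (tl Q e) := by
  have := contDiff_hom Q e
  unfold tl
  fun_prop

theorem pev_star (ε w : ℂ) : pev (star Z P P' d' ε) w = (∏ c ∈ Z, (w - c) ^ d' c) • pev P w +
    ∑ c ∈ Z, (∏ y ∈ Z.erase c, (w - y) ^ d' y) • tl (P' c) (d' c) (w - c, ε) := by
  ext i
  simp only [tl_eq, pev, star, ptop, Pi.smul_apply, Pi.add_apply, smul_eq_mul, eval_add, eval_mul,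
    eval_pow, eval_X, eval_finsetSum, eval_C, eval_prod, eval_sub, Finset.sum_apply]
  rw [mul_comm]
  congr 1
  refine Finset.sum_congr rfl fun c _ => ?_
  congr 1
  exact Finset.sum_congr rfl fun k _ => by ring

theorem pev_val (hP' : ∀ c ∈ Z, ∀ i, (P' c i).natDegree ≤ d' c) (ε : ℂ) {w : ℂ} (hw : w ∉ Z) :
    pev (star Z P P' d' ε) w = (∏ c ∈ Z, (w - c) ^ d' c) •
      (pev P w + ∑ c ∈ Z, (pev (P' c) (ε / (w - c)) - pev (P' c) 0)) := by
  rw [pev_star, smul_add, Finset.smul_sum]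
  congr 1
  refine Finset.sum_congr rfl fun c hc => ?_
  rw [tl_left (hP' c hc) (sub_ne_zero.2 fun e : w = c => hw (e ▸ hc)), smul_smul,
    Finset.prod_erase_mul _ _ hc]

theorem prod_ne {s : Finset ℂ} {w : ℂ} (hw : w ∉ s) : ∏ c ∈ s, (w - c) ^ d' c ≠ 0 :=
  Finset.prod_ne_zero_iff.2 fun c hc => pow_ne_zero _ (sub_ne_zero.2 fun e : w = c => hw (e ▸ hc))

theorem deg_top (hP : ∀ i, (P i).natDegree ≤ d) (ε : ℂ) :
    (∀ i, (star Z P P' d' ε i).natDegree ≤ d + ∑ c ∈ Z, d' c) ∧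
      ptop (star Z P P' d' ε) (d + ∑ c ∈ Z, d' c) = ptop P d := by
  have h1 : ∀ c i, (∑ k ∈ Finset.range (d' c), C ((P' c i).coeff (k + 1) * ε ^ (k + 1)) *
      (X - C c) ^ (d' c - (k + 1))).degree < (d' c : WithBot ℕ) := fun c i => by
    refine (degree_sum_le _ _).trans_lt ((Finset.sup_lt_iff (WithBot.bot_lt_coe _)).2 fun k hk => ?_)
    have h1 := Finset.mem_range.1 hk
    refine (degree_le_natDegree.trans (WithBot.coe_le_coe.2 ((natDegree_C_mul_le _ _).trans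
      (le_of_eq (b := d' c - (k + 1)) ?_)))).trans_lt ?_
    · rw [natDegree_pow, natDegree_X_sub_C, mul_one]
    · exact WithBot.coe_lt_coe.2 (show d' c - (k + 1) < d' c by omega)
  have m1 : ∀ s : Finset ℂ, (∏ c ∈ s, (X - C c) ^ d' c : ℂ[X]).Monic := fun s =>
    monic_prod_of_monic _ _ fun c _ => (monic_X_sub_C c).pow _
  have m2 : ∀ s : Finset ℂ, (∏ c ∈ s, (X - C c) ^ d' c : ℂ[X]).natDegree = ∑ c ∈ s, d' c :=
    fun s => by
      rw [natDegree_prod_of_monic _ _ fun c _ => (monic_X_sub_C c).pow _]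
      exact Finset.sum_congr rfl fun c _ => by rw [natDegree_pow, natDegree_X_sub_C, mul_one]
  have m3 : ∀ i, (∑ c ∈ Z, (∏ x ∈ Z.erase c, (X - C x) ^ d' x) *
      ∑ k ∈ Finset.range (d' c), C ((P' c i).coeff (k + 1) * ε ^ (k + 1)) *
        (X - C c) ^ (d' c - (k + 1))).degree < ((∑ c ∈ Z, d' c : ℕ) : WithBot ℕ) := fun i => by
    refine (degree_sum_le _ _).trans_lt ((Finset.sup_lt_iff (WithBot.bot_lt_coe _)).2 fun c hc => ?_)
    rw [degree_mul, degree_eq_natDegree (m1 _).ne_zero, m2, ← Finset.sum_erase_add _ _ hc,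
      Nat.cast_add]
    exact WithBot.add_lt_add_left (WithBot.coe_ne_bot) (h1 c i)
  refine ⟨fun i => ?_, ?_⟩
  · refine natDegree_add_le_of_degree_le (natDegree_mul_le.trans ?_)
      (natDegree_le_iff_degree_le.2 ((m3 i).le.trans ?_))
    · rw [m2]
      exact Nat.add_le_add_right (hP i) _
    · exact_mod_cast Nat.le_add_left _ _
  · ext i
    simp only [ptop, star, coeff_add]
    rw [coeff_eq_zero_of_degree_lt ((m3 i).trans_le (by exact_mod_cast Nat.le_add_left _ _)),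
      add_zero, coeff_mul_add_eq_of_natDegree_le (hP i) (m2 Z).le, ← m2 Z, (m1 Z).coeff_natDegree,
      mul_one]

/-- the smoothing in the chart of the attached curve -/
noncomputable def Hc (Z : Finset ℂ) (P : Tup n) (P' : ℂ → Tup n) (d' : ℂ → ℕ) (c : ℂ)
    (p : ℂ × ℂ) : VV n :=
  (∏ y ∈ Z.erase c, (c + p.1 * p.2 - y) ^ d' y) •
      (hom (P' c) (d' c) (p.2, 1) + p.2 ^ d' c • (pev P (c + p.1 * p.2) - pev P c)) +
    p.2 ^ d' c • ∑ x ∈ Z.erase c, (∏ y ∈ (Z.erase x).erase c, (c + p.1 * p.2 - y) ^ d' y) •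
      tl (P' x) (d' x) (c + p.1 * p.2 - x, p.1)

theorem contDiff_Hc (c : ℂ) : ContDiff ℂ 1 (Hc Z P P' d' c) := by
  have h1 := contDiff_hom (P' c) (d' c)
  have h2 := contDiff_pev P
  unfold Hc
  fun_prop

theorem pev_Hc (h0 : ∀ c ∈ Z, pev P c = pev (P' c) 0) {c : ℂ} (hc : c ∈ Z) (ε u : ℂ) :
    pev (star Z P P' d' ε) (c + ε * u) = ε ^ d' c • Hc Z P P' d' c (ε, u) := by
  have e1 : tl (P' c) (d' c) (ε * u, ε) =
      ε ^ d' c • (hom (P' c) (d' c) (u, 1) - u ^ d' c • pev P c) := by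
    rw [h0 c hc, ← tl, ← tl_smul]
    simp
  have e2 : ∀ x ∈ Z.erase c, (∏ y ∈ Z.erase x, (c + ε * u - y) ^ d' y) =
      ε ^ d' c * (u ^ d' c * ∏ y ∈ (Z.erase x).erase c, (c + ε * u - y) ^ d' y) := fun x hx => by
    rw [← Finset.mul_prod_erase (Z.erase x) _
      (Finset.mem_erase.2 ⟨(Finset.ne_of_mem_erase hx).symm, hc⟩), add_sub_cancel_left, mul_pow,
      mul_assoc]
  rw [pev_star, ← Finset.add_sum_erase _ _ hc, ← Finset.mul_prod_erase _ _ hc, add_sub_cancel_left,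
    e1, Finset.sum_congr rfl fun x hx => by rw [e2 x hx, mul_smul, mul_smul], ← Finset.smul_sum,
    ← Finset.smul_sum, Hc, mul_pow]
  module

theorem Hc_zero {c : ℂ} (hd : ∀ i, (P' c i).natDegree ≤ d' c) (u : ℂ) :
    Hc Z P P' d' c (0, u) = (∏ y ∈ Z.erase c, (c - y) ^ d' y) • pev (rf (d' c) (P' c)) u := by
  simp [Hc, tl_zero, hom_one' hd]

theorem tubeS (hO : Sat O) {H : ℂ × ℂ → VV n} (hH : ContDiff ℂ 1 H) {K : Set ℂ} (hK : IsCompact K)
    {Q : Tup n} {s : ℂ → ℂ} (hs : Differentiable ℂ s) (s0 : ∀ w ∈ K, s w ≠ 0)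
    (e : ∀ w, H (0, w) = s w • pev Q w) (m : ∀ w ∈ K, fl Q w ∈ O) :
    ∀ᶠ ε in 𝓝 (0 : ℂ), ∀ w ∈ K, (H (ε, w), deriv (fun w => H (ε, w)) w) ∈ O := by
  refine tube hO.isOpen hK (fun w _ => hH.contDiffAt) fun w hw => ?_
  have h1 : DifferentiableAt ℂ (fun w => H (0, w)) w :=
    (hH.differentiable one_ne_zero _).comp w (by fun_prop)
  exact hO.reparam (F := fun w => H (0, w)) (φ := fun x => x) h1.hasDerivAt (hasDerivAt_pev Q w)
    (hs w).hasDerivAt (hasDerivAt_id w) (s0 w hw) one_ne_zero (.of_forall e) (m w hw)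

theorem partA (hO : Sat O) {K : Set ℂ} (hK : IsCompact K) (hZ : ∀ w ∈ K, w ∉ Z)
    (m : ∀ w ∈ K, fl P w ∈ O) : ∀ᶠ ε in 𝓝 (0 : ℂ), ∀ w ∈ K, fl (star Z P P' d' ε) w ∈ O := by
  have h1 : ContDiff ℂ 1 fun p : ℂ × ℂ => pev (star Z P P' d' p.1) p.2 := by
    have h2 := contDiff_pev P
    simp only [pev_star]
    fun_prop
  filter_upwards [tubeS hO h1 hK (s := fun w => ∏ c ∈ Z, (w - c) ^ d' c) (by fun_prop)
    (fun w hw => prod_ne (hZ w hw)) (fun w => by simp [pev_star, tl_zero]) m] with ε h w hw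
  rw [fl, ← deriv_pev]
  exact h w hw

theorem partB (hO : Sat O) (h0 : ∀ c ∈ Z, pev P c = pev (P' c) 0) {c : ℂ} (hc : c ∈ Z)
    (hd : ∀ i, (P' c i).natDegree ≤ d' c) {K : Set ℂ} (hK : IsCompact K)
    (m : ∀ u ∈ K, fl (rf (d' c) (P' c)) u ∈ O) :
    ∀ᶠ ε in 𝓝[≠] (0 : ℂ), ∀ u ∈ K, fl (star Z P P' d' ε) (c + ε * u) ∈ O := by
  have hH := contDiff_Hc (Z := Z) (P := P) (P' := P') (d' := d') c
  filter_upwards [(tubeS hO hH hK (s := fun _ => ∏ y ∈ Z.erase c, (c - y) ^ d' y) (by fun_prop)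
    (fun _ _ => prod_ne (Finset.notMem_erase c Z)) (Hc_zero hd) m).filter_mono nhdsWithin_le_nhds,
    self_mem_nhdsWithin] with ε h (hε : ε ≠ 0) u hu
  have e1 : (c + ε * u - c) / ε = u := by field_simp; ring
  have h1 : DifferentiableAt ℂ (fun u => Hc Z P P' d' c (ε, u)) ((c + ε * u - c) / ε) :=
    (hH.differentiable one_ne_zero _).comp _ (by fun_prop)
  refine hO.reparam (G := fun u => Hc Z P P' d' c (ε, u)) (φ := fun x => (x - c) / ε)
    (s := fun _ => ε ^ d' c) (hasDerivAt_pev _ _) h1.hasDerivAt (hasDerivAt_const _ _)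
    (((hasDerivAt_id _).sub_const c).div_const ε) (pow_ne_zero _ hε) (one_div_ne_zero hε)
    (.of_forall fun x => ?_) (by simp only [e1]; exact h u hu)
  rw [← pev_Hc h0 hc]
  congr 1
  field_simp
  ring

theorem partN (hΩ : Sat Ω) (hP' : ∀ c ∈ Z, ∀ i, (P' c i).natDegree ≤ d' c) {c : ℂ} (hc : c ∈ Z)
    (hG : GT Ω (pev P c) (pev (der P) c) (pev (der (P' c)) 0)) :
    ∀ᶠ p : ℂ × ℂ × ℂ in 𝓝 0, p.1 ≠ 0 → p.2.1 = p.2.2 / p.1 →
      fl (star Z P P' d' p.2.2) (c + p.1) ∈ Ω := by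
  have hne : ∀ x ∈ Z.erase c, c + (0 : ℂ × ℂ × ℂ).1 - x ≠ 0 := fun x hx => by
    simpa [sub_eq_zero] using (Finset.ne_of_mem_erase hx).symm
  have c0 : ∀ x ∈ Z.erase c, ContinuousAt (fun p : ℂ × ℂ × ℂ => p.2.2 / (c + p.1 - x)) 0 :=
    fun x hx => ContinuousAt.div (by fun_prop) (by fun_prop) (hne x hx)
  have c1 : ContinuousAt (fun p : ℂ × ℂ × ℂ => ∑ x ∈ Z.erase c,
      (pev (P' x) (p.2.2 / (c + p.1 - x)) - pev (P' x) 0)) 0 :=
    tendsto_finsetSum _ fun x hx =>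
      ((continuous_pev (P' x)).continuousAt.comp (c0 x hx)).sub continuousAt_const
  have c2 : ContinuousAt (fun p : ℂ × ℂ × ℂ => ∑ x ∈ Z.erase c,
      (-p.2.2 / (c + p.1 - x) ^ 2) • pev (der (P' x)) (p.2.2 / (c + p.1 - x))) 0 :=
    tendsto_finsetSum _ fun x hx =>
      (ContinuousAt.div (f := fun p : ℂ × ℂ × ℂ => -p.2.2) (g := fun p => (c + p.1 - x) ^ 2)
        (by fun_prop) (by fun_prop) (pow_ne_zero 2 (hne x hx))).smul
        ((continuous_pev (der (P' x))).continuousAt.comp (c0 x hx))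
  have c3 : ContinuousAt (fun p : ℂ × ℂ × ℂ =>
      (pev P (c + p.1) + ((pev (P' c) p.2.1 - pev (P' c) 0) + ∑ x ∈ Z.erase c,
        (pev (P' x) (p.2.2 / (c + p.1 - x)) - pev (P' x) 0)),
      pev (der P) (c + p.1) + ∑ x ∈ Z.erase c,
        (-p.2.2 / (c + p.1 - x) ^ 2) • pev (der (P' x)) (p.2.2 / (c + p.1 - x)),
      pev (der (P' c)) p.2.1)) 0 := by
    have k1 := continuous_pev P
    have k2 := continuous_pev (P' c)
    have k3 := continuous_pev (der P)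
    have k4 := continuous_pev (der (P' c))
    fun_prop
  have c4 : ∀ᶠ p : ℂ × ℂ × ℂ in 𝓝 0, ∀ x ∈ Z.erase c, c + p.1 - x ≠ 0 :=
    (eventually_all_finset _).2 fun x hx =>
      ContinuousAt.eventually_ne (by fun_prop) (hne x hx)
  filter_upwards [c3.eventually_mem ((isOpen_gt hΩ).mem_nhds (by simpa using hG)), c4]
    with ⟨a, v, ε⟩ h1 h2 ha hv
  simp only at h1 h2 ha hv ⊢
  have hw : c + a ∉ Z := fun hz =>
    h2 (c + a) (Finset.mem_erase.2 ⟨by simpa using ha, hz⟩) (sub_self _)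
  have hx : ∀ x ∈ Z, c + a - x ≠ 0 := fun x hx => sub_ne_zero.2 fun e => hw (e ▸ hx)
  have d1 : HasDerivAt (fun w => pev P w + ∑ x ∈ Z, (pev (P' x) (ε / (w - x)) - pev (P' x) 0))
      (pev (der P) (c + a) + ∑ x ∈ Z, (-ε / (c + a - x) ^ 2) • pev (der (P' x)) (ε / (c + a - x)))
      (c + a) := by
    refine (hasDerivAt_pev P _).add (HasDerivAt.fun_sum fun x hx' => HasDerivAt.sub_const _ ?_)
    have g : HasDerivAt (fun w => ε / (w - x)) (-ε / (c + a - x) ^ 2) (c + a) := by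
      simpa using (hasDerivAt_const (c + a) ε).fun_div ((hasDerivAt_id (c + a)).sub_const x)
        (hx x hx')
    exact (hasDerivAt_pev (P' x) _).scomp (c + a) g
  have d2 : DifferentiableAt ℂ (fun w => ∏ x ∈ Z, (w - x) ^ d' x) (c + a) := by fun_prop
  refine hΩ.reparam (φ := fun x => x) (hasDerivAt_pev _ _) d1 d2.hasDerivAt (hasDerivAt_id _)
    (prod_ne hw) one_ne_zero ?_ ?_
  · filter_upwards [Z.finite_toSet.isClosed.isOpen_compl.mem_nhds hw] with w h using pev_val hP' ε h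
  · have := h1 1 (-ε / a ^ 2) (.inl one_ne_zero)
    rw [← Finset.add_sum_erase _ _ hc, ← Finset.add_sum_erase _ _ hc, add_sub_cancel_left, ← hv]
    convert this using 2
    rw [one_smul]
    abel

end StarAux

open StarAux

theorem star_smo (hP : ∀ i, (P i).natDegree ≤ d) (hP' : ∀ c ∈ Z, ∀ i, (P' c i).natDegree ≤ d' c)
    (h0 : ∀ c ∈ Z, pev P c = pev (P' c) 0) (ε : ℂ) :
    Sm.Sta.Smo Z P P' d d' ε (star Z P P' d' ε) := by
  refine ⟨(deg_top hP ε).1, fun w hw => ⟨_, prod_ne hw, pev_val hP' ε hw⟩, fun c hc =>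
    ⟨_, prod_ne (d' := d') (Finset.notMem_erase c Z), ?_⟩, (deg_top hP ε).2⟩
  have e1 : tl (P' c) (d' c) (0, ε) = ε ^ d' c • ptop (P' c) (d' c) - (0 : ℂ) ^ d' c • pev P c := by
    rw [tl, ← hom_top (hP' c hc), ← hom_smul, h0 c hc]
    simp
  have e2 : ∀ x ∈ Z.erase c, (∏ y ∈ Z.erase x, (c - y) ^ d' y) • tl (P' x) (d' x) (c - x, ε) =
      (∏ y ∈ Z.erase c, (c - y) ^ d' y) • (0 : ℂ) ^ d' c •
        (pev (P' x) (ε / (c - x)) - pev (P' x) 0) := fun x hx => by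
    have h1 := Finset.mem_of_mem_erase hx
    rw [tl_left (hP' x h1) (sub_ne_zero.2 (Finset.ne_of_mem_erase hx).symm), smul_smul, smul_smul,
      Finset.prod_erase_mul _ _ h1, ← Finset.prod_erase_mul _ _ hc, sub_self]
  rw [pev_star, ← Finset.add_sum_erase _ _ hc, ← Finset.prod_erase_mul _ _ hc, sub_self, e1,
    Finset.sum_congr rfl e2, ← Finset.smul_sum, ← Finset.smul_sum]
  module

theorem hom_star (hP : ∀ i, (P i).natDegree ≤ d) (hP' : ∀ c ∈ Z, ∀ i, (P' c i).natDegree ≤ d' c)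
    (ε : ℂ) (x : ℂ × ℂ) : hom (star Z P P' d' ε) (d + ∑ c ∈ Z, d' c) x =
      (∏ c ∈ Z, (x.2 - c * x.1) ^ d' c) • hom P d x +
        x.1 ^ d • ∑ c ∈ Z, (∏ y ∈ Z.erase c, (x.2 - y * x.1) ^ d' y) •
          (hom (P' c) (d' c) (x.2 - c * x.1, ε * x.1) - (x.2 - c * x.1) ^ d' c • pev (P' c) 0) := by
  have _ := hP'
  have k : ∀ (s : ℂ) (x : ℂ × ℂ) (A : Finset ℂ), ∏ c ∈ A, ((s • x).2 - c * (s • x).1) ^ d' c =
      s ^ (∑ c ∈ A, d' c) * ∏ c ∈ A, (x.2 - c * x.1) ^ d' c := fun s x A => by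
    rw [← Finset.prod_pow_eq_pow_sum, ← Finset.prod_mul_distrib]
    refine Finset.prod_congr rfl fun c _ => ?_
    rw [← mul_pow]
    congr 1
    simp only [Prod.smul_fst, Prod.smul_snd, smul_eq_mul]
    ring
  rw [← hom_ext (deg_top hP ε).1 (H := fun x => (∏ c ∈ Z, (x.2 - c * x.1) ^ d' c) • hom P d x +
    x.1 ^ d • ∑ c ∈ Z, (∏ y ∈ Z.erase c, (x.2 - y * x.1) ^ d' y) •
      tl (P' c) (d' c) (x.2 - c * x.1, ε * x.1)) ?_ (fun s x => ?_) fun w => ?_]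
  · rfl
  · have h1 := continuous_hom P d
    have h2 : ∀ c, Continuous (tl (P' c) (d' c)) := fun c => (contDiff_tl _ _).continuous
    fun_prop
  · have e : ∀ c ∈ Z, (∏ y ∈ Z.erase c, ((s • x).2 - y * (s • x).1) ^ d' y) •
        tl (P' c) (d' c) ((s • x).2 - c * (s • x).1, ε * (s • x).1) =
        s ^ (∑ c ∈ Z, d' c) • (∏ y ∈ Z.erase c, (x.2 - y * x.1) ^ d' y) •
          tl (P' c) (d' c) (x.2 - c * x.1, ε * x.1) := fun c hc => by
      have e1 : ((s • x).2 - c * (s • x).1, ε * (s • x).1) = s • (x.2 - c * x.1, ε * x.1) := by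
        ext <;> simp <;> ring
      rw [k, e1, tl_smul, ← Finset.sum_erase_add _ _ hc, pow_add]
      module
    rw [k, hom_smul, Finset.sum_congr rfl e, ← Finset.smul_sum, Prod.smul_fst, smul_eq_mul, mul_pow,
      pow_add]
    module
  · simp [pev_star, hom_one hP]

theorem star_cur (hΩ : Sat Ω) (hP : Cur Ω P d) (hP' : ∀ c ∈ Z, Cur Ω (P' c) (d' c))
    (h0 : ∀ c ∈ Z, pev P c = pev (P' c) 0)
    (hG : ∀ c ∈ Z, GT Ω (pev P c) (pev (der P) c) (pev (der (P' c)) 0)) :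
    ∀ᶠ ε in 𝓝[≠] (0 : ℂ), Cur Ω (star Z P P' d' ε) (d + ∑ c ∈ Z, d' c) := by
  have hd' : ∀ c ∈ Z, ∀ i, (P' c i).natDegree ≤ d' c := fun c hc => (hP' c hc).deg
  obtain ⟨ρ, hρ, hN⟩ := nhds_basis_closedBall.eventually_iff.1
    ((eventually_all_finset Z).2 fun c hc => partN (d' := d') hΩ hd' hc (hG c hc))
  obtain ⟨R, hR, hZ⟩ : ∃ R : ℝ, 0 < R ∧ ∀ c ∈ Z, ‖c‖ < R := by
    obtain ⟨R, hR, h⟩ := Z.finite_toSet.isBounded.subset_ball_lt 0 0
    exact ⟨R, hR, fun c hc => mem_ball_zero_iff.1 (h hc)⟩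
  have hA := partA (P' := P') (d' := d') hΩ (K := closedBall 0 R \ ⋃ c ∈ Z, ball c ρ)
    ((isCompact_closedBall 0 R).diff (isOpen_biUnion fun _ _ => isOpen_ball))
    (fun w hw hz => hw.2 (Set.mem_biUnion hz (mem_ball_self hρ))) fun w _ => hP.mem w
  have hB := (eventually_all_finset Z).2 fun c hc => partB hΩ h0 hc (hd' c hc)
    (isCompact_closedBall 0 ρ⁻¹) fun u _ => ((hP' c hc).rf hΩ).mem u
  have h1 : ContDiff ℂ 1 fun p : ℂ × ℂ => hom (star Z P P' d' p.1) (d + ∑ c ∈ Z, d' c) (p.2, 1) := by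
    have h2 := contDiff_hom P d
    have h3 := fun c => contDiff_hom (P' c) (d' c)
    simp only [hom_star hP.deg hd']
    fun_prop
  have hI := tubeS hΩ h1 (isCompact_closedBall 0 R⁻¹) (Q := rf d P)
    (s := fun u => ∏ c ∈ Z, (1 - c * u) ^ d' c) (by fun_prop)
    (fun u hu => Finset.prod_ne_zero_iff.2 fun c hc => pow_ne_zero _ (sub_ne_zero.2 fun e => by
      have g1 := mem_closedBall_zero_iff.1 hu
      have g2 : ‖c * u‖ < 1 := by
        rw [norm_mul]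
        calc ‖c‖ * ‖u‖ ≤ ‖c‖ * R⁻¹ := by gcongr
          _ < 1 := by rw [← div_eq_mul_inv, div_lt_one hR]; exact hZ c hc
      simp [← e] at g2))
    (fun u => by
      have g : ∀ c, hom (P' c) (d' c) (1 - c * u, 0) - (1 - c * u) ^ d' c • pev (P' c) 0 = 0 :=
        fun c => tl_zero (P' c) (d' c) _
      simp [hom_star hP.deg hd', g, hom_one' hP.deg]) fun u _ => (hP.rf hΩ).mem u
  filter_upwards [hA.filter_mono nhdsWithin_le_nhds, hB, hI.filter_mono nhdsWithin_le_nhds,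
    self_mem_nhdsWithin, mem_nhdsWithin_of_mem_nhds (closedBall_mem_nhds (0 : ℂ) hρ)]
    with ε a b i (hε : ε ≠ 0) hερ
  refine cur_of_discs hΩ (hP.pos.trans (Nat.le_add_right _ _)) (deg_top hP.deg ε).1 hR
    (mul_inv_cancel₀ hR.ne').ge (fun w hw => ?_) fun u hu => ?_
  · by_cases g : w ∈ ⋃ c ∈ Z, ball c ρ
    · obtain ⟨c, hc, g⟩ := Set.mem_iUnion₂.1 g
      rw [mem_ball_iff_norm] at g
      by_cases g' : ‖(w - c) / ε‖ ≤ ρ⁻¹
      · have := b c hc _ (mem_closedBall_zero_iff.2 g')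
        rwa [mul_div_cancel₀ _ hε, add_sub_cancel] at this
      · have g1 : w - c ≠ 0 := fun e => g' (by rw [e, zero_div, norm_zero]; positivity)
        have g2 : ‖ε / (w - c)‖ ≤ ρ := by
          rw [← inv_div, norm_inv]
          exact inv_le_of_inv_le₀ hρ (not_le.1 g').le
        have := @hN (w - c, ε / (w - c), ε) (by
          simp only [mem_closedBall_zero_iff, Prod.norm_def, max_le_iff] at hερ ⊢
          exact ⟨g.le, g2, hερ⟩) c hc g1 rfl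
        simpa using this
    · exact a w ⟨mem_closedBall_zero_iff.2 hw, g⟩
  · have := i u (mem_closedBall_zero_iff.2 hu)
    simp only [hom_one' (deg_top hP.deg ε).1] at this
    rw [fl, ← deriv_pev]
    exact this

theorem star_meets (hO : Sat O) (hP : ∀ i, (P i).natDegree ≤ d)
    (hP' : ∀ c ∈ Z, ∀ i, (P' c i).natDegree ≤ d' c) (h : Meets O P) :
    ∀ᶠ ε in 𝓝[≠] (0 : ℂ), Meets O (star Z P P' d' ε) := by
  have _ := hP
  have _ := hP'
  obtain ⟨w, hw, m⟩ := h.exists_ne hO.isOpen Z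
  filter_upwards [(partA (P' := P') (d' := d') hO (isCompact_singleton (x := w))
    (by simpa using hw) (by simpa using m)).filter_mono nhdsWithin_le_nhds] with ε h
  exact ⟨w, h w rfl⟩

theorem star_meets' (hO : Sat O) (hP : ∀ i, (P i).natDegree ≤ d)
    (hP' : ∀ c ∈ Z, ∀ i, (P' c i).natDegree ≤ d' c) (h0 : ∀ c ∈ Z, pev P c = pev (P' c) 0) {c : ℂ}
    (hc : c ∈ Z) (h : Meets O (P' c)) : ∀ᶠ ε in 𝓝[≠] (0 : ℂ), Meets O (star Z P P' d' ε) := by
  have _ := hP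
  obtain ⟨u, m⟩ := h.rf hO (hP' c hc)
  filter_upwards [partB hO h0 hc (hP' c hc) (isCompact_singleton (x := u)) (by simpa using m)]
    with ε h
  exact ⟨_, h u rfl⟩

theorem star_node (hO : Sat O) (hP : ∀ i, (P i).natDegree ≤ d)
    (hP' : ∀ c ∈ Z, ∀ i, (P' c i).natDegree ≤ d' c) (h0 : ∀ c ∈ Z, pev P c = pev (P' c) 0) {c : ℂ}
    (hc : c ∈ Z) (h1 : 1 ≤ d' c) (h : (ptop (P' c) (d' c), ptop (P' c) (d' c - 1)) ∈ O) :
    ∀ᶠ ε in 𝓝[≠] (0 : ℂ), fl (star Z P P' d' ε) c ∈ O := by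
  have _ := hP
  filter_upwards [partB hO h0 hc (hP' c hc) (isCompact_singleton (x := 0))
    (by simpa [fl_rf_zero _ h1] using h)] with ε h
  simpa using h 0 rfl

end Pool.Agent.Lib.MP_879098_ag.Q2
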