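import Pool.Agent.Lib.MP_879098_ag.QStar
import Pool.Agent.Lib.MP_879098_ag.QDeg

/-! The class of the smoothing of a star is the sum of the classes. -/

namespace Pool.Agent.Lib.MP_879098_ag.Q2

open Polynomial Filter Topology Metric

namespace StD

/-- the linear form that vanishes at the point `c` -/
def lf (c : ℂ) (x : ℂ × ℂ) : ℂ := x.2 - c * x.1

theorem lf_smul (c s : ℂ) (x : ℂ × ℂ) : lf c (s • x) = s * lf c x := by
  simp only [lf, Prod.smul_fst, Prod.smul_snd, smul_eq_mul]; ring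

@[fun_prop]
theorem lf_cont (c : ℂ) : Continuous (lf c) := by unfold lf; fun_prop

theorem lf_ne {x : ℂ × ℂ} (hx : x ≠ 0) (h : x.1 = 0) (c : ℂ) : lf c x ≠ 0 := fun e =>
  hx (Prod.ext h (by simpa [lf, h] using e))

theorem fst_ne {x : ℂ × ℂ} (hx : x ≠ 0) {c : ℂ} {ρ : ℝ} (h : ‖lf c x‖ ≤ ρ * ‖x.1‖) : x.1 ≠ 0 :=
  fun e => lf_ne hx e c (by simpa [e] using h)

theorem pair_ne {x : ℂ × ℂ} (hx : x ≠ 0) {ε : ℂ} (hε : ε ≠ 0) (c : ℂ) :
    (lf c x, ε * x.1) ≠ 0 := fun e => by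
  rw [Prod.mk_eq_zero] at e
  exact lf_ne hx ((mul_eq_zero.1 e.2).resolve_left hε) c e.1

theorem eq_smul {x : ℂ × ℂ} (h : x.1 ≠ 0) : x = x.1 • ((1 : ℂ), x.2 / x.1) := by
  ext
  · simp
  · simp [mul_div_cancel₀ _ h]

theorem unit_smul {x : ℂ × ℂ} (hx : x ≠ 0) :
    ∃ (s : ℂ) (u : ℂ × ℂ), s ≠ 0 ∧ u ∈ sphere (0 : ℂ × ℂ) 1 ∧ x = s • u := by
  have h0 : ‖x‖ ≠ 0 := norm_ne_zero_iff.2 hx
  have h1 : ((‖x‖ : ℝ) : ℂ) ≠ 0 := Complex.ofReal_ne_zero.2 h0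
  refine ⟨‖x‖, ((‖x‖ : ℝ) : ℂ)⁻¹ • x, h1, ?_, (smul_inv_smul₀ h1 x).symm⟩
  rw [mem_sphere_zero_iff_norm, norm_smul, norm_inv, Complex.norm_real, norm_norm,
    inv_mul_cancel₀ h0]

theorem ne_of_sphere {u : ℂ × ℂ} (h : u ∈ sphere (0 : ℂ × ℂ) 1) : u ≠ 0 := fun e => by
  simp [e] at h

/-- cut-off functions around the points of the line -/
structure Chi (ρ : ℝ) (χ : ℂ → ℂ × ℂ → ℝ) : Prop where
  cont : ∀ c x, x ≠ 0 → ContinuousAt (χ c) x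
  mem : ∀ c x, χ c x ∈ I1
  smul : ∀ c x (s : ℂ), s ≠ 0 → χ c (s • x) = χ c x
  one : ∀ c x, x ≠ 0 → 2 * ‖lf c x‖ ≤ ρ * ‖x.1‖ → χ c x = 1
  zero : ∀ c x, x ≠ 0 → ρ * ‖x.1‖ ≤ ‖lf c x‖ → χ c x = 0

theorem exists_chi {ρ : ℝ} (hρ : 0 < ρ) : ∃ χ, Chi ρ χ := by
  have hd : ∀ c x, x ≠ 0 → 0 < ‖lf c x‖ + ρ * ‖x.1‖ := fun c x hx => by
    by_cases h : x.1 = 0
    · have := norm_pos_iff.2 (lf_ne hx h c); positivity
    · have := norm_pos_iff.2 h; positivity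
  refine ⟨fun c x => max 0 (min 1 (3 - 6 * (‖lf c x‖ / (‖lf c x‖ + ρ * ‖x.1‖)))),
    fun c x hx => ?_, fun c x => ⟨le_max_left _ _, max_le zero_le_one (min_le_left _ _)⟩,
    fun c x s hs => ?_, fun c x hx h => ?_, fun c x hx h => ?_⟩
  · have : ContinuousAt (fun x => ‖lf c x‖ / (‖lf c x‖ + ρ * ‖x.1‖)) x :=
      ContinuousAt.div (by fun_prop) (by fun_prop) (hd c x hx).ne'
    exact continuousAt_const.max (continuousAt_const.min
      (continuousAt_const.sub (continuousAt_const.mul this)))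
  · simp only [lf_smul, Prod.smul_fst, smul_eq_mul, norm_mul]
    rw [mul_left_comm ρ, ← mul_add, mul_div_mul_left _ _ (norm_ne_zero_iff.2 hs)]
  · have : ‖lf c x‖ / (‖lf c x‖ + ρ * ‖x.1‖) ≤ 1 / 3 := by
      rw [div_le_iff₀ (hd c x hx)]; linarith
    rw [min_eq_left (by linarith), max_eq_right zero_le_one]
  · have : 1 / 2 ≤ ‖lf c x‖ / (‖lf c x‖ + ρ * ‖x.1‖) := by
      rw [le_div_iff₀ (hd c x hx)]; linarith
    exact max_eq_left ((min_le_right _ _).trans (by linarith))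

theorem gap_far {ρ : ℝ} {c y : ℂ} (hg : 2 * ρ < ‖y - c‖) {x : ℂ × ℂ} (hx : x ≠ 0)
    (h : ‖lf c x‖ ≤ ρ * ‖x.1‖) : ρ * ‖x.1‖ < ‖lf y x‖ := by
  have h1 := norm_pos_iff.2 (fst_ne hx h)
  have h2 : (y - c) * x.1 = lf c x - lf y x := by simp only [lf]; ring
  have h3 := norm_sub_le (lf c x) (lf y x)
  rw [← h2, norm_mul] at h3
  nlinarith

theorem prod_zpow_smul (T : Finset ℂ) (k' : ℂ → ℤ) {s : ℂ} (hs : s ≠ 0) (x : ℂ × ℂ) :
    ∏ c ∈ T, lf c (s • x) ^ k' c = s ^ (∑ c ∈ T, k' c) * ∏ c ∈ T, lf c x ^ k' c := by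
  induction T using Finset.induction_on with
  | empty => simp
  | insert a T ha ih =>
    rw [Finset.prod_insert ha, Finset.prod_insert ha, Finset.sum_insert ha, ih, lf_smul, mul_zpow,
      zpow_add₀ hs]
    ring

section Sec

variable {W : Type} [NormedAddCommGroup W] [NormedSpace ℂ W]

/-- the glued section before the projection -/
noncomputable def Bf (Z : Finset ℂ) (χ : ℂ → ℂ × ℂ → ℝ) (β : ℂ → ℂ) (k : ℤ) (k' : ℂ → ℤ)
    (L : ℂ × ℂ → W) (L' : ℂ → ℂ × ℂ → W) (ε : ℂ) (x : ℂ × ℂ) : W :=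
  ((∏ c ∈ Z, (1 - (χ c x : ℂ))) * ∏ c ∈ Z, lf c x ^ k' c) • L x +
    ∑ c ∈ Z, ((χ c x : ℂ) * (β c * x.1 ^ k * ∏ y ∈ Z.erase c, lf y x ^ k' y)) •
      L' c (lf c x, ε * x.1)

variable {Z : Finset ℂ} {ρ : ℝ} {χ : ℂ → ℂ × ℂ → ℝ} {β : ℂ → ℂ} {k : ℤ} {k' : ℂ → ℤ}
  {L : ℂ × ℂ → W} {L' : ℂ → ℂ × ℂ → W} {ε : ℂ} {x : ℂ × ℂ}

theorem Bf_far (hχ : Chi ρ χ) (hx : x ≠ 0) (h : ∀ c ∈ Z, ρ * ‖x.1‖ ≤ ‖lf c x‖) :
    Bf Z χ β k k' L L' ε x = (∏ c ∈ Z, lf c x ^ k' c) • L x := by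
  rw [Bf, Finset.sum_eq_zero fun c hc => by simp [hχ.zero c x hx (h c hc)],
    Finset.prod_eq_one fun c hc => by simp [hχ.zero c x hx (h c hc)], one_mul, add_zero]

theorem Bf_loc (hχ : Chi ρ χ) (hg : ∀ c ∈ Z, ∀ y ∈ Z, y ≠ c → 2 * ρ < ‖y - c‖) (hx : x ≠ 0)
    {c : ℂ} (hc : c ∈ Z) (h : ‖lf c x‖ ≤ ρ * ‖x.1‖) :
    Bf Z χ β k k' L L' ε x = ((1 - (χ c x : ℂ)) * ∏ c ∈ Z, lf c x ^ k' c) • L x +
      ((χ c x : ℂ) * (β c * x.1 ^ k * ∏ y ∈ Z.erase c, lf y x ^ k' y)) •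
        L' c (lf c x, ε * x.1) := by
  have h0 : ∀ y ∈ Z, y ≠ c → χ y x = 0 := fun y hy e =>
    hχ.zero y x hx (gap_far (hg c hc y hy e) hx h).le
  rw [Bf, Finset.sum_eq_single_of_mem c hc fun y hy e => by simp [h0 y hy e],
    Finset.prod_eq_single_of_mem c hc fun y hy e => by simp [h0 y hy e]]

theorem Bf_smul (hχ : Chi ρ χ) (hL : ∀ x, x ≠ 0 → ∀ s : ℂ, s ≠ 0 → L (s • x) = s ^ k • L x)
    (hL' : ∀ c ∈ Z, ∀ x, x ≠ 0 → ∀ s : ℂ, s ≠ 0 → L' c (s • x) = s ^ k' c • L' c x)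
    (hx : x ≠ 0) (hε : ε ≠ 0) {s : ℂ} (hs : s ≠ 0) :
    Bf Z χ β k k' L L' ε (s • x) = s ^ (k + ∑ c ∈ Z, k' c) • Bf Z χ β k k' L L' ε x := by
  simp only [Bf, hχ.smul _ _ _ hs, prod_zpow_smul _ _ hs, hL x hx s hs, smul_add, smul_smul,
    Finset.smul_sum, zpow_add₀ hs]
  congr 1
  · congr 1; ring
  · refine Finset.sum_congr rfl fun c hc => ?_
    have e : (lf c (s • x), ε * (s • x).1) = s • (lf c x, ε * x.1) := by
      simp only [lf_smul, Prod.smul_fst, smul_eq_mul, Prod.smul_mk]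
      rw [mul_left_comm]
    rw [e, hL' c hc _ (pair_ne hx hε c) s hs, smul_smul, ← Finset.add_sum_erase Z k' hc,
      zpow_add₀ hs, Prod.smul_fst, smul_eq_mul, mul_zpow]
    congr 1; ring

theorem Bf_cont (hρ : 0 < ρ) (hχ : Chi ρ χ) (hg : ∀ c ∈ Z, ∀ y ∈ Z, y ≠ c → 2 * ρ < ‖y - c‖)
    (hL : ContinuousOn L {0}ᶜ) (hL' : ∀ c ∈ Z, ContinuousOn (L' c) {0}ᶜ) (hx : x ≠ 0)
    (hε : ε ≠ 0 ∨ ∀ c ∈ Z, lf c x ≠ 0) :
    ContinuousAt (fun p : ℂ × ℂ × ℂ => Bf Z χ β k k' L L' p.1 p.2) (ε, x) := by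
  have hc : ∀ c, ContinuousAt (fun p : ℂ × ℂ × ℂ => (χ c p.2 : ℂ)) (ε, x) := fun c =>
    Complex.continuous_ofReal.continuousAt.comp
      ((hχ.cont c x hx).comp (f := fun p : ℂ × ℂ × ℂ => p.2) continuousAt_snd)
  have hne : ∀ᶠ p : ℂ × ℂ × ℂ in 𝓝 (ε, x), p.2 ≠ 0 := continuousAt_snd.eventually_ne hx
  have hz : ∀ T : Finset ℂ, (∀ c ∈ T, lf c x ≠ 0) →
      ContinuousAt (fun p : ℂ × ℂ × ℂ => ∏ c ∈ T, lf c p.2 ^ k' c) (ε, x) := fun T h =>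
    tendsto_finsetProd T fun c hc =>
      (show ContinuousAt (fun p : ℂ × ℂ × ℂ => lf c p.2) (ε, x) by fun_prop).zpow₀ _ (.inl (h c hc))
  refine ContinuousAt.add ?_ (tendsto_finsetSum Z fun c hcZ => ?_)
  · by_cases h : ∀ c ∈ Z, lf c x ≠ 0
    · exact ((show ContinuousAt (fun p : ℂ × ℂ × ℂ => ∏ c ∈ Z, (1 - (χ c p.2 : ℂ))) (ε, x) from
        tendsto_finsetProd Z fun c _ => continuousAt_const.sub (hc c)).mul (hz Z h)).smul
        ((hL.continuousAt (isOpen_compl_singleton.mem_nhds hx)).comp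
          (f := fun p : ℂ × ℂ × ℂ => p.2) continuousAt_snd)
    · push Not at h
      obtain ⟨c, hcZ, h⟩ := h
      have h1 : x.1 ≠ 0 := fun e => lf_ne hx e c h
      have h2 : ∀ᶠ p : ℂ × ℂ × ℂ in 𝓝 (ε, x), 2 * ‖lf c p.2‖ < ρ * ‖p.2.1‖ :=
        ContinuousAt.eventually_lt (by fun_prop) (by fun_prop) (by
          have := norm_pos_iff.2 h1
          simp only [h, norm_zero, mul_zero]; positivity)
      refine (continuousAt_const (y := (0 : W))).congr ?_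
      filter_upwards [hne, h2] with p p1 p2
      rw [Finset.prod_eq_zero hcZ (by simp [hχ.one c _ p1 p2.le]), zero_mul, zero_smul]
  · change ContinuousAt (fun p : ℂ × ℂ × ℂ => ((χ c p.2 : ℂ) * (β c * p.2.1 ^ k *
      ∏ y ∈ Z.erase c, lf y p.2 ^ k' y)) • L' c (lf c p.2, p.1 * p.2.1)) (ε, x)
    rcases le_or_gt ‖lf c x‖ (ρ * ‖x.1‖) with h | h
    · have h1 := fst_ne hx h
      have h2 : (lf c x, ε * x.1) ≠ 0 := hε.elim (fun e => pair_ne hx e c) fun e e' =>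
        e c hcZ (Prod.mk_eq_zero.1 e').1
      refine ((hc c).mul ((continuousAt_const.mul ((show ContinuousAt
        (fun p : ℂ × ℂ × ℂ => p.2.1) (ε, x) by fun_prop).zpow₀ _ (.inl h1))).mul
        (hz _ fun y hy => ?_))).smul
        (((hL' c hcZ).continuousAt (isOpen_compl_singleton.mem_nhds h2)).comp
          (f := fun p : ℂ × ℂ × ℂ => (lf c p.2, p.1 * p.2.1)) (by fun_prop))
      have := gap_far (hg c hcZ y (Finset.mem_of_mem_erase hy) (Finset.ne_of_mem_erase hy)) hx h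
      exact norm_pos_iff.1 (lt_of_le_of_lt (by positivity) this)
    · have h2 : ∀ᶠ p : ℂ × ℂ × ℂ in 𝓝 (ε, x), ρ * ‖p.2.1‖ < ‖lf c p.2‖ :=
        ContinuousAt.eventually_lt (by fun_prop) (by fun_prop) h
      refine (continuousAt_const (y := (0 : W))).congr ?_
      filter_upwards [hne, h2] with p p1 p2
      simp [hχ.zero c _ p1 p2.le]

end Sec

variable {n : ℕ}

/-- the homogeneous form of the star -/
noncomputable def Wh (Z : Finset ℂ) (P : Tup n) (P' : ℂ → Tup n) (d : ℕ) (d' : ℂ → ℕ) (ε : ℂ)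
    (x : ℂ × ℂ) : VV n :=
  (∏ c ∈ Z, (x.2 - c * x.1) ^ d' c) • hom P d x +
    x.1 ^ d • ∑ c ∈ Z, (∏ y ∈ Z.erase c, (x.2 - y * x.1) ^ d' y) •
      (hom (P' c) (d' c) (x.2 - c * x.1, ε * x.1) - (x.2 - c * x.1) ^ d' c • pev (P' c) 0)

/-- the contribution of the other curves near the node `c` -/
noncomputable def Er (Z : Finset ℂ) (P : Tup n) (P' : ℂ → Tup n) (c : ℂ) (p : ℂ × ℂ) : VV n :=
  pev P p.1 - pev P c + ∑ y ∈ Z.erase c, (pev (P' y) (p.2 / (p.1 - y)) - pev (P' y) 0)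

variable {Z : Finset ℂ} {P : Tup n} {P' : ℂ → Tup n} {d : ℕ} {d' : ℂ → ℕ}

theorem Wh_cont : Continuous fun p : ℂ × ℂ × ℂ => Wh Z P P' d d' p.1 p.2 := by
  have h1 : ∀ (T : Finset ℂ), Continuous fun p : ℂ × ℂ × ℂ =>
      ∏ c ∈ T, (p.2.2 - c * p.2.1) ^ d' c := fun T => continuous_finsetProd _ fun c _ => by fun_prop
  refine ((h1 Z).smul ((continuous_hom P d).comp continuous_snd)).add
    (Continuous.smul (f := fun p : ℂ × ℂ × ℂ => p.2.1 ^ d) (by fun_prop)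
      (continuous_finsetSum _ fun c _ => (h1 _).smul ?_))
  exact ((continuous_hom (P' c) (d' c)).comp (f := fun p : ℂ × ℂ × ℂ =>
    (p.2.2 - c * p.2.1, p.1 * p.2.1)) (by fun_prop)).sub
    (Continuous.smul (f := fun p : ℂ × ℂ × ℂ => (p.2.2 - c * p.2.1) ^ d' c) (by fun_prop)
      continuous_const)

theorem hom_axis {Q : Tup n} {e : ℕ} (a : ℂ) : hom Q e (a, 0) = a ^ e • pev Q 0 := by
  rw [hom, Finset.sum_eq_single_of_mem 0 (by simp) fun k _ hk => by simp [hk], pev_zero]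
  simp

theorem Wh_zero (x : ℂ × ℂ) : Wh Z P P' d d' 0 x = (∏ c ∈ Z, lf c x ^ d' c) • hom P d x := by
  simp [Wh, hom_axis, lf]

theorem Er_cont (c : ℂ) : ContinuousAt (Er Z P P' c) (c, 0) := by
  refine (((continuous_pev P).comp continuous_fst).continuousAt.sub continuousAt_const).add
    (tendsto_finsetSum _ fun y hy => ?_)
  exact ((continuous_pev (P' y)).continuousAt.comp (f := fun p : ℂ × ℂ => p.2 / (p.1 - y))
    (ContinuousAt.div (by fun_prop) (by fun_prop)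
      (sub_ne_zero.2 (Finset.ne_of_mem_erase hy).symm))).sub continuousAt_const

theorem Er_zero (c : ℂ) : Er Z P P' c (c, 0) = 0 := by simp [Er]

theorem Wh_near (hP : ∀ i, (P i).natDegree ≤ d) (hP' : ∀ c ∈ Z, ∀ i, (P' c i).natDegree ≤ d' c)
    (h0 : ∀ c ∈ Z, pev P c = pev (P' c) 0) {c : ℂ} (hc : c ∈ Z) {w : ℂ}
    (hw : ∀ y ∈ Z.erase c, w - y ≠ 0) (ε : ℂ) :
    Wh Z P P' d d' ε (1, w) = (∏ y ∈ Z.erase c, (w - y) ^ d' y) •
      (hom (P' c) (d' c) (w - c, ε) + (w - c) ^ d' c • Er Z P P' c (w, ε)) := by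
  have e : ∀ y ∈ Z.erase c, (∏ z ∈ Z.erase y, (w - z) ^ d' z) •
      (hom (P' y) (d' y) (w - y, ε) - (w - y) ^ d' y • pev (P' y) 0) =
      (∏ z ∈ Z.erase c, (w - z) ^ d' z) • (w - c) ^ d' c •
        (pev (P' y) (ε / (w - y)) - pev (P' y) 0) := fun y hy => by
    have hyZ := Finset.mem_of_mem_erase hy
    rw [hom_left (hP' y hyZ) (hw y hy), ← smul_sub, smul_smul, smul_smul,
      Finset.prod_erase_mul Z (fun z => (w - z) ^ d' z) hyZ,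
      Finset.prod_erase_mul Z (fun z => (w - z) ^ d' z) hc]
  simp only [Wh, Er, mul_one, one_pow, one_smul, hom_one hP]
  rw [← Finset.add_sum_erase Z _ hc, Finset.sum_congr rfl e, ← Finset.smul_sum, ← Finset.smul_sum,
    ← Finset.prod_erase_mul Z (fun z => (w - z) ^ d' z) hc, h0 c hc, mul_smul]
  simp only [smul_add, smul_sub]
  abel

end StD

open StD in
theorem star_dg {n : ℕ} {W : Type} [NormedAddCommGroup W] [NormedSpace ℂ W] {N : Set (VV n)}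
    {π : VV n → W →L[ℂ] W} (hN : OC N) (hπ : PF N π) {Z : Finset ℂ} {P : Tup n} {P' : ℂ → Tup n}
    {d : ℕ} {d' : ℂ → ℕ} (hP : ∀ i, (P i).natDegree ≤ d)
    (hP' : ∀ c ∈ Z, ∀ i, (P' c i).natDegree ≤ d' c) (h0 : ∀ c ∈ Z, pev P c = pev (P' c) 0)
    (m : ∀ x, x ≠ 0 → hom P d x ∈ N) (m' : ∀ c ∈ Z, ∀ x, x ≠ 0 → hom (P' c) (d' c) x ∈ N)
    {ε₀ : ℝ} (hε : 0 < ε₀) (mS : ∀ ε : ℝ, 0 < ε → ε ≤ ε₀ → ∀ x, x ≠ 0 →
      hom (star Z P P' d' ε) (d + ∑ c ∈ Z, d' c) x ∈ N) {k : ℤ} {k' : ℂ → ℤ}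
    (h : DgP π P d k) (h' : ∀ c ∈ Z, DgP π (P' c) (d' c) (k' c)) :
    DgP π (star Z P P' d' ε₀) (d + ∑ c ∈ Z, d' c) (k + ∑ c ∈ Z, k' c) := by
  obtain ⟨L, ⟨Lc, Lv⟩, Lh⟩ := h
  choose! L' hL' Lh' using h'
  have hW : ∀ (ε : ℂ) x, hom (star Z P P' d' ε) (d + ∑ c ∈ Z, d' c) x = Wh Z P P' d d' ε x :=
    hom_star hP hP'
  have n1 : ∀ w : ℂ, ((1 : ℂ), w) ≠ 0 := fun w e => one_ne_zero (Prod.mk_eq_zero.1 e).1
  have mP : ∀ w, pev P w ∈ N := fun w => hom_one hP w ▸ m _ (n1 w)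
  have πc : ∀ u ∈ N, ContinuousAt π u := fun u hu =>
    hπ.cont.continuousAt (hN.isOpen.mem_nhds hu)
  have Lv1 : ∀ w, π (pev P w) (L (1, w)) = L (1, w) := fun w => by
    simpa only [hom_one hP] using (Lv _ (n1 w)).2
  have hβ : ∀ c ∈ Z, ∃ b : ℂ, L (1, c) = b • L' c (1, 0) := fun c hc => by
    have := ((hL' c hc).2 _ (n1 0)).2
    simp only [hom_one (hP' c hc), ← h0 c hc] at this
    exact (hπ.r1 _ (mP c)).rank _ _ ((hL' c hc).2 _ (n1 0)).1 this (Lv1 c)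
  choose! β hβ using hβ
  have β0 : ∀ c ∈ Z, β c ≠ 0 := fun c hc e => (Lv _ (n1 c)).1 (by rw [hβ c hc, e, zero_smul])
  have e2 : ∀ c, ∀ᶠ w in 𝓝 c, ∀ τ ∈ I1,
      π (pev P w) ((1 - ((τ : ℝ) : ℂ)) • L (1, w) + (τ : ℂ) • L (1, c)) ≠ 0 := fun c => by
    refine isCompact_Icc.eventually_forall_of_forall_eventually fun τ _ => ?_
    refine ContinuousAt.eventually_ne (g := fun z : ℂ × ℝ =>
      π (pev P z.1) ((1 - ((z.2 : ℝ) : ℂ)) • L (1, z.1) + (z.2 : ℂ) • L (1, c))) ?_ ?_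
    · exact ((πc _ (mP c)).comp (f := fun z : ℂ × ℝ => pev P z.1)
        ((continuous_pev P).comp continuous_fst).continuousAt).clm_apply
        ((ContinuousAt.smul (by fun_prop) ((Lc.continuousAt
          (isOpen_compl_singleton.mem_nhds (n1 c))).comp (f := fun z : ℂ × ℝ => ((1 : ℂ), z.1))
          (by fun_prop))).add (by fun_prop))
    · simp only [← add_smul, sub_add_cancel, one_smul, Lv1]
      exact (Lv _ (n1 c)).1
  have e3 : ∀ c ∈ Z, ∀ᶠ p : ℂ × ℂ in 𝓝 (c, 0), ∀ u : ℂ × ℂ, u ≠ 0 →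
      hom (P' c) (d' c) u + u.1 ^ d' c • Er Z P P' c p ∈ N ∧
      π (hom (P' c) (d' c) u + u.1 ^ d' c • Er Z P P' c p) (L' c u) ≠ 0 := fun c hc => by
    have := (isCompact_sphere (0 : ℂ × ℂ) 1).eventually_forall_of_forall_eventually
      (x₀ := (c, (0 : ℂ))) (P := fun p u => hom (P' c) (d' c) u + u.1 ^ d' c • Er Z P P' c p ∈ N ∧
        π (hom (P' c) (d' c) u + u.1 ^ d' c • Er Z P P' c p) (L' c u) ≠ 0) fun u hu => by
      have u0 := ne_of_sphere hu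
      have c1 : ContinuousAt (fun z : (ℂ × ℂ) × ℂ × ℂ =>
          hom (P' c) (d' c) z.2 + z.2.1 ^ d' c • Er Z P P' c z.1) ((c, 0), u) :=
        ((continuous_hom _ _).comp continuous_snd).continuousAt.add (ContinuousAt.smul
          (f := fun z : (ℂ × ℂ) × ℂ × ℂ => z.2.1 ^ d' c) (by fun_prop)
          ((Er_cont c).comp_of_eq (f := fun z : (ℂ × ℂ) × ℂ × ℂ => z.1) continuousAt_fst rfl))
      have c2 : hom (P' c) (d' c) u + u.1 ^ d' c • Er Z P P' c (c, 0) = hom (P' c) (d' c) u := by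
        rw [Er_zero, smul_zero, add_zero]
      have c3 : hom (P' c) (d' c) u + u.1 ^ d' c • Er Z P P' c (c, 0) ∈ N := by
        rw [c2]; exact m' c hc u u0
      refine (c1.eventually_mem (hN.isOpen.mem_nhds c3)).and (ContinuousAt.eventually_ne
        (g := fun z : (ℂ × ℂ) × ℂ × ℂ =>
          π (hom (P' c) (d' c) z.2 + z.2.1 ^ d' c • Er Z P P' c z.1) (L' c z.2)) ?_ ?_)
      · exact ((πc _ c3).comp_of_eq c1 rfl).clm_apply (((hL' c hc).1.continuousAt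
          (isOpen_compl_singleton.mem_nhds u0)).comp (f := fun z : (ℂ × ℂ) × ℂ × ℂ => z.2)
          continuousAt_snd)
      · simp only [c2, ((hL' c hc).2 u u0).2]
        exact ((hL' c hc).2 u u0).1
    filter_upwards [this] with p hp x hx
    obtain ⟨s, u, hs, hu, rfl⟩ := unit_smul hx
    have e : hom (P' c) (d' c) (s • u) + (s • u).1 ^ d' c • Er Z P P' c p =
        s ^ d' c • (hom (P' c) (d' c) u + u.1 ^ d' c • Er Z P P' c p) := by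
      rw [hom_smul, smul_add, smul_smul, Prod.smul_fst, smul_eq_mul, mul_pow]
    rw [e, hπ.smul _ (hp u hu).1 _ (pow_ne_zero _ hs), Lh' c hc u (ne_of_sphere hu) s hs, map_smul]
    exact ⟨hN.smul _ (hp u hu).1 _ (pow_ne_zero _ hs),
      smul_ne_zero (zpow_ne_zero _ hs) (hp u hu).2⟩
  have g1 : ∀ᶠ ρ : ℝ in 𝓝 0, ∀ c ∈ Z, ∀ y ∈ Z, y ≠ c → 2 * ρ < ‖y - c‖ := by
    simp only [eventually_all_finset]
    intro c _ y _
    by_cases e : y = c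
    · simp [e]
    · exact (ContinuousAt.eventually_lt (f := fun ρ : ℝ => 2 * ρ) (by fun_prop) continuousAt_const
        (by simpa [sub_eq_zero] using e)).mono fun _ h _ => h
  have g2 := (eventually_all_finset Z).2 fun c _ => eventually_closedBall_subset (e2 c)
  have g3 := (eventually_all_finset Z).2 fun c hc => eventually_closedBall_subset (e3 c hc)
  obtain ⟨ρ, ⟨hg, h2, h3⟩, hρ⟩ := (((g1.and (g2.and g3)).filter_mono nhdsWithin_le_nhds).and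
    (self_mem_nhdsWithin (s := Set.Ioi (0 : ℝ)))).exists
  replace hρ : 0 < ρ := hρ
  obtain ⟨χ, hχ⟩ := exists_chi hρ
  have Bc := fun ε x hx he => Bf_cont (β := β) (k := k) (k' := k') (ε := ε) (x := x) hρ hχ hg Lc
    (fun c hc => (hL' c hc).1) hx he
  have e4 : ∀ᶠ ε : ℂ in 𝓝 0, ∀ x ∈ sphere (0 : ℂ × ℂ) 1 ∩ {x | ∀ c ∈ Z, ρ * ‖x.1‖ ≤ 2 * ‖lf c x‖},
      π (Wh Z P P' d d' ε x) (Bf Z χ β k k' L L' ε x) ≠ 0 := by
    refine IsCompact.eventually_forall_of_forall_eventually ((isCompact_sphere _ _).inter_right ?_)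
      fun x hx => ?_
    · simp only [Set.ofPred_forall]
      exact isClosed_biInter fun c _ => isClosed_le (by fun_prop) (by fun_prop)
    have x0 := ne_of_sphere hx.1
    have l0 : ∀ c ∈ Z, lf c x ≠ 0 := fun c hc e => by
      have := hx.2 c hc
      rw [e, norm_zero, mul_zero] at this
      exact lf_ne x0 (norm_le_zero_iff.1 (nonpos_of_mul_nonpos_right this hρ |>.trans le_rfl)) c e
    have p0 : ∏ c ∈ Z, lf c x ^ d' c ≠ 0 := Finset.prod_ne_zero_iff.2 fun c hc =>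
      pow_ne_zero _ (l0 c hc)
    have p1 : ∏ c ∈ Z, lf c x ^ k' c ≠ 0 := Finset.prod_ne_zero_iff.2 fun c hc =>
      zpow_ne_zero _ (l0 c hc)
    refine ContinuousAt.eventually_ne (g := fun z : ℂ × ℂ × ℂ =>
      π (Wh Z P P' d d' z.1 z.2) (Bf Z χ β k k' L L' z.1 z.2)) ?_ ?_
    · exact ((πc _ (by rw [Wh_zero]; exact hN.smul _ (m x x0) _ p0)).comp
        (f := fun z : ℂ × ℂ × ℂ => Wh Z P P' d d' z.1 z.2) Wh_cont.continuousAt).clm_apply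
        (Bc 0 x x0 (.inr l0))
    simp only [Wh_zero, hπ.smul _ (m x x0) _ p0]
    by_cases g : ∀ c ∈ Z, ρ * ‖x.1‖ ≤ ‖lf c x‖
    · rw [Bf_far hχ x0 g, map_smul, (Lv x x0).2]
      exact smul_ne_zero p1 (Lv x x0).1
    push Not at g
    obtain ⟨c, hc, g⟩ := g
    have x1 := fst_ne x0 g.le
    have q1 : L x = x.1 ^ k • L (1, x.2 / x.1) := by
      rw [← Lh _ (n1 _) _ x1, ← eq_smul x1]
    have q2 : L' c (lf c x, 0 * x.1) = lf c x ^ k' c • L' c (1, 0) := by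
      rw [← Lh' c hc _ (n1 _) _ (l0 c hc)]; simp
    have q3 : Bf Z χ β k k' L L' 0 x = (x.1 ^ k * ∏ c ∈ Z, lf c x ^ k' c) •
        ((1 - ((χ c x : ℝ) : ℂ)) • L (1, x.2 / x.1) + (χ c x : ℂ) • L (1, c)) := by
      rw [Bf_loc hχ hg x0 hc g.le, q1, q2, hβ c hc,
        ← Finset.prod_erase_mul Z (fun y => lf y x ^ k' y) hc]
      simp only [smul_add, smul_smul]
      congr 2 <;> ring
    rw [q3, map_smul, hom_left hP x1, hπ.smul _ (mP _) _ (pow_ne_zero _ x1)]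
    refine smul_ne_zero (mul_ne_zero (zpow_ne_zero _ x1) p1) (h2 c hc ?_ _ (hχ.mem c x))
    rw [mem_closedBall_iff_norm, show x.2 / x.1 - c = lf c x / x.1 by rw [lf]; field_simp,
      norm_div, div_le_iff₀ (norm_pos_iff.2 x1)]
    exact g.le
  have e5 : ∀ᶠ ε : ℝ in 𝓝 0, ε < min ε₀ ρ := eventually_lt_nhds (lt_min hε hρ)
  obtain ⟨ε, ⟨h4, h5⟩, ε0⟩ := (((((Complex.continuous_ofReal.tendsto' 0 0 rfl).eventually e4).and
    e5).filter_mono nhdsWithin_le_nhds).and (self_mem_nhdsWithin (s := Set.Ioi (0 : ℝ)))).exists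
  replace ε0 : 0 < ε := ε0
  have ε1 : ε ≤ ε₀ := h5.le.trans (min_le_left _ _)
  have ε2 : (ε : ℂ) ≠ 0 := Complex.ofReal_ne_zero.2 ε0.ne'
  have Ws : ∀ (e s : ℂ) x, Wh Z P P' d d' e (s • x) =
      s ^ (d + ∑ c ∈ Z, d' c) • Wh Z P P' d d' e x := fun e s x => by
    rw [← hW, ← hW, hom_smul]
  have mW : ∀ e : ℝ, 0 < e → e ≤ ε₀ → ∀ x, x ≠ 0 → Wh Z P P' d d' e x ∈ N :=
    fun e a b x hx => hW e x ▸ mS e a b x hx
  have Ms : ∀ x, x ≠ 0 → ∀ s : ℂ, s ≠ 0 →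
      π (Wh Z P P' d d' ε (s • x)) (Bf Z χ β k k' L L' ε (s • x)) =
      s ^ (k + ∑ c ∈ Z, k' c) • π (Wh Z P P' d d' ε x) (Bf Z χ β k k' L L' ε x) :=
    fun x hx s hs => by
      rw [Ws, hπ.smul _ (mW ε ε0 ε1 x hx) _ (pow_ne_zero _ hs), Bf_smul hχ Lh Lh' hx ε2 hs, map_smul]
  have key : Dg {0}ᶜ (fun x => π (Wh Z P P' d d' ε x)) (k + ∑ c ∈ Z, k' c) := by
    refine ⟨fun x => π (Wh Z P P' d d' ε x) (Bf Z χ β k k' L L' ε x),
      ⟨fun x hx => ContinuousAt.continuousWithinAt ?_, fun x hx =>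
        ⟨?_, (hπ.r1 _ (mW ε ε0 ε1 x hx)).idem _⟩⟩, Ms⟩
    · exact ((πc _ (mW ε ε0 ε1 x hx)).comp (f := fun x => Wh Z P P' d d' ε x)
        (Wh_cont.comp (f := fun x : ℂ × ℂ => ((ε : ℂ), x)) (by fun_prop)).continuousAt).clm_apply
        ((Bc ε x hx (.inl ε2)).comp (f := fun x : ℂ × ℂ => ((ε : ℂ), x)) (by fun_prop))
    beta_reduce
    by_cases g : ∀ c ∈ Z, ρ * ‖x.1‖ ≤ 2 * ‖lf c x‖
    · obtain ⟨s, u, hs, hu, rfl⟩ := unit_smul hx
      rw [Ms u (ne_of_sphere hu) s hs]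
      refine smul_ne_zero (zpow_ne_zero _ hs) (h4 u ⟨hu, fun c hc => ?_⟩)
      have := g c hc
      rw [lf_smul, Prod.smul_fst, smul_eq_mul, norm_mul, norm_mul] at this
      exact le_of_mul_le_mul_left (by linarith) (norm_pos_iff.2 hs)
    push Not at g
    obtain ⟨c, hc, g⟩ := g
    have x1 : x.1 ≠ 0 := fst_ne hx (ρ := ρ) (c := c) (by linarith [norm_nonneg (lf c x)])
    rw [eq_smul x1, lf_smul, Prod.smul_fst, smul_eq_mul, norm_mul, norm_mul, norm_one] at g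
    rw [eq_smul x1, Ms _ (n1 _) _ x1]
    generalize x.2 / x.1 = w at g
    replace g : 2 * ‖lf c (1, w)‖ ≤ ρ * ‖((1 : ℂ), w).1‖ := by
      rw [norm_one]
      exact le_of_mul_le_mul_left (by linarith) (norm_pos_iff.2 x1)
    have g' : ‖lf c (1, w)‖ ≤ ρ * ‖((1 : ℂ), w).1‖ := by linarith [norm_nonneg (lf c (1, w))]
    have l1 : ∀ y, lf y (1, w) = w - y := fun y => by simp [lf]
    have l0 : ∀ y ∈ Z.erase c, w - y ≠ 0 := fun y hy => by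
      have := gap_far (hg c hc y (Finset.mem_of_mem_erase hy) (Finset.ne_of_mem_erase hy)) (n1 w) g'
      rw [l1] at this
      exact norm_pos_iff.1 (lt_of_le_of_lt (by positivity) this)
    obtain ⟨q1, q2⟩ := h3 c hc (show (w, (ε : ℂ)) ∈ closedBall (c, (0 : ℂ)) ρ by
      rw [← closedBall_prod_same]
      refine ⟨mem_closedBall_iff_norm.2 (by simpa [l1] using g'), ?_⟩
      simpa [abs_of_pos ε0] using h5.le.trans (min_le_right _ _)) (w - c, ε)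
      fun e => ε2 (Prod.mk_eq_zero.1 e).2
    rw [Wh_near hP hP' h0 hc l0, hπ.smul _ q1 _ (Finset.prod_ne_zero_iff.2 fun y hy =>
      pow_ne_zero _ (l0 y hy)), Bf_loc hχ hg (n1 w) hc g', hχ.one c _ (n1 w) g]
    simp only [l1, Complex.ofReal_one, sub_self, zero_mul, zero_smul, zero_add, one_mul, mul_one,
      one_zpow, map_smul]
    exact smul_ne_zero (zpow_ne_zero _ x1) (smul_ne_zero (mul_ne_zero (β0 c hc)
      (Finset.prod_ne_zero_iff.2 fun y hy => zpow_ne_zero _ (l0 y hy))) q2)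
  have mt : ∀ t ∈ I1, ∀ x, x ≠ 0 → Wh Z P P' d d' ((ε + t * (ε₀ - ε) : ℝ) : ℂ) x ∈ N :=
    fun t ht => mW _ (by nlinarith [ht.1]) (by nlinarith [ht.2])
  have := Dg.homotopy (Y := {0}ᶜ) (k := k + ∑ c ∈ Z, k' c)
    (φ := fun p : (ℂ × ℂ) × ℝ => π (Wh Z P P' d d' ((ε + p.2 * (ε₀ - ε) : ℝ) : ℂ) p.1))
    (by
      rw [Set.inter_eq_right.2 (show sphere (0 : ℂ × ℂ) 1 ⊆ {0}ᶜ from fun u hu => ne_of_sphere hu)]
      exact isCompact_sphere _ _)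
    (by simp) (fun x hx s hs => smul_ne_zero hs hx)
    (hπ.cont.comp (Wh_cont.comp (f := fun p : (ℂ × ℂ) × ℝ =>
      (((ε + p.2 * (ε₀ - ε) : ℝ) : ℂ), p.1)) (by fun_prop)).continuousOn fun p hp =>
      mt _ hp.2 _ hp.1) (fun p hp => hπ.r1 _ (mt _ hp.2 _ hp.1))
    (fun x hx t ht s hs => by
      simp only [Ws]
      exact hπ.smul _ (mt t ht x hx) _ (pow_ne_zero _ hs)) (by simpa using key)
  simpa [DgP, hW] using this

end Pool.Agent.Lib.MP_879098_ag.Q2
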