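import Pool.Agent.Lib.MP_879098_ag.QZero
import Pool.Agent.Lib.MP_879098_ag.QDeg

/-! Translation between the statements in projective space and the statements about cones. -/

namespace Pool.Agent.Lib.MP_879098_ag.Q2

open Polynomial Filter Topology Metric Morph

variable {n : ℕ}

namespace TopQ

theorem mk_eq (v : {v : VV n // v ≠ 0}) : Projectivization.mk' ℂ v = toP v.1 :=
  ((show Rep v.1 (Projectivization.mk' ℂ v) from ⟨v.2, rfl⟩).toP_eq).symm

theorem mem_cone {Y : Set (PP n)} {u : VV n} : u ∈ cone Y ↔ u ≠ 0 ∧ toP u ∈ Y :=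
  ⟨fun ⟨_, hx, h⟩ => ⟨h.ne, h.toP_eq ▸ hx⟩, fun h => ⟨_, h.2, rep_toP h.1⟩⟩

theorem toP_smul {u : VV n} (hu : u ≠ 0) {a : ℂ} (ha : a ≠ 0) : toP (a • u) = toP u :=
  ((rep_toP hu).smul ha).toP_eq

theorem continuous_of_cone {Z : Type} [TopologicalSpace Z] {f : PP n → Z}
    (h : ContinuousOn (fun v => f (toP v)) {0}ᶜ) : Continuous f := by
  refine continuous_coinduced_dom.2 ?_
  have e : f ∘ Projectivization.mk' ℂ = fun v : {v : VV n // v ≠ 0} => f (toP v.1) :=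
    funext fun v => congrArg f (mk_eq v)
  rw [e]
  exact h.comp_continuous continuous_subtype_val fun v => v.2

/-- the orthogonal projector onto the line through `z` -/
noncomputable def prj (z : VV n) : VV n →L[ℂ] VV n :=
  (∑ i, ((starRingEnd ℂ) (z i) / ((∑ i, ‖z i‖ ^ 2 : ℝ) : ℂ)) •
    (ContinuousLinearMap.proj i : VV n →L[ℂ] ℂ)).smulRight z

theorem prj_apply (z y : VV n) : prj z y = Clo.ell z y • z := by
  rw [prj, ContinuousLinearMap.smulRight_apply, Clo.ell, Finset.sum_div,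
    ContinuousLinearMap.sum_apply]
  congr 1
  refine Finset.sum_congr rfl fun i _ => ?_
  rw [ContinuousLinearMap.smul_apply, ContinuousLinearMap.proj_apply, smul_eq_mul,
    div_mul_eq_mul_div]

theorem prj_self {z : VV n} (hz : z ≠ 0) : prj z z = z := by
  rw [prj_apply, Clo.ell_self hz, one_smul]

theorem prj_smul (z : VV n) {a : ℂ} (ha : a ≠ 0) : prj (a • z) = prj z := by
  ext1 y
  rw [prj_apply, prj_apply, smul_smul]
  congr 1
  have h1 : ((‖a‖ : ℂ)) ^ 2 ≠ 0 := pow_ne_zero _ (Complex.ofReal_ne_zero.2 (norm_ne_zero_iff.2 ha))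
  have h2 : ∑ i, (starRingEnd ℂ) ((a • z) i) * y i
      = (starRingEnd ℂ) a * ∑ i, (starRingEnd ℂ) (z i) * y i := by
    rw [Finset.mul_sum]
    exact Finset.sum_congr rfl fun i _ => by rw [Pi.smul_apply, smul_eq_mul, map_mul, mul_assoc]
  have h3 : ((∑ i, ‖(a • z) i‖ ^ 2 : ℝ) : ℂ) = (‖a‖ : ℂ) ^ 2 * ((∑ i, ‖z i‖ ^ 2 : ℝ) : ℂ) := by
    rw [← Complex.ofReal_pow, ← Complex.ofReal_mul, Finset.mul_sum]
    congr 1
    exact Finset.sum_congr rfl fun i _ => by rw [Pi.smul_apply, norm_smul, mul_pow]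
  rw [Clo.ell, Clo.ell, h2, h3, div_mul_eq_mul_div, mul_right_comm, Complex.conj_mul',
    mul_div_mul_left _ _ h1]

theorem continuousOn_prj : ContinuousOn (prj : VV n → VV n →L[ℂ] VV n) {0}ᶜ := by
  refine continuousOn_clm_apply.2 fun y => ?_
  simp only [prj_apply]
  exact (Clo.continuousOn_ell continuousOn_id continuousOn_const fun z hz => hz).smul
    continuousOn_id

theorem prj_rep {v : VV n} {x : PP n} (h : Rep v x) : prj x.rep = prj v := by
  obtain ⟨s, hs, e⟩ := h.exists_smul (rep_rep x)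
  rw [e, prj_smul _ hs]

theorem continuous_prj : Continuous fun x : PP n => prj x.rep :=
  continuous_of_cone (continuousOn_prj.congr fun _ hv => prj_rep (rep_toP hv))

theorem fix_iff (x : PP n) (y : VV n) : (y ≠ 0 ∧ prj x.rep y = y) ↔ Rep y x := by
  refine ⟨fun h => ?_, fun h => ⟨h.ne, by rw [prj_rep h, prj_self h.ne]⟩⟩
  have e := h.2
  rw [prj_apply] at e
  rw [← e]
  refine (rep_rep x).smul fun c => h.1 ?_
  rw [← e, c, zero_smul]

theorem prj_idem {z : VV n} (hz : z ≠ 0) (y : VV n) : prj z (prj z y) = prj z y := by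
  rw [prj_apply z y, map_smul, prj_self hz]

theorem r1_prj (x : PP n) : R1 (prj x.rep) :=
  ⟨prj_idem x.rep_nonzero, ⟨x.rep, (fix_iff x _).2 (rep_rep x)⟩, fun y z hy h1 h2 => by
    by_cases g : z = 0
    · exact ⟨0, by rw [g, zero_smul]⟩
    · obtain ⟨s, -, e⟩ := ((fix_iff x y).1 ⟨hy, h1⟩).exists_smul ((fix_iff x z).1 ⟨g, h2⟩)
      exact ⟨s, e⟩⟩

/-- local continuous choice of homogeneous coordinates -/
theorem exists_sec (x₀ : PP n) :
    ∃ σ : PP n → VV n, Continuous σ ∧ ∀ᶠ x in 𝓝 x₀, Rep (σ x) x := by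
  have hc : Continuous fun x : PP n => prj x.rep x₀.rep :=
    continuous_prj.clm_apply continuous_const
  refine ⟨_, hc, ?_⟩
  have h0 : prj x₀.rep x₀.rep ≠ 0 := by rw [prj_self x₀.rep_nonzero]; exact x₀.rep_nonzero
  filter_upwards [hc.continuousAt.eventually_ne h0] with x hx
  exact (fix_iff x _).1 ⟨hx, prj_idem x.rep_nonzero _⟩

theorem mev_smul {m e : ℕ} {p : Fin (n + 1) → MvPolynomial (Fin (m + 1)) ℂ}
    (hp : ∀ i, (p i).IsHomogeneous e) (s : ℂ) (v : VV m) : mev p (s • v) = s ^ e • mev p v :=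
  funext fun i => eval_smul (hp i) s v

end TopQ

open TopQ

theorem continuousOn_toP : ContinuousOn (toP : VV n → PP n) {0}ᶜ := by
  rw [continuousOn_iff_continuous_domRestrict]
  have h : Continuous (Projectivization.mk' ℂ : {v : VV n // v ≠ 0} → PP n) :=
    continuous_coinduced_rng
  exact h.congr mk_eq

theorem oc_cone {U : Set (PP n)} (hU : IsOpen U) : OC (cone U) := by
  refine ⟨?_, fun u hu => (mem_cone.1 hu).1, fun u ⟨x, hx, h⟩ a ha => ⟨x, hx, h.smul ha⟩⟩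
  have e : cone U = {0}ᶜ ∩ toP ⁻¹' U := Set.ext fun _ => mem_cone
  rw [e]
  exact continuousOn_toP.isOpen_inter_preimage isOpen_compl_singleton hU

theorem sat_flags {T : Set (PP n × Submodule ℂ (VV n))} (h : IsOpen (flags T)) :
    Sat (flags T) := by
  refine ⟨h, fun u v m => i2_iff.1 m.1, fun u v a b c ha hb m => ?_⟩
  obtain ⟨h1, x, hx, hT⟩ := m
  refine ⟨i2_iff.2 ((i2_iff.1 h1).sat c ha hb), x, hx.smul ha, ?_⟩
  have e : Submodule.span ℂ {a • u, b • v + c • u} = Submodule.span ℂ {u, v} := by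
    refine le_antisymm (Submodule.span_le.2 (Set.pair_subset ?_ ?_))
      (Submodule.span_le.2 (Set.pair_subset ?_ ?_))
    · exact Submodule.mem_span_pair.2 ⟨a, 0, by rw [zero_smul, add_zero]⟩
    · exact Submodule.mem_span_pair.2 ⟨c, b, add_comm _ _⟩
    · exact Submodule.mem_span_pair.2 ⟨a⁻¹, 0, by rw [zero_smul, add_zero, inv_smul_smul₀ ha]⟩
    · refine Submodule.mem_span_pair.2 ⟨-(b⁻¹ * c * a⁻¹), b⁻¹, ?_⟩
      rw [smul_add, inv_smul_smul₀ hb, smul_smul, smul_smul, neg_mul, inv_mul_cancel_right₀ ha,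
        neg_smul]
      abel
  exact e ▸ hT

/-- the bundle defined by a continuous map to projective space -/
theorem exists_pf {K : ℕ} {U : Set (PP n)} {g : PP n → PP K} (hg : ContinuousOn g U) :
    ∃ π : VV n → VV K →L[ℂ] VV K, PF (cone U) π ∧
      ∀ u ∈ cone U, ∀ y, (y ≠ 0 ∧ π u y = y) ↔ Rep y (g (toP u)) := by
  refine ⟨fun u => prj (g (toP u)).rep, ⟨?_, fun u hu a ha => ?_, fun u _ => r1_prj _⟩,
    fun u _ y => fix_iff _ y⟩
  · exact continuous_prj.comp_continuousOn (hg.comp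
      (continuousOn_toP.mono fun u hu => (mem_cone.1 hu).1) fun u hu => (mem_cone.1 hu).2)
  · rw [toP_smul (mem_cone.1 hu).1 ha]

theorem hasDeg_iff {K m : ℕ} {U : Set (PP n)} {g : PP n → PP K} {π : VV n → VV K →L[ℂ] VV K}
    (hπ : ∀ u ∈ cone U, ∀ y, (y ≠ 0 ∧ π u y = y) ↔ Rep y (g (toP u))) {Y : Set (PP m)}
    {μ : PP m → PP n} {p : VV m → VV n} (h : ∀ y ∈ Y, ∀ v, Rep v y → Rep (p v) (μ y) ∧ μ y ∈ U)
    (k : ℤ) : HasDeg Y (g ∘ μ) k ↔ Dg (cone Y) (fun v => π (p v)) k := by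
  have key : ∀ y ∈ Y, ∀ v, Rep v y → ∀ z, (z ≠ 0 ∧ π (p v) z = z) ↔ Rep z (g (μ y)) := by
    intro y hy v hv z
    obtain ⟨h1, h2⟩ := h y hy v hv
    rw [hπ (p v) ⟨_, h2, h1⟩ z, h1.toP_eq]
  refine exists_congr fun L => ⟨fun ⟨c, r, s⟩ => ⟨⟨c, fun v ⟨y, hy, hv⟩ => ?_⟩, s⟩,
    fun ⟨⟨c, r⟩, s⟩ => ⟨c, fun y hy v hv => ?_, s⟩⟩
  · exact (key y hy v hv _).2 (r y hy v hv)
  · exact (key y hy v hv _).1 (r v ⟨y, hy, hv⟩)

theorem dg_univ {W : Type} [NormedAddCommGroup W] [NormedSpace ℂ W] (φ : ℂ × ℂ → W →L[ℂ] W)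
    (k : ℤ) : Dg (cone (Set.univ : Set (PP 1))) (fun v => φ (v 0, v 1)) k ↔ Dg {0}ᶜ φ k := by
  have h1 : ∀ x : ℂ × ℂ, x ∈ ({0}ᶜ : Set (ℂ × ℂ)) →
      (![x.1, x.2] : VV 1) ∈ cone (Set.univ : Set (PP 1)) := fun x hx =>
    mem_cone.2 ⟨fun c => hx (Prod.ext (congrFun c 0) (congrFun c 1)), Set.mem_univ _⟩
  have h2 : ∀ v : VV 1, v ∈ cone (Set.univ : Set (PP 1)) →
      (v 0, v 1) ∈ ({0}ᶜ : Set (ℂ × ℂ)) := fun v hv c => (mem_cone.1 hv).1 (by
    have c' : (v 0, v 1) = 0 := c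
    rw [Prod.mk_eq_zero] at c'
    ext i
    fin_cases i
    exacts [c'.1, c'.2])
  constructor
  · rintro ⟨L, ⟨c, r⟩, s⟩
    refine ⟨fun x => L ![x.1, x.2], ⟨c.comp (by fun_prop) h1, fun x hx => r _ (h1 x hx)⟩,
      fun x hx t ht => ?_⟩
    rw [← s _ (h1 x hx) t ht]
    refine congrArg L ?_
    ext i
    fin_cases i <;> rfl
  · rintro ⟨L, ⟨c, r⟩, s⟩
    exact ⟨fun v => L (v 0, v 1), ⟨c.comp (by fun_prop) h2, fun v hv => r _ (h2 v hv)⟩,
      fun v hv t ht => s _ (h2 v hv) t ht⟩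

/-- the map given by a tuple of forms followed by a linear map -/
noncomputable def mu {m : ℕ} (p : Fin (n + 1) → MvPolynomial (Fin (m + 1)) ℂ)
    (A : VV n →L[ℂ] VV n) (x : PP m) : PP n := toP (A (mev p x.rep))

section

variable {m e : ℕ} {p : Fin (n + 1) → MvPolynomial (Fin (m + 1)) ℂ} {Y : Set (PP m)}
  {A A' : VV n →L[ℂ] VV n}

theorem rep_mu (hp : ∀ i, (p i).IsHomogeneous e) (h : ∀ v ∈ cone Y, A (mev p v) ≠ 0) {y : PP m}
    (hy : y ∈ Y) {v : VV m} (hv : Rep v y) : Rep (A (mev p v)) (mu p A y) := by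
  obtain ⟨s, hs, rfl⟩ := (rep_rep y).exists_smul hv
  rw [mev_smul hp, map_smul]
  exact (rep_toP (h _ ⟨y, hy, rep_rep y⟩)).smul (pow_ne_zero _ hs)

theorem isMorphism_mu (hp : ∀ i, (p i).IsHomogeneous e) (h : ∀ v ∈ cone Y, A (mev p v) ≠ 0) :
    IsMorphism Y (mu p A) := by
  intro x _
  refine ⟨e, 0, fun i => ∑ j, MvPolynomial.C (A (Pi.single j 1) i) * p j, 1,
    fun i => .sum _ _ _ fun j _ => (hp j).C_mul _, MvPolynomial.isHomogeneous_one _ _,
    fun c => ?_, fun y hy v hv _ => ?_⟩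
  · simpa using c _ (rep_rep x) 1 rfl
  · have e1 : (fun i => MvPolynomial.eval v (∑ j, MvPolynomial.C (A (Pi.single j 1) i) * p j))
        = A (mev p v) := by
      ext i
      rw [clm_eq_sum]
      simp [mev]
    rw [e1]
    exact rep_mu hp h hy hv

theorem homotopicIn_mu (hp : ∀ i, (p i).IsHomogeneous e) {U : Set (PP n)}
    (h : ∀ t ∈ I1, ∀ v ∈ cone Y, ((1 - t) • A + t • A') (mev p v) ∈ cone U) :
    HomotopicIn U Y (mu p A) (mu p A') := by
  have z0 : ∀ B : VV n →L[ℂ] VV n, (0 : ℝ) • B = 0 := fun B => zero_smul ℝ B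
  refine ⟨fun q => mu p ((1 - q.1) • A + q.1 • A') q.2, fun q hq => ?_,
    fun q hq => (mem_cone.1 (h q.1 hq.1 _ ⟨q.2, hq.2, rep_rep _⟩)).2,
    fun y _ => ⟨by simp [z0], by simp [z0]⟩⟩
  obtain ⟨σ, hσ, hr⟩ := exists_sec q.2
  have key : ∀ z ∈ I1 ×ˢ Y, Rep (σ z.2) z.2 → Rep (((1 - z.1) • A + z.1 • A') (mev p (σ z.2)))
      (mu p ((1 - z.1) • A + z.1 • A') z.2) := fun z hz g =>
    rep_mu hp (fun v hv => (mem_cone.1 (h z.1 hz.1 v hv)).1) hz.2 g
  have c1 : Continuous fun z : ℝ × PP m => ((1 - z.1) • A + z.1 • A') (mev p (σ z.2)) :=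
    Continuous.clm_apply (by fun_prop) ((continuous_mev p).comp (hσ.comp continuous_snd))
  have k0 := key q hq hr.self_of_nhds
  have c2 := (continuousOn_toP.continuousAt (isOpen_compl_singleton.mem_nhds k0.ne)).comp
    (f := fun z : ℝ × PP m => ((1 - z.1) • A + z.1 • A') (mev p (σ z.2))) c1.continuousAt
  refine c2.continuousWithinAt.congr_of_eventuallyEq ?_ k0.toP_eq.symm
  filter_upwards [self_mem_nhdsWithin,
    (continuous_snd.continuousAt.eventually hr).filter_mono nhdsWithin_le_nhds] with z h1 h2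
  exact (key z h1 h2).toP_eq.symm

end

theorem tangentLiftIn_mu {e : ℕ} {p : Fin (n + 1) → MvPolynomial (Fin (2 + 1)) ℂ}
    {A : VV n →L[ℂ] VV n} (hp : ∀ i, (p i).IsHomogeneous e)
    {T : Set (PP n × Submodule ℂ (VV n))} (hT : IsOpen (flags T))
    (h0 : ∀ v ∈ E0, A (mev p v) ≠ 0)
    (h : ∀ v ∈ E0, ∀ τ, Tc v τ → I2 v τ → (A (mev p v), A (fderiv ℂ (mev p) v τ)) ∈ flags T) :
    TangentLiftIn (cubic (-1) 0) (mu p A) T := by
  intro f F G hF hG he hi
  have dF := hF.differentiableAt.hasDerivAt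
  have dG := hG.differentiableAt.hasDerivAt
  have dΦ : HasDerivAt (fun w => A (mev p (F w))) (A (fderiv ℂ (mev p) (F 0) (deriv F 0))) 0 :=
    A.hasFDerivAt.comp_hasDerivAt 0
      ((analyticAt_mev p (F 0)).differentiableAt.hasFDerivAt.comp_hasDerivAt 0 dF)
  obtain ⟨m0, r0, g0⟩ := he.self_of_nhds
  have hc : Tc (F 0) (deriv F 0) := by
    have d := hasDerivAt_pi.1 dF
    have d1 := ((d 1).pow 2).mul (d 2)
    have d2 := ((d 0).pow 3).sub ((d 0).mul ((d 2).pow 2))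
    have e1 := d1.unique (d2.congr_of_eventuallyEq (he.mono fun w hw => by
      have := hw.1 _ hw.2.1
      simp only [Pi.mul_apply, Pi.pow_apply, Pi.sub_apply]
      linear_combination this))
    simp only [Pi.pow_apply] at e1
    unfold Tc
    push_cast at e1
    linear_combination e1
  obtain ⟨i, hi0⟩ := Function.ne_iff.1 (h0 _ ⟨_, m0, r0⟩)
  have hi1 : A (mev p (F 0)) i ≠ 0 := hi0
  have d3 := hasDerivAt_pi.1 dΦ i
  have e2 : ∀ᶠ w in 𝓝 (0 : ℂ), G w = (G w i / A (mev p (F w)) i) • A (mev p (F w)) := by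
    filter_upwards [he, d3.continuousAt.eventually_ne hi1] with w hw h1
    obtain ⟨s, -, e3⟩ := (rep_mu hp h0 hw.1 hw.2.1).exists_smul hw.2.2
    rw [e3, Pi.smul_apply, smul_eq_mul, mul_div_cancel_right₀ _ h1]
  refine (sat_flags hT).reparam (φ := id) (s := fun w => G w i / A (mev p (F w)) i) dG dΦ
    ((hasDerivAt_pi.1 dG i).div d3 hi1) (hasDerivAt_id 0) (fun c => g0.ne ?_) one_ne_zero e2
    (h _ ⟨_, m0, r0⟩ _ hc (i2_iff.1 hi))
  rw [e2.self_of_nhds, show G 0 i / A (mev p (F 0)) i = 0 from c, zero_smul]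

end Pool.Agent.Lib.MP_879098_ag.Q2
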