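import Pool.Agent.Lib.MP_879098_ag.QSeg
import Pool.Agent.Lib.MP_879098_ag.SDense

/-! The rational curves on the surface form a quadric section. -/

namespace Pool.Agent.Lib.MP_879098_ag.Q2

open Polynomial Filter Topology Metric Sm Sm.Dn

theorem rep_nu {n : ℕ} {P : Tup n} {d : ℕ} (h : ∀ x, x ≠ 0 → hom P d x ≠ 0) {v : VV 1} {x : PP 1}
    (hv : Rep v x) : Rep (hom P d (v 0, v 1)) (nu P d x) := by
  obtain ⟨s, hs, rfl⟩ := (rep_rep x).exists_smul hv
  have h1 := (rep_toP (h (x.rep 0, x.rep 1) fun e => ?_)).smul (pow_ne_zero d hs)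
  · rwa [← hom_smul] at h1
  · rcases ne_or x.rep_nonzero with g | g
    exacts [g (congrArg Prod.fst e), g (congrArg Prod.snd e)]

theorem isMorphism_nu {n : ℕ} {P : Tup n} {d : ℕ} (h : ∀ x, x ≠ 0 → hom P d x ≠ 0) :
    IsMorphism Set.univ (nu P d) := by
  intro x _
  refine ⟨d, 0, fun i => ∑ j ∈ Finset.range (d + 1), MvPolynomial.C ((P i).coeff j) *
    (MvPolynomial.X 0 ^ (d - j) * MvPolynomial.X 1 ^ j), 1, fun i => .sum _ _ _ fun j hj => ?_,
    MvPolynomial.isHomogeneous_one _ _, fun c => ?_, fun y _ v hv _ => ?_⟩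
  · have := ((MvPolynomial.isHomogeneous_X_pow (R := ℂ) (0 : Fin (1 + 1)) (d - j)).mul
      (MvPolynomial.isHomogeneous_X_pow 1 j)).C_mul ((P i).coeff j)
    rwa [Nat.sub_add_cancel (Nat.lt_succ_iff.1 (Finset.mem_range.1 hj))] at this
  · simpa using c _ (rep_rep x) 1 rfl
  · convert rep_nu h hv using 1
    ext i
    simp [hom, ptop, mul_comm]

namespace Zro

/-- the point zero or infinity -/
def ov (b : Bool) : VV 1 := if b then ![0, 1] else ![1, 0]

/-- the free coordinate -/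
def fv (b : Bool) (x : ℂ × ℂ) : VV 1 := if b then ![x.2, x.1] else ![x.1, x.2]

open Classical in
/-- the curves in homogeneous coordinates -/
noncomputable def W0 (k : ℕ) (b : Bool) : Option ℂ → ℂ × ℂ → W6
  | none, x => ![![x.1, x.2], ![x.1, sg b * x.2], ![x.1 ^ 2, sg b * x.2 ^ 2], ov b, ov b, ov b]
  | some c, x => ![![1, c], ![1, sg b * c], ![1, sg b * c ^ 2],
      if (sg b * c ^ 2) ^ k = sg b then fv b x else ov b,
      if (sg b * c ^ 2) ^ k = sg b then ov b else fv b x, ov b]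

open Classical in
/-- the degrees of the factors -/
noncomputable def d0 (k : ℕ) (b : Bool) : Option ℂ → Fin 6 → ℕ
  | none => ![1, 1, 2, 0, 0, 0]
  | some c => if (sg b * c ^ 2) ^ k = sg b then ![0, 0, 0, 1, 0, 0] else ![0, 0, 0, 0, 1, 0]

/-- exchange of the two halves -/
def sw (a : Bool) (u : W6) : W6 := fun j => u (if a then j + 3 else j)

/-- the quadric on pure tensors -/
def gg (u : W6) : ℂ :=
  (u 0 0 ^ 2 * u 2 1 - u 0 1 ^ 2 * u 2 0) * (u 1 0 ^ 2 * u 2 1 - u 1 1 ^ 2 * u 2 0) *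
    ((u 3 0 ^ 2 * u 5 1 - u 3 1 ^ 2 * u 5 0) * (u 4 0 ^ 2 * u 5 1 - u 4 1 ^ 2 * u 5 0))

/-- the quadric -/
noncomputable def GG : MvPolynomial (Fin (63 + 1)) ℂ :=
  ∑ a : Fin 2, ∑ b : Fin 2, ∑ c : Fin 2, ∑ d : Fin 2,
    MvPolynomial.C (![1, -1] a * ![1, -1] b * ![1, -1] c * ![1, -1] d) *
      (MvPolynomial.X (idx.symm ![a, b, ![1, 0] a, c, d, ![1, 0] c]) *
        MvPolynomial.X (idx.symm ![a, b, ![1, 0] b, c, d, ![1, 0] d]))

theorem GG_hom : GG.IsHomogeneous 2 :=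
  .sum _ _ _ fun _ _ => .sum _ _ _ fun _ _ => .sum _ _ _ fun _ _ => .sum _ _ _ fun _ _ =>
    ((MvPolynomial.isHomogeneous_X _ _).mul (MvPolynomial.isHomogeneous_X _ _)).C_mul _

theorem eval_GG (u : W6) : MvPolynomial.eval (seg u) GG = gg u := by
  simp [GG, gg, seg_idx, Fin.prod_univ_six]
  ring

theorem mem_zero {u : W6} {x : PP 63} (h : Rep (seg u) x) : x ∈ zeroSet {GG} ↔ gg u = 0 := by
  refine ⟨fun g => (eval_GG u).symm.trans (g _ h _ rfl), fun g v hv F hF => ?_⟩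
  obtain ⟨s, -, rfl⟩ := h.exists_smul hv
  rw [hF, Morph.eval_smul GG_hom, eval_GG, g, mul_zero]

theorem gg_sw (a : Bool) (u : W6) : gg (sw a u) = gg u := by
  cases a
  · rfl
  · exact mul_comm _ _

theorem sw_sw (a : Bool) (u : W6) : sw a (sw a u) = u := by
  cases a
  · rfl
  · funext j; fin_cases j <;> rfl

theorem sol_sw {k : ℕ} {u : W6} (h : Sol k u) (a : Bool) : Sol k (sw a u) := by
  cases a
  · exact h
  · exact ⟨fun _ => h.1 _, h.2.2, h.2.1⟩

theorem deg_U0 (k : ℕ) (b : Bool) (o : Option ℂ) (j : Fin 6) (a : Fin (1 + 1)) :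
    (U0 k b o j a).natDegree ≤ d0 k b o j := by
  rcases o with _ | c
  · cases b <;> fin_cases j <;> fin_cases a <;> simp [U0, d0, oo, sg]
  · by_cases h : (sg b * c ^ 2) ^ k = sg b <;> simp only [U0, d0, h, if_true, if_false] <;>
      cases b <;> fin_cases j <;> fin_cases a <;> simp [oo, fr, -map_mul, -map_pow]

theorem hom_U0 (k : ℕ) (b : Bool) (o : Option ℂ) (j : Fin 6) (x : ℂ × ℂ) :
    hom (U0 k b o j) (d0 k b o j) x = W0 k b o x j := by
  ext a
  rcases o with _ | c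
  · cases b <;> fin_cases j <;> fin_cases a <;>
      simp [U0, d0, W0, oo, ov, sg, hom, ptop, coeff_one, coeff_X,
        coeff_X_pow]
  · by_cases h : (sg b * c ^ 2) ^ k = sg b <;> simp only [U0, d0, W0, h, if_true, if_false] <;>
      cases b <;> fin_cases j <;> fin_cases a <;>
      simp [oo, fr, ov, fv, hom, ptop, coeff_one, coeff_X, -map_mul,
        -map_pow]

theorem hom_RR (k : ℕ) (i : II k) (x : ℂ × ℂ) :
    hom (RR k i) (dd k i) x = seg (sw i.1 (W0 k i.2.1 (i.2.2.map (↑)) x)) := by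
  have e : dd k i = ∑ j, d0 k i.2.1 (i.2.2.map (↑)) (if i.1 then j + 3 else j) := by
    obtain ⟨a, b, _ | c⟩ := i
    · cases a <;> simp [dd, d0, Fin.sum_univ_six]
    · by_cases h : (sg b * (c : ℂ) ^ 2) ^ k = sg b <;> cases a <;>
        simp [dd, d0, h, Fin.sum_univ_six]
  rw [e, RR, hom_segP (U := UU k i) fun j a => deg_U0 _ _ _ _ a]
  exact congrArg seg (funext fun j => hom_U0 _ _ _ _ x)

theorem sg_sq (b : Bool) : sg b ^ 2 = 1 := by cases b <;> simp [sg]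

theorem vec_ne {p q : ℂ} (h : p ≠ 0 ∨ q ≠ 0) : (![p, q] : Fin 2 → ℂ) ≠ 0 := fun e =>
  h.elim (fun g => g (congrFun e 0)) fun g => g (congrFun e 1)

theorem W0_ne (k : ℕ) (b : Bool) (o : Option ℂ) {x : ℂ × ℂ} (hx : x ≠ 0) (j : Fin 6) :
    W0 k b o x j ≠ 0 := by
  have h : x.1 ≠ 0 ∨ x.2 ≠ 0 := by
    by_contra c
    rw [not_or, not_not, not_not] at c
    exact hx (Prod.ext c.1 c.2)
  have h1 : ov b ≠ 0 := by cases b <;> exact vec_ne (by simp)
  have h2 : fv b x ≠ 0 := by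
    cases b
    exacts [vec_ne h, vec_ne h.symm]
  have h3 : sg b ≠ 0 := by cases b <;> simp [sg]
  rcases o with _ | c
  · fin_cases j
    exacts [vec_ne h, vec_ne (h.imp_right (mul_ne_zero h3)),
      vec_ne (h.imp (pow_ne_zero 2) fun g => mul_ne_zero h3 (pow_ne_zero 2 g)), h1, h1, h1]
  · by_cases g : (sg b * c ^ 2) ^ k = sg b <;> simp only [W0, g, if_true, if_false] <;> fin_cases j
    exacts [vec_ne (by simp), vec_ne (by simp), vec_ne (by simp), h2, h1, h1,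
      vec_ne (by simp), vec_ne (by simp), vec_ne (by simp), h1, h2, h1]

theorem sol_W0 {k : ℕ} (hk : 0 < k) (b : Bool) (o : Option (nthRootsFinset (4 * k) (1 : ℂ)))
    {x : ℂ × ℂ} (hx : x ≠ 0) : Sol k (W0 k b (o.map (↑)) x) ∧ gg (W0 k b (o.map (↑)) x) = 0 := by
  rw [Sol, and_iff_right (W0_ne k b _ hx)]
  rcases o with _ | ⟨c, hc⟩
  · cases b <;> simp [W0, Zr, gg, ov, sg, hk.ne', sq, mul_comm]
  · have h1 : ((sg b * c ^ 2) ^ k) ^ 2 = sg b ^ 2 := by
      rw [← pow_mul, mul_comm k, pow_mul, mul_pow, sg_sq, one_mul, ← pow_mul, ← pow_mul,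
        show 2 * (2 * k) = 4 * k by ring]
      exact (mem_nthRootsFinset (by omega) _).1 hc
    by_cases g : (sg b * c ^ 2) ^ k = sg b
    · simp only [Option.map, W0, g, if_true]
      cases b <;> simp only [sg] at g <;> simp [Zr, gg, ov, fv, sg, hk.ne', sq] at g ⊢ <;> simp [g]
    · have g' := (sq_eq_sq_iff_eq_or_eq_neg.1 h1).resolve_left g
      simp only [Option.map, W0, g, if_false]
      cases b <;> simp only [sg] at g' <;> simp [Zr, gg, ov, fv, sg, hk.ne', sq] at g' ⊢ <;>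
        simp [g']

theorem RR_ne (k : ℕ) (i : II k) (x : ℂ × ℂ) (hx : x ≠ 0) : hom (RR k i) (dd k i) x ≠ 0 := by
  rw [hom_RR]
  exact seg_ne_iff.2 fun _ => W0_ne _ _ _ hx _

theorem pair_ne {v : VV 1} (h : v ≠ 0) : (v 0, v 1) ≠ 0 ∧ (v 1, v 0) ≠ 0 := by
  rcases ne_or h with g | g <;> simp [g]

theorem core {l0 l1 m0 m1 s0 s1 σ : ℂ} (hm : m0 ≠ 0 ∨ m1 ≠ 0) (h1 : l1 * m1 * s0 = l0 * m0 * s1)
    (h2 : m1 * l0 = m0 * (σ * l1)) : s1 * l0 ^ 2 = s0 * (σ * l1 ^ 2) := by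
  rcases hm with g | g <;> refine mul_left_cancel₀ g ?_
  · linear_combination (-l0) * h1 + l1 * s0 * h2
  · linear_combination (-σ * l1) * h1 + l0 * s1 * h2

theorem leaf_c {k : ℕ} (hk : 0 < k) {l0 l1 s0 s1 σ ε : ℂ} (hl : l0 ≠ 0 ∨ l1 ≠ 0)
    (hs : s0 ≠ 0 ∨ s1 ≠ 0) (hσ : σ ^ 2 = 1) (hε : ε ^ 2 = 1)
    (h1 : s1 * l0 ^ 2 = s0 * (σ * l1 ^ 2)) (h2 : s1 ^ k = ε * s0 ^ k) :
    ∃ c ∈ nthRootsFinset (4 * k) (1 : ℂ), l0 ≠ 0 ∧ l1 = l0 * c ∧ s1 = s0 * (σ * c ^ 2) ∧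
      (σ * c ^ 2) ^ k = ε := by
  have a1 : s0 ≠ 0 := fun e => by
    rw [e, zero_pow hk.ne', mul_zero, pow_eq_zero_iff hk.ne'] at h2
    tauto
  have a2 : l0 ≠ 0 := fun e => by
    have : s0 * l1 ^ 2 = 0 := by
      rw [e] at h1
      linear_combination (-σ) * h1 - s0 * l1 ^ 2 * hσ
    simp only [mul_eq_zero, pow_eq_zero_iff two_ne_zero] at this
    tauto
  have a3 : s1 = s0 * (σ * (l1 / l0) ^ 2) := by field_simp; linear_combination h1
  have a4 : (σ * (l1 / l0) ^ 2) ^ k = ε := by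
    rw [a3, mul_pow, mul_comm] at h2
    exact mul_right_cancel₀ (pow_ne_zero k a1) h2
  refine ⟨l1 / l0, (mem_nthRootsFinset (by omega) _).2 ?_, a2, by field_simp, a3, a4⟩
  rw [← hε, ← a4, ← pow_mul, mul_comm k, pow_mul (σ * _), mul_pow, hσ, one_mul, ← pow_mul,
    ← pow_mul, show 2 * (2 * k) = 4 * k by ring]

/-- proportional factors -/
def Par (u u' : W6) : Prop := ∀ j, u j 1 * u' j 0 = u j 0 * u' j 1

theorem classify {k : ℕ} (hk : 0 < k) {u : W6} (h : Sol k u) (ht : u 5 0 * u 5 1 = 0) :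
    ∃ (b : Bool) (o : Option (nthRootsFinset (4 * k) (1 : ℂ))) (x : ℂ × ℂ), x ≠ 0 ∧
      Par u (W0 k b (o.map (↑)) x) := by
  obtain ⟨h0, ⟨a1, a2⟩, b1, b2⟩ := h
  have n0 := ne_or (h0 0)
  have n2 := ne_or (h0 2)
  have n3 := ne_or (h0 3)
  have n4 := ne_or (h0 4)
  have n5 := ne_or (h0 5)
  rcases mul_eq_zero.1 ht with t0 | t1
  · have t1 := n5.resolve_left (not_not.2 t0)
    have hm : u 1 1 * u 0 0 = u 1 0 * (sg true * u 0 1) := by
      refine mul_right_cancel₀ (pow_ne_zero k t1) ?_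
      rw [t0, zero_pow hk.ne'] at a2
      simp only [sg, if_true]
      linear_combination -a2
    have hs := core (ne_or (h0 1)) a1 hm
    have hp : u 3 0 * u 4 0 = 0 := mul_right_cancel₀ t1 (by rw [← b1, t0]; ring)
    by_cases p0 : u 3 0 = 0 <;> by_cases q0 : u 4 0 = 0
    · refine ⟨true, none, _, (pair_ne (h0 0)).1, fun j => ?_⟩
      fin_cases j <;> simp [W0, ov, p0, q0, t0, hm, hs]
      exact mul_comm _ _
    · have p1 := n3.resolve_left (not_not.2 p0)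
      obtain ⟨c, hc, c0, c1, c2, c3⟩ := leaf_c hk n0 n2 (sg_sq true) (one_pow 2) hs
        (mul_left_cancel₀ (mul_ne_zero p1 q0) (by rw [p0] at b2; linear_combination -b2))
      have c4 : u 1 1 = u 1 0 * (sg true * c) :=
        mul_right_cancel₀ c0 (by rw [hm, c1]; ring)
      have c5 : ¬ (sg true * c ^ 2) ^ k = sg true := by rw [c3]; norm_num [sg]
      refine ⟨true, some ⟨c, hc⟩, _, (pair_ne (h0 4)).2, fun j => ?_⟩
      simp only [Option.map, W0, c5, if_false]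
      fin_cases j <;> simp [ov, fv, p0, t0, c1, c2, c4]
      exact mul_comm _ _
    · have q1 := n4.resolve_left (not_not.2 q0)
      obtain ⟨c, hc, c0, c1, c2, c3⟩ := leaf_c hk n0 n2 (sg_sq true) (sg_sq true) hs
        (mul_left_cancel₀ (mul_ne_zero p0 q1) (by
          rw [q0] at b2; simp only [sg, if_true]; linear_combination -b2))
      have c4 : u 1 1 = u 1 0 * (sg true * c) :=
        mul_right_cancel₀ c0 (by rw [hm, c1]; ring)
      refine ⟨true, some ⟨c, hc⟩, _, (pair_ne (h0 3)).2, fun j => ?_⟩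
      simp only [Option.map, W0, c3, if_true]
      fin_cases j <;> simp [ov, fv, q0, t0, c1, c2, c4]
      exact mul_comm _ _
    · exact absurd hp (mul_ne_zero p0 q0)
  · have t0 := n5.resolve_right (not_not.2 t1)
    have hm : u 1 1 * u 0 0 = u 1 0 * (sg false * u 0 1) := by
      refine mul_right_cancel₀ (pow_ne_zero k t0) ?_
      rw [t1, zero_pow hk.ne'] at a2
      simp only [sg, Bool.false_eq_true, if_false]
      linear_combination -a2
    have hs := core (ne_or (h0 1)) a1 hm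
    have hp : u 3 1 * u 4 1 = 0 := mul_right_cancel₀ t0 (by rw [b1, t1]; ring)
    by_cases p1 : u 3 1 = 0 <;> by_cases q1 : u 4 1 = 0
    · refine ⟨false, none, _, (pair_ne (h0 0)).1, fun j => ?_⟩
      fin_cases j <;> simp [W0, ov, p1, q1, t1, hm, hs]
      exact mul_comm _ _
    · have p0 := n3.resolve_right (not_not.2 p1)
      obtain ⟨c, hc, c0, c1, c2, c3⟩ := leaf_c hk n0 n2 (sg_sq false) neg_one_sq hs
        (mul_left_cancel₀ (mul_ne_zero p0 q1) (by rw [p1] at b2; linear_combination -b2))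
      have c4 : u 1 1 = u 1 0 * (sg false * c) :=
        mul_right_cancel₀ c0 (by rw [hm, c1]; ring)
      have c5 : ¬ (sg false * c ^ 2) ^ k = sg false := by rw [c3]; norm_num [sg]
      refine ⟨false, some ⟨c, hc⟩, _, (pair_ne (h0 4)).1, fun j => ?_⟩
      simp only [Option.map, W0, c5, if_false]
      fin_cases j <;> simp [ov, fv, p1, t1, c1, c2, c4]
      exact mul_comm _ _
    · have q0 := n4.resolve_right (not_not.2 q1)
      obtain ⟨c, hc, c0, c1, c2, c3⟩ := leaf_c hk n0 n2 (sg_sq false) (sg_sq false) hs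
        (mul_left_cancel₀ (mul_ne_zero p1 q0) (by
          rw [q1] at b2; simp only [sg, Bool.false_eq_true, if_false]; linear_combination -b2))
      have c4 : u 1 1 = u 1 0 * (sg false * c) :=
        mul_right_cancel₀ c0 (by rw [hm, c1]; ring)
      refine ⟨false, some ⟨c, hc⟩, _, (pair_ne (h0 3)).1, fun j => ?_⟩
      simp only [Option.map, W0, c3, if_true]
      fin_cases j <;> simp [ov, fv, q1, t1, c1, c2, c4]
      exact mul_comm _ _
    · exact absurd hp (mul_ne_zero p1 q1)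

theorem Par.rep {u u' : W6} {x : PP 63} (h : Par u u') (hu : Rep (seg u) x) (hu' : ∀ j, u' j ≠ 0) :
    Rep (seg u') x := by
  choose c c0 c1 c2 using fun j => par_of (ne_or (hu' j)) (ne_or (seg_ne_iff.1 hu.ne j))
    (by linear_combination -h j)
  rw [show u' = fun j => c j • u j from funext fun j => funext fun a => by
    fin_cases a
    exacts [c1 j, c2 j], seg_smul]
  exact hu.smul (Finset.prod_ne_zero_iff.2 fun j _ => c0 j)

theorem half {k : ℕ} {l0 l1 m0 m1 s0 s1 t0 t1 : ℂ} (hl : l0 ≠ 0 ∨ l1 ≠ 0)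
    (hm : m0 ≠ 0 ∨ m1 ≠ 0) (hs : s0 * s1 ≠ 0) (h1 : l1 * m1 * s0 = l0 * m0 * s1)
    (h2 : l1 * m0 * (t0 ^ k - t1 ^ k) = l0 * m1 * (t0 ^ k + t1 ^ k))
    (h : (l0 ^ 2 * s1 - l1 ^ 2 * s0) * (m0 ^ 2 * s1 - m1 ^ 2 * s0) = 0) : t0 * t1 = 0 := by
  have key : ∀ {l0 l1 m0 m1 : ℂ}, (l0 ≠ 0 ∨ l1 ≠ 0) → (m0 ≠ 0 ∨ m1 ≠ 0) →
      l1 * m1 * s0 = l0 * m0 * s1 → l0 ^ 2 * s1 - l1 ^ 2 * s0 = 0 →
      l1 * m0 = l0 * m1 ∧ l0 * m1 ≠ 0 := by
    intro l0 l1 m0 m1 hl hm h1 h
    obtain ⟨s0', s1'⟩ := mul_ne_zero_iff.1 hs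
    have a0 : l0 ≠ 0 := fun e => by
      have : l1 ^ 2 * s0 = 0 := by rw [e] at h; linear_combination -h
      simp only [mul_eq_zero, pow_eq_zero_iff two_ne_zero] at this
      tauto
    have a1 : l1 ≠ 0 := fun e => by
      have : l0 ^ 2 * s1 = 0 := by rw [e] at h; linear_combination h
      simp only [mul_eq_zero, pow_eq_zero_iff two_ne_zero] at this
      tauto
    have a2 : l1 * m0 = l0 * m1 := mul_left_cancel₀ (mul_ne_zero a1 s0')
      (by linear_combination (-l0) * h1 - m0 * h)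
    refine ⟨a2, mul_ne_zero a0 fun e => ?_⟩
    rw [e, mul_zero, mul_eq_zero] at a2
    tauto
  have a : l1 * m0 = l0 * m1 ∧ l0 * m1 ≠ 0 := by
    rcases mul_eq_zero.1 h with g | g
    · exact key hl hm h1 g
    · obtain ⟨a1, a2⟩ := key hm hl (by linear_combination h1) g
      exact ⟨by linear_combination -a1, fun e => a2 (by linear_combination e - a1)⟩
  have b : t1 ^ k = 0 := mul_left_cancel₀ (mul_ne_zero two_ne_zero a.2)
    (by linear_combination -h2 + (t0 ^ k - t1 ^ k) * a.1)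
  rw [eq_zero_of_pow_eq_zero b, mul_zero]

end Zro

open Zro

theorem injective_nu {k : ℕ} (hk : 0 < k) (i : II k) :
    Function.Injective (nu (RR k i) (dd k i)) := by
  intro x y e
  have h1 := rep_nu (RR_ne k i) (rep_rep x)
  have h2 := rep_nu (RR_ne k i) (rep_rep y)
  rw [hom_RR] at h1 h2
  rw [← e] at h2
  have h3 : x.rep 1 * y.rep 0 = x.rep 0 * y.rep 1 := by
    have h := fun j => seg_par h1 h2 (if i.1 then j + 3 else j)
    obtain ⟨a, b, _ | c⟩ := i
    · cases a <;> simpa [sw, W0] using h 0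
    · by_cases g : (sg b * (c : ℂ) ^ 2) ^ k = sg b
      · cases a <;> cases b <;> simpa [sw, W0, g, fv, eq_comm] using h 3
      · cases a <;> cases b <;> simpa [sw, W0, g, fv, eq_comm] using h 4
  refine (rep_rep x).eq (Morph.of_minors (rep_rep y) x.rep_nonzero fun a b => ?_)
  fin_cases a <;> fin_cases b
  exacts [rfl, h3.symm, h3, rfl]

theorem zero_set {k : ℕ} (hk : 0 < k) : ∃ G : MvPolynomial (Fin (63 + 1)) ℂ, G.IsHomogeneous 2 ∧
    ¬ YY k ⊆ zeroSet {G} ∧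
    YY k ∩ zeroSet {G} = ⋃ i : II k, Set.range (nu (RR k i) (dd k i)) := by
  refine ⟨GG, GG_hom, fun h => ?_, Set.Subset.antisymm ?_ ?_⟩
  · obtain ⟨s, hs⟩ := IsAlgClosed.exists_pow_nat_eq (3 : ℂ) hk
    obtain ⟨m, hm⟩ := IsAlgClosed.exists_pow_nat_eq (-s / 2) two_pos
    have h1 : -2 * m * m = s ∧ -2 * m * (1 - s ^ k) = m * (1 + s ^ k) :=
      ⟨by linear_combination -2 * hm, by rw [hs]; ring⟩
    obtain ⟨h2, h3⟩ := (sol_pt.2 ⟨h1, h1⟩).mem
    have h4 := (mem_zero (rep_toP h2)).1 (h h3)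
    have h5 : s ^ 4 = 0 := by
      simp only [gg, pt] at h4
      simp [mul_pow, hm, -mul_eq_zero] at h4
      linear_combination 4 / 81 * h4
    rw [pow_eq_zero_iff (by norm_num)] at h5
    simp [h5, hk.ne'] at hs
  · rintro x ⟨⟨u, h1, h2⟩, h3⟩
    rw [mem_zero h2] at h3
    obtain ⟨a, ha⟩ : ∃ a, sw a u 5 0 * sw a u 5 1 = 0 := by
      by_contra c
      rw [not_exists] at c
      rcases mul_eq_zero.1 h3 with g | g
      · exact c false (half (ne_or (h1.1 0)) (ne_or (h1.1 1)) (c true) h1.2.1.1 h1.2.1.2 g)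
      · exact c true (half (ne_or (h1.1 3)) (ne_or (h1.1 4)) (c false) h1.2.2.1 h1.2.2.2 g)
    obtain ⟨b, o, y, hy, hp⟩ := classify hk (sol_sw h1 a) ha
    have h4 : Par u (sw a (W0 k b (o.map (↑)) y)) := fun j => by
      rw [← sw_sw a u]
      exact hp _
    have h5 : (![y.1, y.2] : VV 1) ≠ 0 := fun e => hy (Prod.ext (congrFun e 0) (congrFun e 1))
    have h6 := rep_nu (RR_ne k (a, b, o)) (rep_toP h5)
    rw [hom_RR] at h6
    exact Set.mem_iUnion.2 ⟨(a, b, o), _, h6.eq (h4.rep h2 fun _ => W0_ne _ _ _ hy _)⟩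
  · rintro _ ⟨_, ⟨i, rfl⟩, x, rfl⟩
    have h1 := rep_nu (RR_ne k i) (rep_rep x)
    rw [hom_RR] at h1
    obtain ⟨h2, h3⟩ := sol_W0 hk i.2.1 i.2.2 (pair_ne x.rep_nonzero).1
    exact ⟨⟨_, sol_sw h2 _, h1⟩, (mem_zero h1).2 ((gg_sw _ _).trans h3)⟩

end Pool.Agent.Lib.MP_879098_ag.Q2
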