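import Pool.Agent.Lib.MP_879098_ag.SBase

/-! The surface is Zariski closed. -/

namespace Pool.Agent.Lib.MP_879098_ag.Sm

open Filter Topology Polynomial Metric

namespace H76

/-- the four equations of the surface -/
def EE {R : Type} [CommRing R] (k : ℕ) (u : Fin 6 → Fin 2 → R) : Fin 4 → R :=
  ![u 0 1 * u 1 1 * u 2 0 - u 0 0 * u 1 0 * u 2 1,
    u 0 1 * u 1 0 * (u 5 0 ^ k - u 5 1 ^ k) - u 0 0 * u 1 1 * (u 5 0 ^ k + u 5 1 ^ k),
    u 3 1 * u 4 1 * u 5 0 - u 3 0 * u 4 0 * u 5 1,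
    u 3 1 * u 4 0 * (u 2 0 ^ k - u 2 1 ^ k) - u 3 0 * u 4 1 * (u 2 0 ^ k + u 2 1 ^ k)]

theorem sol_iff {k : ℕ} {u : W6} : Sol k u ↔ (∀ i, u i ≠ 0) ∧ EE k u = 0 := by
  rw [Sol, funext_iff]
  simp [Zr, EE, Fin.forall_fin_succ, sub_eq_zero, and_assoc]

theorem EE_smul {k : ℕ} {u : W6} (h : EE k u = 0) (c : Fin 6 → ℂ) :
    EE k (fun i => c i • u i) = 0 := by
  have h0 := congrFun h 0
  have h1 := congrFun h 1
  have h2 := congrFun h 2
  have h3 := congrFun h 3
  simp only [EE, Matrix.cons_val_zero, Matrix.cons_val_one, Matrix.cons_val, Pi.zero_apply]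
    at h0 h1 h2 h3
  ext a
  fin_cases a <;> simp [EE, mul_pow]
  · linear_combination c 0 * c 1 * c 2 * h0
  · linear_combination c 0 * c 1 * c 5 ^ k * h1
  · linear_combination c 3 * c 4 * c 5 * h2
  · linear_combination c 3 * c 4 * c 2 ^ k * h3

theorem map_EE {R S : Type} [CommRing R] [CommRing S] (f : R →+* S) (k : ℕ)
    (u : Fin 6 → Fin 2 → R) (a : Fin 4) : f (EE k u a) = EE k (fun i b => f (u i b)) a := by
  fin_cases a <;> simp [EE]

theorem hom_EE (k : ℕ) (u : Fin 6 → Fin 2 → MvPolynomial (Fin (63 + 1)) ℂ)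
    (hu : ∀ i b, (u i b).IsHomogeneous 1) (a : Fin 4) : ∃ d, (EE k u a).IsHomogeneous d := by
  have p : ∀ i b, (u i b ^ k).IsHomogeneous (1 * k) := fun i b => (hu i b).pow k
  fin_cases a
  · exact ⟨_, (((hu 0 1).mul (hu 1 1)).mul (hu 2 0)).sub (((hu 0 0).mul (hu 1 0)).mul (hu 2 1))⟩
  · exact ⟨_, (((hu 0 1).mul (hu 1 0)).mul ((p 5 0).sub (p 5 1))).sub
      (((hu 0 0).mul (hu 1 1)).mul ((p 5 0).add (p 5 1)))⟩
  · exact ⟨_, (((hu 3 1).mul (hu 4 1)).mul (hu 5 0)).sub (((hu 3 0).mul (hu 4 0)).mul (hu 5 1))⟩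
  · exact ⟨_, (((hu 3 1).mul (hu 4 0)).mul ((p 2 0).sub (p 2 1))).sub
      (((hu 3 0).mul (hu 4 1)).mul ((p 2 0).add (p 2 1)))⟩

theorem seg_prj_smul (e : Fin 6 → Fin 2) (s : ℂ) (u : W6) :
    seg (prj e (s • seg u)) = (s • seg u) (idx.symm e) ^ 5 • s • seg u := by
  rw [prj_smul, show s • prj e (seg u) = fun i => (fun _ => s) i • prj e (seg u) i from rfl,
    seg_smul, seg_prj, smul_smul, smul_smul]
  congr 1
  simp only [Finset.prod_const, Finset.card_univ, Fintype.card_fin, Pi.smul_apply, smul_eq_mul]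
  ring

/-- a vector with a nonzero coordinate that satisfies the equations lies in the cone -/
theorem rep_of_eqs {k : ℕ} {v : VV 63} {e : Fin 6 → Fin 2} (he : v (idx.symm e) ≠ 0)
    (h1 : seg (prj e v) = v (idx.symm e) ^ 5 • v) (h2 : EE k (prj e v) = 0) :
    ∃ y ∈ YY k, Rep v y := by
  have hv : v ≠ 0 := fun c => he (by rw [c]; rfl)
  refine ⟨toP v, ⟨prj e v, sol_iff.2 ⟨fun i c => he ?_, h2⟩, ?_⟩, rep_toP hv⟩
  · rw [← prj_self e v i, c]; rfl
  · rw [h1]
    exact (rep_toP hv).smul (pow_ne_zero 5 he)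

end H76

open H76 in
theorem isZClosed_YY (k : ℕ) : IsZClosed (YY k) := by
  classical
  refine ⟨{F | ∃ (e : Fin 6 → Fin 2) (j : Fin (63 + 1)), F =
      ∏ i, MvPolynomial.X (idx.symm (Function.update e i (idx j i))) -
        MvPolynomial.X (idx.symm e) ^ 5 * MvPolynomial.X j} ∪
      {F | ∃ (e : Fin 6 → Fin 2) (a : Fin 4),
        F = EE k (fun i b => MvPolynomial.X (idx.symm (Function.update e i b))) a}, ?_, ?_⟩
  · rintro F (⟨e, j, rfl⟩ | ⟨e, a, rfl⟩)
    · refine ⟨6, MvPolynomial.IsHomogeneous.sub ?_ ?_⟩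
      · have := MvPolynomial.IsHomogeneous.prod (R := ℂ) Finset.univ
          (fun i : Fin 6 => MvPolynomial.X (idx.symm (Function.update e i (idx j i))))
          (fun _ => 1) fun i _ => MvPolynomial.isHomogeneous_X _ _
        simpa using this
      · exact ((MvPolynomial.isHomogeneous_X ℂ (idx.symm e)).pow 5).mul
          (MvPolynomial.isHomogeneous_X ℂ j)
    · exact hom_EE k _ (fun i b => MvPolynomial.isHomogeneous_X _ _) a
  · ext x
    constructor
    · rintro ⟨u, hu, h2⟩ v hv F hF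
      obtain ⟨s, -, rfl⟩ := h2.exists_smul hv
      rcases hF with ⟨e, j, rfl⟩ | ⟨e, a, rfl⟩
      · have := congrFun (seg_prj_smul e s u) j
        simp only [map_sub, map_prod, map_mul, map_pow, MvPolynomial.eval_X]
        exact sub_eq_zero.2 this
      · rw [map_EE]
        simp only [MvPolynomial.eval_X]
        have := EE_smul (sol_iff.1 hu).2 fun i => s * ∏ l ∈ Finset.univ.erase i, u l (e l)
        refine Eq.trans (congrFun (congrArg _ (funext fun i => ?_)) a) (congrFun this a)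
        rw [mul_smul, ← prj_seg]
        rfl
    · intro hx
      have hv := rep_rep x
      obtain ⟨j, hj⟩ := Function.ne_iff.1 hv.ne
      obtain ⟨e, rfl⟩ := idx.symm.surjective j
      obtain ⟨y, hy, h⟩ := rep_of_eqs (k := k) hj (funext fun j => by
        have := hx _ hv _ (Or.inl ⟨e, j, rfl⟩)
        simp only [map_sub, map_prod, map_mul, map_pow, MvPolynomial.eval_X] at this
        exact sub_eq_zero.1 this) (funext fun a => by
        have := hx _ hv _ (Or.inr ⟨e, a, rfl⟩)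
        rw [map_EE] at this
        simp only [MvPolynomial.eval_X] at this
        exact this)
      rwa [hv.eq h]

end Pool.Agent.Lib.MP_879098_ag.Sm
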