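import Pool.Agent.Lib.MP_879098_ag.Defs

/-! Smooth subsets of projective space. -/

namespace Pool.Agent.Lib.MP_879098_ag

open Filter Topology

/-- `X` is a complex submanifold of projective space: near each vector of homogeneous coordinates
of a point of `X`, the cone over `X` is the zero set of an analytic map with surjective
derivative. -/
def IsSmooth {n : ℕ} (X : Set (PP n)) : Prop :=
  ∀ x ∈ X, ∀ v, Rep v x → ∃ (c : ℕ) (F : (Fin (n + 1) → ℂ) → Fin c → ℂ), AnalyticAt ℂ F v ∧
    Function.Surjective (fderiv ℂ F v) ∧ ∀ᶠ w in 𝓝 v, (F w = 0 ↔ ∃ y ∈ X, Rep w y)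

end Pool.Agent.Lib.MP_879098_ag
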