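import Pool.Agent.Lib.MP_879098_ag.SDense
import Pool.Agent.Lib.MP_879098_ag.SClosed
import Pool.Agent.Lib.MP_879098_ag.Morph

/-! The smooth surface is a projective variety. -/

namespace Pool.Agent.Lib.MP_879098_ag.Sm

open Filter Topology Polynomial Metric

namespace Ir

/-- an open part of the curve `v ^ 2 = 1 - x ^ n` -/
def C0 (n : ℕ) : Set (ℂ × ℂ) := {p | p.2 ^ 2 = 1 - p.1 ^ n ∧ p.1 ≠ 0 ∧ p.2 ≠ 0}

/-- functions that are of the form `a x + b x * v` on the curve -/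
noncomputable def PF (n : ℕ) : Subalgebra ℂ (ℂ × ℂ → ℂ) where
  carrier := {f | ∃ a b : ℂ[X], ∀ p ∈ C0 n, f p = a.eval p.1 + b.eval p.1 * p.2}
  mul_mem' := by
    rintro f g ⟨a, b, h⟩ ⟨c, d, h'⟩
    refine ⟨a * c + b * d * (1 - X ^ n), a * d + b * c, fun p hp => ?_⟩
    simp only [Pi.mul_apply, h p hp, h' p hp, eval_add, eval_mul, eval_sub, eval_one, eval_pow,
      eval_X]
    linear_combination b.eval p.1 * d.eval p.1 * hp.1
  add_mem' := by
    rintro f g ⟨a, b, h⟩ ⟨c, d, h'⟩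
    refine ⟨a + c, b + d, fun p hp => ?_⟩
    simp only [Pi.add_apply, h p hp, h' p hp, eval_add]
    ring
  algebraMap_mem' c := ⟨C c, 0, fun p _ => by simp⟩

theorem eval_mem {n : ℕ} {Φ : ℂ × ℂ → VV 63} (h : ∀ j, (fun p => Φ p j) ∈ PF n)
    (F : MvPolynomial (Fin (63 + 1)) ℂ) : (fun p => MvPolynomial.eval (Φ p) F) ∈ PF n := by
  induction F using MvPolynomial.induction_on with
  | C c => exact ⟨C c, 0, fun p _ => by simp⟩
  | add F G hF hG =>
    simp only [map_add]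
    exact (PF n).add_mem hF hG
  | mul_X F j hF =>
    simp only [map_mul, MvPolynomial.eval_X]
    exact (PF n).mul_mem hF (h j)

theorem seg_mem {n : ℕ} {U : ℂ × ℂ → W6} (h : ∀ i a, (fun p => U p i a) ∈ PF n) (j : Fin (63 + 1)) :
    (fun p => seg (U p) j) ∈ PF n := by
  have := (PF n).prod_mem (t := Finset.univ) fun i _ => h i (idx j i)
  convert this using 1
  ext p
  simp [seg]

theorem norm_zero {n : ℕ} (hn : 0 < n) {a b : ℂ[X]} (h : a * a - b * b * (1 - X ^ n) = 0) :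
    a = 0 ∧ b = 0 := by
  have hs : (1 - X ^ n : ℂ[X]).Separable :=
    (separable_X_pow_sub_C (1 : ℂ) (Nat.cast_ne_zero.2 hn.ne') one_ne_zero).of_dvd
      ⟨-1, by simp⟩
  have h0 : (1 - X ^ n : ℂ[X]) ≠ 0 := hs.ne_zero
  have h1 : rootMultiplicity 1 (1 - X ^ n : ℂ[X]) = 1 :=
    le_antisymm (rootMultiplicity_le_one_of_separable hs 1)
      ((rootMultiplicity_pos h0).2 (by simp))
  have e := sub_eq_zero.1 h
  have hb : b = 0 := by
    by_contra hb
    have n1 : b * b * (1 - X ^ n) ≠ 0 := mul_ne_zero (mul_ne_zero hb hb) h0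
    have h2 := congrArg (rootMultiplicity 1) e
    rw [rootMultiplicity_mul (e ▸ n1), rootMultiplicity_mul n1,
      rootMultiplicity_mul (mul_ne_zero hb hb), h1] at h2
    omega
  rw [hb, zero_mul, zero_mul] at e
  exact ⟨mul_self_eq_zero.1 e, hb⟩

theorem dom {n : ℕ} (hn : 0 < n) {f g : ℂ × ℂ → ℂ} (hf : f ∈ PF n) (hg : g ∈ PF n)
    (h : ∀ p ∈ C0 n, f p * g p = 0) : (∀ p ∈ C0 n, f p = 0) ∨ ∀ p ∈ C0 n, g p = 0 := by
  obtain ⟨a, b, hf⟩ := hf
  obtain ⟨c, d, hg⟩ := hg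
  have h0 : (X * (1 - X ^ n) : ℂ[X]) ≠ 0 := mul_ne_zero X_ne_zero fun e => by
    simpa [hn.ne'] using congrArg (eval 0) e
  have key : X * (1 - X ^ n) * ((a * a - b * b * (1 - X ^ n)) * (c * c - d * d * (1 - X ^ n))) = 0 := by
    refine Polynomial.funext fun x => ?_
    simp only [eval_mul, eval_sub, eval_one, eval_pow, eval_X, eval_zero]
    by_cases hx : x = 0
    · simp [hx]
    obtain ⟨v, hv⟩ := IsAlgClosed.exists_pow_nat_eq (1 - x ^ n) two_pos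
    by_cases hv0 : v = 0
    · rw [← hv, hv0]
      simp
    have m1 : (x, v) ∈ C0 n := ⟨hv, hx, hv0⟩
    have m2 : (x, -v) ∈ C0 n := ⟨by rw [neg_sq]; exact hv, hx, neg_ne_zero.2 hv0⟩
    have e1 := h _ m1
    rw [hf _ m1, hg _ m1] at e1
    rw [← hv]
    linear_combination (x * v ^ 2 * (a.eval x - b.eval x * v) * (c.eval x - d.eval x * v)) * e1
  rcases mul_eq_zero.1 ((mul_eq_zero.1 key).resolve_left h0) with e | e
  · left
    intro p hp
    rw [hf p hp, (norm_zero hn e).1, (norm_zero hn e).2]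
    simp
  · right
    intro p hp
    rw [hg p hp, (norm_zero hn e).1, (norm_zero hn e).2]
    simp

/-- the parametrisation of the surface by a product of two curves -/
def UU (k : ℕ) (p q : ℂ × ℂ) : W6 :=
  ![![1 - q.1 ^ (2 * k), p.1 * q.2], ![1 + q.1 ^ (2 * k), p.1 * q.2], ![1, p.1 ^ 2],
    ![1 - p.1 ^ (2 * k), q.1 * p.2], ![1 + p.1 ^ (2 * k), q.1 * p.2], ![1, q.1 ^ 2]]

theorem sol_UU {k : ℕ} {p q : ℂ × ℂ} (hp : p ∈ C0 (4 * k)) (hq : q ∈ C0 (4 * k)) :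
    Sol k (UU k p q) := by
  obtain ⟨e1, a1, a2⟩ := hp
  obtain ⟨e2, b1, b2⟩ := hq
  rw [show 4 * k = 2 * k * 2 by ring, pow_mul] at e1 e2
  refine ⟨fun i h => ?_, ?_, ?_⟩
  · have := congrFun h 1
    fin_cases i <;> simp [UU, a1, a2, b1, b2] at this
  · simp only [Zr, UU, Matrix.cons_val, ← pow_mul, one_pow]
    exact ⟨by linear_combination p.1 ^ 2 * e2, by ring⟩
  · simp only [Zr, UU, Matrix.cons_val, ← pow_mul, one_pow]
    exact ⟨by linear_combination q.1 ^ 2 * e1, by ring⟩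

theorem left_mem (k : ℕ) (q : ℂ × ℂ) (i : Fin 6) (a : Fin 2) :
    (fun p => UU k p q i a) ∈ PF (4 * k) := by
  fin_cases i <;> fin_cases a
  exacts [⟨C (1 - q.1 ^ (2 * k)), 0, fun p _ => by simp [UU]⟩,
    ⟨C q.2 * X, 0, fun p _ => by rw [eval_mul, eval_C, eval_X, mul_comm q.2]; simp [UU]⟩,
    ⟨C (1 + q.1 ^ (2 * k)), 0, fun p _ => by simp [UU]⟩,
    ⟨C q.2 * X, 0, fun p _ => by rw [eval_mul, eval_C, eval_X, mul_comm q.2]; simp [UU]⟩,
    ⟨1, 0, fun p _ => by simp [UU]⟩, ⟨X ^ 2, 0, fun p _ => by simp [UU]⟩,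
    ⟨1 - X ^ (2 * k), 0, fun p _ => by simp [UU]⟩, ⟨0, C q.1, fun p _ => by simp [UU]⟩,
    ⟨1 + X ^ (2 * k), 0, fun p _ => by simp [UU]⟩, ⟨0, C q.1, fun p _ => by simp [UU]⟩,
    ⟨1, 0, fun p _ => by simp [UU]⟩, ⟨C (q.1 ^ 2), 0, fun p _ => by simp [UU]⟩]

theorem right_mem (k : ℕ) (p : ℂ × ℂ) (i : Fin 6) (a : Fin 2) :
    (fun q => UU k p q i a) ∈ PF (4 * k) := by
  fin_cases i <;> fin_cases a
  exacts [left_mem k p 3 0, left_mem k p 3 1, left_mem k p 4 0, left_mem k p 4 1,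
    left_mem k p 5 0, left_mem k p 5 1, left_mem k p 0 0, left_mem k p 0 1, left_mem k p 1 0,
    left_mem k p 1 1, left_mem k p 2 0, left_mem k p 2 1]

theorem half {k : ℕ} {l m l' m' x z : ℂ} (h : Gen k l m l' m') (hx : x ^ 2 = l * m)
    (hz : z ^ 2 = l' * m') :
    (z, l / x * (1 - z ^ (2 * k))) ∈ C0 (4 * k) ∧ 1 - z ^ (2 * k) ≠ 0 ∧ 1 + z ^ (2 * k) ≠ 0 ∧
      x * (l / x * (1 - z ^ (2 * k))) = (1 - z ^ (2 * k)) * l ∧
      x * (l / x * (1 - z ^ (2 * k))) = (1 + z ^ (2 * k)) * m := by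
  have x0 : x ≠ 0 := fun e => mul_ne_zero h.l0 h.m0 (by rw [← hx, e]; simp)
  have z0 : z ≠ 0 := fun e => mul_ne_zero h.l0' h.m0' (by rw [← hz, e]; simp)
  obtain ⟨n1, n2⟩ := h.symm.ne
  have e := h.eq
  rw [← hz, ← pow_mul] at n1 n2 e
  have e1 : x * (l / x * (1 - z ^ (2 * k))) = (1 - z ^ (2 * k)) * l := by field_simp
  refine ⟨⟨?_, z0, mul_ne_zero (div_ne_zero h.l0 x0) n1⟩, n1, n2, e1, by linear_combination e1 + e⟩
  refine mul_left_cancel₀ (pow_ne_zero 2 x0) ?_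
  rw [← mul_pow, e1, hx, show 4 * k = 2 * k * 2 by ring, pow_mul z (2 * k) 2]
  linear_combination l * (1 - z ^ (2 * k)) * e

theorem exists_param {k : ℕ} {l m l' m' : ℂ} (h : Gen k l m l' m') :
    ∃ p ∈ C0 (4 * k), ∃ q ∈ C0 (4 * k), ∃ c : ℂ, c ≠ 0 ∧ seg (UU k p q) = c • gpt l m l' m' := by
  obtain ⟨x, hx⟩ := IsAlgClosed.exists_pow_nat_eq (l * m) two_pos
  obtain ⟨z, hz⟩ := IsAlgClosed.exists_pow_nat_eq (l' * m') two_pos
  obtain ⟨a1, a2, a3, a4, a5⟩ := half h hx hz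
  obtain ⟨b1, b2, b3, b4, b5⟩ := half h.symm hz hx
  refine ⟨_, b1, _, a1, ∏ i, ![1 - z ^ (2 * k), 1 + z ^ (2 * k), 1, 1 - x ^ (2 * k),
    1 + x ^ (2 * k), 1] i, by simp [Fin.prod_univ_six, a2, a3, b2, b3], ?_⟩
  rw [gpt, ← seg_smul]
  refine congrArg seg ?_
  ext i a
  fin_cases i <;> fin_cases a
  exacts [by simp [UU, pt], by simpa [UU, pt] using a4, by simp [UU, pt],
    by simpa [UU, pt] using a5, by simp [UU, pt], by simpa [UU, pt] using hx, by simp [UU, pt],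
    by simpa [UU, pt] using b4, by simp [UU, pt], by simpa [UU, pt] using b5, by simp [UU, pt],
    by simpa [UU, pt] using hz]

theorem subset_of {k : ℕ} (hk : 0 < k) {F : MvPolynomial (Fin (63 + 1)) ℂ} {d : ℕ}
    (hF : F.IsHomogeneous d)
    (h : ∀ p ∈ C0 (4 * k), ∀ q ∈ C0 (4 * k), MvPolynomial.eval (seg (UU k p q)) F = 0) :
    YY k ⊆ zeroSet {F} := by
  intro x hx v hv G hG
  rw [Set.mem_singleton_iff.1 hG]
  have h1 : ∀ κ l m l' m' : ℂ, Gen k l m l' m' → MvPolynomial.eval (κ • gpt l m l' m') F = 0 := by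
    intro κ l m l' m' g
    obtain ⟨p, hp, q, hq, c, hc, e⟩ := exists_param g
    have := h p hp q hq
    rw [e, Morph.eval_smul hF] at this
    rw [Morph.eval_smul hF, (mul_eq_zero.1 this).resolve_left (pow_ne_zero _ hc), mul_zero]
  obtain ⟨σ, σ0, rfl⟩ := (rep_rep x).exists_smul hv
  have hc : IsClosed {w : VV 63 | MvPolynomial.eval w F = 0} :=
    isClosed_eq (MvPolynomial.continuous_eval F) continuous_const
  refine hc.closure_subset (Metric.mem_closure_iff.2 fun ε ε0 => ?_)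
  have n0 : 0 < ‖σ • x.rep‖ := norm_pos_iff.2 hv.ne
  obtain ⟨l, m, l', m', e, hn⟩ := gen_dense k hk x hx (ε / ‖σ • x.rep‖) (by positivity)
  obtain ⟨κ, κ0, hκ⟩ := hn.smul_left σ0
  refine ⟨κ⁻¹ • gpt l m l' m', h1 _ _ _ _ _ e, ?_⟩
  have e1 : κ⁻¹ • gpt l m l' m' - σ • x.rep = κ⁻¹ • (gpt l m l' m' - κ • σ • x.rep) := by
    rw [smul_sub, inv_smul_smul₀ κ0]
  rw [dist_comm, dist_eq_norm, e1, norm_smul, norm_inv, inv_mul_lt_iff₀ (norm_pos_iff.2 κ0)]
  refine hκ.trans_eq ?_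
  rw [norm_smul κ]
  field_simp

end Ir

open Ir in
theorem isProjVariety_YY (k : ℕ) (hk : 0 < k) : IsProjVariety (YY k) := by
  refine ⟨isZClosed_YY k, ⟨_, (cen_mem hk 0).2⟩, fun F G d e hF hG h => ?_⟩
  by_contra c
  rw [not_or] at c
  have c1 := mt (subset_of hk hF) c.1
  have c2 := mt (subset_of hk hG) c.2
  push Not at c1 c2
  obtain ⟨p, hp, q, hq, n1⟩ := c1
  obtain ⟨p', hp', q', hq', n2⟩ := c2
  have h4 : 0 < 4 * k := by omega
  have h1 : ∀ r ∈ C0 (4 * k), MvPolynomial.eval (seg (UU k p r)) F *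
      MvPolynomial.eval (seg (UU k p' r)) G = 0 := by
    intro r hr
    have := dom h4 (eval_mem (seg_mem (left_mem k r)) F) (eval_mem (seg_mem (left_mem k r)) G)
      fun s hs => by
        rw [← map_mul]
        exact h (sol_UU hs hr).mem.2 _ (rep_toP (sol_UU hs hr).mem.1) _ rfl
    rcases this with g | g
    · rw [g p hp, zero_mul]
    · rw [g p' hp', mul_zero]
  rcases dom h4 (eval_mem (seg_mem (right_mem k p)) F) (eval_mem (seg_mem (right_mem k p')) G) h1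
    with g | g
  · exact n1 (g q hq)
  · exact n2 (g q' hq')

end Pool.Agent.Lib.MP_879098_ag.Sm
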