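import Pool.Agent.Lib.MP_879098_ag.Close

/-! Smoothing of a rational curve with finitely many rational curves attached to it. -/

namespace Pool.Agent.Lib.MP_879098_ag.Sm.Sta

open Filter Topology Polynomial Metric Clo

variable {n : ℕ}

theorem exists_pos_forall (Z : Finset ℂ) (p : ℂ → ℝ → Prop)
    (mono : ∀ c x y, 0 < y → y ≤ x → p c x → p c y) (h : ∀ c ∈ Z, ∃ x, 0 < x ∧ p c x) :
    ∃ x, 0 < x ∧ ∀ c ∈ Z, p c x := by
  classical
  induction Z using Finset.induction_on with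
  | empty => exact ⟨1, one_pos, by simp⟩
  | insert a s _ ih =>
    obtain ⟨x, hx, h1⟩ := ih fun c hc => h c (Finset.mem_insert_of_mem hc)
    obtain ⟨y, hy, h2⟩ := h a (Finset.mem_insert_self _ _)
    refine ⟨min x y, lt_min hx hy, fun c hc => ?_⟩
    rcases Finset.mem_insert.1 hc with rfl | hc
    · exact mono _ _ _ (lt_min hx hy) (min_le_right _ _) h2
    · exact mono _ _ _ (lt_min hx hy) (min_le_left _ _) (h1 c hc)

/-- the polar part of one attached curve, cleared of its denominator -/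
theorem exists_tail {p : ℂ[X]} {d : ℕ} (hp : p.natDegree ≤ d) (c ε : ℂ) :
    ∃ T : ℂ[X], T.degree < (d : WithBot ℕ) ∧
      (∀ w, w ≠ c → T.eval w = (w - c) ^ d * (p.eval (ε / (w - c)) - p.eval 0)) ∧
      T.eval c = ε ^ d * p.coeff d - 0 ^ d * p.eval 0 := by
  refine ⟨∑ k ∈ Finset.range d, C (p.coeff (k + 1) * ε ^ (k + 1)) * (X - C c) ^ (d - (k + 1)),
    ?_, fun w hw => ?_, ?_⟩
  · refine (degree_sum_le _ _).trans_lt ((Finset.sup_lt_iff (WithBot.bot_lt_coe _)).2 fun k hk => ?_)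
    have h1 := Finset.mem_range.1 hk
    refine (degree_le_natDegree.trans (WithBot.coe_le_coe.2 ((natDegree_C_mul_le _ _).trans
      (le_of_eq (b := d - (k + 1)) ?_)))).trans_lt ?_
    · rw [natDegree_pow, natDegree_X_sub_C, mul_one]
    · exact WithBot.coe_lt_coe.2 (show d - (k + 1) < d by omega)
  · have hw' : w - c ≠ 0 := sub_ne_zero.2 hw
    simp only [eval_mul, eval_pow, eval_X, eval_finsetSum, eval_C, eval_sub]
    rw [eval_eq_sum_range' (Nat.lt_succ_of_le hp) (ε / (w - c)), Finset.sum_range_succ',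
      ← coeff_zero_eq_eval_zero, pow_zero, mul_one, add_sub_cancel_right, Finset.mul_sum]
    refine Finset.sum_congr rfl fun k hk => ?_
    have h2 : (w - c) ^ d = (w - c) ^ (d - (k + 1)) * (w - c) ^ (k + 1) := by
      rw [← pow_add, Nat.sub_add_cancel (Finset.mem_range.1 hk)]
    rw [h2, div_pow]
    field_simp
  · simp only [eval_mul, eval_pow, eval_X, eval_finsetSum, eval_C, eval_sub, sub_self]
    rcases d with _ | d
    · simp [coeff_zero_eq_eval_zero]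
    · rw [Finset.sum_range_succ, Finset.sum_eq_zero fun k hk => ?_]
      · simp [mul_comm]
      · have := Finset.mem_range.1 hk
        rw [zero_pow (by omega), mul_zero]

/-- `W` is the smoothing with parameter `ε` of the curve `P` and the curves `P' c`. -/
structure Smo (Z : Finset ℂ) (P : Fin (n + 1) → ℂ[X]) (P' : ℂ → Fin (n + 1) → ℂ[X]) (d : ℕ)
    (d' : ℂ → ℕ) (ε : ℂ) (W : Fin (n + 1) → ℂ[X]) : Prop where
  deg : ∀ i, (W i).natDegree ≤ d + ∑ c ∈ Z, d' c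
  val : ∀ w, w ∉ Z → ∃ s : ℂ, s ≠ 0 ∧
    pev W w = s • (pev P w + ∑ c ∈ Z, (pev (P' c) (ε / (w - c)) - pev (P' c) 0))
  node : ∀ c ∈ Z, ∃ s : ℂ, s ≠ 0 ∧ pev W c = s • (ε ^ d' c • ptop (P' c) (d' c) +
    (0 : ℂ) ^ d' c • ∑ x ∈ Z.erase c, (pev (P' x) (ε / (c - x)) - pev (P' x) 0))
  top : ptop W (d + ∑ c ∈ Z, d' c) = ptop P d

theorem exists_smo {Z : Finset ℂ} {P : Fin (n + 1) → ℂ[X]} {P' : ℂ → Fin (n + 1) → ℂ[X]} {d : ℕ}
    {d' : ℂ → ℕ} (hP : ∀ i, (P i).natDegree ≤ d) (hP' : ∀ c ∈ Z, ∀ i, (P' c i).natDegree ≤ d' c)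
    (h0 : ∀ c ∈ Z, pev P c = pev (P' c) 0) (ε : ℂ) : ∃ W, Smo Z P P' d d' ε W := by
  choose! T h1 h2 h3 using fun c (hc : c ∈ Z) i => exists_tail (hP' c hc i) c ε
  have m1 : ∀ s : Finset ℂ, (∏ c ∈ s, (X - C c) ^ d' c : ℂ[X]).Monic := fun s =>
    monic_prod_of_monic _ _ fun c _ => (monic_X_sub_C c).pow _
  have m2 : ∀ s : Finset ℂ, (∏ c ∈ s, (X - C c) ^ d' c : ℂ[X]).natDegree = ∑ c ∈ s, d' c :=
    fun s => by
      rw [natDegree_prod_of_monic _ _ fun c _ => (monic_X_sub_C c).pow _]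
      exact Finset.sum_congr rfl fun c _ => by rw [natDegree_pow, natDegree_X_sub_C, mul_one]
  have m3 : ∀ i, (∑ c ∈ Z, (∏ x ∈ Z.erase c, (X - C x) ^ d' x) * T c i).degree <
      ((∑ c ∈ Z, d' c : ℕ) : WithBot ℕ) := fun i => by
    refine (degree_sum_le _ _).trans_lt ((Finset.sup_lt_iff (WithBot.bot_lt_coe _)).2 fun c hc => ?_)
    rw [degree_mul, degree_eq_natDegree (m1 _).ne_zero, m2, ← Finset.sum_erase_add _ _ hc,
      Nat.cast_add]
    exact WithBot.add_lt_add_left (WithBot.coe_ne_bot) (h1 c hc i)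
  refine ⟨fun i => P i * ∏ c ∈ Z, (X - C c) ^ d' c +
    ∑ c ∈ Z, (∏ x ∈ Z.erase c, (X - C x) ^ d' x) * T c i, fun i => ?_, fun w hw => ?_,
    fun c hc => ?_, ?_⟩
  · refine natDegree_add_le_of_degree_le (natDegree_mul_le.trans ?_)
      (natDegree_le_iff_degree_le.2 ((m3 i).le.trans ?_))
    · rw [m2]
      exact Nat.add_le_add_right (hP i) _
    · exact_mod_cast Nat.le_add_left _ _
  · have hw' : ∀ c ∈ Z, w ≠ c := fun c hc e => hw (e ▸ hc)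
    refine ⟨∏ c ∈ Z, (w - c) ^ d' c,
      Finset.prod_ne_zero_iff.2 fun c hc => pow_ne_zero _ (sub_ne_zero.2 (hw' c hc)), ?_⟩
    ext i
    simp only [pev, Pi.smul_apply, Pi.add_apply, Pi.sub_apply, smul_eq_mul, eval_add, eval_mul,
      eval_pow, eval_X, eval_finsetSum, eval_C, eval_prod, eval_sub, Finset.sum_apply]
    rw [mul_add, mul_comm, Finset.mul_sum]
    congr 1
    refine Finset.sum_congr rfl fun c hc => ?_
    rw [h2 c hc i w (hw' c hc), ← mul_assoc, Finset.prod_erase_mul _ _ hc]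
  · refine ⟨∏ x ∈ Z.erase c, (c - x) ^ d' x, Finset.prod_ne_zero_iff.2 fun x hx =>
      pow_ne_zero _ (sub_ne_zero.2 (Finset.ne_of_mem_erase hx).symm), ?_⟩
    ext i
    have h4 := congrFun (h0 c hc) i
    simp only [pev] at h4
    simp only [pev, ptop, Pi.smul_apply, Pi.add_apply, Pi.sub_apply, smul_eq_mul, eval_add,
      eval_mul, eval_pow, eval_X, eval_finsetSum, eval_C, eval_prod, eval_sub, Finset.sum_apply]
    rw [← Finset.sum_erase_add _ _ hc, ← Finset.prod_erase_mul _ _ hc, h3 c hc i, h4, sub_self,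
      mul_add, Finset.mul_sum, Finset.mul_sum]
    have h5 : ∀ y ∈ Z.erase c, (∏ x ∈ Z.erase y, (c - x) ^ d' x) * eval c (T y i) =
        (∏ x ∈ Z.erase c, (c - x) ^ d' x) *
          (0 ^ d' c * (eval (ε / (c - y)) (P' y i) - eval 0 (P' y i))) := fun y hy => by
      have hy' := Finset.ne_of_mem_erase hy
      rw [h2 y (Finset.mem_of_mem_erase hy) i c hy'.symm, ← mul_assoc,
        Finset.prod_erase_mul _ _ (Finset.mem_of_mem_erase hy), ← Finset.prod_erase_mul _ _ hc,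
        sub_self, mul_assoc]
    rw [Finset.sum_congr rfl h5]
    ring
  · ext i
    simp only [ptop, coeff_add]
    rw [coeff_eq_zero_of_degree_lt ((m3 i).trans_le (by exact_mod_cast Nat.le_add_left _ _)),
      add_zero, coeff_mul_add_eq_of_natDegree_le (hP i) (m2 Z).le, ← m2 Z, (m1 Z).coeff_natDegree,
      mul_one]

/-- All curves vary little on the discs of radius `ρ`, and these discs are far apart. -/
def Sml (δ ρ : ℝ) (Z : Finset ℂ) (P : Fin (n + 1) → ℂ[X]) (P' : ℂ → Fin (n + 1) → ℂ[X]) : Prop :=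
  (∀ c ∈ Z, ∀ x ∈ Z, c ≠ x → 2 * ρ < ‖c - x‖) ∧ ∃ τ : ℝ, 0 < τ ∧
    (∀ w, (Z.card + 1) * τ < δ * ‖pev P w‖) ∧
    (∀ c ∈ Z, ∀ w, (Z.card + 1) * τ < δ * ‖pev (P' c) w‖) ∧
    ∀ c ∈ Z, ∀ v : ℂ, ‖v‖ ≤ ρ → ‖pev P (c + v) - pev P c‖ ≤ τ ∧ ‖pev (P' c) v - pev (P' c) 0‖ ≤ τ

section

variable {Z : Finset ℂ} {P W : Fin (n + 1) → ℂ[X]} {P' : ℂ → Fin (n + 1) → ℂ[X]} {d : ℕ}
  {d' : ℂ → ℕ} {ε w c : ℂ} {δ ρ ρ' : ℝ}

theorem Sml.mono (h : Sml δ ρ Z P P') (h' : ρ' ≤ ρ) : Sml δ ρ' Z P P' := by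
  obtain ⟨h1, τ, h2, h3, h4, h5⟩ := h
  exact ⟨fun c hc x hx e => by linarith [h1 c hc x hx e], τ, h2, h3, h4,
    fun c hc v hv => h5 c hc v (hv.trans h')⟩

theorem exists_lower (hP : ∀ i, (P i).natDegree ≤ d) (h : ∀ w, pev P w ≠ 0) (ht : ptop P d ≠ 0) :
    ∃ m : ℝ, 0 < m ∧ ∀ w, m ≤ ‖pev P w‖ := by
  obtain ⟨m, hm, H⟩ := pev_lower P d hP h ht
  exact ⟨m, hm, fun w => (le_mul_of_one_le_right hm.le
    (one_le_pow₀ (le_add_of_nonneg_right (norm_nonneg w)))).trans (H w)⟩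

theorem exists_var (P : Fin (n + 1) → ℂ[X]) (c : ℂ) {τ : ℝ} (hτ : 0 < τ) :
    ∃ r : ℝ, 0 < r ∧ ∀ v : ℂ, ‖v‖ ≤ r → ‖pev P (c + v) - pev P c‖ ≤ τ := by
  obtain ⟨r, hr, K⟩ := Metric.continuous_iff.1 (continuous_pev P) c _ hτ
  refine ⟨r / 2, half_pos hr, fun v hv => ?_⟩
  have := K (c + v) (by rw [dist_eq_norm, add_sub_cancel_left]; linarith)
  rw [dist_eq_norm] at this
  exact this.le

theorem exists_sml (hP : ∀ i, (P i).natDegree ≤ d) (hP' : ∀ c ∈ Z, ∀ i, (P' c i).natDegree ≤ d' c)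
    (h : ∀ w, pev P w ≠ 0) (h' : ∀ c ∈ Z, ∀ w, pev (P' c) w ≠ 0) (ht : ptop P d ≠ 0)
    (ht' : ∀ c ∈ Z, ptop (P' c) (d' c) ≠ 0) (hδ : 0 < δ) : ∃ ρ : ℝ, 0 < ρ ∧ Sml δ ρ Z P P' := by
  obtain ⟨m, hm, H⟩ := exists_lower hP h ht
  obtain ⟨m', hm', H'⟩ := exists_pos_forall Z (fun c m => ∀ w, m ≤ ‖pev (P' c) w‖)
    (fun _ _ _ _ h1 h2 w => h1.trans (h2 w)) fun c hc => exists_lower (hP' c hc) (h' c hc) (ht' c hc)
  set τ := δ * min m m' / (Z.card + 2) with hτ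
  have t0 : 0 < τ := by positivity
  have t1 : (Z.card + 1) * τ < δ * min m m' := by
    have : (Z.card + 2) * τ = δ * min m m' := by rw [hτ]; field_simp
    linarith
  obtain ⟨r, hr, K⟩ := exists_pos_forall Z (fun c r => (∀ x ∈ Z, c ≠ x → 2 * r < ‖c - x‖) ∧
      ∀ v : ℂ, ‖v‖ ≤ r → ‖pev P (c + v) - pev P c‖ ≤ τ ∧ ‖pev (P' c) v - pev (P' c) 0‖ ≤ τ)
    (fun _ _ _ _ h1 h2 => ⟨fun x hx e => by linarith [h2.1 x hx e],
      fun v hv => h2.2 v (hv.trans h1)⟩) fun c _ => by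
      obtain ⟨r₁, p₁, k₁⟩ := exists_pos_forall Z (fun x r => c ≠ x → 2 * r < ‖c - x‖)
        (fun _ _ _ _ h1 h2 e => by linarith [h2 e]) fun x _ => by
          by_cases e : c = x
          · exact ⟨1, one_pos, fun g => absurd e g⟩
          · have := norm_pos_iff.2 (sub_ne_zero.2 e)
            exact ⟨‖c - x‖ / 4, by positivity, fun _ => by linarith⟩
      obtain ⟨r₂, p₂, k₂⟩ := exists_var P c t0
      obtain ⟨r₃, p₃, k₃⟩ := exists_var (P' c) 0 t0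
      refine ⟨min r₁ (min r₂ r₃), by positivity, fun x hx e => ?_, fun v hv => ⟨k₂ v ?_, ?_⟩⟩
      · linarith [k₁ x hx e, min_le_left r₁ (min r₂ r₃)]
      · exact hv.trans ((min_le_right _ _).trans (min_le_left _ _))
      · simpa using k₃ v (hv.trans ((min_le_right _ _).trans (min_le_right _ _)))
  exact ⟨r, hr, fun c hc => (K c hc).1, τ, t0,
    fun w => t1.trans_le (mul_le_mul_of_nonneg_left ((min_le_left _ _).trans (H w)) hδ.le),
    fun c hc w => t1.trans_le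
      (mul_le_mul_of_nonneg_left ((min_le_right _ _).trans (H' c hc w)) hδ.le),
    fun c hc => (K c hc).2⟩

theorem norm_div_le (hρ : 0 < ρ) (hε : ‖ε‖ ≤ ρ ^ 2) (hw : ρ ≤ ‖w‖) : ‖ε / w‖ ≤ ρ := by
  rw [norm_div, div_le_iff₀ (hρ.trans_le hw)]
  nlinarith

theorem far (g : ∀ c ∈ Z, ∀ x ∈ Z, c ≠ x → 2 * ρ < ‖c - x‖) (hc : c ∈ Z) (h1 : ‖w - c‖ ≤ ρ)
    {x : ℂ} (hx : x ∈ Z.erase c) : ρ < ‖w - x‖ := by
  have h2 := g c hc x (Finset.mem_of_mem_erase hx) (Finset.ne_of_mem_erase hx).symm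
  have h3 := norm_sub_le_norm_sub_add_norm_sub c w x
  rw [norm_sub_rev c w] at h3
  linarith

theorem sum_le {s : Finset ℂ} {τ : ℝ} (hτ : 0 < τ) (hs : s ⊆ Z) {F : ℂ → VV n}
    (h : ∀ x ∈ s, ‖F x‖ ≤ τ) : ‖∑ x ∈ s, F x‖ ≤ Z.card * τ := by
  refine (norm_sum_le _ _).trans ((Finset.sum_le_card_nsmul _ _ τ h).trans ?_)
  rw [nsmul_eq_mul]
  exact mul_le_mul_of_nonneg_right (by exact_mod_cast Finset.card_le_card hs) hτ.le

theorem Smo.nearA (h : Smo Z P P' d d' ε W) (s : Sml δ ρ Z P P') (hw : w ∉ Z)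
    (h1 : ∀ c ∈ Z, ‖ε / (w - c)‖ ≤ ρ) : Near δ (pev P w) (pev W w) := by
  obtain ⟨κ, hκ, e⟩ := h.val w hw
  obtain ⟨-, τ, t0, s1, -, s3⟩ := s
  rw [e]
  refine (near_of_norm ?_).smul_right hκ
  rw [add_sub_cancel_left]
  have := sum_le t0 (Finset.Subset.refl Z) fun c hc => (s3 c hc _ (h1 c hc)).2
  linarith [s1 w]

theorem Smo.nearB (h : Smo Z P P' d d' ε W) (s : Sml δ ρ Z P P')
    (h0 : ∀ c ∈ Z, pev P c = pev (P' c) 0) (hρ : 0 < ρ) (hε : ‖ε‖ ≤ ρ ^ 2) (hc : c ∈ Z)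
    (hw : w ≠ c) (h1 : ‖w - c‖ ≤ ρ) : Near δ (pev (P' c) (ε / (w - c))) (pev W w) := by
  obtain ⟨g, τ, t0, -, s2, s3⟩ := s
  obtain ⟨κ, hκ, e⟩ := h.val w fun hz => by
    have := far g hc h1 (Finset.mem_erase.2 ⟨hw, hz⟩)
    rw [sub_self, norm_zero] at this
    linarith
  rw [e]
  refine (near_of_norm ?_).smul_right hκ
  rw [← Finset.sum_erase_add _ _ hc, ← h0 c hc, show ∀ a b x y : VV n,
    a + (b + (x - y)) - x = (a - y) + b from fun _ _ _ _ => by abel]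
  have h2 := sum_le t0 (Finset.erase_subset c Z) fun x hx =>
    (s3 x (Finset.mem_of_mem_erase hx) _ (norm_div_le hρ hε (far g hc h1 hx).le)).2
  have h3 := (s3 c hc _ h1).1
  rw [add_sub_cancel] at h3
  refine (norm_add_le _ _).trans_lt ?_
  linarith [s2 c hc (ε / (w - c))]

theorem Smo.nearC (h : Smo Z P P' d d' ε W) (s : Sml δ ρ Z P P') (hρ : 0 < ρ) (h0 : ε ≠ 0)
    (hε : ‖ε‖ ≤ ρ ^ 2) (hc : c ∈ Z) (ht : ptop (P' c) (d' c) ≠ 0) :
    Near δ (ptop (P' c) (d' c)) (pev W c) := by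
  obtain ⟨g, τ, t0, -, s2, s3⟩ := s
  obtain ⟨κ, hκ, e⟩ := h.node c hc
  have h4 := s2 c hc 0
  rw [e]
  refine Near.smul_right ?_ hκ
  rcases Nat.eq_zero_or_pos (d' c) with h1 | h1
  · rw [h1, pow_zero, pow_zero, one_smul, one_smul]
    refine near_of_norm ?_
    have h2 := sum_le t0 (Finset.erase_subset c Z) fun x hx =>
      (s3 x (Finset.mem_of_mem_erase hx) _ (norm_div_le hρ hε
        (far (w := c) g hc (by simpa using hρ.le) hx).le)).2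
    have h3 : ptop (P' c) 0 = pev (P' c) 0 := funext fun i => coeff_zero_eq_eval_zero _
    rw [add_sub_cancel_left, h3]
    linarith
  · rw [zero_pow h1.ne', zero_smul, add_zero]
    refine (near_refl ?_ ht).smul_right (pow_ne_zero _ h0)
    by_contra g'
    nlinarith [norm_nonneg (pev (P' c) 0), not_lt.1 g', (Z.card.cast_nonneg : (0 : ℝ) ≤ Z.card)]

theorem Sml.near0 (s : Sml δ ρ Z P P') (hc : c ∈ Z) (h1 : ‖w‖ ≤ ρ) :
    Near δ (pev (P' c) 0) (pev (P' c) w) := by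
  obtain ⟨-, τ, t0, -, s2, s3⟩ := s
  refine near_of_norm ?_
  nlinarith [s2 c hc 0, (s3 c hc w h1).2, (Z.card.cast_nonneg : (0 : ℝ) ≤ Z.card)]

end

end Pool.Agent.Lib.MP_879098_ag.Sm.Sta
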